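import Mathlib

set_option autoImplicit false

open Filter Topology Set

namespace Pool.Agent.X102.FB

/-- The boundary parametrisation `t ↦ t (6 - log |t|)`, continued linearly for `|t| > 1`. -/
noncomputable def h (t : ℝ) : ℝ := if |t| ≤ 1 then t * (6 - Real.log t) else 6 * t

lemma h_of_le {t : ℝ} (ht : |t| ≤ 1) : h t = t * (6 - Real.log t) := if_pos ht

lemma h_of_ge {t : ℝ} (ht : 1 ≤ |t|) : h t = 6 * t := by
  unfold h
  split_ifs with h1
  · have h2 : |t| = 1 := le_antisymm h1 ht
    have : Real.log t = 0 := by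
      rw [← Real.log_abs, h2, Real.log_one]
    rw [this]; ring
  · rfl

lemma h_zero : h 0 = 0 := by simp [h]

lemma h_neg (t : ℝ) : h (-t) = - h t := by
  unfold h
  rw [abs_neg, Real.log_neg_eq_log]
  split_ifs <;> ring

lemma h_mono_aux {s t : ℝ} (hs : 0 ≤ s) (hst : s ≤ t) : 5 * (t - s) ≤ h t - h s := by
  rcases le_total t 1 with ht1 | ht1
  · have hs1 : s ≤ 1 := hst.trans ht1
    have ht0 : 0 ≤ t := hs.trans hst
    rw [h_of_le (by rw [abs_of_nonneg ht0]; exact ht1), h_of_le (by rw [abs_of_nonneg hs]; exact hs1)]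
    rcases hs.eq_or_lt with rfl | hs0
    · have : t * Real.log t ≤ 0 := Real.mul_log_nonpos ht0 ht1
      nlinarith
    · have htpos : 0 < t := lt_of_lt_of_le hs0 hst
      have h1 : Real.log (t / s) ≤ t / s - 1 := Real.log_le_sub_one_of_pos (by positivity)
      rw [Real.log_div htpos.ne' hs0.ne'] at h1
      have h2 : s * (Real.log t - Real.log s) ≤ t - s := by
        have := mul_le_mul_of_nonneg_left h1 hs0.le
        have h3 : s * (t / s - 1) = t - s := by field_simp
        linarith
      have h4 : Real.log t ≤ 0 := Real.log_nonpos ht0 ht1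
      nlinarith
  · rcases le_total s 1 with hs1 | hs1
    · rw [h_of_ge (by rw [abs_of_nonneg (by linarith)]; exact ht1),
        h_of_le (by rw [abs_of_nonneg hs]; exact hs1)]
      have h3 : -(s * Real.log s) ≤ 1 - s := by
        rcases hs.eq_or_lt with rfl | hs0
        · simp
        · have := Real.one_sub_inv_le_log_of_pos hs0
          have h4 := mul_le_mul_of_nonneg_left this hs0.le
          have h5 : s * (1 - s⁻¹) = s - 1 := by field_simp
          linarith
      nlinarith
    · rw [h_of_ge (by rw [abs_of_nonneg (by linarith)]; exact ht1),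
        h_of_ge (by rw [abs_of_nonneg (by linarith)]; exact hs1)]
      linarith

lemma h_mono {s t : ℝ} (hst : s ≤ t) : 5 * (t - s) ≤ h t - h s := by
  rcases le_total 0 s with hs | hs
  · exact h_mono_aux hs hst
  · rcases le_total 0 t with ht | ht
    · have h1 := h_mono_aux le_rfl ht
      have h2 := h_mono_aux le_rfl (neg_nonneg.mpr hs)
      rw [h_neg] at h2
      rw [h_zero] at h1 h2
      linarith
    · have h2 := h_mono_aux (neg_nonneg.mpr ht) (neg_le_neg hst)
      rw [h_neg, h_neg] at h2
      linarith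

lemma h_strictMono : StrictMono h := by
  intro s t hst
  have := h_mono hst.le
  linarith

lemma h_continuous : Continuous h := by
  have h1 : Continuous (fun t : ℝ => t * (6 - Real.log t)) := by
    have : (fun t : ℝ => t * (6 - Real.log t)) = fun t => 6 * t - t * Real.log t := by
      ext t; ring
    rw [this]
    exact (continuous_const.mul continuous_id).sub Real.continuous_mul_log
  unfold h
  apply Continuous.if_le h1 (by fun_prop) continuous_abs continuous_const
  intro t ht
  have : Real.log t = 0 := by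
    rw [← Real.log_abs, ht, Real.log_one]
  rw [this]; ring

lemma h_surjective : Function.Surjective h := by
  apply h_continuous.surjective
  · apply tendsto_atTop_mono' atTop _ (tendsto_id.const_mul_atTop (by norm_num : (0 : ℝ) < 5))
    filter_upwards [eventually_ge_atTop 0] with t ht
    have := h_mono ht
    rw [h_zero] at this
    simp only [id]
    linarith
  · apply tendsto_atBot_mono' atBot _ (tendsto_id.const_mul_atBot (by norm_num : (0 : ℝ) < 5))
    filter_upwards [eventually_le_atBot 0] with t ht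
    have := h_mono ht
    rw [h_zero] at this
    simp only [id]
    linarith

/-- The inverse of `h`. -/
noncomputable def k (y : ℝ) : ℝ := Function.surjInv h_surjective y

lemma h_k (y : ℝ) : h (k y) = y := Function.surjInv_eq h_surjective y

lemma k_h (t : ℝ) : k (h t) = t := h_strictMono.injective (h_k _)

lemma k_zero : k 0 = 0 := by
  have := k_h 0
  rwa [h_zero] at this

lemma abs_k_sub_le (y z : ℝ) : |k y - k z| ≤ (1 / 5) * |y - z| := by
  rcases le_total (k z) (k y) with h1 | h1
  · have := h_mono h1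
    rw [h_k, h_k] at this
    rw [abs_of_nonneg (by linarith)]
    have : y - z ≤ |y - z| := le_abs_self _
    linarith
  · have := h_mono h1
    rw [h_k, h_k] at this
    rw [abs_of_nonpos (by linarith)]
    have : z - y ≤ |y - z| := by rw [abs_sub_comm]; exact le_abs_self _
    linarith

lemma abs_k_le (y : ℝ) : |k y| ≤ (1 / 5) * |y| := by
  have := abs_k_sub_le y 0
  simpa [k_zero] using this

lemma k_continuous : Continuous k := by
  have : LipschitzWith (1 / 5) k := by
    apply LipschitzWith.of_dist_le_mul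
    intro x y
    rw [Real.dist_eq, Real.dist_eq]
    simpa using abs_k_sub_le x y
  exact this.continuous

/-- The free boundary graph. -/
noncomputable def f (y : ℝ) : ℝ := Real.pi / 2 * |k y|

lemma f_zero : f 0 = 0 := by simp [f, k_zero]

lemma f_nonneg (y : ℝ) : 0 ≤ f y := by unfold f; positivity

lemma abs_f_sub_le (y z : ℝ) : |f y - f z| ≤ 1 * |y - z| := by
  unfold f
  rw [← mul_sub, abs_mul, abs_of_pos (by positivity : 0 < Real.pi / 2)]
  have h1 := abs_abs_sub_abs_le_abs_sub (k y) (k z)
  have h2 := abs_k_sub_le y z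
  have h3 := Real.pi_lt_four
  have h4 := Real.pi_pos
  have h5 : |(|k y| - |k z|)| ≤ (1 / 5) * |y - z| := h1.trans h2
  have h6 : 0 ≤ |y - z| := abs_nonneg _
  nlinarith [abs_nonneg (|k y| - |k z|)]

lemma f_lipschitz : LipschitzWith 1 f := by
  apply LipschitzWith.of_dist_le_mul
  intro x y
  rw [Real.dist_eq, Real.dist_eq]
  simpa using abs_f_sub_le x y

lemma f_continuous : Continuous f := f_lipschitz.continuous

lemma abs_k_lt_one {y : ℝ} (hy : |y| < 5) : |k y| < 1 := by
  have := abs_k_le y
  linarith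

lemma hasDerivAt_h {t : ℝ} (ht0 : t ≠ 0) (ht : |t| < 1) : HasDerivAt h (5 - Real.log t) t := by
  have h1 : HasDerivAt (fun t : ℝ => t * (6 - Real.log t)) (5 - Real.log t) t := by
    have := (hasDerivAt_id t).mul ((Real.hasDerivAt_log ht0).const_sub 6)
    refine this.congr_deriv ?_
    simp only [id]
    field_simp
    ring
  refine h1.congr_of_eventuallyEq ?_
  have : ∀ᶠ s in 𝓝 t, |s| < 1 := continuous_abs.continuousAt.eventually_lt continuousAt_const ht
  filter_upwards [this] with s hs
  exact h_of_le hs.le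

lemma k_ne_zero {y : ℝ} (hy : y ≠ 0) : k y ≠ 0 := by
  intro h0
  apply hy
  rw [← h_k y, h0, h_zero]

lemma log_k_neg {y : ℝ} (hy : |y| < 5) : Real.log (k y) ≤ 0 := by
  rw [← Real.log_abs]
  exact Real.log_nonpos (abs_nonneg _) (abs_k_lt_one hy).le

lemma hasDerivAt_k {y : ℝ} (hy0 : y ≠ 0) (hy : |y| < 5) :
    HasDerivAt k (5 - Real.log (k y))⁻¹ y := by
  have h1 := log_k_neg hy
  refine HasDerivAt.of_local_left_inverse k_continuous.continuousAt
    (hasDerivAt_h (k_ne_zero hy0) (abs_k_lt_one hy)) (by linarith) ?_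
  exact Eventually.of_forall h_k

/-- The derivative of `f` near `0`. -/
noncomputable def f' (y : ℝ) : ℝ := Real.pi / 2 * (SignType.sign (k y) * (5 - Real.log (k y))⁻¹)

lemma hasDerivAt_f_ne {y : ℝ} (hy0 : y ≠ 0) (hy : |y| < 5) : HasDerivAt f (f' y) y := by
  unfold f f'
  apply HasDerivAt.const_mul
  exact (hasDerivAt_abs (k_ne_zero hy0)).comp y (hasDerivAt_k hy0 hy)

/-- `1 / (5 - log |t|) → 0` as `t → 0`. -/
lemma tendsto_inv_log : Tendsto (fun t : ℝ => (5 - Real.log t)⁻¹) (𝓝[≠] 0) (𝓝 0) := by
  apply Tendsto.inv_tendsto_atTop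
  have := Real.tendsto_log_nhdsNE_zero
  have h2 := (tendsto_neg_atBot_atTop.comp this)
  have := tendsto_atTop_add_const_left (𝓝[≠] (0 : ℝ)) 5 h2
  exact this

lemma tendsto_k_ne : Tendsto k (𝓝[≠] 0) (𝓝[≠] 0) := by
  apply tendsto_nhdsWithin_iff.mpr
  constructor
  · have := k_continuous.tendsto 0
    rw [k_zero] at this
    exact this.mono_left nhdsWithin_le_nhds
  · filter_upwards [self_mem_nhdsWithin] with y hy
    exact k_ne_zero hy

lemma f'_zero : f' 0 = 0 := by simp [f', k_zero]

lemma f'_continuousOn : ContinuousOn f' (Ioo (-5) 5) := by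
  intro y hy
  apply ContinuousAt.continuousWithinAt
  have hy5 : |y| < 5 := abs_lt.mpr hy
  by_cases h0 : y = 0
  · subst h0
    have h1 : Tendsto (fun y => (5 - Real.log (k y))⁻¹) (𝓝[≠] 0) (𝓝 0) :=
      tendsto_inv_log.comp tendsto_k_ne
    have h2 : Tendsto (fun y => Real.pi / 2 * |(5 - Real.log (k y))⁻¹|) (𝓝[≠] 0) (𝓝 0) := by
      have := (h1.abs).const_mul (Real.pi / 2)
      simpa using this
    have h3 : Tendsto f' (𝓝[≠] 0) (𝓝 0) := by
      apply squeeze_zero_norm _ h2
      intro y
      unfold f'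
      rw [norm_mul, norm_mul, Real.norm_eq_abs, Real.norm_eq_abs, Real.norm_eq_abs,
        abs_of_pos (by positivity : 0 < Real.pi / 2)]
      apply mul_le_mul_of_nonneg_left _ (by positivity)
      have : |((SignType.sign (k y) : SignType) : ℝ)| ≤ 1 := by
        rcases lt_trichotomy (k y) 0 with h | h | h
        · simp [h]
        · simp [h]
        · simp [h]
      calc |((SignType.sign (k y) : SignType) : ℝ)| * |(5 - Real.log (k y))⁻¹|
          ≤ 1 * |(5 - Real.log (k y))⁻¹| := mul_le_mul_of_nonneg_right this (abs_nonneg _)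
        _ = _ := one_mul _
    rw [continuousAt_iff_punctured_nhds, f'_zero]
    exact h3
  · have hk := k_ne_zero h0
    have hl := log_k_neg hy5
    unfold f'
    apply ContinuousAt.mul continuousAt_const
    apply ContinuousAt.mul
    · have h1 : ContinuousAt (fun s : ℝ => ((SignType.sign s : SignType) : ℝ)) (k y) := by
        have : ∀ᶠ s in 𝓝 (k y), ((SignType.sign s : SignType) : ℝ)
            = ((SignType.sign (k y) : SignType) : ℝ) := by
          rcases lt_or_gt_of_ne hk with h | h
          · filter_upwards [Iio_mem_nhds h] with s hs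
            have hs' : s < 0 := hs
            simp [sign_neg hs', sign_neg h]
          · filter_upwards [Ioi_mem_nhds h] with s hs
            have hs' : 0 < s := hs
            simp [sign_pos hs', sign_pos h]
        exact (continuousAt_const.congr (EventuallyEq.symm this))
      exact h1.comp k_continuous.continuousAt
    · apply ContinuousAt.inv₀
      · apply ContinuousAt.sub continuousAt_const
        exact k_continuous.continuousAt.log hk
      · linarith

lemma hasDerivAt_f {y : ℝ} (hy : y ∈ Ioo (-5 : ℝ) 5) : HasDerivAt f (f' y) y := by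
  by_cases h0 : y = 0
  · subst h0
    rw [f'_zero, hasDerivAt_iff_tendsto_slope]
    have h1 : Tendsto (fun y => (5 - Real.log (k y))⁻¹) (𝓝[≠] 0) (𝓝 0) :=
      tendsto_inv_log.comp tendsto_k_ne
    have h2 : Tendsto (fun y => Real.pi / 2 * |(5 - Real.log (k y))⁻¹|) (𝓝[≠] 0) (𝓝 0) := by
      have := (h1.abs).const_mul (Real.pi / 2)
      simpa using this
    refine squeeze_zero_norm' ?_ h2
    have h5 : ∀ᶠ y in 𝓝[≠] (0 : ℝ), |y| < 5 :=
      nhdsWithin_le_nhds (continuous_abs.continuousAt.eventually_lt continuousAt_const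
        (by norm_num))
    filter_upwards [h5, self_mem_nhdsWithin] with y hy5 hy0
    have hy0' : y ≠ 0 := hy0
    have hk := k_ne_zero hy0'
    have hl := log_k_neg hy5
    have hk1 := abs_k_lt_one hy5
    have hy : |y| = |k y| * (6 - Real.log (k y)) := by
      conv_lhs => rw [← h_k y, h_of_le hk1.le]
      rw [abs_mul, abs_of_pos (by linarith : 0 < 6 - Real.log (k y))]
    have hkpos : 0 < |k y| := abs_pos.mpr hk
    rw [slope_def_field, f_zero, sub_zero, sub_zero, Real.norm_eq_abs, abs_div, hy]
    unfold f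
    rw [abs_mul, abs_of_pos (by positivity : 0 < Real.pi / 2), abs_abs,
      abs_of_pos (by apply inv_pos.mpr; linarith : 0 < (5 - Real.log (k y))⁻¹)]
    have h6 : 0 < 6 - Real.log (k y) := by linarith
    have h7 : 0 < 5 - Real.log (k y) := by linarith
    rw [mul_div_assoc]
    apply mul_le_mul_of_nonneg_left _ (by positivity)
    rw [div_le_iff₀ (by positivity)]
    rw [inv_mul_eq_div, le_div_iff₀ h7]
    nlinarith
  · exact hasDerivAt_f_ne h0 (abs_lt.mpr hy)

lemma contDiffOn_f : ContDiffOn ℝ 1 f (Ioo (-5) 5) := by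
  rw [show (1 : WithTop ℕ∞) = 0 + 1 by norm_num, contDiffOn_succ_iff_deriv_of_isOpen isOpen_Ioo]
  refine ⟨fun y hy => (hasDerivAt_f hy).differentiableAt.differentiableWithinAt, by simp, ?_⟩
  rw [contDiffOn_zero]
  exact f'_continuousOn.congr (fun y hy => (hasDerivAt_f hy).deriv)

/-- Value of the graph function on the parametrised points. -/
lemma f_h (t : ℝ) : f (h t) = Real.pi / 2 * |t| := by
  unfold f; rw [k_h]

/-- No bound of the form `f y ≤ C y^(1+α)` near `0`. -/
lemma f_not_holder (α C ρ : ℝ) (hα : 0 < α) (hρ : 0 < ρ)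
    (H : ∀ y : ℝ, 0 < y → y < ρ → f y ≤ C * y ^ (1 + α)) : False := by
  have hlim : Tendsto (fun t : ℝ => t ^ α * (6 - Real.log t) ^ (1 + α)) (𝓝[>] 0) (𝓝 0) := by
    have h1 : Tendsto (fun t : ℝ => 6 * t ^ (α / (1 + α)) - Real.log t * t ^ (α / (1 + α)))
        (𝓝[>] 0) (𝓝 (6 * 0 - 0)) := by
      apply Tendsto.sub
      · apply Tendsto.const_mul
        have : Continuous (fun t : ℝ => t ^ (α / (1 + α))) :=
          Real.continuous_rpow_const (by positivity)
        have h2 := this.tendsto 0
        rw [Real.zero_rpow (by positivity)] at h2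
        exact h2.mono_left nhdsWithin_le_nhds
      · exact tendsto_log_mul_rpow_nhdsGT_zero (by positivity)
    have h3 : Tendsto (fun t : ℝ => (6 * t ^ (α / (1 + α)) - Real.log t * t ^ (α / (1 + α))) ^ (1 + α))
        (𝓝[>] 0) (𝓝 0) := by
      have h4 : Continuous (fun t : ℝ => t ^ (1 + α)) :=
          Real.continuous_rpow_const (by positivity)
      have h5 := (h4.tendsto (6 * 0 - 0)).comp h1
      have h6 : (6 * 0 - 0 : ℝ) ^ (1 + α) = 0 := by
        rw [show (6 * 0 - 0 : ℝ) = 0 by norm_num, Real.zero_rpow (by positivity)]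
      rw [h6] at h5
      exact h5
    refine h3.congr' ?_
    have hev : ∀ᶠ t in 𝓝[>] (0 : ℝ), t < 1 :=
      nhdsWithin_le_nhds (Iio_mem_nhds (by norm_num))
    filter_upwards [hev, self_mem_nhdsWithin] with t ht1 ht0
    have ht0' : (0 : ℝ) < t := ht0
    have hl : Real.log t ≤ 0 := Real.log_nonpos ht0'.le ht1.le
    rw [show 6 * t ^ (α / (1 + α)) - Real.log t * t ^ (α / (1 + α))
      = t ^ (α / (1 + α)) * (6 - Real.log t) by ring]
    rw [Real.mul_rpow (by positivity) (by linarith), ← Real.rpow_mul ht0'.le]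
    congr 2
    field_simp
  have h2 : Tendsto (fun t : ℝ => C * (t ^ α * (6 - Real.log t) ^ (1 + α))) (𝓝[>] 0) (𝓝 0) := by
    simpa using hlim.const_mul C
  have h3 : ∀ᶠ t in 𝓝[>] (0 : ℝ), C * (t ^ α * (6 - Real.log t) ^ (1 + α)) < 1 :=
    h2.eventually_lt_const (by norm_num)
  have h4 : ∀ᶠ t in 𝓝[>] (0 : ℝ), h t < ρ := by
    have := h_continuous.tendsto 0
    rw [h_zero] at this
    exact nhdsWithin_le_nhds (this.eventually_lt_const hρ)
  have hev : ∀ᶠ t in 𝓝[>] (0 : ℝ), t < 1 :=
    nhdsWithin_le_nhds (Iio_mem_nhds (by norm_num))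
  obtain ⟨t, ⟨⟨ht1, ht2⟩, ht3⟩, ht4⟩ := (((h3.and h4).and hev).and self_mem_nhdsWithin).exists
  have ht0 : 0 < t := ht4
  have hl : Real.log t ≤ 0 := Real.log_nonpos ht0.le ht3.le
  have hht : h t = t * (6 - Real.log t) := h_of_le (by rw [abs_of_pos ht0]; exact ht3.le)
  have hpos : 0 < h t := by
    rw [hht]
    have : 0 < 6 - Real.log t := by linarith
    positivity
  have h5 := H (h t) hpos ht2
  rw [f_h, abs_of_pos ht0, hht, Real.mul_rpow ht0.le (by linarith), Real.rpow_add ht0,
    Real.rpow_one] at h5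
  have h6 : C * (t * t ^ α * (6 - Real.log t) ^ (1 + α))
      = t * (C * (t ^ α * (6 - Real.log t) ^ (1 + α))) := by ring
  rw [h6] at h5
  have h7 := mul_lt_mul_of_pos_left ht1 ht0
  have h8 := Real.pi_gt_three
  nlinarith

end Pool.Agent.X102.FB
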