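import Mathlib
import Pool.Agent.X102.FBReal

set_option autoImplicit false

open Filter Topology Set Metric

namespace Pool.Agent.X102.FB

/-- The conformal parametrisation. -/
noncomputable def Z (w : ℂ) : ℂ := w * (6 - Complex.log w)

/-- Open half disc. -/
def Om : Set ℂ := {w | 0 < w.re ∧ ‖w‖ < 1}

/-- Closed half disc. -/
def Omc : Set ℂ := {w | 0 ≤ w.re ∧ ‖w‖ ≤ 1}

lemma Om_isOpen : IsOpen Om := by
  apply IsOpen.inter
  · exact isOpen_lt continuous_const Complex.continuous_re
  · exact isOpen_lt continuous_norm continuous_const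

lemma Omc_isClosed : IsClosed Omc := by
  apply IsClosed.inter
  · exact isClosed_le continuous_const Complex.continuous_re
  · exact isClosed_le continuous_norm continuous_const

lemma Omc_isCompact : IsCompact Omc := by
  apply Metric.isCompact_of_isClosed_isBounded Omc_isClosed
  apply (Metric.isBounded_closedBall (x := (0 : ℂ)) (r := 1)).subset
  intro w hw
  simpa using hw.2

lemma Om_sub : Om ⊆ Omc := fun _ hw => ⟨hw.1.le, hw.2.le⟩

lemma Om_ne_zero {w : ℂ} (hw : w ∈ Om) : w ≠ 0 := by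
  intro h; subst h
  exact lt_irrefl _ hw.1

lemma mem_slit_of_Omc {w : ℂ} (hw : w ∈ Omc) (h0 : w ≠ 0) : w ∈ Complex.slitPlane := by
  rw [Complex.mem_slitPlane_iff]
  rcases hw.1.eq_or_lt with h | h
  · right
    intro him
    apply h0
    exact Complex.ext h.symm him
  · left; exact h

/-- `w log w` is continuous on the closed half disc. -/
lemma continuousOn_mul_log : ContinuousOn (fun w : ℂ => w * Complex.log w) Omc := by
  intro w hw
  by_cases h0 : w = 0
  · subst h0
    apply ContinuousAt.continuousWithinAt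
    unfold ContinuousAt
    simp only [zero_mul]
    have h1 : Tendsto (fun w : ℂ => |‖w‖ * Real.log ‖w‖| + ‖w‖ * Real.pi) (𝓝 0) (𝓝 0) := by
      have h2 : Continuous (fun w : ℂ => |‖w‖ * Real.log ‖w‖| + ‖w‖ * Real.pi) :=
        ((Real.continuous_mul_log.comp continuous_norm).abs).add (continuous_norm.mul continuous_const)
      have := h2.tendsto 0
      simpa using this
    apply squeeze_zero_norm _ h1
    intro w
    rw [norm_mul]
    have h3 : ‖Complex.log w‖ ≤ |Real.log ‖w‖| + Real.pi := by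
      calc ‖Complex.log w‖ ≤ |(Complex.log w).re| + |(Complex.log w).im| :=
            Complex.norm_le_abs_re_add_abs_im _
        _ ≤ |Real.log ‖w‖| + Real.pi := by
            rw [Complex.log_re, Complex.log_im]
            have := Complex.abs_arg_le_pi w
            linarith
    have h4 : |‖w‖ * Real.log ‖w‖| = ‖w‖ * |Real.log ‖w‖| := by
      rw [abs_mul, abs_norm]
    rw [h4]
    nlinarith [norm_nonneg w]
  · apply ContinuousAt.continuousWithinAt
    exact continuousAt_id.mul (continuousAt_clog (mem_slit_of_Omc hw h0))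

lemma continuousOn_Z : ContinuousOn Z Omc := by
  have : Z = fun w => 6 * w - w * Complex.log w := by
    ext w; unfold Z; ring
  rw [this]
  exact (continuousOn_const.mul continuousOn_id).sub continuousOn_mul_log

lemma hasStrictDerivAt_Z {w : ℂ} (hw : w ∈ Complex.slitPlane) :
    HasStrictDerivAt Z (5 - Complex.log w) w := by
  have h0 : w ≠ 0 := Complex.slitPlane_ne_zero hw
  have h1 := (hasStrictDerivAt_id w).mul ((Complex.hasStrictDerivAt_log hw).const_sub 6)
  have h2 : HasStrictDerivAt Z (1 * (6 - Complex.log w) + id w * -w⁻¹) w := h1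
  have h3 : 1 * (6 - Complex.log w) + id w * -w⁻¹ = 5 - Complex.log w := by
    simp only [id]
    field_simp
    ring
  rwa [h3] at h2

lemma re_log_nonpos {w : ℂ} (hw : ‖w‖ ≤ 1) : (Complex.log w).re ≤ 0 := by
  rw [Complex.log_re]
  exact Real.log_nonpos (norm_nonneg _) hw

lemma deriv_Z_ne {w : ℂ} (hw : ‖w‖ ≤ 1) : (5 - Complex.log w) ≠ 0 := by
  intro h
  have h1 := congrArg Complex.re h
  rw [Complex.sub_re] at h1
  have h2 := re_log_nonpos hw
  norm_num at h1
  linarith

lemma Om_convex : Convex ℝ Om := by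
  have h1 : Convex ℝ {w : ℂ | 0 < w.re} := convex_halfSpace_re_gt 0
  have h2 : Convex ℝ {w : ℂ | ‖w‖ < 1} := by
    have h3 : {w : ℂ | ‖w‖ < 1} = ball (0 : ℂ) 1 := by
      ext w; simp
    rw [h3]
    exact convex_ball (0 : ℂ) 1
  exact h1.inter h2

/-- Expansion on the open half disc. -/
lemma expand_Om {w₁ w₂ : ℂ} (h₁ : w₁ ∈ Om) (h₂ : w₂ ∈ Om) :
    5 * ‖w₁ - w₂‖ ≤ ‖Z w₁ - Z w₂‖ := by
  by_cases hne : w₁ = w₂
  · subst hne; simp
  set δ := w₁ - w₂ with hδ
  have hδ0 : 0 < ‖δ‖ := norm_pos_iff.mpr (sub_ne_zero.mpr hne)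
  let γ : ℝ → ℂ := fun s => w₂ + (s : ℂ) * δ
  have hγ : ∀ s ∈ Icc (0 : ℝ) 1, γ s ∈ Om := by
    intro s hs
    have := Om_convex h₂ h₁ (a := 1 - s) (b := s) (by linarith [hs.2]) hs.1 (by ring)
    convert this using 1
    simp only [γ, hδ, Complex.real_smul]
    push_cast; ring
  have hγd : ∀ s : ℝ, HasDerivAt γ δ s := by
    intro s
    have h1 : HasDerivAt (fun s : ℝ => (s : ℂ)) 1 s := Complex.ofRealCLM.hasDerivAt
    have := (h1.mul_const δ).const_add w₂
    rw [one_mul] at this
    exact this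
  let φ : ℝ → ℝ := fun s => ((starRingEnd ℂ) δ * (Z (γ s) - 5 * γ s)).re
  have hφd : ∀ s ∈ Icc (0 : ℝ) 1, HasDerivAt φ
      (((starRingEnd ℂ) δ * ((5 - Complex.log (γ s)) * δ - 5 * δ)).re) s := by
    intro s hs
    have hm := hγ s hs
    have h1 : HasDerivAt Z (5 - Complex.log (γ s)) (γ s) :=
      (hasStrictDerivAt_Z (mem_slit_of_Omc (Om_sub hm) (Om_ne_zero hm))).hasDerivAt
    have h2 : HasDerivAt (fun s => Z (γ s)) ((5 - Complex.log (γ s)) * δ) s :=
      h1.comp s (hγd s)
    have h3 := (h2.sub ((hγd s).const_mul 5)).const_mul ((starRingEnd ℂ) δ)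
    exact Complex.reCLM.hasFDerivAt.comp_hasDerivAt s h3
  have hmono : MonotoneOn φ (Icc 0 1) := by
    apply monotoneOn_of_deriv_nonneg (convex_Icc 0 1)
    · intro s hs
      exact (hφd s hs).continuousAt.continuousWithinAt
    · intro s hs
      rw [interior_Icc] at hs
      exact (hφd s (Ioo_subset_Icc_self hs)).differentiableAt.differentiableWithinAt
    · intro s hs
      rw [interior_Icc] at hs
      have hs' := Ioo_subset_Icc_self hs
      rw [(hφd s hs').deriv]
      have h1 : (starRingEnd ℂ) δ * ((5 - Complex.log (γ s)) * δ - 5 * δ)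
          = ((Complex.normSq δ : ℝ) : ℂ) * (-Complex.log (γ s)) := by
        rw [Complex.normSq_eq_conj_mul_self]
        ring
      rw [h1, Complex.re_ofReal_mul, Complex.neg_re]
      have h2 := re_log_nonpos (hγ s hs').2.le
      have h3 := Complex.normSq_nonneg δ
      nlinarith
  have h01 := hmono (left_mem_Icc.mpr zero_le_one) (right_mem_Icc.mpr zero_le_one) zero_le_one
  have hγ0 : γ 0 = w₂ := by simp [γ]
  have hγ1 : γ 1 = w₁ := by simp [γ, hδ]
  simp only [φ, hγ0, hγ1] at h01
  have h2 : ((starRingEnd ℂ) δ * (Z w₁ - 5 * w₁)).re - ((starRingEnd ℂ) δ * (Z w₂ - 5 * w₂)).re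
      = ((starRingEnd ℂ) δ * (Z w₁ - Z w₂)).re - 5 * ‖δ‖ ^ 2 := by
    rw [← Complex.sub_re]
    have : (starRingEnd ℂ) δ * (Z w₁ - 5 * w₁) - (starRingEnd ℂ) δ * (Z w₂ - 5 * w₂)
        = (starRingEnd ℂ) δ * (Z w₁ - Z w₂) - ((5 * Complex.normSq δ : ℝ) : ℂ) := by
      push_cast
      rw [Complex.normSq_eq_conj_mul_self, hδ]
      ring
    rw [this, Complex.sub_re, Complex.ofReal_re, Complex.normSq_eq_norm_sq]
  have h3 : ((starRingEnd ℂ) δ * (Z w₁ - Z w₂)).re ≤ ‖δ‖ * ‖Z w₁ - Z w₂‖ := by
    calc ((starRingEnd ℂ) δ * (Z w₁ - Z w₂)).re ≤ ‖(starRingEnd ℂ) δ * (Z w₁ - Z w₂)‖ :=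
          Complex.re_le_norm _
      _ = ‖δ‖ * ‖Z w₁ - Z w₂‖ := by rw [norm_mul, RCLike.norm_conj]
  have h4 : ‖δ‖ * (5 * ‖δ‖) ≤ ‖δ‖ * ‖Z w₁ - Z w₂‖ := by nlinarith
  exact le_of_mul_le_mul_left h4 hδ0

/-- Expansion on the closed half disc. -/
lemma expand_Omc {w₁ w₂ : ℂ} (h₁ : w₁ ∈ Omc) (h₂ : w₂ ∈ Omc) :
    5 * ‖w₁ - w₂‖ ≤ ‖Z w₁ - Z w₂‖ := by
  let p : ℝ → ℂ → ℂ := fun ε w => (1 - ε : ℝ) * w + (ε / 2 : ℝ)
  have hp : ∀ w ∈ Omc, ∀ ε ∈ Ioo (0 : ℝ) 1, p ε w ∈ Om := by
    intro w hw ε hε
    constructor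
    · simp only [p, Complex.add_re, Complex.re_ofReal_mul, Complex.ofReal_re]
      have h1 := hw.1
      have h2 := hε.1
      have h3 : 0 < 1 - ε := by linarith [hε.2]
      have : 0 ≤ (1 - ε) * w.re := mul_nonneg h3.le h1
      linarith
    · have h3 : 0 < 1 - ε := by linarith [hε.2]
      calc ‖p ε w‖ ≤ ‖((1 - ε : ℝ) : ℂ) * w‖ + ‖((ε / 2 : ℝ) : ℂ)‖ := norm_add_le _ _
        _ = (1 - ε) * ‖w‖ + ε / 2 := by
            rw [norm_mul, Complex.norm_real, Complex.norm_real, Real.norm_of_nonneg h3.le,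
              Real.norm_of_nonneg (by linarith [hε.1])]
        _ < 1 := by
            have := hw.2
            have := hε.1
            nlinarith
  have hlim : ∀ w ∈ Omc, Tendsto (fun ε : ℝ => p ε w) (𝓝[>] 0) (𝓝[Omc] w) := by
    intro w hw
    apply tendsto_nhdsWithin_iff.mpr
    constructor
    · have hc : Continuous (fun ε : ℝ => p ε w) := by
        simp only [p]
        fun_prop
      have := hc.tendsto 0
      simp only [p, sub_zero, Complex.ofReal_one, one_mul, zero_div, Complex.ofReal_zero,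
        add_zero] at this
      exact this.mono_left nhdsWithin_le_nhds
    · filter_upwards [Ioo_mem_nhdsGT (zero_lt_one)] with ε hε
      exact Om_sub (hp w hw ε hε)
  have hZ : ∀ w ∈ Omc, Tendsto (fun ε : ℝ => Z (p ε w)) (𝓝[>] 0) (𝓝 (Z w)) := fun w hw =>
    (continuousOn_Z w hw).tendsto.comp (hlim w hw)
  have hw' : ∀ w ∈ Omc, Tendsto (fun ε : ℝ => p ε w) (𝓝[>] 0) (𝓝 w) := fun w hw =>
    (hlim w hw).mono_right nhdsWithin_le_nhds
  have hl := ((hw' w₁ h₁).sub (hw' w₂ h₂)).norm.const_mul 5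
  have hr := ((hZ w₁ h₁).sub (hZ w₂ h₂)).norm
  refine le_of_tendsto_of_tendsto hl hr ?_
  filter_upwards [Ioo_mem_nhdsGT (zero_lt_one)] with ε hε
  exact expand_Om (hp w₁ h₁ ε hε) (hp w₂ h₂ ε hε)

/-- Boundary values of `Z` on the imaginary axis. -/
lemma Z_I_mul {t : ℝ} (ht : |t| ≤ 1) :
    Z (t * Complex.I) = ((Real.pi / 2 * |t| : ℝ) : ℂ) + (h t : ℝ) * Complex.I := by
  by_cases h0 : t = 0
  · subst h0; simp [Z, h_zero]
  have hlog : Complex.log (t * Complex.I) = (Real.log |t| : ℝ) + ((if 0 < t then Real.pi / 2 else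
      - (Real.pi / 2) : ℝ) : ℂ) * Complex.I := by
    apply Complex.ext
    · rw [Complex.log_re]
      simp
    · rw [Complex.log_im]
      split_ifs with hpos
      · rw [mul_comm, Complex.arg_mul_real hpos, Complex.arg_I]
        simp
      · have hneg : 0 < -t := by
          have : t < 0 := lt_of_le_of_ne (not_lt.mp hpos) h0
          linarith
        have : (t : ℂ) * Complex.I = -Complex.I * ((-t : ℝ) : ℂ) := by push_cast; ring
        rw [this, Complex.arg_mul_real hneg, Complex.arg_neg_I]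
        simp
  unfold Z
  rw [hlog, h_of_le ht, Real.log_abs]
  split_ifs with hpos
  · rw [abs_of_pos hpos]
    push_cast
    linear_combination (-(t : ℂ) * (Real.pi / 2)) * Complex.I_sq
  · have hneg : t < 0 := lt_of_le_of_ne (not_lt.mp hpos) h0
    rw [abs_of_neg hneg]
    push_cast
    linear_combination ((t : ℂ) * (Real.pi / 2)) * Complex.I_sq

lemma Z_boundary {t : ℝ} (ht : |t| ≤ 1) : (Z (t * Complex.I)).re = f (Z (t * Complex.I)).im := by
  rw [Z_I_mul ht]
  simp only [Complex.add_re, Complex.ofReal_re, Complex.re_ofReal_mul, Complex.I_re, mul_zero,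
    add_zero, Complex.add_im, Complex.ofReal_im, Complex.im_ofReal_mul, Complex.I_im, mul_one,
    zero_add]
  rw [f_h]

/-- The domain. -/
def D : Set ℂ := {z | f z.im < z.re}

lemma D_isOpen : IsOpen D :=
  isOpen_lt (f_continuous.comp Complex.continuous_im) Complex.continuous_re

/-- The box in which everything takes place. -/
def Bx : Set ℂ := {z | |z.im| < 3 ∧ |z.re| < 4}

lemma Bx_isOpen : IsOpen Bx := by
  apply IsOpen.inter
  · exact isOpen_lt (continuous_abs.comp Complex.continuous_im) continuous_const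
  · exact isOpen_lt (continuous_abs.comp Complex.continuous_re) continuous_const

lemma norm_lt_of_Bx {z : ℂ} (hz : z ∈ Bx) : ‖z‖ < 5 := by
  have h1 : z.im ^ 2 < 9 := by
    have := abs_lt.mp hz.1
    nlinarith
  have h2 : z.re ^ 2 < 16 := by
    have := abs_lt.mp hz.2
    nlinarith
  have h3 : ‖z‖ ^ 2 < 25 := by
    rw [← Complex.normSq_eq_norm_sq, Complex.normSq_apply]
    nlinarith
  nlinarith [norm_nonneg z]

lemma ball_sub_Bx : ball (0 : ℂ) 2 ⊆ Bx := by
  intro z hz
  rw [mem_ball_zero_iff] at hz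
  constructor
  · have := Complex.abs_im_le_norm z
    linarith
  · have := Complex.abs_re_le_norm z
    linarith

lemma norm_Z_of_norm_one {w : ℂ} (hw : ‖w‖ = 1) : 6 ≤ ‖Z w‖ := by
  unfold Z
  rw [norm_mul, hw, one_mul]
  have h1 : (6 - Complex.log w).re = 6 := by
    rw [Complex.sub_re, Complex.log_re, hw, Real.log_one]
    norm_num
  calc (6 : ℝ) = (6 - Complex.log w).re := h1.symm
    _ ≤ ‖6 - Complex.log w‖ := Complex.re_le_norm _

lemma f_lt_of_abs {y : ℝ} (hy : |y| < 3) : f y < 4 := by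
  have := abs_f_sub_le y 0
  rw [f_zero, sub_zero, sub_zero] at this
  have h2 := le_abs_self (f y)
  linarith

lemma preconn : IsPreconnected (D ∩ Bx) := by
  have h1 : D ∩ Bx = (fun p : ℝ × ℝ => (((1 - p.1) * f p.2 + p.1 * 4 : ℝ) : ℂ) + (p.2 : ℝ) * Complex.I) ''
      (Ioo (0 : ℝ) 1 ×ˢ Ioo (-3 : ℝ) 3) := by
    ext z
    constructor
    · rintro ⟨hz1, hz2, hz3⟩
      have hy : |z.im| < 3 := hz2
      have hf4 := f_lt_of_abs hy
      have hz1' : f z.im < z.re := hz1
      have hz4 : z.re < 4 := (abs_lt.mp hz3).2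
      refine ⟨((z.re - f z.im) / (4 - f z.im), z.im), ⟨⟨?_, ?_⟩, abs_lt.mp hy⟩, ?_⟩
      · apply div_pos <;> linarith
      · rw [div_lt_one (by linarith)]; linarith
      · have : (1 - (z.re - f z.im) / (4 - f z.im)) * f z.im + (z.re - f z.im) / (4 - f z.im) * 4
            = z.re := by
          have h5 : 4 - f z.im ≠ 0 := by linarith
          field_simp
          ring
        simp only [this]
        exact Complex.re_add_im z
    · rintro ⟨⟨s, y⟩, ⟨⟨hs1, hs2⟩, hy⟩, rfl⟩
      simp only at hs1 hs2 hy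
      have hy3 : |y| < 3 := abs_lt.mpr hy
      have hf4 := f_lt_of_abs hy3
      have hf0 := f_nonneg y
      refine ⟨?_, ?_, ?_⟩
      · simp only [D, mem_ofPred_eq, Complex.add_im, Complex.ofReal_im, Complex.im_ofReal_mul,
          Complex.I_im, mul_one, zero_add, Complex.add_re, Complex.ofReal_re,
          Complex.re_ofReal_mul, Complex.I_re, mul_zero, add_zero]
        nlinarith
      · simpa using hy3
      · simp only [Complex.add_re, Complex.ofReal_re,
          Complex.re_ofReal_mul, Complex.I_re, mul_zero, add_zero]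
        rw [abs_lt]
        constructor <;> nlinarith
  rw [h1]
  apply IsPreconnected.image
  · exact isPreconnected_Ioo.prod isPreconnected_Ioo
  · apply Continuous.continuousOn
    have := f_continuous
    fun_prop

/-- The image of the half disc covers the part of `D` in the box. -/
lemma surj : D ∩ Bx ⊆ Z '' Om := by
  apply preconn.subset_of_closure_inter_subset
  · rw [isOpen_iff_mem_nhds]
    rintro z ⟨w, hw, rfl⟩
    have h1 := (hasStrictDerivAt_Z (mem_slit_of_Omc (Om_sub hw) (Om_ne_zero hw))).map_nhds_eq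
      (deriv_Z_ne hw.2.le)
    rw [← h1]
    exact image_mem_map (Om_isOpen.mem_nhds hw)
  · refine ⟨Z ((1 / 2 : ℝ) : ℂ), ?_, ⟨((1 / 2 : ℝ) : ℂ), ?_, rfl⟩⟩
    · have h1 : Z ((1 / 2 : ℝ) : ℂ) = ((1 / 2 * (6 - Real.log (1 / 2)) : ℝ) : ℂ) := by
        unfold Z
        rw [← Complex.ofReal_log (by norm_num)]
        push_cast
        ring
      have h2 : Real.log (1 / 2) = - Real.log 2 := by
        rw [one_div, Real.log_inv]
      have h3 := Real.log_two_lt_d9
      have h4 := Real.log_two_gt_d9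
      rw [h1, h2]
      refine ⟨?_, ?_, ?_⟩
      · simp only [D, mem_ofPred_eq, Complex.ofReal_im, Complex.ofReal_re]
        rw [f_zero]
        nlinarith
      · rw [Complex.ofReal_im]
        norm_num
      · rw [Complex.ofReal_re, abs_lt]
        constructor <;> nlinarith
    · constructor
      · simp
      · rw [Complex.norm_real]
        norm_num
  · rintro z ⟨hz1, hz2⟩
    have hcl : closure (Z '' Om) ⊆ Z '' Omc := by
      have hc : IsClosed (Z '' Omc) := (Omc_isCompact.image_of_continuousOn continuousOn_Z).isClosed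
      exact closure_minimal (image_mono Om_sub) hc
    obtain ⟨w, hw, rfl⟩ := hcl hz1
    refine ⟨w, ⟨?_, ?_⟩, rfl⟩
    · rcases hw.1.eq_or_lt with h | h
      · exfalso
        have hw' : w = (w.im : ℂ) * Complex.I := by
          apply Complex.ext
          · simp [← h]
          · simp
        have him : |w.im| ≤ 1 := (Complex.abs_im_le_norm w).trans hw.2
        have h2 := Z_boundary him
        rw [← hw'] at h2
        have h3 : f (Z w).im < (Z w).re := hz2.1
        linarith
      · exact h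
    · rcases hw.2.eq_or_lt with h | h
      · exfalso
        have := norm_Z_of_norm_one h
        have := norm_lt_of_Bx hz2.2
        linarith
      · exact h

end Pool.Agent.X102.FB
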