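import Mathlib
import Pool.Agent.X102.FBComplex

set_option autoImplicit false

open Filter Topology Set Metric

namespace Pool.Agent.X102.FB

/-- The inverse of the conformal parametrisation (including the boundary). -/
noncomputable def W (z : ℂ) : ℂ :=
  open Classical in
  if hz : z ∈ D ∩ Bx then (surj hz).choose else (k z.im : ℂ) * Complex.I

/-- The closed side of the box. -/
def Dc : Set ℂ := {z | z ∈ Bx ∧ f z.im ≤ z.re}

lemma W_D {z : ℂ} (hz : z ∈ D ∩ Bx) : W z ∈ Om ∧ Z (W z) = z := by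
  unfold W
  rw [dif_pos hz]
  exact (surj hz).choose_spec

lemma W_graph {z : ℂ} (h1 : z ∈ Bx) (h2 : f z.im = z.re) :
    W z = (k z.im : ℂ) * Complex.I ∧ |k z.im| ≤ 1 ∧ Z (W z) = z := by
  have hn : ¬ (z ∈ D ∩ Bx) := by
    rintro ⟨h3, -⟩
    have h4 : f z.im < z.re := h3
    linarith
  have hk : |k z.im| ≤ 1 := by
    apply (abs_k_lt_one _).le
    have := h1.1
    linarith
  have hW : W z = (k z.im : ℂ) * Complex.I := by
    unfold W
    rw [dif_neg hn]
  refine ⟨hW, hk, ?_⟩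
  rw [hW, Z_I_mul hk, h_k]
  have : Real.pi / 2 * |k z.im| = z.re := h2
  rw [this]
  exact Complex.re_add_im z

lemma W_Dc {z : ℂ} (hz : z ∈ Dc) : W z ∈ Omc ∧ Z (W z) = z := by
  rcases hz.2.eq_or_lt with h | h
  · obtain ⟨h1, h2, h3⟩ := W_graph hz.1 h
    refine ⟨?_, h3⟩
    rw [h1]
    constructor
    · simp
    · rw [norm_mul, Complex.norm_I, mul_one, Complex.norm_real]
      exact h2
  · have := W_D (z := z) ⟨h, hz.1⟩
    exact ⟨Om_sub this.1, this.2⟩

lemma W_lip {z z' : ℂ} (hz : z ∈ Dc) (hz' : z' ∈ Dc) :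
    ‖W z - W z'‖ ≤ (1 / 5) * ‖z - z'‖ := by
  have h1 := W_Dc hz
  have h2 := W_Dc hz'
  have h3 := expand_Omc h1.1 h2.1
  rw [h1.2, h2.2] at h3
  linarith

lemma D_sub_Dc {z : ℂ} (hz : z ∈ D) (hb : z ∈ Bx) : z ∈ Dc := ⟨hb, le_of_lt hz⟩

lemma W_continuousOn : ContinuousOn W Dc := by
  have : LipschitzOnWith (1 / 5) W Dc := by
    apply LipschitzOnWith.of_dist_le_mul
    intro x hx y hy
    rw [dist_eq_norm, dist_eq_norm]
    simpa using W_lip hx hy
  exact this.continuousOn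

lemma W_continuousAt {z : ℂ} (hz : z ∈ D) (hb : z ∈ Bx) : ContinuousAt W z := by
  apply W_continuousOn.continuousAt
  filter_upwards [(D_isOpen.inter Bx_isOpen).mem_nhds ⟨hz, hb⟩] with x hx
  exact D_sub_Dc hx.1 hx.2

lemma hasDerivAt_W {z : ℂ} (hz : z ∈ D) (hb : z ∈ Bx) :
    HasDerivAt W (5 - Complex.log (W z))⁻¹ z := by
  have h1 := W_D ⟨hz, hb⟩
  refine HasDerivAt.of_local_left_inverse (W_continuousAt hz hb)
    (hasStrictDerivAt_Z (mem_slit_of_Omc (Om_sub h1.1) (Om_ne_zero h1.1))).hasDerivAt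
    (deriv_Z_ne h1.1.2.le) ?_
  filter_upwards [(D_isOpen.inter Bx_isOpen).mem_nhds ⟨hz, hb⟩] with x hx
  exact (W_D hx).2

/-- The primitive. -/
noncomputable def Phi (w : ℂ) : ℂ :=
  ((Real.pi ^ 2 / 8 : ℝ) : ℂ) * (w ^ 2 * ((16 / 9) * w - (1 / 3) * (w * Complex.log w)))

lemma hasDerivAt_Phi {w : ℂ} (hw : w ∈ Complex.slitPlane) :
    HasDerivAt Phi (((Real.pi ^ 2 / 8 : ℝ) : ℂ) * (w ^ 2 * (5 - Complex.log w))) w := by
  have h0 : w ≠ 0 := Complex.slitPlane_ne_zero hw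
  have hid := hasDerivAt_id w
  have h1 : HasDerivAt (fun w => w * Complex.log w) (1 * Complex.log w + w * w⁻¹) w :=
    hid.mul (Complex.hasDerivAt_log hw)
  have h2 : HasDerivAt (fun w : ℂ => (16 / 9) * w - (1 / 3) * (w * Complex.log w))
      ((16 / 9) * 1 - (1 / 3) * (1 * Complex.log w + w * w⁻¹)) w :=
    (hid.const_mul (16 / 9)).sub (h1.const_mul (1 / 3))
  have h3 : HasDerivAt (fun w : ℂ => w ^ 2) (2 * w) w := by
    simpa using hasDerivAt_pow 2 w
  have h4 := (h3.mul h2).const_mul ((Real.pi ^ 2 / 8 : ℝ) : ℂ)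
  refine h4.congr_deriv ?_
  congr 1
  field_simp
  ring

lemma Phi_continuousOn : ContinuousOn Phi Omc := by
  unfold Phi
  apply ContinuousOn.mul continuousOn_const
  apply ContinuousOn.mul
  · fun_prop
  · apply ContinuousOn.sub
    · fun_prop
    · exact continuousOn_const.mul continuousOn_mul_log

/-- The composed holomorphic function. -/
noncomputable def G (z : ℂ) : ℂ := Phi (W z)

lemma hasDerivAt_G {z : ℂ} (hz : z ∈ D) (hb : z ∈ Bx) :
    HasDerivAt G (((Real.pi ^ 2 / 8 : ℝ) : ℂ) * (W z) ^ 2) z := by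
  have h1 := W_D ⟨hz, hb⟩
  have h2 := hasDerivAt_Phi (mem_slit_of_Omc (Om_sub h1.1) (Om_ne_zero h1.1))
  have h3 := h2.comp z (hasDerivAt_W hz hb)
  refine h3.congr_deriv ?_
  have h4 := deriv_Z_ne h1.1.2.le
  field_simp

lemma G_continuousOn : ContinuousOn G Dc :=
  Phi_continuousOn.comp W_continuousOn (fun _ hz => (W_Dc hz).1)

lemma G_graph {z : ℂ} (h1 : z ∈ Bx) (h2 : f z.im = z.re) :
    z.re ^ 3 / 6 + (G z).re = 0 := by
  obtain ⟨hW, hk, -⟩ := W_graph h1 h2
  unfold G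
  rw [hW, ← h2]
  unfold f
  set t := k z.im with ht
  have hlog : ((t : ℂ) * Complex.I) * Complex.log ((t : ℂ) * Complex.I)
      = 6 * ((t : ℂ) * Complex.I) - Z ((t : ℂ) * Complex.I) := by
    unfold Z; ring
  have h3 : Phi ((t : ℂ) * Complex.I) = ((Real.pi ^ 2 / 8 * (-(t ^ 2)) * (1 / 3 * (Real.pi / 2 * |t|)) : ℝ) : ℂ)
      + ((Real.pi ^ 2 / 8 * (-(t ^ 2)) * (16 / 9 * t - 1 / 3 * (6 * t - h t)) : ℝ) : ℂ) * Complex.I := by
    unfold Phi
    rw [hlog, Z_I_mul hk, mul_pow, Complex.I_sq]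
    push_cast
    ring
  rw [h3]
  simp only [Complex.add_re, Complex.ofReal_re, Complex.re_ofReal_mul, Complex.I_re, mul_zero,
    add_zero]
  have h4 : |t| ^ 2 = t ^ 2 := sq_abs t
  have h5 : (Real.pi / 2 * |t|) ^ 3 = Real.pi ^ 3 / 8 * (t ^ 2 * |t|) := by
    rw [← h4]; ring
  rw [h5]
  ring

/-- The solution. -/
noncomputable def u (z : ℂ) : ℝ :=
  open Classical in if z ∈ D then z.re ^ 3 / 6 + (G z).re else 0

/-- The complex form of the gradient inside `D`. -/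
noncomputable def A (z : ℂ) : ℂ :=
  ((z.re ^ 2 / 2 : ℝ) : ℂ) + ((Real.pi ^ 2 / 8 : ℝ) : ℂ) * (W z) ^ 2

/-- The complex form of the gradient. -/
noncomputable def A0 (z : ℂ) : ℂ :=
  open Classical in if z ∈ D then A z else 0

/-- The real functional associated with a complex number. -/
noncomputable def T : ℂ →L[ℝ] ℂ →L[ℝ] ℝ :=
  (ContinuousLinearMap.compL ℝ ℂ ℂ ℝ Complex.reCLM).comp (ContinuousLinearMap.mul ℝ ℂ)

lemma T_apply (a v : ℂ) : T a v = (a * v).re := rfl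

lemma A_graph {z : ℂ} (h1 : z ∈ Bx) (h2 : f z.im = z.re) : A z = 0 := by
  obtain ⟨hW, hk, -⟩ := W_graph h1 h2
  unfold A
  rw [hW, ← h2, mul_pow, Complex.I_sq]
  unfold f
  have h4 : |k z.im| ^ 2 = (k z.im) ^ 2 := sq_abs _
  rw [mul_pow, h4]
  push_cast
  ring

lemma A_lip {z z' : ℂ} (hz : z ∈ Dc) (hz' : z' ∈ Dc) :
    ‖A z - A z'‖ ≤ 6 * ‖z - z'‖ := by
  have h1 : A z - A z' = (((z.re + z'.re) / 2 * (z.re - z'.re) : ℝ) : ℂ)
      + ((Real.pi ^ 2 / 8 : ℝ) : ℂ) * ((W z + W z') * (W z - W z')) := by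
    unfold A
    push_cast
    ring
  rw [h1]
  have h2 := W_lip hz hz'
  have h3 := (W_Dc hz).1.2
  have h4 := (W_Dc hz').1.2
  have h5 : ‖W z + W z'‖ ≤ 2 := (norm_add_le _ _).trans (by linarith)
  have h6 : |z.re - z'.re| ≤ ‖z - z'‖ := by
    rw [← Complex.sub_re]; exact Complex.abs_re_le_norm _
  have h7 : |(z.re + z'.re) / 2| ≤ 4 := by
    have ha := abs_lt.mp hz.1.2
    have hb := abs_lt.mp hz'.1.2
    rw [abs_le]
    constructor <;> linarith
  have hpi : Real.pi ^ 2 / 8 ≤ 2 := by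
    have := Real.pi_lt_four
    have := Real.pi_pos
    nlinarith
  have hn : 0 ≤ ‖z - z'‖ := norm_nonneg _
  calc ‖(((z.re + z'.re) / 2 * (z.re - z'.re) : ℝ) : ℂ)
      + ((Real.pi ^ 2 / 8 : ℝ) : ℂ) * ((W z + W z') * (W z - W z'))‖
      ≤ ‖(((z.re + z'.re) / 2 * (z.re - z'.re) : ℝ) : ℂ)‖
      + ‖((Real.pi ^ 2 / 8 : ℝ) : ℂ) * ((W z + W z') * (W z - W z'))‖ := norm_add_le _ _
    _ = |(z.re + z'.re) / 2| * |z.re - z'.re| + (Real.pi ^ 2 / 8) * (‖W z + W z'‖ * ‖W z - W z'‖) := by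
        rw [Complex.norm_real, norm_mul, norm_mul, Complex.norm_real, norm_mul,
          Real.norm_of_nonneg (by positivity : 0 ≤ Real.pi ^ 2 / 8), Real.norm_eq_abs,
          Real.norm_eq_abs]
    _ ≤ 4 * ‖z - z'‖ + 2 * (2 * ((1 / 5) * ‖z - z'‖)) := by
        gcongr
    _ ≤ 6 * ‖z - z'‖ := by linarith

lemma hasFDerivAt_u_D {z : ℂ} (hz : z ∈ D) (hb : z ∈ Bx) : HasFDerivAt u (T (A0 z)) z := by
  have h1 := ((hasDerivAt_G hz hb).hasFDerivAt.restrictScalars ℝ)
  have h2 := Complex.reCLM.hasFDerivAt.comp z h1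
  have h3 : HasFDerivAt (fun z : ℂ => z.re ^ 3 / 6) ((z.re ^ 2 / 2) • Complex.reCLM) z := by
    have h4 := (Complex.reCLM.hasFDerivAt (x := z)).pow 3
    have h5 := h4.const_mul (1 / 6)
    refine (h5.congr_of_eventuallyEq (Eventually.of_forall fun x => ?_)).congr_fderiv ?_
    · simp; ring
    · ext v
      simp
      ring
  have h4 := h3.add h2
  have h5 : HasFDerivAt u _ z := h4.congr_of_eventuallyEq (by
    filter_upwards [D_isOpen.mem_nhds hz] with x hx
    simp [u, hx])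
  refine h5.congr_fderiv ?_
  have hA : A0 z = A z := if_pos hz
  rw [hA]
  apply ContinuousLinearMap.ext
  intro v
  rw [T_apply]
  change z.re ^ 2 / 2 * v.re + (v • (((Real.pi ^ 2 / 8 : ℝ) : ℂ) * W z ^ 2)).re = (A z * v).re
  unfold A
  rw [add_mul, Complex.add_re, Complex.re_ofReal_mul, smul_eq_mul, mul_comm v]

lemma A0_graph {z : ℂ} (h2 : z.re ≤ f z.im) : A0 z = 0 := by
  unfold A0
  rw [if_neg]
  intro h
  have h' : f z.im < z.re := h
  linarith

lemma u_graph {z : ℂ} (h2 : z.re ≤ f z.im) : u z = 0 := by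
  unfold u
  rw [if_neg]
  intro h
  have h' : f z.im < z.re := h
  linarith

lemma hasFDerivAt_u_ext {z : ℂ} (hz : z.re < f z.im) : HasFDerivAt u (T (A0 z)) z := by
  rw [A0_graph hz.le, map_zero]
  have ho : IsOpen {z : ℂ | z.re < f z.im} :=
    isOpen_lt Complex.continuous_re (f_continuous.comp Complex.continuous_im)
  refine (hasFDerivAt_const (0 : ℝ) z).congr_of_eventuallyEq ?_
  filter_upwards [ho.mem_nhds hz] with x hx
  exact u_graph (le_of_lt hx)

/-- The formula for `u` inside `D` is continuous up to the boundary. -/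
lemma cont_formula : ContinuousOn (fun z : ℂ => z.re ^ 3 / 6 + (G z).re) Dc := by
  apply ContinuousOn.add
  · fun_prop
  · exact Complex.continuous_re.comp_continuousOn G_continuousOn

/-- Quadratic bound near the free boundary. -/
lemma u_quadratic {z : ℂ} (hz : z ∈ D) (hb : z ∈ Bx) :
    |u z| ≤ 6 * (z.re - f z.im) ^ 2 := by
  have hlt : f z.im < z.re := hz
  let p : ℝ → ℂ := fun s => (s : ℂ) + (z.im : ℂ) * Complex.I
  have hpre : ∀ s, (p s).re = s := by intro s; simp [p]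
  have hpim : ∀ s, (p s).im = z.im := by intro s; simp [p]
  have hpc : Continuous p := by simp only [p]; fun_prop
  have hf0 := f_nonneg z.im
  have hmem : ∀ s ∈ Icc (f z.im) z.re, p s ∈ Dc := by
    intro s hs
    refine ⟨⟨?_, ?_⟩, ?_⟩
    · rw [hpim]; exact hb.1
    · rw [hpre]
      have := abs_lt.mp hb.2
      rw [abs_lt]
      constructor
      · linarith [hs.1]
      · linarith [hs.2]
    · rw [hpre, hpim]; exact hs.1
  have hc : ContinuousOn (fun s => (p s).re ^ 3 / 6 + (G (p s)).re) (Icc (f z.im) z.re) :=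
    cont_formula.comp hpc.continuousOn hmem
  have hpd : ∀ s : ℝ, HasDerivAt p 1 s := by
    intro s
    have h1 : HasDerivAt (fun s : ℝ => (s : ℂ)) 1 s := Complex.ofRealCLM.hasDerivAt
    exact h1.add_const _
  have hd : ∀ s ∈ Ioo (f z.im) z.re, HasDerivAt (fun s => (p s).re ^ 3 / 6 + (G (p s)).re)
      ((A (p s)).re) s := by
    intro s hs
    have hm := hmem s (Ioo_subset_Icc_self hs)
    have hD : p s ∈ D := by
      change f (p s).im < (p s).re
      rw [hpre, hpim]; exact hs.1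
    have h1 := (hasFDerivAt_u_D hD hm.1).comp_hasDerivAt s (hpd s)
    have h2 : T (A0 (p s)) 1 = (A (p s)).re := by
      rw [T_apply, mul_one]
      unfold A0
      rw [if_pos hD]
    rw [h2] at h1
    refine h1.congr_of_eventuallyEq ?_
    have : ∀ᶠ s' in 𝓝 s, p s' ∈ D := hpc.continuousAt.eventually (D_isOpen.mem_nhds hD)
    filter_upwards [this] with s' hs'
    simp [u, hs']
  obtain ⟨c, hc1, hc2⟩ := exists_hasDerivAt_eq_slope _ _ hlt hc hd
  have hz' : p z.re = z := Complex.re_add_im z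
  have hgr : (p (f z.im)).re ^ 3 / 6 + (G (p (f z.im))).re = 0 := by
    apply G_graph (hmem _ (left_mem_Icc.mpr hlt.le)).1
    rw [hpre, hpim]
  simp only [hz'] at hc2
  rw [hgr, sub_zero, eq_div_iff (by linarith)] at hc2
  have hu : u z = z.re ^ 3 / 6 + (G z).re := if_pos hz
  rw [hu, ← hc2, abs_mul, abs_of_pos (by linarith : 0 < z.re - f z.im)]
  have h6 : |(A (p c)).re| ≤ 6 * (z.re - f z.im) := by
    have h7 := A_lip (hmem c (Ioo_subset_Icc_self hc1)) (hmem _ (left_mem_Icc.mpr hlt.le))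
    rw [A_graph (hmem _ (left_mem_Icc.mpr hlt.le)).1 (by rw [hpre, hpim]), sub_zero] at h7
    have h8 : p c - p (f z.im) = ((c - f z.im : ℝ) : ℂ) := by
      simp only [p]; push_cast; ring
    rw [h8, Complex.norm_real, Real.norm_of_nonneg (by linarith [hc1.1])] at h7
    have h9 := Complex.abs_re_le_norm (A (p c))
    linarith [hc1.2]
  nlinarith [abs_nonneg (A (p c)).re]

lemma u_bound_graph {z₀ z : ℂ} (h0 : f z₀.im = z₀.re) (hb : z ∈ Bx) :
    |u z| ≤ 24 * ‖z - z₀‖ ^ 2 := by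
  by_cases hz : z ∈ D
  · have h1 := u_quadratic hz hb
    have hlt : f z.im < z.re := hz
    have h2 : z.re - f z.im ≤ 2 * ‖z - z₀‖ := by
      have h3 := Complex.abs_re_le_norm (z - z₀)
      have h4 := Complex.abs_im_le_norm (z - z₀)
      rw [Complex.sub_re] at h3
      rw [Complex.sub_im] at h4
      have h5 := abs_f_sub_le z₀.im z.im
      have h6 := le_abs_self (z.re - z₀.re)
      have h7 := le_abs_self (f z₀.im - f z.im)
      rw [abs_sub_comm z₀.im z.im] at h5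
      linarith
    have h3 : 0 ≤ z.re - f z.im := by linarith
    nlinarith [norm_nonneg (z - z₀)]
  · have : u z = 0 := if_neg hz
    rw [this]
    simp

lemma hasFDerivAt_u_graph {z : ℂ} (hb : z ∈ Bx) (h0 : f z.im = z.re) :
    HasFDerivAt u (T (A0 z)) z := by
  rw [A0_graph h0.ge, map_zero]
  rw [hasFDerivAt_iff_isLittleO_nhds_zero]
  have h1 : ∀ᶠ v in 𝓝 (0 : ℂ), z + v ∈ Bx := by
    have hc : ContinuousAt (fun v : ℂ => z + v) 0 := by fun_prop
    apply hc.eventually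
    simp only [add_zero]
    exact Bx_isOpen.mem_nhds hb
  have h2 : (fun v : ℂ => u (z + v) - u z - (0 : ℂ →L[ℝ] ℝ) v) =O[𝓝 0] (fun v : ℂ => ‖v‖ ^ 2) := by
    apply Asymptotics.IsBigO.of_bound 24
    filter_upwards [h1] with v hv
    rw [u_graph h0.ge]
    simp only [sub_zero, _root_.zero_apply, norm_pow, norm_norm]
    have := u_bound_graph h0 hv
    simpa using this
  refine h2.trans_isLittleO ?_
  have : (fun v : ℂ => ‖v‖ ^ 2) =o[𝓝 0] (fun v : ℂ => ‖v‖ ^ 1) :=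
    (Asymptotics.isLittleO_pow_pow (by norm_num)).comp_tendsto tendsto_norm_zero
  simp only [pow_one] at this
  exact this.of_norm_right

lemma hasFDerivAt_u {z : ℂ} (hb : z ∈ Bx) : HasFDerivAt u (T (A0 z)) z := by
  rcases lt_trichotomy (f z.im) z.re with h | h | h
  · exact hasFDerivAt_u_D h hb
  · exact hasFDerivAt_u_graph hb h
  · exact hasFDerivAt_u_ext h

lemma Bx_convex : Convex ℝ Bx := by
  have h1 : Bx = Complex.imCLM ⁻¹' (Ioo (-3 : ℝ) 3) ∩ Complex.reCLM ⁻¹' (Ioo (-4 : ℝ) 4) := by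
    ext z
    simp [Bx, abs_lt]
  rw [h1]
  exact ((convex_Ioo (-3 : ℝ) 3).linear_preimage Complex.imCLM.toLinearMap).inter
    ((convex_Ioo (-4 : ℝ) 4).linear_preimage Complex.reCLM.toLinearMap)

lemma A0_lip_aux {z z' : ℂ} (hz : z ∈ Bx) (hz' : z' ∈ Bx) (hD : z ∈ D) (hD' : z' ∉ D) :
    ‖A0 z‖ ≤ 6 * ‖z - z'‖ := by
  let γ : ℝ → ℂ := fun s => z + (s : ℂ) * (z' - z)
  have hγc : Continuous γ := by simp only [γ]; fun_prop
  have hγB : ∀ s ∈ Icc (0 : ℝ) 1, γ s ∈ Bx := by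
    intro s hs
    have := Bx_convex hz hz' (a := 1 - s) (b := s) (by linarith [hs.2]) hs.1 (by ring)
    convert this using 1
    simp only [γ, Complex.real_smul]
    push_cast; ring
  let φ : ℝ → ℝ := fun s => (γ s).re - f (γ s).im
  have hφc : Continuous φ := by
    have := f_continuous
    have h1 := Complex.continuous_re.comp hγc
    have h2 := this.comp (Complex.continuous_im.comp hγc)
    exact h1.sub h2
  have h0 : 0 < φ 0 := by
    have : f z.im < z.re := hD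
    simp only [φ, γ, Complex.ofReal_zero, zero_mul, add_zero]
    linarith
  have h1 : φ 1 ≤ 0 := by
    have : ¬ (f z'.im < z'.re) := hD'
    simp only [φ, γ, Complex.ofReal_one, one_mul, add_sub_cancel]
    linarith
  obtain ⟨s, hs, hs0⟩ : ∃ s ∈ Icc (0 : ℝ) 1, φ s = 0 := by
    have := intermediate_value_Icc' (zero_le_one) (hφc.continuousOn (s := Icc (0 : ℝ) 1))
    exact this ⟨h1, h0.le⟩
  have hp : f (γ s).im = (γ s).re := by
    simp only [φ] at hs0
    linarith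
  have hpB := hγB s hs
  have h2 := A_lip (D_sub_Dc hD hz) (z' := γ s) ⟨hpB, hp.le⟩
  rw [A_graph hpB hp, sub_zero] at h2
  have h3 : A0 z = A z := if_pos hD
  rw [h3]
  have h4 : z - γ s = ((s : ℝ) : ℂ) * (z - z') := by
    simp only [γ]; ring
  rw [h4, norm_mul, Complex.norm_real, Real.norm_of_nonneg hs.1] at h2
  have h5 : s * ‖z - z'‖ ≤ ‖z - z'‖ := by
    have := norm_nonneg (z - z')
    nlinarith [hs.2]
  linarith

lemma A0_lip {z z' : ℂ} (hz : z ∈ Bx) (hz' : z' ∈ Bx) :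
    ‖A0 z - A0 z'‖ ≤ 6 * ‖z - z'‖ := by
  by_cases hD : z ∈ D
  · by_cases hD' : z' ∈ D
    · have h3 : A0 z = A z := if_pos hD
      have h4 : A0 z' = A z' := if_pos hD'
      rw [h3, h4]
      exact A_lip (D_sub_Dc hD hz) (D_sub_Dc hD' hz')
    · have h4 : A0 z' = 0 := if_neg hD'
      rw [h4, sub_zero]
      exact A0_lip_aux hz hz' hD hD'
  · by_cases hD' : z' ∈ D
    · have h4 : A0 z = 0 := if_neg hD
      rw [h4, zero_sub, norm_neg, norm_sub_rev]
      exact A0_lip_aux hz' hz hD' hD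
    · have h3 : A0 z = 0 := if_neg hD
      have h4 : A0 z' = 0 := if_neg hD'
      rw [h3, h4]
      simp

lemma T_norm_le (a : ℂ) : ‖T a‖ ≤ ‖a‖ := by
  apply ContinuousLinearMap.opNorm_le_bound _ (norm_nonneg _)
  intro v
  rw [T_apply, Real.norm_eq_abs, ← norm_mul]
  exact Complex.abs_re_le_norm _

lemma fderiv_u_lip : LipschitzOnWith 6 (fderiv ℝ u) Bx := by
  apply LipschitzOnWith.of_dist_le_mul
  intro z hz z' hz'
  rw [(hasFDerivAt_u hz).fderiv, (hasFDerivAt_u hz').fderiv, dist_eq_norm, ← map_sub,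
    dist_eq_norm]
  exact (T_norm_le _).trans (A0_lip hz hz')

lemma contDiffOn_u : ContDiffOn ℝ 1 u Bx := by
  rw [show (1 : WithTop ℕ∞) = 0 + 1 by norm_num, contDiffOn_succ_iff_fderiv_of_isOpen Bx_isOpen]
  refine ⟨fun z hz => (hasFDerivAt_u hz).differentiableAt.differentiableWithinAt, by simp, ?_⟩
  rw [contDiffOn_zero]
  exact fderiv_u_lip.continuousOn

end Pool.Agent.X102.FB
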