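import Mathlib

set_option autoImplicit false

open Filter Topology MeasureTheory Laplacian InnerProductSpace

namespace Pool.Agent.X102

/-- Second derivative along a line computes the diagonal of the second Frechet derivative. -/
lemma iteratedFDeriv_two_line {E : Type*} [NormedAddCommGroup E] [NormedSpace ℝ E]
    {f : E → ℝ} {x v : E} (hf : ContDiffAt ℝ 2 f x) {g : ℝ → ℝ} {b : ℝ}
    (h1 : ∀ᶠ t in 𝓝 (0 : ℝ), HasDerivAt (fun s => f (x + s • v)) (g t) t)
    (h2 : HasDerivAt g b 0) : iteratedFDeriv ℝ 2 f x ![v, v] = b := by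
  rw [iteratedFDeriv_two_apply]
  simp only [Matrix.cons_val_zero, Matrix.cons_val_one]
  have hd : ∀ᶠ y in 𝓝 x, DifferentiableAt ℝ f y := by
    have := hf.eventually (by simp)
    filter_upwards [this] with y hy
    exact hy.differentiableAt (by norm_num)
  have hline : ∀ t : ℝ, HasDerivAt (fun s : ℝ => x + s • v) v t := by
    intro t
    simpa using ((hasDerivAt_id t).smul_const v).const_add x
  have htend : Tendsto (fun t : ℝ => x + t • v) (𝓝 0) (𝓝 x) := by
    have := (hline 0).continuousAt.tendsto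
    simpa using this
  have hev : ∀ᶠ t in 𝓝 (0 : ℝ), g t = fderiv ℝ f (x + t • v) v := by
    filter_upwards [h1, htend.eventually hd] with t ht1 ht2
    have h3 := ht2.hasFDerivAt.comp_hasDerivAt t (hline t)
    exact ht1.unique h3
  have hf' : DifferentiableAt ℝ (fderiv ℝ f) x := by
    have h1 : ContDiffAt ℝ 1 (fderiv ℝ f) x := hf.fderiv_right (by norm_num)
    exact h1.differentiableAt (by norm_num)
  have h4 : HasDerivAt (fun t : ℝ => fderiv ℝ f (x + t • v)) (fderiv ℝ (fderiv ℝ f) x v) 0 := by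
    have h5 : HasFDerivAt (fderiv ℝ f) (fderiv ℝ (fderiv ℝ f) x) (x + (0 : ℝ) • v) := by
      simpa using hf'.hasFDerivAt
    exact h5.comp_hasDerivAt 0 (hline 0)
  have h6 : HasDerivAt (fun t : ℝ => fderiv ℝ f (x + t • v) v)
      (fderiv ℝ (fderiv ℝ f) x v v) 0 := by
    have := h4.clm_apply (hasDerivAt_const (0 : ℝ) v)
    simpa using this
  have h7 : HasDerivAt g (fderiv ℝ (fderiv ℝ f) x v v) 0 := h6.congr_of_eventuallyEq hev
  exact h7.unique h2

/-- Laplacian in the Euclidean plane from one-variable derivatives at a point. -/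
lemma laplacian_plane_at {f : EuclideanSpace ℝ (Fin 2) → ℝ} {F : ℝ → ℝ → ℝ}
    (hfF : ∀ x, f x = F (x 0) (x 1)) {x : EuclideanSpace ℝ (Fin 2)}
    (hf : ContDiffAt ℝ 2 f x) {g h : ℝ → ℝ} {a b : ℝ}
    (hx : ∀ᶠ t in 𝓝 (x 0), HasDerivAt (fun s => F s (x 1)) (g t) t)
    (hxx : HasDerivAt g a (x 0))
    (hy : ∀ᶠ t in 𝓝 (x 1), HasDerivAt (fun s => F (x 0) s) (h t) t)
    (hyy : HasDerivAt h b (x 1)) :
    Δ f x = a + b := by
  rw [laplacian_eq_iteratedFDeriv_orthonormalBasis f (EuclideanSpace.basisFun (Fin 2) ℝ)]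
  simp only [Fin.sum_univ_two, EuclideanSpace.basisFun_apply]
  congr 1
  · refine iteratedFDeriv_two_line hf (g := fun t => g (x 0 + t)) ?_ ?_
    · have ht : Tendsto (fun t : ℝ => x 0 + t) (𝓝 0) (𝓝 (x 0)) := by
        have : Continuous (fun t : ℝ => x 0 + t) := by fun_prop
        simpa using this.tendsto 0
      filter_upwards [ht.eventually hx] with t htt
      have h1 : HasDerivAt (fun s : ℝ => F (x 0 + s) (x 1)) (g (x 0 + t)) t := by
        simpa using htt.comp_const_add (x 0) t
      refine h1.congr_of_eventuallyEq (Eventually.of_forall fun s => ?_)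
      simp [hfF]
    · simpa using (HasDerivAt.comp_const_add (x 0) 0 (by simpa using hxx))
  · refine iteratedFDeriv_two_line hf (g := fun t => h (x 1 + t)) ?_ ?_
    · have ht : Tendsto (fun t : ℝ => x 1 + t) (𝓝 0) (𝓝 (x 1)) := by
        have : Continuous (fun t : ℝ => x 1 + t) := by fun_prop
        simpa using this.tendsto 0
      filter_upwards [ht.eventually hy] with t htt
      have h1 : HasDerivAt (fun s : ℝ => F (x 0) (x 1 + s)) (h (x 1 + t)) t := by
        simpa using htt.comp_const_add (x 1) t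
      refine h1.congr_of_eventuallyEq (Eventually.of_forall fun s => ?_)
      simp [hfF]
    · simpa using (HasDerivAt.comp_const_add (x 1) 0 (by simpa using hyy))

/-- Laplacian in the Euclidean plane from global one-variable derivatives. -/
lemma laplacian_plane {F Fx Fxx Fy Fyy : ℝ → ℝ → ℝ}
    (hC : ContDiff ℝ 2 (fun x : EuclideanSpace ℝ (Fin 2) => F (x 0) (x 1)))
    (hx : ∀ a b, HasDerivAt (fun s => F s b) (Fx a b) a)
    (hxx : ∀ a b, HasDerivAt (fun s => Fx s b) (Fxx a b) a)
    (hy : ∀ a b, HasDerivAt (fun s => F a s) (Fy a b) b)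
    (hyy : ∀ a b, HasDerivAt (fun s => Fy a s) (Fyy a b) b)
    (x : EuclideanSpace ℝ (Fin 2)) :
    Δ (fun x : EuclideanSpace ℝ (Fin 2) => F (x 0) (x 1)) x
      = Fxx (x 0) (x 1) + Fyy (x 0) (x 1) :=
  laplacian_plane_at (F := F) (fun _ => rfl) hC.contDiffAt
    (Eventually.of_forall fun t => hx t (x 1)) (hxx _ _)
    (Eventually.of_forall fun t => hy (x 0) t) (hyy _ _)

end Pool.Agent.X102
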