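import Mathlib
import Pool.Agent.X102.Lap

set_option autoImplicit false

open Filter Topology MeasureTheory Laplacian InnerProductSpace

namespace Pool.Agent.X102

/-- Laplacian in the complex plane from one-variable derivatives. -/
lemma laplacian_complex_at {f : ℂ → ℝ} {F : ℝ → ℝ → ℝ}
    (hfF : ∀ z, f z = F z.re z.im) {z : ℂ}
    (hf : ContDiffAt ℝ 2 f z) {g h : ℝ → ℝ} {a b : ℝ}
    (hx : ∀ᶠ t in 𝓝 z.re, HasDerivAt (fun s => F s z.im) (g t) t)
    (hxx : HasDerivAt g a z.re)
    (hy : ∀ᶠ t in 𝓝 z.im, HasDerivAt (fun s => F z.re s) (h t) t)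
    (hyy : HasDerivAt h b z.im) :
    Δ f z = a + b := by
  rw [laplacian_eq_iteratedFDeriv_complexPlane]
  simp only
  congr 1
  · refine iteratedFDeriv_two_line hf (g := fun t => g (z.re + t)) ?_ ?_
    · have ht : Tendsto (fun t : ℝ => z.re + t) (𝓝 0) (𝓝 z.re) := by
        have : Continuous (fun t : ℝ => z.re + t) := by fun_prop
        simpa using this.tendsto 0
      filter_upwards [ht.eventually hx] with t htt
      have h1 : HasDerivAt (fun s : ℝ => F (z.re + s) z.im) (g (z.re + t)) t := by
        simpa using htt.comp_const_add z.re t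
      refine h1.congr_of_eventuallyEq (Eventually.of_forall fun s => ?_)
      simp [hfF]
    · simpa using (HasDerivAt.comp_const_add z.re 0 (by simpa using hxx))
  · refine iteratedFDeriv_two_line hf (g := fun t => h (z.im + t)) ?_ ?_
    · have ht : Tendsto (fun t : ℝ => z.im + t) (𝓝 0) (𝓝 z.im) := by
        have : Continuous (fun t : ℝ => z.im + t) := by fun_prop
        simpa using this.tendsto 0
      filter_upwards [ht.eventually hy] with t htt
      have h1 : HasDerivAt (fun s : ℝ => F z.re (z.im + s)) (h (z.im + t)) t := by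
        simpa using htt.comp_const_add z.im t
      refine h1.congr_of_eventuallyEq (Eventually.of_forall fun s => ?_)
      simp [hfF]
    · simpa using (HasDerivAt.comp_const_add z.im 0 (by simpa using hyy))

/-- Laplacian in the complex plane from global one-variable derivatives. -/
lemma laplacian_complex {F Fx Fxx Fy Fyy : ℝ → ℝ → ℝ}
    (hC : ContDiff ℝ 2 (fun z : ℂ => F z.re z.im))
    (hx : ∀ a b, HasDerivAt (fun s => F s b) (Fx a b) a)
    (hxx : ∀ a b, HasDerivAt (fun s => Fx s b) (Fxx a b) a)
    (hy : ∀ a b, HasDerivAt (fun s => F a s) (Fy a b) b)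
    (hyy : ∀ a b, HasDerivAt (fun s => Fy a s) (Fyy a b) b)
    (z : ℂ) :
    (Δ (fun z : ℂ => F z.re z.im) : ℂ → ℝ) z = Fxx z.re z.im + Fyy z.re z.im :=
  laplacian_complex_at (F := F) (fun _ => rfl) hC.contDiffAt
    (Eventually.of_forall fun t => hx t z.im) (hxx _ _)
    (Eventually.of_forall fun t => hy z.re t) (hyy _ _)

end Pool.Agent.X102
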