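import Mathlib
import Pool.Agent.X102.Lap

set_option autoImplicit false

open Filter Topology Set Metric MeasureTheory Laplacian InnerProductSpace
open scoped ContDiff

namespace Pool.Agent.X102

/-- Derivative of a holomorphic function along a real line. -/
lemma hasDerivAt_line {F : ℂ → ℂ} {F' : ℂ} {z e : ℂ} {t : ℝ}
    (h : HasDerivAt F F' (z + t • e)) : HasDerivAt (fun s : ℝ => F (z + s • e)) (e * F') t := by
  have hline : HasDerivAt (fun s : ℝ => z + s • e) e t := by
    simpa using ((hasDerivAt_id t).smul_const e).const_add z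
  have := h.comp t hline
  rw [mul_comm]
  exact this

lemma hasDerivAt_re {G : ℝ → ℂ} {G' : ℂ} {t : ℝ} (h : HasDerivAt G G' t) :
    HasDerivAt (fun s => (G s).re) G'.re t :=
  Complex.reCLM.hasFDerivAt.comp_hasDerivAt t h

lemma hasDerivAt_im {G : ℝ → ℂ} {G' : ℂ} {t : ℝ} (h : HasDerivAt G G' t) :
    HasDerivAt (fun s => (G s).im) G'.im t :=
  Complex.imCLM.hasFDerivAt.comp_hasDerivAt t h

/-- `Δ log (1 + |F|²) = 4 |F'|² / (1 + |F|²)²` for holomorphic `F`. -/
lemma laplacian_log_one_add {F F' F'' : ℂ → ℂ} {z : ℂ}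
    (h1 : ∀ᶠ w in 𝓝 z, HasDerivAt F (F' w) w) (h2 : HasDerivAt F' (F'' z) z)
    (hF : ContDiffAt ℝ 2 F z) :
    (Δ (fun w : ℂ => Real.log (1 + ‖F w‖ ^ 2)) : ℂ → ℝ) z
      = 4 * ‖F' z‖ ^ 2 / (1 + ‖F z‖ ^ 2) ^ 2 := by
  have hpos : ∀ w : ℂ, 0 < 1 + ‖F w‖ ^ 2 := fun w => by positivity
  have hc : ContDiffAt ℝ 2 (fun w : ℂ => Real.log (1 + ‖F w‖ ^ 2)) z := by
    apply ContDiffAt.log
    · exact contDiffAt_const.add (hF.norm_sq ℝ)
    · exact (hpos z).ne'
  have hns : ∀ w : ℂ, ‖w‖ ^ 2 = w.re ^ 2 + w.im ^ 2 := by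
    intro w
    rw [← Complex.normSq_eq_norm_sq, Complex.normSq_apply]; ring
  have key : ∀ e : ℂ, iteratedFDeriv ℝ 2 (fun w : ℂ => Real.log (1 + ‖F w‖ ^ 2)) z ![e, e]
      = ((2 * ((e * F' z).re ^ 2 + (e * F' z).im ^ 2 + (F z).re * (e * (e * F'' z)).re
          + (F z).im * (e * (e * F'' z)).im)) * (1 + ‖F z‖ ^ 2)
        - (2 * ((F z).re * (e * F' z).re + (F z).im * (e * F' z).im)) ^ 2)
          / (1 + ‖F z‖ ^ 2) ^ 2 := by
    intro e
    have htend : Tendsto (fun t : ℝ => z + t • e) (𝓝 0) (𝓝 z) := by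
      have hcc : Continuous (fun t : ℝ => z + t • e) := by fun_prop
      simpa using hcc.tendsto 0
    refine iteratedFDeriv_two_line hc (g := fun t =>
      (2 * ((F (z + t • e)).re * (e * F' (z + t • e)).re
        + (F (z + t • e)).im * (e * F' (z + t • e)).im)) / (1 + ‖F (z + t • e)‖ ^ 2)) ?_ ?_
    · filter_upwards [htend.eventually h1] with t ht
      have hl := hasDerivAt_line ht
      have hr := hasDerivAt_re hl
      have hi := hasDerivAt_im hl
      have hsum : HasDerivAt (fun s : ℝ => 1 + ‖F (z + s • e)‖ ^ 2)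
          (2 * ((F (z + t • e)).re * (e * F' (z + t • e)).re
            + (F (z + t • e)).im * (e * F' (z + t • e)).im)) t := by
        have h3 := ((hr.pow 2).add (hi.pow 2)).const_add 1
        refine (h3.congr_of_eventuallyEq (Eventually.of_forall fun s => ?_)).congr_deriv ?_
        · simp only [hns]
          rfl
        · simp
          ring
      exact hsum.log (hpos _).ne'
    · have h10 : HasDerivAt F (F' z) (z + (0 : ℝ) • e) := by simpa using h1.self_of_nhds
      have h20 : HasDerivAt F' (F'' z) (z + (0 : ℝ) • e) := by simpa using h2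
      have hl := hasDerivAt_line h10
      have hr := hasDerivAt_re hl
      have hi := hasDerivAt_im hl
      have hl2 := (hasDerivAt_line h20).const_mul e
      have hr2 := hasDerivAt_re hl2
      have hi2 := hasDerivAt_im hl2
      have hsum : HasDerivAt (fun s : ℝ => 1 + ‖F (z + s • e)‖ ^ 2)
          (2 * ((F z).re * (e * F' z).re + (F z).im * (e * F' z).im)) 0 := by
        have h3 := ((hr.pow 2).add (hi.pow 2)).const_add 1
        refine (h3.congr_of_eventuallyEq (Eventually.of_forall fun s => ?_)).congr_deriv ?_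
        · simp only [hns]
          rfl
        · simp
          ring
      have hnum := ((hr.mul hr2).add (hi.mul hi2)).const_mul 2
      have hdiv := hnum.div hsum (by simpa using (hpos z).ne')
      refine hdiv.congr_deriv ?_
      simp only [zero_smul, add_zero, Pi.add_apply, Pi.mul_apply]
      congr 1
      ring
  rw [laplacian_eq_iteratedFDeriv_complexPlane]
  simp only [key]
  rw [← add_div]
  congr 1
  rw [hns (F' z), hns (F z)]
  simp only [Complex.mul_re, Complex.mul_im, Complex.I_re, Complex.I_im, one_mul, zero_mul,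
    zero_sub, zero_add, Complex.one_re, Complex.one_im, sub_zero, add_zero]
  ring

end Pool.Agent.X102
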