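import Mathlib
import Pool.Agent.X102.LapC
import Pool.Agent.X102.LapHol

set_option autoImplicit false

open Filter Topology MeasureTheory Laplacian InnerProductSpace

namespace Pool.Agent.X102

/-- Laplacian of `P(|z|²)` in the plane. -/
lemma radial_laplacian {P P' P'' : ℝ → ℝ} (h1 : ∀ t, HasDerivAt P (P' t) t)
    (h2 : ∀ t, HasDerivAt P' (P'' t) t)
    (hC : ContDiff ℝ 2 (fun z : ℂ => P (z.re ^ 2 + z.im ^ 2))) (z : ℂ) :
    (Δ (fun z : ℂ => P (z.re ^ 2 + z.im ^ 2)) : ℂ → ℝ) z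
      = 4 * (P' (z.re ^ 2 + z.im ^ 2) + (z.re ^ 2 + z.im ^ 2) * P'' (z.re ^ 2 + z.im ^ 2)) := by
  have hsx : ∀ a b : ℝ, HasDerivAt (fun s : ℝ => s ^ 2 + b ^ 2) (2 * a) a := by
    intro a b
    simpa using (hasDerivAt_pow 2 a).add_const (b ^ 2)
  have hsy : ∀ a b : ℝ, HasDerivAt (fun s : ℝ => a ^ 2 + s ^ 2) (2 * b) b := by
    intro a b
    simpa using (hasDerivAt_pow 2 b).const_add (a ^ 2)
  have key := laplacian_complex (F := fun a b => P (a ^ 2 + b ^ 2))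
    (Fx := fun a b => P' (a ^ 2 + b ^ 2) * (2 * a))
    (Fxx := fun a b => P'' (a ^ 2 + b ^ 2) * (2 * a) * (2 * a) + P' (a ^ 2 + b ^ 2) * 2)
    (Fy := fun a b => P' (a ^ 2 + b ^ 2) * (2 * b))
    (Fyy := fun a b => P'' (a ^ 2 + b ^ 2) * (2 * b) * (2 * b) + P' (a ^ 2 + b ^ 2) * 2)
    hC ?_ ?_ ?_ ?_ z
  · rw [key]; ring
  · intro a b
    exact (h1 _).comp a (hsx a b)
  · intro a b
    have e1 := (h2 (a ^ 2 + b ^ 2)).comp a (hsx a b)
    have e2 : HasDerivAt (fun s : ℝ => 2 * s) 2 a := by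
      simpa using (hasDerivAt_id a).const_mul 2
    exact e1.mul e2
  · intro a b
    exact (h1 _).comp b (hsy a b)
  · intro a b
    have e1 := (h2 (a ^ 2 + b ^ 2)).comp b (hsy a b)
    have e2 : HasDerivAt (fun s : ℝ => 2 * s) 2 b := by
      simpa using (hasDerivAt_id b).const_mul 2
    exact e1.mul e2

/-- gradient of `P(|z|²)` -/
lemma radial_gradient {P P' : ℝ → ℝ} (h1 : ∀ t, HasDerivAt P (P' t) t) (z : ℂ) :
    HasGradientAt (fun z : ℂ => P (z.re ^ 2 + z.im ^ 2))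
      ((2 * P' (z.re ^ 2 + z.im ^ 2)) • z) z := by
  rw [hasGradientAt_iff_hasFDerivAt]
  have hr : HasFDerivAt (fun w : ℂ => w.re) Complex.reCLM z := Complex.reCLM.hasFDerivAt
  have hi : HasFDerivAt (fun w : ℂ => w.im) Complex.imCLM z := Complex.imCLM.hasFDerivAt
  have h3 := (hr.pow 2).add (hi.pow 2)
  have h4 := (h1 (z.re ^ 2 + z.im ^ 2)).comp_hasFDerivAt z h3
  refine h4.congr_fderiv ?_
  ext v
  simp [Complex.inner]
  ring

lemma radial_norm_gradient {P P' : ℝ → ℝ} (h1 : ∀ t, HasDerivAt P (P' t) t) (z : ℂ) :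
    ‖gradient (fun z : ℂ => P (z.re ^ 2 + z.im ^ 2)) z‖ ^ 2
      = 4 * (z.re ^ 2 + z.im ^ 2) * P' (z.re ^ 2 + z.im ^ 2) ^ 2 := by
  rw [(radial_gradient h1 z).gradient, norm_smul, mul_pow, Real.norm_eq_abs, sq_abs,
    ← Complex.normSq_eq_norm_sq, Complex.normSq_apply]
  ring

end Pool.Agent.X102
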