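import Mathlib
import Pool.Agent.X102.Radial
import Pool.Agent.H314.CS.Dist

set_option autoImplicit false

open MeasureTheory Filter Topology Set Metric InnerProductSpace Laplacian
open scoped ENNReal NNReal ContDiff

/-! `H¹₀` in the plane. -/

namespace Pool.Agent.X102.HC

/-- test functions: `C^∞` with compact support in `Ω` -/
def Test (Ω : Set ℂ) (φ : ℂ → ℝ) : Prop :=
  ContDiff ℝ ∞ φ ∧ HasCompactSupport φ ∧ tsupport φ ⊆ Ω

/-- `w ∈ H¹₀(Ω)` (extended by zero) with gradient `K`: there are test functions converging to `w`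
in `L²`, with gradients converging to `K` in `L²`. -/
def HH (Ω : Set ℂ) (w : ℂ → ℝ) (K : ℂ → ℂ) : Prop :=
  MemLp w 2 volume ∧ MemLp K 2 volume ∧ ∃ φ : ℕ → ℂ → ℝ, (∀ n, Test Ω (φ n)) ∧
    Tendsto (fun n => eLpNorm (fun x => φ n x - w x) 2 volume) atTop (𝓝 0) ∧
    Tendsto (fun n => eLpNorm (fun x => gradient (φ n) x - K x) 2 volume) atTop (𝓝 0)

lemma continuous_gradient {φ : ℂ → ℝ} (hφ : ContDiff ℝ 1 φ) : Continuous (gradient φ) := by
  unfold gradient
  exact (InnerProductSpace.toDual ℝ ℂ).symm.continuous.comp (hφ.continuous_fderiv (by norm_num))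

lemma Test.c1 {Ω : Set ℂ} {φ : ℂ → ℝ} (h : Test Ω φ) : ContDiff ℝ 1 φ :=
  h.1.of_le (WithTop.coe_le_coe.mpr le_top)

lemma Test.c2 {Ω : Set ℂ} {φ : ℂ → ℝ} (h : Test Ω φ) : ContDiff ℝ 2 φ :=
  h.1.of_le (WithTop.coe_le_coe.mpr le_top)

lemma Test.memLp {Ω : Set ℂ} {φ : ℂ → ℝ} (h : Test Ω φ) (p : ℝ≥0∞) : MemLp φ p volume :=
  h.1.continuous.memLp_of_hasCompactSupport h.2.1

lemma hasCompactSupport_gradient {φ : ℂ → ℝ} (hc : HasCompactSupport φ) :
    HasCompactSupport (gradient φ) := by
  have h1 := hc.fderiv (𝕜 := ℝ)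
  unfold gradient
  exact h1.comp_left (g := fun L => (InnerProductSpace.toDual ℝ ℂ).symm L) (by simp)

lemma Test.memLp_grad {Ω : Set ℂ} {φ : ℂ → ℝ} (h : Test Ω φ) (p : ℝ≥0∞) :
    MemLp (gradient φ) p volume :=
  (continuous_gradient h.c1).memLp_of_hasCompactSupport (hasCompactSupport_gradient h.2.1)

section CS
variable {F : Type*} [NormedAddCommGroup F] [InnerProductSpace ℝ F]

lemma CSv {f g : ℂ → F} (hf : MemLp f 2 volume) (hg : MemLp g 2 volume) :
    Integrable (fun x => (inner ℝ (f x) (g x) : ℝ)) volume ∧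
      |∫ x, (inner ℝ (f x) (g x) : ℝ)| ≤ (eLpNorm f 2 volume).toReal * (eLpNorm g 2 volume).toReal := by
  have h1 := L2.integrable_inner (𝕜 := ℝ) (hf.toLp f) (hg.toLp g)
  have h2 : (fun x => (inner ℝ ((hf.toLp f) x) ((hg.toLp g) x) : ℝ)) =ᵐ[volume]
      fun x => inner ℝ (f x) (g x) := by
    filter_upwards [hf.coeFn_toLp, hg.coeFn_toLp] with x hx hy
    rw [hx, hy]
  refine ⟨h1.congr h2, ?_⟩
  have h3 : ∫ x, (inner ℝ (f x) (g x) : ℝ) = inner ℝ (hf.toLp f) (hg.toLp g) := by
    rw [L2.inner_def, integral_congr_ae h2]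
  rw [h3, ← Lp.norm_toLp f hf, ← Lp.norm_toLp g hg]
  exact abs_real_inner_le_norm _ _

/-- continuity of the pairing -/
lemma tendsto_inner {f : ℕ → ℂ → F} {f0 g : ℂ → F} (hf : ∀ n, MemLp (f n) 2 volume)
    (hf0 : MemLp f0 2 volume) (hg : MemLp g 2 volume)
    (h : Tendsto (fun n => eLpNorm (fun x => f n x - f0 x) 2 volume) atTop (𝓝 0)) :
    Tendsto (fun n => ∫ x, (inner ℝ (f n x) (g x) : ℝ)) atTop
      (𝓝 (∫ x, (inner ℝ (f0 x) (g x) : ℝ))) := by
  rw [tendsto_iff_norm_sub_tendsto_zero]
  have h2 : Tendsto (fun n => (eLpNorm (fun x => f n x - f0 x) 2 volume).toReal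
      * (eLpNorm g 2 volume).toReal) atTop (𝓝 (0 * (eLpNorm g 2 volume).toReal)) := by
    apply Tendsto.mul_const
    have := (ENNReal.tendsto_toReal (a := 0) (by norm_num)).comp h
    simpa [Function.comp_def] using this
  rw [zero_mul] at h2
  refine squeeze_zero (fun n => norm_nonneg _) (fun n => ?_) h2
  have h3 := (CSv ((hf n).sub hf0) hg).2
  have h4 : ∫ x, (inner ℝ ((f n - f0) x) (g x) : ℝ)
      = (∫ x, (inner ℝ (f n x) (g x) : ℝ)) - ∫ x, (inner ℝ (f0 x) (g x) : ℝ) := by
    rw [← integral_sub (CSv (hf n) hg).1 (CSv hf0 hg).1]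
    congr 1; ext x; rw [Pi.sub_apply, inner_sub_left]
  rw [h4] at h3
  exact h3

end CS

lemma inner_gradient (φ : ℂ → ℝ) (x e : ℂ) :
    (inner ℝ (gradient φ x) e : ℝ) = fderiv ℝ φ x e := by
  unfold gradient
  exact InnerProductSpace.toDual_symm_apply

/-- Green's formula for test functions. -/
lemma green_test {Ω : Set ℂ} {φ Ψ : ℂ → ℝ} (hφ : Test Ω φ) (hΨ : ContDiff ℝ 2 Ψ) :
    ∫ x, (inner ℝ (gradient φ x) (gradient Ψ x) : ℝ) = - ∫ x, φ x * Δ Ψ x := by
  have hc := hφ.2.1
  have key : ∀ e : ℂ, ∫ x, fderiv ℝ Ψ x e * fderiv ℝ φ x e =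
      - ∫ x, fderiv ℝ (fun y => fderiv ℝ Ψ y e) x e * φ x := by
    intro e
    have hv1 := H314.CS.LL.contDiff_dir hΨ e
    have hφ1 := H314.CS.LL.contDiff_dir hφ.c2 e
    have hφc := H314.CS.LL.hasCompactSupport_dir hc e
    have hv2c : Continuous (fun x => fderiv ℝ (fun y => fderiv ℝ Ψ y e) x e) :=
      (hv1.continuous_fderiv (by norm_num)).clm_apply continuous_const
    exact integral_mul_fderiv_eq_neg_fderiv_mul_of_integrable (μ := volume)
      (f := fun y => fderiv ℝ Ψ y e) (g := φ) (v := e)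
      ((hv2c.mul hφ.c2.continuous).integrable_of_hasCompactSupport hc.mul_left)
      ((hv1.continuous.mul hφ1.continuous).integrable_of_hasCompactSupport hφc.mul_left)
      ((hv1.continuous.mul hφ.c2.continuous).integrable_of_hasCompactSupport hc.mul_left)
      (fun x _ => hv1.differentiable (by norm_num) x)
      (fun x _ => hφ.c2.differentiable (by norm_num) x)
  have h1 : ∀ x, (inner ℝ (gradient φ x) (gradient Ψ x) : ℝ)
      = ∑ i, fderiv ℝ Ψ x (stdOrthonormalBasis ℝ ℂ i) * fderiv ℝ φ x (stdOrthonormalBasis ℝ ℂ i) := by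
    intro x
    rw [← (stdOrthonormalBasis ℝ ℂ).sum_inner_mul_inner]
    refine Finset.sum_congr rfl fun i _ => ?_
    rw [inner_gradient, real_inner_comm, inner_gradient, mul_comm]
  simp_rw [h1, H314.CS.LL.laplacian_eq_sum_fderiv hΨ, Finset.mul_sum]
  rw [integral_finsetSum, integral_finsetSum, ← Finset.sum_neg_distrib]
  · refine Finset.sum_congr rfl fun i _ => ?_
    rw [key]
    congr 1
    congr 1
    ext x; ring
  · intro i _
    have hv1 := H314.CS.LL.contDiff_dir hΨ (stdOrthonormalBasis ℝ ℂ i)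
    exact (hφ.c2.continuous.mul ((hv1.continuous_fderiv (by norm_num)).clm_apply
      continuous_const)).integrable_of_hasCompactSupport hc.mul_right
  · intro i _
    have hv1 := H314.CS.LL.contDiff_dir hΨ (stdOrthonormalBasis ℝ ℂ i)
    have hφ1 := H314.CS.LL.contDiff_dir hφ.c2 (stdOrthonormalBasis ℝ ℂ i)
    have hφc := H314.CS.LL.hasCompactSupport_dir hc (stdOrthonormalBasis ℝ ℂ i)
    exact (hv1.continuous.mul hφ1.continuous).integrable_of_hasCompactSupport hφc.mul_left

lemma memLp_indicator {F : Type*} [NormedAddCommGroup F] {Ω : Set ℂ} (hΩ : MeasurableSet Ω)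
    (hb : Bornology.IsBounded Ω) {f : ℂ → F} (hf : Continuous f) (p : ℝ≥0∞) :
    MemLp (Ω.indicator f) p volume := by
  obtain ⟨C, hC⟩ := (hb.isCompact_closure).exists_bound_of_continuousOn hf.continuousOn
  rw [memLp_indicator_iff_restrict hΩ]
  have : IsFiniteMeasure (volume.restrict Ω) := ⟨by
    rw [Measure.restrict_apply_univ]; exact hb.measure_lt_top⟩
  refine MemLp.of_bound hf.aestronglyMeasurable C ?_
  filter_upwards [ae_restrict_mem hΩ] with x hx
  exact hC x (subset_closure hx)

/-- Green's formula for `H¹₀` functions. -/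
lemma HH.green {Ω : Set ℂ} (hΩ : MeasurableSet Ω) (hb : Bornology.IsBounded Ω) {w : ℂ → ℝ}
    {K : ℂ → ℂ} (hw : HH Ω w K) {Ψ : ℂ → ℝ} (hΨ : ContDiff ℝ 2 Ψ) (hΔ : Continuous (Δ Ψ)) :
    ∫ x in Ω, (inner ℝ (K x) (gradient Ψ x) : ℝ) = - ∫ x in Ω, w x * Δ Ψ x := by
  obtain ⟨hw0, hK, φ, hφ, h1, h2⟩ := hw
  have hgc : Continuous (gradient Ψ) := continuous_gradient (hΨ.of_le (by norm_num))
  have m1 := memLp_indicator hΩ hb hgc 2
  have m2 := memLp_indicator hΩ hb hΔ 2
  have l1 := tendsto_inner (fun n => (hφ n).memLp_grad 2) hK m1 h2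
  have l2 := tendsto_inner (fun n => (hφ n).memLp 2) hw0 m2 h1
  have e1 : ∀ f : ℂ → ℂ, ∫ x, (inner ℝ (f x) (Ω.indicator (gradient Ψ) x) : ℝ)
      = ∫ x in Ω, (inner ℝ (f x) (gradient Ψ x) : ℝ) := by
    intro f
    rw [← integral_indicator hΩ]
    congr 1; ext x
    by_cases hx : x ∈ Ω <;> simp [hx]
  have e2 : ∀ f : ℂ → ℝ, ∫ x, (inner ℝ (f x) (Ω.indicator (Δ Ψ) x) : ℝ)
      = ∫ x in Ω, f x * Δ Ψ x := by
    intro f
    rw [← integral_indicator hΩ]
    congr 1; ext x
    by_cases hx : x ∈ Ω <;> simp [hx, mul_comm]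
  simp_rw [e1] at l1
  simp_rw [e2] at l2
  have e3 : ∀ n, ∫ x in Ω, (inner ℝ (gradient (φ n) x) (gradient Ψ x) : ℝ)
      = - ∫ x in Ω, φ n x * Δ Ψ x := by
    intro n
    have hz : ∀ x ∉ Ω, φ n x = 0 := fun x hx => by
      by_contra h; exact hx ((hφ n).2.2 (subset_tsupport _ h))
    have hz2 : ∀ x ∉ Ω, gradient (φ n) x = 0 := fun x hx => by
      have : x ∉ tsupport (φ n) := fun h => hx ((hφ n).2.2 h)
      have h3 : φ n =ᶠ[𝓝 x] fun _ => 0 := notMem_tsupport_iff_eventuallyEq.mp this
      unfold gradient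
      rw [h3.fderiv_eq]; simp
    rw [setIntegral_eq_integral_of_forall_compl_eq_zero (fun x hx => by rw [hz2 x hx, inner_zero_left]),
      setIntegral_eq_integral_of_forall_compl_eq_zero (fun x hx => by rw [hz x hx, zero_mul])]
    exact green_test (hφ n) hΨ
  simp_rw [e3] at l1
  exact tendsto_nhds_unique l1 l2.neg

/-- dominated convergence in `L²` -/
lemma tendsto_eLpNorm_two {F : Type*} [NormedAddCommGroup F] {g : ℕ → ℂ → F} {B : ℂ → ℝ}
    (hg : ∀ n, AEStronglyMeasurable (g n) volume) (hB : MemLp B 2 volume)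
    (hdom : ∀ n, ∀ᵐ x, ‖g n x‖ ≤ B x)
    (hlim : ∀ᵐ x, Tendsto (fun n => g n x) atTop (𝓝 0)) :
    Tendsto (fun n => eLpNorm (g n) 2 volume) atTop (𝓝 0) := by
  have e : ∀ n, eLpNorm (g n) 2 volume = (∫⁻ x, ‖g n x‖ₑ ^ (2 : ℝ)) ^ (1 / 2 : ℝ) := by
    intro n
    rw [eLpNorm_eq_lintegral_rpow_enorm_toReal (by norm_num) (by norm_num)]
    simp
  simp_rw [e]
  have h0 : (0 : ℝ≥0∞) = (0 : ℝ≥0∞) ^ (1 / 2 : ℝ) := by
    rw [ENNReal.zero_rpow_of_pos (by norm_num)]
  rw [h0]
  apply (ENNReal.continuous_rpow_const.tendsto _).comp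
  have h1 : Tendsto (fun n => ∫⁻ x, ‖g n x‖ₑ ^ (2 : ℝ)) atTop (𝓝 (∫⁻ _ : ℂ, (0 : ℝ≥0∞))) := by
    refine tendsto_lintegral_of_dominated_convergence' (fun x => ‖B x‖ₑ ^ (2 : ℝ)) ?_ ?_ ?_ ?_
    · intro n
      exact (hg n).enorm.pow_const _
    · intro n
      filter_upwards [hdom n] with x hx
      gcongr
      rw [enorm_le_iff_norm_le]
      exact hx.trans (le_abs_self _)
    · have h2 := hB.2
      rw [eLpNorm_eq_lintegral_rpow_enorm_toReal (by norm_num) (by norm_num)] at h2
      intro h3
      simp only [ENNReal.toReal_ofNat] at h2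
      rw [h3] at h2
      simp at h2
    · filter_upwards [hlim] with x hx
      have h2 : Tendsto (fun n => ‖g n x‖ₑ) atTop (𝓝 0) := by
        have := (continuous_enorm.tendsto (0 : F)).comp hx
        simpa [Function.comp_def] using this
      have h3 : (0 : ℝ≥0∞) = (0 : ℝ≥0∞) ^ (2 : ℝ) := by
        rw [ENNReal.zero_rpow_of_pos (by norm_num)]
      rw [h3]
      exact (ENNReal.continuous_rpow_const.tendsto _).comp h2
  simpa using h1

/-- cut-off functions of the unit disk -/
noncomputable def cut (n : ℕ) (z : ℂ) : ℝ :=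
  Real.smoothTransition (n * (1 - (z.re ^ 2 + z.im ^ 2)) - 1)

lemma nq (z : ℂ) : z.re ^ 2 + z.im ^ 2 = ‖z‖ ^ 2 := by
  rw [← Complex.normSq_eq_norm_sq, Complex.normSq_apply]; ring

lemma exists_deriv_bound : ∃ D : ℝ, 0 ≤ D ∧ (∀ x, |deriv Real.smoothTransition x| ≤ D) ∧
    (∀ x, x < 0 → deriv Real.smoothTransition x = 0) ∧
    (∀ x, 1 < x → deriv Real.smoothTransition x = 0) := by
  have hc : Continuous (deriv Real.smoothTransition) :=
    (Real.smoothTransition.contDiff (n := 1)).continuous_deriv (by norm_num)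
  have h1 : ∀ x, x < 0 → deriv Real.smoothTransition x = 0 := by
    intro x hx
    have : Real.smoothTransition =ᶠ[𝓝 x] fun _ => 0 := by
      filter_upwards [Iio_mem_nhds hx] with y hy
      exact Real.smoothTransition.zero_of_nonpos (le_of_lt hy)
    rw [this.deriv_eq]; simp
  have h2 : ∀ x, 1 < x → deriv Real.smoothTransition x = 0 := by
    intro x hx
    have : Real.smoothTransition =ᶠ[𝓝 x] fun _ => 1 := by
      filter_upwards [Ioi_mem_nhds hx] with y hy
      exact Real.smoothTransition.one_of_one_le (le_of_lt hy)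
    rw [this.deriv_eq]; simp
  obtain ⟨D, hD⟩ := (isCompact_Icc (a := (0 : ℝ)) (b := 1)).exists_bound_of_continuousOn hc.continuousOn
  have hD0 : 0 ≤ D := (norm_nonneg _).trans (hD 0 (by simp))
  refine ⟨D, hD0, fun x => ?_, h1, h2⟩
  rcases lt_or_ge x 0 with h | h
  · rw [h1 x h]; simpa using hD0
  · rcases lt_or_ge 1 x with h' | h'
    · rw [h2 x h']; simpa using hD0
    · exact hD x ⟨h, h'⟩

lemma contDiff_cut (n : ℕ) : ContDiff ℝ ∞ (cut n) := by
  unfold cut
  have h1 : ContDiff ℝ ∞ (fun z : ℂ => z.re) := Complex.reCLM.contDiff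
  have h2 : ContDiff ℝ ∞ (fun z : ℂ => z.im) := Complex.imCLM.contDiff
  apply Real.smoothTransition.contDiff.comp
  fun_prop

lemma gradient_mul_cut {f : ℂ → ℝ} (hf : Differentiable ℝ f) (n : ℕ) (z : ℂ) :
    gradient (fun z => cut n z * f z) z = cut n z • gradient f z + f z •
      ((2 * (deriv Real.smoothTransition (n * (1 - (z.re ^ 2 + z.im ^ 2)) - 1) * (-n))) • z) := by
  have hP : ∀ t : ℝ, HasDerivAt (fun t : ℝ => Real.smoothTransition (n * (1 - t) - 1))
      (deriv Real.smoothTransition (n * (1 - t) - 1) * (-n)) t := by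
    intro t
    have h1 : HasDerivAt (fun t : ℝ => (n : ℝ) * (1 - t) - 1) (-n) t := by
      have := (((hasDerivAt_id t).const_sub 1).const_mul (n : ℝ)).sub_const 1
      simpa using this
    have h2 : DifferentiableAt ℝ Real.smoothTransition (n * (1 - t) - 1) :=
      (Real.smoothTransition.contDiff (n := 1)).differentiable (by norm_num) _
    exact h2.hasDerivAt.comp t h1
  have h1 := (radial_gradient hP z).hasFDerivAt
  have h2 := (hf z).hasGradientAt.hasFDerivAt
  have h3 : HasGradientAt (fun z => cut n z * f z) (cut n z • gradient f z + f z •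
      ((2 * (deriv Real.smoothTransition (n * (1 - (z.re ^ 2 + z.im ^ 2)) - 1) * (-n))) • z)) z := by
    rw [hasGradientAt_iff_hasFDerivAt]
    have h4 := h1.mul h2
    refine h4.congr_fderiv ?_
    apply ContinuousLinearMap.ext
    intro v
    simp only [add_apply, smul_apply, InnerProductSpace.toDual_apply_apply,
      inner_add_left, real_inner_smul_left, smul_eq_mul, cut]
  exact h3.gradient

/-- a smooth function vanishing on the unit circle is in `H¹₀` of the unit disk -/
lemma HH.of_smooth {f : ℂ → ℝ} (hf : ContDiff ℝ ∞ f) (h0 : ∀ z, ‖z‖ = 1 → f z = 0) :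
    HH (ball 0 1) ((ball (0 : ℂ) 1).indicator f) ((ball (0 : ℂ) 1).indicator (gradient f)) := by
  have hf1 : ContDiff ℝ 1 f := hf.of_le (WithTop.coe_le_coe.mpr le_top)
  have hfc : Continuous f := hf.continuous
  have hgc : Continuous (gradient f) := continuous_gradient hf1
  -- bounds
  obtain ⟨C, hC⟩ := (isCompact_closedBall (0 : ℂ) 1).exists_bound_of_continuousOn hgc.continuousOn
  have hC0 : 0 ≤ C := (norm_nonneg _).trans (hC 0 (by simp))
  have hfb : ∀ z ∈ closedBall (0 : ℂ) 1, |f z| ≤ C * (1 - (z.re ^ 2 + z.im ^ 2)) := by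
    intro z hz
    have hz1 : ‖z‖ ≤ 1 := mem_closedBall_zero_iff.mp hz
    obtain ⟨e, he1, he2⟩ : ∃ e : ℂ, ‖e‖ = 1 ∧ ‖z - e‖ = 1 - ‖z‖ := by
      rcases eq_or_ne z 0 with rfl | hne
      · exact ⟨1, by simp, by simp⟩
      · have hp : 0 < ‖z‖ := norm_pos_iff.mpr hne
        refine ⟨(1 / ‖z‖) • z, ?_, ?_⟩
        · rw [norm_smul, Real.norm_eq_abs, abs_of_pos (by positivity)]
          field_simp
        · have : z - (1 / ‖z‖) • z = (1 - 1 / ‖z‖) • z := by rw [sub_smul, one_smul]
          rw [this, norm_smul, Real.norm_eq_abs, abs_of_nonpos (by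
            rw [sub_nonpos, le_div_iff₀ hp]; linarith)]
          field_simp
          ring
    have hmvt := (convex_closedBall (0 : ℂ) 1).norm_image_sub_le_of_norm_fderiv_le (𝕜 := ℝ)
      (f := f) (C := C) (x := e) (y := z) (fun x _ => hf1.differentiable (by norm_num) x)
      (fun x hx => by
        have := hC x hx
        rwa [show ‖gradient f x‖ = ‖fderiv ℝ f x‖ by unfold gradient; simp] at this)
      (mem_closedBall_zero_iff.mpr he1.le) hz
    rw [h0 e he1, sub_zero, he2, Real.norm_eq_abs] at hmvt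
    refine hmvt.trans (mul_le_mul_of_nonneg_left ?_ hC0)
    rw [nq]
    nlinarith [norm_nonneg z]
  obtain ⟨D, hD0, hD, hD1, hD2⟩ := exists_deriv_bound
  have hqle : ∀ z ∈ ball (0 : ℂ) 1, z.re ^ 2 + z.im ^ 2 < 1 := by
    intro z hz
    rw [nq]
    have := mem_ball_zero_iff.mp hz
    nlinarith [norm_nonneg z]
  have hsub : ∀ n : ℕ, tsupport (fun z => cut n z * f z) ⊆ ball (0 : ℂ) 1 := by
    intro n
    have hcl : IsClosed {z : ℂ | 1 ≤ (n : ℝ) * (1 - (z.re ^ 2 + z.im ^ 2))} := by
      apply isClosed_le continuous_const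
      have h1 := Complex.continuous_re
      have h2 := Complex.continuous_im
      fun_prop
    have h1 : tsupport (fun z => cut n z * f z)
        ⊆ {z : ℂ | 1 ≤ (n : ℝ) * (1 - (z.re ^ 2 + z.im ^ 2))} := by
      apply closure_minimal _ hcl
      intro z hz
      by_contra hcon
      simp only [mem_ofPred_eq, not_le] at hcon
      apply hz
      simp only [cut]
      rw [Real.smoothTransition.zero_of_nonpos (by linarith), zero_mul]
    refine h1.trans ?_
    intro z hz
    simp only [mem_ofPred_eq] at hz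
    rw [mem_ball_zero_iff]
    have h2 : 0 < 1 - (z.re ^ 2 + z.im ^ 2) := by
      by_contra h
      push Not at h
      have := mul_nonpos_of_nonneg_of_nonpos (Nat.cast_nonneg (α := ℝ) n) h
      linarith
    rw [nq] at h2
    nlinarith [norm_nonneg z]
  have hcs : ∀ n : ℕ, HasCompactSupport (fun z => cut n z * f z) := by
    intro n
    refine HasCompactSupport.of_support_subset_isCompact (isCompact_closedBall (0 : ℂ) 1) ?_
    exact ((subset_tsupport _).trans (hsub n)).trans ball_subset_closedBall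
  have hout : ∀ (n : ℕ) (z : ℂ), z ∉ ball (0 : ℂ) 1 → cut n z * f z = 0 := by
    intro n z hz
    by_contra h
    exact hz (hsub n (subset_tsupport _ h))
  have hout2 : ∀ (n : ℕ) (z : ℂ), z ∉ ball (0 : ℂ) 1 → gradient (fun z => cut n z * f z) z = 0 := by
    intro n z hz
    have : z ∉ tsupport (fun z => cut n z * f z) := fun h => hz (hsub n h)
    have h3 := notMem_tsupport_iff_eventuallyEq.mp this
    unfold gradient
    rw [h3.fderiv_eq]; simp
  have hgr := gradient_mul_cut (hf1.differentiable (by norm_num))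
  have hTest : ∀ n, Test (ball 0 1) (fun z => cut n z * f z) := fun n =>
    ⟨(contDiff_cut n).mul hf, hcs n, hsub n⟩
  have hev : ∀ z ∈ ball (0 : ℂ) 1, ∀ᶠ n : ℕ in atTop,
      1 < (n : ℝ) * (1 - (z.re ^ 2 + z.im ^ 2)) - 1 := by
    intro z hz
    have h1 := hqle z hz
    have h2 : Tendsto (fun n : ℕ => (n : ℝ) * (1 - (z.re ^ 2 + z.im ^ 2)) - 1) atTop atTop := by
      apply tendsto_atTop_add_const_right
      exact tendsto_natCast_atTop_atTop.atTop_mul_const (by linarith)
    exact h2.eventually_gt_atTop 1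
  have hmem1 := memLp_indicator (Ω := ball (0 : ℂ) 1) measurableSet_ball isBounded_ball hfc 2
  have hmem2 := memLp_indicator (Ω := ball (0 : ℂ) 1) measurableSet_ball isBounded_ball hgc 2
  refine ⟨hmem1, hmem2, fun n z => cut n z * f z, hTest, ?_, ?_⟩
  · refine tendsto_eLpNorm_two (B := (ball (0 : ℂ) 1).indicator fun z => 2 * |f z|) ?_ ?_ ?_ ?_
    · exact fun n => (((hTest n).memLp 2).sub hmem1).1
    · exact memLp_indicator measurableSet_ball isBounded_ball (by fun_prop) 2
    · intro n
      refine Eventually.of_forall fun z => ?_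
      by_cases hz : z ∈ ball (0 : ℂ) 1
      · simp only [indicator_of_mem hz]
        have h1 := Real.smoothTransition.nonneg (n * (1 - (z.re ^ 2 + z.im ^ 2)) - 1)
        have h2 := Real.smoothTransition.le_one (n * (1 - (z.re ^ 2 + z.im ^ 2)) - 1)
        have : cut n z * f z - f z = (cut n z - 1) * f z := by ring
        rw [this, norm_mul, Real.norm_eq_abs, Real.norm_eq_abs]
        apply mul_le_mul_of_nonneg_right _ (abs_nonneg _)
        unfold cut
        rw [abs_le]; constructor <;> linarith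
      · simp only [indicator_of_notMem hz, hout n z hz]
        simp
    · refine Eventually.of_forall fun z => ?_
      by_cases hz : z ∈ ball (0 : ℂ) 1
      · simp only [indicator_of_mem hz]
        refine tendsto_const_nhds.congr' ?_
        filter_upwards [hev z hz] with n hn
        unfold cut
        rw [Real.smoothTransition.one_of_one_le hn.le]
        ring
      · simp only [indicator_of_notMem hz, hout _ z hz]
        simp
  · refine tendsto_eLpNorm_two (B := (ball (0 : ℂ) 1).indicator fun _ => 2 * C + 4 * C * D) ?_ ?_ ?_ ?_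
    · exact fun n => (((hTest n).memLp_grad 2).sub hmem2).1
    · exact memLp_indicator measurableSet_ball isBounded_ball continuous_const 2
    · intro n
      refine Eventually.of_forall fun z => ?_
      by_cases hz : z ∈ ball (0 : ℂ) 1
      · simp only [indicator_of_mem hz]
        rw [hgr]
        have h1 := Real.smoothTransition.nonneg (n * (1 - (z.re ^ 2 + z.im ^ 2)) - 1)
        have h2 := Real.smoothTransition.le_one (n * (1 - (z.re ^ 2 + z.im ^ 2)) - 1)
        set s := 1 - (z.re ^ 2 + z.im ^ 2) with hs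
        have hs0 : 0 < s := by have := hqle z hz; linarith
        have hzc := ball_subset_closedBall hz
        have hz1 : ‖z‖ ≤ 1 := mem_closedBall_zero_iff.mp hzc
        have e : cut n z • gradient f z + f z • ((2 * (deriv Real.smoothTransition
            (n * s - 1) * (-n))) • z) - gradient f z
            = (cut n z - 1) • gradient f z + (f z * (2 * (deriv Real.smoothTransition
            (n * s - 1) * (-n)))) • z := by
          rw [sub_smul, one_smul, smul_smul]; abel
        rw [e]
        refine (norm_add_le _ _).trans ?_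
        have a1 : ‖(cut n z - 1) • gradient f z‖ ≤ 2 * C := by
          rw [norm_smul, Real.norm_eq_abs]
          have : |cut n z - 1| ≤ 2 := by
            unfold cut
            rw [abs_le]; constructor <;> linarith
          exact mul_le_mul this (hC z hzc) (norm_nonneg _) (by norm_num)
        have a2 : ‖(f z * (2 * (deriv Real.smoothTransition (n * s - 1) * (-n)))) • z‖
            ≤ 4 * C * D := by
          rw [norm_smul, Real.norm_eq_abs, abs_mul, abs_mul, abs_mul, abs_neg, Nat.abs_cast]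
          rcases lt_or_ge 1 (n * s - 1) with h3 | h3
          · rw [hD2 _ h3]; simp; positivity
          · have h4 : (n : ℝ) * s ≤ 2 := by linarith
            have h5 := hfb z hzc
            rw [← hs] at h5
            have h6 : |f z| * n ≤ 2 * C := by
              calc |f z| * n ≤ C * s * n := mul_le_mul_of_nonneg_right h5 (Nat.cast_nonneg _)
                _ = C * (n * s) := by ring
                _ ≤ C * 2 := mul_le_mul_of_nonneg_left h4 hC0
                _ = 2 * C := by ring
            calc |f z| * (|2| * (|deriv Real.smoothTransition (n * s - 1)| * n)) * ‖z‖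
                = (|f z| * n) * (2 * |deriv Real.smoothTransition (n * s - 1)|) * ‖z‖ := by
                  rw [abs_two]; ring
              _ ≤ (2 * C) * (2 * D) * 1 := by
                  apply mul_le_mul _ hz1 (norm_nonneg _) (by positivity)
                  apply mul_le_mul h6 _ (by positivity) (by positivity)
                  exact mul_le_mul_of_nonneg_left (hD _) (by norm_num)
              _ = 4 * C * D := by ring
        linarith
      · simp only [indicator_of_notMem hz, hout2 n z hz]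
        simp
    · refine Eventually.of_forall fun z => ?_
      by_cases hz : z ∈ ball (0 : ℂ) 1
      · simp only [indicator_of_mem hz]
        refine tendsto_const_nhds.congr' ?_
        filter_upwards [hev z hz] with n hn
        rw [hgr, hD2 _ hn]
        unfold cut
        rw [Real.smoothTransition.one_of_one_le hn.le]
        simp
      · simp only [indicator_of_notMem hz, hout2 _ z hz]
        simp

end Pool.Agent.X102.HC
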