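import Mathlib
import Pool.Agent.X102.HC

set_option autoImplicit false

open MeasureTheory Filter Topology Set Metric InnerProductSpace Laplacian
open scoped ENNReal NNReal ContDiff

namespace Pool.Agent.X102.HC

/-- `u ∈ H¹₀(Ω) ∩ L^∞(Ω)` (extended by zero), with gradient `G`, is a weak solution of
`-Δu = lam c u + μ |∇u|² + h` in `Ω`. -/
def SolG (Ω : Set ℂ) (c μ h : ℂ → ℝ) (lam : ℝ) (u : ℂ → ℝ) (G : ℂ → ℂ) : Prop :=
  HH Ω u G ∧ (∃ M, ∀ᵐ z, |u z| ≤ M) ∧
    ∀ (v : ℂ → ℝ) (K : ℂ → ℂ), HH Ω v K → (∃ M, ∀ᵐ z, |v z| ≤ M) →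
      ∫ z in Ω, (inner ℝ (G z) (K z) : ℝ) = lam * (∫ z in Ω, c z * u z * v z)
        + (∫ z in Ω, μ z * ‖G z‖ ^ 2 * v z) + ∫ z in Ω, h z * v z

/-- `u ∈ H¹₀(Ω) ∩ L^∞(Ω)` (extended by zero) is a weak solution of
`-Δu = lam c u + μ |∇u|² + h` in `Ω`. -/
def Sol (Ω : Set ℂ) (c μ h : ℂ → ℝ) (lam : ℝ) (u : ℂ → ℝ) : Prop :=
  ∃ G : ℂ → ℂ, SolG Ω c μ h lam u G

lemma continuous_laplacian {f : ℂ → ℝ} (hf : ContDiff ℝ 2 f) : Continuous (Δ f) := by
  have : Δ f = fun x => ∑ i, fderiv ℝ (fun y => fderiv ℝ f y (stdOrthonormalBasis ℝ ℂ i)) x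
      (stdOrthonormalBasis ℝ ℂ i) := by
    ext x; exact H314.CS.LL.laplacian_eq_sum_fderiv hf x
  rw [this]
  refine continuous_finsetSum _ fun i _ => ?_
  exact ((H314.CS.LL.contDiff_dir hf _).continuous_fderiv (by norm_num)).clm_apply continuous_const

lemma integrable_cont_mul {g v : ℂ → ℝ} (hg : ContinuousOn g (closedBall 0 1))
    (hv : MemLp v 2 volume) : IntegrableOn (fun z => g z * v z) (ball 0 1) volume := by
  have hfin : IsFiniteMeasure (volume.restrict (ball (0 : ℂ) 1)) := ⟨by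
    rw [Measure.restrict_apply_univ]; exact isBounded_ball.measure_lt_top⟩
  have h1 : Integrable v (volume.restrict (ball (0 : ℂ) 1)) :=
    (hv.restrict _).integrable (by norm_num)
  obtain ⟨C, hC⟩ := (isCompact_closedBall (0 : ℂ) 1).exists_bound_of_continuousOn hg
  refine h1.bdd_mul (c := C) ?_ ?_
  · exact (hg.mono ball_subset_closedBall).aestronglyMeasurable measurableSet_ball
  · filter_upwards [ae_restrict_mem measurableSet_ball] with z hz
    exact hC z (ball_subset_closedBall hz)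

lemma integrable_cont_mul' {g v : ℂ → ℝ} (hg : ContinuousOn g (closedBall 0 1))
    (h1 : IntegrableOn v (ball 0 1) volume) :
    IntegrableOn (fun z => g z * v z) (ball 0 1) volume := by
  obtain ⟨C, hC⟩ := (isCompact_closedBall (0 : ℂ) 1).exists_bound_of_continuousOn hg
  refine Integrable.bdd_mul h1 (c := C) ?_ ?_
  · exact (hg.mono ball_subset_closedBall).aestronglyMeasurable measurableSet_ball
  · filter_upwards [ae_restrict_mem measurableSet_ball] with z hz
    exact hC z (ball_subset_closedBall hz)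

lemma bounded_indicator {f : ℂ → ℝ} (hf : Continuous f) :
    ∃ M, ∀ᵐ z : ℂ, |(ball (0 : ℂ) 1).indicator f z| ≤ M := by
  obtain ⟨C, hC⟩ := (isCompact_closedBall (0 : ℂ) 1).exists_bound_of_continuousOn
    hf.continuousOn
  have hC0 : 0 ≤ C := (norm_nonneg _).trans (hC 0 (by simp))
  refine ⟨C, Eventually.of_forall fun z => ?_⟩
  by_cases hz : z ∈ ball (0 : ℂ) 1
  · rw [indicator_of_mem hz]; exact hC z (ball_subset_closedBall hz)
  · rw [indicator_of_notMem hz]; simpa using hC0

lemma SolG.of_classical {c μ h f : ℂ → ℝ} {lam : ℝ} (hf : ContDiff ℝ ∞ f)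
    (h0 : ∀ z, ‖z‖ = 1 → f z = 0) (hc : ContinuousOn c (closedBall 0 1))
    (hμ : ContinuousOn μ (closedBall 0 1)) (hh : ContinuousOn h (closedBall 0 1))
    (heq : ∀ z ∈ ball (0 : ℂ) 1, - Δ f z = lam * c z * f z + μ z * ‖gradient f z‖ ^ 2 + h z) :
    SolG (ball 0 1) c μ h lam ((ball (0 : ℂ) 1).indicator f)
      ((ball (0 : ℂ) 1).indicator (gradient f)) := by
  have hf1 : ContDiff ℝ 1 f := hf.of_le (WithTop.coe_le_coe.mpr le_top)
  have hf2 : ContDiff ℝ 2 f := hf.of_le (WithTop.coe_le_coe.mpr le_top)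
  refine ⟨HH.of_smooth hf h0, ?_, ?_⟩
  · exact bounded_indicator hf.continuous
  · intro v K hvK _
    have h1 := hvK.green measurableSet_ball isBounded_ball hf2 (continuous_laplacian hf2)
    have e1 : ∫ z in ball (0 : ℂ) 1, (inner ℝ ((ball (0 : ℂ) 1).indicator (gradient f) z) (K z) : ℝ)
        = ∫ z in ball (0 : ℂ) 1, (inner ℝ (K z) (gradient f z) : ℝ) := by
      refine setIntegral_congr_fun measurableSet_ball fun z hz => ?_
      simp only [indicator_of_mem hz]
      rw [real_inner_comm]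
    rw [e1, h1]
    have i1 := integrable_cont_mul (g := fun z => lam * (c z * f z))
      ((continuousOn_const.mul (hc.mul hf.continuous.continuousOn))) hvK.1
    have i2 := integrable_cont_mul (g := fun z => μ z * ‖gradient f z‖ ^ 2)
      (hμ.mul ((continuous_gradient hf1).norm.pow 2).continuousOn) hvK.1
    have i3 := integrable_cont_mul hh hvK.1
    rw [← integral_const_mul, ← integral_neg]
    have e2 : ∫ z in ball (0 : ℂ) 1, lam * (c z * (ball (0 : ℂ) 1).indicator f z * v z)
        = ∫ z in ball (0 : ℂ) 1, lam * (c z * f z) * v z := by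
      refine setIntegral_congr_fun measurableSet_ball fun z hz => ?_
      simp only [indicator_of_mem hz]
      ring
    have e3 : ∫ z in ball (0 : ℂ) 1, μ z * ‖(ball (0 : ℂ) 1).indicator (gradient f) z‖ ^ 2 * v z
        = ∫ z in ball (0 : ℂ) 1, μ z * ‖gradient f z‖ ^ 2 * v z := by
      refine setIntegral_congr_fun measurableSet_ball fun z hz => ?_
      simp only [indicator_of_mem hz]
    have i12 : IntegrableOn (fun z => lam * (c z * f z) * v z + μ z * ‖gradient f z‖ ^ 2 * v z)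
      (ball 0 1) volume := i1.add i2
    rw [e2, e3, ← integral_add i1 i2, ← integral_add i12 i3]
    refine setIntegral_congr_fun measurableSet_ball fun z hz => ?_
    have := heq z hz
    have e4 : Δ f z = -(lam * c z * f z + μ z * ‖gradient f z‖ ^ 2 + h z) := by linarith
    rw [e4]
    ring

end Pool.Agent.X102.HC
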