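import Mathlib

set_option autoImplicit false

open Filter Topology Set MeasureTheory

namespace Pool.Agent.X102.Curve

/-- piecewise `C¹` curves `[0,1] → ℂ = ℝ²`. -/
def PwC1 (γ : ℝ → ℂ) : Prop :=
  ∃ (n : ℕ) (t : ℕ → ℝ), t 0 = 0 ∧ t n = 1 ∧ Monotone t ∧
    ContinuousOn γ (Icc 0 1) ∧ ∀ i < n, ContDiffOn ℝ 1 γ (Icc (t i) (t (i + 1)))

/-- length of a curve in the conformal metric `e^{2u}δ` -/
noncomputable def glen (u : ℂ → ℝ) (γ : ℝ → ℂ) : ℝ :=
  ∫ t in (0 : ℝ)..1, Real.exp (u (γ t)) * ‖deriv γ t‖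

/-- distance in the conformal metric `e^{2u}δ` -/
noncomputable def gdist (u : ℂ → ℝ) (x y : ℂ) : ℝ :=
  sInf {L : ℝ | ∃ γ : ℝ → ℂ, PwC1 γ ∧ γ 0 = x ∧ γ 1 = y ∧ L = glen u γ}

lemma PwC1.line (x y : ℂ) : PwC1 (fun t : ℝ => x + (t : ℂ) * (y - x)) := by
  have h : ContDiff ℝ 1 (fun t : ℝ => x + (t : ℂ) * (y - x)) := by
    have : ContDiff ℝ 1 (fun t : ℝ => (t : ℂ)) := Complex.ofRealCLM.contDiff
    fun_prop
  refine ⟨1, fun i => (i : ℝ), by simp, by simp, Nat.mono_cast, h.continuous.continuousOn, ?_⟩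
  intro i _
  exact h.contDiffOn

lemma nonempty_lengths (u : ℂ → ℝ) (x y : ℂ) :
    {L : ℝ | ∃ γ : ℝ → ℂ, PwC1 γ ∧ γ 0 = x ∧ γ 1 = y ∧ L = glen u γ}.Nonempty :=
  ⟨_, _, PwC1.line x y, by simp, by simp, rfl⟩

lemma le_gdist {u : ℂ → ℝ} {x y : ℂ} {c : ℝ}
    (h : ∀ γ, PwC1 γ → γ 0 = x → γ 1 = y → c ≤ glen u γ) : c ≤ gdist u x y := by
  apply le_csInf (nonempty_lengths u x y)
  rintro L ⟨γ, h1, h2, h3, rfl⟩
  exact h γ h1 h2 h3

/-- finite exceptional set and integrability -/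
lemma PwC1.good {γ : ℝ → ℂ} (h : PwC1 γ) :
    ∃ s : Set ℝ, s.Countable ∧ (∀ x ∈ Ioo (0 : ℝ) 1 \ s, HasDerivAt γ (deriv γ x) x) ∧
      IntervalIntegrable (deriv γ) volume 0 1 := by
  obtain ⟨n, t, h0, h1, hmono, hc, hd⟩ := h
  refine ⟨t '' (Iic n), (Set.finite_Iic n).image t |>.countable, ?_, ?_⟩
  · rintro x ⟨hx, hxs⟩
    -- find the piece
    have hex : ∃ i, x < t i := ⟨n, by rw [h1]; exact hx.2⟩
    classical
    set j := Nat.find hex with hj
    have hj1 : x < t j := Nat.find_spec hex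
    have hj0 : j ≠ 0 := by
      intro h
      rw [h, h0] at hj1
      linarith [hx.1]
    obtain ⟨i, hi⟩ := Nat.exists_eq_succ_of_ne_zero hj0
    have hi1 : ¬ x < t i := Nat.find_min hex (by omega)
    have hjn : j ≤ n := Nat.find_min' hex (by rw [h1]; exact hx.2)
    have hne : t i ≠ x := fun h => hxs ⟨i, by simp only [mem_Iic]; omega, h⟩
    have hlt : t i < x := lt_of_le_of_ne (not_lt.mp hi1) hne
    have hxi : x ∈ Ioo (t i) (t (i + 1)) := ⟨hlt, by rw [hi] at hj1; exact hj1⟩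
    have hdi := (hd i (by omega)).differentiableOn (by norm_num)
    exact (hdi.differentiableAt (Icc_mem_nhds hxi.1 hxi.2)).hasDerivAt
  · have hpiece : ∀ i < n, IntervalIntegrable (deriv γ) volume (t i) (t (i + 1)) := by
      intro i hi
      have hle : t i ≤ t (i + 1) := hmono (Nat.le_succ i)
      rcases hle.eq_or_lt with heq | hlt
      · rw [heq]
      · have hcd := (hd i hi).continuousOn_derivWithin (uniqueDiffOn_Icc hlt) (by norm_num)
        have h3 : IntervalIntegrable (derivWithin γ (Icc (t i) (t (i + 1)))) volume (t i) (t (i + 1)) := by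
          apply ContinuousOn.intervalIntegrable
          rw [uIcc_of_le hle]
          exact hcd
        refine h3.congr_ae ?_
        rw [uIoc_of_le hle, ← restrict_Ioo_eq_restrict_Ioc]
        rw [EventuallyEq, ae_restrict_iff' measurableSet_Ioo]
        refine Eventually.of_forall fun x hx => ?_
        exact derivWithin_of_mem_nhds (Icc_mem_nhds hx.1 hx.2)
    have := IntervalIntegrable.trans_iterate (n := n) (a := t) hpiece
    rwa [h0, h1] at this

lemma PwC1.int {γ : ℝ → ℂ} (h : PwC1 γ) {u : ℂ → ℝ} (hu : Continuous u) :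
    IntervalIntegrable (fun t => Real.exp (u (γ t)) * ‖deriv γ t‖) volume 0 1 := by
  obtain ⟨s, hs, hd, hi⟩ := h.good
  obtain ⟨n, t, h0, h1, hmono, hc, -⟩ := h
  have h2 : ContinuousOn (fun t => Real.exp (u (γ t))) (uIcc 0 1) := by
    rw [uIcc_of_le zero_le_one]
    exact (Real.continuous_exp.comp hu).comp_continuousOn hc
  exact IntervalIntegrable.continuousOn_mul hi.norm h2

lemma PwC1.cont {γ : ℝ → ℂ} (h : PwC1 γ) : ContinuousOn γ (Icc 0 1) := by
  obtain ⟨n, t, h0, h1, hmono, hc, -⟩ := h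
  exact hc

/-- Lower bound of the length by the variation of a function. -/
lemma lower {γ : ℝ → ℂ} (h : PwC1 γ) {u : ℂ → ℝ} (hu : Continuous u) {a b : ℝ}
    (ha : 0 ≤ a) (hab : a ≤ b) (hb : b ≤ 1) {U : Set ℂ} {ρ : ℂ → ℝ} {ρ' : ℂ → ℂ →L[ℝ] ℝ}
    (hγ : ∀ t ∈ Icc a b, γ t ∈ U) (hρ : ∀ z ∈ U, HasFDerivAt ρ (ρ' z) z)
    (hρc : ContinuousOn ρ' U) {C : ℝ}
    (hC : ∀ z ∈ U, ∀ v : ℂ, |ρ' z v| ≤ C * (Real.exp (u z) * ‖v‖)) :
    |ρ (γ b) - ρ (γ a)| ≤ C * ∫ t in a..b, Real.exp (u (γ t)) * ‖deriv γ t‖ := by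
  obtain ⟨s, hs, hd, hi⟩ := h.good
  have hsub : uIcc a b ⊆ uIcc (0 : ℝ) 1 := by
    rw [uIcc_of_le hab, uIcc_of_le zero_le_one]
    exact Icc_subset_Icc ha hb
  have hsub' : Icc a b ⊆ Icc (0 : ℝ) 1 := Icc_subset_Icc ha hb
  have hcγ : ContinuousOn γ (Icc a b) := h.cont.mono hsub'
  have hi' : IntervalIntegrable (deriv γ) volume a b := hi.mono_set hsub
  have hint : IntervalIntegrable (fun t => Real.exp (u (γ t)) * ‖deriv γ t‖) volume a b :=
    (h.int hu).mono_set hsub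
  have hI2 : IntervalIntegrable (fun t => ρ' (γ t) (deriv γ t)) volume a b := by
    have h3 : ContinuousOn (fun t => ρ' (γ t)) (Icc a b) := hρc.comp hcγ hγ
    -- domination
    refine (hint.const_mul C).mono_fun ?_ ?_
    · have h4 : AEStronglyMeasurable (fun t => ρ' (γ t)) (volume.restrict (uIoc a b)) := by
        rw [uIoc_of_le hab]
        exact (h3.mono Ioc_subset_Icc_self).aestronglyMeasurable measurableSet_Ioc
      have h5 : AEStronglyMeasurable (deriv γ) (volume.restrict (uIoc a b)) := by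
        have := hi'.def'
        exact this.aestronglyMeasurable
      exact (ContinuousLinearMap.apply ℝ ℝ).aestronglyMeasurable_comp₂ h5 h4
    · rw [uIoc_of_le hab]
      rw [EventuallyLE, ae_restrict_iff' measurableSet_Ioc]
      refine Eventually.of_forall fun t ht => ?_
      rw [Real.norm_eq_abs, Real.norm_eq_abs]
      exact (hC _ (hγ t (Ioc_subset_Icc_self ht)) _).trans (le_abs_self _)
  have hFTC : ∫ t in a..b, ρ' (γ t) (deriv γ t) = ρ (γ b) - ρ (γ a) := by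
    apply integral_eq_of_hasDerivAt_off_countable (fun t => ρ (γ t)) _ hs
    · rw [uIcc_of_le hab]
      intro t ht
      have h6 := (hρ _ (hγ t ht)).continuousAt
      exact h6.comp_continuousWithinAt (hcγ t ht)
    · rintro t ⟨ht, hts⟩
      rw [min_eq_left hab, max_eq_right hab] at ht
      have h7 := hd t ⟨⟨lt_of_le_of_lt ha ht.1, lt_of_lt_of_le ht.2 hb⟩, hts⟩
      exact (hρ _ (hγ t (Ioo_subset_Icc_self ht))).comp_hasDerivAt t h7
    · exact hI2
  rw [← hFTC, ← intervalIntegral.integral_const_mul]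
  rw [← Real.norm_eq_abs]
  apply intervalIntegral.norm_integral_le_of_norm_le hab
  · refine Eventually.of_forall fun t ht => ?_
    rw [Real.norm_eq_abs]
    exact hC _ (hγ t (Ioc_subset_Icc_self ht)) _
  · exact hint.const_mul C

end Pool.Agent.X102.Curve
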