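import Pool.Agent.H983R4.GL.S1

/-!
Near-maximal values fill short windows: families with a conductor.
-/

set_option autoImplicit false
open MeasureTheory Filter Topology Set Real

namespace Pool.Agent.X102.GLP

open Pool.Agent.H983R4.LH Pool.Agent.H983R4.GL

/-- the points of the window of radius `h` around `T` at which `‖L i‖ ≤ X ^ κ`, `X = X i T` -/
def Sm {ι : Type*} (L : ι → ℂ → ℂ) (X : ι → ℝ → ℝ) (κ : ℝ) (i : ι) (T h : ℝ) : Set ℝ :=
  {x : ℝ | |x - T| ≤ h ∧ ‖L i (1 / 2 + x * Complex.I)‖ ≤ X i T ^ κ}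

/-- what is used about the family -/
structure FamP {ι : Type*} (L : ι → ℂ → ℂ) (X : ι → ℝ → ℝ) (p : ℝ) : Prop where
  p0 : 0 < p
  one : ∀ i t, 1 ≤ X i t
  ld : ∃ C m K : ℝ, 0 ≤ C ∧ 0 ≤ m ∧ 0 ≤ K ∧ ∀ i T, LD (L i) T (p * Real.log (X i T)) C m K
  shift : ∃ m : ℝ, 0 ≤ m ∧ ∀ i t u, X i (t + u) ≤ (1 + |u|) ^ m * X i t

variable {ι : Type*} {L : ι → ℂ → ℂ} {X : ι → ℝ → ℝ} {p : ℝ}

lemma FamP.fam (H : FamP L X p) : Fam L X where
  one := H.one
  ld := by
    obtain ⟨C, m, K, h⟩ := H.ld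
    exact ⟨p, C, m, K, H.p0, h⟩
  shift := H.shift

lemma FamP.cont (H : FamP L X p) (i : ι) :
    Continuous fun x : ℝ => ‖L i (1 / 2 + x * Complex.I)‖ := by
  obtain ⟨C, m, K, hC, hm, hK, hld⟩ := H.ld
  refine continuous_norm.comp ((hld i 0).hd.continuous.comp ?_)
  fun_prop

/-- a crude bound -/
lemma FamP.crude (H : FamP L X p) : ∃ C : ℝ, 0 ≤ C ∧ ∀ (i : ι) (T : ℝ),
    ‖L i (1 / 2 + T * Complex.I)‖ ≤ Real.exp C * X i T ^ p := by
  obtain ⟨C, m, K, hC, hm, hK, hld⟩ := H.ld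
  refine ⟨C, hC, fun i T => ?_⟩
  have hX1 := H.one i T
  have hXp : 0 < X i T := by linarith
  have h1 := (hld i T).g (1 / 2 + T * Complex.I) (by simp)
  have e1 : (1 / 2 + (T : ℂ) * Complex.I).im = T := by simp
  rw [e1, sub_self, abs_zero, add_zero, Real.log_one, mul_zero, add_zero] at h1
  have h2 : ‖L i (1 / 2 + T * Complex.I)‖ ≤ Real.exp (C + p * Real.log (X i T)) := by
    rcases eq_or_lt_of_le (norm_nonneg (L i (1 / 2 + T * Complex.I))) with h3 | h3
    · rw [← h3]; positivity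
    · rw [← Real.log_le_iff_le_exp h3]
      exact (le_max_right _ _).trans h1
  have h3 : Real.exp (C + p * Real.log (X i T)) = Real.exp C * X i T ^ p := by
    rw [Real.exp_add, Real.rpow_def_of_pos hXp]
    congr 2
    ring
  rwa [h3] at h2

lemma FamP.adm_p (H : FamP L X p) : AdmOn L X univ p := by
  obtain ⟨C, hC, h⟩ := H.crude
  intro ε hε
  refine ⟨Real.exp C, fun i t _ => (h i t).trans ?_⟩
  exact mul_le_mul_of_nonneg_left
    (Real.rpow_le_rpow_of_exponent_le (H.one i t) (by linarith)) (Real.exp_pos _).le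

/-- to prove admissibility it is enough to treat large conductors -/
lemma FamP.adm_of (H : FamP L X p) {θ' ε X₀ B : ℝ} (h0 : 0 ≤ θ' + ε)
    (h : ∀ i T, X₀ ≤ X i T → ‖L i (1 / 2 + T * Complex.I)‖ ≤ B * X i T ^ (θ' + ε)) :
    ∃ B' : ℝ, ∀ (i : ι) (t : ℝ), (i, t) ∈ (univ : Set (ι × ℝ)) →
      ‖L i (1 / 2 + t * Complex.I)‖ ≤ B' * X i t ^ (θ' + ε) := by
  obtain ⟨C, hC, hcr⟩ := H.crude
  set R := max 1 X₀ with hR
  have hR1 : 1 ≤ R := le_max_left _ _
  refine ⟨max |B| (Real.exp C * R ^ p), fun i T _ => ?_⟩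
  have hX1 := H.one i T
  have hXp : 0 < X i T := by linarith
  have hXe : 1 ≤ X i T ^ (θ' + ε) := Real.one_le_rpow hX1 h0
  by_cases hc : X i T ≤ R
  · have h4 : X i T ^ p ≤ R ^ p := Real.rpow_le_rpow hXp.le hc H.p0.le
    have h5 : Real.exp C * X i T ^ p ≤ Real.exp C * R ^ p :=
      mul_le_mul_of_nonneg_left h4 (Real.exp_pos _).le
    have h6 : Real.exp C * R ^ p ≤ max |B| (Real.exp C * R ^ p) := le_max_right _ _
    have h8 : 0 ≤ max |B| (Real.exp C * R ^ p) := (abs_nonneg _).trans (le_max_left _ _)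
    have h7 : max |B| (Real.exp C * R ^ p) ≤ max |B| (Real.exp C * R ^ p) * X i T ^ (θ' + ε) :=
      le_mul_of_one_le_right h8 hXe
    linarith [hcr i T]
  · push Not at hc
    refine (h i T ((le_max_right _ _).trans hc.le)).trans ?_
    refine mul_le_mul_of_nonneg_right ?_ (by positivity)
    exact (le_abs_self B).trans (le_max_left _ _)

/-- **the improvement at one point** -/
theorem FamP.improve (H : FamP L X p) {θ δ η : ℝ} (hθ : AdmOn L X univ θ) (hδ : 0 < δ)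
    (hδθ : δ ≤ θ) (hη : 0 < η) :
    ∃ X₀ : ℝ, 1 ≤ X₀ ∧ ∀ (i : ι) (T : ℝ), X₀ ≤ X i T → ∀ h : ℝ, 0 < h → h ≤ 1 / 2 →
      h ≤ η * δ / (10 * π * p) →
      ENNReal.ofReal (η * (2 * h)) ≤ volume (Sm L X (θ - δ) i T h) →
      ‖L i (1 / 2 + T * Complex.I)‖ ≤ X i T ^ (θ - η * δ / (20 * π)) := by
  have hpi := Real.pi_pos
  have hl2 : 0 < Real.log 2 := Real.log_pos (by norm_num)
  have hC0 := C0_nonneg
  have hp := H.p0
  set ε : ℝ := η * δ / (40 * π) with hε
  have hε0 : 0 < ε := by positivity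
  obtain ⟨B, hB⟩ := hθ ε hε0
  obtain ⟨C, m, K, hC, hm, hK, hld⟩ := H.ld
  obtain ⟨m2, hm2, hsh⟩ := H.shift
  set B₁ : ℝ := max 1 |B| with hB₁
  have hB1 : 1 ≤ B₁ := le_max_left _ _
  have hlB : 0 ≤ Real.log B₁ := Real.log_nonneg hB1
  set m' : ℝ := (θ + ε) * m2 with hm'
  have hθε : 0 ≤ θ + ε := by linarith
  have hm'0 : 0 ≤ m' := by rw [hm']; positivity
  set c₀ : ℝ := K + Real.log B₁ + m' * Real.log 2 + m' * C0 / (2 * π) with hc₀
  refine ⟨max (max 1 (Real.exp (m * Real.log 2 / p))) (Real.exp (c₀ / ε)),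
    (le_max_left _ _).trans (le_max_left _ _), fun i T hT h h0 h1 h2 hv => ?_⟩
  have hX1 := H.one i T
  have hX0 : 0 < X i T := by linarith
  set ℓ : ℝ := Real.log (X i T) with hℓ
  have hℓ2 : m * Real.log 2 ≤ p * ℓ := by
    have h3 : m * Real.log 2 / p ≤ ℓ := by
      rw [hℓ, Real.le_log_iff_exp_le hX0]
      exact ((le_max_right _ _).trans (le_max_left _ _)).trans hT
    rw [div_le_iff₀ hp] at h3
    linarith
  have hℓ0 : 0 ≤ ℓ := Real.log_nonneg hX1
  have hℓ3 : c₀ ≤ ε * ℓ := by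
    have h3 : c₀ / ε ≤ ℓ := by
      rw [hℓ, Real.le_log_iff_exp_le hX0]; exact (le_max_right _ _).trans hT
    rw [div_le_iff₀ hε0] at h3
    linarith
  set A : ℝ := Real.log B₁ + (θ + ε) * ℓ with hA
  have hline : ∀ x : ℝ, log⁺ ‖L i (1 / 2 + (x : ℂ) * Complex.I)‖ ≤
      A + m' * Real.log (1 + |x - T|) := by
    intro x
    have hx0 : 0 ≤ |x - T| := abs_nonneg _
    have h3 := hB i x (mem_univ _)
    have hXx := H.one i x
    have h4 : ‖L i (1 / 2 + (x : ℂ) * Complex.I)‖ ≤ B₁ * X i x ^ (θ + ε) := by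
      refine h3.trans (mul_le_mul_of_nonneg_right ?_ (by positivity))
      exact (le_abs_self B).trans (le_max_right _ _)
    have h5 := posLog_le_posLog (norm_nonneg _) h4
    have h6 : log⁺ (B₁ * X i x ^ (θ + ε)) = Real.log B₁ + (θ + ε) * Real.log (X i x) := by
      have h7 : 1 ≤ X i x ^ (θ + ε) := Real.one_le_rpow hXx hθε
      rw [posLog_eq_log, Real.log_mul (by positivity) (by positivity), Real.log_rpow (by positivity)]
      rw [abs_of_nonneg (by positivity)]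
      nlinarith
    have h9 : Real.log (X i x) ≤ m2 * Real.log (1 + |x - T|) + ℓ := by
      have h10 := hsh i T (x - T)
      rw [add_sub_cancel] at h10
      have h11 := Real.log_le_log (by linarith) h10
      rwa [Real.log_mul (by positivity) hX0.ne', Real.log_rpow (by positivity)] at h11
    have h10 := mul_le_mul_of_nonneg_left h9 hθε
    rw [hA, hm']
    linarith
  set E := Sm L X (θ - δ) i T h with hE
  have hEm : MeasurableSet E := by
    have e : E = {x : ℝ | |x - T| ≤ h} ∩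
        {x : ℝ | ‖L i (1 / 2 + (x : ℂ) * Complex.I)‖ ≤ X i T ^ (θ - δ)} := rfl
    rw [e]
    have hc1 : Measurable fun x : ℝ => |x - T| := by fun_prop
    exact (measurableSet_le hc1 measurable_const).inter
      (measurableSet_le (H.cont i).measurable measurable_const)
  have hκ : ∀ x ∈ E, log⁺ ‖L i (1 / 2 + (x : ℂ) * Complex.I)‖ ≤ (θ - δ) * ℓ := by
    intro x hx
    have h4 := posLog_le_posLog (norm_nonneg _) hx.2
    have h5 : log⁺ (X i T ^ (θ - δ)) = (θ - δ) * ℓ := by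
      rw [posLog_eq_log, Real.log_rpow hX0]
      rw [abs_of_nonneg (by positivity)]
      exact Real.one_le_rpow hX1 (by linarith)
    linarith
  have hεℓ : 0 ≤ ε * ℓ := by positivity
  have hδℓ : 0 ≤ δ * ℓ := by positivity
  have hD : δ * ℓ ≤ A - (θ - δ) * ℓ := by
    rw [hA]
    linarith [show (θ + ε) * ℓ - (θ - δ) * ℓ = ε * ℓ + δ * ℓ by ring]
  have hEfin : volume E ≠ ⊤ := by
    have : E ⊆ Icc (T - h) (T + h) := by
      rintro x ⟨hx, _⟩
      have := abs_le.1 hx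
      constructor <;> linarith [this.1, this.2]
    refine ne_top_of_le_ne_top ?_ (measure_mono this)
    rw [Real.volume_Icc]
    exact ENNReal.ofReal_ne_top
  have he : η * (2 * h) ≤ (volume E).toReal := by
    have := ENNReal.toReal_mono hEfin hv
    rwa [ENNReal.toReal_ofReal (by positivity)] at this
  set D : ℝ := A - (θ - δ) * ℓ with hDd
  have hBr : p * ℓ + m * Real.log 2 - D * (volume E).toReal / (5 * π * h ^ 2) ≤
      -(η * δ * ℓ / (5 * π * h)) := by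
    have g1 : δ * ℓ * (η * (2 * h)) ≤ D * (volume E).toReal :=
      mul_le_mul hD he (by positivity) (by linarith)
    have g2 : δ * ℓ * (η * (2 * h)) / (5 * π * h ^ 2) ≤ D * (volume E).toReal / (5 * π * h ^ 2) :=
      div_le_div_of_nonneg_right g1 (by positivity)
    have g3 : δ * ℓ * (η * (2 * h)) / (5 * π * h ^ 2) = 2 * (η * δ * ℓ / (5 * π * h)) := by
      field_simp
    have g4 : 2 * (p * ℓ) ≤ η * δ * ℓ / (5 * π * h) := by
      rw [le_div_iff₀ (by positivity)]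
      have g5 : h * (10 * π * p) ≤ η * δ := by
        rwa [le_div_iff₀ (by positivity)] at h2
      have g6 := mul_le_mul_of_nonneg_right g5 hℓ0
      linarith [show 2 * (p * ℓ) * (5 * π * h) = h * (10 * π * p) * ℓ by ring]
    linarith
  have hneg : 0 ≤ η * δ * ℓ / (5 * π * h) := by positivity
  have hfin := local2 (hld i T) hm'0 hline hEm (fun x hx => hx.1) hκ (by linarith) h0 h1
    (by linarith)
  have g7 : h / 2 * (p * ℓ + m * Real.log 2 - D * (volume E).toReal / (5 * π * h ^ 2)) ≤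
      -(4 * ε * ℓ) := by
    have g8 := mul_le_mul_of_nonneg_left hBr (by linarith : 0 ≤ h / 2)
    have g9 : h / 2 * -(η * δ * ℓ / (5 * π * h)) = -(4 * ε * ℓ) := by
      rw [hε]
      field_simp
      ring
    linarith
  have g10 : log⁺ ‖L i (1 / 2 + T * Complex.I)‖ ≤ (θ - 2 * ε) * ℓ := by
    refine hfin.trans ?_
    have e : (θ - 2 * ε) * ℓ = (θ + ε) * ℓ - 4 * ε * ℓ + ε * ℓ := by ring
    rw [e]
    rw [hc₀] at hℓ3
    linarith
  have e2 : θ - η * δ / (20 * π) = θ - 2 * ε := by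
    rw [hε]; field_simp; ring
  rw [e2]
  rcases eq_or_lt_of_le (norm_nonneg (L i (1 / 2 + T * Complex.I))) with h3 | h3
  · rw [← h3]; positivity
  · have e3 : X i T ^ (θ - 2 * ε) = Real.exp ((θ - 2 * ε) * ℓ) := by
      rw [Real.rpow_def_of_pos hX0]
      congr 1
      ring
    rw [e3, ← Real.log_le_iff_le_exp h3]
    exact (le_max_right _ _).trans g10

/-- `‖L‖ ≤ X ^ κ` on a proportion `η` of one window of radius at most `ρ` around every point `(i, T)`
with `X i T` large -/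
def Some (L : ι → ℂ → ℂ) (X : ι → ℝ → ℝ) (κ η ρ : ℝ) : Prop :=
  ∃ X₀ : ℝ, ∀ (i : ι) (T : ℝ), X₀ ≤ X i T → ∃ h : ℝ, 0 < h ∧ h ≤ 1 / 2 ∧ h ≤ ρ ∧
    ENNReal.ofReal (η * (2 * h)) ≤ volume (Sm L X κ i T h)

theorem FamP.step (H : FamP L X p) {θ δ η : ℝ} (hθ : AdmOn L X univ θ) (hδ : 0 < δ)
    (hδθ : δ ≤ θ) (hη : 0 < η) (hη1 : η ≤ 1) (h : Some L X (θ - δ) η (η * δ / (10 * π * p))) :
    AdmOn L X univ (θ - η * δ / (20 * π)) := by
  have hpi3 := Real.pi_gt_three
  obtain ⟨X₀, h⟩ := h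
  obtain ⟨X₁, hX₁, hi⟩ := H.improve hθ hδ hδθ hη
  have hd4 : η * δ / (20 * π) ≤ θ := by
    rw [div_le_iff₀ (by positivity)]
    nlinarith
  intro ε hε
  refine H.adm_of (X₀ := max X₀ X₁) (B := 1) (by linarith) fun i T hT => ?_
  have hTa : X₀ ≤ X i T := (le_max_left _ _).trans hT
  have hTb : X₁ ≤ X i T := (le_max_right _ _).trans hT
  obtain ⟨w, a, b, c, d⟩ := h i T hTa
  have h1 := hi i T hTb w a b c d
  rw [one_mul]
  exact h1.trans (Real.rpow_le_rpow_of_exponent_le (H.one i T) (by linarith))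

theorem FamP.least (H : FamP L X p) : ∃ θ : ℝ, 0 ≤ θ ∧ AdmOn L X univ θ ∧
    ∀ θ' : ℝ, 0 ≤ θ' → AdmOn L X univ θ' → θ ≤ θ' := by
  set S : Set ℝ := {θ : ℝ | 0 ≤ θ ∧ AdmOn L X univ θ} with hS
  have hne : S.Nonempty := ⟨p, H.p0.le, H.adm_p⟩
  have hbd : BddBelow S := ⟨0, fun θ h => h.1⟩
  refine ⟨sInf S, le_csInf hne fun θ h => h.1, fun ε hε => ?_, fun θ' h0 h => csInf_le hbd ⟨h0, h⟩⟩
  obtain ⟨θ, hθ, hlt⟩ := exists_lt_of_csInf_lt hne (show sInf S < sInf S + ε / 2 by linarith)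
  obtain ⟨B, hB⟩ := hθ.2 (ε / 2) (by linarith)
  refine ⟨|B|, fun i t ht => ?_⟩
  have h1 := H.one i t
  calc ‖L i (1 / 2 + t * Complex.I)‖ ≤ B * X i t ^ (θ + ε / 2) := hB i t ht
    _ ≤ |B| * X i t ^ (θ + ε / 2) :=
        mul_le_mul_of_nonneg_right (le_abs_self B) (by positivity)
    _ ≤ |B| * X i t ^ (sInf S + ε) :=
        mul_le_mul_of_nonneg_left (Real.rpow_le_rpow_of_exponent_le h1 (by linarith))
          (abs_nonneg B)

theorem FamP.spread (H : FamP L X p) {θ : ℝ} (hθ : AdmOn L X univ θ)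
    (hmin : ∀ θ' : ℝ, 0 ≤ θ' → AdmOn L X univ θ' → θ ≤ θ') {δ η : ℝ}
    (hδ : 0 < δ) (hδθ : δ ≤ θ) (hη : 0 < η) (hη1 : η ≤ 1) :
    ¬ Some L X (θ - δ) η (η * δ / (10 * π * p)) := by
  have hpi3 := Real.pi_gt_three
  intro h
  have h1 := H.step hθ hδ hδθ hη hη1 h
  have hd4 : η * δ / (20 * π) ≤ θ := by
    rw [div_le_iff₀ (by positivity)]
    nlinarith
  have h2 := hmin _ (by linarith) h1
  have h3 : 0 < η * δ / (20 * π) := by positivity
  linarith

theorem FamP.lind_iff (H : FamP L X p) : AdmOn L X univ 0 ↔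
    ∀ ε : ℝ, 0 < ε → ∃ η : ℝ, 0 < η ∧ η ≤ 1 ∧ Some L X ε η (η * ε / (10 * π * p)) := by
  have hp := H.p0
  constructor
  · intro h ε hε
    obtain ⟨X₀, _, hX₀⟩ := H.fam.empty le_rfl h hε
    refine ⟨1, one_pos, le_rfl, X₀, fun i T hT => ?_⟩
    have hpi3 := Real.pi_gt_three
    set w : ℝ := min (1 / 2) (1 * ε / (10 * π * p)) with hw
    have hw0 : 0 < w := lt_min (by norm_num) (by positivity)
    have hw1 : w ≤ 1 / 2 := min_le_left _ _
    refine ⟨w, hw0, hw1, min_le_right _ _, ?_⟩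
    have hE := hX₀ i T hT w (by linarith)
    rw [zero_add] at hE
    have hsub : Icc (T - w) (T + w) ⊆ Sm L X ε i T w := by
      rintro x ⟨hx1, hx2⟩
      have hx : |x - T| ≤ w := by rw [abs_le]; constructor <;> linarith
      refine ⟨hx, ?_⟩
      by_contra hcon
      push Not at hcon
      have : x ∈ Big L X ε i T w := ⟨hx, hcon⟩
      rw [hE] at this
      exact this
    refine le_trans (le_of_eq ?_) (measure_mono hsub)
    rw [Real.volume_Icc]
    congr 1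
    ring
  · intro h
    obtain ⟨θ, hθ0, hθ, hmin⟩ := H.least
    rcases eq_or_lt_of_le hθ0 with h0 | h0
    · rw [h0]; exact hθ
    · exfalso
      obtain ⟨η, hη, hη1, hs⟩ := h (θ / 2) (by linarith)
      refine H.spread hθ hmin (δ := θ / 2) (by linarith) (by linarith) hη hη1 ?_
      rw [show θ - θ / 2 = θ / 2 by ring]
      exact hs

/-- from `AFam` -/
theorem FamP.of_afam {m p : ℝ} {Q : ι → ℝ → ℝ} (H : H855R2.SF.AFam m L Q) (hp : 0 < p)
    (h1 : ∀ i t, 1 ≤ X i t) (hQ : ∀ i t, Q i t = X i t ^ p) : FamP L X p where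
  p0 := hp
  one := h1
  ld := by
    obtain ⟨C, K, hC, hK, h⟩ := ld_of_afam H
    refine ⟨C, m, K, hC, H.m0, hK, fun i T => ?_⟩
    have := h i T
    rwa [hQ, Real.log_rpow (by linarith [h1 i T])] at this
  shift := (Fam.of_afam H hp h1 hQ).shift

end Pool.Agent.X102.GLP
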