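import Mathlib

open Set Filter Topology MeasureTheory

namespace Pool.Agent.X102.RC

/-- `sin^2(φ/2)`. -/
noncomputable def sφ (φ : ℝ) : ℝ := Real.sin (φ / 2) ^ 2

theorem sφ_nonneg (φ : ℝ) : 0 ≤ sφ φ := sq_nonneg _
theorem sφ_le (φ : ℝ) : sφ φ ≤ 1 := Real.sin_sq_le_one _
theorem sφ_continuous : Continuous sφ := by unfold sφ; fun_prop

theorem cos_eq (φ : ℝ) : Real.cos φ = 1 - 2 * sφ φ := by
  have h := Real.cos_sq' (φ / 2)
  have h2 := Real.cos_two_mul (φ / 2)
  rw [show 2 * (φ / 2) = φ by ring] at h2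
  rw [h2, sφ, h]; ring

theorem sin_sq_eq (φ : ℝ) : Real.sin φ ^ 2 = 4 * sφ φ * (1 - sφ φ) := by
  have h1 := Real.sin_sq_add_cos_sq φ
  rw [cos_eq] at h1
  linarith

theorem sφ_deriv (φ : ℝ) : HasDerivAt sφ (Real.sin φ / 2) φ := by
  have h1 : HasDerivAt (fun φ : ℝ => φ / 2) (1 / 2) φ := (hasDerivAt_id φ).div_const 2
  have h2 := (h1.sin).pow 2
  refine h2.congr_deriv ?_
  have h3 := Real.sin_two_mul (φ / 2)
  rw [show 2 * (φ / 2) = φ by ring] at h3
  rw [h3]; simp; ring

/-- the argument `4 X s`, `X = x(1+cx)`. -/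
noncomputable def tt (c x φ : ℝ) : ℝ := 4 * (x * (1 + c * x)) * sφ φ

theorem tt_continuous (c : ℝ) : Continuous (Function.uncurry (tt c)) := by
  have := sφ_continuous
  unfold tt Function.uncurry
  fun_prop

theorem base_pos {c x : ℝ} (hx : 0 < 1 + 2 * c * x) (φ : ℝ) : 0 < 1 + c * tt c x φ := by
  have h1 := sφ_nonneg φ
  have h2 := sφ_le φ
  have h3 : 1 + c * tt c x φ = (1 - sφ φ) + sφ φ * (1 + 2 * c * x) ^ 2 := by
    unfold tt; ring
  rw [h3]
  rcases eq_or_lt_of_le h1 with h | h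
  · rw [← h]; norm_num
  · have := mul_pos h (pow_pos hx 2)
    linarith

/-- parametric derivative. -/
theorem param_deriv {c : ℝ} {h h' : ℝ → ℝ} (hd : ∀ t, 0 < 1 + c * t → HasDerivAt h (h' t) t)
    (hc' : ContinuousOn h' {t | 0 < 1 + c * t}) (k : ℕ) {x : ℝ} (hx : 0 < 1 + 2 * c * x) :
    HasDerivAt (fun x => ∫ φ in (0:ℝ)..Real.pi, sφ φ ^ k * h (tt c x φ))
      (4 * (1 + 2 * c * x) * ∫ φ in (0:ℝ)..Real.pi, sφ φ ^ (k + 1) * h' (tt c x φ)) x := by
  have hcont : ContinuousOn h {t | 0 < 1 + c * t} := fun t ht => (hd t ht).continuousAt.continuousWithinAt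
  set U : Set ℝ := {x | 0 < 1 + 2 * c * x} with hU
  have hUo : IsOpen U := isOpen_lt continuous_const (by fun_prop)
  obtain ⟨ε, hε, hball⟩ := Metric.isOpen_iff.1 hUo x hx
  have closedBallSub : Metric.closedBall x (ε / 2) ⊆ U :=
    (Metric.closedBall_subset_ball (by linarith)).trans hball
  have hsc := sφ_continuous
  have hmaps : MapsTo (Function.uncurry (tt c)) (U ×ˢ univ) {t | 0 < 1 + c * t} := by
    rintro ⟨x, φ⟩ ⟨hx, -⟩; exact base_pos hx φ
  have hFc : ContinuousOn (fun p : ℝ × ℝ => sφ p.2 ^ k * h (tt c p.1 p.2)) (U ×ˢ univ) := by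
    refine ContinuousOn.mul (by fun_prop) ?_
    exact hcont.comp (tt_continuous c).continuousOn hmaps
  have hFc' : ContinuousOn (fun p : ℝ × ℝ => sφ p.2 ^ k * (h' (tt c p.1 p.2) *
      (4 * (1 + 2 * c * p.1) * sφ p.2))) (U ×ˢ univ) := by
    refine ContinuousOn.mul (by fun_prop) (ContinuousOn.mul ?_ (by fun_prop))
    exact hc'.comp (tt_continuous c).continuousOn hmaps
  have hsec : ∀ {G : ℝ × ℝ → ℝ}, ContinuousOn G (U ×ˢ univ) → ∀ y ∈ U, Continuous (fun φ => G (y, φ)) := by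
    intro G hG y hy
    rw [← continuousOn_univ]
    exact hG.comp (by fun_prop) (fun φ _ => ⟨hy, mem_univ _⟩)
  obtain ⟨C, hC⟩ := ((isCompact_closedBall x (ε / 2)).prod (isCompact_Icc (a := (0:ℝ)) (b := Real.pi))).exists_bound_of_continuousOn
    (hFc'.mono (prod_mono closedBallSub (subset_univ _)))
  have hpi := Real.pi_pos
  have key := intervalIntegral.hasDerivAt_integral_of_dominated_loc_of_deriv_le (μ := volume)
    (F := fun x φ => sφ φ ^ k * h (tt c x φ))
    (F' := fun x φ => sφ φ ^ k * (h' (tt c x φ) * (4 * (1 + 2 * c * x) * sφ φ)))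
    (a := 0) (b := Real.pi) (x₀ := x) (s := Metric.closedBall x (ε / 2)) (bound := fun _ => C)
    (Metric.closedBall_mem_nhds x (by linarith)) ?_ ?_ ?_ ?_ ?_ ?_
  · refine key.2.congr_deriv ?_
    rw [← intervalIntegral.integral_const_mul]
    refine intervalIntegral.integral_congr fun φ _ => ?_
    ring
  · filter_upwards [hUo.mem_nhds hx] with y hy
    exact (hsec hFc y hy).aestronglyMeasurable
  · exact (hsec hFc x hx).intervalIntegrable _ _
  · exact (hsec hFc' x hx).aestronglyMeasurable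
  · refine Eventually.of_forall fun φ hφ y hy => hC (y, φ) ⟨hy, ?_⟩
    rw [uIoc_of_le hpi.le] at hφ
    exact ⟨hφ.1.le, hφ.2⟩
  · exact intervalIntegrable_const
  · refine Eventually.of_forall fun φ _ y hy => ?_
    have hyU : 0 < 1 + 2 * c * y := closedBallSub hy
    have h1 : HasDerivAt (fun y => tt c y φ) (4 * (1 + 2 * c * y) * sφ φ) y := by
      unfold tt
      have h2 : HasDerivAt (fun y : ℝ => y * (1 + c * y)) (1 + 2 * c * y) y := by
        have := (hasDerivAt_id y).mul (((hasDerivAt_id y).const_mul c).const_add 1)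
        exact this.congr_deriv (by simp; ring)
      exact (h2.const_mul 4).mul_const _
    exact ((hd _ (base_pos hyU φ)).comp y h1).const_mul _

end Pool.Agent.X102.RC
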