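import Mathlib
import Pool.Agent.X102.RC1

open Set Filter Topology MeasureTheory

namespace Pool.Agent.X102.RC

/-- the three functions `h_k(t) = (1+ct)^{-n/c-k}` (or `e^{-nt}` when `c = 0`). -/
structure Fam (n c : ℝ) (h0 h1 h2 : ℝ → ℝ) : Prop where
  d0 : ∀ t, 0 < 1 + c * t → HasDerivAt h0 (-(n * h1 t)) t
  d1 : ∀ t, 0 < 1 + c * t → HasDerivAt h1 (-((n + c) * h2 t)) t
  e0 : ∀ t, 0 < 1 + c * t → h0 t = (1 + c * t) * h1 t
  e1 : ∀ t, 0 < 1 + c * t → h1 t = (1 + c * t) * h2 t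
  pos : ∀ t, 0 < 1 + c * t → 0 < h2 t
  cont : ContinuousOn h2 {t | 0 < 1 + c * t}
  one : h2 0 = 1

/-- the integrals `∫ s^k h(4Xs) dφ`. -/
noncomputable def II (c : ℝ) (h : ℝ → ℝ) (k : ℕ) (x : ℝ) : ℝ :=
  ∫ φ in (0:ℝ)..Real.pi, sφ φ ^ k * h (tt c x φ)

/-- the algebraic heart. -/
theorem alg {n c X p Y : ℝ} (hn : 0 < n) (hnc : 0 ≤ n + c) (hX : 0 < X) (hp : 0 < p)
    (hE : p ^ 2 = 1 + 4 * c * X) (hY : p * Y ≤ 4 * n)
    (hP : X * p * Y ^ 2 - (1 + 4 * (n + c) * X) * Y + 2 * n * p = 0) :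
    (p ^ 2 + 2 * c * X) * Y ^ 2 - 4 * (n + c) * p * Y + 4 * n * c < 0 := by
  set A : ℝ := 1 + 4 * (n + c) * X with hA
  set δ : ℝ := A - 2 * X * p * Y with hδ
  set M : ℝ := 4 * n * X with hM
  have hM0 : 0 < M := by positivity
  have hp2 : 0 < p ^ 2 := by positivity
  have hAE : A = p ^ 2 + M := by rw [hA, hM, hE]; ring
  have hδ2 : δ ^ 2 = (p ^ 2) ^ 2 + M ^ 2 := by
    have h1 : δ ^ 2 = A ^ 2 + 4 * X * p * (X * p * Y ^ 2 - A * Y) := by rw [hδ]; ring
    have h2 : X * p * Y ^ 2 - A * Y = - (2 * n * p) := by linarith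
    rw [h1, h2, hAE, hM]; ring
  have hδpos : 0 < δ := by
    by_contra hcon
    push Not at hcon
    have h1 : δ ≥ A - 2 * M := by
      have : 2 * X * p * Y ≤ 2 * M := by
        rw [hM]; nlinarith
      rw [hδ]; linarith
    have h2 : -δ ≤ M - p ^ 2 := by rw [hAE] at h1; linarith
    have h3 : 0 ≤ -δ := by linarith
    have h4 : δ ^ 2 ≤ (M - p ^ 2) ^ 2 := by nlinarith
    have h5 : 0 < M * p ^ 2 := by positivity
    nlinarith
  have hδE : p ^ 2 < δ := by
    by_contra hcon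
    push Not at hcon
    have : δ ^ 2 ≤ (p ^ 2) ^ 2 := by nlinarith
    have : 0 < M ^ 2 := by positivity
    linarith
  -- key inequality: p^2 δ + M > p^2
  have hkey : p ^ 2 < p ^ 2 * δ + M := by
    rcases le_or_gt 1 (p ^ 2) with h | h
    · nlinarith
    · have hMe : 1 - p ^ 2 ≤ M := by
        have : 0 ≤ 4 * (n + c) * X := by positivity
        rw [hM, hE]; nlinarith
      rcases le_or_gt (p ^ 2) M with h2 | h2
      · have : 0 < p ^ 2 * δ := by positivity
        linarith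
      · by_contra hcon
        push Not at hcon
        have h3 : p ^ 2 * δ ≤ p ^ 2 - M := by linarith
        have h4 : (p ^ 2 * δ) ^ 2 ≤ (p ^ 2 - M) ^ 2 := by
          have : 0 ≤ p ^ 2 * δ := by positivity
          nlinarith
        have h5 : (p ^ 2 * δ) ^ 2 = (p ^ 2) ^ 2 * ((p ^ 2) ^ 2 + M ^ 2) := by
          rw [mul_pow, hδ2]
        rw [h5] at h4
        set E : ℝ := p ^ 2 with hEd
        have hE1 : 1 / 2 < E := by linarith
        -- E^2 (E^2+M^2) > (E-M)^2 for 1-E ≤ M < E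
        have h6 : (E - (1 - E)) ^ 2 < E ^ 2 * (E ^ 2 + (1 - E) ^ 2) := by
          have : E ^ 2 * (E ^ 2 + (1 - E) ^ 2) - (E - (1 - E)) ^ 2 =
              (1 - E) ^ 2 * (2 * E ^ 2 + 2 * E - 1) := by ring
          have h7 : 0 < (1 - E) ^ 2 * (2 * E ^ 2 + 2 * E - 1) := by
            refine mul_pos (pow_pos (by linarith) 2) (by nlinarith)
          linarith
        have h8 : (E - M) ^ 2 ≤ (E - (1 - E)) ^ 2 := by nlinarith
        have h9 : (1 - E) ^ 2 ≤ M ^ 2 := by nlinarith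
        have h10 : E ^ 2 * (E ^ 2 + (1 - E) ^ 2) ≤ E ^ 2 * (E ^ 2 + M ^ 2) :=
          mul_le_mul_of_nonneg_left (by linarith) (by positivity)
        linarith
  -- conclusion
  set K : ℝ := 1 + 6 * c * X + 8 * c * (n + c) * X ^ 2 with hK
  set R : ℝ := (p ^ 2 + 2 * c * X) * Y ^ 2 - 4 * (n + c) * p * Y + 4 * n * c with hR
  have hRX : R * (X * p) = Y * K - 2 * n * p ^ 3 := by
    have h1 : X * p * Y ^ 2 = A * Y - 2 * n * p := by linarith
    have h2 : R * (X * p) = (p ^ 2 + 2 * c * X) * (X * p * Y ^ 2) -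
        4 * (n + c) * X * p ^ 2 * Y + 4 * n * c * X * p := by rw [hR]; ring
    rw [h2, h1]
    have h3 : p ^ 3 = p ^ 2 * p := by ring
    rw [h3, hE, hA, hK]; ring
  have h2K : 2 * K < p ^ 2 * (A + δ) := by
    have : p ^ 2 * (A + δ) - 2 * K = p ^ 2 * δ + M - p ^ 2 := by
      have h1 : p ^ 2 * (A + δ) = p ^ 2 * A + p ^ 2 * δ := by ring
      rw [h1, hK, hM, hE, hA]; ring
    linarith
  have hYA : 2 * X * p * Y = A - δ := by rw [hδ]; ring
  have hAd : (A - δ) * (A + δ) = 2 * M * p ^ 2 := by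
    have : (A - δ) * (A + δ) = A ^ 2 - δ ^ 2 := by ring
    rw [this, hδ2, hAE]; ring
  have hAdpos : 0 < A + δ := by rw [hAE]; positivity
  have hfin : Y * K < 2 * n * p ^ 3 := by
    have h1 : 0 < A - δ := by
      by_contra hcon
      push Not at hcon
      have : (A - δ) * (A + δ) ≤ 0 := mul_nonpos_of_nonpos_of_nonneg hcon hAdpos.le
      have : 0 < 2 * M * p ^ 2 := by positivity
      linarith
    have h2 : (A - δ) * (2 * K) < (A - δ) * (p ^ 2 * (A + δ)) := mul_lt_mul_of_pos_left h2K h1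
    have h3 : (A - δ) * (p ^ 2 * (A + δ)) = 2 * M * p ^ 2 * p ^ 2 := by
      rw [← hAd]; ring
    rw [h3, ← hYA, hM] at h2
    have h4 : (4 * X * p) * (Y * K) < (4 * X * p) * (2 * n * p ^ 3) := by
      calc (4 * X * p) * (Y * K) = 2 * X * p * Y * (2 * K) := by ring
        _ < 2 * (4 * n * X) * p ^ 2 * p ^ 2 := h2
        _ = _ := by ring
    exact lt_of_mul_lt_mul_left h4 (by positivity)
  have hneg : R * (X * p) < 0 := by rw [hRX]; linarith
  by_contra hcon
  push Not at hcon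
  have : 0 ≤ R * (X * p) := mul_nonneg hcon (by positivity)
  linarith

section
variable {n c : ℝ} {h0 h1 h2 : ℝ → ℝ}

theorem Fam.cont1 (F : Fam n c h0 h1 h2) : ContinuousOn h1 {t | 0 < 1 + c * t} :=
  fun t ht => (F.d1 t ht).continuousAt.continuousWithinAt

theorem Fam.cont0 (F : Fam n c h0 h1 h2) : ContinuousOn h0 {t | 0 < 1 + c * t} :=
  fun t ht => (F.d0 t ht).continuousAt.continuousWithinAt

theorem sec_cont {h : ℝ → ℝ} (hc : ContinuousOn h {t | 0 < 1 + c * t}) (k : ℕ) {x : ℝ}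
    (hx : 0 < 1 + 2 * c * x) : Continuous (fun φ => sφ φ ^ k * h (tt c x φ)) := by
  have hs := sφ_continuous
  refine Continuous.mul (by fun_prop) ?_
  rw [← continuousOn_univ]
  refine hc.comp ?_ (fun φ _ => base_pos hx φ)
  exact ((tt_continuous c).comp (by fun_prop : Continuous fun φ : ℝ => (x, φ))).continuousOn

theorem II0_deriv (F : Fam n c h0 h1 h2) {x : ℝ} (hx : 0 < 1 + 2 * c * x) :
    HasDerivAt (II c h0 0) (-(4 * n * (1 + 2 * c * x) * II c h1 1 x)) x := by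
  have hc' : ContinuousOn (fun t => -(n * h1 t)) {t | 0 < 1 + c * t} :=
    (continuousOn_const.mul F.cont1).neg
  have h := param_deriv F.d0 hc' 0 hx
  have e : ∫ φ in (0:ℝ)..Real.pi, sφ φ ^ (0 + 1) * -(n * h1 (tt c x φ)) = -n * II c h1 1 x := by
    rw [II, ← intervalIntegral.integral_const_mul]
    refine intervalIntegral.integral_congr fun φ _ => ?_
    simp only [zero_add]
    ring
  refine h.congr_deriv ?_
  rw [e]; ring

theorem II1_deriv (F : Fam n c h0 h1 h2) {x : ℝ} (hx : 0 < 1 + 2 * c * x) :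
    HasDerivAt (II c h1 1) (-(4 * (n + c) * (1 + 2 * c * x) * II c h2 2 x)) x := by
  have hc' : ContinuousOn (fun t => -((n + c) * h2 t)) {t | 0 < 1 + c * t} :=
    (continuousOn_const.mul F.cont).neg
  have h := param_deriv F.d1 hc' 1 hx
  have e : ∫ φ in (0:ℝ)..Real.pi, sφ φ ^ (1 + 1) * -((n + c) * h2 (tt c x φ)) =
      -(n + c) * II c h2 2 x := by
    rw [II, ← intervalIntegral.integral_const_mul]
    refine intervalIntegral.integral_congr fun φ _ => ?_
    ring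
  refine h.congr_deriv ?_
  rw [e]; ring

/-- the differential equation. -/
theorem ode (F : Fam n c h0 h1 h2) {x : ℝ} (hx : 0 < 1 + 2 * c * x) (hn : n ≠ 0) :
    4 * (x * (1 + c * x)) * (1 + 2 * c * x) ^ 2 * (n + c) * II c h2 2 x -
      (1 + (4 * n + 6 * c) * (x * (1 + c * x))) * II c h1 1 x + 1 / 2 * II c h0 0 x = 0 := by
  set X : ℝ := x * (1 + c * x) with hX
  have hE : (1 + 2 * c * x) ^ 2 = 1 + 4 * c * X := by rw [hX]; ring
  have hFT : ∫ φ in (0:ℝ)..Real.pi, (Real.cos φ * h1 (tt c x φ) + Real.sin φ *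
      (-((n + c) * h2 (tt c x φ)) * (4 * X * (Real.sin φ / 2)))) = 0 := by
    have h := intervalIntegral.integral_eq_sub_of_hasDerivAt (a := 0) (b := Real.pi)
      (f := fun φ => Real.sin φ * h1 (tt c x φ))
      (f' := fun φ => Real.cos φ * h1 (tt c x φ) + Real.sin φ *
      (-((n + c) * h2 (tt c x φ)) * (4 * X * (Real.sin φ / 2)))) ?_ ?_
    · rw [h]; simp
    · intro φ _
      have h3 : HasDerivAt (fun φ => tt c x φ) (4 * X * (Real.sin φ / 2)) φ := by
        unfold tt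
        exact (sφ_deriv φ).const_mul _
      exact (Real.hasDerivAt_sin φ).mul ((F.d1 _ (base_pos hx φ)).comp φ h3)
    · have a1 := sec_cont F.cont1 0 hx
      have a2 := sec_cont F.cont 0 hx
      simp only [pow_zero, one_mul] at a1 a2
      apply Continuous.intervalIntegrable
      exact (Real.continuous_cos.mul a1).add (Real.continuous_sin.mul
        ((continuous_const.mul a2).neg.mul (by fun_prop)))
  have i2 := (sec_cont F.cont 2 hx).intervalIntegrable (μ := volume) 0 Real.pi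
  have i1 := (sec_cont F.cont1 1 hx).intervalIntegrable (μ := volume) 0 Real.pi
  have i0 := (sec_cont F.cont0 0 hx).intervalIntegrable (μ := volume) 0 Real.pi
  have e1 : 4 * X * (1 + 2 * c * x) ^ 2 * (n + c) * II c h2 2 x =
      ∫ φ in (0:ℝ)..Real.pi, 4 * X * (1 + 2 * c * x) ^ 2 * (n + c) * (sφ φ ^ 2 * h2 (tt c x φ)) := by
    rw [intervalIntegral.integral_const_mul]; rfl
  have e2 : (1 + (4 * n + 6 * c) * X) * II c h1 1 x =
      ∫ φ in (0:ℝ)..Real.pi, (1 + (4 * n + 6 * c) * X) * (sφ φ ^ 1 * h1 (tt c x φ)) := by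
    rw [intervalIntegral.integral_const_mul]; rfl
  have e3 : 1 / 2 * II c h0 0 x =
      ∫ φ in (0:ℝ)..Real.pi, 1 / 2 * (sφ φ ^ 0 * h0 (tt c x φ)) := by
    rw [intervalIntegral.integral_const_mul]; rfl
  rw [e1, e2, e3, ← intervalIntegral.integral_sub (i2.const_mul _) (i1.const_mul _),
    ← intervalIntegral.integral_add ((i2.const_mul _).sub (i1.const_mul _)) (i0.const_mul _)]
  have e4 : (0:ℝ) = 1 / 2 * ∫ φ in (0:ℝ)..Real.pi, (Real.cos φ * h1 (tt c x φ) + Real.sin φ *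
      (-((n + c) * h2 (tt c x φ)) * (4 * X * (Real.sin φ / 2)))) := by rw [hFT]; ring
  refine Eq.trans ?_ e4.symm
  rw [← intervalIntegral.integral_const_mul]
  refine intervalIntegral.integral_congr fun φ _ => ?_
  have hb := base_pos hx φ
  have q0 := F.e0 _ hb
  have q1 := F.e1 _ hb
  have ht : tt c x φ = 4 * X * sφ φ := rfl
  rw [q0, q1]
  have hs2 := sin_sq_eq φ
  have hc2 := cos_eq φ
  rw [hc2]
  have : Real.sin φ * (-((n + c) * h2 (tt c x φ)) * (4 * X * (Real.sin φ / 2))) =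
      -((n + c) * h2 (tt c x φ)) * (2 * X * Real.sin φ ^ 2) := by ring
  rw [this, hs2, hE]
  rw [ht]
  ring

theorem II_pos {h : ℝ → ℝ} (hc : ContinuousOn h {t | 0 < 1 + c * t})
    (hp : ∀ t, 0 < 1 + c * t → 0 < h t) (k : ℕ) {x : ℝ} (hx : 0 < 1 + 2 * c * x) :
    0 < II c h k x := by
  refine intervalIntegral.intervalIntegral_pos_of_pos_on
    ((sec_cont hc k hx).intervalIntegrable _ _) ?_ Real.pi_pos
  intro φ hφ
  have h1 : 0 < sφ φ := by
    refine pow_pos (Real.sin_pos_of_pos_of_lt_pi ?_ ?_) 2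
    · linarith [hφ.1]
    · linarith [hφ.2, Real.pi_pos]
  exact mul_pos (pow_pos h1 k) (hp _ (base_pos hx φ))

theorem Fam.pos1 (F : Fam n c h0 h1 h2) : ∀ t, 0 < 1 + c * t → 0 < h1 t := fun t ht => by
  rw [F.e1 t ht]; exact mul_pos ht (F.pos t ht)

theorem Fam.pos0 (F : Fam n c h0 h1 h2) : ∀ t, 0 < 1 + c * t → 0 < h0 t := fun t ht => by
  rw [F.e0 t ht]; exact mul_pos ht (F.pos1 t ht)

/-- the trivial bound `(1+4cX) I_1 ≤ I_0`. -/
theorem II_le (F : Fam n c h0 h1 h2) {x : ℝ} (hx : 0 < 1 + 2 * c * x) :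
    (1 + 2 * c * x) ^ 2 * II c h1 1 x ≤ II c h0 0 x := by
  unfold II
  rw [← intervalIntegral.integral_const_mul]
  refine intervalIntegral.integral_mono_on Real.pi_pos.le
    (((sec_cont F.cont1 1 hx).intervalIntegrable _ _).const_mul _)
    ((sec_cont F.cont0 0 hx).intervalIntegrable _ _) fun φ _ => ?_
  have hb := base_pos hx φ
  rw [F.e0 _ hb]
  have h1p := F.pos1 _ hb
  have hs0 := sφ_nonneg φ
  have hs1 := sφ_le φ
  have : (1 + 2 * c * x) ^ 2 * sφ φ ≤ 1 + c * tt c x φ := by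
    have e : 1 + c * tt c x φ - (1 + 2 * c * x) ^ 2 * sφ φ = 1 - sφ φ := by unfold tt; ring
    linarith
  calc (1 + 2 * c * x) ^ 2 * (sφ φ ^ 1 * h1 (tt c x φ))
      = ((1 + 2 * c * x) ^ 2 * sφ φ) * h1 (tt c x φ) := by ring
    _ ≤ (1 + c * tt c x φ) * h1 (tt c x φ) := mul_le_mul_of_nonneg_right this h1p.le
    _ = _ := by ring

end

end Pool.Agent.X102.RC
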