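import Mathlib
import Pool.Agent.X102.RC2

open Set Filter Topology MeasureTheory

namespace Pool.Agent.X102.RC

theorem int_s1 : ∫ φ in (0:ℝ)..Real.pi, sφ φ = Real.pi / 2 := by
  have h : ∀ φ, sφ φ = 1 / 2 - 1 / 2 * Real.cos φ := fun φ => by rw [cos_eq]; ring
  simp_rw [h]
  rw [intervalIntegral.integral_sub (by simp) (by
    apply Continuous.intervalIntegrable; fun_prop), intervalIntegral.integral_const_mul,
    integral_cos]
  simp; ring

theorem int_s2 : ∫ φ in (0:ℝ)..Real.pi, sφ φ ^ 2 = 3 * Real.pi / 8 := by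
  have h : ∀ φ, sφ φ ^ 2 = 1 / 4 - 1 / 2 * Real.cos φ + 1 / 4 * Real.cos φ ^ 2 := fun φ => by
    rw [cos_eq]; ring
  simp_rw [h]
  rw [intervalIntegral.integral_add, intervalIntegral.integral_sub,
    intervalIntegral.integral_const_mul, intervalIntegral.integral_const_mul, integral_cos,
    integral_cos_sq]
  · simp; ring
  · simp
  · apply Continuous.intervalIntegrable; fun_prop
  · apply Continuous.intervalIntegrable; fun_prop
  · apply Continuous.intervalIntegrable; fun_prop

section
variable {n c : ℝ} {h0 h1 h2 : ℝ → ℝ}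

/-- `y = S'/S`. -/
noncomputable def yy (n c : ℝ) (h0 h1 : ℝ → ℝ) (x : ℝ) : ℝ :=
  -(4 * n * (1 + 2 * c * x) * II c h1 1 x) / II c h0 0 x

/-- the second derivative of `S`. -/
noncomputable def S2 (n c : ℝ) (h1 h2 : ℝ → ℝ) (x : ℝ) : ℝ :=
  -(8 * n * c * II c h1 1 x) + 16 * n * (n + c) * (1 + 2 * c * x) ^ 2 * II c h2 2 x

/-- `y'`. -/
noncomputable def vv (n c : ℝ) (h0 h1 h2 : ℝ → ℝ) (x : ℝ) : ℝ :=
  (S2 n c h1 h2 x * II c h0 0 x - (-(4 * n * (1 + 2 * c * x) * II c h1 1 x)) ^ 2) /
    II c h0 0 x ^ 2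

theorem yy_deriv (F : Fam n c h0 h1 h2) {x : ℝ} (hx : 0 < 1 + 2 * c * x) :
    HasDerivAt (yy n c h0 h1) (vv n c h0 h1 h2 x) x := by
  have hp : HasDerivAt (fun x : ℝ => 1 + 2 * c * x) (2 * c) x := by
    have := ((hasDerivAt_id x).const_mul (2 * c)).const_add 1
    exact this.congr_deriv (by simp)
  have hpos := II_pos F.cont0 F.pos0 0 hx
  have h1' := (((hp.const_mul (4 * n)).mul (II1_deriv F hx)).neg).div (II0_deriv F hx) hpos.ne'
  refine h1'.congr_deriv ?_
  rw [vv, S2]
  simp only [Pi.neg_apply, Pi.mul_apply]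
  ring

theorem ode' (F : Fam n c h0 h1 h2) {x : ℝ} (hx : 0 < 1 + 2 * c * x) (hn : n ≠ 0) :
    x * (1 + c * x) * (1 + 2 * c * x) * vv n c h0 h1 h2 x =
      -(x * (1 + c * x) * (1 + 2 * c * x) * yy n c h0 h1 x ^ 2 +
        (1 + 4 * (n + c) * (x * (1 + c * x))) * yy n c h0 h1 x + 2 * n * (1 + 2 * c * x)) := by
  have h := ode F hx hn
  have hpos := II_pos F.cont0 F.pos0 0 hx
  rw [vv, yy, S2]
  field_simp
  have e : II c h0 0 x = 2 * ((1 + (4 * n + 6 * c) * (x * (1 + c * x))) * II c h1 1 x -
      4 * (x * (1 + c * x)) * (1 + 2 * c * x) ^ 2 * (n + c) * II c h2 2 x) := by linarith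
  generalize II c h0 0 x = I0 at *
  generalize II c h1 1 x = I1 at *
  generalize II c h2 2 x = I2 at *
  rw [e]
  ring

theorem yy_bound (F : Fam n c h0 h1 h2) {x : ℝ} (hx : 0 < 1 + 2 * c * x) (hn : 0 < n) :
    (1 + 2 * c * x) * -yy n c h0 h1 x ≤ 4 * n := by
  have h := II_le F hx
  have hpos := II_pos F.cont0 F.pos0 0 hx
  rw [yy, neg_div, neg_neg, mul_div_assoc', div_le_iff₀ hpos]
  have : 4 * n * ((1 + 2 * c * x) ^ 2 * II c h1 1 x) ≤ 4 * n * II c h0 0 x :=
    mul_le_mul_of_nonneg_left h (by positivity)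
  nlinarith

theorem yy_neg (F : Fam n c h0 h1 h2) {x : ℝ} (hx : 0 < 1 + 2 * c * x) (hn : 0 < n) :
    yy n c h0 h1 x < 0 := by
  have hpos := II_pos F.cont0 F.pos0 0 hx
  have hpos1 := II_pos F.cont1 F.pos1 1 hx
  rw [yy]
  exact div_neg_of_neg_of_pos (neg_neg_of_pos (by positivity)) hpos

theorem zero_vals (F : Fam n c h0 h1 h2) : II c h0 0 0 = Real.pi ∧ II c h1 1 0 = Real.pi / 2 ∧
    II c h2 2 0 = 3 * Real.pi / 8 := by
  have ht : ∀ φ, tt c 0 φ = 0 := fun φ => by simp [tt]
  have hb : (0:ℝ) < 1 + c * 0 := by simp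
  have e1 : h1 0 = 1 := by rw [F.e1 0 hb, F.one]; ring
  have e0 : h0 0 = 1 := by rw [F.e0 0 hb, e1]; ring
  refine ⟨?_, ?_, ?_⟩
  · simp [II, ht, e0]
  · simp [II, ht, e1, int_s1]
  · simp [II, ht, F.one, int_s2]

/-- the log-convexity, pointwise. -/
theorem vv_nonneg (F : Fam n c h0 h1 h2) (hn : 0 < n) (hnc : 0 ≤ n + c) {x : ℝ} (hx0 : 0 < x)
    (hx : 0 < 1 + 2 * c * x) : 0 ≤ vv n c h0 h1 h2 x := by
  have hall : ∀ z, 0 ≤ z → z ≤ x → 0 < 1 + 2 * c * z := by
    intro z hz0 hzx
    rcases le_or_gt 0 c with h | h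
    · positivity
    · nlinarith
  have hXpos : ∀ z, 0 < z → z ≤ x → 0 < z * (1 + c * z) := by
    intro z hz0 hzx
    have := hall z hz0.le hzx
    refine mul_pos hz0 ?_
    rcases le_or_gt 0 c with h | h
    · positivity
    · nlinarith
  rcases eq_or_lt_of_le hnc with hzero | hncpos
  · -- n + c = 0
    have h := ode F hx hn.ne'
    have hX := hXpos x hx0 le_rfl
    have hcn : c = -n := by linarith
    rw [vv, S2, ← hzero]
    refine div_nonneg ?_ (sq_nonneg _)
    rw [← hzero] at h
    have e : II c h0 0 x = 2 * (1 - 2 * n * (x * (1 + c * x))) * II c h1 1 x := by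
      have : (4 * n + 6 * c) = -2 * n := by rw [hcn]; ring
      rw [this] at h
      linarith
    rw [e]
    have e2 : (-(8 * n * c * II c h1 1 x) + 16 * n * 0 * (1 + 2 * c * x) ^ 2 * II c h2 2 x) *
        (2 * (1 - 2 * n * (x * (1 + c * x))) * II c h1 1 x) -
        (-(4 * n * (1 + 2 * c * x) * II c h1 1 x)) ^ 2 =
        32 * n ^ 3 * (x * (1 + c * x)) * II c h1 1 x ^ 2 := by
      rw [hcn]; ring
    rw [e2]
    positivity
  · -- fence
    set y : ℝ → ℝ := yy n c h0 h1 with hy
    set v : ℝ → ℝ := vv n c h0 h1 h2 with hv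
    set P : ℝ → ℝ := fun z => z * (1 + c * z) * (1 + 2 * c * z) * y z ^ 2 +
        (1 + 4 * (n + c) * (z * (1 + c * z))) * y z + 2 * n * (1 + 2 * c * z) with hP
    have hPd : ∀ z, 0 < 1 + 2 * c * z → HasDerivAt P
        (((1 + 2 * c * z) ^ 2 + 2 * c * (z * (1 + c * z))) * y z ^ 2 +
          2 * (z * (1 + c * z) * (1 + 2 * c * z)) * y z * v z +
          4 * (n + c) * (1 + 2 * c * z) * y z + (1 + 4 * (n + c) * (z * (1 + c * z))) * v z +
          4 * n * c) z := by
      intro z hz
      have hp : HasDerivAt (fun x : ℝ => 1 + 2 * c * x) (2 * c) z := by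
        have := ((hasDerivAt_id z).const_mul (2 * c)).const_add 1
        exact this.congr_deriv (by simp)
      have hX : HasDerivAt (fun x : ℝ => x * (1 + c * x)) (1 + 2 * c * z) z := by
        have := (hasDerivAt_id z).mul (((hasDerivAt_id z).const_mul c).const_add 1)
        exact this.congr_deriv (by simp; ring)
      have hyd := yy_deriv F hz
      have := (((hX.mul hp).mul (hyd.pow 2)).add
        (((hX.const_mul (4 * (n + c))).const_add 1).mul hyd)).add (hp.const_mul (2 * n))
      refine this.congr_deriv ?_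
      simp only [hy, hv, Pi.mul_apply, Pi.pow_apply]
      push_cast
      ring
    have hfence : P x ≤ 0 := by
      have := image_le_of_deriv_right_lt_deriv_boundary (f := P) (a := 0) (b := x)
        (f' := fun z => (((1 + 2 * c * z) ^ 2 + 2 * c * (z * (1 + c * z))) * y z ^ 2 +
          2 * (z * (1 + c * z) * (1 + 2 * c * z)) * y z * v z +
          4 * (n + c) * (1 + 2 * c * z) * y z + (1 + 4 * (n + c) * (z * (1 + c * z))) * v z +
          4 * n * c)) (B := fun _ => 0) (B' := fun _ => 0) ?_ ?_ ?_ ?_ ?_ (right_mem_Icc.2 hx0.le)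
      · exact this
      · exact fun z hz => (hPd z (hall z hz.1 hz.2)).continuousAt.continuousWithinAt
      · exact fun z hz => (hPd z (hall z hz.1 hz.2.le)).hasDerivWithinAt
      · obtain ⟨a0, a1, a2⟩ := zero_vals F
        have hy0 : y 0 = -2 * n := by
          simp only [hy, yy]
          rw [a0, a1]
          have := Real.pi_pos
          field_simp
          ring
        simp only [hP, hy0]
        ring_nf
        exact le_rfl
      · exact fun z => hasDerivAt_const z 0
      · intro z hz hPz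
        rcases eq_or_lt_of_le hz.1 with h | h
        · -- z = 0
          subst h
          obtain ⟨a0, a1, a2⟩ := zero_vals F
          have hpi := Real.pi_pos
          have hy0 : y 0 = -2 * n := by
            simp only [hy, yy]
            rw [a0, a1]
            field_simp
            ring
          have hv0 : v 0 = 2 * n * (n + c) := by
            simp only [hv, vv, S2]
            rw [a0, a1, a2]
            field_simp
            ring
          simp only [hy0, hv0]
          have : 0 < n * (n + c) := mul_pos hn hncpos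
          nlinarith
        · have hp := hall z hz.1 hz.2.le
          have hX := hXpos z h hz.2.le
          have hode := ode' F hp hn.ne'
          have hPz' : P z = 0 := hPz
          have hv0 : v z = 0 := by
            have h1 : z * (1 + c * z) * (1 + 2 * c * z) * v z = - P z := hode
            rw [hPz', neg_zero] at h1
            exact (mul_eq_zero.1 h1).resolve_left (mul_pos hX hp).ne'
          have halg := alg (n := n) (c := c) (X := z * (1 + c * z)) (p := 1 + 2 * c * z)
            (Y := - y z) hn hnc hX hp (by ring) (yy_bound F hp hn) (by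
              have : P z = z * (1 + c * z) * (1 + 2 * c * z) * y z ^ 2 +
                (1 + 4 * (n + c) * (z * (1 + c * z))) * y z + 2 * n * (1 + 2 * c * z) := rfl
              rw [hPz'] at this
              rw [this]; ring)
          simp only [hv0]
          nlinarith [halg]
    have hX := hXpos x hx0 le_rfl
    have hode : x * (1 + c * x) * (1 + 2 * c * x) * v x = - P x := ode' F hx hn.ne'
    by_contra hcon
    push Not at hcon
    have : x * (1 + c * x) * (1 + 2 * c * x) * v x < 0 :=
      mul_neg_of_pos_of_neg (mul_pos hX hx) hcon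
    linarith

end

end Pool.Agent.X102.RC
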