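import Mathlib
import Pool.Agent.X102.RC3

open Set Filter Topology MeasureTheory

namespace Pool.Agent.X102.RC

/-- `S_{n,c}(x)`. -/
noncomputable def S (n c x : ℝ) : ℝ :=
  if c = 0 then (1 / Real.pi) * ∫ φ in (0:ℝ)..Real.pi, Real.exp (-(4 * n * x * Real.sin (φ / 2) ^ 2))
  else (1 / Real.pi) * ∫ φ in (0:ℝ)..Real.pi,
    (1 + 4 * c * (x * (1 + c * x)) * Real.sin (φ / 2) ^ 2) ^ (-n / c)

/-- the interval `I_c`. -/
def Iv (c : ℝ) : Set ℝ := if 0 ≤ c then Ici 0 else Icc 0 (-1 / c)

/-- the functions `h_k`. -/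
noncomputable def hk (n c : ℝ) (k : ℕ) (t : ℝ) : ℝ :=
  if c = 0 then Real.exp (-(n * t)) else (1 + c * t) ^ (-n / c - k)

theorem fam (n c : ℝ) : Fam n c (hk n c 0) (hk n c 1) (hk n c 2) := by
  by_cases hc : c = 0
  · subst hc
    have e : ∀ k, hk n 0 k = fun t => Real.exp (-(n * t)) := fun k => by
      funext t; simp [hk]
    simp only [e]
    have hd : ∀ t, HasDerivAt (fun t => Real.exp (-(n * t))) (-(n * Real.exp (-(n * t)))) t := by
      intro t
      have := (((hasDerivAt_id t).const_mul n).neg).exp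
      exact this.congr_deriv (by simp; ring)
    refine ⟨fun t _ => hd t, fun t _ => by simpa using hd t, fun t _ => by simp,
      fun t _ => by simp, fun t _ => Real.exp_pos _, by fun_prop, by simp⟩
  · have e : ∀ k, hk n c k = fun t => (1 + c * t) ^ (-n / c - (k:ℝ)) := fun k => by
      funext t; simp [hk, hc]
    have hd : ∀ (p : ℝ) (t : ℝ), 0 < 1 + c * t →
        HasDerivAt (fun t => (1 + c * t) ^ p) (c * p * (1 + c * t) ^ (p - 1)) t := by
      intro p t ht
      have h1 : HasDerivAt (fun t : ℝ => 1 + c * t) c t := by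
        have := ((hasDerivAt_id t).const_mul c).const_add 1
        exact this.congr_deriv (by simp)
      exact h1.rpow_const (Or.inl ht.ne')
    simp only [e]
    refine ⟨fun t ht => ?_, fun t ht => ?_, fun t ht => ?_, fun t ht => ?_, fun t ht => ?_, ?_, ?_⟩
    · refine (hd _ t ht).congr_deriv ?_
      have : c * (-n / c - ((0:ℕ):ℝ)) = -n := by field_simp; simp
      rw [this]
      have : (-n / c - ((0:ℕ):ℝ) - 1) = (-n / c - ((1:ℕ):ℝ)) := by push_cast; ring
      rw [this]; ring
    · refine (hd _ t ht).congr_deriv ?_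
      have : c * (-n / c - ((1:ℕ):ℝ)) = -(n + c) := by push_cast; field_simp; ring
      rw [this]
      have : (-n / c - ((1:ℕ):ℝ) - 1) = (-n / c - ((2:ℕ):ℝ)) := by push_cast; ring
      rw [this]; ring
    · have : (-n / c - ((0:ℕ):ℝ)) = 1 + (-n / c - ((1:ℕ):ℝ)) := by push_cast; ring
      rw [this, Real.rpow_add ht, Real.rpow_one]
    · have : (-n / c - ((1:ℕ):ℝ)) = 1 + (-n / c - ((2:ℕ):ℝ)) := by push_cast; ring
      rw [this, Real.rpow_add ht, Real.rpow_one]
    · exact Real.rpow_pos_of_pos ht _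
    · exact ContinuousOn.rpow_const (by fun_prop) (fun t ht => Or.inl (ne_of_gt ht))
    · simp

theorem S_eq (n c x : ℝ) : S n c x = (1 / Real.pi) * II c (hk n c 0) 0 x := by
  unfold S II hk
  by_cases hc : c = 0
  · subst hc
    simp only [if_true, pow_zero, one_mul]
    congr 1
    refine intervalIntegral.integral_congr fun φ _ => ?_
    simp only [tt, sφ]
    congr 1
    ring
  · simp only [hc, if_false, pow_zero, one_mul]
    congr 1
    refine intervalIntegral.integral_congr fun φ _ => ?_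
    simp only [tt, sφ]
    congr 1
    · ring
    · simp

theorem convex_of_derivs {D : Set ℝ} (hD : Convex ℝ D) {f f' f'' : ℝ → ℝ} (hc : ContinuousOn f D)
    (h1 : ∀ x ∈ interior D, HasDerivAt f (f' x) x)
    (h2 : ∀ x ∈ interior D, HasDerivAt f' (f'' x) x)
    (h3 : ∀ x ∈ interior D, 0 ≤ f'' x) : ConvexOn ℝ D f := by
  have hm : MonotoneOn f' (interior D) := by
    refine monotoneOn_of_deriv_nonneg hD.interior ?_ ?_ ?_
    · exact fun x hx => (h2 x hx).continuousAt.continuousWithinAt
    · rw [interior_interior]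
      exact fun x hx => (h2 x hx).differentiableAt.differentiableWithinAt
    · rw [interior_interior]
      intro x hx
      rw [(h2 x hx).deriv]; exact h3 x hx
  refine MonotoneOn.convexOn_of_deriv hD hc
    (fun x hx => (h1 x hx).differentiableAt.differentiableWithinAt) ?_
  intro x hx y hy hxy
  rw [(h1 x hx).deriv, (h1 y hy).deriv]
  exact hm hx hy hxy

variable {n c : ℝ}

theorem S_pos_of {x : ℝ} (hx : 0 < 1 + 2 * c * x) : 0 < S n c x := by
  rw [S_eq]
  exact mul_pos (by have := Real.pi_pos; positivity) (II_pos (fam n c).cont0 (fam n c).pos0 0 hx)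

theorem logS_deriv {x : ℝ} (hx : 0 < 1 + 2 * c * x) :
    HasDerivAt (fun x => Real.log (S n c x)) (yy n c (hk n c 0) (hk n c 1) x) x := by
  have hpos := II_pos (fam n c).cont0 (fam n c).pos0 0 hx
  have h1 := (II0_deriv (fam n c) hx).const_mul (1 / Real.pi)
  have h2 : HasDerivAt (S n c) (1 / Real.pi * -(4 * n * (1 + 2 * c * x) * II c (hk n c 1) 1 x)) x := by
    have e : S n c = fun x => 1 / Real.pi * II c (hk n c 0) 0 x := by funext x; exact S_eq n c x
    rw [e]; exact h1
  refine (h2.log (S_pos_of hx).ne').congr_deriv ?_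
  rw [S_eq, yy]
  have := Real.pi_pos
  field_simp

/-- for `c < 0`: continuity on the whole line. -/
theorem S_continuous (hc : c < 0) (hN : 0 ≤ -n / c) : Continuous (S n c) := by
  have e : S n c = fun x => (1 / Real.pi) * ∫ φ in (0:ℝ)..Real.pi,
    (1 + 4 * c * (x * (1 + c * x)) * Real.sin (φ / 2) ^ 2) ^ (-n / c) := by
    funext x; simp [S, hc.ne]
  rw [e]
  refine continuous_const.mul ?_
  refine intervalIntegral.continuous_parametric_intervalIntegral_of_continuous' (μ := volume) ?_ 0 Real.pi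
  exact Continuous.rpow_const (by fun_prop) (fun _ => Or.inr hN)

theorem S_pos_neg (hc : c < 0) (hN : 0 ≤ -n / c) (x : ℝ) : 0 < S n c x := by
  have hpi := Real.pi_pos
  simp only [S, hc.ne, if_false]
  refine mul_pos (by positivity) ?_
  refine intervalIntegral.intervalIntegral_pos_of_pos_on ?_ ?_ hpi
  · apply Continuous.intervalIntegrable
    exact Continuous.rpow_const (by fun_prop) (fun _ => Or.inr hN)
  · intro φ hφ
    apply Real.rpow_pos_of_pos
    have h1 : 0 < Real.sin (φ / 2) := Real.sin_pos_of_pos_of_lt_pi (by linarith [hφ.1])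
      (by linarith [hφ.2])
    have h2 : 0 < Real.cos (φ / 2) := Real.cos_pos_of_mem_Ioo ⟨by linarith [hφ.1], by linarith [hφ.2]⟩
    have h3 := Real.sin_sq_add_cos_sq (φ / 2)
    have h4 : 1 + 4 * c * (x * (1 + c * x)) * Real.sin (φ / 2) ^ 2 =
        Real.cos (φ / 2) ^ 2 + Real.sin (φ / 2) ^ 2 * (1 + 2 * c * x) ^ 2 := by
      linear_combination (-1) * h3
    rw [h4]; positivity

theorem convex_nonneg (hn : 0 < n) (hc : 0 ≤ c) :
    ConvexOn ℝ (Ici 0) (fun x => Real.log (S n c x)) := by
  have hp : ∀ x : ℝ, 0 ≤ x → 0 < 1 + 2 * c * x := fun x hx => by positivity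
  refine convex_of_derivs (convex_Ici 0) (f' := yy n c (hk n c 0) (hk n c 1))
    (f'' := vv n c (hk n c 0) (hk n c 1) (hk n c 2)) ?_ ?_ ?_ ?_
  · exact fun x hx => (logS_deriv (hp x hx)).continuousAt.continuousWithinAt
  · rw [interior_Ici]; exact fun x hx => logS_deriv (hp x (le_of_lt hx))
  · rw [interior_Ici]; exact fun x hx => yy_deriv (fam n c) (hp x (le_of_lt hx))
  · rw [interior_Ici]
    exact fun x hx => vv_nonneg (fam n c) hn (by linarith) hx (hp x (le_of_lt hx))

theorem half_neg (hn : 0 < n) (hc : c < 0) (hN : 1 ≤ -n / c) :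
    ConvexOn ℝ (Icc 0 (-1 / (2 * c))) (fun x => Real.log (S n c x)) ∧
    AntitoneOn (fun x => Real.log (S n c x)) (Icc 0 (-1 / (2 * c))) := by
  have hnc : 0 ≤ n + c := by
    rw [le_div_iff_of_neg hc] at hN; linarith
  have hp : ∀ x ∈ Ioo 0 (-1 / (2 * c)), 0 < 1 + 2 * c * x := by
    intro x hx
    have h1 := hx.2
    rw [lt_div_iff_of_neg (by linarith)] at h1
    linarith
  have hcont : ContinuousOn (fun x => Real.log (S n c x)) (Icc 0 (-1 / (2 * c))) := by
    refine (Continuous.log (S_continuous hc (by linarith)) fun x => ?_).continuousOn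
    exact (S_pos_neg hc (by linarith) x).ne'
  constructor
  · refine convex_of_derivs (convex_Icc _ _) (f' := yy n c (hk n c 0) (hk n c 1))
      (f'' := vv n c (hk n c 0) (hk n c 1) (hk n c 2)) hcont ?_ ?_ ?_
    · rw [interior_Icc]; exact fun x hx => logS_deriv (hp x hx)
    · rw [interior_Icc]; exact fun x hx => yy_deriv (fam n c) (hp x hx)
    · rw [interior_Icc]
      exact fun x hx => vv_nonneg (fam n c) hn hnc hx.1 (hp x hx)
  · refine antitoneOn_of_deriv_nonpos (convex_Icc _ _) hcont ?_ ?_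
    · rw [interior_Icc]
      exact fun x hx => (logS_deriv (hp x hx)).differentiableAt.differentiableWithinAt
    · rw [interior_Icc]; intro x hx
      rw [(logS_deriv (hp x hx)).deriv]
      exact (yy_neg (fam n c) (hp x hx) hn).le

/-- gluing a symmetric function. -/
theorem glue {f : ℝ → ℝ} {b : ℝ} (hcv : ConvexOn ℝ (Icc 0 b) f)
    (hanti : AntitoneOn f (Icc 0 b)) (hsym : ∀ x, f (2 * b - x) = f x) :
    ConvexOn ℝ (Icc 0 (2 * b)) f := by
  have hrep : ∀ x, f x = f (b - |x - b|) := by
    intro x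
    rcases le_total x b with h | h
    · rw [abs_of_nonpos (by linarith)]; congr 1; ring
    · rw [abs_of_nonneg (by linarith), ← hsym]; congr 1; ring
  refine ⟨convex_Icc _ _, ?_⟩
  intro x hx y hy α β hα hβ hαβ
  simp only [smul_eq_mul]
  rw [hrep (α * x + β * y), hrep x, hrep y]
  have hb : |x - b| ≤ b := by rw [abs_le]; constructor <;> linarith [hx.1, hx.2]
  have hb' : |y - b| ≤ b := by rw [abs_le]; constructor <;> linarith [hy.1, hy.2]
  have h1 : |α * x + β * y - b| ≤ α * |x - b| + β * |y - b| := by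
    have e : α * x + β * y - b = α * (x - b) + β * (y - b) := by
      have : b = (α + β) * b := by rw [hαβ]; ring
      linear_combination (-1) * this
    rw [e]
    refine (abs_add_le _ _).trans ?_
    rw [abs_mul, abs_mul, abs_of_nonneg hα, abs_of_nonneg hβ]
  have hmx : b - |x - b| ∈ Icc 0 b := ⟨by linarith, by linarith [abs_nonneg (x - b)]⟩
  have hmy : b - |y - b| ∈ Icc 0 b := ⟨by linarith, by linarith [abs_nonneg (y - b)]⟩
  have hcomb := hcv.2 hmx hmy hα hβ hαβ
  simp only [smul_eq_mul] at hcomb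
  refine le_trans ?_ hcomb
  have hmem := (convex_Icc (0:ℝ) b) hmx hmy hα hβ hαβ
  simp only [smul_eq_mul] at hmem
  have e2 : α * (b - |x - b|) + β * (b - |y - b|) = b - (α * |x - b| + β * |y - b|) := by
    have : b = (α + β) * b := by rw [hαβ]; ring
    linear_combination (-1) * this
  refine hanti hmem ⟨?_, ?_⟩ ?_
  · have := hmem.1; rw [e2] at this; linarith
  · linarith [abs_nonneg (α * x + β * y - b)]
  · rw [e2]; linarith

theorem S_symm (hc : c ≠ 0) (x : ℝ) : S n c (2 * (-1 / (2 * c)) - x) = S n c x := by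
  simp only [S, hc, if_false]
  have : (2 * (-1 / (2 * c)) - x) * (1 + c * (2 * (-1 / (2 * c)) - x)) = x * (1 + c * x) := by
    field_simp; ring
  rw [this]

theorem main (n c : ℝ) (hn : 0 < n) (hc : c < 0 → ∃ N : ℕ, 0 < N ∧ -n / c = N) :
    (∀ x ∈ Iv c, 0 < S n c x) ∧ ConvexOn ℝ (Iv c) (fun x => Real.log (S n c x)) := by
  unfold Iv
  rcases le_or_gt 0 c with h | h
  · rw [if_pos h]
    refine ⟨fun x hx => S_pos_of ?_, convex_nonneg hn h⟩
    have : (0:ℝ) ≤ x := hx
    positivity
  · rw [if_neg (not_le.2 h)]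
    obtain ⟨N, hN, hNe⟩ := hc h
    have hN1 : (1:ℝ) ≤ -n / c := by rw [hNe]; exact_mod_cast hN
    refine ⟨fun x _ => S_pos_neg h (by linarith) x, ?_⟩
    obtain ⟨h1, h2⟩ := half_neg hn h hN1
    have := glue h1 h2 (fun x => by rw [S_symm h.ne])
    have e : 2 * (-1 / (2 * c)) = -1 / c := by field_simp
    rwa [e] at this

end Pool.Agent.X102.RC
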