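import Mathlib

open Set Filter Topology MeasureTheory

namespace Pool.Agent.X102.QV

/-- `RadLap N f g`: `f` is continuous on `[0,∞)`, differentiable on `(0,∞)` with `f'(r) → 0` as
`r → 0+`, and `g = r^{1-N} (r^{N-1} f')'` on `(0,∞)`: `g` is the radial Laplacian in dimension
`N` of `f`. -/
def RadLap (N : ℕ) (f g : ℝ → ℝ) : Prop :=
  ContinuousOn f (Ici 0) ∧ ∃ f' : ℝ → ℝ, Tendsto f' (𝓝[>] 0) (𝓝 0) ∧
    (∀ r : ℝ, 0 < r → HasDerivAt f (f' r) r) ∧
    ∀ r : ℝ, 0 < r → HasDerivAt (fun s => s ^ (N - 1) * f' s) (r ^ (N - 1) * g r) r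

theorem RadLap.neg {N : ℕ} {f g : ℝ → ℝ} (h : RadLap N f g) :
    RadLap N (fun r => - f r) (fun r => - g r) := by
  obtain ⟨hc, f', h0, h1, h2⟩ := h
  refine ⟨hc.neg, fun r => - f' r, by simpa using h0.neg, fun r hr => (h1 r hr).neg, fun r hr => ?_⟩
  exact ((h2 r hr).neg.congr_deriv (by ring)).congr_of_eventuallyEq
    (Eventually.of_forall fun s => by simp)

theorem RadLap.sub {N : ℕ} {f g F G : ℝ → ℝ} (h : RadLap N f g) (H : RadLap N F G) :
    RadLap N (fun r => f r - F r) (fun r => g r - G r) := by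
  obtain ⟨hc, f', h0, h1, h2⟩ := h
  obtain ⟨Hc, F', H0, H1, H2⟩ := H
  refine ⟨hc.sub Hc, fun r => f' r - F' r, by simpa using h0.sub H0,
    fun r hr => (h1 r hr).sub (H1 r hr), fun r hr => ?_⟩
  exact (((h2 r hr).sub (H2 r hr)).congr_deriv (by ring)).congr_of_eventuallyEq
    (Eventually.of_forall fun s => by simp only [Pi.sub_apply]; ring)

theorem RadLap.add_const {N : ℕ} {f g : ℝ → ℝ} (h : RadLap N f g) (c : ℝ) :
    RadLap N (fun r => c + f r) g := by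
  obtain ⟨hc, f', h0, h1, h2⟩ := h
  exact ⟨continuousOn_const.add hc, f', h0, fun r hr => by simpa using (h1 r hr).const_add c, h2⟩

theorem RadLap.const_mul {N : ℕ} {f g : ℝ → ℝ} (h : RadLap N f g) (c : ℝ) :
    RadLap N (fun r => c * f r) (fun r => c * g r) := by
  obtain ⟨hc, f', h0, h1, h2⟩ := h
  refine ⟨continuousOn_const.mul hc, fun r => c * f' r, by simpa using h0.const_mul c,
    fun r hr => (h1 r hr).const_mul c, fun r hr => ?_⟩
  exact (((h2 r hr).const_mul c).congr_deriv (by ring)).congr_of_eventuallyEq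
    (Eventually.of_forall fun s => by ring)

theorem RadLap.congr {N : ℕ} {f g G : ℝ → ℝ} (h : RadLap N f g) (hG : ∀ r : ℝ, 0 < r → g r = G r) :
    RadLap N f G := by
  obtain ⟨hc, f', h0, h1, h2⟩ := h
  exact ⟨hc, f', h0, h1, fun r hr => by rw [← hG r hr]; exact h2 r hr⟩

/-- the flux `q = r^{N-1} f'` tends to `0` at `0+`. -/
theorem flux_tendsto {N : ℕ} {f' : ℝ → ℝ} (h0 : Tendsto f' (𝓝[>] 0) (𝓝 0)) :
    Tendsto (fun s : ℝ => s ^ (N - 1) * f' s) (𝓝[>] 0) (𝓝 0) := by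
  have h1 : Tendsto (fun s : ℝ => s ^ (N - 1)) (𝓝[>] 0) (𝓝 ((0:ℝ) ^ (N - 1))) :=
    ((continuous_pow (N - 1)).tendsto 0).mono_left nhdsWithin_le_nhds
  simpa using h1.mul h0

/-- If `g ≥ 0` on `(0,∞)` the flux is nonnegative. -/
theorem flux_nonneg {N : ℕ} {f' g : ℝ → ℝ} (h0 : Tendsto f' (𝓝[>] 0) (𝓝 0))
    (h2 : ∀ r : ℝ, 0 < r → HasDerivAt (fun s => s ^ (N - 1) * f' s) (r ^ (N - 1) * g r) r)
    (hg : ∀ r : ℝ, 0 < r → 0 ≤ g r) : ∀ r : ℝ, 0 < r → 0 ≤ r ^ (N - 1) * f' r := by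
  have hmono : MonotoneOn (fun s => s ^ (N - 1) * f' s) (Ioi (0:ℝ)) := by
    refine monotoneOn_of_deriv_nonneg (convex_Ioi 0) ?_ ?_ ?_
    · exact fun r hr => (h2 r hr).continuousAt.continuousWithinAt
    · rw [interior_Ioi]; exact fun r hr => (h2 r hr).differentiableAt.differentiableWithinAt
    · rw [interior_Ioi]; intro r hr
      rw [(h2 r hr).deriv]
      exact mul_nonneg (pow_nonneg (le_of_lt hr) _) (hg r hr)
  intro r hr
  refine le_of_tendsto (flux_tendsto (N := N) h0) ?_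
  filter_upwards [Ioo_mem_nhdsGT hr] with s hs
  exact hmono hs.1 hr (le_of_lt hs.2)

theorem RadLap.mono {N : ℕ} {f g : ℝ → ℝ} (h : RadLap N f g) (hg : ∀ r : ℝ, 0 < r → 0 ≤ g r) :
    ∀ r : ℝ, 0 ≤ r → f 0 ≤ f r := by
  obtain ⟨hc, f', h0, h1, h2⟩ := h
  have hq := flux_nonneg h0 h2 hg
  have hf' : ∀ r : ℝ, 0 < r → 0 ≤ f' r := by
    intro r hr
    have := hq r hr
    exact nonneg_of_mul_nonneg_right this (pow_pos hr _)
  have hmono : MonotoneOn f (Ici (0:ℝ)) := by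
    refine monotoneOn_of_deriv_nonneg (convex_Ici 0) hc ?_ ?_
    · rw [interior_Ici]; exact fun r hr => (h1 r hr).differentiableAt.differentiableWithinAt
    · rw [interior_Ici]; intro r hr
      rw [(h1 r hr).deriv]; exact hf' r hr
  exact fun r hr => hmono (mem_Ici.2 le_rfl) hr hr

/-- comparison on `(0,∞)`. -/
theorem RadLap.cmp {N : ℕ} {f g F G : ℝ → ℝ} (h : RadLap N f g) (H : RadLap N F G)
    (hg : ∀ r : ℝ, 0 < r → g r ≤ G r) :
    ∀ r : ℝ, 0 ≤ r → f r - f 0 ≤ F r - F 0 := by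
  intro r hr
  have := (H.sub h).mono (fun r hr => sub_nonneg.2 (hg r hr)) r hr
  linarith

/-- growth of a function from the growth of its derivative. -/
theorem growth {φ φ' : ℝ → ℝ} {c : ℝ} (hc : 0 < c) (k : ℕ)
    (hd : ∀ r : ℝ, 0 < r → HasDerivAt φ (φ' r) r)
    (h : ∀ᶠ r in atTop, c * ((k + 1 : ℕ) * r ^ k) ≤ φ' r) :
    ∀ᶠ r in atTop, c / 2 * r ^ (k + 1) ≤ φ r := by
  obtain ⟨T, hT⟩ := eventually_atTop.1 (h.and (eventually_gt_atTop (0:ℝ)))
  have hT0 : 0 < T := (hT T le_rfl).2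
  have hd2 : ∀ r : ℝ, 0 < r → HasDerivAt (fun r => φ r - c * r ^ (k + 1))
      (φ' r - c * ((k + 1 : ℕ) * r ^ k)) r := by
    intro r hr
    exact ((hd r hr).sub ((hasDerivAt_pow (k + 1) r).const_mul c)).congr_deriv (by simp)
  have hmono : MonotoneOn (fun r => φ r - c * r ^ (k + 1)) (Ici T) := by
    refine monotoneOn_of_deriv_nonneg (convex_Ici T) ?_ ?_ ?_
    · exact fun r hr => (hd2 r (lt_of_lt_of_le hT0 hr)).continuousAt.continuousWithinAt
    · rw [interior_Ici]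
      exact fun r hr => (hd2 r (lt_trans hT0 hr)).differentiableAt.differentiableWithinAt
    · rw [interior_Ici]; intro r hr
      rw [(hd2 r (lt_trans hT0 hr)).deriv]
      exact sub_nonneg.2 (hT r (le_of_lt hr)).1
  have hbig : ∀ᶠ r : ℝ in atTop, -(φ T - c * T ^ (k + 1)) ≤ c / 2 * r ^ (k + 1) := by
    have : Tendsto (fun r : ℝ => c / 2 * r ^ (k + 1)) atTop atTop :=
      (tendsto_pow_atTop (by omega)).const_mul_atTop (by positivity)
    exact this.eventually_ge_atTop _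
  filter_upwards [hbig, eventually_ge_atTop T] with r hr1 hr2
  have : φ T - c * T ^ (k + 1) ≤ φ r - c * r ^ (k + 1) :=
    hmono (mem_Ici.2 le_rfl) (mem_Ici.2 hr2) hr2
  linarith

/-- `u` grows at least quadratically. -/
def Big (u : ℝ → ℝ) : Prop := ∃ c : ℝ, 0 < c ∧ ∀ᶠ r : ℝ in atTop, c * r ^ 2 ≤ u r

/-- eventually at least a positive constant. -/
def EvPos (u : ℝ → ℝ) : Prop := ∃ c : ℝ, 0 < c ∧ ∀ᶠ r : ℝ in atTop, c ≤ u r

theorem Big.evPos {u : ℝ → ℝ} (h : Big u) : EvPos u := by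
  obtain ⟨c, hc, h⟩ := h
  refine ⟨c, hc, ?_⟩
  filter_upwards [h, eventually_ge_atTop (1:ℝ)] with r h1 h2
  nlinarith [mul_nonneg hc.le (show (0:ℝ) ≤ r ^ 2 - 1 by nlinarith)]

theorem RadLap.big {N : ℕ} (hN : 1 ≤ N) {f g : ℝ → ℝ} (h : RadLap N f g) (hg : EvPos g) : Big f := by
  obtain ⟨hc, f', h0, h1, h2⟩ := h
  obtain ⟨c, hc0, hg⟩ := hg
  have hN0 : (0:ℝ) < N := by exact_mod_cast hN
  have e1 : ∀ᶠ r : ℝ in atTop, (c / N) / 2 * r ^ (N - 1 + 1) ≤ r ^ (N - 1) * f' r := by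
    refine growth (φ := fun s => s ^ (N - 1) * f' s) (φ' := fun r => r ^ (N - 1) * g r)
      (by positivity) (N - 1) h2 ?_
    filter_upwards [hg, eventually_gt_atTop (0:ℝ)] with r hr1 hr2
    have hcast : ((N - 1 + 1 : ℕ) : ℝ) = N := by congr 1; omega
    rw [hcast]
    have : c / N * (N * r ^ (N - 1)) = r ^ (N - 1) * c := by field_simp
    rw [this]
    exact mul_le_mul_of_nonneg_left hr1 (by positivity)
  have e2 : ∀ᶠ r : ℝ in atTop, (c / N / 4) / 2 * r ^ (1 + 1) ≤ f r := by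
    refine growth (φ := f) (φ' := f') (by positivity) 1 h1 ?_
    filter_upwards [e1, eventually_gt_atTop (0:ℝ)] with r hr1 hr2
    rw [pow_succ] at hr1
    have hp : (0:ℝ) < r ^ (N - 1) := by positivity
    have : r ^ (N - 1) * (c / N / 2 * r) ≤ r ^ (N - 1) * f' r := by
      calc r ^ (N - 1) * (c / N / 2 * r) = c / N / 2 * (r ^ (N - 1) * r) := by ring
        _ ≤ _ := hr1
    have := le_of_mul_le_mul_left this hp
    calc c / N / 4 * (((1 + 1 : ℕ) : ℝ) * r ^ 1) = c / N / 2 * r := by push_cast; ring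
      _ ≤ f' r := this
  exact ⟨c / N / 4 / 2, by positivity, by simpa using e2⟩

/-- `w` is the chain `w_i = Δ^i u`, `i ≤ m`, in dimension `2m`, with `w_i(0) = a_i`. -/
def Chain (m : ℕ) (a : Fin m → ℝ) (w : ℕ → ℝ → ℝ) : Prop :=
  (∀ i : Fin m, w i 0 = a i) ∧ ∀ i < m, RadLap (2 * m) (w i) (w (i + 1))

/-- `u` is a radial solution of `Δ^m u = -e^u` in `ℝ^{2m}` with `Δ^i u (0) = a_i`. -/
def IsSol (m : ℕ) (a : Fin m → ℝ) (u : ℝ → ℝ) : Prop :=
  ∃ w : ℕ → ℝ → ℝ, w 0 = u ∧ (∀ i : Fin m, w i 0 = a i) ∧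
    (∀ i < m, RadLap (2 * m) (w i) (w (i + 1))) ∧ ∀ r : ℝ, 0 < r → w m r = - Real.exp (u r)

theorem chain_big {m : ℕ} {w : ℕ → ℝ → ℝ}
    (hw : ∀ i < m, RadLap (2 * m) (w i) (w (i + 1))) :
    ∀ i, 1 ≤ i → i ≤ m → EvPos (w i) → Big (w 0) := by
  intro i
  induction i with
  | zero => intro h; omega
  | succ i ih =>
    intro _ him hp
    have hb : Big (w i) := (hw i (by omega)).big (by omega) hp
    rcases Nat.eq_zero_or_pos i with h0 | h0
    · rw [h0] at hb; exact hb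
    · exact ih h0 (by omega) hb.evPos

theorem chain_big_neg {m : ℕ} {w : ℕ → ℝ → ℝ}
    (hw : ∀ i < m, RadLap (2 * m) (w i) (w (i + 1))) :
    ∀ i, 1 ≤ i → i ≤ m → EvPos (fun r => - w i r) → Big (fun r => - w 0 r) := by
  intro i hi him hp
  exact chain_big (w := fun i r => - w i r) (fun i hi => (hw i hi).neg) i hi him hp

/-- If `e^u` does not decay then `u → -∞` quadratically. -/
theorem big_neg_of_lower {m : ℕ} (hm : 1 ≤ m) {w : ℕ → ℝ → ℝ}
    (hw : ∀ i < m, RadLap (2 * m) (w i) (w (i + 1)))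
    (hlast : ∀ r : ℝ, 0 < r → w m r = - Real.exp (w 0 r)) {C : ℝ}
    (hC : ∀ᶠ r : ℝ in atTop, -C ≤ w 0 r) : Big (fun r => - w 0 r) := by
  refine chain_big_neg hw m hm le_rfl ⟨Real.exp (-C), Real.exp_pos _, ?_⟩
  filter_upwards [hC, eventually_gt_atTop (0:ℝ)] with r h1 h2
  rw [hlast r h2, neg_neg]
  exact Real.exp_le_exp.2 h1

theorem not_big {m : ℕ} (hm : 1 ≤ m) {w : ℕ → ℝ → ℝ}
    (hw : ∀ i < m, RadLap (2 * m) (w i) (w (i + 1)))
    (hlast : ∀ r : ℝ, 0 < r → w m r = - Real.exp (w 0 r)) : ¬ Big (w 0) := by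
  intro hb
  obtain ⟨c, hc, h⟩ := hb
  have h1 : ∀ᶠ r : ℝ in atTop, -(0:ℝ) ≤ w 0 r := by
    filter_upwards [h] with r hr
    have : 0 ≤ c * r ^ 2 := by positivity
    linarith
  obtain ⟨c', hc', h'⟩ := big_neg_of_lower hm hw hlast h1
  obtain ⟨r, hr1, hr2, hr3⟩ := (h1.and (h'.and (eventually_gt_atTop (0:ℝ)))).exists
  have : 0 < c' * r ^ 2 := by positivity
  linarith

end Pool.Agent.X102.QV
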