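import Mathlib
import Pool.Agent.X102.QV1

open Set Filter Topology MeasureTheory

namespace Pool.Agent.X102.QV

theorem int_of_decay {N : ℕ} {u : ℝ → ℝ} (hu : ContinuousOn u (Ici 0)) {C : ℝ}
    (h : ∀ᶠ r : ℝ in atTop, u r ≤ C - (N + 1) * Real.log r) (hN : 1 ≤ N) :
    IntegrableOn (fun r : ℝ => r ^ (N - 1) * Real.exp (u r)) (Ioi 0) := by
  obtain ⟨T, hT⟩ := eventually_atTop.1 (h.and (eventually_gt_atTop (0:ℝ)))
  have hT0 : 0 < T := (hT T le_rfl).2
  have hcont : ContinuousOn (fun r : ℝ => r ^ (N - 1) * Real.exp (u r)) (Ici 0) :=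
    (continuous_pow (N - 1)).continuousOn.mul (Real.continuous_exp.comp_continuousOn hu)
  rw [← Ioc_union_Ioi_eq_Ioi hT0.le]
  refine IntegrableOn.union ?_ ?_
  · exact ((hcont.mono Icc_subset_Ici_self).integrableOn_compact isCompact_Icc).mono_set
      Ioc_subset_Icc_self
  · have hi : IntegrableOn (fun r : ℝ => Real.exp C * r ^ (-2:ℝ)) (Ioi T) :=
      (integrableOn_Ioi_rpow_of_lt (by norm_num) hT0).const_mul _
    refine Integrable.mono' hi ?_ ?_
    · exact (hcont.mono (fun x hx => le_of_lt (lt_trans hT0 hx))).aestronglyMeasurable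
        measurableSet_Ioi
    · refine (ae_restrict_iff' measurableSet_Ioi).2 (Eventually.of_forall fun r hr => ?_)
      have hr0 : 0 < r := lt_trans hT0 hr
      have h1 := (hT r (le_of_lt hr)).1
      rw [Real.norm_of_nonneg (by positivity)]
      have h2 : Real.exp (u r) ≤ Real.exp C * (r ^ (N + 1))⁻¹ := by
        calc Real.exp (u r) ≤ Real.exp (C - (N + 1) * Real.log r) := Real.exp_le_exp.2 h1
          _ = Real.exp C * (r ^ (N + 1))⁻¹ := by
              rw [Real.exp_sub, div_eq_mul_inv]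
              congr 2
              have : ((N:ℝ) + 1) * Real.log r = Real.log (r ^ (N + 1)) := by
                rw [Real.log_pow]; push_cast; ring
              rw [this, Real.exp_log (by positivity)]
      calc r ^ (N - 1) * Real.exp (u r) ≤ r ^ (N - 1) * (Real.exp C * (r ^ (N + 1))⁻¹) :=
            mul_le_mul_of_nonneg_left h2 (by positivity)
        _ = Real.exp C * r ^ (-2:ℝ) := by
            have e : N + 1 = (N - 1) + 2 := by omega
            rw [e, pow_add, Real.rpow_neg hr0.le]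
            have : r ^ (2:ℝ) = r ^ 2 := by exact_mod_cast Real.rpow_natCast r 2
            rw [this]
            field_simp

theorem decay_of_big {N : ℕ} {u : ℝ → ℝ} (h : Big (fun r => - u r)) :
    ∀ᶠ r : ℝ in atTop, u r ≤ 0 - (N + 1) * Real.log r := by
  obtain ⟨c, hc, h⟩ := h
  filter_upwards [h, eventually_ge_atTop (((N:ℝ) + 1) / c), eventually_gt_atTop (0:ℝ)]
    with r h1 h2 h3
  have h4 : Real.log r ≤ r := by
    have := Real.log_le_sub_one_of_pos h3; linarith
  have h5 : (N:ℝ) + 1 ≤ c * r := by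
    rw [div_le_iff₀ hc] at h2; linarith
  have h6 : ((N:ℝ) + 1) * Real.log r ≤ (N + 1) * r := mul_le_mul_of_nonneg_left h4 (by positivity)
  have h7 : ((N:ℝ) + 1) * r ≤ c * r * r := mul_le_mul_of_nonneg_right h5 h3.le
  have h8 : c * r ^ 2 ≤ - u r := h1
  have h9 : c * r ^ 2 = c * r * r := by ring
  linarith

theorem flux_atTop {N : ℕ} {u q : ℝ → ℝ} (hu : ContinuousOn u (Ici 0))
    (hq : ∀ r : ℝ, 0 < r → HasDerivAt q (-(r ^ (N - 1) * Real.exp (u r))) r)
    (hni : ¬ IntegrableOn (fun r : ℝ => r ^ (N - 1) * Real.exp (u r)) (Ioi 0)) :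
    Tendsto (fun r => - q r) atTop atTop := by
  have hcont : ContinuousOn (fun r : ℝ => r ^ (N - 1) * Real.exp (u r)) (Ici 0) :=
    (continuous_pow (N - 1)).continuousOn.mul (Real.continuous_exp.comp_continuousOn hu)
  have hd : ∀ r : ℝ, 0 < r → HasDerivAt (fun r => - q r) (r ^ (N - 1) * Real.exp (u r)) r := by
    intro r hr; exact (hq r hr).neg.congr_deriv (by ring)
  have hmono : MonotoneOn (fun r => - q r) (Ioi 0) := by
    refine monotoneOn_of_deriv_nonneg (convex_Ioi 0) ?_ ?_ ?_
    · exact fun r hr => (hd r hr).continuousAt.continuousWithinAt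
    · rw [interior_Ioi]; exact fun r hr => (hd r hr).differentiableAt.differentiableWithinAt
    · rw [interior_Ioi]; intro r hr
      rw [(hd r hr).deriv]
      exact mul_nonneg (pow_nonneg (le_of_lt hr) _) (Real.exp_pos _).le
  by_contra hcon
  rw [tendsto_atTop] at hcon
  push Not at hcon
  obtain ⟨B, hB⟩ := hcon
  have hbd : ∀ r : ℝ, 0 < r → - q r ≤ B := by
    intro r hr
    have := (hB.and_eventually (eventually_ge_atTop r)).exists
    obtain ⟨s, hs1, hs2⟩ := this
    have h3 : - q r ≤ - q s := hmono hr (lt_of_lt_of_le hr hs2) hs2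
    have h4 : ¬ B ≤ - q s := by simpa using hs1
    linarith [not_le.1 h4]
  apply hni
  rw [← Ioc_union_Ioi_eq_Ioi (zero_le_one' ℝ)]
  refine IntegrableOn.union ?_ ?_
  · exact ((hcont.mono Icc_subset_Ici_self).integrableOn_compact isCompact_Icc).mono_set
      Ioc_subset_Icc_self
  · refine integrableOn_Ioi_of_intervalIntegral_norm_bounded (B + q 1) 1 (l := atTop)
      (b := fun r : ℝ => r) (fun r => ?_) tendsto_id ?_
    · exact ((hcont.mono (fun x hx => le_trans zero_le_one hx.1)).integrableOn_compact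
        isCompact_Icc).mono_set Ioc_subset_Icc_self
    · filter_upwards [eventually_ge_atTop (1:ℝ)] with r hr
      have hsub : uIcc 1 r ⊆ Ioi (0:ℝ) := by
        rw [uIcc_of_le hr]; intro x hx; exact lt_of_lt_of_le one_pos hx.1
      have h1 : ∫ x in (1:ℝ)..r, ‖x ^ (N - 1) * Real.exp (u x)‖ =
          ∫ x in (1:ℝ)..r, x ^ (N - 1) * Real.exp (u x) := by
        refine intervalIntegral.integral_congr fun x hx => ?_
        have := hsub hx
        exact Real.norm_of_nonneg (mul_nonneg (pow_nonneg (le_of_lt this) _) (Real.exp_pos _).le)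
      have h2 : ∫ x in (1:ℝ)..r, x ^ (N - 1) * Real.exp (u x) = (- q r) - (- q 1) := by
        refine intervalIntegral.integral_eq_sub_of_hasDerivAt (fun x hx => hd x (hsub hx)) ?_
        exact ContinuousOn.intervalIntegrable (hcont.mono (hsub.trans Ioi_subset_Ici_self))
      rw [h1, h2]
      have := hbd r (lt_of_lt_of_le one_pos hr)
      linarith

theorem tendsto_zero_aux {f f' : ℝ → ℝ} (hd : ∀ r : ℝ, 0 < r → HasDerivAt f (f' r) r)
    (hf' : ∀ᶠ r in atTop, 0 ≤ f' r) (h1 : ¬ EvPos f) (h2 : ¬ EvPos (fun r => - f r)) :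
    Tendsto f atTop (𝓝 0) := by
  obtain ⟨T, hT⟩ := eventually_atTop.1 (hf'.and (eventually_gt_atTop (0:ℝ)))
  have hT0 : 0 < T := (hT T le_rfl).2
  have hmono : MonotoneOn f (Ici T) := by
    refine monotoneOn_of_deriv_nonneg (convex_Ici T) ?_ ?_ ?_
    · exact fun r hr => (hd r (lt_of_lt_of_le hT0 hr)).continuousAt.continuousWithinAt
    · rw [interior_Ici]
      exact fun r hr => (hd r (lt_trans hT0 hr)).differentiableAt.differentiableWithinAt
    · rw [interior_Ici]; intro r hr
      rw [(hd r (lt_trans hT0 hr)).deriv]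
      exact (hT r (le_of_lt hr)).1
  rw [Metric.tendsto_atTop]
  intro ε hε
  have h3 : ∃ r, T ≤ r ∧ -ε < f r := by
    by_contra hcon
    push Not at hcon
    exact h2 ⟨ε, hε, by
      filter_upwards [eventually_ge_atTop T] with r hr
      have := hcon r hr
      linarith⟩
  obtain ⟨r0, hr0, hr1⟩ := h3
  refine ⟨r0, fun r hr => ?_⟩
  have h4 : f r < ε := by
    by_contra hcon
    push Not at hcon
    refine h1 ⟨ε, hε, ?_⟩
    filter_upwards [eventually_ge_atTop r] with s hs
    exact hcon.trans (hmono (hr0.trans hr) ((hr0.trans hr).trans hs) hs)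
  have h5 : f r0 ≤ f r := hmono hr0 (hr0.trans hr) hr
  rw [Real.dist_eq, sub_zero, abs_lt]
  exact ⟨by linarith, h4⟩

theorem zero_growth {f f' : ℝ → ℝ} {i : ℕ} (hi : 1 ≤ i)
    (hd : ∀ r : ℝ, 0 < r → HasDerivAt f (f' r) r)
    (h0 : Tendsto f atTop (𝓝 0)) (h1 : Tendsto (fun r => r ^ (2 * i + 1) * f' r) atTop atTop) :
    Tendsto (fun r => r ^ (2 * i) * (- f r)) atTop atTop := by
  have hi0 : (0:ℝ) < (2 * i : ℕ) := by exact_mod_cast (by omega : 0 < 2 * i)
  have hl : Tendsto (fun r : ℝ => f r / (r ^ (2 * i))⁻¹) atTop atBot := by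
    refine HasDerivAt.lhopital_zero_atTop (f' := f')
      (g' := fun r : ℝ => -((2 * i : ℕ) * r ^ (2 * i - 1)) / (r ^ (2 * i)) ^ 2) ?_ ?_ ?_ h0 ?_ ?_
    · filter_upwards [eventually_gt_atTop (0:ℝ)] with r hr using hd r hr
    · filter_upwards [eventually_gt_atTop (0:ℝ)] with r hr
      exact (hasDerivAt_pow (2 * i) r).inv (by positivity)
    · filter_upwards [eventually_gt_atTop (0:ℝ)] with r hr
      exact div_ne_zero (neg_ne_zero.2 (by positivity)) (by positivity)
    · exact tendsto_inv_atTop_zero.comp (tendsto_pow_atTop (by omega))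
    · have h2 : Tendsto (fun r : ℝ => (1 / ((2 * i : ℕ):ℝ)) * (r ^ (2 * i + 1) * f' r)) atTop atTop :=
        h1.const_mul_atTop (by positivity)
      refine (tendsto_neg_atTop_atBot.comp h2).congr' ?_
      filter_upwards [eventually_gt_atTop (0:ℝ)] with r hr
      have e : r ^ (2 * i) = r ^ (2 * i - 1) * r := by
        rw [← pow_succ]; congr 1; omega
      have e2 : r ^ (2 * i + 1) = r ^ (2 * i) * r := pow_succ _ _
      have hp : (0:ℝ) < r ^ (2 * i - 1) := by positivity
      simp only [Function.comp_apply]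
      rw [e2, e]
      field_simp
  have := tendsto_neg_atBot_atTop.comp hl
  refine this.congr' ?_
  filter_upwards [eventually_gt_atTop (0:ℝ)] with r hr
  simp only [Function.comp_apply, div_inv_eq_mul]
  ring

theorem lap_growth {m i : ℕ} (hi : i + 2 ≤ m) {f g : ℝ → ℝ} (h : RadLap (2 * m) f g)
    (hg : Tendsto (fun r => r ^ (2 * (i + 1)) * g r) atTop atTop) :
    ∀ f' : ℝ → ℝ, (∀ r : ℝ, 0 < r → HasDerivAt f (f' r) r) →
      Tendsto (fun r => r ^ (2 * i + 1) * f' r) atTop atTop := by
  intro F' hF'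
  obtain ⟨hc, f', h0, h1, h2⟩ := h
  have hFf : ∀ r : ℝ, 0 < r → F' r = f' r := fun r hr => (hF' r hr).unique (h1 r hr)
  obtain ⟨k, hk⟩ : ∃ k, 2 * m - 1 = 2 * (i + 1) + k := ⟨2 * m - 1 - 2 * (i + 1), by omega⟩
  rw [tendsto_atTop]
  intro b
  set M : ℝ := 2 * (|b| + 1) with hM
  have hM0 : 0 < M := by positivity
  have e1 : ∀ᶠ r : ℝ in atTop, M / 2 * r ^ (k + 1) ≤ r ^ (2 * m - 1) * f' r := by
    refine growth (φ := fun s => s ^ (2 * m - 1) * f' s) (φ' := fun r => r ^ (2 * m - 1) * g r)
      hM0 k h2 ?_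
    filter_upwards [hg.eventually_ge_atTop (M * (k + 1 : ℕ)), eventually_gt_atTop (0:ℝ)]
      with r hr1 hr2
    rw [hk, pow_add]
    calc M * ((k + 1 : ℕ) * r ^ k) = (M * (k + 1 : ℕ)) * r ^ k := by ring
      _ ≤ (r ^ (2 * (i + 1)) * g r) * r ^ k := mul_le_mul_of_nonneg_right hr1 (by positivity)
      _ = _ := by ring
  filter_upwards [e1, eventually_gt_atTop (0:ℝ)] with r hr1 hr2
  rw [hFf r hr2]
  have e : 2 * m - 1 = (k + 1) + (2 * i + 1) := by omega
  rw [e, pow_add r (k + 1) (2 * i + 1)] at hr1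
  have hp : (0:ℝ) < r ^ (k + 1) := by positivity
  have : r ^ (k + 1) * (M / 2) ≤ r ^ (k + 1) * (r ^ (2 * i + 1) * f' r) := by
    calc r ^ (k + 1) * (M / 2) = M / 2 * r ^ (k + 1) := by ring
      _ ≤ _ := hr1
      _ = _ := by ring
  have h3 := le_of_mul_le_mul_left this hp
  have : b ≤ |b| := le_abs_self b
  linarith

theorem sol_integrable {m : ℕ} (hm : 1 ≤ m) {w : ℕ → ℝ → ℝ}
    (hw : ∀ i < m, RadLap (2 * m) (w i) (w (i + 1)))
    (hlast : ∀ r : ℝ, 0 < r → w m r = - Real.exp (w 0 r)) :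
    IntegrableOn (fun r : ℝ => r ^ (2 * m - 1) * Real.exp (w 0 r)) (Ioi 0) := by
  by_contra hni
  have hu : ContinuousOn (w 0) (Ici 0) := (hw 0 (by omega)).1
  have hnb : ¬ Big (fun r => - w 0 r) := fun hb =>
    hni (int_of_decay hu (decay_of_big (N := 2 * m) hb) (by omega))
  have hpos : ∀ i, 1 ≤ i → i ≤ m → ¬ EvPos (w i) := fun i h1 h2 h =>
    not_big hm hw hlast (chain_big hw i h1 h2 h)
  have hneg : ∀ i, 1 ≤ i → i ≤ m → ¬ EvPos (fun r => - w i r) := fun i h1 h2 h =>
    hnb (chain_big_neg hw i h1 h2 h)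
  -- the main induction
  have main : ∀ k, k + 1 ≤ m → ∃ s : ℝ, (s = 1 ∨ s = -1) ∧ ∀ f' : ℝ → ℝ,
      (∀ r : ℝ, 0 < r → HasDerivAt (w (m - 1 - k)) (f' r) r) →
      Tendsto (fun r => r ^ (2 * (m - 1 - k) + 1) * (s * f' r)) atTop atTop := by
    intro k
    induction k with
    | zero =>
      intro _
      refine ⟨-1, Or.inr rfl, fun F' hF' => ?_⟩
      obtain ⟨hc, f', h0, h1, h2⟩ := hw (m - 1) (by omega)
      have hFf : ∀ r : ℝ, 0 < r → F' r = f' r := fun r hr => (hF' r hr).unique (h1 r hr)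
      have e : m - 1 + 1 = m := by omega
      rw [e] at h2
      have h3 : ∀ r : ℝ, 0 < r → HasDerivAt (fun s => s ^ (2 * m - 1) * f' s)
          (-(r ^ (2 * m - 1) * Real.exp (w 0 r))) r := by
        intro r hr
        exact (h2 r hr).congr_deriv (by rw [hlast r hr]; ring)
      have h4 := flux_atTop hu h3 hni
      refine h4.congr' ?_
      filter_upwards [eventually_gt_atTop (0:ℝ)] with r hr
      have e2 : 2 * (m - 1 - 0) + 1 = 2 * m - 1 := by omega
      rw [hFf r hr, e2]
      ring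
    | succ k ih =>
      intro hk
      obtain ⟨s, hs, ih⟩ := ih (by omega)
      obtain ⟨i, hi⟩ : ∃ i, m - 1 - (k + 1) = i := ⟨_, rfl⟩
      have hi2 : m - 1 - k = i + 1 := by omega
      rw [hi2] at ih
      rw [hi]
      obtain ⟨hc, f', h0, h1, h2⟩ := hw (i + 1) (by omega)
      have ih' := ih f' h1
      have hss : s * s = 1 := by rcases hs with rfl | rfl <;> norm_num
      have hev : ∀ᶠ r in atTop, 0 ≤ s * f' r := by
        filter_upwards [ih'.eventually_ge_atTop 0, eventually_gt_atTop (0:ℝ)] with r hr1 hr2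
        exact nonneg_of_mul_nonneg_right hr1 (by positivity)
      have hz : Tendsto (fun r => s * w (i + 1) r) atTop (𝓝 0) := by
        refine tendsto_zero_aux (f' := fun r => s * f' r) (fun r hr => (h1 r hr).const_mul s) hev ?_ ?_
        · rcases hs with rfl | rfl
          · simpa using hpos (i + 1) (by omega) (by omega)
          · simpa using hneg (i + 1) (by omega) (by omega)
        · rcases hs with rfl | rfl
          · simpa using hneg (i + 1) (by omega) (by omega)
          · simpa using hpos (i + 1) (by omega) (by omega)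
      have hg := zero_growth (i := i + 1) (f' := fun r => s * f' r) (by omega)
        (fun r hr => (h1 r hr).const_mul s) hz ih'
      refine ⟨-s, by rcases hs with rfl | rfl <;> simp, fun F' hF' => ?_⟩
      have hlap : RadLap (2 * m) (fun r => (-s) * w i r) (fun r => (-s) * w (i + 1) r) :=
        (hw i (by omega)).const_mul (-s)
      refine lap_growth (i := i) (by omega) hlap ?_ (fun r => -s * F' r)
        (fun r hr => (hF' r hr).const_mul (-s))
      refine hg.congr fun r => ?_
      ring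
  obtain ⟨s, hs, hP⟩ := main (m - 1) (by omega)
  have e0 : m - 1 - (m - 1) = 0 := by omega
  rw [e0] at hP
  obtain ⟨hc, f', h0, h1, h2⟩ := hw 0 (by omega)
  have hP' := hP f' h1
  simp only [mul_zero, zero_add, pow_one] at hP'
  rcases hs with rfl | rfl
  · -- u eventually increasing
    obtain ⟨T, hT⟩ := eventually_atTop.1 ((hP'.eventually_ge_atTop 0).and (eventually_gt_atTop (0:ℝ)))
    have hT0 : 0 < T := (hT T le_rfl).2
    have hmono : MonotoneOn (w 0) (Ici T) := by
      refine monotoneOn_of_deriv_nonneg (convex_Ici T) ?_ ?_ ?_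
      · exact fun r hr => (h1 r (lt_of_lt_of_le hT0 hr)).continuousAt.continuousWithinAt
      · rw [interior_Ici]
        exact fun r hr => (h1 r (lt_trans hT0 hr)).differentiableAt.differentiableWithinAt
      · rw [interior_Ici]; intro r hr
        rw [(h1 r (lt_trans hT0 hr)).deriv]
        have := (hT r (le_of_lt hr)).1
        have hr0 : 0 < r := lt_trans hT0 hr
        have h5 : 0 ≤ 1 * f' r := nonneg_of_mul_nonneg_right this hr0
        simpa using h5
    refine hnb (big_neg_of_lower hm hw hlast (C := - w 0 T) ?_)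
    filter_upwards [eventually_ge_atTop T] with r hr
    rw [neg_neg]
    exact hmono (mem_Ici.2 le_rfl) hr hr
  · -- r u' → -∞
    obtain ⟨T, hT⟩ := eventually_atTop.1
      ((hP'.eventually_ge_atTop (((2 * m : ℕ):ℝ) + 1)).and (eventually_gt_atTop (0:ℝ)))
    have hT0 : 0 < T := (hT T le_rfl).2
    have hd : ∀ r : ℝ, 0 < r → HasDerivAt (fun r => w 0 r + (((2 * m : ℕ):ℝ) + 1) * Real.log r)
        (f' r + (((2 * m : ℕ):ℝ) + 1) * r⁻¹) r := fun r hr =>
      (h1 r hr).add ((Real.hasDerivAt_log hr.ne').const_mul _)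
    have hanti : AntitoneOn (fun r => w 0 r + (((2 * m : ℕ):ℝ) + 1) * Real.log r) (Ici T) := by
      refine antitoneOn_of_deriv_nonpos (convex_Ici T) ?_ ?_ ?_
      · exact fun r hr => (hd r (lt_of_lt_of_le hT0 hr)).continuousAt.continuousWithinAt
      · rw [interior_Ici]
        exact fun r hr => (hd r (lt_trans hT0 hr)).differentiableAt.differentiableWithinAt
      · rw [interior_Ici]; intro r hr
        rw [(hd r (lt_trans hT0 hr)).deriv]
        have h5 := (hT r (le_of_lt hr)).1
        have hr0 : 0 < r := lt_trans hT0 hr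
        have h6 : r * (f' r + (((2 * m : ℕ):ℝ) + 1) * r⁻¹) ≤ 0 := by
          have : r * (f' r + (((2 * m : ℕ):ℝ) + 1) * r⁻¹) = r * f' r + (((2 * m : ℕ):ℝ) + 1) := by
            field_simp
          rw [this]
          nlinarith
        by_contra h7
        push Not at h7
        nlinarith [mul_pos hr0 h7]
    refine hni (int_of_decay (N := 2 * m) hu
      (C := w 0 T + (((2 * m : ℕ):ℝ) + 1) * Real.log T) ?_ (by omega))
    filter_upwards [eventually_ge_atTop T] with r hr
    have h8 : w 0 r + (((2 * m : ℕ):ℝ) + 1) * Real.log r ≤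
        w 0 T + (((2 * m : ℕ):ℝ) + 1) * Real.log T := hanti (mem_Ici.2 le_rfl) hr hr
    linarith

end Pool.Agent.X102.QV
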