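import Mathlib
import Pool.Agent.X102.QV2

open Set Filter Topology MeasureTheory

namespace Pool.Agent.X102.QV

/-- the total mass `∫_0^∞ r^{2m-1} e^{u(r)} dr`. -/
noncomputable def Tot (m : ℕ) (u : ℝ → ℝ) : ℝ :=
  ∫ r in Ioi (0:ℝ), r ^ (2 * m - 1) * Real.exp (u r)

theorem radLap_G {N : ℕ} (hN : 4 ≤ N) (A : ℝ) :
    RadLap N (fun r => -(A * (1 + r ^ 2)⁻¹))
      (fun r => 2 * A * (N + (N - 4) * r ^ 2) / (1 + r ^ 2) ^ 3) := by
  have hne : ∀ r : ℝ, (1 + r ^ 2) ≠ 0 := fun r => by positivity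
  have hd : ∀ r : ℝ, HasDerivAt (fun r : ℝ => 1 + r ^ 2) (2 * r) r := by
    intro r
    have := (hasDerivAt_pow 2 r).const_add 1
    exact this.congr_deriv (by norm_num)
  refine ⟨?_, fun r => 2 * A * r / (1 + r ^ 2) ^ 2, ?_, ?_, ?_⟩
  · apply Continuous.continuousOn
    exact (continuous_const.mul ((by fun_prop : Continuous fun r : ℝ => 1 + r ^ 2).inv₀ hne)).neg
  · have hc : Continuous (fun r : ℝ => 2 * A * r / (1 + r ^ 2) ^ 2) :=
      Continuous.div (by fun_prop) (by fun_prop) (fun r => pow_ne_zero 2 (hne r))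
    have := (hc.tendsto 0).mono_left (nhdsWithin_le_nhds (s := Ioi (0:ℝ)))
    simpa using this
  · intro r hr
    have := (((hd r).inv (hne r)).const_mul A).neg
    refine this.congr_deriv ?_
    field_simp
  · intro r hr
    have h1 : HasDerivAt (fun s : ℝ => s ^ N) (N * r ^ (N - 1)) r := hasDerivAt_pow N r
    have h2 : HasDerivAt (fun s : ℝ => (1 + s ^ 2) ^ 2) (2 * (1 + r ^ 2) * (2 * r)) r := by
      have := (hd r).pow 2
      exact this.congr_deriv (by norm_num)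
    have h3 := (h1.div h2 (pow_ne_zero 2 (hne r))).const_mul (2 * A)
    refine (h3.congr_deriv ?_).congr_of_eventuallyEq (Eventually.of_forall fun s => ?_)
    · have e : r ^ N = r ^ (N - 1) * r := by rw [← pow_succ]; congr 1; omega
      rw [e]
      have := hne r
      field_simp
      ring
    · have e : s ^ N = s ^ (N - 1) * s := by rw [← pow_succ]; congr 1; omega
      simp only [Pi.div_apply]
      rw [e]; ring

theorem gG_lower {N : ℕ} (hN : 6 ≤ N) {A : ℝ} (hA : 0 ≤ A) (r : ℝ) :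
    4 * A / (1 + r ^ 2) ^ 2 ≤ 2 * A * (N + (N - 4) * r ^ 2) / (1 + r ^ 2) ^ 3 := by
  have hN' : (6:ℝ) ≤ N := by exact_mod_cast hN
  have hp : 0 < 1 + r ^ 2 := by positivity
  have h1 : 4 * A / (1 + r ^ 2) ^ 2 = 2 * A * (2 * (1 + r ^ 2)) / (1 + r ^ 2) ^ 3 := by
    field_simp; ring
  rw [h1]
  refine div_le_div_of_nonneg_right ?_ (by positivity)
  refine mul_le_mul_of_nonneg_left ?_ (by positivity)
  nlinarith [sq_nonneg r]

theorem radLap_pow {N : ℕ} (hN : 1 ≤ N) (j : ℕ) :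
    RadLap N (fun r => r ^ (2 * j + 2))
      (fun r => ((2 * j + 2 : ℕ) * (N + 2 * j : ℕ) : ℝ) * r ^ (2 * j)) := by
  refine ⟨(continuous_pow _).continuousOn, fun r => (2 * j + 2 : ℕ) * r ^ (2 * j + 1), ?_, ?_, ?_⟩
  · have hc : Continuous (fun r : ℝ => ((2 * j + 2 : ℕ):ℝ) * r ^ (2 * j + 1)) := by fun_prop
    have := (hc.tendsto 0).mono_left (nhdsWithin_le_nhds (s := Ioi (0:ℝ)))
    simpa using this
  · intro r hr
    exact hasDerivAt_pow (2 * j + 2) r
  · intro r hr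
    have h1 := (hasDerivAt_pow (N + 2 * j) r).const_mul ((2 * j + 2 : ℕ):ℝ)
    refine (h1.congr_deriv ?_).congr_of_eventuallyEq (Eventually.of_forall fun s => ?_)
    · have e : N + 2 * j - 1 = (N - 1) + 2 * j := by omega
      rw [e, pow_add]; ring
    · have e : N + 2 * j = (N - 1) + (2 * j + 1) := by omega
      simp only
      rw [e, pow_add]; ring

/-- going down from `w_{m-2} ≤ -K`. -/
theorem down {m : ℕ} (hm : 2 ≤ m) : ∀ j, j ≤ m - 2 → ∃ c : ℝ, 0 < c ∧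
    ∀ (w : ℕ → ℝ → ℝ) (K : ℝ), (∀ i < m, RadLap (2 * m) (w i) (w (i + 1))) →
      (∀ i < m - 2, w i 0 = 0) → (∀ r : ℝ, 0 ≤ r → w (m - 2) r ≤ -K) →
      ∀ r : ℝ, 0 ≤ r → w (m - 2 - j) r ≤ -(K * c * r ^ (2 * j)) := by
  intro j
  induction j with
  | zero =>
    intro _
    refine ⟨1, one_pos, fun w K hw h0 hK r hr => ?_⟩
    simpa using hK r hr
  | succ j ih =>
    intro hj
    obtain ⟨c, hc, ih⟩ := ih (by omega)
    have hp : (0:ℝ) < ((2 * j + 2 : ℕ) * (2 * m + 2 * j : ℕ) : ℝ) := by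
      have h1 : 0 < 2 * j + 2 := by omega
      have h2 : 0 < 2 * m + 2 * j := by omega
      exact mul_pos (by exact_mod_cast h1) (by exact_mod_cast h2)
    refine ⟨c / ((2 * j + 2 : ℕ) * (2 * m + 2 * j : ℕ) : ℝ), by positivity,
      fun w K hw h0 hK r hr => ?_⟩
    obtain ⟨i, hi⟩ : ∃ i, m - 2 - (j + 1) = i := ⟨_, rfl⟩
    have hi2 : m - 2 - j = i + 1 := by omega
    have ih' := ih w K hw h0 hK
    rw [hi2] at ih'
    rw [hi]
    have hl := hw i (by omega)
    have hP := (radLap_pow (N := 2 * m) (by omega) j).const_mul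
      (-(K * (c / ((2 * j + 2 : ℕ) * (2 * m + 2 * j : ℕ) : ℝ))))
    have := hl.cmp hP (fun s hs => ?_) r hr
    · have h00 : w i 0 = 0 := h0 i (by omega)
      have h01 : (0:ℝ) ^ (2 * j + 2) = 0 := by simp
      rw [h00, h01] at this
      have e : 2 * (j + 1) = 2 * j + 2 := by ring
      rw [e]
      linarith
    · refine (ih' s hs.le).trans (le_of_eq ?_)
      field_simp

theorem flux_bound {m : ℕ} (hm : 1 ≤ m) {w : ℕ → ℝ → ℝ}
    (hw : ∀ i < m, RadLap (2 * m) (w i) (w (i + 1)))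
    (hlast : ∀ r : ℝ, 0 < r → w m r = - Real.exp (w 0 r)) {f' : ℝ → ℝ}
    (h0 : Tendsto f' (𝓝[>] 0) (𝓝 0))
    (h2 : ∀ r : ℝ, 0 < r → HasDerivAt (fun s => s ^ (2 * m - 1) * f' s)
      (r ^ (2 * m - 1) * w m r) r) {B : ℝ} (hB : Tot m (w 0) ≤ B) :
    ∀ r : ℝ, 0 < r → -B ≤ r ^ (2 * m - 1) * f' r := by
  intro r hr
  have hint := sol_integrable hm hw hlast
  have hd : ∀ x ∈ Ioo (0:ℝ) r, HasDerivAt (fun s => -(s ^ (2 * m - 1) * f' s))
      (x ^ (2 * m - 1) * Real.exp (w 0 x)) x := by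
    intro x hx
    exact (h2 x hx.1).neg.congr_deriv (by rw [hlast x hx.1]; ring)
  have h3 : ∫ x in (0:ℝ)..r, x ^ (2 * m - 1) * Real.exp (w 0 x) =
      -(r ^ (2 * m - 1) * f' r) - -0 := by
    refine intervalIntegral.integral_eq_sub_of_hasDerivAt_of_tendsto hr hd ?_ ?_ ?_
    · rw [intervalIntegrable_iff_integrableOn_Ioc_of_le hr.le]
      exact hint.mono_set Ioc_subset_Ioi_self
    · exact (flux_tendsto (N := 2 * m) h0).neg
    · exact ((h2 r hr).neg.continuousAt.tendsto).mono_left nhdsWithin_le_nhds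
  have h4 : ∫ x in (0:ℝ)..r, x ^ (2 * m - 1) * Real.exp (w 0 x) ≤ Tot m (w 0) := by
    rw [intervalIntegral.integral_of_le hr.le]
    refine setIntegral_mono_set hint ?_ (Ioc_subset_Ioi_self.eventuallyLE)
    refine (ae_restrict_iff' measurableSet_Ioi).2 (Eventually.of_forall fun x hx => ?_)
    exact mul_nonneg (pow_nonneg (le_of_lt hx) _) (Real.exp_pos _).le
  linarith

theorem kappa_bound {m : ℕ} (hm : 2 ≤ m) {w : ℕ → ℝ → ℝ}
    (hw : ∀ i < m, RadLap (2 * m) (w i) (w (i + 1)))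
    (hlast : ∀ r : ℝ, 0 < r → w m r = - Real.exp (w 0 r)) {B : ℝ} (hB0 : 0 ≤ B)
    (hB : Tot m (w 0) ≤ B) :
    ∀ r : ℝ, 0 < r → w (m - 1) r ≤ B * (r ^ (2 * m - 2))⁻¹ := by
  obtain ⟨hc, f', h0, h1, h2⟩ := hw (m - 1) (by omega)
  have e : m - 1 + 1 = m := by omega
  rw [e] at h2
  have hfl := flux_bound (by omega) hw hlast h0 h2 hB
  have hm2 : (0:ℝ) < (2 * m - 2 : ℕ) := by exact_mod_cast (by omega : 0 < 2 * m - 2)
  have hd : ∀ r : ℝ, 0 < r → HasDerivAt (fun r => w (m - 1) r - B * (r ^ (2 * m - 2))⁻¹)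
      (f' r - B * (-((2 * m - 2 : ℕ) * r ^ (2 * m - 2 - 1)) / (r ^ (2 * m - 2)) ^ 2)) r := by
    intro r hr
    exact (h1 r hr).sub (((hasDerivAt_pow (2 * m - 2) r).inv (by positivity)).const_mul B)
  have hmono : MonotoneOn (fun r => w (m - 1) r - B * (r ^ (2 * m - 2))⁻¹) (Ioi 0) := by
    refine monotoneOn_of_deriv_nonneg (convex_Ioi 0) ?_ ?_ ?_
    · exact fun r hr => (hd r hr).continuousAt.continuousWithinAt
    · rw [interior_Ioi]; exact fun r hr => (hd r hr).differentiableAt.differentiableWithinAt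
    · rw [interior_Ioi]; intro r hr
      have hr0 : (0:ℝ) < r := hr
      rw [(hd r hr).deriv]
      have h3 := hfl r hr
      have e1 : 2 * m - 1 = (2 * m - 2) + 1 := by omega
      have e2 : r ^ (2 * m - 2) = r ^ (2 * m - 2 - 1) * r := by
        rw [← pow_succ]; congr 1; omega
      have hp1 : (0:ℝ) < r ^ (2 * m - 2 - 1) := by positivity
      have hmm : (1:ℝ) ≤ (2 * m - 2 : ℕ) := by exact_mod_cast (by omega : 1 ≤ 2 * m - 2)
      have h4 : -(B) * (r ^ (2 * m - 1))⁻¹ ≤ f' r := by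
        rw [← div_eq_mul_inv, div_le_iff₀ (by positivity)]
        linarith
      have h5 : B * (-((2 * m - 2 : ℕ) * r ^ (2 * m - 2 - 1)) / (r ^ (2 * m - 2)) ^ 2) =
          -(((2 * m - 2 : ℕ):ℝ) * (B * (r ^ (2 * m - 1))⁻¹)) := by
        rw [e1, pow_succ r (2 * m - 2), e2]
        field_simp
      rw [h5]
      have h6 : 0 ≤ B * (r ^ (2 * m - 1))⁻¹ := by positivity
      nlinarith
  intro r0 hr0
  by_contra hcon
  push Not at hcon
  refine not_big (by omega) hw hlast (chain_big hw (m - 1) (by omega) (by omega)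
    ⟨w (m - 1) r0 - B * (r0 ^ (2 * m - 2))⁻¹, by linarith, ?_⟩)
  filter_upwards [eventually_ge_atTop r0] with r hr
  have h7 : w (m - 1) r0 - B * (r0 ^ (2 * m - 2))⁻¹ ≤ w (m - 1) r - B * (r ^ (2 * m - 2))⁻¹ :=
    hmono hr0 (lt_of_lt_of_le hr0 hr) hr
  have hrp : 0 < r := lt_of_lt_of_le hr0 hr
  have h8 : 0 ≤ B * (r ^ (2 * m - 2))⁻¹ := by positivity
  linarith

theorem kappa_le {m : ℕ} (hm : 1 ≤ m) {w : ℕ → ℝ → ℝ}
    (hw : ∀ i < m, RadLap (2 * m) (w i) (w (i + 1)))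
    (hlast : ∀ r : ℝ, 0 < r → w m r = - Real.exp (w 0 r)) :
    ∀ r : ℝ, 0 ≤ r → w (m - 1) r ≤ w (m - 1) 0 := by
  intro r hr
  have h := (hw (m - 1) (by omega)).neg
  have e : m - 1 + 1 = m := by omega
  rw [e] at h
  have := h.mono (fun s hs => by rw [hlast s hs, neg_neg]; exact (Real.exp_pos _).le) r hr
  linarith

/-- small mass forces `w_{m-2}` to stay very negative. -/
theorem mid_bound {m : ℕ} (hm : 3 ≤ m) {w : ℕ → ℝ → ℝ}
    (hw : ∀ i < m, RadLap (2 * m) (w i) (w (i + 1)))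
    (hlast : ∀ r : ℝ, 0 < r → w m r = - Real.exp (w 0 r)) {B : ℝ} (hB0 : 1 ≤ B)
    (hB : Tot m (w 0) ≤ B) (hτ : w (m - 1) 0 ≤ 1) :
    ∀ r : ℝ, 0 ≤ r → w (m - 2) r ≤ w (m - 2) 0 + B := by
  intro r hr
  have hl := hw (m - 2) (by omega)
  have e : m - 2 + 1 = m - 1 := by omega
  rw [e] at hl
  have hG := radLap_G (N := 2 * m) (by omega) B
  have := hl.cmp hG (fun s hs => ?_) r hr
  · have h1 : 0 ≤ B * (1 + r ^ 2)⁻¹ := by positivity
    have h2 : B * (1 + (0:ℝ) ^ 2)⁻¹ = B := by norm_num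
    rw [h2] at this
    linarith
  · refine le_trans ?_ (gG_lower (N := 2 * m) (by omega) (by linarith) s)
    rcases le_total s 1 with h | h
    · have h1 : w (m - 1) s ≤ 1 := (kappa_le (by omega) hw hlast s hs.le).trans hτ
      refine h1.trans ?_
      rw [le_div_iff₀ (by positivity)]
      have h2 : s ^ 2 ≤ 1 := by nlinarith
      nlinarith [sq_nonneg s]
    · refine (kappa_bound (by omega) hw hlast (by linarith) hB s hs).trans ?_
      have h1 : s ^ 4 ≤ s ^ (2 * m - 2) := pow_le_pow_right₀ h (by omega)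
      have h2 : (s ^ (2 * m - 2))⁻¹ ≤ (s ^ 4)⁻¹ := inv_anti₀ (by positivity) h1
      calc B * (s ^ (2 * m - 2))⁻¹ ≤ B * (s ^ 4)⁻¹ := mul_le_mul_of_nonneg_left h2 (by linarith)
        _ ≤ 4 * B / (1 + s ^ 2) ^ 2 := by
            rw [← div_eq_mul_inv, div_le_div_iff₀ (by positivity) (by positivity)]
            have h3 : (1 + s ^ 2) ^ 2 ≤ 4 * s ^ 4 := by
              have : 1 ≤ s ^ 2 := by nlinarith
              nlinarith
            calc B * (1 + s ^ 2) ^ 2 ≤ B * (4 * s ^ 4) :=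
                  mul_le_mul_of_nonneg_left h3 (by linarith)
              _ = 4 * B * s ^ 4 := by ring

theorem exp_large {c : ℝ} (hc : 0 < c) {k : ℕ} (hk : 1 ≤ k) :
    ∃ K0 : ℝ, ∀ K : ℝ, K0 ≤ K → ∀ s : ℝ, 0 ≤ s → (1 + s) ^ 2 ≤ 2 * Real.exp (K * c * s ^ k) := by
  refine ⟨2 / (c * (2 / 5) ^ (k - 1)), fun K hK s hs => ?_⟩
  have hcp : 0 < c * (2 / 5 : ℝ) ^ (k - 1) := by positivity
  have hK0 : 0 < K := lt_of_lt_of_le (by positivity) hK
  rcases le_total s (2 / 5) with h | h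
  · have h1 : (1 + s) ^ 2 ≤ 2 := by nlinarith
    have h2 : 1 ≤ Real.exp (K * c * s ^ k) := Real.one_le_exp (by positivity)
    linarith
  · have h1 : 2 ≤ K * (c * (2 / 5 : ℝ) ^ (k - 1)) := by
      rwa [div_le_iff₀ hcp] at hK
    have h2 : (2 / 5 : ℝ) ^ (k - 1) * s ≤ s ^ k := by
      have e : s ^ k = s ^ (k - 1) * s := by rw [← pow_succ]; congr 1; omega
      rw [e]
      exact mul_le_mul_of_nonneg_right (pow_le_pow_left₀ (by norm_num) h _) hs
    have h3 : 2 * s ≤ K * c * s ^ k := by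
      calc 2 * s ≤ K * (c * (2 / 5 : ℝ) ^ (k - 1)) * s := mul_le_mul_of_nonneg_right h1 hs
        _ = K * c * ((2 / 5 : ℝ) ^ (k - 1) * s) := by ring
        _ ≤ K * c * s ^ k := mul_le_mul_of_nonneg_left h2 (by positivity)
    have h4 : 1 + s ≤ Real.exp s := by linarith [Real.add_one_le_exp s]
    have h5 : (1 + s) ^ 2 ≤ Real.exp (2 * s) := by
      rw [two_mul, Real.exp_add, ← sq]
      exact pow_le_pow_left₀ (by linarith) h4 2
    have h6 : Real.exp (2 * s) ≤ Real.exp (K * c * s ^ k) := Real.exp_le_exp.2 h3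
    have h7 : 0 < Real.exp (K * c * s ^ k) := Real.exp_pos _
    linarith

/-- The jump. -/
theorem jump {m : ℕ} (hm : 3 ≤ m) : ∃ K B : ℝ,
    ∀ (w : ℕ → ℝ → ℝ), (∀ i < m, RadLap (2 * m) (w i) (w (i + 1))) →
      (∀ r : ℝ, 0 < r → w m r = - Real.exp (w 0 r)) →
      (∀ i < m - 2, w i 0 = 0) → w (m - 2) 0 = -K →
      (w (m - 1) 0 ≤ 1 → Tot m (w 0) ≤ B → Tot m (w 0) < B) ∧
      (w (m - 1) 0 ≤ 0 → Tot m (w 0) < B) ∧
      (w (m - 1) 0 = 1 → B < Tot m (w 0)) := by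
  obtain ⟨c, hc, hdown⟩ := down (m := m) (by omega) (m - 2) le_rfl
  obtain ⟨k, hk⟩ : ∃ k, m - 2 = k := ⟨_, rfl⟩
  have hk1 : 1 ≤ k := by omega
  obtain ⟨K0, hK0⟩ := exp_large hc hk1
  set S : ℝ := Tot m (fun r => -(c * r ^ (2 * k))) with hS
  have hSint : IntegrableOn (fun r : ℝ => r ^ (2 * m - 1) * Real.exp (-(c * r ^ (2 * k)))) (Ioi 0) := by
    refine int_of_decay (N := 2 * m) (by fun_prop) (decay_of_big (N := 2 * m) ?_) (by omega)
    refine ⟨c, hc, ?_⟩
    filter_upwards [eventually_ge_atTop (1:ℝ)] with r hr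
    rw [neg_neg]
    exact mul_le_mul_of_nonneg_left (pow_le_pow_right₀ hr (by omega)) hc.le
  have hS0 : 0 ≤ S := by
    refine setIntegral_nonneg measurableSet_Ioi fun r hr => ?_
    exact mul_nonneg (pow_nonneg (le_of_lt hr) _) (Real.exp_pos _).le
  set B : ℝ := S + 1 with hBdef
  set K1 : ℝ := max 1 K0 with hK1
  refine ⟨B + K1, B, fun w hw hlast h0 hK => ?_⟩
  have hK11 : 1 ≤ K1 := le_max_left _ _
  have hK10 : K0 ≤ K1 := le_max_right _ _
  -- if `w_{m-2} ≤ -K1` then mass small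
  have key : (∀ r : ℝ, 0 ≤ r → w (m - 2) r ≤ -K1) →
      (∀ r : ℝ, 0 ≤ r → w 0 r ≤ -(K1 * c * r ^ (2 * k))) ∧ Tot m (w 0) < B := by
    intro hmid
    have h1 := hdown w K1 hw h0 hmid
    have e : m - 2 - (m - 2) = 0 := by omega
    rw [e, hk] at h1
    refine ⟨h1, lt_of_le_of_lt ?_ (by linarith : S < B)⟩
    refine setIntegral_mono_on (sol_integrable (by omega) hw hlast) hSint measurableSet_Ioi ?_
    intro r hr
    have hr0 : (0:ℝ) < r := hr
    refine mul_le_mul_of_nonneg_left (Real.exp_le_exp.2 ?_) (pow_nonneg hr0.le _)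
    refine (h1 r hr0.le).trans ?_
    have : 0 ≤ (K1 - 1) * (c * r ^ (2 * k)) := mul_nonneg (by linarith) (by positivity)
    nlinarith
  have hsmall : w (m - 1) 0 ≤ 1 → Tot m (w 0) ≤ B →
      (∀ r : ℝ, 0 ≤ r → w 0 r ≤ -(K1 * c * r ^ (2 * k))) ∧ Tot m (w 0) < B := by
    intro hτ hT
    apply key
    intro r hr
    have := mid_bound hm hw hlast (by linarith) hT hτ r hr
    rw [hK] at this
    linarith
  refine ⟨fun hτ hT => (hsmall hτ hT).2, fun hτ => ?_, fun hτ => ?_⟩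
  · refine (key fun r hr => ?_).2
    have hl := (hw (m - 2) (by omega)).neg
    have e : m - 2 + 1 = m - 1 := by omega
    rw [e] at hl
    have := hl.mono (fun s hs => by
      have := kappa_le (by omega) hw hlast s hs.le
      linarith) r hr
    rw [hK] at this
    linarith
  · by_contra hcon
    push Not at hcon
    obtain ⟨hu, -⟩ := hsmall hτ.le hcon
    refine not_big (by omega) hw hlast (chain_big hw (m - 1) (by omega) (by omega)
      ⟨1 / 2, by norm_num, ?_⟩)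
    filter_upwards [eventually_ge_atTop (0:ℝ)] with r hr
    have hl := (hw (m - 1) (by omega)).neg
    have e : m - 1 + 1 = m := by omega
    rw [e] at hl
    have hG := radLap_G (N := 2 * m) (by omega) (1 / 2)
    have := hl.cmp hG (fun s hs => ?_) r hr
    · have h1 : 0 ≤ (1 / 2) * (1 + r ^ 2)⁻¹ := by positivity
      have h2 : (1 / 2) * (1 + (0:ℝ) ^ 2)⁻¹ = 1 / 2 := by norm_num
      rw [h2, hτ] at this
      linarith
    · refine le_trans ?_ (gG_lower (N := 2 * m) (by omega) (by norm_num) s)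
      rw [hlast s hs, neg_neg]
      have h1 := hu s hs.le
      have h2 := hK0 K1 hK10 (s ^ 2) (by positivity)
      rw [← pow_mul] at h2
      have h3 : Real.exp (w 0 s) ≤ (Real.exp (K1 * c * s ^ (2 * k)))⁻¹ := by
        rw [← Real.exp_neg]; exact Real.exp_le_exp.2 h1
      refine h3.trans ?_
      rw [inv_le_comm₀ (Real.exp_pos _) (by positivity)]
      rw [inv_div, div_le_iff₀ (by norm_num)]
      linarith

end Pool.Agent.X102.QV
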