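import Mathlib
import Pool.Agent.X102.QV3

open Set Filter Topology MeasureTheory

namespace Pool.Agent.X102.QV

/-- `∫_0^s t^{N-1} g`. -/
noncomputable def JJ (N : ℕ) (g : ℝ → ℝ) (s : ℝ) : ℝ := ∫ t in (0:ℝ)..s, t ^ (N - 1) * g t
/-- `s^{1-N} ∫_0^s t^{N-1} g`. -/
noncomputable def KK (N : ℕ) (g : ℝ → ℝ) (s : ℝ) : ℝ := JJ N g s / s ^ (N - 1)
/-- inverse radial Laplacian. -/
noncomputable def SS (N : ℕ) (g : ℝ → ℝ) (r : ℝ) : ℝ := ∫ s in (0:ℝ)..r, KK N g s

theorem JJ_hasDeriv {N : ℕ} {g : ℝ → ℝ} (hg : Continuous g) (s : ℝ) :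
    HasDerivAt (JJ N g) (s ^ (N - 1) * g s) s := by
  have hc : Continuous (fun t => t ^ (N - 1) * g t) := by fun_prop
  exact intervalIntegral.integral_hasDerivAt_right (hc.intervalIntegrable _ _)
    (hc.stronglyMeasurableAtFilter _ _) hc.continuousAt

theorem KK_zero {N : ℕ} (g : ℝ → ℝ) : KK N g 0 = 0 := by
  simp [KK, JJ]

theorem KK_continuous {N : ℕ} {g : ℝ → ℝ} (hg : Continuous g) : Continuous (KK N g) := by
  rw [continuous_iff_continuousAt]
  intro s
  rcases eq_or_ne s 0 with rfl | hs
  · obtain ⟨C, hC⟩ := (isCompact_Icc (a := (-1:ℝ)) (b := 1)).exists_bound_of_continuousOn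
      hg.continuousOn
    have hC0 : 0 ≤ C := (norm_nonneg _).trans (hC 0 (by constructor <;> norm_num))
    have hbd : ∀ᶠ s in 𝓝 (0:ℝ), ‖KK N g s‖ ≤ C * |s| := by
      filter_upwards [Ioo_mem_nhds (show (-1:ℝ) < 0 by norm_num) (show (0:ℝ) < 1 by norm_num)]
        with s hs
      have h1 : ‖JJ N g s‖ ≤ (|s| ^ (N - 1) * C) * |s - 0| := by
        refine intervalIntegral.norm_integral_le_of_norm_le_const fun t ht => ?_
        have ht1 : |t| ≤ |s| := by
          rcases le_total 0 s with h | h
          · rw [uIoc_of_le h] at ht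
            rw [abs_of_pos ht.1, abs_of_nonneg h]; exact ht.2
          · rw [uIoc_of_ge h] at ht
            rw [abs_of_nonpos ht.2, abs_of_nonpos h]; linarith [ht.1]
        have hs1 : |s| < 1 := abs_lt.2 hs
        have h2 : ‖g t‖ ≤ C := hC t (by
          have := abs_lt.1 (lt_of_le_of_lt ht1 hs1)
          exact ⟨this.1.le, this.2.le⟩)
        rw [norm_mul, norm_pow, Real.norm_eq_abs]
        exact mul_le_mul (pow_le_pow_left₀ (abs_nonneg _) ht1 _) h2 (norm_nonneg _) (by positivity)
      rw [sub_zero] at h1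
      rw [KK, norm_div, norm_pow, Real.norm_eq_abs s]
      rcases eq_or_lt_of_le (abs_nonneg s) with h0 | h0
      · have : s = 0 := by rwa [eq_comm, abs_eq_zero] at h0
        subst this
        simp [JJ]
      · rw [div_le_iff₀ (by positivity)]
        calc ‖JJ N g s‖ ≤ _ := h1
          _ = _ := by ring
    rw [ContinuousAt, KK_zero]
    refine squeeze_zero_norm' hbd ?_
    have : Tendsto (fun s : ℝ => C * |s|) (𝓝 0) (𝓝 (C * |0|)) := by
      exact (by fun_prop : Continuous fun s : ℝ => C * |s|).tendsto 0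
    simpa using this
  · exact ContinuousAt.div (JJ_hasDeriv hg s).continuousAt (by fun_prop) (pow_ne_zero _ hs)

theorem SS_hasDeriv {N : ℕ} {g : ℝ → ℝ} (hg : Continuous g) (s : ℝ) :
    HasDerivAt (SS N g) (KK N g s) s := by
  have hc := KK_continuous (N := N) hg
  exact intervalIntegral.integral_hasDerivAt_right (hc.intervalIntegrable _ _)
    (hc.stronglyMeasurableAtFilter _ _) hc.continuousAt

theorem SS_continuous {N : ℕ} {g : ℝ → ℝ} (hg : Continuous g) : Continuous (SS N g) :=
  continuous_iff_continuousAt.2 fun s => (SS_hasDeriv hg s).continuousAt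

theorem SS_zero {N : ℕ} (g : ℝ → ℝ) : SS N g 0 = 0 := by simp [SS]

theorem SS_radLap {N : ℕ} {g : ℝ → ℝ} (hg : Continuous g) : RadLap N (SS N g) g := by
  refine ⟨(SS_continuous hg).continuousOn, KK N g, ?_, fun r _ => SS_hasDeriv hg r, ?_⟩
  · have := ((KK_continuous (N := N) hg).tendsto 0).mono_left
      (nhdsWithin_le_nhds (s := Ioi (0:ℝ)))
    rwa [KK_zero] at this
  · intro r hr
    refine (JJ_hasDeriv (N := N) hg r).congr_of_eventuallyEq ?_
    filter_upwards [Ioi_mem_nhds hr] with s hs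
    have : (s:ℝ) ^ (N - 1) ≠ 0 := pow_ne_zero _ (ne_of_gt hs)
    rw [KK]; field_simp

/-- the coefficients, extended by zero. -/
noncomputable def coef (m : ℕ) (a : Fin m → ℝ) (j : ℕ) : ℝ := if h : j < m then a ⟨j, h⟩ else 0

/-- the chain with top function `-g`, indexed from the top. -/
noncomputable def bch (m : ℕ) (a : Fin m → ℝ) (g : ℝ → ℝ) : ℕ → ℝ → ℝ
  | 0 => fun r => - g r
  | k + 1 => fun r => coef m a (m - 1 - k) + SS (2 * m) (bch m a g k) r

/-- the chain with top function `-g`. -/
noncomputable def wch (m : ℕ) (a : Fin m → ℝ) (g : ℝ → ℝ) (i : ℕ) : ℝ → ℝ := bch m a g (m - i)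

theorem bch_continuous {m : ℕ} {a : Fin m → ℝ} {g : ℝ → ℝ} (hg : Continuous g) (k : ℕ) :
    Continuous (bch m a g k) := by
  induction k with
  | zero => exact hg.neg
  | succ k ih => exact continuous_const.add (SS_continuous ih)

theorem wch_top {m : ℕ} {a : Fin m → ℝ} {g : ℝ → ℝ} : wch m a g m = fun r => - g r := by
  simp [wch, bch]

theorem wch_zero {m : ℕ} {a : Fin m → ℝ} {g : ℝ → ℝ} {i : ℕ} (hi : i < m) :
    wch m a g i 0 = a ⟨i, hi⟩ := by
  obtain ⟨k, hk⟩ : ∃ k, m - i = k + 1 := ⟨m - i - 1, by omega⟩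
  have e : m - 1 - k = i := by omega
  rw [wch, hk, bch]
  simp only [SS_zero, add_zero]
  rw [e, coef, dif_pos hi]

theorem wch_radLap {m : ℕ} {a : Fin m → ℝ} {g : ℝ → ℝ} (hg : Continuous g) {i : ℕ} (hi : i < m) :
    RadLap (2 * m) (wch m a g i) (wch m a g (i + 1)) := by
  obtain ⟨k, hk⟩ : ∃ k, m - i = k + 1 := ⟨m - i - 1, by omega⟩
  have e : m - (i + 1) = k := by omega
  rw [wch, wch, hk, e]
  exact (SS_radLap (bch_continuous hg k)).add_const _

/-! ### the weight -/

/-- `exp (r^2)`. -/
noncomputable def EE (r : ℝ) : ℝ := Real.exp (r ^ 2)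
/-- `Λ = exp (c E)`. -/
noncomputable def LL (c r : ℝ) : ℝ := Real.exp (c * EE r)
/-- the weight `ω = exp Λ`. -/
noncomputable def om (c r : ℝ) : ℝ := Real.exp (LL c r)

theorem EE_deriv (r : ℝ) : HasDerivAt EE (2 * r * EE r) r := by
  have := (hasDerivAt_pow 2 r).exp
  exact this.congr_deriv (by simp [EE]; ring)

theorem LL_deriv (c r : ℝ) : HasDerivAt (LL c) (2 * c * r * EE r * LL c r) r := by
  have := ((EE_deriv r).const_mul c).exp
  exact this.congr_deriv (by simp [LL]; ring)

theorem om_deriv (c r : ℝ) : HasDerivAt (om c) (2 * c * r * EE r * LL c r * om c r) r := by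
  have := (LL_deriv c r).exp
  exact this.congr_deriv (by simp [om]; ring)

theorem EE_pos (r : ℝ) : 0 < EE r := Real.exp_pos _
theorem LL_pos (c r : ℝ) : 0 < LL c r := Real.exp_pos _
theorem om_pos (c r : ℝ) : 0 < om c r := Real.exp_pos _
theorem EE_ge (r : ℝ) : 1 ≤ EE r := Real.one_le_exp (by positivity)
theorem LL_ge {c : ℝ} (hc : 0 ≤ c) (r : ℝ) : 1 ≤ LL c r :=
  Real.one_le_exp (mul_nonneg hc (EE_pos r).le)

theorem EE_continuous : Continuous EE :=
  continuous_iff_continuousAt.2 fun r => (EE_deriv r).continuousAt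
theorem LL_continuous (c : ℝ) : Continuous (LL c) :=
  continuous_iff_continuousAt.2 fun r => (LL_deriv c r).continuousAt
theorem om_continuous (c : ℝ) : Continuous (om c) :=
  continuous_iff_continuousAt.2 fun r => (om_deriv c r).continuousAt

theorem EE_radLap {N : ℕ} (hN : 1 ≤ N) :
    RadLap N EE (fun r => (2 * N + 4 * r ^ 2) * EE r) := by
  refine ⟨EE_continuous.continuousOn, fun r => 2 * r * EE r, ?_, fun r _ => EE_deriv r, ?_⟩
  · have hc : Continuous (fun r => 2 * r * EE r) := by
      have := EE_continuous; fun_prop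
    have := (hc.tendsto 0).mono_left (nhdsWithin_le_nhds (s := Ioi (0:ℝ)))
    simpa using this
  · intro r hr
    have h1 := ((hasDerivAt_pow N r).mul (EE_deriv r)).const_mul 2
    refine (h1.congr_deriv ?_).congr_of_eventuallyEq (Eventually.of_forall fun s => ?_)
    · have e : r ^ N = r ^ (N - 1) * r := by rw [← pow_succ]; congr 1; omega
      rw [e]; ring
    · have e : s ^ N = s ^ (N - 1) * s := by rw [← pow_succ]; congr 1; omega
      simp only [Pi.mul_apply]
      rw [e]; ring

/-- the radial Laplacian of the weight. -/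
noncomputable def omLap (N : ℕ) (c r : ℝ) : ℝ :=
  2 * c * (N * (EE r * LL c r * om c r) +
    r * ((2 * r * EE r * LL c r + EE r * (2 * c * r * EE r * LL c r)) * om c r +
      EE r * LL c r * (2 * c * r * EE r * LL c r * om c r)))

theorem om_radLap {N : ℕ} (hN : 1 ≤ N) (c : ℝ) : RadLap N (om c) (omLap N c) := by
  refine ⟨(om_continuous c).continuousOn, fun r => 2 * c * r * EE r * LL c r * om c r, ?_,
    fun r _ => om_deriv c r, ?_⟩
  · have hc : Continuous (fun r => 2 * c * r * EE r * LL c r * om c r) := by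
      have := EE_continuous
      have := LL_continuous c
      have := om_continuous c
      fun_prop
    have := (hc.tendsto 0).mono_left (nhdsWithin_le_nhds (s := Ioi (0:ℝ)))
    simpa using this
  · intro r hr
    have h1 := ((hasDerivAt_pow N r).mul
      (((EE_deriv r).mul (LL_deriv c r)).mul (om_deriv c r))).const_mul (2 * c)
    refine (h1.congr_deriv ?_).congr_of_eventuallyEq (Eventually.of_forall fun s => ?_)
    · have e : r ^ N = r ^ (N - 1) * r := by rw [← pow_succ]; congr 1; omega
      simp only [Pi.mul_apply]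
      rw [e, omLap]; ring
    · have e : s ^ N = s ^ (N - 1) * s := by rw [← pow_succ]; congr 1; omega
      simp only [Pi.mul_apply]
      rw [e]; ring

theorem omLap_ge {N : ℕ} (hN : 1 ≤ N) {c : ℝ} (hc : 1 ≤ c) {r : ℝ} (hr : 0 ≤ r) :
    2 * (LL c r * om c r) ≤ omLap N c r := by
  have hN' : (1:ℝ) ≤ N := by exact_mod_cast hN
  have hE := EE_pos r
  have hE1 := EE_ge r
  have hL := LL_pos c r
  have ho := om_pos c r
  have h1 : LL c r * om c r ≤ N * (EE r * LL c r * om c r) := by
    calc LL c r * om c r = 1 * (1 * (LL c r * om c r)) := by ring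
      _ ≤ N * (EE r * (LL c r * om c r)) := by
          refine mul_le_mul hN' (mul_le_mul_of_nonneg_right hE1 (by positivity)) (by positivity)
            (by positivity)
      _ = _ := by ring
  have h2 : 0 ≤ r * ((2 * r * EE r * LL c r + EE r * (2 * c * r * EE r * LL c r)) * om c r +
      EE r * LL c r * (2 * c * r * EE r * LL c r * om c r)) := by positivity
  have h3 : LL c r * om c r ≤ N * (EE r * LL c r * om c r) +
    r * ((2 * r * EE r * LL c r + EE r * (2 * c * r * EE r * LL c r)) * om c r +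
      EE r * LL c r * (2 * c * r * EE r * LL c r * om c r)) := by linarith
  rw [omLap]
  have h4 : 0 ≤ LL c r * om c r := by positivity
  nlinarith

/-- comparison of two chains. -/
theorem chain_cmp {m : ℕ} (hm : 1 ≤ m) {c : ℝ} (hc : 1 ≤ c) {w z : ℕ → ℝ → ℝ}
    (hw : ∀ i < m, RadLap (2 * m) (w i) (w (i + 1)))
    (hz : ∀ i < m, RadLap (2 * m) (z i) (z (i + 1)))
    (h0 : ∀ i < m, w i 0 = z i 0) {C : ℝ} (hC : 0 ≤ C)
    (htop : ∀ r : ℝ, 0 < r → w m r - z m r ≤ C * (LL c r * om c r)) :
    ∀ r : ℝ, 0 ≤ r → w 0 r - z 0 r ≤ C / 2 * om c r := by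
  have main : ∀ k, k + 1 ≤ m → ∀ r : ℝ, 0 ≤ r →
      w (m - 1 - k) r - z (m - 1 - k) r ≤ C / 2 * om c r := by
    intro k
    induction k with
    | zero =>
      intro _ r hr
      have e : m - 1 - 0 + 1 = m := by omega
      have h1 := (hw (m - 1 - 0) (by omega)).sub (hz (m - 1 - 0) (by omega))
      have h2 := (om_radLap (N := 2 * m) (by omega) c).const_mul (C / 2)
      have h3 := h1.cmp h2 (fun s hs => ?_) r hr
      · have := h0 (m - 1 - 0) (by omega)
        have h4 := om_pos c 0
        have h5 : 0 ≤ C / 2 * om c 0 := by positivity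
        linarith
      · rw [e]
        have h4 := htop s hs
        have h5 := omLap_ge (N := 2 * m) (by omega) hc hs.le
        have h6 : C / 2 * (2 * (LL c s * om c s)) ≤ C / 2 * omLap (2 * m) c s :=
          mul_le_mul_of_nonneg_left h5 (by linarith)
        linarith
    | succ k ih =>
      intro hk r hr
      have ih' := ih (by omega)
      have e : m - 1 - (k + 1) + 1 = m - 1 - k := by omega
      have h1 := (hw (m - 1 - (k + 1)) (by omega)).sub (hz (m - 1 - (k + 1)) (by omega))
      have h2 := (om_radLap (N := 2 * m) (by omega) c).const_mul (C / 2)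
      have h3 := h1.cmp h2 (fun s hs => ?_) r hr
      · have := h0 (m - 1 - (k + 1)) (by omega)
        have h4 := om_pos c 0
        have h5 : 0 ≤ C / 2 * om c 0 := by positivity
        linarith
      · rw [e]
        have h4 := ih' s hs.le
        have h5 := omLap_ge (N := 2 * m) (by omega) hc hs.le
        have h6 : C / 2 * (2 * (LL c s * om c s)) ≤ C / 2 * omLap (2 * m) c s :=
          mul_le_mul_of_nonneg_left h5 (by linarith)
        have h7 : om c s ≤ LL c s * om c s := by
          have := LL_ge (c := c) (by linarith) s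
          have := om_pos c s
          nlinarith
        have h8 : C / 2 * om c s ≤ C / 2 * (LL c s * om c s) :=
          mul_le_mul_of_nonneg_left h7 (by linarith)
        have h9 : 0 ≤ C / 2 * (LL c s * om c s) :=
          mul_nonneg (by linarith) (mul_pos (LL_pos _ _) (om_pos _ _)).le
        linarith
  have := main (m - 1) (by omega)
  have e0 : m - 1 - (m - 1) = 0 := by omega
  rwa [e0] at this

theorem abs_radLap_EE {N : ℕ} (hN : 1 ≤ N) {f g : ℝ → ℝ} (h : RadLap N f g) {C : ℝ}
    (hC : 0 ≤ C) (hg : ∀ r : ℝ, 0 ≤ r → |g r| ≤ C * EE r) :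
    ∀ r : ℝ, 0 ≤ r → |f r| ≤ (|f 0| + C) * EE r := by
  intro r hr
  have hN' : (1:ℝ) ≤ N := by exact_mod_cast hN
  have hE := (EE_radLap hN).const_mul C
  have hlow : ∀ s : ℝ, 0 < s → C * EE s ≤ C * ((2 * N + 4 * s ^ 2) * EE s) := by
    intro s hs
    refine mul_le_mul_of_nonneg_left ?_ hC
    have := EE_pos s
    nlinarith [mul_pos this (by positivity : 0 < s ^ 2)]
  have h1 := h.cmp hE (fun s hs => ((abs_le.1 (hg s hs.le)).2).trans (hlow s hs)) r hr
  have h2 := h.neg.cmp hE (fun s hs => by
    have := (abs_le.1 (hg s hs.le)).1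
    linarith [hlow s hs]) r hr
  have hE0 := EE_ge 0
  have hEr := EE_ge r
  have h3 : 0 ≤ C * EE 0 := mul_nonneg hC (EE_pos 0).le
  have h4 : |f 0| ≤ |f 0| * EE r := le_mul_of_one_le_right (abs_nonneg _) hEr
  rw [abs_le]
  constructor
  · have := neg_abs_le (f 0)
    nlinarith
  · have := le_abs_self (f 0)
    nlinarith

/-- bound for the polynomial part. -/
theorem poly_bound {m : ℕ} (hm : 1 ≤ m) (a : Fin m → ℝ) : ∃ c : ℝ, 1 ≤ c ∧ ∀ r : ℝ, 0 ≤ r →
    |wch m a (fun _ => 0) 0 r| ≤ c * EE r := by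
  have main : ∀ k, k ≤ m → ∃ C : ℝ, 0 ≤ C ∧ ∀ r : ℝ, 0 ≤ r →
      |wch m a (fun _ => 0) (m - k) r| ≤ C * EE r := by
    intro k
    induction k with
    | zero =>
      intro _
      refine ⟨0, le_rfl, fun r hr => ?_⟩
      simp [wch_top]
    | succ k ih =>
      intro hk
      obtain ⟨C, hC, ih⟩ := ih (by omega)
      have e : m - (k + 1) + 1 = m - k := by omega
      have h := wch_radLap (a := a) (g := fun _ => (0:ℝ)) continuous_const
        (i := m - (k + 1)) (by omega)
      rw [e] at h
      exact ⟨_, add_nonneg (abs_nonneg _) hC, abs_radLap_EE (by omega) h hC ih⟩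
  obtain ⟨C, hC, h⟩ := main m le_rfl
  rw [Nat.sub_self] at h
  refine ⟨C + 1, by linarith, fun r hr => (h r hr).trans ?_⟩
  have := EE_pos r
  nlinarith

theorem exp_lip {x y p : ℝ} (hx : x ≤ p) (hy : y ≤ p) :
    |Real.exp x - Real.exp y| ≤ Real.exp p * |x - y| := by
  have key : ∀ x y : ℝ, x ≤ y → y ≤ p → Real.exp y - Real.exp x ≤ Real.exp p * (y - x) := by
    intro x y hxy hyp
    have h1 : Real.exp x = Real.exp y * Real.exp (x - y) := by
      rw [← Real.exp_add]; congr 1; ring
    have h2 : x - y + 1 ≤ Real.exp (x - y) := Real.add_one_le_exp _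
    have h3 : Real.exp y ≤ Real.exp p := Real.exp_le_exp.2 hyp
    have h4 := Real.exp_pos y
    calc Real.exp y - Real.exp x = Real.exp y * (1 - Real.exp (x - y)) := by rw [h1]; ring
      _ ≤ Real.exp y * (y - x) := mul_le_mul_of_nonneg_left (by linarith) h4.le
      _ ≤ Real.exp p * (y - x) := mul_le_mul_of_nonneg_right h3 (by linarith)
  rcases le_total x y with h | h
  · rw [abs_sub_comm, abs_sub_comm x y, abs_of_nonneg (sub_nonneg.2 (Real.exp_le_exp.2 h)),
      abs_of_nonneg (sub_nonneg.2 h)]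
    exact key x y h hy
  · rw [abs_of_nonneg (sub_nonneg.2 (Real.exp_le_exp.2 h)), abs_of_nonneg (sub_nonneg.2 h)]
    exact key y x h hx

theorem abs_min_sub_min (x y p : ℝ) : |min x p - min y p| ≤ |x - y| := by
  rw [abs_le]
  constructor
  · have h1 := neg_abs_le (x - y)
    rcases le_total x p with h | h
    · rw [min_eq_left h]
      have := min_le_left y p
      linarith
    · rw [min_eq_right h]
      have := min_le_right y p
      have := abs_nonneg (x - y)
      linarith
  · have h1 := le_abs_self (x - y)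
    rcases le_total y p with h | h
    · rw [min_eq_left h]
      have := min_le_left x p
      linarith
    · rw [min_eq_right h]
      have := min_le_right x p
      have := abs_nonneg (x - y)
      linarith

end Pool.Agent.X102.QV
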