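import Mathlib
import Pool.Agent.X102.QV4

open Set Filter Topology MeasureTheory
open scoped BoundedContinuousFunction

namespace Pool.Agent.X102.QV

/-- the polynomial part. -/
noncomputable def pol (m : ℕ) (a : Fin m → ℝ) : ℝ → ℝ := wch m a (fun _ => 0) 0

theorem pol_continuous {m : ℕ} {a : Fin m → ℝ} : Continuous (pol m a) :=
  bch_continuous continuous_const _

/-- the truncated exponential nonlinearity. -/
noncomputable def gv (m : ℕ) (a : Fin m → ℝ) (c : ℝ) (v : ℝ → ℝ) : ℝ → ℝ := fun t =>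
  Real.exp (min (om c t * v t) (pol m a t))

theorem gv_continuous {m : ℕ} {a : Fin m → ℝ} {c : ℝ} {v : ℝ → ℝ} (hv : Continuous v) :
    Continuous (gv m a c v) := by
  have := om_continuous c
  have := pol_continuous (m := m) (a := a)
  exact Real.continuous_exp.comp ((by fun_prop : Continuous fun t => om c t * v t).min this)

theorem om_abs (c r : ℝ) : om c |r| = om c r := by simp [om, LL, EE]

section
variable {m : ℕ} {a : Fin m → ℝ} {c : ℝ}

theorem exp_pol_le (hp : ∀ r : ℝ, 0 ≤ r → |pol m a r| ≤ c * EE r) {r : ℝ} (hr : 0 ≤ r) :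
    Real.exp (pol m a r) ≤ LL c r :=
  Real.exp_le_exp.2 ((le_abs_self _).trans (hp r hr))

theorem gv_le (hp : ∀ r : ℝ, 0 ≤ r → |pol m a r| ≤ c * EE r) (v : ℝ → ℝ) {r : ℝ} (hr : 0 ≤ r) :
    gv m a c v r ≤ LL c r :=
  (Real.exp_le_exp.2 (min_le_right _ _)).trans (exp_pol_le hp hr)

theorem LL_le_mul (_hc : 1 ≤ c) (r : ℝ) : LL c r ≤ LL c r * om c r := by
  have h1 : 1 ≤ om c r := Real.one_le_exp (LL_pos c r).le
  have h2 := LL_pos c r
  nlinarith

theorem sub_pol_bound (hm : 1 ≤ m) (hc : 1 ≤ c) {g : ℝ → ℝ} {w : ℕ → ℝ → ℝ}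
    (hw : ∀ i < m, RadLap (2 * m) (w i) (w (i + 1))) (ha : ∀ i : Fin m, w i 0 = a i)
    (htop : ∀ r : ℝ, 0 < r → w m r = - g r) (hg0 : ∀ r : ℝ, 0 < r → 0 ≤ g r)
    (hg : ∀ r : ℝ, 0 < r → g r ≤ LL c r) :
    ∀ r : ℝ, 0 ≤ r → w 0 r ≤ pol m a r ∧ pol m a r ≤ w 0 r + 1 / 2 * om c r := by
  have hz : ∀ i < m, RadLap (2 * m) (wch m a (fun _ => (0:ℝ)) i) (wch m a (fun _ => (0:ℝ)) (i + 1)) :=
    fun i hi => wch_radLap continuous_const hi
  have h0 : ∀ i < m, w i 0 = wch m a (fun _ => (0:ℝ)) i 0 := by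
    intro i hi
    rw [wch_zero hi]; exact ha ⟨i, hi⟩
  intro r hr
  constructor
  · have := chain_cmp hm hc hw hz h0 (C := 0) le_rfl (fun s hs => ?_) r hr
    · rw [pol]; linarith
    · rw [htop s hs, wch_top]
      have := hg0 s hs
      linarith
  · have := chain_cmp hm hc hz hw (fun i hi => (h0 i hi).symm) (C := 1) zero_le_one
      (fun s hs => ?_) r hr
    · rw [pol]; linarith
    · rw [htop s hs, wch_top]
      have h1 := hg s hs
      have h2 := LL_le_mul hc s
      linarith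

/-- existence. -/
theorem exists_sol (hm : 1 ≤ m) (a : Fin m → ℝ) : ∃ u : ℝ → ℝ, IsSol m a u := by
  obtain ⟨c, hc, hp⟩ := poly_bound hm a
  have hp' : ∀ r : ℝ, 0 ≤ r → |pol m a r| ≤ c * EE r := hp
  have hWc : ∀ v : ℝ →ᵇ ℝ, Continuous (wch m a (gv m a c v) 0) := fun v =>
    bch_continuous (gv_continuous v.continuous) _
  have hch : ∀ v : ℝ →ᵇ ℝ, ∀ i < m, RadLap (2 * m) (wch m a (gv m a c v) i)
      (wch m a (gv m a c v) (i + 1)) := fun v i hi => wch_radLap (gv_continuous v.continuous) hi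
  have hb : ∀ v : ℝ →ᵇ ℝ, ∀ r : ℝ, 0 ≤ r → wch m a (gv m a c v) 0 r ≤ pol m a r ∧
      pol m a r ≤ wch m a (gv m a c v) 0 r + 1 / 2 * om c r := fun v =>
    sub_pol_bound hm hc (g := gv m a c v) (hch v) (fun i => wch_zero i.2)
      (fun r _ => by rw [wch_top]) (fun r _ => (Real.exp_pos _).le)
      (fun r hr => gv_le hp' v hr.le)
  have hpol : ∀ r : ℝ, 0 ≤ r → |pol m a r| ≤ om c r := by
    intro r hr
    refine (hp' r hr).trans ?_
    have h1 : c * EE r ≤ LL c r := by
      have := Real.add_one_le_exp (c * EE r); rw [LL]; linarith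
    have h2 : LL c r ≤ om c r := by
      have := Real.add_one_le_exp (LL c r); rw [om]; linarith
    exact h1.trans h2
  have hW : ∀ v : ℝ →ᵇ ℝ, ∀ r : ℝ, 0 ≤ r → |wch m a (gv m a c v) 0 r| ≤ 2 * om c r := by
    intro v r hr
    obtain ⟨h1, h2⟩ := hb v r hr
    have h3 := abs_le.1 (hpol r hr)
    have h4 := om_pos c r
    rw [abs_le]
    constructor <;> linarith [h3.1, h3.2]
  let T : (ℝ →ᵇ ℝ) → (ℝ →ᵇ ℝ) := fun v =>
    BoundedContinuousFunction.ofNormedAddCommGroup
      (fun r => wch m a (gv m a c v) 0 |r| / om c r)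
      (((hWc v).comp continuous_abs).div (om_continuous c) (fun r => (om_pos c r).ne')) 2
      (fun r => by
        rw [Real.norm_eq_abs, abs_div, abs_of_pos (om_pos c r), div_le_iff₀ (om_pos c r)]
        have := hW v |r| (abs_nonneg _)
        rwa [om_abs] at this)
  have hTdef : ∀ v r, T v r = wch m a (gv m a c v) 0 |r| / om c r := fun v r => rfl
  have hLip : ∀ v v' : ℝ →ᵇ ℝ, ∀ r : ℝ, 0 ≤ r →
      wch m a (gv m a c v) 0 r - wch m a (gv m a c v') 0 r ≤ dist v v' / 2 * om c r := by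
    intro v v' r hr
    refine chain_cmp hm hc (hch v) (hch v') (fun i hi => by rw [wch_zero hi, wch_zero hi])
      dist_nonneg (fun s hs => ?_) r hr
    rw [wch_top, wch_top]
    have h1 : |gv m a c v' s - gv m a c v s| ≤ Real.exp (pol m a s) *
        |min (om c s * v' s) (pol m a s) - min (om c s * v s) (pol m a s)| :=
      exp_lip (min_le_right _ _) (min_le_right _ _)
    have h2 := abs_min_sub_min (om c s * v' s) (om c s * v s) (pol m a s)
    have h3 : |om c s * v' s - om c s * v s| ≤ om c s * dist v v' := by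
      rw [← mul_sub, abs_mul, abs_of_pos (om_pos c s)]
      refine mul_le_mul_of_nonneg_left ?_ (om_pos c s).le
      rw [abs_sub_comm, ← Real.dist_eq]
      exact BoundedContinuousFunction.dist_coe_le_dist s
    have h4 := exp_pol_le hp' hs.le
    have h5 : Real.exp (pol m a s) *
        |min (om c s * v' s) (pol m a s) - min (om c s * v s) (pol m a s)| ≤
        LL c s * (om c s * dist v v') :=
      mul_le_mul h4 (h2.trans h3) (abs_nonneg _) (LL_pos _ _).le
    have h6 := le_abs_self (gv m a c v' s - gv m a c v s)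
    calc -gv m a c v s - -gv m a c v' s = gv m a c v' s - gv m a c v s := by ring
      _ ≤ LL c s * (om c s * dist v v') := by linarith
      _ = _ := by ring
  have hcon : ContractingWith (1 / 2) T := by
    refine ⟨by
      rw [← NNReal.coe_lt_coe]; norm_num, LipschitzWith.of_dist_le_mul fun v v' => ?_⟩
    rw [BoundedContinuousFunction.dist_le (by positivity)]
    intro r
    rw [hTdef, hTdef, Real.dist_eq, ← sub_div, abs_div, abs_of_pos (om_pos c r),
      div_le_iff₀ (om_pos c r)]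
    have h1 := hLip v v' |r| (abs_nonneg _)
    have h2 := hLip v' v |r| (abs_nonneg _)
    rw [om_abs] at h1 h2
    rw [dist_comm v' v] at h2
    rw [abs_le]
    have h3 : (((1 / 2 : NNReal) : NNReal) : ℝ) = 1 / 2 := by norm_num
    rw [h3]
    constructor <;> linarith
  set v : ℝ →ᵇ ℝ := hcon.fixedPoint with hv
  have hfix : T v = v := hcon.fixedPoint_isFixedPt
  have hval : ∀ r : ℝ, 0 ≤ r → om c r * v r = wch m a (gv m a c v) 0 r := by
    intro r hr
    have h1 : v r = T v r := by rw [hfix]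
    rw [h1, hTdef, abs_of_nonneg hr]
    field_simp [(om_pos c r).ne']
  refine ⟨wch m a (gv m a c v) 0, wch m a (gv m a c v), rfl, fun i => wch_zero i.2, hch v,
    fun r hr => ?_⟩
  rw [wch_top]
  simp only
  rw [gv, hval r hr.le, min_eq_left (hb v r hr.le).1]

/-- uniqueness. -/
theorem unique_sol (hm : 1 ≤ m) {a : Fin m → ℝ} {u v : ℝ → ℝ} (hu : IsSol m a u)
    (hv : IsSol m a v) : ∀ r : ℝ, 0 ≤ r → u r = v r := by
  obtain ⟨c, hc, hp⟩ := poly_bound hm a
  have hp' : ∀ r : ℝ, 0 ≤ r → |pol m a r| ≤ c * EE r := hp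
  obtain ⟨w, hw0, hwa, hw, hwl⟩ := hu
  obtain ⟨z, hz0, hza, hz, hzl⟩ := hv
  have up : ∀ (w : ℕ → ℝ → ℝ), (∀ i : Fin m, w i 0 = a i) →
      (∀ i < m, RadLap (2 * m) (w i) (w (i + 1))) →
      (∀ r : ℝ, 0 < r → w m r = - Real.exp (w 0 r)) → ∀ r : ℝ, 0 ≤ r → w 0 r ≤ pol m a r := by
    intro w hwa hw hwl r hr
    have hz : ∀ i < m, RadLap (2 * m) (wch m a (fun _ => (0:ℝ)) i)
      (wch m a (fun _ => (0:ℝ)) (i + 1)) := fun i hi => wch_radLap continuous_const hi
    have := chain_cmp hm hc hw hz (fun i hi => by rw [wch_zero hi]; exact hwa ⟨i, hi⟩)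
      (C := 0) le_rfl (fun s hs => ?_) r hr
    · rw [pol]; linarith
    · rw [hwl s hs, wch_top]
      have := Real.exp_pos (w 0 s)
      linarith
  have hwl' : ∀ r : ℝ, 0 < r → w m r = - Real.exp (w 0 r) := by rw [hw0]; exact hwl
  have hzl' : ∀ r : ℝ, 0 < r → z m r = - Real.exp (z 0 r) := by rw [hz0]; exact hzl
  have uw := up w hwa hw hwl'
  have uz := up z hza hz hzl'
  have bw := sub_pol_bound hm hc hw hwa hwl' (fun r _ => (Real.exp_pos _).le)
    (fun r hr => (Real.exp_le_exp.2 (uw r hr.le)).trans (exp_pol_le hp' hr.le))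
  have bz := sub_pol_bound hm hc hz hza hzl' (fun r _ => (Real.exp_pos _).le)
    (fun r hr => (Real.exp_le_exp.2 (uz r hr.le)).trans (exp_pol_le hp' hr.le))
  have main : ∀ n : ℕ, ∀ r : ℝ, 0 ≤ r → |w 0 r - z 0 r| ≤ (1 / 2 : ℝ) ^ n * om c r := by
    intro n
    induction n with
    | zero =>
      intro r hr
      have h1 := bw r hr
      have h2 := bz r hr
      have := om_pos c r
      rw [abs_le]
      constructor <;> linarith [h1.1, h1.2, h2.1, h2.2]
    | succ n ih =>
      intro r hr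
      have step : ∀ (w z : ℕ → ℝ → ℝ), (∀ i < m, RadLap (2 * m) (w i) (w (i + 1))) →
          (∀ i < m, RadLap (2 * m) (z i) (z (i + 1))) → (∀ i < m, w i 0 = z i 0) →
          (∀ r : ℝ, 0 < r → w m r = - Real.exp (w 0 r)) →
          (∀ r : ℝ, 0 < r → z m r = - Real.exp (z 0 r)) →
          (∀ r : ℝ, 0 ≤ r → w 0 r ≤ pol m a r) → (∀ r : ℝ, 0 ≤ r → z 0 r ≤ pol m a r) →
          (∀ r : ℝ, 0 ≤ r → |w 0 r - z 0 r| ≤ (1 / 2 : ℝ) ^ n * om c r) →
          w 0 r - z 0 r ≤ (1 / 2 : ℝ) ^ (n + 1) * om c r := by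
        intro w z hw hz h0 hwl hzl uw uz ih
        have := chain_cmp hm hc hw hz h0 (C := (1 / 2 : ℝ) ^ n) (by positivity)
          (fun s hs => ?_) r hr
        · have e : (1 / 2 : ℝ) ^ (n + 1) = (1 / 2 : ℝ) ^ n / 2 := by rw [pow_succ]; ring
          rw [e]; exact this
        · rw [hwl s hs, hzl s hs]
          have h1 := exp_lip (uz s hs.le) (uw s hs.le)
          have h2 := exp_pol_le hp' hs.le
          have h3 : |z 0 s - w 0 s| ≤ (1 / 2 : ℝ) ^ n * om c s := by
            rw [abs_sub_comm]; exact ih s hs.le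
          have h4 : Real.exp (pol m a s) * |z 0 s - w 0 s| ≤ LL c s * ((1 / 2 : ℝ) ^ n * om c s) :=
            mul_le_mul h2 h3 (abs_nonneg _) (LL_pos _ _).le
          have h5 := le_abs_self (Real.exp (z 0 s) - Real.exp (w 0 s))
          calc -Real.exp (w 0 s) - -Real.exp (z 0 s) = Real.exp (z 0 s) - Real.exp (w 0 s) := by ring
            _ ≤ LL c s * ((1 / 2 : ℝ) ^ n * om c s) := by linarith
            _ = _ := by ring
      have hsame : ∀ i < m, w i 0 = z i 0 := fun i hi => by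
        have h1 := hwa ⟨i, hi⟩
        have h2 := hza ⟨i, hi⟩
        simp only at h1 h2
        rw [h1, h2]
      have s1 := step w z hw hz hsame hwl' hzl' uw uz ih
      have s2 := step z w hz hw (fun i hi => (hsame i hi).symm) hzl' hwl' uz uw
        (fun r hr => by rw [abs_sub_comm]; exact ih r hr)
      rw [abs_le]
      constructor <;> linarith
  intro r hr
  have h1 : Tendsto (fun n : ℕ => (1 / 2 : ℝ) ^ n * om c r) atTop (𝓝 (0 * om c r)) :=
    (tendsto_pow_atTop_nhds_zero_of_lt_one (by norm_num) (by norm_num)).mul_const _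
  have h2 : |w 0 r - z 0 r| ≤ 0 * om c r := ge_of_tendsto' h1 (fun n => main n r hr)
  rw [zero_mul] at h2
  have h3 := abs_eq_zero.1 (le_antisymm h2 (abs_nonneg _))
  rw [← hw0, ← hz0]
  linarith

end

/-- the total volume. -/
noncomputable def Vol (m : ℕ) (u : ℝ → ℝ) : ENNReal :=
  ∫⁻ x : EuclideanSpace ℝ (Fin (2 * m)), ENNReal.ofReal (Real.exp (u ‖x‖))

theorem vol_eq {m : ℕ} (hm : 1 ≤ m) {a : Fin m → ℝ} {u : ℝ → ℝ} (hu : IsSol m a u) :
    Vol m u = ENNReal.ofReal (((2 * m : ℕ) * (volume.real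
      (Metric.ball (0 : EuclideanSpace ℝ (Fin (2 * m))) 1))) * Tot m u) := by
  obtain ⟨w, hw0, hwa, hw, hwl⟩ := hu
  have hwl' : ∀ r : ℝ, 0 < r → w m r = - Real.exp (w 0 r) := by rw [hw0]; exact hwl
  have hint := sol_integrable hm hw hwl'
  rw [hw0] at hint
  have : Nonempty (Fin (2 * m)) := ⟨⟨0, by omega⟩⟩
  have : Nontrivial (EuclideanSpace ℝ (Fin (2 * m))) := inferInstance
  have hdim : Module.finrank ℝ (EuclideanSpace ℝ (Fin (2 * m))) = 2 * m := by simp
  have hI : Integrable (fun x : EuclideanSpace ℝ (Fin (2 * m)) => Real.exp (u ‖x‖)) volume := by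
    rw [integrable_fun_norm_addHaar (volume : Measure (EuclideanSpace ℝ (Fin (2 * m))))
      (f := fun r => Real.exp (u r)), hdim]
    simpa only [smul_eq_mul] using hint
  rw [Vol, ← ofReal_integral_eq_lintegral_ofReal hI (Eventually.of_forall fun x =>
    (Real.exp_pos _).le)]
  congr 1
  rw [integral_fun_norm_addHaar (volume : Measure (EuclideanSpace ℝ (Fin (2 * m))))
    (fun r => Real.exp (u r)), hdim]
  simp only [smul_eq_mul, nsmul_eq_mul, Tot]
  ring

/-- the segment of initial data. -/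
noncomputable def seg (m : ℕ) (K τ : ℝ) : Fin m → ℝ := fun i =>
  if (i : ℕ) = m - 1 then τ else if (i : ℕ) = m - 2 then -K else 0

theorem seg_continuous (m : ℕ) (K : ℝ) : Continuous (seg m K) := by
  refine continuous_pi fun i => ?_
  unfold seg
  split_ifs
  · exact continuous_id
  · exact continuous_const
  · exact continuous_const

theorem tot_nonneg (m : ℕ) (u : ℝ → ℝ) : 0 ≤ Tot m u := by
  refine setIntegral_nonneg measurableSet_Ioi fun r hr => ?_
  exact mul_nonneg (pow_nonneg (le_of_lt hr) _) (Real.exp_pos _).le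

theorem not_continuous {m : ℕ} (hm : 3 ≤ m) (u : (Fin m → ℝ) → ℝ → ℝ)
    (hu : ∀ a, IsSol m a (u a)) : ∃ a, ¬ ContinuousAt (fun b => Vol m (u b)) a := by
  by_contra hcon
  push Not at hcon
  obtain ⟨K, B, hj⟩ := jump hm
  have hc : Continuous (fun b => Vol m (u b)) := continuous_iff_continuousAt.2 hcon
  have hg : Continuous (fun τ : ℝ => Vol m (u (seg m K τ))) := hc.comp (seg_continuous m K)
  set cm : ℝ := ((2 * m : ℕ) * (volume.real
      (Metric.ball (0 : EuclideanSpace ℝ (Fin (2 * m))) 1))) with hcm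
  have : Nonempty (Fin (2 * m)) := ⟨⟨0, by omega⟩⟩
  have hcm0 : 0 < cm := by
    have h1 : (0:ℝ) < (2 * m : ℕ) := by exact_mod_cast (by omega : 0 < 2 * m)
    have h2 : 0 < volume.real (Metric.ball (0 : EuclideanSpace ℝ (Fin (2 * m))) 1) := by
      rw [Measure.real, ENNReal.toReal_pos_iff]
      exact ⟨Metric.measure_ball_pos _ _ one_pos, measure_ball_lt_top⟩
    exact mul_pos h1 h2
  have hv : ∀ τ : ℝ, Vol m (u (seg m K τ)) = ENNReal.ofReal (cm * Tot m (u (seg m K τ))) :=
    fun τ => vol_eq (by omega) (hu _)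
  have hjump : ∀ τ : ℝ, (τ ≤ 1 → Tot m (u (seg m K τ)) ≤ B → Tot m (u (seg m K τ)) < B) ∧
      (τ ≤ 0 → Tot m (u (seg m K τ)) < B) ∧ (τ = 1 → B < Tot m (u (seg m K τ))) := by
    intro τ
    obtain ⟨w, hw0, hwa, hw, hwl⟩ := hu (seg m K τ)
    have hwl' : ∀ r : ℝ, 0 < r → w m r = - Real.exp (w 0 r) := by rw [hw0]; exact hwl
    have h1 : ∀ i < m - 2, w i 0 = 0 := by
      intro i hi
      have := hwa ⟨i, by omega⟩
      simp only at this
      rw [this, seg, if_neg (by simp only; omega), if_neg (by simp only; omega)]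
    have h2 : w (m - 2) 0 = -K := by
      have := hwa ⟨m - 2, by omega⟩
      simp only at this
      rw [this, seg, if_neg (by simp only; omega), if_pos rfl]
    have h3 : w (m - 1) 0 = τ := by
      have := hwa ⟨m - 1, by omega⟩
      simp only at this
      rw [this, seg, if_pos rfl]
    have := hj w hw hwl' h1 h2
    rw [h3, hw0] at this
    exact this
  have hB0 : 0 < B := lt_of_le_of_lt (tot_nonneg _ _) ((hjump 0).2.1 le_rfl)
  have hIVT := intermediate_value_Icc (zero_le_one' ℝ) hg.continuousOn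
  have hmem : ENNReal.ofReal (cm * B) ∈ Icc (Vol m (u (seg m K 0))) (Vol m (u (seg m K 1))) := by
    rw [hv, hv]
    constructor
    · exact ENNReal.ofReal_le_ofReal
        (mul_le_mul_of_nonneg_left ((hjump 0).2.1 le_rfl).le hcm0.le)
    · exact ENNReal.ofReal_le_ofReal
        (mul_le_mul_of_nonneg_left ((hjump 1).2.2 rfl).le hcm0.le)
  obtain ⟨τ, hτ, hτe⟩ := hIVT hmem
  simp only at hτe
  rw [hv, ENNReal.ofReal_eq_ofReal_iff (mul_nonneg hcm0.le (tot_nonneg _ _))
    (mul_nonneg hcm0.le hB0.le)] at hτe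
  have he : Tot m (u (seg m K τ)) = B := mul_left_cancel₀ hcm0.ne' hτe
  have := (hjump τ).1 hτ.2 he.le
  linarith

end Pool.Agent.X102.QV
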