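import Mathlib

set_option autoImplicit false

open MeasureTheory Filter Topology Set
open scoped ENNReal NNReal

namespace Pool.Agent.X102.Pz

/-- Euclidean 3-space. -/
abbrev E := EuclideanSpace ℝ (Fin 3)

lemma finrank_E : Module.finrank ℝ E = 3 := finrank_euclideanSpace_fin

lemma map_dil {l : ℝ} (hl : 0 < l) :
    Measure.map (fun x : E => l • x) volume = ENNReal.ofReal ((l ^ 3)⁻¹) • (volume : Measure E) := by
  rw [Measure.map_addHaar_smul volume hl.ne', finrank_E, abs_of_pos (by positivity)]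

lemma emb_dil {l : ℝ} (hl : 0 < l) : MeasurableEmbedding (fun x : E => l • x) :=
  (Homeomorph.smulOfNeZero l hl.ne').measurableEmbedding

lemma lintegral_dil (f : E → ℝ≥0∞) {l : ℝ} (hl : 0 < l) :
    ∫⁻ x, f (l • x) = ENNReal.ofReal ((l ^ 3)⁻¹) * ∫⁻ x, f x := by
  rw [← (emb_dil hl).lintegral_map f, map_dil hl, lintegral_smul_measure, smul_eq_mul]

lemma eLpNorm_dil {F : Type*} [NormedAddCommGroup F] (f : E → F) {l : ℝ} (hl : 0 < l)
    {p : ℝ≥0∞} (hp : p ≠ ∞) :
    eLpNorm (fun x => f (l • x)) p volume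
      = ENNReal.ofReal ((l ^ 3)⁻¹) ^ (1 / p.toReal) * eLpNorm f p volume := by
  have h := (emb_dil hl).eLpNorm_map_measure (g := f) (p := p) (μ := volume)
  rw [map_dil hl] at h
  have h2 : eLpNorm (f ∘ fun x : E => l • x) p volume = eLpNorm (fun x => f (l • x)) p volume := rfl
  rw [← h2, ← h, eLpNorm_smul_measure_of_ne_top hp, smul_eq_mul, ENNReal.toReal_div,
    ENNReal.toReal_one]

lemma aesm_dil {F : Type*} [NormedAddCommGroup F] {f : E → F} (hf : AEStronglyMeasurable f volume)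
    {l : ℝ} (hl : 0 < l) : AEStronglyMeasurable (fun x => f (l • x)) volume := by
  have hq : Measure.QuasiMeasurePreserving (fun x : E => l • x) volume volume := by
    refine ⟨(emb_dil hl).measurable, ?_⟩
    rw [map_dil hl]
    exact Measure.smul_absolutelyContinuous
  exact hf.comp_quasiMeasurePreserving hq

lemma ae_dil {P : E → Prop} (h : ∀ᵐ x : E, P x) {l : ℝ} (hl : 0 < l) : ∀ᵐ x : E, P (l • x) := by
  have hq : Measure.QuasiMeasurePreserving (fun x : E => l • x) volume volume := by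
    refine ⟨(emb_dil hl).measurable, ?_⟩
    rw [map_dil hl]
    exact Measure.smul_absolutelyContinuous
  exact hq.ae h

/-- Minkowski's inequality along dilations. -/
lemma mink {S : Set ℝ} (hS : MeasurableSet S) (hS0 : S ⊆ Ioi 0) {h : E → ℝ≥0∞}
    (hh : Measurable h) :
    ∫⁻ x, (∫⁻ m in S, h (m • x)) ^ 2 ≤
      (∫⁻ m in S, ENNReal.ofReal (m ^ (-(3 / 2) : ℝ))) ^ 2 * ∫⁻ x, h x ^ 2 := by
  set A := ∫⁻ m in S, ENNReal.ofReal (m ^ (-(3 / 2) : ℝ)) with hA
  have hjm : Measurable (fun q : E × ℝ => h (q.2 • q.1)) :=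
    hh.comp (measurable_snd.smul measurable_fst)
  have cs : ∀ x : E, (∫⁻ m in S, h (m • x)) ^ 2 ≤
      A * ∫⁻ m in S, ENNReal.ofReal (m ^ (3 / 2 : ℝ)) * h (m • x) ^ 2 := by
    intro x
    have hm1 : Measurable (fun m : ℝ => h (m • x)) := hh.comp (measurable_id.smul_const x)
    have h1 := ENNReal.lintegral_mul_le_Lp_mul_Lq (volume.restrict S) Real.HolderConjugate.two_two
      (f := fun m : ℝ => ENNReal.ofReal (m ^ (-(3 / 4) : ℝ)))
      (g := fun m : ℝ => ENNReal.ofReal (m ^ (3 / 4 : ℝ)) * h (m • x))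
      (by fun_prop) ((Measurable.mul (by fun_prop) hm1).aemeasurable)
    have h2 : ∫⁻ m in S, ((fun m : ℝ => ENNReal.ofReal (m ^ (-(3 / 4) : ℝ))) *
        (fun m : ℝ => ENNReal.ofReal (m ^ (3 / 4 : ℝ)) * h (m • x))) m = ∫⁻ m in S, h (m • x) := by
      apply setLIntegral_congr_fun hS
      intro m hm
      have hm0 : 0 < m := hS0 hm
      simp only [Pi.mul_apply]
      rw [← mul_assoc, ← ENNReal.ofReal_mul (by positivity), ← Real.rpow_add hm0]
      norm_num
    have h3 : ∫⁻ m in S, (ENNReal.ofReal (m ^ (-(3 / 4) : ℝ))) ^ (2 : ℝ) = A := by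
      apply setLIntegral_congr_fun hS
      intro m hm
      have hm0 : 0 < m := hS0 hm
      simp only
      rw [ENNReal.ofReal_rpow_of_nonneg (by positivity) (by norm_num), ← Real.rpow_mul hm0.le]
      norm_num
    have h4 : ∫⁻ m in S, (ENNReal.ofReal (m ^ (3 / 4 : ℝ)) * h (m • x)) ^ (2 : ℝ)
        = ∫⁻ m in S, ENNReal.ofReal (m ^ (3 / 2 : ℝ)) * h (m • x) ^ 2 := by
      apply setLIntegral_congr_fun hS
      intro m hm
      have hm0 : 0 < m := hS0 hm
      simp only
      rw [ENNReal.mul_rpow_of_nonneg _ _ (by norm_num : (0 : ℝ) ≤ 2),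
        ENNReal.ofReal_rpow_of_nonneg (by positivity) (by norm_num), ← Real.rpow_mul hm0.le,
        ENNReal.rpow_two]
      norm_num
    rw [h2, h3, h4] at h1
    calc (∫⁻ m in S, h (m • x)) ^ 2 ≤ (A ^ (1 / 2 : ℝ) *
          (∫⁻ m in S, ENNReal.ofReal (m ^ (3 / 2 : ℝ)) * h (m • x) ^ 2) ^ (1 / 2 : ℝ)) ^ 2 := by
            gcongr
      _ = _ := by
        rw [mul_pow]
        have : ∀ y : ℝ≥0∞, (y ^ (1 / 2 : ℝ)) ^ 2 = y := by
          intro y
          rw [← ENNReal.rpow_natCast, ← ENNReal.rpow_mul]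
          norm_num
        rw [this, this]
  calc ∫⁻ x, (∫⁻ m in S, h (m • x)) ^ 2
      ≤ ∫⁻ x, A * ∫⁻ m in S, ENNReal.ofReal (m ^ (3 / 2 : ℝ)) * h (m • x) ^ 2 := lintegral_mono cs
    _ = A * ∫⁻ x, ∫⁻ m in S, ENNReal.ofReal (m ^ (3 / 2 : ℝ)) * h (m • x) ^ 2 := by
        rw [lintegral_const_mul]
        apply Measurable.lintegral_prod_right'
          (f := fun q : E × ℝ => ENNReal.ofReal (q.2 ^ (3 / 2 : ℝ)) * h (q.2 • q.1) ^ 2)
        exact Measurable.mul (by fun_prop) (hjm.pow_const 2)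
    _ = A * ∫⁻ m in S, ∫⁻ x, ENNReal.ofReal (m ^ (3 / 2 : ℝ)) * h (m • x) ^ 2 := by
        congr 1
        apply lintegral_lintegral_swap
        apply Measurable.aemeasurable
        exact Measurable.mul (by fun_prop) (hjm.pow_const 2)
    _ = A * ∫⁻ m in S, ENNReal.ofReal (m ^ (-(3 / 2) : ℝ)) * ∫⁻ x, h x ^ 2 := by
        congr 1
        apply setLIntegral_congr_fun hS
        intro m hm
        have hm0 : 0 < m := hS0 hm
        simp only
        rw [lintegral_const_mul _ (by fun_prop), lintegral_dil (fun x => h x ^ 2) hm0, ← mul_assoc,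
          ← ENNReal.ofReal_mul (by positivity)]
        congr 2
        have : (m ^ 3)⁻¹ = m ^ (-(3 : ℝ)) := by
          rw [Real.rpow_neg hm0.le]
          norm_cast
        rw [this, ← Real.rpow_add hm0]
        norm_num
    _ = A ^ 2 * ∫⁻ x, h x ^ 2 := by
        rw [lintegral_mul_const _ (by fun_prop), ← mul_assoc, ← hA, sq]

end Pool.Agent.X102.Pz
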