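import Mathlib
import Pool.Agent.X102.PzA

set_option autoImplicit false

open MeasureTheory Filter Topology Set
open scoped ENNReal NNReal

namespace Pool.Agent.X102.Pz

/-- dilated function `l^{1/2} w (l x)` -/
noncomputable def dil (l : ℝ) (w : E → ℝ) (x : E) : ℝ := Real.sqrt l * w (l • x)

/-- dilated gradient `l^{3/2} K (l x)` -/
noncomputable def dilG (l : ℝ) (K : E → E) (x : E) : E := (Real.sqrt l * l) • K (l • x)

lemma hasDerivAt_ray {φ : E → ℝ} (hφ : ContDiff ℝ 1 φ) (x : E) (m : ℝ) :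
    HasDerivAt (fun m : ℝ => φ (m • x)) (inner ℝ (gradient φ (m • x)) x) m := by
  have h1 : HasGradientAt φ (gradient φ (m • x)) (m • x) :=
    ((hφ.differentiable (by norm_num)) (m • x)).hasGradientAt
  have h2 : HasDerivAt (fun m : ℝ => m • x) x m := by
    simpa using (hasDerivAt_id m).smul_const x
  have h3 := h1.hasFDerivAt.comp_hasDerivAt m h2
  exact h3

lemma continuous_gradient {φ : E → ℝ} (hφ : ContDiff ℝ 1 φ) : Continuous (gradient φ) := by
  have h : Continuous (fderiv ℝ φ) := hφ.continuous_fderiv (by norm_num)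
  unfold gradient
  exact (InnerProductSpace.toDual ℝ E).symm.continuous.comp h

lemma norm_gradient (φ : E → ℝ) (x : E) : ‖gradient φ x‖ = ‖fderiv ℝ φ x‖ := by
  unfold gradient
  exact LinearIsometryEquiv.norm_map _ _

lemma enorm_gradient (φ : E → ℝ) (x : E) : ‖gradient φ x‖ₑ = ‖fderiv ℝ φ x‖ₑ := by
  rw [← ofReal_norm, ← ofReal_norm, norm_gradient]

/-- pointwise Hardy estimate -/
lemma hardy_pointwise {φ : E → ℝ} (hφ : ContDiff ℝ 1 φ) (hc : HasCompactSupport φ) {x : E}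
    (hx : x ≠ 0) : ‖φ x / ‖x‖‖ₑ ≤ ∫⁻ m in Ioi (1 : ℝ), ‖gradient φ (m • x)‖ₑ := by
  have hx0 : 0 < ‖x‖ := norm_pos_iff.mpr hx
  obtain ⟨R, hR⟩ := hc.isCompact.isBounded.subset_closedBall (0 : E)
  set M : ℝ := max 1 ((|R| + 1) / ‖x‖) with hM
  have hM1 : 1 ≤ M := le_max_left _ _
  have hMR : |R| + 1 ≤ M * ‖x‖ := by
    have : (|R| + 1) / ‖x‖ ≤ M := le_max_right _ _
    rwa [div_le_iff₀ hx0] at this
  have hz : φ (M • x) = 0 := by
    by_contra hne
    have h1 : M • x ∈ tsupport φ := subset_tsupport _ hne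
    have h2 := hR h1
    rw [mem_closedBall_zero_iff, norm_smul, Real.norm_of_nonneg (by linarith)] at h2
    have := le_abs_self R
    linarith
  have hcont : Continuous (fun m : ℝ => inner ℝ (gradient φ (m • x)) x) := by
    have := continuous_gradient hφ
    exact Continuous.inner (this.comp (continuous_id.smul continuous_const)) continuous_const
  have h1 : ∫ m in (1 : ℝ)..M, inner ℝ (gradient φ (m • x)) x = - φ x := by
    rw [intervalIntegral.integral_eq_sub_of_hasDerivAt (fun m _ => hasDerivAt_ray hφ x m)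
      (hcont.intervalIntegrable _ _), hz, one_smul, zero_sub]
  have h2 : ‖φ x‖ₑ ≤ (∫⁻ m in Ioi (1 : ℝ), ‖gradient φ (m • x)‖ₑ) * ‖x‖ₑ := by
    calc ‖φ x‖ₑ = ‖∫ m in (1 : ℝ)..M, inner ℝ (gradient φ (m • x)) x‖ₑ := by
          rw [h1, enorm_neg]
      _ = ‖∫ m in Ioc (1 : ℝ) M, inner ℝ (gradient φ (m • x)) x‖ₑ := by
          rw [intervalIntegral.integral_of_le hM1]
      _ ≤ ∫⁻ m in Ioc (1 : ℝ) M, ‖(inner ℝ (gradient φ (m • x)) x : ℝ)‖ₑ :=
          enorm_integral_le_lintegral_enorm _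
      _ ≤ ∫⁻ m in Ioi (1 : ℝ), ‖(inner ℝ (gradient φ (m • x)) x : ℝ)‖ₑ :=
          lintegral_mono_set Ioc_subset_Ioi_self
      _ ≤ ∫⁻ m in Ioi (1 : ℝ), ‖gradient φ (m • x)‖ₑ * ‖x‖ₑ := by
          apply lintegral_mono
          intro m
          simp only
          rw [← ofReal_norm, ← ofReal_norm, ← ofReal_norm,
            ← ENNReal.ofReal_mul (norm_nonneg _)]
          exact ENNReal.ofReal_le_ofReal (norm_inner_le_norm _ _)
      _ = _ := by
          rw [lintegral_mul_const]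
          have := continuous_gradient hφ
          exact (this.comp (continuous_id.smul continuous_const)).measurable.enorm
  have h3 : ‖φ x / ‖x‖‖ₑ = ‖φ x‖ₑ / ‖x‖ₑ := by
    rw [← ofReal_norm, norm_div, norm_norm, ENNReal.ofReal_div_of_pos hx0,
      ofReal_norm, ofReal_norm]
  rw [h3]
  exact ENNReal.div_le_of_le_mul h2

lemma int_rpow_Ioi : ∫⁻ m in Ioi (1 : ℝ), ENNReal.ofReal (m ^ (-(3 / 2) : ℝ)) = 2 := by
  rw [← ofReal_integral_eq_lintegral_ofReal]
  · rw [integral_Ioi_rpow_of_lt (by norm_num) (by norm_num)]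
    norm_num
  · exact integrableOn_Ioi_rpow_of_lt (by norm_num) (by norm_num)
  · rw [EventuallyLE, ae_restrict_iff' measurableSet_Ioi]
    refine Eventually.of_forall fun m hm => ?_
    have : (0 : ℝ) < m := lt_trans zero_lt_one hm
    positivity

/-- Hardy inequality for test functions, in integral form. -/
lemma hardy_lintegral {φ : E → ℝ} (hφ : ContDiff ℝ 1 φ) (hc : HasCompactSupport φ) :
    ∫⁻ x, ‖φ x / ‖x‖‖ₑ ^ 2 ≤ 2 ^ 2 * ∫⁻ x, ‖gradient φ x‖ₑ ^ 2 := by
  have hm : Measurable (fun x => ‖gradient φ x‖ₑ) := (continuous_gradient hφ).measurable.enorm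
  have h1 := mink (S := Ioi 1) measurableSet_Ioi (Ioi_subset_Ioi zero_le_one) hm
  rw [int_rpow_Ioi] at h1
  refine le_trans ?_ h1
  apply lintegral_mono_ae
  have hne : ∀ᵐ x : E, x ≠ 0 := by
    rw [ae_iff]; simp
  filter_upwards [hne] with x hx
  exact pow_le_pow_left₀ (zero_le) (hardy_pointwise hφ hc hx) 2

/-- pointwise estimate for the difference with a dilation -/
lemma dil_pointwise {φ : E → ℝ} (hφ : ContDiff ℝ 1 φ) {l : ℝ} (hl : 1 < l) {x : E}
    (hx : x ≠ 0) : ‖(dil l φ x - φ x) / ‖x‖‖ₑ ≤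
      ENNReal.ofReal (Real.sqrt l) *
        ∫⁻ m in Ioc (1 : ℝ) l, (‖φ (m • x) / ‖m • x‖‖ₑ / 2 + ‖gradient φ (m • x)‖ₑ) := by
  have hx0 : 0 < ‖x‖ := norm_pos_iff.mpr hx
  have hd : ∀ m ∈ uIcc 1 l, HasDerivAt (fun m : ℝ => Real.sqrt m * φ (m • x))
      (1 / (2 * Real.sqrt m) * φ (m • x) + Real.sqrt m * inner ℝ (gradient φ (m • x)) x) m := by
    intro m hm
    rw [uIcc_of_le hl.le] at hm
    have hm0 : m ≠ 0 := by linarith [hm.1]
    exact (Real.hasDerivAt_sqrt hm0).mul (hasDerivAt_ray hφ x m)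
  have hcg : Continuous (fun m : ℝ => inner ℝ (gradient φ (m • x)) x) := by
    have := continuous_gradient hφ
    exact Continuous.inner (this.comp (continuous_id.smul continuous_const)) continuous_const
  have hcont : ContinuousOn (fun m : ℝ => 1 / (2 * Real.sqrt m) * φ (m • x)
      + Real.sqrt m * inner ℝ (gradient φ (m • x)) x) (uIcc 1 l) := by
    have hφc := hφ.continuous
    apply ContinuousOn.add
    · apply ContinuousOn.mul
      · apply ContinuousOn.div continuousOn_const (by fun_prop)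
        intro m hm
        rw [uIcc_of_le hl.le] at hm
        have : 0 < Real.sqrt m := Real.sqrt_pos.mpr (by linarith [hm.1])
        positivity
      · fun_prop
    · exact (Real.continuous_sqrt.mul hcg).continuousOn
  have h1 : dil l φ x - φ x = ∫ m in (1 : ℝ)..l, (1 / (2 * Real.sqrt m) * φ (m • x)
      + Real.sqrt m * inner ℝ (gradient φ (m • x)) x) := by
    rw [intervalIntegral.integral_eq_sub_of_hasDerivAt hd hcont.intervalIntegrable]
    simp [dil]
  have h3 : ∀ y : ℝ, ‖y / ‖x‖‖ₑ = ‖y‖ₑ / ‖x‖ₑ := by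
    intro y
    rw [← ofReal_norm, norm_div, norm_norm, ENNReal.ofReal_div_of_pos hx0,
      ofReal_norm, ofReal_norm]
  rw [h3]
  apply ENNReal.div_le_of_le_mul
  have hmeas : Measurable (fun m : ℝ => ‖φ (m • x) / ‖m • x‖‖ₑ / 2 + ‖gradient φ (m • x)‖ₑ) := by
    have h5 : Measurable φ := hφ.continuous.measurable
    have h6 : Measurable (gradient φ) := (continuous_gradient hφ).measurable
    have h7 : Measurable (fun m : ℝ => m • x) := measurable_id.smul_const x
    apply Measurable.add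
    · apply Measurable.div_const
      exact ((h5.comp h7).div (h7.norm)).enorm
    · exact (h6.comp h7).enorm
  calc ‖dil l φ x - φ x‖ₑ
      = ‖∫ m in Ioc (1 : ℝ) l, (1 / (2 * Real.sqrt m) * φ (m • x)
      + Real.sqrt m * inner ℝ (gradient φ (m • x)) x)‖ₑ := by
        rw [h1, intervalIntegral.integral_of_le hl.le]
    _ ≤ ∫⁻ m in Ioc (1 : ℝ) l, ‖(1 / (2 * Real.sqrt m) * φ (m • x)
      + Real.sqrt m * inner ℝ (gradient φ (m • x)) x)‖ₑ := enorm_integral_le_lintegral_enorm _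
    _ ≤ ∫⁻ m in Ioc (1 : ℝ) l, (ENNReal.ofReal (Real.sqrt l) * ‖x‖ₑ) *
        (‖φ (m • x) / ‖m • x‖‖ₑ / 2 + ‖gradient φ (m • x)‖ₑ) := by
        apply setLIntegral_mono' measurableSet_Ioc
        intro m hm
        have hm0 : 0 < m := by linarith [hm.1]
        have hsm : 0 < Real.sqrt m := Real.sqrt_pos.mpr hm0
        have hsl : Real.sqrt m ≤ Real.sqrt l := Real.sqrt_le_sqrt hm.2
        have hmx : 0 < ‖m • x‖ := by
          rw [norm_smul, Real.norm_of_nonneg hm0.le]; positivity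
        have e1 : ‖(1 / (2 * Real.sqrt m) * φ (m • x)
            + Real.sqrt m * inner ℝ (gradient φ (m • x)) x)‖
            ≤ Real.sqrt l * ‖x‖ * (|φ (m • x)| / ‖m • x‖ / 2 + ‖gradient φ (m • x)‖) := by
          have e2 : ‖(1 / (2 * Real.sqrt m) * φ (m • x))‖
              ≤ Real.sqrt l * ‖x‖ * (|φ (m • x)| / ‖m • x‖ / 2) := by
            rw [norm_mul, Real.norm_of_nonneg (by positivity), Real.norm_eq_abs, norm_smul,
              Real.norm_of_nonneg hm0.le]
            have : Real.sqrt l * ‖x‖ * (|φ (m • x)| / (m * ‖x‖) / 2)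
              = (Real.sqrt l / (2 * m)) * |φ (m • x)| := by
              field_simp
            rw [this]
            apply mul_le_mul_of_nonneg_right _ (abs_nonneg _)
            rw [div_le_div_iff₀ (by positivity) (by positivity)]
            nlinarith [Real.mul_self_sqrt hm0.le]
          have e3 : ‖(Real.sqrt m * inner ℝ (gradient φ (m • x)) x : ℝ)‖
              ≤ Real.sqrt l * ‖x‖ * ‖gradient φ (m • x)‖ := by
            rw [norm_mul, Real.norm_of_nonneg hsm.le]
            have := norm_inner_le_norm (𝕜 := ℝ) (gradient φ (m • x)) x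
            calc Real.sqrt m * ‖(inner ℝ (gradient φ (m • x)) x : ℝ)‖
                ≤ Real.sqrt m * (‖gradient φ (m • x)‖ * ‖x‖) :=
                  mul_le_mul_of_nonneg_left this hsm.le
              _ ≤ Real.sqrt l * (‖gradient φ (m • x)‖ * ‖x‖) := by
                  apply mul_le_mul_of_nonneg_right hsl; positivity
              _ = _ := by ring
          calc _ ≤ _ := norm_add_le _ _
            _ ≤ _ := add_le_add e2 e3
            _ = _ := by ring
        rw [← ofReal_norm]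
        refine (ENNReal.ofReal_le_ofReal e1).trans (le_of_eq ?_)
        rw [ENNReal.ofReal_mul (by positivity), ENNReal.ofReal_mul (by positivity),
          ENNReal.ofReal_add (by positivity) (by positivity), ofReal_norm,
          ofReal_norm]
        congr 2
        rw [ENNReal.ofReal_div_of_pos (by norm_num)]
        congr 1
        · rw [← ofReal_norm, norm_div, norm_norm, Real.norm_eq_abs]
        · norm_num
    _ = _ := by
        rw [lintegral_const_mul _ hmeas]
        ring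

lemma int_rpow_Ioc {l : ℝ} (hl : 1 < l) :
    ∫⁻ m in Ioc (1 : ℝ) l, ENNReal.ofReal (m ^ (-(3 / 2) : ℝ)) ≤ ENNReal.ofReal (l - 1) := by
  calc ∫⁻ m in Ioc (1 : ℝ) l, ENNReal.ofReal (m ^ (-(3 / 2) : ℝ))
      ≤ ∫⁻ m in Ioc (1 : ℝ) l, 1 := by
        apply setLIntegral_mono' measurableSet_Ioc
        intro m hm
        rw [← ENNReal.ofReal_one]
        apply ENNReal.ofReal_le_ofReal
        exact Real.rpow_le_one_of_one_le_of_nonpos hm.1.le (by norm_num)
    _ = ENNReal.ofReal (l - 1) := by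
        rw [setLIntegral_const, one_mul, Real.volume_Ioc]

/-- dilation estimate for test functions, in integral form -/
lemma dil_lintegral {φ : E → ℝ} (hφ : ContDiff ℝ 1 φ) (hc : HasCompactSupport φ) {l : ℝ}
    (hl : 1 < l) (hl2 : l ≤ 4) :
    ∫⁻ x, ‖(dil l φ x - φ x) / ‖x‖‖ₑ ^ 2 ≤
      ENNReal.ofReal (4 * (l - 1)) ^ 2 * ∫⁻ x, ‖gradient φ x‖ₑ ^ 2 := by
  set h : E → ℝ≥0∞ := fun y => ‖φ y / ‖y‖‖ₑ / 2 + ‖gradient φ y‖ₑ with hh
  have hm1 : Measurable (fun y : E => ‖φ y / ‖y‖‖ₑ) :=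
    (hφ.continuous.measurable.div measurable_norm).enorm
  have hm2 : Measurable (fun x => ‖gradient φ x‖ₑ) := (continuous_gradient hφ).measurable.enorm
  have hm : Measurable h := (hm1.div_const 2).add hm2
  have h1 := mink (S := Ioc 1 l) measurableSet_Ioc
    (fun m hm => lt_trans zero_lt_one (show (1 : ℝ) < m from hm.1)) hm
  have h2 : ∫⁻ y, h y ^ 2 ≤ 4 * ∫⁻ x, ‖gradient φ x‖ₑ ^ 2 := by
    have h3 : ∀ y, h y ^ 2 ≤ 2⁻¹ * ‖φ y / ‖y‖‖ₑ ^ 2 + 2 * ‖gradient φ y‖ₑ ^ 2 := by
      intro y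
      have h4 : ∀ a b : ℝ≥0∞, (a + b) ^ 2 ≤ 2 * a ^ 2 + 2 * b ^ 2 := by
        intro a b
        have := ENNReal.rpow_add_le_mul_rpow_add_rpow a b (p := 2) (by norm_num)
        rw [ENNReal.rpow_two, ENNReal.rpow_two, ENNReal.rpow_two] at this
        norm_num at this
        rwa [mul_add] at this
      calc h y ^ 2 ≤ 2 * (‖φ y / ‖y‖‖ₑ / 2) ^ 2 + 2 * ‖gradient φ y‖ₑ ^ 2 := h4 _ _
        _ = _ := by
          congr 1
          rw [div_eq_mul_inv, mul_pow]
          rw [mul_comm (‖φ y / ‖y‖‖ₑ ^ 2), ← mul_assoc]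
          congr 1
          rw [sq, ← mul_assoc, ENNReal.mul_inv_cancel (by norm_num) (by norm_num), one_mul]
    calc ∫⁻ y, h y ^ 2 ≤ ∫⁻ y, (2⁻¹ * ‖φ y / ‖y‖‖ₑ ^ 2 + 2 * ‖gradient φ y‖ₑ ^ 2) :=
          lintegral_mono h3
      _ = 2⁻¹ * (∫⁻ y, ‖φ y / ‖y‖‖ₑ ^ 2) + 2 * ∫⁻ x, ‖gradient φ x‖ₑ ^ 2 := by
          rw [lintegral_add_left ((hm1.pow_const 2).const_mul _),
            lintegral_const_mul _ (hm1.pow_const 2), lintegral_const_mul _ (hm2.pow_const 2)]
      _ ≤ 2⁻¹ * (2 ^ 2 * ∫⁻ x, ‖gradient φ x‖ₑ ^ 2) + 2 * ∫⁻ x, ‖gradient φ x‖ₑ ^ 2 := by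
          gcongr
          exact hardy_lintegral hφ hc
      _ = 4 * ∫⁻ x, ‖gradient φ x‖ₑ ^ 2 := by
          rw [← mul_assoc, ← add_mul]
          congr 1
          rw [show (2 : ℝ≥0∞) ^ 2 = 2 * 2 by norm_num, ← mul_assoc,
            ENNReal.inv_mul_cancel (by norm_num) (by norm_num)]
          norm_num
  calc ∫⁻ x, ‖(dil l φ x - φ x) / ‖x‖‖ₑ ^ 2
      ≤ ∫⁻ x, (ENNReal.ofReal (Real.sqrt l) * ∫⁻ m in Ioc (1 : ℝ) l, h (m • x)) ^ 2 := by
        apply lintegral_mono_ae
        have hne : ∀ᵐ x : E, x ≠ 0 := by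
          rw [ae_iff]; simp
        filter_upwards [hne] with x hx
        exact pow_le_pow_left₀ (zero_le) (dil_pointwise hφ hl hx) 2
    _ = ENNReal.ofReal (Real.sqrt l) ^ 2 * ∫⁻ x, (∫⁻ m in Ioc (1 : ℝ) l, h (m • x)) ^ 2 := by
        simp_rw [mul_pow]
        rw [lintegral_const_mul]
        apply Measurable.pow_const
        apply Measurable.lintegral_prod_right' (f := fun q : E × ℝ => h (q.2 • q.1))
        exact hm.comp (measurable_snd.smul measurable_fst)
    _ ≤ ENNReal.ofReal 2 ^ 2 * (ENNReal.ofReal (l - 1) ^ 2 * (4 * ∫⁻ x, ‖gradient φ x‖ₑ ^ 2)) := by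
        gcongr
        · rw [Real.sqrt_le_left (by norm_num)]; linarith
        · refine h1.trans ?_
          gcongr
          exact int_rpow_Ioc hl
    _ = _ := by
        have e4 : (4 : ℝ≥0∞) = ENNReal.ofReal 2 ^ 2 := by
          norm_num [ENNReal.ofReal_ofNat]
        rw [e4, ← mul_assoc, ← mul_assoc, ← mul_pow, ← mul_pow, ← ENNReal.ofReal_mul (by norm_num),
          ← ENNReal.ofReal_mul (by nlinarith)]
        congr 3
        ring

end Pool.Agent.X102.Pz
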