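import Mathlib
import Pool.Agent.X102.PzB

set_option autoImplicit false

open MeasureTheory Filter Topology Set
open scoped ENNReal NNReal ContDiff

namespace Pool.Agent.X102.Pz

/-- test functions -/
def Test (Ω : Set E) (φ : E → ℝ) : Prop :=
  ContDiff ℝ ∞ φ ∧ HasCompactSupport φ ∧ tsupport φ ⊆ Ω

/-- `w ∈ H¹₀(Ω)` with gradient `K`. -/
def HH (Ω : Set E) (w : E → ℝ) (K : E → E) : Prop :=
  MemLp w 2 volume ∧ MemLp K 2 volume ∧ ∃ φ : ℕ → E → ℝ, (∀ n, Test Ω (φ n)) ∧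
    Tendsto (fun n => eLpNorm (fun x => φ n x - w x) 2 volume) atTop (𝓝 0) ∧
    Tendsto (fun n => eLpNorm (fun x => gradient (φ n) x - K x) 2 volume) atTop (𝓝 0)

lemma Test.c1 {Ω : Set E} {φ : E → ℝ} (h : Test Ω φ) : ContDiff ℝ 1 φ :=
  h.1.of_le (WithTop.coe_le_coe.mpr le_top)

lemma Test.differentiable {Ω : Set E} {φ : E → ℝ} (h : Test Ω φ) : Differentiable ℝ φ :=
  h.c1.differentiable (by norm_num)

lemma Test.memLp {Ω : Set E} {φ : E → ℝ} (h : Test Ω φ) (p : ℝ≥0∞) : MemLp φ p volume :=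
  h.1.continuous.memLp_of_hasCompactSupport h.2.1

lemma hasCompactSupport_gradient {φ : E → ℝ} (hc : HasCompactSupport φ) :
    HasCompactSupport (gradient φ) := by
  have h1 := hc.fderiv (𝕜 := ℝ)
  unfold gradient
  exact h1.comp_left (g := fun L => (InnerProductSpace.toDual ℝ E).symm L) (by simp)

lemma Test.memLp_grad {Ω : Set E} {φ : E → ℝ} (h : Test Ω φ) (p : ℝ≥0∞) :
    MemLp (gradient φ) p volume :=
  (continuous_gradient h.c1).memLp_of_hasCompactSupport (hasCompactSupport_gradient h.2.1)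

lemma gradient_sub {φ ψ : E → ℝ} (hφ : Differentiable ℝ φ) (hψ : Differentiable ℝ ψ) (x : E) :
    gradient (fun x => φ x - ψ x) x = gradient φ x - gradient ψ x := by
  unfold gradient
  rw [fderiv_fun_sub (hφ x) (hψ x), map_sub]

lemma Test.sub {Ω : Set E} {φ ψ : E → ℝ} (h : Test Ω φ) (h' : Test Ω ψ) :
    Test Ω (fun x => φ x - ψ x) := by
  refine ⟨h.1.sub h'.1, ?_, ?_⟩
  · exact h.2.1.sub h'.2.1
  · refine (tsupport_sub φ ψ).trans ?_
    exact union_subset h.2.2 h'.2.2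

lemma HH.of_test {Ω : Set E} {φ : E → ℝ} (h : Test Ω φ) : HH Ω φ (gradient φ) := by
  refine ⟨h.memLp 2, h.memLp_grad 2, fun _ => φ, fun _ => h, ?_, ?_⟩
  · simp
  · simp

lemma HH.sub {Ω : Set E} {w w' : E → ℝ} {K K' : E → E} (h : HH Ω w K) (h' : HH Ω w' K') :
    HH Ω (fun x => w x - w' x) (fun x => K x - K' x) := by
  obtain ⟨hw, hK, φ, hφ, h1, h2⟩ := h
  obtain ⟨hw', hK', φ', hφ', h1', h2'⟩ := h'
  refine ⟨hw.sub hw', hK.sub hK', fun n x => φ n x - φ' n x, fun n => (hφ n).sub (hφ' n), ?_, ?_⟩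
  · have h3 := h1.add h1'
    rw [add_zero] at h3
    refine tendsto_of_tendsto_of_tendsto_of_le_of_le tendsto_const_nhds h3 (fun _ => zero_le) ?_
    intro n
    have e : (fun x => φ n x - φ' n x - (w x - w' x))
        = (fun x => φ n x - w x) - (fun x => φ' n x - w' x) := by
      ext x; simp; ring
    simp only [e]
    exact eLpNorm_sub_le (((hφ n).memLp 2).sub hw).1 (((hφ' n).memLp 2).sub hw').1 (by norm_num)
  · have h3 := h2.add h2'
    rw [add_zero] at h3
    refine tendsto_of_tendsto_of_tendsto_of_le_of_le tendsto_const_nhds h3 (fun _ => zero_le) ?_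
    intro n
    have e : (fun x => gradient (fun x => φ n x - φ' n x) x - (K x - K' x))
        = (fun x => gradient (φ n) x - K x) - (fun x => gradient (φ' n) x - K' x) := by
      ext1 x
      rw [gradient_sub (hφ n).differentiable (hφ' n).differentiable, Pi.sub_apply]
      abel
    simp only [e]
    exact eLpNorm_sub_le (((hφ n).memLp_grad 2).sub hK).1 (((hφ' n).memLp_grad 2).sub hK').1
      (by norm_num)

/-- Passing to the limit in estimates by the gradient. -/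
lemma HH.bound {Ω : Set E} {w : E → ℝ} {K : E → E} (h : HH Ω w K)
    {T : (E → ℝ) → E → ℝ} {q C : ℝ≥0∞} (hC : C ≠ ⊤)
    (hT1 : ∀ φ, Test Ω φ → AEStronglyMeasurable (T φ) volume)
    (hT2 : ∀ φ, Test Ω φ → eLpNorm (T φ) q volume ≤ C * eLpNorm (gradient φ) 2 volume)
    (hT3 : ∀ φ : ℕ → E → ℝ, (∀ᵐ x, Tendsto (fun n => φ n x) atTop (𝓝 (w x))) →
      ∀ᵐ x, Tendsto (fun n => T (φ n) x) atTop (𝓝 (T w x))) :
    MemLp (T w) q volume ∧ eLpNorm (T w) q volume ≤ C * eLpNorm K 2 volume := by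
  obtain ⟨hw, hK, φ, hφ, h1, h2⟩ := h
  have hmeas : TendstoInMeasure volume φ atTop w :=
    tendstoInMeasure_of_tendsto_eLpNorm_of_ne_top (by norm_num) (by norm_num)
      (fun n => ((hφ n).memLp 2).1) hw.1 h1
  obtain ⟨ns, hns, hae⟩ := hmeas.exists_seq_tendsto_ae
  have hT := hT3 (fun n => φ (ns n)) hae
  have haesm : AEStronglyMeasurable (T w) volume :=
    aestronglyMeasurable_of_tendsto_ae atTop (fun n => hT1 _ (hφ (ns n))) hT
  have hle : eLpNorm (T w) q volume ≤ C * eLpNorm K 2 volume := by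
    have hlim : Tendsto (fun n => C * (eLpNorm (fun x => gradient (φ (ns n)) x - K x) 2 volume
        + eLpNorm K 2 volume)) atTop (𝓝 (C * (0 + eLpNorm K 2 volume))) := by
      apply ENNReal.Tendsto.const_mul _ (Or.inr hC)
      exact (h2.comp hns.tendsto_atTop).add_const _
    rw [zero_add] at hlim
    calc eLpNorm (T w) q volume ≤ liminf (fun n => eLpNorm (T (φ (ns n))) q volume) atTop :=
          Lp.eLpNorm_lim_le_liminf_eLpNorm (fun n => hT1 _ (hφ (ns n))) _ hT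
      _ ≤ liminf (fun n => C * (eLpNorm (fun x => gradient (φ (ns n)) x - K x) 2 volume
        + eLpNorm K 2 volume)) atTop := by
          refine liminf_le_liminf (Eventually.of_forall fun n => ?_) (by isBoundedDefault)
            (by isBoundedDefault)
          refine (hT2 _ (hφ (ns n))).trans ?_
          apply mul_le_mul_of_nonneg_left _ (zero_le)
          have e : gradient (φ (ns n)) = (fun x => gradient (φ (ns n)) x - K x) + K := by
            ext1 x; simp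
          calc eLpNorm (gradient (φ (ns n))) 2 volume
              = eLpNorm ((fun x => gradient (φ (ns n)) x - K x) + K) 2 volume := by rw [← e]
            _ ≤ _ := eLpNorm_add_le (((hφ (ns n)).memLp_grad 2).sub hK).1 hK.1 (by norm_num)
      _ = C * eLpNorm K 2 volume := hlim.liminf_eq
  exact ⟨⟨haesm, hle.trans_lt (ENNReal.mul_lt_top hC.lt_top hK.2)⟩, hle⟩

/-- Sobolev constant -/
noncomputable def CS : ℝ≥0 := SNormLESNormFDerivOfEqConst ℝ (volume : Measure E) 2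

lemma eLpNorm_gradient (φ : E → ℝ) (p : ℝ≥0∞) :
    eLpNorm (gradient φ) p volume = eLpNorm (fderiv ℝ φ) p volume :=
  eLpNorm_congr_norm_ae (Eventually.of_forall fun x => norm_gradient φ x)

lemma sobolev_test {Ω : Set E} {φ : E → ℝ} (h : Test Ω φ) :
    eLpNorm φ 6 volume ≤ CS * eLpNorm (gradient φ) 2 volume := by
  rw [eLpNorm_gradient]
  have := eLpNorm_le_eLpNorm_fderiv_of_eq (volume : Measure E) h.c1 h.2.1 (p := 2) (p' := 6)
    (by norm_num) (by rw [finrank_E]; norm_num) (by rw [finrank_E]; norm_num)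
  exact_mod_cast this

lemma eLpNorm_two_le {F G : Type*} [NormedAddCommGroup F] [NormedAddCommGroup G] {f : E → F}
    {g : E → G} {C : ℝ≥0∞} (h : ∫⁻ x, ‖f x‖ₑ ^ 2 ≤ C ^ 2 * ∫⁻ x, ‖g x‖ₑ ^ 2) :
    eLpNorm f 2 volume ≤ C * eLpNorm g 2 volume := by
  rw [eLpNorm_eq_lintegral_rpow_enorm_toReal (by norm_num) (by norm_num),
    eLpNorm_eq_lintegral_rpow_enorm_toReal (by norm_num) (by norm_num)]
  simp only [ENNReal.toReal_ofNat, ENNReal.rpow_two]
  calc (∫⁻ x, ‖f x‖ₑ ^ 2) ^ (1 / 2 : ℝ) ≤ (C ^ 2 * ∫⁻ x, ‖g x‖ₑ ^ 2) ^ (1 / 2 : ℝ) := by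
        gcongr
    _ = C * (∫⁻ x, ‖g x‖ₑ ^ 2) ^ (1 / 2 : ℝ) := by
        rw [ENNReal.mul_rpow_of_nonneg _ _ (by norm_num), ← ENNReal.rpow_two, ← ENNReal.rpow_mul]
        norm_num

lemma hardy_test {Ω : Set E} {φ : E → ℝ} (h : Test Ω φ) :
    eLpNorm (fun x => φ x / ‖x‖) 2 volume ≤ 2 * eLpNorm (gradient φ) 2 volume :=
  eLpNorm_two_le (hardy_lintegral h.c1 h.2.1)

lemma dil_test {Ω : Set E} {φ : E → ℝ} (h : Test Ω φ) {l : ℝ} (hl : 1 < l) (hl2 : l ≤ 4) :
    eLpNorm (fun x => (dil l φ x - φ x) / ‖x‖) 2 volume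
      ≤ ENNReal.ofReal (4 * (l - 1)) * eLpNorm (gradient φ) 2 volume :=
  eLpNorm_two_le (dil_lintegral h.c1 h.2.1 hl hl2)

lemma aesm_div_norm {f : E → ℝ} (hf : AEStronglyMeasurable f volume) :
    AEStronglyMeasurable (fun x => f x / ‖x‖) volume :=
  (hf.aemeasurable.div measurable_norm.aemeasurable).aestronglyMeasurable

lemma HH.sobolev {Ω : Set E} {w : E → ℝ} {K : E → E} (h : HH Ω w K) :
    MemLp w 6 volume ∧ eLpNorm w 6 volume ≤ CS * eLpNorm K 2 volume :=
  h.bound (T := fun φ => φ) ENNReal.coe_ne_top (fun φ hφ => (hφ.memLp 2).1)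
    (fun φ hφ => sobolev_test hφ) (fun φ hφ => hφ)

lemma HH.hardy {Ω : Set E} {w : E → ℝ} {K : E → E} (h : HH Ω w K) :
    MemLp (fun x => w x / ‖x‖) 2 volume ∧
      eLpNorm (fun x => w x / ‖x‖) 2 volume ≤ 2 * eLpNorm K 2 volume :=
  h.bound (T := fun φ x => φ x / ‖x‖) (by norm_num) (fun φ hφ => aesm_div_norm (hφ.memLp 2).1)
    (fun φ hφ => hardy_test hφ) (fun φ hφ => by
      filter_upwards [hφ] with x hx
      exact hx.div_const _)

lemma HH.dil_sub {Ω : Set E} {w : E → ℝ} {K : E → E} (h : HH Ω w K) {l : ℝ} (hl : 1 < l)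
    (hl2 : l ≤ 4) :
    MemLp (fun x => (dil l w x - w x) / ‖x‖) 2 volume ∧
      eLpNorm (fun x => (dil l w x - w x) / ‖x‖) 2 volume
        ≤ ENNReal.ofReal (4 * (l - 1)) * eLpNorm K 2 volume := by
  have hl0 : 0 < l := by linarith
  refine h.bound (T := fun φ x => (dil l φ x - φ x) / ‖x‖) ENNReal.ofReal_ne_top (fun φ hφ => ?_)
    (fun φ hφ => dil_test hφ hl hl2) (fun φ hφ => ?_)
  · apply aesm_div_norm
    apply AEStronglyMeasurable.sub _ (hφ.memLp 2).1
    exact (aesm_dil (hφ.memLp 2).1 hl0).const_mul _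
  · filter_upwards [hφ, ae_dil hφ hl0] with x hx hx2
    exact (((hx2.const_mul _)).sub hx).div_const _

lemma gradient_dil {φ : E → ℝ} (hφ : Differentiable ℝ φ) {l : ℝ} (x : E) :
    gradient (dil l φ) x = dilG l (gradient φ) x := by
  have h1 : HasGradientAt φ (gradient φ (l • x)) (l • x) := (hφ (l • x)).hasGradientAt
  have h2 : HasFDerivAt (fun x : E => l • x) (l • ContinuousLinearMap.id ℝ E) x :=
    (hasFDerivAt_id x).const_smul l
  have h3 := (h1.hasFDerivAt.comp x h2).const_mul (Real.sqrt l)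
  have h4 : HasGradientAt (dil l φ) (dilG l (gradient φ) x) x := by
    rw [hasGradientAt_iff_hasFDerivAt]
    refine h3.congr_fderiv ?_
    ext v
    simp [dilG, inner_smul_left]
    ring
  exact h4.gradient

lemma eLpNorm_dil_two {w : E → ℝ} {l : ℝ} (hl : 0 < l) :
    eLpNorm (dil l w) 2 volume
      = ENNReal.ofReal (Real.sqrt l) * (ENNReal.ofReal ((l ^ 3)⁻¹) ^ (1 / 2 : ℝ) * eLpNorm w 2 volume) := by
  have h1 : dil l w = Real.sqrt l • (fun x => w (l • x)) := by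
    ext x; simp [dil]
  rw [h1, eLpNorm_const_smul, eLpNorm_dil w hl (by norm_num)]
  congr 1
  rw [← ofReal_norm, Real.norm_of_nonneg (Real.sqrt_nonneg l)]

lemma eLpNorm_dilG {K : E → E} {l : ℝ} (hl : 0 < l) :
    eLpNorm (dilG l K) 2 volume = eLpNorm K 2 volume := by
  have h1 : dilG l K = (Real.sqrt l * l) • (fun x => K (l • x)) := by
    ext1 x; simp [dilG]
  rw [h1, eLpNorm_const_smul, eLpNorm_dil K hl (by norm_num), ← mul_assoc,
    ← ofReal_norm, Real.norm_of_nonneg (by positivity)]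
  have h2 : ENNReal.ofReal ((l ^ 3)⁻¹) ^ (1 / (2 : ℝ≥0∞).toReal)
      = ENNReal.ofReal ((Real.sqrt l * l)⁻¹) := by
    rw [ENNReal.ofReal_rpow_of_nonneg (by positivity) (by positivity)]
    congr 1
    simp only [ENNReal.toReal_ofNat]
    rw [← Real.sqrt_eq_rpow, Real.sqrt_inv]
    congr 1
    rw [show l ^ 3 = l * l ^ 2 by ring, Real.sqrt_mul hl.le, Real.sqrt_sq hl.le]
  rw [h2, ← ENNReal.ofReal_mul (by positivity), mul_inv_cancel₀ (by positivity),
    ENNReal.ofReal_one, one_mul]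

lemma Test.dil' {Ω : Set E} {φ : E → ℝ} (h : Test Ω φ) {l : ℝ} (hl : 0 < l)
    (hstar : ∀ x, l • x ∈ Ω → x ∈ Ω) : Test Ω (dil l φ) := by
  have hcs : ContDiff ℝ ∞ (fun x : E => l • x) := contDiff_id.const_smul l
  refine ⟨contDiff_const.mul (h.1.comp hcs), ?_, ?_⟩
  · exact (h.2.1.comp_smul hl.ne').mul_left
  · intro x hx
    apply hstar
    apply h.2.2
    by_contra hne
    have ho : IsOpen {x : E | l • x ∉ tsupport φ} := by
      have : {x : E | l • x ∉ tsupport φ} = (fun x : E => l • x) ⁻¹' (tsupport φ)ᶜ := rfl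
      rw [this]
      exact (isClosed_tsupport φ).isOpen_compl.preimage (continuous_const_smul l)
    have hz : dil l φ =ᶠ[𝓝 x] 0 := by
      filter_upwards [ho.mem_nhds hne] with y hy
      simp [dil, image_eq_zero_of_notMem_tsupport hy]
    exact (notMem_tsupport_iff_eventuallyEq.mpr hz) hx

lemma HH.dil' {Ω : Set E} {w : E → ℝ} {K : E → E} (h : HH Ω w K) {l : ℝ} (hl : 0 < l)
    (hstar : ∀ x, l • x ∈ Ω → x ∈ Ω) : HH Ω (dil l w) (dilG l K) := by
  obtain ⟨hw, hK, φ, hφ, h1, h2⟩ := h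
  have hfin : ENNReal.ofReal (Real.sqrt l) * ENNReal.ofReal ((l ^ 3)⁻¹) ^ (1 / 2 : ℝ) ≠ ⊤ := by
    apply ENNReal.mul_ne_top ENNReal.ofReal_ne_top
    exact ENNReal.rpow_ne_top_of_nonneg (by norm_num) ENNReal.ofReal_ne_top
  refine ⟨⟨(aesm_dil hw.1 hl).const_mul _, ?_⟩, ⟨(aesm_dil hK.1 hl).const_smul (Real.sqrt l * l), ?_⟩,
    fun n => dil l (φ n), fun n => (hφ n).dil' hl hstar, ?_, ?_⟩
  · rw [eLpNorm_dil_two hl, ← mul_assoc]
    exact ENNReal.mul_lt_top hfin.lt_top hw.2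
  · rw [eLpNorm_dilG hl]
    exact hK.2
  · have e : ∀ n, (fun x => dil l (φ n) x - dil l w x)
        = dil l (fun x => φ n x - w x) := by
      intro n; ext x; simp [Pz.dil]; ring
    simp_rw [e, eLpNorm_dil_two hl, ← mul_assoc]
    have := ENNReal.Tendsto.const_mul (a := ENNReal.ofReal (Real.sqrt l) *
      ENNReal.ofReal ((l ^ 3)⁻¹) ^ (1 / 2 : ℝ)) h1 (Or.inr hfin)
    rwa [mul_zero] at this
  · have e : ∀ n, (fun x => gradient (dil l (φ n)) x - dilG l K x)
        = dilG l (fun x => gradient (φ n) x - K x) := by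
      intro n; ext1 x
      rw [gradient_dil (hφ n).differentiable]
      simp only [dilG]
      rw [smul_sub]
    simp_rw [e, eLpNorm_dilG hl]
    exact h2

lemma HH.zero_off {Ω : Set E} {w : E → ℝ} {K : E → E} (h : HH Ω w K) :
    ∀ᵐ x, x ∉ Ω → w x = 0 := by
  obtain ⟨hw, hK, φ, hφ, h1, h2⟩ := h
  have hmeas : TendstoInMeasure volume φ atTop w :=
    tendstoInMeasure_of_tendsto_eLpNorm_of_ne_top (by norm_num) (by norm_num)
      (fun n => ((hφ n).memLp 2).1) hw.1 h1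
  obtain ⟨ns, hns, hae⟩ := hmeas.exists_seq_tendsto_ae
  filter_upwards [hae] with x hx hxΩ
  have : ∀ n, φ (ns n) x = 0 := fun n =>
    image_eq_zero_of_notMem_tsupport (fun h => hxΩ ((hφ (ns n)).2.2 h))
  simp only [this] at hx
  exact (tendsto_nhds_unique hx tendsto_const_nhds)

end Pool.Agent.X102.Pz
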