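import Mathlib
import Pool.Agent.X102.PzC

set_option autoImplicit false

open MeasureTheory Filter Topology Set
open scoped ENNReal NNReal ContDiff

namespace Pool.Agent.X102.Pz

/-- real-valued `Lᵖ` norm -/
noncomputable def nr {F : Type*} [NormedAddCommGroup F] (p : ℝ≥0∞) (f : E → F) : ℝ :=
  (eLpNorm f p volume).toReal

lemma nr_nonneg {F : Type*} [NormedAddCommGroup F] (p : ℝ≥0∞) (f : E → F) : 0 ≤ nr p f :=
  ENNReal.toReal_nonneg

section CS
variable {F : Type*} [NormedAddCommGroup F] [InnerProductSpace ℝ F]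

lemma CSv {f g : E → F} (hf : MemLp f 2 volume) (hg : MemLp g 2 volume) :
    Integrable (fun x => inner ℝ (f x) (g x)) volume ∧
      ∫ x, (inner ℝ (f x) (g x) : ℝ) = inner ℝ (hf.toLp f) (hg.toLp g) := by
  have h1 := L2.integrable_inner (𝕜 := ℝ) (hf.toLp f) (hg.toLp g)
  have h2 : (fun x => (inner ℝ ((hf.toLp f) x) ((hg.toLp g) x) : ℝ)) =ᵐ[volume]
      fun x => inner ℝ (f x) (g x) := by
    filter_upwards [hf.coeFn_toLp, hg.coeFn_toLp] with x hx hy
    rw [hx, hy]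
  exact ⟨h1.congr h2, by rw [L2.inner_def, integral_congr_ae h2]⟩

lemma norm_toLp_eq {f : E → F} (hf : MemLp f 2 volume) : ‖hf.toLp f‖ = nr 2 f :=
  Lp.norm_toLp f hf

lemma CSv_le {f g : E → F} (hf : MemLp f 2 volume) (hg : MemLp g 2 volume) :
    |∫ x, (inner ℝ (f x) (g x) : ℝ)| ≤ nr 2 f * nr 2 g := by
  rw [(CSv hf hg).2, ← norm_toLp_eq hf, ← norm_toLp_eq hg]
  exact abs_real_inner_le_norm _ _

end CS

lemma CSr {f g : E → ℝ} (hf : MemLp f 2 volume) (hg : MemLp g 2 volume) :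
    Integrable (fun x => f x * g x) volume ∧ |∫ x, f x * g x| ≤ nr 2 f * nr 2 g := by
  have h1 := CSv hf hg
  have h2 := CSv_le hf hg
  have e : (fun x => (inner ℝ (f x) (g x) : ℝ)) = fun x => f x * g x := by
    ext x; simp [mul_comm]
  rw [e] at h1
  simp only [e] at h2
  exact ⟨h1.1, h2⟩

lemma ht663 : ENNReal.HolderTriple 6 6 3 := ⟨by
  have h6 : (6 : ℝ≥0∞) = 2 * 3 := by norm_num
  rw [h6, ENNReal.mul_inv (by norm_num) (by norm_num), ← add_mul, ENNReal.inv_two_add_inv_two,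
    one_mul]⟩

lemma ht362 : ENNReal.HolderTriple 3 6 2 := ⟨by
  have e3 : (3 : ℝ≥0∞)⁻¹ = ENNReal.ofReal (1 / 3) := by
    rw [show (3 : ℝ≥0∞) = ENNReal.ofReal 3 by norm_num, ← ENNReal.ofReal_inv_of_pos (by norm_num)]
    norm_num
  have e6 : (6 : ℝ≥0∞)⁻¹ = ENNReal.ofReal (1 / 6) := by
    rw [show (6 : ℝ≥0∞) = ENNReal.ofReal 6 by norm_num, ← ENNReal.ofReal_inv_of_pos (by norm_num)]
    norm_num
  have e2 : (2 : ℝ≥0∞)⁻¹ = ENNReal.ofReal (1 / 2) := by
    rw [show (2 : ℝ≥0∞) = ENNReal.ofReal 2 by norm_num, ← ENNReal.ofReal_inv_of_pos (by norm_num)]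
    norm_num
  rw [e3, e6, e2, ← ENNReal.ofReal_add (by norm_num) (by norm_num)]
  norm_num⟩

lemma holder3 {f g h : E → ℝ} (hf : MemLp f 6 volume) (hg : MemLp g 6 volume)
    (hh : MemLp h 6 volume) :
    MemLp (fun x => f x * g x * h x) 2 volume ∧
      nr 2 (fun x => f x * g x * h x) ≤ nr 6 f * nr 6 g * nr 6 h := by
  have := ht663
  have := ht362
  have h1 : MemLp (fun x => f x * g x) 3 volume := MemLp.mul' hg hf
  have h2 : MemLp (fun x => f x * g x * h x) 2 volume := MemLp.mul' hh h1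
  refine ⟨h2, ?_⟩
  have h3 : eLpNorm (f • g) 3 volume ≤ eLpNorm f 6 volume * eLpNorm g 6 volume :=
    eLpNorm_smul_le_mul_eLpNorm (f := g) (φ := f) (p := 6) (q := 6) (r := 3) hg.1 hf.1
  have e1 : (f • g) = fun x => f x * g x := by ext x; simp
  rw [e1] at h3
  have h4 : eLpNorm ((fun x => f x * g x) • h) 2 volume
      ≤ eLpNorm (fun x => f x * g x) 3 volume * eLpNorm h 6 volume :=
    eLpNorm_smul_le_mul_eLpNorm (f := h) (φ := fun x => f x * g x) (p := 3) (q := 6) (r := 2)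
      hh.1 h1.1
  have e2 : ((fun x => f x * g x) • h) = fun x => f x * g x * h x := by ext x; simp
  rw [e2] at h4
  unfold nr
  rw [← ENNReal.toReal_mul, ← ENNReal.toReal_mul]
  apply ENNReal.toReal_mono
  · exact ENNReal.mul_ne_top (ENNReal.mul_ne_top hf.2.ne hg.2.ne) hh.2.ne
  · exact h4.trans (mul_le_mul_of_nonneg_right h3 (zero_le))

lemma nr_dil_six {w : E → ℝ} {l : ℝ} (hl : 0 < l) : nr 6 (dil l w) = nr 6 w := by
  unfold nr
  congr 1
  have h1 : dil l w = Real.sqrt l • (fun x => w (l • x)) := by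
    ext x; simp [dil]
  rw [h1, eLpNorm_const_smul, eLpNorm_dil w hl (by norm_num), ← mul_assoc, ← ofReal_norm,
    Real.norm_of_nonneg (Real.sqrt_nonneg l)]
  have h2 : ENNReal.ofReal ((l ^ 3)⁻¹) ^ (1 / (6 : ℝ≥0∞).toReal)
      = ENNReal.ofReal ((Real.sqrt l)⁻¹) := by
    rw [ENNReal.ofReal_rpow_of_nonneg (by positivity) (by positivity)]
    congr 1
    simp only [ENNReal.toReal_ofNat]
    have h3 : (l ^ 3)⁻¹ = (Real.sqrt l)⁻¹ ^ (6 : ℝ) := by
      rw [show ((Real.sqrt l)⁻¹ ^ (6 : ℝ)) = (Real.sqrt l)⁻¹ ^ (6 : ℕ) by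
        rw [← Real.rpow_natCast]; norm_num]
      rw [inv_pow, show Real.sqrt l ^ 6 = (Real.sqrt l ^ 2) ^ 3 by ring, Real.sq_sqrt hl.le]
    rw [h3, ← Real.rpow_mul (by positivity)]
    norm_num
  have h4 : 0 < Real.sqrt l := Real.sqrt_pos.mpr hl
  rw [h2, ← ENNReal.ofReal_mul h4.le, mul_inv_cancel₀ h4.ne', ENNReal.ofReal_one, one_mul]

variable {Ω : Set E} {u : E → ℝ} {G : E → E}

/-- bounds for the three terms of the weak formulation -/
lemma terms (hu : HH Ω u G) {w : E → ℝ} {K : E → E} (hw : HH Ω w K) :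
    (Integrable (fun x => u x ^ 4 * w x) volume ∧
      |∫ x, u x ^ 4 * w x| ≤ (nr 2 (fun x => u x ^ 2) * (nr 6 u * nr 6 u * CS)) * nr 2 K) ∧
    (Integrable (fun x => u x ^ 3 * w x / ‖x‖) volume ∧
      |∫ x, u x ^ 3 * w x / ‖x‖| ≤ (nr 2 (fun x => u x ^ 3) * 2) * nr 2 K) := by
  have hu6 := hu.sobolev.1
  have hu2 := hu.1
  have hw6 := hw.sobolev
  have hwh := hw.hardy
  have hu3 : MemLp (fun x => u x ^ 3) 2 volume := by
    have := (holder3 hu6 hu6 hu6).1
    refine this.congr_norm ?_ ?_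
    · exact (hu6.1.pow 3)
    · exact Eventually.of_forall fun x => by ring_nf
  have husq : MemLp (fun x => u x ^ 2) 2 volume := by
    have h1 : MemLp (fun x => ‖u x‖ + ‖u x ^ 3‖) 2 volume := hu2.norm.add hu3.norm
    refine h1.mono (hu6.1.pow 2) (Eventually.of_forall fun x => ?_)
    simp only [norm_pow, Real.norm_eq_abs]
    rw [abs_of_nonneg (by positivity : 0 ≤ |u x| + |u x| ^ 3)]
    nlinarith [abs_nonneg (u x), mul_nonneg (abs_nonneg (u x)) (sq_nonneg (|u x| - 1))]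
  have hn6 : nr 6 w ≤ CS * nr 2 K := by
    unfold nr
    rw [← ENNReal.coe_toReal, ← ENNReal.toReal_mul]
    exact ENNReal.toReal_mono (ENNReal.mul_ne_top ENNReal.coe_ne_top hw.2.1.2.ne) hw6.2
  have hnh : nr 2 (fun x => w x / ‖x‖) ≤ 2 * nr 2 K := by
    unfold nr
    rw [show (2 : ℝ) = (2 : ℝ≥0∞).toReal by norm_num, ← ENNReal.toReal_mul]
    exact ENNReal.toReal_mono (ENNReal.mul_ne_top (by norm_num) hw.2.1.2.ne) hwh.2
  constructor
  · have h1 := holder3 hu6 hu6 hw6.1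
    have h2 := CSr husq h1.1
    have e : (fun x => u x ^ 2 * (u x * u x * w x)) = fun x => u x ^ 4 * w x := by
      ext x; ring
    have h21 := h2.1
    rw [e] at h21
    refine ⟨h21, ?_⟩
    have h3 : ∫ x, u x ^ 4 * w x = ∫ x, u x ^ 2 * (u x * u x * w x) := by
      congr 1; ext x; ring
    have h2' := h2.2
    rw [← h3] at h2'
    refine h2'.trans ?_
    have h4 : nr 2 (fun x => u x * u x * w x) ≤ nr 6 u * nr 6 u * (CS * nr 2 K) :=
      h1.2.trans (mul_le_mul_of_nonneg_left hn6 (by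
        have := nr_nonneg 6 u; positivity))
    calc nr 2 (fun x => u x ^ 2) * nr 2 (fun x => u x * u x * w x)
        ≤ nr 2 (fun x => u x ^ 2) * (nr 6 u * nr 6 u * (CS * nr 2 K)) :=
          mul_le_mul_of_nonneg_left h4 (nr_nonneg _ _)
      _ = _ := by ring
  · have h2 := CSr hu3 hwh.1
    have e : (fun x => u x ^ 3 * (w x / ‖x‖)) = fun x => u x ^ 3 * w x / ‖x‖ := by
      ext x; ring
    have h21 := h2.1
    rw [e] at h21
    refine ⟨h21, ?_⟩
    have h3 : ∫ x, u x ^ 3 * w x / ‖x‖ = ∫ x, u x ^ 3 * (w x / ‖x‖) := by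
      congr 1; ext x; ring
    have h2' := h2.2
    rw [← h3] at h2'
    refine h2'.trans ?_
    calc nr 2 (fun x => u x ^ 3) * nr 2 (fun x => w x / ‖x‖)
        ≤ nr 2 (fun x => u x ^ 3) * (2 * nr 2 K) := mul_le_mul_of_nonneg_left hnh (nr_nonneg _ _)
      _ = _ := by ring

/-- the weak formulation extends to `H¹₀` -/
lemma weak_ext (hu : HH Ω u G)
    (heq : ∀ ψ, Test Ω ψ → (∫ x, (inner ℝ (G x) (gradient ψ x) : ℝ)) + (∫ x, u x ^ 4 * ψ x)
      - (∫ x, u x ^ 3 * ψ x / ‖x‖) = 0)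
    {w : E → ℝ} {K : E → E} (hw : HH Ω w K) :
    (∫ x, (inner ℝ (G x) (K x) : ℝ)) + (∫ x, u x ^ 4 * w x) - (∫ x, u x ^ 3 * w x / ‖x‖) = 0 := by
  set T := (∫ x, (inner ℝ (G x) (K x) : ℝ)) + (∫ x, u x ^ 4 * w x) - (∫ x, u x ^ 3 * w x / ‖x‖)
    with hT
  set C := nr 2 G + (nr 2 (fun x => u x ^ 2) * (nr 6 u * nr 6 u * CS))
    + (nr 2 (fun x => u x ^ 3) * 2) with hC
  obtain ⟨φ, hφ, h1, h2⟩ := hw.2.2
  have key : ∀ n, |T| ≤ C * nr 2 (fun x => gradient (φ n) x - K x) := by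
    intro n
    have hD : HH Ω (fun x => φ n x - w x) (fun x => gradient (φ n) x - K x) :=
      (HH.of_test (hφ n)).sub hw
    have t1 := terms hu hD
    have t2 := terms hu hw
    have t3 := terms hu (HH.of_test (hφ n))
    have c1 := CSv_le hu.2.1 hD.2.1
    have c2 := (CSv hu.2.1 hw.2.1).1
    have c3 := (CSv hu.2.1 (HH.of_test (hφ n)).2.1).1
    have e1 : ∫ x, (inner ℝ (G x) (gradient (φ n) x - K x) : ℝ)
        = (∫ x, (inner ℝ (G x) (gradient (φ n) x) : ℝ)) - ∫ x, (inner ℝ (G x) (K x) : ℝ) := by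
      rw [← integral_sub c3 c2]
      congr 1; ext x; rw [inner_sub_right]
    have e2 : ∫ x, u x ^ 4 * (φ n x - w x) = (∫ x, u x ^ 4 * φ n x) - ∫ x, u x ^ 4 * w x := by
      rw [← integral_sub t3.1.1 t2.1.1]
      congr 1; ext x; ring
    have e3 : ∫ x, u x ^ 3 * (φ n x - w x) / ‖x‖
        = (∫ x, u x ^ 3 * φ n x / ‖x‖) - ∫ x, u x ^ 3 * w x / ‖x‖ := by
      rw [← integral_sub t3.2.1 t2.2.1]
      congr 1; ext x; ring
    have e4 := heq (φ n) (hφ n)
    have e5 : T = -((∫ x, (inner ℝ (G x) (gradient (φ n) x - K x) : ℝ))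
        + (∫ x, u x ^ 4 * (φ n x - w x)) - (∫ x, u x ^ 3 * (φ n x - w x) / ‖x‖)) := by
      rw [e1, e2, e3, hT]; linarith
    rw [e5, abs_neg]
    calc |(∫ x, (inner ℝ (G x) (gradient (φ n) x - K x) : ℝ))
        + (∫ x, u x ^ 4 * (φ n x - w x)) - (∫ x, u x ^ 3 * (φ n x - w x) / ‖x‖)|
        ≤ |(∫ x, (inner ℝ (G x) (gradient (φ n) x - K x) : ℝ))|
        + |(∫ x, u x ^ 4 * (φ n x - w x))| + |(∫ x, u x ^ 3 * (φ n x - w x) / ‖x‖)| := by
          refine (abs_sub _ _).trans ?_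
          gcongr
          exact abs_add_le _ _
      _ ≤ _ := by
          rw [hC]
          have := t1.1.2
          have := t1.2.2
          linarith
  have hlim : Tendsto (fun n => C * nr 2 (fun x => gradient (φ n) x - K x)) atTop (𝓝 (C * 0)) := by
    apply Tendsto.const_mul
    unfold nr
    have := (ENNReal.tendsto_toReal (a := 0) (by norm_num)).comp h2
    simpa [Function.comp_def] using this
  rw [mul_zero] at hlim
  have h0 : |T| ≤ 0 := ge_of_tendsto' hlim key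
  exact abs_nonpos_iff.mp h0

end Pool.Agent.X102.Pz
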