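import Mathlib
import Pool.Agent.X102.PzD

set_option autoImplicit false

open MeasureTheory Filter Topology Set
open scoped ENNReal NNReal ContDiff

namespace Pool.Agent.X102.Pz

variable {Ω : Set E} {u : E → ℝ} {G : E → E}

lemma memLp_sq (hu : HH Ω u G) : MemLp (fun x => u x ^ 2) 2 volume := by
  have hu6 := hu.sobolev.1
  have hu3 : MemLp (fun x => u x ^ 3) 2 volume := by
    have := (holder3 hu6 hu6 hu6).1
    refine this.congr_norm (hu6.1.pow 3) (Eventually.of_forall fun x => by ring_nf)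
  have h1 : MemLp (fun x => ‖u x‖ + ‖u x ^ 3‖) 2 volume := hu.1.norm.add hu3.norm
  refine h1.mono (hu6.1.pow 2) (Eventually.of_forall fun x => ?_)
  simp only [norm_pow, Real.norm_eq_abs]
  rw [abs_of_nonneg (by positivity : 0 ≤ |u x| + |u x| ^ 3)]
  nlinarith [abs_nonneg (u x), mul_nonneg (abs_nonneg (u x)) (sq_nonneg (|u x| - 1))]

lemma memLp_cube (hu : HH Ω u G) : MemLp (fun x => u x ^ 3) 2 volume := by
  have hu6 := hu.sobolev.1
  have := (holder3 hu6 hu6 hu6).1
  exact this.congr_norm (hu6.1.pow 3) (Eventually.of_forall fun x => by ring_nf)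

/-- `u⁵` is integrable -/
lemma int_five (hu : HH Ω u G) : Integrable (fun x => u x ^ 5) volume := by
  have := (CSr (memLp_sq hu) (memLp_cube hu)).1
  refine this.congr (Eventually.of_forall fun x => ?_)
  simp only
  ring

lemma int_four_div (hu : HH Ω u G) : Integrable (fun x => u x ^ 4 / ‖x‖) volume := by
  have := (CSr (memLp_cube hu) hu.hardy.1).1
  refine this.congr (Eventually.of_forall fun x => ?_)
  simp only
  ring

lemma integral_dil (f : E → ℝ) {l : ℝ} (hl : 0 < l) :
    ∫ x, f (l • x) = (l ^ 3)⁻¹ * ∫ x, f x := by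
  rw [Measure.integral_comp_smul_of_nonneg volume f l (hR := hl.le), finrank_E, smul_eq_mul]

lemma sqrt_four {l : ℝ} (hl : 0 ≤ l) : Real.sqrt l ^ 4 = l ^ 2 := by
  rw [show Real.sqrt l ^ 4 = (Real.sqrt l ^ 2) ^ 2 by ring, Real.sq_sqrt hl]

/-- scaling invariance of the Hardy-Sobolev integral -/
lemma scale_four {l : ℝ} (hl : 0 < l) :
    ∫ x, dil l u x ^ 4 / ‖x‖ = ∫ x, u x ^ 4 / ‖x‖ := by
  have h1 : (fun x : E => dil l u x ^ 4 / ‖x‖)
      = fun x => (fun y : E => l ^ 3 * (u y ^ 4 / ‖y‖)) (l • x) := by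
    ext x
    simp only [dil, mul_pow, sqrt_four hl.le, norm_smul, Real.norm_of_nonneg hl.le]
    by_cases hx : ‖x‖ = 0
    · simp [hx]
    · field_simp
  rw [h1, integral_dil (fun y : E => l ^ 3 * (u y ^ 4 / ‖y‖)) hl, integral_const_mul]
  field_simp

lemma scale_five {l : ℝ} (hl : 0 < l) :
    ∫ x, dil l u x ^ 5 = (Real.sqrt l)⁻¹ * ∫ x, u x ^ 5 := by
  have hs : 0 < Real.sqrt l := Real.sqrt_pos.mpr hl
  have h1 : (fun x : E => dil l u x ^ 5)
      = fun x => (fun y : E => (Real.sqrt l) ^ 5 * u y ^ 5) (l • x) := by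
    ext x
    simp only [dil, mul_pow]
  rw [h1, integral_dil (fun y : E => (Real.sqrt l) ^ 5 * u y ^ 5) hl, integral_const_mul,
    ← mul_assoc]
  congr 1
  rw [show Real.sqrt l ^ 5 = Real.sqrt l ^ 4 * Real.sqrt l by ring, sqrt_four hl.le]
  rw [inv_mul_eq_div, div_eq_iff (by positivity)]
  have : l = Real.sqrt l * Real.sqrt l := (Real.mul_self_sqrt hl.le).symm
  field_simp
  nlinarith [Real.mul_self_sqrt hl.le]

set_option maxHeartbeats 2000000 in
/-- The Pohozaev-type nonexistence statement. -/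
theorem nonexistence (hstar : ∀ l : ℝ, 1 < l → ∀ x, l • x ∈ Ω → x ∈ Ω)
    (hu : HH Ω u G) (hpos : ∀ᵐ x, 0 ≤ u x)
    (heq : ∀ ψ, Test Ω ψ → (∫ x, (inner ℝ (G x) (gradient ψ x) : ℝ)) + (∫ x, u x ^ 4 * ψ x)
      - (∫ x, u x ^ 3 * ψ x / ‖x‖) = 0) : ∫ x, u x ^ 5 = 0 := by
  set I5 := ∫ x, u x ^ 5 with hI5
  have hI5nn : 0 ≤ I5 := by
    apply integral_nonneg_of_ae
    filter_upwards [hpos] with x hx
    positivity
  set C3 := 8 * nr 2 (fun x => u x ^ 3) * nr 2 G with hC3
  set C4 := 24 * (nr 6 u * nr 6 u * CS) * nr 2 G with hC4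
  have hC3nn : 0 ≤ C3 := by
    have := nr_nonneg 2 (fun x => u x ^ 3)
    have := nr_nonneg 2 G
    positivity
  have hC4nn : 0 ≤ C4 := by
    have := nr_nonneg 6 u
    have := nr_nonneg 2 G
    positivity
  have key : ∀ l : ℝ, 1 < l → l ≤ 4 → I5 / 30 ≤ (C4 / 4) * Real.sqrt (C3 * (l - 1)) := by
    intro l hl hl4
    have hl0 : 0 < l := by linarith
    have hs0 : 0 < Real.sqrt l := Real.sqrt_pos.mpr hl0
    have hul : HH Ω (dil l u) (dilG l G) := hu.dil' hl0 (hstar l hl)
    have hD := hul.sub hu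
    set D : E → ℝ := fun x => dil l u x - u x with hDdef
    set δ := nr 2 (fun x => dilG l G x - G x) with hδ
    have hδ0 : 0 ≤ δ := nr_nonneg _ _
    have hW := weak_ext hu heq hD
    have hT := terms hu hD
    -- (I)
    have hI : ∫ x, (inner ℝ (G x) (dilG l G x - G x) : ℝ) = -(1 / 2) * δ ^ 2 := by
      have hsub : hD.2.1.toLp (fun x => dilG l G x - G x)
          = hul.2.1.toLp (dilG l G) - hu.2.1.toLp G := by
        rw [← MemLp.toLp_sub]
        rfl
      rw [(CSv hu.2.1 hD.2.1).2, hsub]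
      set a := hu.2.1.toLp G with ha
      set b := hul.2.1.toLp (dilG l G) with hb
      have hab : ‖b‖ = ‖a‖ := by
        rw [ha, hb, norm_toLp_eq, norm_toLp_eq]
        unfold nr
        rw [eLpNorm_dilG hl0]
      have hδ' : δ = ‖b - a‖ := by
        rw [hδ, ← norm_toLp_eq hD.2.1, hsub]
      have h1 := norm_sub_sq_real b a
      rw [hδ', inner_sub_right, real_inner_self_eq_norm_sq, real_inner_comm]
      rw [hab] at h1
      linarith
    -- (II)
    have hII : ∫ x, u x ^ 4 * D x ≤ -(1 / 5) * (1 - (Real.sqrt l)⁻¹) * I5 := by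
      have h5 := int_five hu
      have h5l := int_five hul
      have h1 : ∫ x, u x ^ 4 * D x ≤ ∫ x, ((1 / 5) * dil l u x ^ 5 - (1 / 5) * u x ^ 5) := by
        apply integral_mono_ae hT.1.1 ((h5l.const_mul _).sub (h5.const_mul _))
        filter_upwards [hpos, ae_dil hpos hl0] with x hx hx2
        have hb : 0 ≤ dil l u x := mul_nonneg hs0.le hx2
        simp only [hDdef]
        set a := u x
        set b := dil l u x
        have : 4 * a ^ 5 + b ^ 5 - 5 * a ^ 4 * b
          = (a - b) ^ 2 * (4 * a ^ 3 + 3 * a ^ 2 * b + 2 * a * b ^ 2 + b ^ 3) := by ring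
        have h2 : 0 ≤ (a - b) ^ 2 * (4 * a ^ 3 + 3 * a ^ 2 * b + 2 * a * b ^ 2 + b ^ 3) := by
          positivity
        change a ^ 4 * (b - a) ≤ (1 / 5) * b ^ 5 - (1 / 5) * a ^ 5
        have h3 : a ^ 4 * (b - a) = a ^ 4 * b - a ^ 5 := by ring
        rw [h3]
        linarith
      rw [integral_sub (h5l.const_mul _) (h5.const_mul _), integral_const_mul, integral_const_mul,
        scale_five hl0] at h1
      refine h1.trans (le_of_eq ?_)
      ring
    -- (III)
    have hdn : nr 2 (fun x => D x / ‖x‖) ≤ 4 * (l - 1) * nr 2 G := by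
      have h1 := (hu.dil_sub hl hl4).2
      unfold nr
      have h2 : 4 * (l - 1) * (eLpNorm G 2 volume).toReal
          = (ENNReal.ofReal (4 * (l - 1)) * eLpNorm G 2 volume).toReal := by
        rw [ENNReal.toReal_mul, ENNReal.toReal_ofReal (by nlinarith)]
      rw [h2]
      exact ENNReal.toReal_mono (ENNReal.mul_ne_top ENNReal.ofReal_ne_top hu.2.1.2.ne) h1
    have hdm : MemLp (fun x => D x / ‖x‖) 2 volume := (hu.dil_sub hl hl4).1
    have hIII : |∫ x, u x ^ 3 * D x / ‖x‖| ≤ nr 2 (fun x => u x ^ 3) * (4 * (l - 1) * nr 2 G) := by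
      have h1 := (CSr (memLp_cube hu) hdm).2
      have e : (fun x => u x ^ 3 * (D x / ‖x‖)) = fun x => u x ^ 3 * D x / ‖x‖ := by
        ext x; ring
      rw [e] at h1
      exact h1.trans (mul_le_mul_of_nonneg_left hdn (nr_nonneg _ _))
    -- (IV)
    have hn6D : nr 6 D ≤ CS * δ := by
      have h1 := hD.sobolev.2
      unfold nr at *
      rw [hδ, ← ENNReal.coe_toReal, ← ENNReal.toReal_mul]
      exact ENNReal.toReal_mono (ENNReal.mul_ne_top ENNReal.coe_ne_top hD.2.1.2.ne) h1
    have hIV : -(C4 * δ * (l - 1)) ≤ 4 * ∫ x, u x ^ 3 * D x / ‖x‖ := by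
      have m1 := holder3 hul.sobolev.1 hul.sobolev.1 hD.sobolev.1
      have m2 := holder3 hu.sobolev.1 hu.sobolev.1 hD.sobolev.1
      have c1 := CSr m1.1 hdm
      have c2 := CSr m2.1 hdm
      rw [nr_dil_six hl0] at m1
      have i4 := int_four_div hu
      have i4l := int_four_div hul
      have iA : Integrable (fun x => dil l u x ^ 4 / ‖x‖ - u x ^ 4 / ‖x‖) volume := i4l.sub i4
      have iB : Integrable (fun x => 2 * ((dil l u x * dil l u x * D x) * (D x / ‖x‖))
            + 4 * ((u x * u x * D x) * (D x / ‖x‖))) volume :=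
        (c1.1.const_mul 2).add (c2.1.const_mul 4)
      have hineq : ∫ x, (dil l u x ^ 4 / ‖x‖ - u x ^ 4 / ‖x‖
          - (2 * ((dil l u x * dil l u x * D x) * (D x / ‖x‖))
            + 4 * ((u x * u x * D x) * (D x / ‖x‖)))) ≤ ∫ x, 4 * (u x ^ 3 * D x / ‖x‖) := by
        apply integral_mono_ae
        · exact iA.sub iB
        · exact hT.2.1.const_mul 4
        · filter_upwards [hpos, ae_dil hpos hl0] with x hx hx2
          have hb : 0 ≤ dil l u x := mul_nonneg hs0.le hx2
          simp only [hDdef]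
          set a := u x
          set b := dil l u x
          have hx0 : 0 ≤ ‖x‖⁻¹ := by positivity
          have h3 : b ^ 4 - a ^ 4 - (2 * (b * b * (b - a) * (b - a)) + 4 * (a * a * (b - a) * (b - a)))
              ≤ 4 * (a ^ 3 * (b - a)) := by
            have : 4 * (a ^ 3 * (b - a)) - (b ^ 4 - a ^ 4 - (2 * (b * b * (b - a) * (b - a))
              + 4 * (a * a * (b - a) * (b - a)))) = (b - a) ^ 2 * ((b - a) ^ 2) := by ring
            have h4 : 0 ≤ (b - a) ^ 2 * ((b - a) ^ 2) := by positivity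
            linarith
          have h4 := mul_le_mul_of_nonneg_right h3 hx0
          simp only [div_eq_mul_inv]
          linarith
      rw [integral_sub iA iB,
        integral_sub i4l i4, scale_four hl0, sub_self, zero_sub,
        integral_add (c1.1.const_mul 2) (c2.1.const_mul 4), integral_const_mul, integral_const_mul,
        integral_const_mul] at hineq
      have b1 := (abs_le.mp c1.2).2
      have b2 := (abs_le.mp c2.2).2
      have hn := nr_nonneg 6 u
      have hn2 := nr_nonneg 2 G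
      have q1 : nr 2 (fun x => dil l u x * dil l u x * D x) * nr 2 (fun x => D x / ‖x‖)
          ≤ (nr 6 u * nr 6 u * (CS * δ)) * (4 * (l - 1) * nr 2 G) := by
        apply mul_le_mul _ hdn (nr_nonneg _ _) (by positivity)
        exact m1.2.trans (mul_le_mul_of_nonneg_left hn6D (by positivity))
      have q2 : nr 2 (fun x => u x * u x * D x) * nr 2 (fun x => D x / ‖x‖)
          ≤ (nr 6 u * nr 6 u * (CS * δ)) * (4 * (l - 1) * nr 2 G) := by
        apply mul_le_mul _ hdn (nr_nonneg _ _) (by positivity)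
        exact m2.2.trans (mul_le_mul_of_nonneg_left hn6D (by positivity))
      have e4 : C4 * δ * (l - 1) = 6 * ((nr 6 u * nr 6 u * (CS * δ)) * (4 * (l - 1) * nr 2 G)) := by
        rw [hC4]; ring
      rw [e4]
      linarith
    -- combine
    rw [hI] at hW
    have hδsq : δ ^ 2 ≤ C3 * (l - 1) := by
      have h1 := (abs_le.mp hIII).1
      have h2 : (Real.sqrt l)⁻¹ ≤ 1 := by
        apply inv_le_one_of_one_le₀
        rw [Real.one_le_sqrt]; exact hl.le
      have h3 : 0 ≤ (1 / 5) * (1 - (Real.sqrt l)⁻¹) * I5 := by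
        apply mul_nonneg _ hI5nn
        linarith
      have h4 : C3 * (l - 1) = 2 * (nr 2 (fun x => u x ^ 3) * (4 * (l - 1) * nr 2 G)) := by
        rw [hC3]; ring
      rw [h4]
      linarith
    have hδ1 : δ ≤ Real.sqrt (C3 * (l - 1)) := Real.le_sqrt_of_sq_le hδsq
    have hκ : (l - 1) / 6 ≤ 1 - (Real.sqrt l)⁻¹ := by
      have h1 : Real.sqrt l ≤ 2 := by
        rw [Real.sqrt_le_left (by norm_num)]; linarith
      have h2 : Real.sqrt l * Real.sqrt l = l := Real.mul_self_sqrt hl0.le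
      have h3 : 1 < Real.sqrt l := by
        rw [Real.lt_sqrt (by norm_num)]; linarith
      have h4 : 1 - (Real.sqrt l)⁻¹ = (Real.sqrt l - 1) / Real.sqrt l := by
        field_simp
      rw [h4, div_le_div_iff₀ (by norm_num) hs0]
      have h5 : l - 1 = (Real.sqrt l - 1) * (Real.sqrt l + 1) := by
        linear_combination -h2
      rw [h5]
      have h6 : 0 ≤ Real.sqrt l - 1 := by linarith
      have h7 : (Real.sqrt l + 1) * Real.sqrt l ≤ 6 := by nlinarith
      calc (Real.sqrt l - 1) * (Real.sqrt l + 1) * Real.sqrt l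
          = (Real.sqrt l - 1) * ((Real.sqrt l + 1) * Real.sqrt l) := by ring
        _ ≤ (Real.sqrt l - 1) * 6 := mul_le_mul_of_nonneg_left h7 h6
    have hfin : (1 / 5) * (1 - (Real.sqrt l)⁻¹) * I5 ≤ (C4 / 4) * δ * (l - 1) := by
      have h9 := sq_nonneg δ
      have h10 : C4 * δ * (l - 1) = 4 * ((C4 / 4) * δ * (l - 1)) := by ring
      rw [h10] at hIV
      linarith
    have h7 : (1 / 5) * ((l - 1) / 6) * I5 ≤ (C4 / 4) * Real.sqrt (C3 * (l - 1)) * (l - 1) := by
      calc (1 / 5) * ((l - 1) / 6) * I5 ≤ (1 / 5) * (1 - (Real.sqrt l)⁻¹) * I5 := by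
            apply mul_le_mul_of_nonneg_right _ hI5nn
            linarith
        _ ≤ (C4 / 4) * δ * (l - 1) := hfin
        _ ≤ (C4 / 4) * Real.sqrt (C3 * (l - 1)) * (l - 1) := by
            apply mul_le_mul_of_nonneg_right _ (by linarith)
            exact mul_le_mul_of_nonneg_left hδ1 (by positivity)
    have h8 : (I5 / 30) * (l - 1) ≤ ((C4 / 4) * Real.sqrt (C3 * (l - 1))) * (l - 1) := by
      linarith
    exact le_of_mul_le_mul_right h8 (by linarith)
  have hlim : Tendsto (fun l : ℝ => (C4 / 4) * Real.sqrt (C3 * (l - 1))) (𝓝[>] 1) (𝓝 0) := by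
    have hc : Continuous (fun l : ℝ => (C4 / 4) * Real.sqrt (C3 * (l - 1))) := by fun_prop
    have := hc.tendsto 1
    simp only [sub_self, mul_zero, Real.sqrt_zero] at this
    exact this.mono_left nhdsWithin_le_nhds
  have hle : I5 / 30 ≤ 0 := by
    refine ge_of_tendsto hlim ?_
    filter_upwards [Ioc_mem_nhdsGT (show (1 : ℝ) < 4 by norm_num)] with l hl
    exact key l hl.1 hl.2
  linarith

end Pool.Agent.X102.Pz
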