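import Mathlib

/-! A Simons-type lemma: from a bounded sequence tending to zero pointwise on `W`, all of whose
convex combinations have supremum at least `1` over `W`, one gets a vector not attaining its
supremum over `W`. -/

namespace Pool.Agent.X102.BSP

open Filter Topology Set

variable {V W : Type*} [NormedAddCommGroup V] [NormedSpace ℝ V] [Nonempty W]

/-- supremum over `W` -/
noncomputable def sp (ev : W → V →ₗ[ℝ] ℝ) (v : V) : ℝ := ⨆ w, ev w v

theorem bdd (ev : W → V →ₗ[ℝ] ℝ) (hev : ∀ w v, ev w v ≤ ‖v‖) (v : V) :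
    BddAbove (range fun w => ev w v) := ⟨‖v‖, by rintro _ ⟨w, rfl⟩; exact hev w v⟩

theorem le_sp {ev : W → V →ₗ[ℝ] ℝ} (hev : ∀ w v, ev w v ≤ ‖v‖) (w : W) (v : V) :
    ev w v ≤ sp ev v := le_ciSup (bdd ev hev v) w

theorem sp_le_add {ev : W → V →ₗ[ℝ] ℝ} (hev : ∀ w v, ev w v ≤ ‖v‖) (u v : V) :
    sp ev u ≤ sp ev v + ‖u - v‖ := by
  apply ciSup_le
  intro w
  have h1 := le_sp hev w v
  have h2 := hev w (u - v)
  rw [map_sub] at h2
  linarith

theorem neg_norm_le_sp {ev : W → V →ₗ[ℝ] ℝ} (hev : ∀ w v, ev w v ≤ ‖v‖) (v : V) :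
    -‖v‖ ≤ sp ev v := by
  obtain ⟨w⟩ := ‹Nonempty W›
  have h1 := hev w (-v)
  rw [map_neg, norm_neg] at h1
  have h2 := le_sp hev w v
  linarith

variable [CompleteSpace V]

theorem simons {ev : W → V →ₗ[ℝ] ℝ} (hev : ∀ w v, ev w v ≤ ‖v‖) (f : ℕ → V) {C : ℝ}
    (hC : ∀ n, ‖f n‖ ≤ C) (hM : ∀ g ∈ convexHull ℝ (range f), 1 ≤ sp ev g)
    (hlim : ∀ w, Tendsto (fun n => ev w (f n)) atTop (𝓝 0)) :
    ∃ h : V, ∀ w, ev w h < sp ev h := by
  classical
  have hC0 : 0 ≤ C := (norm_nonneg _).trans (hC 0)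
  set S : ℕ → Set V := fun k => convexHull ℝ (f '' {n | k ≤ n}) with hS
  have hSmono : ∀ k, S (k + 1) ⊆ S k := by
    intro k
    apply convexHull_mono
    apply image_mono
    intro n hn
    exact (Nat.le_succ k).trans hn
  have hSne : ∀ k, (S k).Nonempty := fun k =>
    ⟨f k, subset_convexHull ℝ _ ⟨k, (le_refl k : k ≤ k), rfl⟩⟩
  have hSr : ∀ k, S k ⊆ convexHull ℝ (range f) := fun k => convexHull_mono (image_subset_range _ _)
  have hSC : ∀ k, ∀ g ∈ S k, ‖g‖ ≤ C := by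
    intro k g hg
    have hconv : Convex ℝ (Metric.closedBall (0 : V) C) := convex_closedBall 0 C
    have : S k ⊆ Metric.closedBall (0 : V) C := by
      apply convexHull_min _ hconv
      rintro _ ⟨n, _, rfl⟩
      simpa using hC n
    simpa using this hg
  -- near minimisers
  have hmin : ∀ (k : ℕ) (h : V), ∃ g ∈ S k, ∀ g' ∈ S k,
      sp ev (h + (1 / 2 : ℝ) ^ k • g) ≤ sp ev (h + (1 / 2 : ℝ) ^ k • g')
        + (1 / 12) * (1 / 4 : ℝ) ^ k := by
    intro k h
    set T : Set ℝ := (fun g => sp ev (h + (1 / 2 : ℝ) ^ k • g)) '' S k with hT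
    have hTne : T.Nonempty := (hSne k).image _
    have hTb : BddBelow T := by
      refine ⟨-(‖h‖ + (1 / 2 : ℝ) ^ k * C), ?_⟩
      rintro _ ⟨g, hg, rfl⟩
      refine le_trans ?_ (neg_norm_le_sp hev _)
      have h1 := norm_add_le h ((1 / 2 : ℝ) ^ k • g)
      rw [norm_smul, Real.norm_of_nonneg (by positivity)] at h1
      have h2 := mul_le_mul_of_nonneg_left (hSC k g hg) (by positivity : (0:ℝ) ≤ (1 / 2) ^ k)
      linarith
    have hpos : (0 : ℝ) < (1 / 12) * (1 / 4 : ℝ) ^ k := by positivity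
    obtain ⟨_, ⟨g, hg, rfl⟩, hlt⟩ := Real.lt_sInf_add_pos hTne hpos
    refine ⟨g, hg, fun g' hg' => ?_⟩
    have := csInf_le hTb ⟨g', hg', rfl⟩
    dsimp only at hlt this
    linarith
  choose G hGS hG using hmin
  -- the partial sums
  let H : ℕ → V := fun n => Nat.rec 0 (fun k h => h + (1 / 2 : ℝ) ^ (k + 1) • G k h) n
  have hH0 : H 0 = 0 := rfl
  have hH1 : ∀ k, H (k + 1) = H k + (1 / 2 : ℝ) ^ (k + 1) • G k (H k) := fun k => rfl
  set g : ℕ → V := fun k => G k (H k) with hg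
  have hgS : ∀ k, g k ∈ S k := fun k => hGS k (H k)
  have hgmin : ∀ k, ∀ g' ∈ S k, sp ev (H k + (1 / 2 : ℝ) ^ k • g k)
      ≤ sp ev (H k + (1 / 2 : ℝ) ^ k • g') + (1 / 12) * (1 / 4 : ℝ) ^ k :=
    fun k => hG k (H k)
  have hdist : ∀ n, dist (H n) (H (n + 1)) ≤ C / 2 / 2 ^ n := by
    intro n
    rw [hH1, dist_eq_norm]
    have e : H n - (H n + (1 / 2 : ℝ) ^ (n + 1) • G n (H n))
        = -((1 / 2 : ℝ) ^ (n + 1) • G n (H n)) := by abel
    rw [e, norm_neg, norm_smul, Real.norm_of_nonneg (by positivity)]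
    have h1 := mul_le_mul_of_nonneg_left (hSC n _ (hgS n)) (by positivity : (0:ℝ) ≤ (1 / 2) ^ (n+1))
    refine h1.trans (le_of_eq ?_)
    rw [pow_succ, one_div, inv_pow]
    field_simp
  obtain ⟨h, hh⟩ := cauchySeq_tendsto_of_complete (cauchySeq_of_le_geometric_two hdist)
  have hdh : ∀ n, ‖H n - h‖ ≤ C / 2 ^ n := by
    intro n
    rw [← dist_eq_norm]
    exact dist_le_of_le_geometric_two_of_tendsto hdist hh n
  -- m k
  set m : ℕ → ℝ := fun k => sp ev (H k + (1 / 2 : ℝ) ^ k • g k) with hm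
  have hmstep : ∀ k, m k ≤ m (k + 1) + (1 / 12) * (1 / 4 : ℝ) ^ k := by
    intro k
    have hmem : (1 / 2 : ℝ) • g k + (1 / 2 : ℝ) • g (k + 1) ∈ S k :=
      (convex_convexHull ℝ _) (hgS k) (hSmono k (hgS (k + 1))) (by norm_num) (by norm_num)
        (by norm_num)
    have h1 := hgmin k _ hmem
    have e : H k + (1 / 2 : ℝ) ^ k • ((1 / 2 : ℝ) • g k + (1 / 2 : ℝ) • g (k + 1))
        = H (k + 1) + (1 / 2 : ℝ) ^ (k + 1) • g (k + 1) := by
      rw [hH1, smul_add, smul_smul, smul_smul, ← pow_succ, add_assoc]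
    rw [e] at h1
    exact h1
  have hmlim : Tendsto m atTop (𝓝 (sp ev h)) := by
    have hb : ∀ k, |m k - sp ev h| ≤ 2 * C / 2 ^ k := by
      intro k
      have hn : ‖H k + (1 / 2 : ℝ) ^ k • g k - h‖ ≤ 2 * C / 2 ^ k := by
        have e : H k + (1 / 2 : ℝ) ^ k • g k - h = (H k - h) + (1 / 2 : ℝ) ^ k • g k := by abel
        rw [e]
        refine (norm_add_le _ _).trans ?_
        rw [norm_smul, Real.norm_of_nonneg (by positivity)]
        have h1 := mul_le_mul_of_nonneg_left (hSC k _ (hgS k))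
          (by positivity : (0:ℝ) ≤ (1 / 2) ^ k)
        have e2 : (1 / 2 : ℝ) ^ k * C = C / 2 ^ k := by
          rw [one_div, inv_pow]; field_simp
        rw [e2] at h1
        have e3 : 2 * C / 2 ^ k = C / 2 ^ k + C / 2 ^ k := by ring
        rw [e3]
        exact add_le_add (hdh k) h1
      have h1 := sp_le_add hev (H k + (1 / 2 : ℝ) ^ k • g k) h
      have h2 := sp_le_add hev h (H k + (1 / 2 : ℝ) ^ k • g k)
      rw [norm_sub_rev] at h2
      rw [abs_le]
      constructor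
      · show -(2 * C / 2 ^ k) ≤ sp ev (H k + (1 / 2 : ℝ) ^ k • g k) - sp ev h
        linarith
      · show sp ev (H k + (1 / 2 : ℝ) ^ k • g k) - sp ev h ≤ 2 * C / 2 ^ k
        linarith
    have hz : Tendsto (fun k : ℕ => 2 * C / 2 ^ k) atTop (𝓝 0) := by
      have h1 := (tendsto_pow_atTop_nhds_zero_of_lt_one (r := (1 / 2 : ℝ)) (by norm_num)
        (by norm_num)).const_mul (2 * C)
      rw [mul_zero] at h1
      refine h1.congr (fun k => ?_)
      rw [one_div, inv_pow]; field_simp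
    rw [tendsto_iff_norm_sub_tendsto_zero]
    exact squeeze_zero (fun k => norm_nonneg _) hb hz
  have hmono : Monotone fun k => m k - (1 / 6) * (1 / 4 : ℝ) ^ k := by
    apply monotone_nat_of_le_succ
    intro k
    have h1 := hmstep k
    have h2 : (0 : ℝ) < (1 / 4 : ℝ) ^ k := by positivity
    rw [pow_succ]
    linarith
  have hmle : ∀ k, m k ≤ sp ev h + (1 / 6) * (1 / 4 : ℝ) ^ k := by
    intro k
    have hz : Tendsto (fun k : ℕ => (1 / 6) * (1 / 4 : ℝ) ^ k) atTop (𝓝 0) := by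
      have h1 := (tendsto_pow_atTop_nhds_zero_of_lt_one (r := (1 / 4 : ℝ)) (by norm_num)
        (by norm_num)).const_mul (1 / 6 : ℝ)
      rwa [mul_zero] at h1
    have h1 := hmlim.sub hz
    rw [sub_zero] at h1
    have h2 : m k - (1 / 6) * (1 / 4 : ℝ) ^ k ≤ sp ev h := hmono.ge_of_tendsto h1 k
    linarith
  refine ⟨h, fun w => ?_⟩
  rcases lt_or_eq_of_le (le_sp hev w h) with hlt | heq
  · exact hlt
  exfalso
  -- r k
  set r : ℕ → ℝ := fun k => 2 ^ k * ev w (h - H k) with hr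
  have hr0 : 1 - 1 / 6 ≤ r 0 := by
    have h1 := hmle 0
    have h2 : 1 ≤ m 0 := by
      show 1 ≤ sp ev (H 0 + (1 / 2 : ℝ) ^ 0 • g 0)
      rw [hH0, zero_add, pow_zero, one_smul]
      exact hM _ (hSr 0 (hgS 0))
    have h3 : r 0 = sp ev h := by
      show 2 ^ 0 * ev w (h - H 0) = _
      rw [hH0, sub_zero, pow_zero, one_mul, heq]
    rw [h3]
    rw [pow_zero] at h1
    linarith
  have hrec : ∀ k, r (k + 1) = 2 * r k - ev w (g k) := by
    intro k
    show 2 ^ (k + 1) * ev w (h - H (k + 1)) = 2 * (2 ^ k * ev w (h - H k)) - ev w (g k)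
    have e : h - H (k + 1) = (h - H k) - (1 / 2 : ℝ) ^ (k + 1) • g k := by
      rw [hH1]; abel
    rw [e, map_sub, map_smul, smul_eq_mul, mul_sub, ← mul_assoc (2 ^ (k + 1)) ((1 / 2 : ℝ) ^ (k + 1)),
      ← mul_pow]
    norm_num
    ring
  have hup : ∀ k, ev w (g k) ≤ r k + (1 / 6) * (1 / 2 : ℝ) ^ k := by
    intro k
    have h1 := hmle k
    have h2 := le_sp hev w (H k + (1 / 2 : ℝ) ^ k • g k)
    rw [map_add, map_smul, smul_eq_mul] at h2
    have h3 : ev w (H k) + (1 / 2 : ℝ) ^ k * ev w (g k)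
        ≤ ev w h + (1 / 6) * (1 / 4 : ℝ) ^ k := by
      rw [heq]; exact h2.trans h1
    have h4 : (1 / 2 : ℝ) ^ k * ev w (g k) ≤ ev w (h - H k) + (1 / 6) * (1 / 4 : ℝ) ^ k := by
      rw [map_sub]; linarith
    have h5 := mul_le_mul_of_nonneg_left h4 (by positivity : (0:ℝ) ≤ 2 ^ k)
    have e1 : (2 : ℝ) ^ k * ((1 / 2 : ℝ) ^ k * ev w (g k)) = ev w (g k) := by
      rw [← mul_assoc, ← mul_pow]; norm_num
    have e2 : (2 : ℝ) ^ k * (ev w (h - H k) + (1 / 6) * (1 / 4 : ℝ) ^ k)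
        = r k + (1 / 6) * (1 / 2 : ℝ) ^ k := by
      have e3 : (2 : ℝ) ^ k * (1 / 4 : ℝ) ^ k = (1 / 2 : ℝ) ^ k := by
        rw [← mul_pow]; norm_num
      show _ = 2 ^ k * ev w (h - H k) + (1 / 6) * (1 / 2 : ℝ) ^ k
      rw [← e3]; ring
    rw [e1, e2] at h5
    exact h5
  have hlow : ∀ k, 1 / 2 + (1 / 3) * (1 / 2 : ℝ) ^ k ≤ r k := by
    intro k
    induction k with
    | zero => rw [pow_zero]; linarith
    | succ k ih =>
      rw [hrec, pow_succ]
      have := hup k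
      linarith
  -- eventually ev w (g k) ≤ 1/4
  have hev4 : ∀ᶠ n in atTop, ev w (f n) < 1 / 4 := (hlim w).eventually_lt_const (by norm_num)
  obtain ⟨N, hN⟩ := eventually_atTop.mp hev4
  have hg4 : ∀ k, N ≤ k → ev w (g k) ≤ 1 / 4 := by
    intro k hk
    have hsub : S k ⊆ {v | ev w v ≤ 1 / 4} := by
      apply convexHull_min
      · rintro _ ⟨n, hn, rfl⟩
        exact (hN n (hk.trans hn)).le
      · exact convex_halfSpace_le (ev w).isLinear _
    exact hsub (hgS k)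
  have hgrow : ∀ l : ℕ, 1 / 4 * 2 ^ l ≤ r (N + l) - 1 / 4 := by
    intro l
    induction l with
    | zero =>
      have := hlow N
      have h2 : (0 : ℝ) < (1 / 2 : ℝ) ^ N := by positivity
      rw [pow_zero, Nat.add_zero]
      linarith
    | succ l ih =>
      have h1 := hrec (N + l)
      have h2 := hg4 (N + l) (Nat.le_add_right _ _)
      rw [← Nat.add_assoc, h1, pow_succ]
      linarith
  have hrC : ∀ k, r k ≤ C := by
    intro k
    have h1 := hev w (h - H k)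
    have h2 := hdh k
    rw [norm_sub_rev] at h2
    have h3 := mul_le_mul_of_nonneg_left (h1.trans h2) (by positivity : (0:ℝ) ≤ 2 ^ k)
    have e : (2 : ℝ) ^ k * (C / 2 ^ k) = C := by field_simp
    rw [e] at h3
    exact h3
  have hT : Tendsto (fun l : ℕ => 1 / 4 * (2 : ℝ) ^ l) atTop atTop :=
    (tendsto_pow_atTop_atTop_of_one_lt (by norm_num : (1:ℝ) < 2)).const_mul_atTop (by norm_num)
  obtain ⟨l, hl⟩ := (hT.eventually_gt_atTop C).exists
  have h1 := hgrow l
  have h2 := hrC (N + l)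
  linarith

end Pool.Agent.X102.BSP
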