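import Pool.Agent.X102.BS1

/-! Birkhoff-James orthogonality, the Bhatia-Semrl property, and operators whose supremum over the
states of an isometry is not attained. -/

namespace Pool.Agent.X102.BSP

open Filter Topology Set Metric

/-- Birkhoff–James orthogonality `u ⟂_B v`. -/
def BJ {E : Type*} [NormedAddCommGroup E] [NormedSpace ℝ E] (u v : E) : Prop :=
  ∀ l : ℝ, ‖u‖ ≤ ‖u + l • v‖

variable {X Y : Type*} [NormedAddCommGroup X] [NormedSpace ℝ X] [NormedAddCommGroup Y]
  [NormedSpace ℝ Y]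

/-- The Bhatia–Šemrl property. -/
def BhatiaSemrl (T : X →L[ℝ] Y) : Prop :=
  ∀ A : X →L[ℝ] Y, BJ T A → ∃ x : X, ‖x‖ = 1 ∧ ‖T x‖ = ‖T‖ ∧ BJ (T x) (A x)

/-- pairs `(x, f)` with `‖x‖ = 1`, `‖f‖ ≤ 1`, `f (T x) = 1` -/
abbrev St (T : X →L[ℝ] Y) : Type _ :=
  {w : X × (Y →L[ℝ] ℝ) // ‖w.1‖ = 1 ∧ ‖w.2‖ ≤ 1 ∧ w.2 (T w.1) = 1}

/-- evaluation of operators at a state -/
def ev (T : X →L[ℝ] Y) (w : St T) : (X →L[ℝ] Y) →ₗ[ℝ] ℝ where
  toFun A := w.1.2 (A w.1.1)
  map_add' A B := by simp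
  map_smul' c A := by simp

theorem ev_apply (T : X →L[ℝ] Y) (w : St T) (A : X →L[ℝ] Y) : ev T w A = w.1.2 (A w.1.1) := rfl

theorem abs_le_of (f : Y →L[ℝ] ℝ) (hf : ‖f‖ ≤ 1) (y : Y) : |f y| ≤ ‖y‖ := by
  have h := f.le_opNorm y
  rw [Real.norm_eq_abs] at h
  exact h.trans (mul_le_of_le_one_left (norm_nonneg _) hf)

theorem hev (T : X →L[ℝ] Y) (w : St T) (A : X →L[ℝ] Y) : ev T w A ≤ ‖A‖ := by
  rw [ev_apply]
  have h1 := abs_le_of w.1.2 w.2.2.1 (A w.1.1)
  have h2 := A.le_opNorm w.1.1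
  rw [w.2.1, mul_one] at h2
  exact (le_abs_self _).trans (h1.trans h2)

theorem exists_state {T : X →L[ℝ] Y} (hT : ∀ x, ‖T x‖ = ‖x‖) {x : X} (hx : ‖x‖ = 1) :
    ∃ w : St T, w.1.1 = x := by
  obtain ⟨g, hg1, hg2⟩ := exists_dual_vector'' ℝ (T x)
  refine ⟨⟨(x, g), hx, hg1, ?_⟩, rfl⟩
  rw [hg2, hT, hx]; simp

/-- Birkhoff–James orthogonality gives a supporting functional vanishing at `v`. -/
theorem exists_functional {u v : Y} (hu : ‖u‖ = 1) (h : BJ u v) :
    ∃ f : Y →L[ℝ] ℝ, ‖f‖ ≤ 1 ∧ f u = 1 ∧ f v = 0 := by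
  have hdis : Disjoint (ball u 1) (range fun l : ℝ => l • v) := by
    rw [Set.disjoint_left]
    rintro _ hb ⟨l, rfl⟩
    rw [mem_ball, dist_eq_norm] at hb
    have h1 := h (-l)
    rw [hu, neg_smul, ← sub_eq_add_neg, ← norm_neg, neg_sub] at h1
    exact absurd hb (not_lt.2 h1)
  have hconv : Convex ℝ (range fun l : ℝ => l • v) := by
    have : (range fun l : ℝ => l • v) = (Submodule.span ℝ {v} : Set Y) := by
      ext y; simp [Submodule.mem_span_singleton]
    rw [this]
    exact Submodule.convex _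
  obtain ⟨f, c, hf1, hf2⟩ := geometric_hahn_banach_open (convex_ball u 1) isOpen_ball hconv hdis
  have hc : c ≤ 0 := by
    have := hf2 ((0 : ℝ) • v) ⟨0, rfl⟩
    rwa [zero_smul, map_zero] at this
  have hfv : f v = 0 := by
    by_contra hne
    have h1 := hf2 (((c - 1) / f v) • v) ⟨_, rfl⟩
    rw [map_smul, smul_eq_mul, div_mul_cancel₀ _ hne] at h1
    linarith
  have hfu : f u < 0 := lt_of_lt_of_le (hf1 u (mem_ball_self one_pos)) hc
  have hbd : ∀ z : Y, ‖z‖ < 1 → f z ≤ - f u := by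
    intro z hz
    have := hf1 (u + z) (by rw [mem_ball, dist_eq_norm]; simpa using hz)
    rw [map_add] at this
    linarith
  have hnf : ‖f‖ ≤ - f u := by
    have hbd' : ∀ z : Y, ‖z‖ = 1 → f z ≤ - f u := by
      intro z hz
      by_contra hcon
      push Not at hcon
      have hfz : 0 < f z := by linarith
      have ht0 : 0 ≤ ((- f u) / f z + 1) / 2 := by
        have : 0 ≤ (- f u) / f z := div_nonneg (by linarith) hfz.le
        linarith
      have ht1 : ((- f u) / f z + 1) / 2 < 1 := by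
        have : (- f u) / f z < 1 := (div_lt_one hfz).2 hcon
        linarith
      have h1 := hbd ((((- f u) / f z + 1) / 2) • z) (by
        rw [norm_smul, hz, mul_one, Real.norm_eq_abs, abs_of_nonneg ht0]; exact ht1)
      rw [map_smul, smul_eq_mul] at h1
      have h2 : ((- f u) / f z + 1) / 2 * f z = (- f u + f z) / 2 := by
        field_simp
      rw [h2] at h1
      linarith
    apply ContinuousLinearMap.opNorm_le_of_unit_norm (by linarith)
    intro z hz
    rw [Real.norm_eq_abs, abs_le]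
    have h1 := hbd' z hz
    have h2 := hbd' (-z) (by rw [norm_neg, hz])
    rw [map_neg] at h2
    exact ⟨by linarith, h1⟩
  refine ⟨(f u)⁻¹ • f, ?_, ?_, ?_⟩
  · rw [norm_smul, norm_inv, Real.norm_eq_abs, abs_of_neg hfu]
    rw [inv_mul_le_iff₀ (by linarith), mul_one]
    exact hnf
  · rw [smul_apply, smul_eq_mul, inv_mul_cancel₀ hfu.ne]
  · rw [smul_apply, hfv, smul_zero]

theorem not_BS {T : X →L[ℝ] Y} (hT : ∀ x, ‖T x‖ = ‖x‖) [Nonempty (St T)] (h : X →L[ℝ] Y)
    (hh : ∀ w, ev T w h < sp (ev T) h) : ¬ BhatiaSemrl T := by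
  intro hBS
  set s := sp (ev T) h with hs
  have hT1 : ‖T‖ ≤ 1 := ContinuousLinearMap.opNorm_le_bound _ zero_le_one
    (fun x => by rw [hT, one_mul])
  have hev1 : ∀ (w : St T) (l : ℝ), ev T w (T + l • (s • T - h)) = 1 + l * (s - ev T w h) := by
    intro w l
    have h1 : ev T w T = 1 := w.2.2.2
    rw [map_add, map_smul, map_sub, map_smul, h1]
    simp
  have hBJ : BJ T (s • T - h) := by
    intro l
    refine hT1.trans ?_
    rcases le_or_gt 0 l with hl | hl
    · obtain ⟨w⟩ := ‹Nonempty (St T)›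
      have h1 := hev T w (T + l • (s • T - h))
      rw [hev1] at h1
      have h2 := hh w
      nlinarith [mul_nonneg hl (sub_nonneg.2 h2.le)]
    · apply le_of_forall_pos_le_add
      intro e he
      have hlt : s - e / (-l) < sp (ev T) h := by
        have : 0 < e / (-l) := div_pos he (by linarith)
        linarith
      obtain ⟨w, hw⟩ := exists_lt_of_lt_ciSup hlt
      have h1 := hev T w (T + l • (s • T - h))
      rw [hev1] at h1
      have h2 : (-l) * (s - ev T w h) ≤ e := by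
        have h3 : s - ev T w h ≤ e / (-l) := by linarith
        calc (-l) * (s - ev T w h) ≤ (-l) * (e / (-l)) :=
              mul_le_mul_of_nonneg_left h3 (by linarith)
          _ = e := mul_div_cancel₀ _ (by linarith)
      linarith
  obtain ⟨x, hx1, -, hx3⟩ := hBS _ hBJ
  obtain ⟨f, hf1, hf2, hf3⟩ := exists_functional (u := T x) (by rw [hT, hx1]) hx3
  have h1 := hh ⟨(x, f), hx1, hf1, hf2⟩
  have h2 : ev T ⟨(x, f), hx1, hf1, hf2⟩ h = s := by
    have : f ((s • T - h) x) = s * f (T x) - f (h x) := by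
      simp
    rw [this, hf2] at hf3
    show f (h x) = s
    linarith
  linarith

end Pool.Agent.X102.BSP
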