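import Pool.Agent.X102.BS2

/-! No isometry which is, on some infinite-dimensional subspace, a pointwise limit of compact
operators has the Bhatia-Semrl property. -/

namespace Pool.Agent.X102.BSP

open Filter Topology Set Metric

variable {X Y : Type*} [NormedAddCommGroup X] [NormedSpace ℝ X] [NormedAddCommGroup Y]
  [NormedSpace ℝ Y]

theorem small_vec (Z : Submodule ℝ X) (hZ : ¬ FiniteDimensional ℝ Z) {K : X →L[ℝ] Y}
    (hK : IsCompactOperator K) {ε : ℝ} (hε : 0 < ε) : ∃ z ∈ Z, ‖z‖ = 1 ∧ ‖K z‖ ≤ ε := by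
  obtain ⟨f, hf1, hf2⟩ := exists_seq_norm_le_one_le_norm_sub' (𝕜 := ℝ) (E := Z) (c := (2 : ℝ))
    (by norm_num) (R := 3) (by norm_num) hZ
  have hc : IsCompact (closure (K '' closedBall (0 : X) 3)) :=
    IsCompactOperator.isCompact_closure_image_closedBall (f := (K : X →ₗ[ℝ] Y)) hK 3
  obtain ⟨a, -, φ, hφ, hlim⟩ := hc.tendsto_subseq (x := fun n => K (f n : X))
    (fun n => subset_closure ⟨f n, by
      rw [mem_closedBall, dist_zero_right]; exact hf1 n, rfl⟩)
  have hcau := hlim.cauchySeq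
  rw [Metric.cauchySeq_iff'] at hcau
  obtain ⟨N, hN⟩ := hcau ε hε
  have h1 := hN (N + 1) (Nat.le_succ N)
  rw [dist_eq_norm] at h1
  have h2 : K (f (φ (N + 1)) : X) - K (f (φ N) : X) = K ((f (φ (N + 1)) - f (φ N) : Z) : X) := by
    rw [← map_sub]; rfl
  have h1' : ‖K ((f (φ (N + 1)) - f (φ N) : Z) : X)‖ < ε := by
    rw [← h2]; exact h1
  have hd1 : 1 ≤ ‖((f (φ (N + 1)) - f (φ N) : Z) : X)‖ :=
    hf2 (hφ.injective.ne (by omega))
  set d : X := ((f (φ (N + 1)) - f (φ N) : Z) : X) with hd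
  have hd0 : 0 < ‖d‖ := by linarith
  refine ⟨‖d‖⁻¹ • d, Z.smul_mem _ (Subtype.mem _), ?_, ?_⟩
  · rw [norm_smul, norm_inv, norm_norm, inv_mul_cancel₀ hd0.ne']
  · rw [map_smul, norm_smul, norm_inv, norm_norm, inv_mul_le_iff₀ hd0]
    nlinarith

theorem approx [CompleteSpace X] [CompleteSpace Y] (T : X →L[ℝ] Y) (hT : ∀ x, ‖T x‖ = ‖x‖)
    (Z : Submodule ℝ X) (hZ : ¬ FiniteDimensional ℝ Z)
    (P : X →L[ℝ] Y) (hP : ∀ z ∈ Z, P z = T z)
    (K : ℕ → X →L[ℝ] Y) (hK : ∀ n, IsCompactOperator (K n))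
    (hlim : ∀ x, Tendsto (fun n => K n x) atTop (𝓝 (P x))) : ¬ BhatiaSemrl T := by
  have hst : ∀ x : X, ‖x‖ = 1 → ∃ w : St T, w.1.1 = x := fun x hx => exists_state hT hx
  have hne : Nonempty (St T) := by
    obtain ⟨z, -, hz, -⟩ := small_vec Z hZ (hK 0) one_pos
    obtain ⟨w, -⟩ := hst z hz
    exact ⟨w⟩
  have hfx : ∀ x, Tendsto (fun n => (P - K n) x) atTop (𝓝 0) := by
    intro x
    have h1 := (tendsto_const_nhds (x := P x)).sub (hlim x)
    rw [sub_self] at h1
    exact h1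
  obtain ⟨C, hC⟩ : ∃ C, ∀ n, ‖P - K n‖ ≤ C := by
    apply banach_steinhaus
    intro x
    obtain ⟨C, hC⟩ := (hfx x).norm.bddAbove_range
    exact ⟨C, fun n => hC ⟨n, rfl⟩⟩
  have hM : ∀ g ∈ convexHull ℝ (range fun n => P - K n), 1 ≤ sp (ev T) g := by
    intro g hg
    have hconv : Convex ℝ {g : X →L[ℝ] Y | IsCompactOperator (P - g)} := by
      intro g1 h1 g2 h2 a b ha hb hab
      have h3 := (h1.smul a).add (h2.smul b)
      have e : P - (a • g1 + b • g2) = a • (P - g1) + b • (P - g2) := by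
        rw [smul_sub, smul_sub]
        have : P = a • P + b • P := by rw [← add_smul, hab, one_smul]
        nth_rewrite 1 [this]
        abel
      show IsCompactOperator (P - (a • g1 + b • g2) : X →L[ℝ] Y)
      rw [e]
      exact h3
    have hsub : convexHull ℝ (range fun n => P - K n) ⊆
        {g : X →L[ℝ] Y | IsCompactOperator (P - g)} := by
      apply convexHull_min _ hconv
      rintro _ ⟨n, rfl⟩
      show IsCompactOperator (P - (P - K n) : X →L[ℝ] Y)
      rw [sub_sub_cancel]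
      exact hK n
    have hgK : IsCompactOperator (P - g : X →L[ℝ] Y) := hsub hg
    apply le_of_forall_pos_le_add
    intro e he
    obtain ⟨z, hz1, hz2, hz3⟩ := small_vec Z hZ hgK he
    obtain ⟨w, hw⟩ := hst z hz2
    have h1 := le_sp (hev T) w g
    have h2 : ev T w g = 1 - w.1.2 ((P - g) z) := by
      have h3 : g z = T z - (P - g) z := by
        rw [ContinuousLinearMap.sub_apply, hP z hz1]; abel
      rw [ev_apply, hw, h3, map_sub]
      have h4 := w.2.2.2
      rw [hw] at h4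
      rw [h4]
    have h3 := abs_le_of w.1.2 w.2.2.1 ((P - g) z)
    have h4 := le_abs_self (w.1.2 ((P - g) z))
    linarith
  have hl : ∀ w : St T, Tendsto (fun n => ev T w (P - K n)) atTop (𝓝 0) := by
    intro w
    have h1 := (w.1.2.continuous.tendsto 0).comp (hfx w.1.1)
    rw [map_zero] at h1
    exact h1
  obtain ⟨h, hh⟩ := simons (ev := ev T) (hev T) (fun n => P - K n) hC hM hl
  exact not_BS hT h hh

end Pool.Agent.X102.BSP
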