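import Pool.Agent.X102.BS1

/-! General pieces for the James-type supremum argument. -/

namespace Pool.Agent.X102.BSP

open Filter Topology Set

/-- the recursion choosing near minimisers, for an abstract functional `P` -/
theorem recursion {V : Type*} [NormedAddCommGroup V] [NormedSpace ℝ V] [CompleteSpace V]
    (P : V → ℝ) (hP : ∀ u v, P u ≤ P v + ‖u - v‖) (S : ℕ → Set V)
    (hSmono : ∀ k, S (k + 1) ⊆ S k) (hSne : ∀ k, (S k).Nonempty) (hSconv : ∀ k, Convex ℝ (S k))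
    {C : ℝ} (hSC : ∀ k, ∀ g ∈ S k, ‖g‖ ≤ C) :
    ∃ (H g : ℕ → V) (h : V), H 0 = 0 ∧ (∀ k, H (k + 1) = H k + (1 / 2 : ℝ) ^ (k + 1) • g k) ∧
      (∀ k, g k ∈ S k) ∧ Tendsto H atTop (𝓝 h) ∧ (∀ n, ‖H n - h‖ ≤ C / 2 ^ n) ∧
      ∀ k, P (H k + (1 / 2 : ℝ) ^ k • g k) ≤ P h + (1 / 6) * (1 / 4 : ℝ) ^ k := by
  classical
  have hPlow : ∀ u, P 0 - ‖u‖ ≤ P u := by
    intro u
    have := hP 0 u
    rw [zero_sub, norm_neg] at this
    linarith
  have hmin : ∀ (k : ℕ) (h : V), ∃ g ∈ S k, ∀ g' ∈ S k,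
      P (h + (1 / 2 : ℝ) ^ k • g) ≤ P (h + (1 / 2 : ℝ) ^ k • g')
        + (1 / 12) * (1 / 4 : ℝ) ^ k := by
    intro k h
    set T : Set ℝ := (fun g => P (h + (1 / 2 : ℝ) ^ k • g)) '' S k with hT
    have hTne : T.Nonempty := (hSne k).image _
    have hTb : BddBelow T := by
      refine ⟨P 0 - (‖h‖ + (1 / 2 : ℝ) ^ k * C), ?_⟩
      rintro _ ⟨g, hg, rfl⟩
      refine le_trans ?_ (hPlow _)
      have h1 := norm_add_le h ((1 / 2 : ℝ) ^ k • g)
      rw [norm_smul, Real.norm_of_nonneg (by positivity)] at h1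
      have h2 := mul_le_mul_of_nonneg_left (hSC k g hg) (by positivity : (0:ℝ) ≤ (1 / 2) ^ k)
      linarith
    have hpos : (0 : ℝ) < (1 / 12) * (1 / 4 : ℝ) ^ k := by positivity
    obtain ⟨_, ⟨g, hg, rfl⟩, hlt⟩ := Real.lt_sInf_add_pos hTne hpos
    refine ⟨g, hg, fun g' hg' => ?_⟩
    have := csInf_le hTb ⟨g', hg', rfl⟩
    dsimp only at hlt this
    linarith
  choose G hGS hG using hmin
  let H : ℕ → V := fun n => Nat.rec 0 (fun k h => h + (1 / 2 : ℝ) ^ (k + 1) • G k h) n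
  have hH0 : H 0 = 0 := rfl
  have hH1 : ∀ k, H (k + 1) = H k + (1 / 2 : ℝ) ^ (k + 1) • G k (H k) := fun k => rfl
  set g : ℕ → V := fun k => G k (H k) with hg
  have hgS : ∀ k, g k ∈ S k := fun k => hGS k (H k)
  have hgmin : ∀ k, ∀ g' ∈ S k, P (H k + (1 / 2 : ℝ) ^ k • g k)
      ≤ P (H k + (1 / 2 : ℝ) ^ k • g') + (1 / 12) * (1 / 4 : ℝ) ^ k :=
    fun k => hG k (H k)
  have hdist : ∀ n, dist (H n) (H (n + 1)) ≤ C / 2 / 2 ^ n := by
    intro n
    rw [hH1, dist_eq_norm]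
    have e : H n - (H n + (1 / 2 : ℝ) ^ (n + 1) • G n (H n))
        = -((1 / 2 : ℝ) ^ (n + 1) • G n (H n)) := by abel
    rw [e, norm_neg, norm_smul, Real.norm_of_nonneg (by positivity)]
    have h1 := mul_le_mul_of_nonneg_left (hSC n _ (hgS n)) (by positivity : (0:ℝ) ≤ (1 / 2) ^ (n+1))
    refine h1.trans (le_of_eq ?_)
    rw [pow_succ, one_div, inv_pow]
    field_simp
  obtain ⟨h, hh⟩ := cauchySeq_tendsto_of_complete (cauchySeq_of_le_geometric_two hdist)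
  have hdh : ∀ n, ‖H n - h‖ ≤ C / 2 ^ n := by
    intro n
    rw [← dist_eq_norm]
    exact dist_le_of_le_geometric_two_of_tendsto hdist hh n
  set m : ℕ → ℝ := fun k => P (H k + (1 / 2 : ℝ) ^ k • g k) with hm
  have hmstep : ∀ k, m k ≤ m (k + 1) + (1 / 12) * (1 / 4 : ℝ) ^ k := by
    intro k
    have hmem : (1 / 2 : ℝ) • g k + (1 / 2 : ℝ) • g (k + 1) ∈ S k :=
      (hSconv k) (hgS k) (hSmono k (hgS (k + 1))) (by norm_num) (by norm_num)
        (by norm_num)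
    have h1 := hgmin k _ hmem
    have e : H k + (1 / 2 : ℝ) ^ k • ((1 / 2 : ℝ) • g k + (1 / 2 : ℝ) • g (k + 1))
        = H (k + 1) + (1 / 2 : ℝ) ^ (k + 1) • g (k + 1) := by
      rw [hH1, smul_add, smul_smul, smul_smul, ← pow_succ, add_assoc]
    rw [e] at h1
    exact h1
  have hmlim : Tendsto m atTop (𝓝 (P h)) := by
    have hb : ∀ k, |m k - P h| ≤ 2 * C / 2 ^ k := by
      intro k
      have hn : ‖H k + (1 / 2 : ℝ) ^ k • g k - h‖ ≤ 2 * C / 2 ^ k := by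
        have e : H k + (1 / 2 : ℝ) ^ k • g k - h = (H k - h) + (1 / 2 : ℝ) ^ k • g k := by abel
        rw [e]
        refine (norm_add_le _ _).trans ?_
        rw [norm_smul, Real.norm_of_nonneg (by positivity)]
        have h1 := mul_le_mul_of_nonneg_left (hSC k _ (hgS k))
          (by positivity : (0:ℝ) ≤ (1 / 2) ^ k)
        have e2 : (1 / 2 : ℝ) ^ k * C = C / 2 ^ k := by
          rw [one_div, inv_pow]; field_simp
        rw [e2] at h1
        have e3 : 2 * C / 2 ^ k = C / 2 ^ k + C / 2 ^ k := by ring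
        rw [e3]
        exact add_le_add (hdh k) h1
      have h1 := hP (H k + (1 / 2 : ℝ) ^ k • g k) h
      have h2 := hP h (H k + (1 / 2 : ℝ) ^ k • g k)
      rw [norm_sub_rev] at h2
      rw [abs_le]
      constructor
      · show -(2 * C / 2 ^ k) ≤ P (H k + (1 / 2 : ℝ) ^ k • g k) - P h
        linarith
      · show P (H k + (1 / 2 : ℝ) ^ k • g k) - P h ≤ 2 * C / 2 ^ k
        linarith
    have hz : Tendsto (fun k : ℕ => 2 * C / 2 ^ k) atTop (𝓝 0) := by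
      have h1 := (tendsto_pow_atTop_nhds_zero_of_lt_one (r := (1 / 2 : ℝ)) (by norm_num)
        (by norm_num)).const_mul (2 * C)
      rw [mul_zero] at h1
      refine h1.congr (fun k => ?_)
      rw [one_div, inv_pow]; field_simp
    rw [tendsto_iff_norm_sub_tendsto_zero]
    exact squeeze_zero (fun k => norm_nonneg _) hb hz
  have hmono : Monotone fun k => m k - (1 / 6) * (1 / 4 : ℝ) ^ k := by
    apply monotone_nat_of_le_succ
    intro k
    have h1 := hmstep k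
    have h2 : (0 : ℝ) < (1 / 4 : ℝ) ^ k := by positivity
    rw [pow_succ]
    linarith
  refine ⟨H, g, h, hH0, hH1, hgS, hh, hdh, ?_⟩
  intro k
  have hz : Tendsto (fun k : ℕ => (1 / 6) * (1 / 4 : ℝ) ^ k) atTop (𝓝 0) := by
    have h1 := (tendsto_pow_atTop_nhds_zero_of_lt_one (r := (1 / 4 : ℝ)) (by norm_num)
      (by norm_num)).const_mul (1 / 6 : ℝ)
    rwa [mul_zero] at h1
  have h1 := hmlim.sub hz
  rw [sub_zero] at h1
  have h2 : m k - (1 / 6) * (1 / 4 : ℝ) ^ k ≤ P h := hmono.ge_of_tendsto h1 k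
  show m k ≤ _
  linarith

/-- the contradiction for real sequences -/
theorem contra (A a : ℕ → ℝ) (s C : ℝ) (hA0 : A 0 = 0)
    (hA1 : ∀ k, A (k + 1) = A k + (1 / 2 : ℝ) ^ (k + 1) * a k)
    (hs : 1 - 1 / 6 ≤ s) (hC : ∀ k, s - A k ≤ C / 2 ^ k)
    (hup0 : ∀ k, A k + (1 / 2 : ℝ) ^ k * a k ≤ s + (1 / 6) * (1 / 4 : ℝ) ^ k) :
    ¬ ∃ᶠ k in atTop, a k < 1 / 4 := by
  intro hfr
  set r : ℕ → ℝ := fun k => 2 ^ k * (s - A k) with hr
  have hr0 : 1 - 1 / 6 ≤ r 0 := by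
    show 1 - 1 / 6 ≤ 2 ^ 0 * (s - A 0)
    rw [hA0, sub_zero, pow_zero, one_mul]; exact hs
  have hrec : ∀ k, r (k + 1) = 2 * r k - a k := by
    intro k
    show 2 ^ (k + 1) * (s - A (k + 1)) = 2 * (2 ^ k * (s - A k)) - a k
    rw [hA1]
    have e : (2 : ℝ) ^ (k + 1) * ((1 / 2 : ℝ) ^ (k + 1) * a k) = a k := by
      rw [← mul_assoc, ← mul_pow]; norm_num
    rw [← sub_sub, mul_sub, e, pow_succ]
    ring
  have hup : ∀ k, a k ≤ r k + (1 / 6) * (1 / 2 : ℝ) ^ k := by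
    intro k
    have h4 : (1 / 2 : ℝ) ^ k * a k ≤ (s - A k) + (1 / 6) * (1 / 4 : ℝ) ^ k := by
      have := hup0 k; linarith
    have h5 := mul_le_mul_of_nonneg_left h4 (by positivity : (0:ℝ) ≤ 2 ^ k)
    have e1 : (2 : ℝ) ^ k * ((1 / 2 : ℝ) ^ k * a k) = a k := by
      rw [← mul_assoc, ← mul_pow]; norm_num
    have e2 : (2 : ℝ) ^ k * ((s - A k) + (1 / 6) * (1 / 4 : ℝ) ^ k)
        = r k + (1 / 6) * (1 / 2 : ℝ) ^ k := by
      have e3 : (2 : ℝ) ^ k * (1 / 4 : ℝ) ^ k = (1 / 2 : ℝ) ^ k := by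
        rw [← mul_pow]; norm_num
      show _ = 2 ^ k * (s - A k) + (1 / 6) * (1 / 2 : ℝ) ^ k
      rw [← e3]; ring
    rw [e1, e2] at h5
    exact h5
  have hlow : ∀ k, 1 / 2 + (1 / 3) * (1 / 2 : ℝ) ^ k ≤ r k := by
    intro k
    induction k with
    | zero => rw [pow_zero]; linarith
    | succ k ih =>
      rw [hrec, pow_succ]
      have := hup k
      linarith
  set r' : ℕ → ℝ := fun k => r k - (1 / 3) * (1 / 2 : ℝ) ^ k with hr'
  have hmono : Monotone r' := by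
    apply monotone_nat_of_le_succ
    intro k
    show r k - (1 / 3) * (1 / 2 : ℝ) ^ k ≤ r (k + 1) - (1 / 3) * (1 / 2 : ℝ) ^ (k + 1)
    rw [hrec, pow_succ]
    have := hup k
    linarith
  have hbdd : BddAbove (range r') := by
    refine ⟨C, ?_⟩
    rintro _ ⟨k, rfl⟩
    have h3 := mul_le_mul_of_nonneg_left (hC k) (by positivity : (0:ℝ) ≤ 2 ^ k)
    have e : (2 : ℝ) ^ k * (C / 2 ^ k) = C := by field_simp
    rw [e] at h3
    have h4 : (0 : ℝ) < (1 / 2 : ℝ) ^ k := by positivity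
    show r k - _ ≤ C
    have h5 : r k ≤ C := h3
    linarith
  have hlim := tendsto_atTop_ciSup hmono hbdd
  have hlim2 := (hlim.comp (tendsto_add_atTop_nat 1)).sub hlim
  rw [sub_self] at hlim2
  have hev : ∀ᶠ k in atTop, r' (k + 1) - r' k < 1 / 4 :=
    hlim2.eventually_lt_const (by norm_num)
  obtain ⟨k, hk1, hk2⟩ := (hfr.and_eventually hev).exists
  have h1 := hlow k
  have h2 : r (k + 1) = 2 * r k - a k := hrec k
  have h3 : (0 : ℝ) < (1 / 2 : ℝ) ^ k := by positivity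
  have h4 : r (k + 1) - (1 / 3) * (1 / 2 : ℝ) ^ (k + 1) - (r k - (1 / 3) * (1 / 2 : ℝ) ^ k)
      < 1 / 4 := hk2
  rw [pow_succ, h2] at h4
  linarith

end Pool.Agent.X102.BSP
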