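import Pool.Agent.X102.BS4

/-! A James-type theorem (non-separable case included), by Pryce's stabilisation. -/

namespace Pool.Agent.X102.BSP

open Filter Topology Set

variable {X W : Type*} [NormedAddCommGroup X] [NormedSpace ℝ X]

/-- `b` is at least the lower limit of `h j x` along the sets `U k` -/
def LB (U : ℕ → Set ℕ) (h : ℕ → (X →L[ℝ] ℝ)) (x : X) (b : ℝ) : Prop :=
  ∀ ε > 0, ∀ k, ∃ j ∈ U k, h j x < b + ε

/-- the set of values `d (e w) - b` -/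
def DD (U : ℕ → Set ℕ) (h : ℕ → (X →L[ℝ] ℝ)) (e : W → X) (d : X →L[ℝ] ℝ) : Set ℝ :=
  {a | ∃ w b, LB U h (e w) b ∧ a = d (e w) - b}

theorem abs_le' {e : W → X} (he : ∀ w, ‖e w‖ ≤ 1) (d : X →L[ℝ] ℝ) (w : W) : |d (e w)| ≤ ‖d‖ := by
  have h1 := d.le_opNorm (e w)
  rw [Real.norm_eq_abs] at h1
  exact h1.trans (mul_le_of_le_one_right (norm_nonneg _) (he w))

theorem LB_ge {e : W → X} (he : ∀ w, ‖e w‖ ≤ 1) {h : ℕ → (X →L[ℝ] ℝ)} {C : ℝ}
    (hC : ∀ j, ‖h j‖ ≤ C) {U : ℕ → Set ℕ} {w : W} {b : ℝ} (hb : LB U h (e w) b) : -C ≤ b := by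
  by_contra hcon
  push Not at hcon
  obtain ⟨j, -, hj⟩ := hb (-C - b) (by linarith) 0
  have h1 := (abs_le.1 ((abs_le' he (h j) w).trans (hC j))).1
  linarith

theorem LB_C {e : W → X} (he : ∀ w, ‖e w‖ ≤ 1) {h : ℕ → (X →L[ℝ] ℝ)} {C : ℝ}
    (hC : ∀ j, ‖h j‖ ≤ C) {U : ℕ → Set ℕ} (hU : ∀ k, (U k).Nonempty) (w : W) :
    LB U h (e w) C := by
  intro ε hε k
  obtain ⟨j, hj⟩ := hU k
  refine ⟨j, hj, ?_⟩
  have h1 := (abs_le.1 ((abs_le' he (h j) w).trans (hC j))).2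
  linarith

theorem DD_bdd {e : W → X} (he : ∀ w, ‖e w‖ ≤ 1) {h : ℕ → (X →L[ℝ] ℝ)} {C : ℝ}
    (hC : ∀ j, ‖h j‖ ≤ C) (U : ℕ → Set ℕ) (d : X →L[ℝ] ℝ) : BddAbove (DD U h e d) := by
  refine ⟨‖d‖ + C, ?_⟩
  rintro _ ⟨w, b, hb, rfl⟩
  have h1 := LB_ge he hC hb
  have h2 := (abs_le.1 (abs_le' he d w)).2
  linarith

theorem DD_ne [Nonempty W] {e : W → X} (he : ∀ w, ‖e w‖ ≤ 1) {h : ℕ → (X →L[ℝ] ℝ)} {C : ℝ}
    (hC : ∀ j, ‖h j‖ ≤ C) {U : ℕ → Set ℕ} (hU : ∀ k, (U k).Nonempty) (d : X →L[ℝ] ℝ) :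
    (DD U h e d).Nonempty := by
  obtain ⟨w⟩ := ‹Nonempty W›
  exact ⟨_, w, C, LB_C he hC hU w, rfl⟩

theorem stab_step [Nonempty W] {e : W → X} (he : ∀ w, ‖e w‖ ≤ 1) {h : ℕ → (X →L[ℝ] ℝ)} {C : ℝ}
    (hC : ∀ j, ‖h j‖ ≤ C) (N : Set ℕ) (hN : ∀ k, ∃ j ∈ N, k ≤ j) (d : X →L[ℝ] ℝ)
    {ε : ℝ} (hε : 0 < ε) :
    ∃ N' : Set ℕ, N' ⊆ N ∧ (∀ k, ∃ j ∈ N', k ≤ j) ∧ ∃ (w : W) (b : ℝ),
      (∀ j ∈ N', h j (e w) < b + ε) ∧
      ∀ w' b', LB (fun k => N ∩ {j | k ≤ j}) h (e w') b' → d (e w') - b' ≤ d (e w) - b + ε := by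
  have hne := DD_ne he hC (U := fun k => N ∩ {j | k ≤ j})
    (fun k => (hN k).imp fun j hj => ⟨hj.1, hj.2⟩) d
  obtain ⟨_, ⟨w, b, hb, rfl⟩, hlt⟩ := exists_lt_of_lt_csSup hne
    (show sSup (DD (fun k => N ∩ {j | k ≤ j}) h e d) - ε < _ by linarith)
  refine ⟨{j | j ∈ N ∧ h j (e w) < b + ε}, fun j hj => hj.1, ?_, w, b, fun j hj => hj.2, ?_⟩
  · intro k
    obtain ⟨j, hj1, hj2⟩ := hb ε hε k
    exact ⟨j, ⟨hj1.1, hj2⟩, hj1.2⟩
  · intro w' b' hb'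
    have := le_csSup (DD_bdd he hC _ d) ⟨w', b', hb', rfl⟩
    linarith

theorem stab_seq [Nonempty W] {e : W → X} (he : ∀ w, ‖e w‖ ≤ 1) {h : ℕ → (X →L[ℝ] ℝ)} {C : ℝ}
    (hC : ∀ j, ‖h j‖ ≤ C) (d : ℕ → (X →L[ℝ] ℝ)) (ε : ℕ → ℝ) (hε : ∀ i, 0 < ε i) :
    ∃ U : ℕ → Set ℕ, Antitone U ∧ (∀ k, (U k).Nonempty) ∧ (∀ k, ∀ j ∈ U k, k ≤ j) ∧
      ∀ i, ∃ (w : W) (b : ℝ), (∀ k, i < k → ∀ j ∈ U k, h j (e w) < b + ε i) ∧
        ∀ w' b', LB U h (e w') b' → d i (e w') - b' ≤ d i (e w) - b + ε i := by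
  have step : ∀ (N : {N : Set ℕ // ∀ k, ∃ j ∈ N, k ≤ j}) (i : ℕ),
      ∃ N' : {N : Set ℕ // ∀ k, ∃ j ∈ N, k ≤ j}, N'.1 ⊆ N.1 ∧ ∃ (w : W) (b : ℝ),
      (∀ j ∈ N'.1, h j (e w) < b + ε i) ∧
      ∀ w' b', LB (fun k => N.1 ∩ {j | k ≤ j}) h (e w') b' →
        d i (e w') - b' ≤ d i (e w) - b + ε i := by
    intro N i
    obtain ⟨N', h1, h2, h3⟩ := stab_step he hC N.1 N.2 (d i) (hε i)
    exact ⟨⟨N', h2⟩, h1, h3⟩
  choose F hF1 hF2 using step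
  let Ns : ℕ → {N : Set ℕ // ∀ k, ∃ j ∈ N, k ≤ j} := fun n =>
    Nat.rec ⟨univ, fun k => ⟨k, trivial, le_rfl⟩⟩ (fun i N => F N i) n
  have hanti : ∀ i, (Ns (i + 1)).1 ⊆ (Ns i).1 := fun i => hF1 (Ns i) i
  have hanti' : Antitone (fun i => (Ns i).1) := antitone_nat_of_succ_le hanti
  refine ⟨fun k => (Ns k).1 ∩ {j | k ≤ j}, ?_, ?_, fun k j hj => hj.2, ?_⟩
  · intro k l hkl j hj
    exact ⟨hanti' hkl hj.1, hkl.trans hj.2⟩
  · intro k
    obtain ⟨j, hj1, hj2⟩ := (Ns k).2 k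
    exact ⟨j, hj1, hj2⟩
  · intro i
    obtain ⟨w, b, h1, h2⟩ := hF2 (Ns i) i
    refine ⟨w, b, fun k hk j hj => h1 j (hanti' (Nat.succ_le_of_lt hk) hj.1),
      fun w' b' hLB => h2 w' b' ?_⟩
    intro δ hδ k
    obtain ⟨j, hj, hj2⟩ := hLB δ hδ (max k i)
    have hj3 : max k i ≤ j := hj.2
    exact ⟨j, ⟨hanti' (le_max_right k i) hj.1, show k ≤ j from (le_max_left k i).trans hj3⟩, hj2⟩

theorem le_PP {e : W → X} (he : ∀ w, ‖e w‖ ≤ 1) {h : ℕ → (X →L[ℝ] ℝ)} {C : ℝ}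
    (hC : ∀ j, ‖h j‖ ≤ C) {U : ℕ → Set ℕ} (d : X →L[ℝ] ℝ) {w : W} {b : ℝ}
    (hb : LB U h (e w) b) : d (e w) - b ≤ sSup (DD U h e d) :=
  le_csSup (DD_bdd he hC U d) ⟨w, b, hb, rfl⟩

theorem PP_le_add [Nonempty W] {e : W → X} (he : ∀ w, ‖e w‖ ≤ 1) {h : ℕ → (X →L[ℝ] ℝ)} {C : ℝ}
    (hC : ∀ j, ‖h j‖ ≤ C) {U : ℕ → Set ℕ} (hU : ∀ k, (U k).Nonempty) (u v : X →L[ℝ] ℝ) :
    sSup (DD U h e u) ≤ sSup (DD U h e v) + ‖u - v‖ := by
  apply csSup_le (DD_ne he hC hU u)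
  rintro _ ⟨w, b, hb, rfl⟩
  have h1 := le_PP he hC v hb
  have h2 := (abs_le.1 (abs_le' he (u - v) w)).2
  have h3 : (u - v) (e w) = u (e w) - v (e w) := rfl
  linarith

theorem hull_le {h : ℕ → (X →L[ℝ] ℝ)} {N : Set ℕ} {x : X} {c : ℝ}
    (H : ∀ j ∈ N, h j x ≤ c) {g : X →L[ℝ] ℝ} (hg : g ∈ convexHull ℝ (h '' N)) : g x ≤ c := by
  have hsub : convexHull ℝ (h '' N) ⊆ {v : X →L[ℝ] ℝ | v x ≤ c} := by
    apply convexHull_min
    · rintro _ ⟨n, hn, rfl⟩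
      exact H n hn
    · intro v1 h1 v2 h2 a b ha hb hab
      show a * v1 x + b * v2 x ≤ c
      have h1' : v1 x ≤ c := h1
      have h2' : v2 x ≤ c := h2
      calc a * v1 x + b * v2 x ≤ a * c + b * c :=
            add_le_add (mul_le_mul_of_nonneg_left h1' ha) (mul_le_mul_of_nonneg_left h2' hb)
        _ = c := by rw [← add_mul, hab, one_mul]
  exact hsub hg

theorem hull_ge {h : ℕ → (X →L[ℝ] ℝ)} {N : Set ℕ} {x : X} {c : ℝ}
    (H : ∀ j ∈ N, c ≤ h j x) {g : X →L[ℝ] ℝ} (hg : g ∈ convexHull ℝ (h '' N)) : c ≤ g x := by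
  have h1 := hull_le (h := h) (N := N) (x := -x) (c := -c)
    (fun j hj => by rw [map_neg]; exact neg_le_neg (H j hj)) hg
  rw [map_neg] at h1
  linarith

theorem james [Nonempty W] {e : W → X} (he : ∀ w, ‖e w‖ ≤ 1) (h : ℕ → (X →L[ℝ] ℝ)) {C : ℝ}
    (hC : ∀ j, ‖h j‖ ≤ C)
    (hM : ∀ g ∈ convexHull ℝ (range h), ∃ w, ∃ N, ∀ j, N ≤ j → h j (e w) ≤ g (e w) - 1) :
    ∃ ψ : X →L[ℝ] ℝ, ∀ w, ∃ w', ψ (e w) < ψ (e w') := by
  classical
  have hC0 : 0 ≤ C := (norm_nonneg _).trans (hC 0)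
  have hsep : TopologicalSpace.IsSeparable (Submodule.span ℝ (range h) : Set (X →L[ℝ] ℝ)) :=
    (countable_range h).isSeparable.span
  obtain ⟨c, hc, hcs⟩ := hsep
  have hcne : c.Nonempty := by
    rw [← closure_nonempty_iff]
    exact ⟨0, hcs (Submodule.zero_mem _)⟩
  obtain ⟨d', hd'⟩ := hc.exists_eq_range hcne
  obtain ⟨U, hU1, hU2, hU3, hU4⟩ := stab_seq he hC (fun i => d' (Nat.unpair i).1)
    (fun i => 1 / ((Nat.unpair i).2 + 1 : ℝ)) (fun i => by positivity)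
  set P : (X →L[ℝ] ℝ) → ℝ := fun d => sSup (DD U h e d) with hP
  have hSC : ∀ k, ∀ g ∈ convexHull ℝ (h '' U k), ‖g‖ ≤ C := by
    intro k g hg
    have : convexHull ℝ (h '' U k) ⊆ Metric.closedBall (0 : X →L[ℝ] ℝ) C := by
      apply convexHull_min _ (convex_closedBall 0 C)
      rintro _ ⟨n, _, rfl⟩
      simpa using hC n
    simpa using this hg
  obtain ⟨H, g, hh, hH0, hH1, hgS, hHlim, hHd, hPk⟩ := recursion P (PP_le_add he hC hU2)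
    (fun k => convexHull ℝ (h '' U k))
    (fun k => convexHull_mono (image_mono (hU1 (Nat.le_succ k))))
    (fun k => ((hU2 k).image h).convexHull) (fun k => convex_convexHull ℝ _) hSC
  have hgr : ∀ k, g k ∈ convexHull ℝ (range h) := fun k =>
    convexHull_mono (image_subset_range _ _) (hgS k)
  have hgspan : ∀ k, g k ∈ Submodule.span ℝ (range h) := fun k =>
    (convexHull_min Submodule.subset_span (Submodule.convex _)) (hgr k)
  have hHspan : ∀ k, H k ∈ Submodule.span ℝ (range h) := by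
    intro k
    induction k with
    | zero => rw [hH0]; exact Submodule.zero_mem _
    | succ k ih => rw [hH1]; exact Submodule.add_mem _ ih (Submodule.smul_mem _ _ (hgspan k))
  have hhcl : hh ∈ closure c := by
    have h1 : hh ∈ closure (Submodule.span ℝ (range h) : Set (X →L[ℝ] ℝ)) :=
      mem_closure_of_tendsto hHlim (Eventually.of_forall fun k => hHspan k)
    exact closure_minimal hcs isClosed_closure h1
  -- the weak* limit
  have hgx : ∀ k x, |g k x| ≤ C * ‖x‖ := by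
    intro k x
    have h1 := (g k).le_opNorm x
    rw [Real.norm_eq_abs] at h1
    exact h1.trans (mul_le_mul_of_nonneg_right (hSC k _ (hgS k)) (norm_nonneg _))
  have hlimx : ∀ x, ∃ l, Tendsto (fun k => g k x) (hyperfilter ℕ : Filter ℕ) (𝓝 l) := by
    intro x
    obtain ⟨l, -, hl⟩ := (isCompact_Icc (a := -(C * ‖x‖)) (b := C * ‖x‖)).ultrafilter_le_nhds
      ((hyperfilter ℕ).map (fun k => g k x)) (by
        rw [Filter.le_principal_iff]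
        exact Filter.mem_map.2 (Filter.univ_mem' fun k => abs_le.1 (hgx k x)))
    exact ⟨l, hl⟩
  choose G0 hG0 using hlimx
  let g0l : X →ₗ[ℝ] ℝ :=
    { toFun := G0
      map_add' := fun x y => tendsto_nhds_unique (hG0 (x + y))
        (((hG0 x).add (hG0 y)).congr fun k => (map_add (g k) x y).symm)
      map_smul' := fun a x => tendsto_nhds_unique (hG0 (a • x))
        (((hG0 x).const_mul a).congr fun k => (map_smul (g k) a x).symm) }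
  have hg0b : ∀ x, ‖g0l x‖ ≤ C * ‖x‖ := by
    intro x
    rw [Real.norm_eq_abs]
    exact le_of_tendsto (hG0 x).abs (Eventually.of_forall fun k => hgx k x)
  let g0 : X →L[ℝ] ℝ := g0l.mkContinuous C hg0b
  have hg0 : ∀ x, Tendsto (fun k => g k x) (hyperfilter ℕ : Filter ℕ) (𝓝 (g0 x)) := hG0
  have hhyp : (hyperfilter ℕ : Filter ℕ) ≤ atTop := Nat.hyperfilter_le_atTop
  have hLB : ∀ w, LB U h (e w) (g0 (e w)) := by
    intro w δ hδ k
    have h1 : ∀ᶠ k' in (hyperfilter ℕ : Filter ℕ), g k' (e w) < g0 (e w) + δ :=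
      (hg0 (e w)).eventually_lt_const (by linarith)
    have h2 : ∀ᶠ k' in (hyperfilter ℕ : Filter ℕ), k ≤ k' := hhyp (eventually_ge_atTop k)
    obtain ⟨k', hk1, hk2⟩ := (h1.and h2).exists
    by_contra hcon
    push Not at hcon
    have h3 := hull_ge (h := h) (N := U k') (x := e w) (c := g0 (e w) + δ)
      (fun j hj => hcon j (hU1 hk2 hj)) (hgS k')
    linarith
  refine ⟨hh - g0, fun w => ?_⟩
  by_contra hcon
  push Not at hcon
  have hb : ∀ w, (hh - g0) (e w) ≤ P hh := fun w => le_PP he hC hh (hLB w)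
  have hPw : P hh ≤ (hh - g0) (e w) := by
    apply le_of_forall_pos_le_add
    intro ε hε
    obtain ⟨c0, hc0, hdc⟩ := Metric.mem_closure_iff.1 hhcl (ε / 4) (by positivity)
    rw [hd'] at hc0
    obtain ⟨n, rfl⟩ := hc0
    obtain ⟨q, hq⟩ := exists_nat_one_div_lt (show (0 : ℝ) < ε / 4 by positivity)
    obtain ⟨w', b, h1, h2⟩ := hU4 (Nat.pair n q)
    simp only [Nat.unpair_pair] at h1 h2
    have h3 : P (d' n) ≤ d' n (e w') - b + 1 / ((q : ℝ) + 1) := by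
      apply csSup_le (DD_ne he hC hU2 _)
      rintro _ ⟨w'', b', hb', rfl⟩
      exact h2 w'' b' hb'
    have h4 : g0 (e w') ≤ b + 1 / ((q : ℝ) + 1) := by
      apply le_of_tendsto (hg0 (e w'))
      have h5 : ∀ᶠ k' in (hyperfilter ℕ : Filter ℕ), Nat.pair n q < k' :=
        hhyp (eventually_gt_atTop _)
      filter_upwards [h5] with k' hk'
      exact hull_le (fun j hj => (h1 k' hk' j hj).le) (hgS k')
    have h5 := PP_le_add he hC hU2 hh (d' n)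
    rw [← dist_eq_norm] at h5
    have h6 := abs_le.1 (abs_le' he (hh - d' n) w')
    rw [← dist_eq_norm] at h6
    have h7 : (hh - d' n) (e w') = hh (e w') - d' n (e w') := rfl
    have h8 : (hh - g0) (e w') = hh (e w') - g0 (e w') := rfl
    have h9 := hcon w'
    have h10 : P hh ≤ P (d' n) + dist hh (d' n) := h5
    linarith [h6.1, h6.2]
  have hs : P hh = hh (e w) - g0 (e w) := le_antisymm hPw (hb w)
  have hfr : ∃ᶠ k in atTop, g k (e w) - g0 (e w) < 1 / 4 := by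
    have h1 : ∀ᶠ k in (hyperfilter ℕ : Filter ℕ), g k (e w) < g0 (e w) + 1 / 4 :=
      (hg0 (e w)).eventually_lt_const (by linarith)
    refine Frequently.filter_mono (h1.frequently.mono fun k hk => ?_) hhyp
    linarith
  refine contra (fun k => H k (e w) - (1 - (1 / 2 : ℝ) ^ k) * g0 (e w))
    (fun k => g k (e w) - g0 (e w)) (P hh) (2 * C) ?_ ?_ ?_ ?_ ?_ hfr
  · show H 0 (e w) - (1 - (1 / 2 : ℝ) ^ 0) * g0 (e w) = 0
    rw [hH0, pow_zero]; simp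
  · intro k
    show H (k + 1) (e w) - (1 - (1 / 2 : ℝ) ^ (k + 1)) * g0 (e w)
      = H k (e w) - (1 - (1 / 2 : ℝ) ^ k) * g0 (e w)
        + (1 / 2 : ℝ) ^ (k + 1) * (g k (e w) - g0 (e w))
    have h1 : H (k + 1) (e w) = H k (e w) + (1 / 2 : ℝ) ^ (k + 1) * g k (e w) := by
      rw [hH1]; rfl
    rw [h1, pow_succ]; ring
  · have h1 := hPk 0
    rw [hH0, zero_add, pow_zero, pow_zero, one_smul] at h1
    obtain ⟨w1, N1, hN1⟩ := hM _ (hgr 0)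
    have hLB1 : LB U h (e w1) (g 0 (e w1) - 1) := by
      intro ε hε k
      obtain ⟨j, hj⟩ := hU2 (max k N1)
      refine ⟨j, hU1 (le_max_left _ _) hj, ?_⟩
      have := hN1 j ((le_max_right _ _).trans (hU3 _ j hj))
      linarith
    have h2 : g 0 (e w1) - (g 0 (e w1) - 1) ≤ P (g 0) := le_PP he hC (g 0) hLB1
    linarith
  · intro k
    show P hh - (H k (e w) - (1 - (1 / 2 : ℝ) ^ k) * g0 (e w)) ≤ 2 * C / 2 ^ k
    have h1 := (abs_le.1 (abs_le' he (hh - H k) w)).2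
    have h2 : (hh - H k) (e w) = hh (e w) - H k (e w) := rfl
    have h3 := hHd k
    rw [norm_sub_rev] at h3
    have h4 : -(g0 (e w)) ≤ C := by
      have h5 := hg0b (e w)
      rw [Real.norm_eq_abs] at h5
      have h6 : |g0 (e w)| ≤ C * ‖e w‖ := h5
      have h7 : C * ‖e w‖ ≤ C := mul_le_of_le_one_right hC0 (he w)
      have h8 := neg_abs_le (g0 (e w))
      linarith
    have h5 := mul_le_mul_of_nonneg_left h4 (by positivity : (0:ℝ) ≤ (1 / 2 : ℝ) ^ k)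
    have h6 : (1 / 2 : ℝ) ^ k * C = C / 2 ^ k := by
      rw [one_div, inv_pow]; field_simp
    have h7 : 2 * C / 2 ^ k = C / 2 ^ k + C / 2 ^ k := by ring
    rw [h6] at h5
    rw [h7, hs]
    nlinarith
  · intro k
    show H k (e w) - (1 - (1 / 2 : ℝ) ^ k) * g0 (e w) + (1 / 2 : ℝ) ^ k * (g k (e w) - g0 (e w))
      ≤ P hh + (1 / 6) * (1 / 4 : ℝ) ^ k
    have h1 : (H k + (1 / 2 : ℝ) ^ k • g k) (e w) - g0 (e w) ≤ P (H k + (1 / 2 : ℝ) ^ k • g k) :=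
      le_PP he hC _ (hLB w)
    have h2 : (H k + (1 / 2 : ℝ) ^ k • g k) (e w) = H k (e w) + (1 / 2 : ℝ) ^ k * g k (e w) := rfl
    rw [h2] at h1
    have h3 := hPk k
    linarith

end Pool.Agent.X102.BSP
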