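import Pool.Agent.X102.BS5
import Pool.Agent.X102.BS3

/-! Non-reflexive domains: no isometry has the Bhatia-Semrl property. -/

namespace Pool.Agent.X102.BSP

open Filter Topology Set

theorem helly {E : Type*} [NormedAddCommGroup E] [NormedSpace ℝ E] {n : Type*} [Fintype n]
    [DecidableEq n] (G : n → (E →L[ℝ] ℝ)) (p : n → ℝ)
    (hp : ∀ c : n → ℝ, ∑ i, c i * p i ≤ ‖∑ i, c i • G i‖) {ε : ℝ} (hε : 0 < ε) :
    ∃ x : E, ‖x‖ ≤ 1 ∧ ∀ i, |G i x - p i| < ε := by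
  classical
  let Φ : E →ₗ[ℝ] (n → ℝ) := LinearMap.pi (fun i => (G i : E →ₗ[ℝ] ℝ))
  have hΦ : ∀ x i, Φ x i = G i x := fun x i => rfl
  have hconv : Convex ℝ (closure (Φ '' Metric.closedBall (0 : E) 1)) :=
    ((convex_closedBall (0 : E) 1).linear_image Φ).closure
  by_cases hpK : p ∈ closure (Φ '' Metric.closedBall (0 : E) 1)
  · obtain ⟨_, ⟨x, hx, rfl⟩, hd⟩ := Metric.mem_closure_iff.1 hpK ε hε
    refine ⟨x, by simpa using hx, fun i => ?_⟩
    have h1 := (dist_pi_lt_iff hε).1 hd i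
    rw [Real.dist_eq, hΦ, abs_sub_comm] at h1
    exact h1
  · exfalso
    obtain ⟨f, u, hf1, hf2⟩ := geometric_hahn_banach_closed_point hconv isClosed_closure hpK
    set c : n → ℝ := fun i => f (fun j => if i = j then 1 else 0) with hc
    have hf : ∀ v, f v = ∑ i, c i * v i := by
      intro v
      have h1 := LinearMap.pi_apply_eq_sum_univ (f : (n → ℝ) →ₗ[ℝ] ℝ) v
      have h2 : f v = ∑ i, v i • f (fun j => if i = j then 1 else 0) := h1
      rw [h2]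
      exact Finset.sum_congr rfl fun i _ => by rw [smul_eq_mul, mul_comm]
    have hx : ∀ x : E, ‖x‖ ≤ 1 → (∑ i, c i • G i) x < u := by
      intro x hx
      have h1 := hf1 (Φ x) (subset_closure ⟨x, by simpa using hx, rfl⟩)
      rw [hf] at h1
      have h2 : (∑ i, c i • G i) x = ∑ i, c i * Φ x i := by
        rw [sum_apply]; rfl
      rw [h2]; exact h1
    have hu : 0 ≤ u := by
      have := hx 0 (by simp)
      rw [map_zero] at this; exact this.le
    have hn : ‖∑ i, c i • G i‖ ≤ u := by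
      apply ContinuousLinearMap.opNorm_le_of_unit_norm hu
      intro x hx1
      rw [Real.norm_eq_abs, abs_le]
      have h1 := hx x hx1.le
      have h2 := hx (-x) (by rw [norm_neg]; exact hx1.le)
      rw [map_neg] at h2
      exact ⟨by linarith, h1.le⟩
    have h3 := hp c
    rw [hf] at hf2
    linarith

variable {X Y : Type*} [NormedAddCommGroup X] [NormedSpace ℝ X] [NormedAddCommGroup Y]
  [NormedSpace ℝ Y]

/-- first step: a functional small on finitely many vectors with `F φ` near `θ` -/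
theorem stepA (F : (X →L[ℝ] ℝ) →L[ℝ] ℝ) {θ : ℝ} (hθ : 0 ≤ θ)
    (hF : ∀ (b : ℝ) (x : X), |b| * θ ≤ ‖b • F + NormedSpace.inclusionInDoubleDual ℝ X x‖)
    (t : Finset X) {ε : ℝ} (hε : 0 < ε) :
    ∃ φ : X →L[ℝ] ℝ, ‖φ‖ ≤ 1 ∧ (∀ x ∈ t, |φ x| < ε) ∧ |F φ - θ| < ε := by
  classical
  let G : Option t → ((X →L[ℝ] ℝ) →L[ℝ] ℝ) := fun o =>
    match o with
    | none => F
    | some x => NormedSpace.inclusionInDoubleDual ℝ X x
  let p : Option t → ℝ := fun o =>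
    match o with
    | none => θ
    | some _ => 0
  obtain ⟨φ, h1, h2⟩ := helly G p (fun c => by
    rw [Fintype.sum_option, Fintype.sum_option]
    have e1 : c none * p none + ∑ i : t, c (some i) * p (some i) = c none * θ := by
      simp [p]
    have e2 : c none • G none + ∑ i : t, c (some i) • G (some i)
        = c none • F + NormedSpace.inclusionInDoubleDual ℝ X (∑ i : t, c (some i) • (i : X)) := by
      rw [map_sum]
      congr 1
      refine Finset.sum_congr rfl fun i _ => ?_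
      rw [map_smul]
    rw [e1, e2]
    exact (mul_le_mul_of_nonneg_right (le_abs_self _) hθ).trans (hF _ _)) hε
  refine ⟨φ, h1, fun x hx => ?_, h2 none⟩
  have h3 := h2 (some ⟨x, hx⟩)
  have h4 : G (some ⟨x, hx⟩) φ - p (some ⟨x, hx⟩) = φ x := by
    show NormedSpace.inclusionInDoubleDual ℝ X x φ - 0 = φ x
    rw [sub_zero]; rfl
  rwa [h4] at h3

/-- second step (Goldstine on finitely many functionals) -/
theorem stepB (F : (X →L[ℝ] ℝ) →L[ℝ] ℝ) (hF : ‖F‖ ≤ 1)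
    (t : Finset (X →L[ℝ] ℝ)) {ε : ℝ} (hε : 0 < ε) :
    ∃ x : X, ‖x‖ ≤ 1 ∧ ∀ φ ∈ t, |φ x - F φ| < ε := by
  classical
  obtain ⟨x, h1, h2⟩ := helly (n := t) (fun φ => (φ : X →L[ℝ] ℝ)) (fun φ => F φ) (fun c => by
    have e : ∑ i : t, c i * F (i : X →L[ℝ] ℝ) = F (∑ i : t, c i • (i : X →L[ℝ] ℝ)) := by
      rw [map_sum]
      exact Finset.sum_congr rfl fun i _ => by rw [map_smul, smul_eq_mul]
    rw [e]
    have h3 := F.le_opNorm (∑ i : t, c i • (i : X →L[ℝ] ℝ))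
    rw [Real.norm_eq_abs] at h3
    exact (le_abs_self _).trans (h3.trans (mul_le_of_le_one_left (norm_nonneg _) hF))) hε
  exact ⟨x, h1, fun φ hφ => h2 ⟨φ, hφ⟩⟩

/-- the sequences of a non-reflexive space -/
theorem exists_seqs (F : (X →L[ℝ] ℝ) →L[ℝ] ℝ) (hF1 : ‖F‖ ≤ 1) {θ : ℝ} (hθ : 0 ≤ θ)
    (hF : ∀ (b : ℝ) (x : X), |b| * θ ≤ ‖b • F + NormedSpace.inclusionInDoubleDual ℝ X x‖)
    (x0 : X) {ε : ℝ} (hε : 0 < ε) :
    ∃ (φ : ℕ → (X →L[ℝ] ℝ)) (x : ℕ → X), (∀ j, ‖φ j‖ ≤ 1) ∧ (∀ i, ‖x i‖ ≤ 1) ∧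
      (∀ j, |φ j x0| < ε) ∧ (∀ j i, j ≤ i → θ - 2 * ε ≤ φ j (x i)) ∧
      ∀ j i, i < j → |φ j (x i)| < ε := by
  classical
  obtain ⟨f, hf1, hf2⟩ := exists_seq_of_forall_finset_exists
    (fun a : (X →L[ℝ] ℝ) × X => ‖a.1‖ ≤ 1 ∧ ‖a.2‖ ≤ 1 ∧ |a.1 x0| < ε ∧ |F a.1 - θ| < ε ∧
      |a.1 a.2 - F a.1| < ε)
    (fun a b => |b.1 a.2| < ε ∧ |a.1 b.2 - F a.1| < ε) (by
      intro s _
      obtain ⟨φ, h1, h2, h3⟩ := stepA F hθ hF (insert x0 (s.image Prod.snd)) hε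
      obtain ⟨x, h4, h5⟩ := stepB F hF1 (insert φ (s.image Prod.fst)) hε
      refine ⟨(φ, x), ⟨h1, h4, h2 x0 (Finset.mem_insert_self _ _), h3,
        h5 φ (Finset.mem_insert_self _ _)⟩, fun a ha => ⟨?_, ?_⟩⟩
      · exact h2 _ (Finset.mem_insert_of_mem (Finset.mem_image_of_mem _ ha))
      · exact h5 _ (Finset.mem_insert_of_mem (Finset.mem_image_of_mem _ ha)))
  refine ⟨fun n => (f n).1, fun n => (f n).2, fun j => (hf1 j).1, fun i => (hf1 i).2.1,
    fun j => (hf1 j).2.2.1, ?_, fun j i hij => (hf2 i j hij).1⟩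
  intro j i hji
  have h1 := abs_lt.1 (hf1 j).2.2.2.1
  have h2 : |(f j).1 (f i).2 - F (f j).1| < ε := by
    rcases hji.lt_or_eq with h | h
    · exact (hf2 j i h).2
    · rw [← h]; exact (hf1 j).2.2.2.2
  have h3 := abs_lt.1 h2
  show θ - 2 * ε ≤ (f j).1 (f i).2
  linarith [h1.1, h3.1]

/-- a normalised vector far from a proper complete subspace -/
theorem exists_far {E X : Type*} [NormedAddCommGroup E] [NormedSpace ℝ E] [NormedAddCommGroup X]
    [NormedSpace ℝ X] [CompleteSpace X] (ι : X →L[ℝ] E) (hι : Isometry ι)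
    (hX : ¬ Function.Surjective ι) :
    ∃ (F : E) (θ : ℝ), ‖F‖ ≤ 1 ∧ 0 < θ ∧ ∀ (b : ℝ) (x : X), |b| * θ ≤ ‖b • F + ι x‖ := by
  rw [Function.Surjective] at hX
  push Not at hX
  obtain ⟨F0, hF0⟩ := hX
  have hF0n : F0 ≠ 0 := fun h => hF0 0 (by rw [map_zero, h])
  have hn : 0 < ‖F0‖ := norm_pos_iff.2 hF0n
  set F : E := ‖F0‖⁻¹ • F0 with hF
  have hclosed : IsClosed (range ι) := hι.isClosedEmbedding.isClosed_range
  have hnot : F ∉ range ι := by
    rintro ⟨x, hx⟩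
    apply hF0 (‖F0‖ • x)
    rw [map_smul, hx, hF, smul_smul, mul_inv_cancel₀ hn.ne', one_smul]
  have hpos := (hclosed.notMem_iff_infDist_pos (range_nonempty _)).1 hnot
  refine ⟨F, _, ?_, hpos, ?_⟩
  · rw [hF, norm_smul, norm_inv, norm_norm, inv_mul_cancel₀ hn.ne']
  · intro b x
    by_cases hb : b = 0
    · rw [hb, abs_zero, zero_mul]; exact norm_nonneg _
    · have h1 := Metric.infDist_le_dist_of_mem (x := F)
        (mem_range_self (f := ι) (-(b⁻¹ • x)))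
      rw [dist_eq_norm, map_neg, sub_neg_eq_add, map_smul] at h1
      have h2 : b • F + ι x = b • (F + b⁻¹ • ι x) := by
        rw [smul_add, smul_smul, smul_smul, mul_inv_cancel₀ hb, one_smul]
      rw [h2, norm_smul, Real.norm_eq_abs]
      exact mul_le_mul_of_nonneg_left h1 (abs_nonneg _)

theorem exists_far' {V X : Type*} [NormedAddCommGroup V] [NormedSpace ℝ V]
    [NormedAddCommGroup X] [NormedSpace ℝ X] [CompleteSpace X] (ι : X →L[ℝ] (V →L[ℝ] ℝ))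
    (hι : ∀ x, ‖ι x‖ = ‖x‖) (hX : ¬ Function.Surjective ι) :
    ∃ (F : V →L[ℝ] ℝ) (θ : ℝ), ‖F‖ ≤ 1 ∧ 0 < θ ∧
      ∀ (b : ℝ) (x : X), |b| * θ ≤ ‖b • F + ι x‖ :=
  exists_far ι (AddMonoidHomClass.isometry_of_norm ι hι) hX

end Pool.Agent.X102.BSP
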