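import Pool.Agent.X102.BS6

/-! Non-reflexive domains: the theorem. -/

namespace Pool.Agent.X102.BSP

open Filter Topology Set

variable {X Y : Type*} [NormedAddCommGroup X] [NormedSpace ℝ X] [NormedAddCommGroup Y]
  [NormedSpace ℝ Y]

theorem norm_incl (x : X) : ‖NormedSpace.inclusionInDoubleDual ℝ X x‖ = ‖x‖ :=
  (NormedSpace.inclusionInDoubleDualLi ℝ (E := X)).norm_map x

/-- a normalised element of the bidual far from `X` -/
theorem exists_F [CompleteSpace X]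
    (hX : ¬ Function.Surjective (NormedSpace.inclusionInDoubleDual ℝ X)) :
    ∃ (F : (X →L[ℝ] ℝ) →L[ℝ] ℝ) (θ : ℝ), ‖F‖ ≤ 1 ∧ 0 < θ ∧
      ∀ (b : ℝ) (x : X), |b| * θ ≤ ‖b • F + NormedSpace.inclusionInDoubleDual ℝ X x‖ :=
  exists_far' (V := X →L[ℝ] ℝ) (NormedSpace.inclusionInDoubleDual ℝ X) norm_incl hX

theorem exists_unit [CompleteSpace X]
    (hX : ¬ Function.Surjective (NormedSpace.inclusionInDoubleDual ℝ X)) :
    ∃ x0 : X, ‖x0‖ = 1 := by
  obtain ⟨F, θ, hF1, hθ, hF⟩ := exists_F hX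
  obtain ⟨φ, x, -, -, -, h1, -⟩ := exists_seqs F hF1 hθ.le hF 0 (ε := θ / 4) (by positivity)
  have h2 := h1 0 0 le_rfl
  have h3 : x 0 ≠ 0 := by
    intro h
    rw [h, map_zero] at h2
    linarith
  refine ⟨‖x 0‖⁻¹ • x 0, ?_⟩
  rw [norm_smul, norm_inv, norm_norm, inv_mul_cancel₀ (norm_ne_zero_iff.2 h3)]

/-- sequences in the normalised form used below -/
theorem exists_seqs' [CompleteSpace X]
    (hX : ¬ Function.Surjective (NormedSpace.inclusionInDoubleDual ℝ X)) (x0 : X) :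
    ∃ (h : ℕ → (X →L[ℝ] ℝ)) (x : ℕ → X) (C : ℝ), (∀ j, ‖h j‖ ≤ C) ∧ (∀ i, ‖x i‖ ≤ 1) ∧
      (∀ j, |h j x0| ≤ 1 / 2) ∧ (∀ j i, j ≤ i → 15 ≤ h j (x i)) ∧
      ∀ j i, i < j → |h j (x i)| ≤ 1 / 2 := by
  obtain ⟨F, θ, hF1, hθ, hF⟩ := exists_F hX
  obtain ⟨φ, x, h1, h2, h3, h4, h5⟩ :=
    exists_seqs F hF1 hθ.le hF x0 (ε := θ / 32) (by positivity)
  have hc : 0 < 16 / θ := by positivity
  have e1 : 16 / θ * (θ / 32) = 1 / 2 := by field_simp; norm_num
  have e2 : 16 / θ * (θ - 2 * (θ / 32)) = 15 := by field_simp; norm_num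
  refine ⟨fun j => (16 / θ) • φ j, x, 16 / θ, ?_, h2, ?_, ?_, ?_⟩
  · intro j
    rw [norm_smul, Real.norm_of_nonneg hc.le]
    exact mul_le_of_le_one_right hc.le (h1 j)
  · intro j
    show |16 / θ * φ j x0| ≤ 1 / 2
    rw [abs_mul, abs_of_pos hc, ← e1]
    exact mul_le_mul_of_nonneg_left (h3 j).le hc.le
  · intro j i hji
    show 15 ≤ 16 / θ * φ j (x i)
    rw [← e2]
    exact mul_le_mul_of_nonneg_left (h4 j i hji) hc.le
  · intro j i hij
    show |16 / θ * φ j (x i)| ≤ 1 / 2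
    rw [abs_mul, abs_of_pos hc, ← e1]
    exact mul_le_mul_of_nonneg_left (h5 j i hij).le hc.le

theorem nonreflexive [CompleteSpace X] (T : X →L[ℝ] Y) (hT : ∀ x, ‖T x‖ = ‖x‖)
    (hX : ¬ Function.Surjective (NormedSpace.inclusionInDoubleDual ℝ X)) : ¬ BhatiaSemrl T := by
  obtain ⟨x0, hx0⟩ := exists_unit hX
  obtain ⟨h, x, C, hC, hx, h3, h4, h5⟩ := exists_seqs' hX x0
  have hst : ∀ x : X, ‖x‖ = 1 → ∃ w : St T, w.1.1 = x := fun x hx => exists_state hT hx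
  have hne : Nonempty (St T) := by
    obtain ⟨w, -⟩ := hst x0 hx0
    exact ⟨w⟩
  set e : St T → X := fun w => w.1.2 (T x0) • w.1.1 with he
  have he1 : ∀ w, ‖e w‖ ≤ 1 := by
    intro w
    show ‖w.1.2 (T x0) • w.1.1‖ ≤ 1
    rw [norm_smul, w.2.1, mul_one, Real.norm_eq_abs]
    have := abs_le_of w.1.2 w.2.2.1 (T x0)
    rwa [hT, hx0] at this
  have hM : ∀ g ∈ convexHull ℝ (range h), ∃ w, ∃ N, ∀ j, N ≤ j → h j (e w) ≤ g (e w) - 1 := by
    intro g hg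
    have hsub : convexHull ℝ (range h) ⊆
        {g : X →L[ℝ] ℝ | |g x0| ≤ 1 / 2 ∧ ∃ N0, ∀ i, N0 ≤ i → 15 ≤ g (x i)} := by
      apply convexHull_min
      · rintro _ ⟨j, rfl⟩
        exact ⟨h3 j, j, fun i hi => h4 j i hi⟩
      · rintro g1 ⟨ha1, N1, hN1⟩ g2 ⟨ha2, N2, hN2⟩ a b ha hb hab
        refine ⟨?_, max N1 N2, fun i hi => ?_⟩
        · show |a * g1 x0 + b * g2 x0| ≤ 1 / 2
          have h6 := abs_le.1 ha1
          have h7 := abs_le.1 ha2
          rw [abs_le]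
          constructor <;> nlinarith
        · show 15 ≤ a * g1 (x i) + b * g2 (x i)
          have h6 := hN1 i ((le_max_left _ _).trans hi)
          have h7 := hN2 i ((le_max_right _ _).trans hi)
          nlinarith
    obtain ⟨hg0, i, hgi⟩ := hsub hg
    have hgi' := hgi i le_rfl
    set z : X := x0 + (1 / 4 : ℝ) • x i with hz
    have hz4 : ‖(1 / 4 : ℝ) • x i‖ ≤ 1 / 4 := by
      rw [norm_smul, Real.norm_of_nonneg (by norm_num)]
      have := hx i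
      linarith
    have hz1 : ‖z‖ ≤ 5 / 4 := by
      have := norm_add_le x0 ((1 / 4 : ℝ) • x i)
      rw [← hz] at this
      linarith
    have hz2 : 3 / 4 ≤ ‖z‖ := by
      have h6 : x0 = z - (1 / 4 : ℝ) • x i := by rw [hz]; abel
      have h7 := norm_sub_le z ((1 / 4 : ℝ) • x i)
      rw [← h6, hx0] at h7
      linarith
    have hz0 : 0 < ‖z‖ := by linarith
    obtain ⟨w, hw⟩ := hst (‖z‖⁻¹ • z) (by
      rw [norm_smul, norm_inv, norm_norm, inv_mul_cancel₀ hz0.ne'])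
    have hf1 : w.1.2 (T z) = ‖z‖ := by
      have h6 := w.2.2.2
      rw [hw, map_smul, map_smul, smul_eq_mul] at h6
      field_simp at h6
      exact h6
    have hf2 : 1 / 2 ≤ w.1.2 (T x0) := by
      have h6 : w.1.2 (T z) = w.1.2 (T x0) + 1 / 4 * w.1.2 (T (x i)) := by
        rw [hz, map_add, map_add, map_smul, map_smul, smul_eq_mul]
      have h7 := abs_le_of w.1.2 w.2.2.1 (T (x i))
      rw [hT] at h7
      have h8 := (abs_le.1 h7).2
      have h9 := hx i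
      linarith
    have hinv : 4 / 5 ≤ ‖z‖⁻¹ := by
      rw [le_inv_comm₀ (by norm_num) hz0]
      norm_num
      exact hz1
    have hκ : 2 / 5 ≤ w.1.2 (T x0) * ‖z‖⁻¹ := by
      calc (2 / 5 : ℝ) = 1 / 2 * (4 / 5) := by norm_num
        _ ≤ w.1.2 (T x0) * ‖z‖⁻¹ := mul_le_mul hf2 hinv (by norm_num) (by linarith)
    have hew : ∀ ψ : X →L[ℝ] ℝ, ψ (e w) = (w.1.2 (T x0) * ‖z‖⁻¹) * (ψ x0 + 1 / 4 * ψ (x i)) := by
      intro ψ
      show ψ (w.1.2 (T x0) • w.1.1) = _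
      rw [hw, map_smul, map_smul, hz, map_add, map_smul]
      simp only [smul_eq_mul]
      ring
    refine ⟨w, i + 1, fun j hj => ?_⟩
    rw [hew, hew]
    have h6 := abs_le.1 (h3 j)
    have h7 := abs_le.1 (h5 j i (by omega))
    have h8 := abs_le.1 hg0
    have h9 : 21 / 8 ≤ (g x0 + 1 / 4 * g (x i)) - (h j x0 + 1 / 4 * h j (x i)) := by
      linarith [h6.2, h7.2, h8.1]
    have h10 : 2 / 5 * (21 / 8) ≤ (w.1.2 (T x0) * ‖z‖⁻¹) *
        ((g x0 + 1 / 4 * g (x i)) - (h j x0 + 1 / 4 * h j (x i))) :=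
      mul_le_mul hκ h9 (by norm_num) (by linarith)
    rw [mul_sub] at h10
    linarith
  obtain ⟨ψ, hψ⟩ := james he1 h hC hM
  have hop : ∀ w : St T, ev T w (ψ.smulRight (T x0)) = ψ (e w) := by
    intro w
    show w.1.2 (ψ w.1.1 • T x0) = ψ (w.1.2 (T x0) • w.1.1)
    rw [map_smul, map_smul, smul_eq_mul, smul_eq_mul, mul_comm]
  refine not_BS hT (ψ.smulRight (T x0)) (fun w => ?_)
  obtain ⟨w', hw'⟩ := hψ w
  rw [hop]
  refine hw'.trans_le ?_
  rw [← hop]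
  exact le_sp (hev T) w' _

end Pool.Agent.X102.BSP
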