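import Pool.Agent.X102.BS4
import Pool.Agent.X102.BS3

/-! The James-type theorem for evaluations on a Banach space with cluster points. -/

namespace Pool.Agent.X102.BSQ

open Filter Topology Set
open Pool.Agent.X102.BSP (recursion contra)

variable {V W : Type*} [NormedAddCommGroup V] [NormedSpace ℝ V]

/-- `b` is at least the lower limit of `ev w (h j)` along the sets `U k` -/
def LB (ev : W → V →ₗ[ℝ] ℝ) (U : ℕ → Set ℕ) (h : ℕ → V) (w : W) (b : ℝ) : Prop :=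
  ∀ ε > 0, ∀ k, ∃ j ∈ U k, ev w (h j) < b + ε

/-- the set of values `ev w d - b` -/
def DD (ev : W → V →ₗ[ℝ] ℝ) (U : ℕ → Set ℕ) (h : ℕ → V) (d : V) : Set ℝ :=
  {a | ∃ w b, LB ev U h w b ∧ a = ev w d - b}

variable {ev : W → V →ₗ[ℝ] ℝ}

theorem LB_ge (he : ∀ w v, |ev w v| ≤ ‖v‖) {h : ℕ → V} {C : ℝ}
    (hC : ∀ j, ‖h j‖ ≤ C) {U : ℕ → Set ℕ} {w : W} {b : ℝ} (hb : LB ev U h w b) : -C ≤ b := by
  by_contra hcon
  push Not at hcon
  obtain ⟨j, -, hj⟩ := hb (-C - b) (by linarith) 0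
  have h1 := (abs_le.1 ((he w (h j)).trans (hC j))).1
  linarith

theorem LB_C (he : ∀ w v, |ev w v| ≤ ‖v‖) {h : ℕ → V} {C : ℝ}
    (hC : ∀ j, ‖h j‖ ≤ C) {U : ℕ → Set ℕ} (hU : ∀ k, (U k).Nonempty) (w : W) :
    LB ev U h w C := by
  intro ε hε k
  obtain ⟨j, hj⟩ := hU k
  refine ⟨j, hj, ?_⟩
  have h1 := (abs_le.1 ((he w (h j)).trans (hC j))).2
  linarith

theorem DD_bdd (he : ∀ w v, |ev w v| ≤ ‖v‖) {h : ℕ → V} {C : ℝ}
    (hC : ∀ j, ‖h j‖ ≤ C) (U : ℕ → Set ℕ) (d : V) : BddAbove (DD ev U h d) := by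
  refine ⟨‖d‖ + C, ?_⟩
  rintro _ ⟨w, b, hb, rfl⟩
  have h1 := LB_ge he hC hb
  have h2 := (abs_le.1 (he w d)).2
  linarith

theorem DD_ne [Nonempty W] (he : ∀ w v, |ev w v| ≤ ‖v‖) {h : ℕ → V} {C : ℝ}
    (hC : ∀ j, ‖h j‖ ≤ C) {U : ℕ → Set ℕ} (hU : ∀ k, (U k).Nonempty) (d : V) :
    (DD ev U h d).Nonempty := by
  obtain ⟨w⟩ := ‹Nonempty W›
  exact ⟨_, w, C, LB_C he hC hU w, rfl⟩

theorem stab_step [Nonempty W] (he : ∀ w v, |ev w v| ≤ ‖v‖) {h : ℕ → V} {C : ℝ}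
    (hC : ∀ j, ‖h j‖ ≤ C) (N : Set ℕ) (hN : ∀ k, ∃ j ∈ N, k ≤ j) (d : V)
    {ε : ℝ} (hε : 0 < ε) :
    ∃ N' : Set ℕ, N' ⊆ N ∧ (∀ k, ∃ j ∈ N', k ≤ j) ∧ ∃ (w : W) (b : ℝ),
      (∀ j ∈ N', ev w (h j) < b + ε) ∧
      ∀ w' b', LB ev (fun k => N ∩ {j | k ≤ j}) h w' b' → ev w' d - b' ≤ ev w d - b + ε := by
  have hne := DD_ne he hC (U := fun k => N ∩ {j | k ≤ j})
    (fun k => (hN k).imp fun j hj => ⟨hj.1, hj.2⟩) d
  obtain ⟨_, ⟨w, b, hb, rfl⟩, hlt⟩ := exists_lt_of_lt_csSup hne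
    (show sSup (DD ev (fun k => N ∩ {j | k ≤ j}) h d) - ε < _ by linarith)
  refine ⟨{j | j ∈ N ∧ ev w (h j) < b + ε}, fun j hj => hj.1, ?_, w, b, fun j hj => hj.2, ?_⟩
  · intro k
    obtain ⟨j, hj1, hj2⟩ := hb ε hε k
    exact ⟨j, ⟨hj1.1, hj2⟩, hj1.2⟩
  · intro w' b' hb'
    have := le_csSup (DD_bdd he hC _ d) ⟨w', b', hb', rfl⟩
    linarith

theorem stab_seq [Nonempty W] (he : ∀ w v, |ev w v| ≤ ‖v‖) {h : ℕ → V} {C : ℝ}
    (hC : ∀ j, ‖h j‖ ≤ C) (d : ℕ → V) (ε : ℕ → ℝ) (hε : ∀ i, 0 < ε i) :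
    ∃ U : ℕ → Set ℕ, Antitone U ∧ (∀ k, (U k).Nonempty) ∧ (∀ k, ∀ j ∈ U k, k ≤ j) ∧
      ∀ i, ∃ (w : W) (b : ℝ), (∀ k, i < k → ∀ j ∈ U k, ev w (h j) < b + ε i) ∧
        ∀ w' b', LB ev U h w' b' → ev w' (d i) - b' ≤ ev w (d i) - b + ε i := by
  have step : ∀ (N : {N : Set ℕ // ∀ k, ∃ j ∈ N, k ≤ j}) (i : ℕ),
      ∃ N' : {N : Set ℕ // ∀ k, ∃ j ∈ N, k ≤ j}, N'.1 ⊆ N.1 ∧ ∃ (w : W) (b : ℝ),
      (∀ j ∈ N'.1, ev w (h j) < b + ε i) ∧
      ∀ w' b', LB ev (fun k => N.1 ∩ {j | k ≤ j}) h w' b' →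
        ev w' (d i) - b' ≤ ev w (d i) - b + ε i := by
    intro N i
    obtain ⟨N', h1, h2, h3⟩ := stab_step he hC N.1 N.2 (d i) (hε i)
    exact ⟨⟨N', h2⟩, h1, h3⟩
  choose F hF1 hF2 using step
  let Ns : ℕ → {N : Set ℕ // ∀ k, ∃ j ∈ N, k ≤ j} := fun n =>
    Nat.rec ⟨univ, fun k => ⟨k, trivial, le_rfl⟩⟩ (fun i N => F N i) n
  have hanti : ∀ i, (Ns (i + 1)).1 ⊆ (Ns i).1 := fun i => hF1 (Ns i) i
  have hanti' : Antitone (fun i => (Ns i).1) := antitone_nat_of_succ_le hanti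
  refine ⟨fun k => (Ns k).1 ∩ {j | k ≤ j}, ?_, ?_, fun k j hj => hj.2, ?_⟩
  · intro k l hkl j hj
    exact ⟨hanti' hkl hj.1, hkl.trans hj.2⟩
  · intro k
    obtain ⟨j, hj1, hj2⟩ := (Ns k).2 k
    exact ⟨j, hj1, hj2⟩
  · intro i
    obtain ⟨w, b, h1, h2⟩ := hF2 (Ns i) i
    refine ⟨w, b, fun k hk j hj => h1 j (hanti' (Nat.succ_le_of_lt hk) hj.1),
      fun w' b' hLB => h2 w' b' ?_⟩
    intro δ hδ k
    obtain ⟨j, hj, hj2⟩ := hLB δ hδ (max k i)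
    have hj3 : max k i ≤ j := hj.2
    exact ⟨j, ⟨hanti' (le_max_right k i) hj.1, show k ≤ j from (le_max_left k i).trans hj3⟩, hj2⟩

theorem le_PP (he : ∀ w v, |ev w v| ≤ ‖v‖) {h : ℕ → V} {C : ℝ}
    (hC : ∀ j, ‖h j‖ ≤ C) {U : ℕ → Set ℕ} (d : V) {w : W} {b : ℝ}
    (hb : LB ev U h w b) : ev w d - b ≤ sSup (DD ev U h d) :=
  le_csSup (DD_bdd he hC U d) ⟨w, b, hb, rfl⟩

theorem PP_le_add [Nonempty W] (he : ∀ w v, |ev w v| ≤ ‖v‖) {h : ℕ → V} {C : ℝ}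
    (hC : ∀ j, ‖h j‖ ≤ C) {U : ℕ → Set ℕ} (hU : ∀ k, (U k).Nonempty) (u v : V) :
    sSup (DD ev U h u) ≤ sSup (DD ev U h v) + ‖u - v‖ := by
  apply csSup_le (DD_ne he hC hU u)
  rintro _ ⟨w, b, hb, rfl⟩
  have h1 := le_PP he hC v hb
  have h2 := (abs_le.1 (he w (u - v))).2
  rw [map_sub] at h2
  linarith

theorem hull_le {h : ℕ → V} {N : Set ℕ} {w : W} {c : ℝ}
    (H : ∀ j ∈ N, ev w (h j) ≤ c) {g : V} (hg : g ∈ convexHull ℝ (h '' N)) : ev w g ≤ c := by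
  have hsub : convexHull ℝ (h '' N) ⊆ {v : V | ev w v ≤ c} := by
    apply convexHull_min
    · rintro _ ⟨n, hn, rfl⟩
      exact H n hn
    · exact convex_halfSpace_le (ev w).isLinear _
  exact hsub hg

theorem hull_ge {h : ℕ → V} {N : Set ℕ} {w : W} {c : ℝ}
    (H : ∀ j ∈ N, c ≤ ev w (h j)) {g : V} (hg : g ∈ convexHull ℝ (h '' N)) : c ≤ ev w g := by
  have hsub : convexHull ℝ (h '' N) ⊆ {v : V | c ≤ ev w v} := by
    apply convexHull_min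
    · rintro _ ⟨n, hn, rfl⟩
      exact H n hn
    · exact convex_halfSpace_ge (ev w).isLinear _
  exact hsub hg

theorem james [CompleteSpace V] [Nonempty W] (he : ∀ w v, |ev w v| ≤ ‖v‖) (h : ℕ → V) {C : ℝ}
    (hC : ∀ j, ‖h j‖ ≤ C)
    (hcl : ∀ g : ℕ → V, (∀ k, ‖g k‖ ≤ C) → ∃ g0 : V, ‖g0‖ ≤ C ∧
      ∀ w, Tendsto (fun k => ev w (g k)) (hyperfilter ℕ : Filter ℕ) (𝓝 (ev w g0)))
    (hM : ∀ g ∈ convexHull ℝ (range h), ∃ w, ∃ N, ∀ j, N ≤ j → ev w (h j) ≤ ev w g - 1) :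
    ∃ ψ : V, ∀ w, ∃ w', ev w ψ < ev w' ψ := by
  classical
  have hC0 : 0 ≤ C := (norm_nonneg _).trans (hC 0)
  have hsep : TopologicalSpace.IsSeparable (Submodule.span ℝ (range h) : Set V) :=
    (countable_range h).isSeparable.span
  obtain ⟨c, hc, hcs⟩ := hsep
  have hcne : c.Nonempty := by
    rw [← closure_nonempty_iff]
    exact ⟨0, hcs (Submodule.zero_mem _)⟩
  obtain ⟨d', hd'⟩ := hc.exists_eq_range hcne
  obtain ⟨U, hU1, hU2, hU3, hU4⟩ := stab_seq he hC (fun i => d' (Nat.unpair i).1)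
    (fun i => 1 / ((Nat.unpair i).2 + 1 : ℝ)) (fun i => by positivity)
  set P : V → ℝ := fun d => sSup (DD ev U h d) with hP
  have hSC : ∀ k, ∀ g ∈ convexHull ℝ (h '' U k), ‖g‖ ≤ C := by
    intro k g hg
    have : convexHull ℝ (h '' U k) ⊆ Metric.closedBall (0 : V) C := by
      apply convexHull_min _ (convex_closedBall 0 C)
      rintro _ ⟨n, _, rfl⟩
      simpa using hC n
    simpa using this hg
  obtain ⟨H, g, hh, hH0, hH1, hgS, hHlim, hHd, hPk⟩ := recursion P (PP_le_add he hC hU2)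
    (fun k => convexHull ℝ (h '' U k))
    (fun k => convexHull_mono (image_mono (hU1 (Nat.le_succ k))))
    (fun k => ((hU2 k).image h).convexHull) (fun k => convex_convexHull ℝ _) hSC
  have hgr : ∀ k, g k ∈ convexHull ℝ (range h) := fun k =>
    convexHull_mono (image_subset_range _ _) (hgS k)
  have hgspan : ∀ k, g k ∈ Submodule.span ℝ (range h) := fun k =>
    (convexHull_min Submodule.subset_span (Submodule.convex _)) (hgr k)
  have hHspan : ∀ k, H k ∈ Submodule.span ℝ (range h) := by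
    intro k
    induction k with
    | zero => rw [hH0]; exact Submodule.zero_mem _
    | succ k ih => rw [hH1]; exact Submodule.add_mem _ ih (Submodule.smul_mem _ _ (hgspan k))
  have hhcl : hh ∈ closure c := by
    have h1 : hh ∈ closure (Submodule.span ℝ (range h) : Set V) :=
      mem_closure_of_tendsto hHlim (Eventually.of_forall fun k => hHspan k)
    exact closure_minimal hcs isClosed_closure h1
  obtain ⟨g0, hg0C, hg0⟩ := hcl g (fun k => hSC k _ (hgS k))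
  have hhyp : (hyperfilter ℕ : Filter ℕ) ≤ atTop := Nat.hyperfilter_le_atTop
  have hLB : ∀ w, LB ev U h w (ev w g0) := by
    intro w δ hδ k
    have h1 : ∀ᶠ k' in (hyperfilter ℕ : Filter ℕ), ev w (g k') < ev w g0 + δ :=
      (hg0 w).eventually_lt_const (by linarith)
    have h2 : ∀ᶠ k' in (hyperfilter ℕ : Filter ℕ), k ≤ k' := hhyp (eventually_ge_atTop k)
    obtain ⟨k', hk1, hk2⟩ := (h1.and h2).exists
    by_contra hcon
    push Not at hcon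
    have h3 := hull_ge (ev := ev) (h := h) (N := U k') (w := w) (c := ev w g0 + δ)
      (fun j hj => hcon j (hU1 hk2 hj)) (hgS k')
    linarith
  refine ⟨hh - g0, fun w => ?_⟩
  by_contra hcon
  push Not at hcon
  have hb : ∀ w, ev w (hh - g0) ≤ P hh := fun w => by
    rw [map_sub]; exact le_PP he hC hh (hLB w)
  have hPw : P hh ≤ ev w (hh - g0) := by
    apply le_of_forall_pos_le_add
    intro ε hε
    obtain ⟨c0, hc0, hdc⟩ := Metric.mem_closure_iff.1 hhcl (ε / 4) (by positivity)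
    rw [hd'] at hc0
    obtain ⟨n, rfl⟩ := hc0
    obtain ⟨q, hq⟩ := exists_nat_one_div_lt (show (0 : ℝ) < ε / 4 by positivity)
    obtain ⟨w', b, h1, h2⟩ := hU4 (Nat.pair n q)
    simp only [Nat.unpair_pair] at h1 h2
    have h3 : P (d' n) ≤ ev w' (d' n) - b + 1 / ((q : ℝ) + 1) := by
      apply csSup_le (DD_ne he hC hU2 _)
      rintro _ ⟨w'', b', hb', rfl⟩
      exact h2 w'' b' hb'
    have h4 : ev w' g0 ≤ b + 1 / ((q : ℝ) + 1) := by
      apply le_of_tendsto (hg0 w')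
      have h5 : ∀ᶠ k' in (hyperfilter ℕ : Filter ℕ), Nat.pair n q < k' :=
        hhyp (eventually_gt_atTop _)
      filter_upwards [h5] with k' hk'
      exact hull_le (fun j hj => (h1 k' hk' j hj).le) (hgS k')
    have h5 := PP_le_add he hC hU2 hh (d' n)
    rw [← dist_eq_norm] at h5
    have h6 := abs_le.1 (he w' (hh - d' n))
    rw [← dist_eq_norm, map_sub] at h6
    have h8 : ev w' (hh - g0) = ev w' hh - ev w' g0 := map_sub _ _ _
    have h9 := hcon w'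
    have h10 : P hh ≤ P (d' n) + dist hh (d' n) := h5
    linarith [h6.1, h6.2]
  have hs : P hh = ev w hh - ev w g0 := by
    rw [← map_sub]; exact le_antisymm hPw (hb w)
  have hfr : ∃ᶠ k in atTop, ev w (g k) - ev w g0 < 1 / 4 := by
    have h1 : ∀ᶠ k in (hyperfilter ℕ : Filter ℕ), ev w (g k) < ev w g0 + 1 / 4 :=
      (hg0 w).eventually_lt_const (by linarith)
    refine Frequently.filter_mono (h1.frequently.mono fun k hk => ?_) hhyp
    linarith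
  refine contra (fun k => ev w (H k) - (1 - (1 / 2 : ℝ) ^ k) * ev w g0)
    (fun k => ev w (g k) - ev w g0) (P hh) (2 * C) ?_ ?_ ?_ ?_ ?_ hfr
  · show ev w (H 0) - (1 - (1 / 2 : ℝ) ^ 0) * ev w g0 = 0
    rw [hH0, pow_zero]; simp
  · intro k
    show ev w (H (k + 1)) - (1 - (1 / 2 : ℝ) ^ (k + 1)) * ev w g0
      = ev w (H k) - (1 - (1 / 2 : ℝ) ^ k) * ev w g0
        + (1 / 2 : ℝ) ^ (k + 1) * (ev w (g k) - ev w g0)
    rw [hH1, map_add, map_smul, smul_eq_mul, pow_succ]; ring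
  · have h1 := hPk 0
    rw [hH0, zero_add, pow_zero, pow_zero, one_smul] at h1
    obtain ⟨w1, N1, hN1⟩ := hM _ (hgr 0)
    have hLB1 : LB ev U h w1 (ev w1 (g 0) - 1) := by
      intro ε hε k
      obtain ⟨j, hj⟩ := hU2 (max k N1)
      refine ⟨j, hU1 (le_max_left _ _) hj, ?_⟩
      have := hN1 j ((le_max_right _ _).trans (hU3 _ j hj))
      linarith
    have h2 : ev w1 (g 0) - (ev w1 (g 0) - 1) ≤ P (g 0) := le_PP he hC (g 0) hLB1
    linarith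
  · intro k
    show P hh - (ev w (H k) - (1 - (1 / 2 : ℝ) ^ k) * ev w g0) ≤ 2 * C / 2 ^ k
    have h1 := (abs_le.1 (he w (hh - H k))).2
    rw [map_sub] at h1
    have h3 := hHd k
    rw [norm_sub_rev] at h3
    have h4 : -(ev w g0) ≤ C := by
      have h5 := (abs_le.1 ((he w g0).trans hg0C)).1
      linarith
    have h5 := mul_le_mul_of_nonneg_left h4 (by positivity : (0:ℝ) ≤ (1 / 2 : ℝ) ^ k)
    have h6 : (1 / 2 : ℝ) ^ k * C = C / 2 ^ k := by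
      rw [one_div, inv_pow]; field_simp
    have h7 : 2 * C / 2 ^ k = C / 2 ^ k + C / 2 ^ k := by ring
    rw [h6] at h5
    rw [h7, hs]
    nlinarith
  · intro k
    show ev w (H k) - (1 - (1 / 2 : ℝ) ^ k) * ev w g0 + (1 / 2 : ℝ) ^ k * (ev w (g k) - ev w g0)
      ≤ P hh + (1 / 6) * (1 / 4 : ℝ) ^ k
    have h1 : ev w (H k + (1 / 2 : ℝ) ^ k • g k) - ev w g0 ≤ P (H k + (1 / 2 : ℝ) ^ k • g k) :=
      le_PP he hC _ (hLB w)
    rw [map_add, map_smul, smul_eq_mul] at h1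
    have h3 := hPk k
    linarith

end Pool.Agent.X102.BSQ
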