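import Pool.Agent.X102.BS8
import Pool.Agent.X102.BS7

/-! Domains with a bounded compact approximation property on an infinite-dimensional subspace. -/

namespace Pool.Agent.X102.BSQ

open Filter Topology Set
open Pool.Agent.X102.BSP (St ev ev_apply abs_le_of exists_state small_vec BhatiaSemrl BJ not_BS
  sp le_sp hev nonreflexive)

variable {X Y : Type*} [NormedAddCommGroup X] [NormedSpace ℝ X] [NormedAddCommGroup Y]
  [NormedSpace ℝ Y]

theorem small_vec_fin (Z : Submodule ℝ X) (hZ : ¬ FiniteDimensional ℝ Z)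
    (s : Finset (X →L[ℝ] X)) (hs : ∀ K ∈ s, IsCompactOperator K) {ε : ℝ} (hε : 0 < ε) :
    ∃ z ∈ Z, ‖z‖ = 1 ∧ ∀ K ∈ s, ‖K z‖ ≤ ε := by
  classical
  let Φ : X →L[ℝ] (s → X) := ContinuousLinearMap.pi (fun K : s => (K : X →L[ℝ] X))
  have hΦ : IsCompactOperator Φ := by
    choose S hS1 hS2 using fun K : s => hs K K.2
    refine ⟨Set.univ.pi S, isCompact_univ_pi hS1, ?_⟩
    have h1 : Φ ⁻¹' (Set.univ.pi S) = ⋂ K : s, (K : X →L[ℝ] X) ⁻¹' S K := by
      ext x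
      simp [Φ]
    rw [h1]
    exact Filter.iInter_mem.2 hS2
  obtain ⟨z, h1, h2, h3⟩ := small_vec Z hZ hΦ hε
  exact ⟨z, h1, h2, fun K hK => (norm_le_pi_norm (Φ z) ⟨K, hK⟩).trans h3⟩

theorem eq_of_dual {y y' : X} (h : ∀ φ : X →L[ℝ] ℝ, φ y = φ y') : y = y' := by
  obtain ⟨g, -, hg⟩ := exists_dual_vector'' ℝ (y - y')
  have h1 : g (y - y') = 0 := by rw [map_sub, h g, sub_self]
  rw [hg] at h1
  have h2 : ‖y - y'‖ = 0 := by exact_mod_cast h1
  exact sub_eq_zero.1 (norm_eq_zero.1 h2)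

theorem cluster (hX : Function.Surjective (NormedSpace.inclusionInDoubleDual ℝ X)) {C : ℝ}
    (g : ℕ → X →L[ℝ] X) (hg : ∀ k, ‖g k‖ ≤ C) :
    ∃ g0 : X →L[ℝ] X, ‖g0‖ ≤ C ∧ ∀ (x : X) (φ : X →L[ℝ] ℝ),
      Tendsto (fun k => φ (g k x)) (hyperfilter ℕ : Filter ℕ) (𝓝 (φ (g0 x))) := by
  have hC0 : 0 ≤ C := (norm_nonneg _).trans (hg 0)
  have hb : ∀ k x (φ : X →L[ℝ] ℝ), |φ (g k x)| ≤ C * ‖x‖ * ‖φ‖ := by
    intro k x φ
    have h1 := φ.le_opNorm (g k x)
    rw [Real.norm_eq_abs] at h1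
    have h2 := (g k).le_opNorm x
    have h3 := mul_le_mul_of_nonneg_right (hg k) (norm_nonneg x)
    have h4 := mul_le_mul_of_nonneg_left (h2.trans h3) (norm_nonneg φ)
    rw [mul_comm (‖φ‖) (C * ‖x‖)] at h4
    exact h1.trans h4
  have hlim : ∀ (x : X) (φ : X →L[ℝ] ℝ),
      ∃ l, Tendsto (fun k => φ (g k x)) (hyperfilter ℕ : Filter ℕ) (𝓝 l) := by
    intro x φ
    obtain ⟨l, -, hl⟩ := (isCompact_Icc (a := -(C * ‖x‖ * ‖φ‖))
      (b := C * ‖x‖ * ‖φ‖)).ultrafilter_le_nhds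
      ((hyperfilter ℕ).map (fun k => φ (g k x))) (by
        rw [Filter.le_principal_iff]
        exact Filter.mem_map.2 (Filter.univ_mem' fun k => abs_le.1 (hb k x φ)))
    exact ⟨l, hl⟩
  choose L hL using hlim
  have hy : ∀ x, ∃ y : X, ∀ φ : X →L[ℝ] ℝ,
      Tendsto (fun k => φ (g k x)) (hyperfilter ℕ : Filter ℕ) (𝓝 (φ y)) := by
    intro x
    let Lx : (X →L[ℝ] ℝ) →ₗ[ℝ] ℝ :=
      { toFun := L x
        map_add' := fun φ φ' => tendsto_nhds_unique (hL x (φ + φ')) ((hL x φ).add (hL x φ'))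
        map_smul' := fun a φ => tendsto_nhds_unique (hL x (a • φ)) ((hL x φ).const_mul a) }
    have hLx : ∀ φ, ‖Lx φ‖ ≤ C * ‖x‖ * ‖φ‖ := by
      intro φ
      rw [Real.norm_eq_abs]
      exact le_of_tendsto (hL x φ).abs (Eventually.of_forall fun k => hb k x φ)
    obtain ⟨y, hy⟩ := hX (Lx.mkContinuous (C * ‖x‖) hLx)
    refine ⟨y, fun φ => ?_⟩
    have h1 : φ y = L x φ := by
      have h2 := congrArg (fun F : StrongDual ℝ (StrongDual ℝ X) => F φ) hy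
      exact h2
    rw [h1]
    exact hL x φ
  choose G0 hG0 using hy
  let g0l : X →ₗ[ℝ] X :=
    { toFun := G0
      map_add' := fun x x' => eq_of_dual fun φ => by
        rw [map_add]
        refine tendsto_nhds_unique (hG0 (x + x') φ) ?_
        refine ((hG0 x φ).add (hG0 x' φ)).congr fun k => ?_
        rw [map_add, map_add]
      map_smul' := fun a x => eq_of_dual fun φ => by
        rw [map_smul, RingHom.id_apply]
        refine tendsto_nhds_unique (hG0 (a • x) φ) ?_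
        refine ((hG0 x φ).const_mul a).congr fun k => ?_
        rw [map_smul, map_smul, smul_eq_mul] }
  have hg0b : ∀ x, ‖g0l x‖ ≤ C * ‖x‖ := by
    intro x
    obtain ⟨φ, hφ1, hφ2⟩ := exists_dual_vector'' ℝ (G0 x)
    have h1 := hG0 x φ
    rw [hφ2] at h1
    have h2 : ‖G0 x‖ ≤ C * ‖x‖ := by
      refine le_of_tendsto h1 (Eventually.of_forall fun k => ?_)
      have h3 := hb k x φ
      have h4 : C * ‖x‖ * ‖φ‖ ≤ C * ‖x‖ :=
        mul_le_of_le_one_right (mul_nonneg hC0 (norm_nonneg _)) hφ1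
      exact (le_abs_self _).trans (h3.trans h4)
    exact h2
  exact ⟨g0l.mkContinuous C hg0b, LinearMap.mkContinuous_norm_le _ hC0 _, hG0⟩

/-- evaluation of operators on the domain through `T` -/
def evX (T : X →L[ℝ] Y) (w : St T) : (X →L[ℝ] X) →ₗ[ℝ] ℝ where
  toFun A := w.1.2 (T (A w.1.1))
  map_add' A B := by simp
  map_smul' c A := by simp

theorem bcap [CompleteSpace X] (T : X →L[ℝ] Y) (hT : ∀ x, ‖T x‖ = ‖x‖) (Z : Submodule ℝ X)
    (hZ : ¬ FiniteDimensional ℝ Z) (M : ℝ)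
    (hK : ∀ s : Finset X, (∀ z ∈ s, z ∈ Z) → ∀ ε > 0, ∃ K : X →L[ℝ] X,
      IsCompactOperator K ∧ ‖K‖ ≤ M ∧ ∀ z ∈ s, ‖K z - z‖ ≤ ε) : ¬ BhatiaSemrl T := by
  classical
  by_cases hX : Function.Surjective (NormedSpace.inclusionInDoubleDual ℝ X)
  swap
  · exact nonreflexive T hT hX
  obtain ⟨f, hf1, hf2⟩ := exists_seq_of_forall_finset_exists
    (fun a : (X →L[ℝ] X) × X => IsCompactOperator a.1 ∧ ‖a.1‖ ≤ M ∧ a.2 ∈ Z ∧ ‖a.2‖ = 1 ∧
      ‖a.1 a.2‖ ≤ 1 / 8)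
    (fun a b => ‖b.1 a.2 - a.2‖ ≤ 1 / 8 ∧ ‖a.1 b.2‖ ≤ 1 / 8) (by
      intro s hs
      obtain ⟨K, h1, h2, h3⟩ := hK (s.image Prod.snd) (by
        intro z hz
        obtain ⟨a, ha, rfl⟩ := Finset.mem_image.1 hz
        exact (hs a ha).2.2.1) (1 / 8) (by norm_num)
      obtain ⟨z, h4, h5, h6⟩ := small_vec_fin Z hZ (insert K (s.image Prod.fst)) (by
        intro K' hK'
        rcases Finset.mem_insert.1 hK' with h | h
        · rw [h]; exact h1
        · obtain ⟨a, ha, rfl⟩ := Finset.mem_image.1 h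
          exact (hs a ha).1) (show (0 : ℝ) < 1 / 8 by norm_num)
      refine ⟨(K, z), ⟨h1, h2, h4, h5, h6 K (Finset.mem_insert_self _ _)⟩,
        fun a ha => ⟨?_, ?_⟩⟩
      · exact h3 _ (Finset.mem_image_of_mem _ ha)
      · exact h6 _ (Finset.mem_insert_of_mem (Finset.mem_image_of_mem _ ha)))
  have hst : ∀ i, ∃ w : St T, w.1.1 = (f i).2 := fun i => exists_state hT (hf1 i).2.2.2.1
  choose wi hwi using hst
  have hne : Nonempty (St T) := ⟨wi 0⟩
  have hevX : ∀ (w : St T) (A : X →L[ℝ] X), |evX T w A| ≤ ‖A‖ := by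
    intro w A
    have h1 := abs_le_of w.1.2 w.2.2.1 (T (A w.1.1))
    rw [hT] at h1
    have h2 := A.le_opNorm w.1.1
    rw [w.2.1, mul_one] at h2
    exact h1.trans h2
  set h : ℕ → (X →L[ℝ] X) := fun j => (4 : ℝ) • (ContinuousLinearMap.id ℝ X - (f j).1) with hh
  have hC : ∀ j, ‖h j‖ ≤ 4 * (1 + M) := by
    intro j
    show ‖(4 : ℝ) • (ContinuousLinearMap.id ℝ X - (f j).1)‖ ≤ _
    rw [norm_smul, Real.norm_of_nonneg (by norm_num)]
    have h1 := norm_sub_le (ContinuousLinearMap.id ℝ X) (f j).1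
    have h2 : ‖ContinuousLinearMap.id ℝ X‖ ≤ 1 := ContinuousLinearMap.norm_id_le
    have h3 := (hf1 j).2.1
    linarith
  have hval : ∀ i j, evX T (wi i) (h j) = 4 * (1 - (wi i).1.2 (T ((f j).1 (f i).2))) := by
    intro i j
    show (wi i).1.2 (T ((4 : ℝ) • ((wi i).1.1 - (f j).1 (wi i).1.1))) = _
    have h1 := (wi i).2.2.2
    rw [hwi] at h1 ⊢
    rw [map_smul, map_smul, map_sub, map_sub, h1, smul_eq_mul]
  have hval' : ∀ i j, evX T (wi i) (h j) = 4 * (wi i).1.2 (T ((f i).2 - (f j).1 (f i).2)) := by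
    intro i j
    rw [hval, map_sub, map_sub]
    have h1 := (wi i).2.2.2
    rw [hwi] at h1
    rw [h1]
  have hbig : ∀ i j, j ≤ i → 7 / 2 ≤ evX T (wi i) (h j) := by
    intro i j hji
    rw [hval]
    have h1 : ‖(f j).1 (f i).2‖ ≤ 1 / 8 := by
      rcases hji.lt_or_eq with h | h
      · exact (hf2 j i h).2
      · rw [← h]; exact (hf1 j).2.2.2.2
    have h2 := abs_le_of (wi i).1.2 (wi i).2.2.1 (T ((f j).1 (f i).2))
    rw [hT] at h2
    have h3 := (abs_le.1 (h2.trans h1)).2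
    linarith
  have hsmall : ∀ i j, i < j → evX T (wi i) (h j) ≤ 1 / 2 := by
    intro i j hij
    rw [hval']
    have h1 := (hf2 i j hij).1
    rw [norm_sub_rev] at h1
    have h2 := abs_le_of (wi i).1.2 (wi i).2.2.1 (T ((f i).2 - (f j).1 (f i).2))
    rw [hT] at h2
    have h3 := (abs_le.1 (h2.trans h1)).2
    linarith
  have hM : ∀ g ∈ convexHull ℝ (range h),
      ∃ w, ∃ N, ∀ j, N ≤ j → evX T w (h j) ≤ evX T w g - 1 := by
    intro g hg
    have hsub : convexHull ℝ (range h) ⊆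
        {g : X →L[ℝ] X | ∃ N0, ∀ i, N0 ≤ i → 7 / 2 ≤ evX T (wi i) g} := by
      apply convexHull_min
      · rintro _ ⟨j, rfl⟩
        exact ⟨j, fun i hi => hbig i j hi⟩
      · rintro g1 ⟨N1, hN1⟩ g2 ⟨N2, hN2⟩ a b ha hb hab
        refine ⟨max N1 N2, fun i hi => ?_⟩
        rw [map_add, map_smul, map_smul, smul_eq_mul, smul_eq_mul]
        have h6 := hN1 i ((le_max_left _ _).trans hi)
        have h7 := hN2 i ((le_max_right _ _).trans hi)
        nlinarith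
    obtain ⟨i, hi⟩ := hsub hg
    refine ⟨wi i, i + 1, fun j hj => ?_⟩
    have h1 := hi i le_rfl
    have h2 := hsmall i j (by omega)
    linarith
  have hcl : ∀ g : ℕ → (X →L[ℝ] X), (∀ k, ‖g k‖ ≤ 4 * (1 + M)) → ∃ g0 : X →L[ℝ] X,
      ‖g0‖ ≤ 4 * (1 + M) ∧ ∀ w, Tendsto (fun k => evX T w (g k))
        (hyperfilter ℕ : Filter ℕ) (𝓝 (evX T w g0)) := by
    intro g hg
    obtain ⟨g0, h1, h2⟩ := cluster hX g hg
    exact ⟨g0, h1, fun w => h2 w.1.1 (w.1.2.comp T)⟩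
  obtain ⟨ψ, hψ⟩ := james (ev := evX T) hevX h hC hcl hM
  refine not_BS hT (T.comp ψ) (fun w => ?_)
  obtain ⟨w', hw'⟩ := hψ w
  have h1 : ev T w (T.comp ψ) = evX T w ψ := rfl
  have h2 : ev T w' (T.comp ψ) = evX T w' ψ := rfl
  rw [h1]
  refine hw'.trans_le ?_
  rw [← h2]
  exact le_sp (hev T) w' _

end Pool.Agent.X102.BSQ
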