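import Mathlib
import Pool.Agent.TH809.MZ.Main

/-!
Blaschke factors of a strip for even functions, and the basic inequality.
-/

set_option autoImplicit false
open Complex Set Filter Topology
open scoped ComplexConjugate

namespace Pool.Agent.X102.SZ

open Pool.Agent.TH809.MZ (DD DD_mul DD_diff DD_ne norm_sin_sq re_cos)

/-- `cos (2 k z)`; the strip is `|Re z| < a`, `4 k a = π` -/
noncomputable def C (k : ℝ) (z : ℂ) : ℂ := Complex.cos ((2 * k : ℝ) * z)

lemma C_re (k : ℝ) (z : ℂ) : (C k z).re = Real.cos (2 * k * z.re) * Real.cosh (2 * k * z.im) := by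
  unfold C
  rw [re_cos, re_ofReal_mul, im_ofReal_mul]

lemma C_conj (k : ℝ) (z : ℂ) : C k (conj z) = conj (C k z) := by
  unfold C
  rw [← Complex.cos_conj]
  congr 1
  rw [map_mul, Complex.conj_ofReal]

lemma C_neg (k : ℝ) (z : ℂ) : C k (-z) = C k z := by
  unfold C
  rw [mul_neg, Complex.cos_neg]

lemma C_zero (k : ℝ) : C k 0 = 1 := by simp [C]

lemma C_re_nonneg {k a : ℝ} (hk : 0 < k) (hka : 4 * k * a = Real.pi) {z : ℂ} (hz : |z.re| ≤ a) :
    0 ≤ (C k z).re := by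
  rw [C_re]
  refine mul_nonneg (Real.cos_nonneg_of_mem_Icc ⟨?_, ?_⟩) (Real.cosh_pos _).le
  · have := (abs_le.1 hz).1
    nlinarith
  · have := (abs_le.1 hz).2
    nlinarith

lemma C_re_pos {k a : ℝ} (hk : 0 < k) (hka : 4 * k * a = Real.pi) {z : ℂ} (hz : |z.re| < a) :
    0 < (C k z).re := by
  rw [C_re]
  refine mul_pos (Real.cos_pos_of_mem_Ioo ⟨?_, ?_⟩) (Real.cosh_pos _)
  · have := (abs_lt.1 hz).1
    nlinarith
  · have := (abs_lt.1 hz).2
    nlinarith

lemma C_re_zero {k a : ℝ} (hka : 4 * k * a = Real.pi) {z : ℂ} (hz : |z.re| = a) :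
    (C k z).re = 0 := by
  rw [C_re]
  have h1 : Real.cos (2 * k * z.re) = 0 := by
    rcases abs_eq (by rw [← hz]; exact abs_nonneg _) |>.1 hz with h | h
    · rw [h, show 2 * k * a = Real.pi / 2 by linarith, Real.cos_pi_div_two]
    · rw [h, show 2 * k * -a = -(Real.pi / 2) by linarith, Real.cos_neg, Real.cos_pi_div_two]
  rw [h1, zero_mul]

/-- denominator of the Blaschke factor -/
noncomputable def Dn (k : ℝ) (w z : ℂ) : ℂ := C k z + conj (C k w)

/-- the Blaschke factor -/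
noncomputable def BF (k : ℝ) (w z : ℂ) : ℂ := (C k z - C k w) / Dn k w z

/-- the Blaschke factor divided by `(z - w) (z + w)` -/
noncomputable def bf (k : ℝ) (w z : ℂ) : ℂ :=
  -(2 * (k : ℂ) ^ 2 * (DD (k * (z + w)) * DD (k * (z - w)))) / Dn k w z

lemma Dn_ne {k : ℝ} {w z : ℂ} (hz : 0 ≤ (C k z).re) (hw : 0 < (C k w).re) : Dn k w z ≠ 0 := by
  intro h
  have := congrArg Complex.re h
  unfold Dn at this
  rw [add_re, conj_re, zero_re] at this
  linarith

lemma BF_eq (k : ℝ) (w z : ℂ) : BF k w z = (z - w) * (z + w) * bf k w z := by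
  unfold BF bf C
  rw [Complex.cos_sub_cos]
  have e1 : (((2 * k : ℝ) : ℂ) * z + ((2 * k : ℝ) : ℂ) * w) / 2 = k * (z + w) := by push_cast; ring
  have e2 : (((2 * k : ℝ) : ℂ) * z - ((2 * k : ℝ) : ℂ) * w) / 2 = k * (z - w) := by push_cast; ring
  rw [e1, e2, ← DD_mul (k * (z + w)), ← DD_mul (k * (z - w))]
  ring

lemma normSq_aux (A B : ℂ) : ‖A + conj B‖ ^ 2 - ‖A - B‖ ^ 2 = 4 * (A.re * B.re) := by
  rw [← Complex.normSq_eq_norm_sq, ← Complex.normSq_eq_norm_sq, Complex.normSq_apply, Complex.normSq_apply]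
  simp only [add_re, sub_re, add_im, sub_im, conj_re, conj_im]
  ring

lemma BF_le {k : ℝ} {w z : ℂ} (hz : 0 ≤ (C k z).re) (hw : 0 < (C k w).re) : ‖BF k w z‖ ≤ 1 := by
  have hne := Dn_ne hz hw
  unfold BF
  rw [norm_div, div_le_one (norm_pos_iff.2 hne)]
  have h := normSq_aux (C k z) (C k w)
  have h2 : 0 ≤ (C k z).re * (C k w).re := mul_nonneg hz hw.le
  refine le_of_sq_le_sq ?_ (norm_nonneg _)
  unfold Dn
  linarith

lemma BF_one {k : ℝ} {w z : ℂ} (hz : (C k z).re = 0) (hw : 0 < (C k w).re) : ‖BF k w z‖ = 1 := by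
  have hne := Dn_ne hz.ge hw
  unfold BF
  rw [norm_div, div_eq_one_iff_eq (norm_pos_iff.2 hne).ne']
  have h := normSq_aux (C k z) (C k w)
  rw [hz, zero_mul, mul_zero] at h
  unfold Dn
  exact ((sq_eq_sq₀ (norm_nonneg _) (norm_nonneg _)).1 (by linarith)).symm

lemma BF_conj (k : ℝ) (w : ℂ) : ‖BF k (conj w) 0‖ = ‖BF k w 0‖ := by
  unfold BF Dn
  rw [C_conj, C_zero, Complex.conj_conj, norm_div, norm_div]
  have e1 : ‖1 - conj (C k w)‖ = ‖1 - C k w‖ := by
    rw [← Complex.norm_conj (1 - C k w)]; simp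
  have e2 : ‖1 + C k w‖ = ‖1 + conj (C k w)‖ := by
    rw [← Complex.norm_conj (1 + C k w)]; simp
  rw [e1, e2]

lemma BF_zero (k : ℝ) (w : ℂ) : ‖BF k w 0‖ = ‖Complex.tan (k * w)‖ ^ 2 := by
  unfold BF Dn
  rw [C_zero, norm_div, Complex.tan_eq_sin_div_cos, norm_div, div_pow]
  have e0 : ((2 * k : ℝ) : ℂ) * w = 2 * (k * w) := by push_cast; ring
  have e1 : ‖1 - C k w‖ = 2 * ‖Complex.sin (k * w)‖ ^ 2 := by
    unfold C
    rw [e0, Complex.cos_two_mul]
    have : (1 : ℂ) - (2 * Complex.cos (k * w) ^ 2 - 1) = 2 * Complex.sin (k * w) ^ 2 := by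
      have := Complex.sin_sq_add_cos_sq (k * w)
      linear_combination (-2 : ℂ) * this
    rw [this, norm_mul, norm_pow]
    norm_num
  have e2 : ‖1 + conj (C k w)‖ = 2 * ‖Complex.cos (k * w)‖ ^ 2 := by
    have : ‖1 + conj (C k w)‖ = ‖1 + C k w‖ := by
      rw [← Complex.norm_conj (1 + C k w)]; simp
    rw [this]
    unfold C
    rw [e0, Complex.cos_two_mul]
    have : (1 : ℂ) + (2 * Complex.cos (k * w) ^ 2 - 1) = 2 * Complex.cos (k * w) ^ 2 := by ring
    rw [this, norm_mul, norm_pow]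
    norm_num
  rw [e1, e2, mul_div_mul_left _ _ (by norm_num)]

/-- shift by a quarter period -/
lemma BF_shift {k a : ℝ} (hka : 4 * k * a = Real.pi) (w : ℂ)
    (hs : Complex.sin (k * w) ≠ 0) (hc : Complex.cos (k * w) ≠ 0) :
    ‖BF k (w - 2 * a) 0‖ * ‖Complex.tan (k * w)‖ ^ 2 = 1 := by
  rw [BF_zero, ← mul_pow, ← norm_mul]
  have e0 : (k : ℂ) * (w - 2 * a) = k * w - Real.pi / 2 := by
    rw [← hka]; push_cast; ring
  rw [e0, Complex.tan_eq_sin_div_cos, Complex.tan_eq_sin_div_cos, Complex.sin_sub_pi_div_two,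
    Complex.cos_sub_pi_div_two]
  have : -Complex.cos (k * w) / Complex.sin (k * w) * (Complex.sin (k * w) / Complex.cos (k * w)) = -1 := by
    field_simp
  rw [this]
  simp

lemma bf_diff {k : ℝ} {w z : ℂ} (hz : 0 ≤ (C k z).re) (hw : 0 < (C k w).re) :
    DifferentiableAt ℂ (bf k w) z := by
  unfold bf
  refine DifferentiableAt.div ?_ ?_ (Dn_ne hz hw)
  · refine DifferentiableAt.neg (DifferentiableAt.const_mul (DifferentiableAt.mul ?_ ?_) _)
    · exact (DD_diff _).comp z (by fun_prop)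
    · exact (DD_diff _).comp z (by fun_prop)
  · unfold Dn C
    fun_prop

lemma bf_ne {k a : ℝ} (hk : 0 < k) (hka : 4 * k * a = Real.pi) {w z : ℂ} (hz : |z.re| ≤ a)
    (hw : |w.re| < a) : bf k w z ≠ 0 := by
  have h1 := C_re_nonneg hk hka hz
  have h2 := C_re_pos hk hka hw
  have hpi := Real.pi_pos
  unfold bf
  refine div_ne_zero (neg_ne_zero.2 (mul_ne_zero ?_ (mul_ne_zero (DD_ne ?_) (DD_ne ?_)))) (Dn_ne h1 h2)
  · exact mul_ne_zero two_ne_zero (pow_ne_zero _ (by exact_mod_cast hk.ne'))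
  · rw [re_ofReal_mul, add_re, abs_mul, abs_of_pos hk]
    have := abs_add_le z.re w.re
    nlinarith
  · rw [re_ofReal_mul, sub_re, abs_mul, abs_of_pos hk]
    have := abs_sub z.re w.re
    nlinarith

end Pool.Agent.X102.SZ
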