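import Mathlib
import Pool.Agent.X102.SZ1

/-!
The basic inequality for `f z * f (-z)` in a strip, zeros to the right of the strip included.
-/

set_option autoImplicit false
open Complex Set Filter Topology
open scoped ComplexConjugate

namespace Pool.Agent.X102.SZ

open Pool.Agent.TH809.MZ (DD DD_mul DD_diff DD_ne norm_sin_sq re_cos)

/-- the product `f(2a+z) f(2a-z) conj (f(2a+conj z) f(2a-conj z))` -/
noncomputable def D1 (a : ℝ) (f : ℂ → ℂ) (z : ℂ) : ℂ :=
  f (2 * a + z) * f (2 * a - z) * conj (f (2 * a + conj z) * f (2 * a - conj z))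

lemma norm_D1 (a : ℝ) (f : ℂ → ℂ) (z : ℂ) : ‖D1 a f z‖ =
    ‖f (2 * a + z)‖ * ‖f (2 * a - z)‖ * (‖f (2 * a + conj z)‖ * ‖f (2 * a - conj z)‖) := by
  unfold D1
  rw [norm_mul, norm_mul, Complex.norm_conj, norm_mul]

lemma D1_diff {a : ℝ} {f : ℂ → ℂ} (hf : Differentiable ℂ f) : Differentiable ℂ (D1 a f) := by
  have h : Differentiable ℂ fun z => f (2 * a + z) * f (2 * a - z) := by
    refine Differentiable.mul (hf.comp ?_) (hf.comp ?_)
    · fun_prop
    · fun_prop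
  intro z
  have h2 : DifferentiableAt ℂ (conj ∘ (fun z => f (2 * a + z) * f (2 * a - z)) ∘ conj) z := by
    have := (h (conj z)).conj_conj
    rwa [Complex.conj_conj] at this
  exact (h z).mul h2

lemma prod_conj_pow {P : Finset ℂ} {m : ℂ → ℕ} {F : ℂ → ℂ} :
    ‖∏ w ∈ P, F w ^ m w‖ = ∏ w ∈ P, ‖F w‖ ^ m w := by
  rw [norm_prod]
  exact Finset.prod_congr rfl fun w _ => norm_pow _ _

/-- the quotient of the two sides, an analytic function -/
noncomputable def UU (k a : ℝ) (P S : Finset ℂ) (m : ℂ → ℕ) (g h : ℂ → ℂ) (z : ℂ) : ℂ :=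
  h z * h (-z) * (∏ w ∈ P, (bf k (w - 2 * a) z * bf k (conj (w - 2 * a)) z) ^ m w) /
    (D1 a g z * ∏ w ∈ S, bf k w z ^ m w)

/-- the data of the strip -/
structure SD (k a R : ℝ) (f : ℂ → ℂ) (P S : Finset ℂ) (m : ℂ → ℕ) (g h : ℂ → ℂ) : Prop where
  hk : 0 < k
  hka : 4 * k * a = Real.pi
  hg : Differentiable ℂ g
  hh : Differentiable ℂ h
  fg : ∀ z, f z = (∏ w ∈ P, (z - w) ^ m w) * g z
  fh : ∀ z, f z = (∏ w ∈ S, (z - w) ^ m w) * h z
  g0 : ∀ z : ℂ, a ≤ z.re → z.re ≤ 3 * a → |z.im| ≤ R → g z ≠ 0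
  P0 : ∀ w ∈ P, |w.re - 2 * a| < a
  S0 : ∀ w ∈ S, |w.re| < a

variable {k a R : ℝ} {f : ℂ → ℂ} {P S : Finset ℂ} {m : ℂ → ℕ} {g h : ℂ → ℂ}

lemma SD.re_sub (H : SD k a R f P S m g h) {w : ℂ} (hw : w ∈ P) : |(w - 2 * a).re| < a := by
  have := H.P0 w hw
  simpa using this

lemma SD.re_conj (H : SD k a R f P S m g h) {w : ℂ} (hw : w ∈ P) : |(conj (w - 2 * a)).re| < a := by
  have := H.P0 w hw
  simpa using this

lemma SD.a0 (H : SD k a R f P S m g h) : 0 < a := by
  have h1 := H.hk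
  have h2 := H.hka
  have h3 := Real.pi_pos
  by_contra hc
  push Not at hc
  nlinarith

lemma SD.D1g_ne (H : SD k a R f P S m g h) {z : ℂ} (hz : |z.re| ≤ a) (hz2 : |z.im| ≤ R) :
    D1 a g z ≠ 0 := by
  have h1 := abs_le.1 hz
  have h2 := abs_le.1 hz2
  have key : ∀ v : ℂ, |v.re| ≤ a → |v.im| ≤ R → g (2 * a + v) ≠ 0 := by
    intro v hv hv2
    have h3 := abs_le.1 hv
    refine H.g0 _ ?_ ?_ ?_
    · simp; linarith
    · simp; linarith
    · simpa using hv2
  unfold D1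
  refine mul_ne_zero (mul_ne_zero (key z hz hz2) ?_) ?_
  · have := key (-z) (by simpa using hz) (by simpa using hz2)
    rwa [← sub_eq_add_neg] at this
  · rw [Ne, starRingEnd_apply, star_eq_zero]
    refine mul_ne_zero (key (conj z) (by simpa using hz) (by simpa using hz2)) ?_
    have := key (-conj z) (by simpa using hz) (by simpa using hz2)
    rwa [← sub_eq_add_neg] at this

lemma SD.diff (H : SD k a R f P S m g h) {z : ℂ} (hz : |z.re| ≤ a) (hz2 : |z.im| ≤ R) :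
    DifferentiableAt ℂ (UU k a P S m g h) z := by
  have hC := C_re_nonneg H.hk H.hka hz
  have e : UU k a P S m g h = fun z => h z * h (-z) * (∏ w ∈ P, (bf k (w - 2 * a) z *
      bf k (conj (w - 2 * a)) z) ^ m w) / (D1 a g z * ∏ w ∈ S, bf k w z ^ m w) := rfl
  rw [e]
  refine DifferentiableAt.div ?_ ?_ ?_
  · refine DifferentiableAt.mul (DifferentiableAt.mul (H.hh z) ?_) ?_
    · exact (H.hh (-z)).comp z (by fun_prop)
    · refine DifferentiableAt.fun_finsetProd fun w hw => ?_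
      refine DifferentiableAt.pow (DifferentiableAt.mul ?_ ?_) _
      · exact bf_diff hC (C_re_pos H.hk H.hka (H.re_sub hw))
      · exact bf_diff hC (C_re_pos H.hk H.hka (H.re_conj hw))
  · refine DifferentiableAt.mul (D1_diff H.hg z) ?_
    refine DifferentiableAt.fun_finsetProd fun w hw => ?_
    exact DifferentiableAt.pow (bf_diff hC (C_re_pos H.hk H.hka (H.S0 w hw))) _
  · refine mul_ne_zero (H.D1g_ne hz hz2) (Finset.prod_ne_zero_iff.2 fun w hw => pow_ne_zero _ ?_)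
    exact bf_ne H.hk H.hka hz (H.S0 w hw)

lemma SD.key (H : SD k a R f P S m g h) {z : ℂ} (hz : |z.re| ≤ a) (hz2 : |z.im| ≤ R) :
    ‖UU k a P S m g h z‖ * ‖D1 a f z‖ * ∏ w ∈ S, ‖BF k w z‖ ^ m w =
      ‖f z‖ * ‖f (-z)‖ * ∏ w ∈ P, (‖BF k (w - 2 * a) z‖ * ‖BF k (conj (w - 2 * a)) z‖) ^ m w := by
  have hD := H.D1g_ne hz hz2
  have hSne : ∏ w ∈ S, ‖bf k w z‖ ^ m w ≠ 0 :=
    Finset.prod_ne_zero_iff.2 fun w hw => pow_ne_zero _
      (norm_ne_zero_iff.2 (bf_ne H.hk H.hka hz (H.S0 w hw)))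
  -- norms of the factors
  have eU : ‖UU k a P S m g h z‖ = ‖h z‖ * ‖h (-z)‖ *
      (∏ w ∈ P, (‖bf k (w - 2 * a) z‖ * ‖bf k (conj (w - 2 * a)) z‖) ^ m w) /
      (‖D1 a g z‖ * ∏ w ∈ S, ‖bf k w z‖ ^ m w) := by
    unfold UU
    rw [norm_div, norm_mul, norm_mul, norm_mul, prod_conj_pow, prod_conj_pow]
    congr 2
    exact Finset.prod_congr rfl fun w _ => by rw [norm_mul]
  have eS : ∏ w ∈ S, ‖BF k w z‖ ^ m w = (∏ w ∈ S, (‖z - w‖ * ‖-z - w‖) ^ m w) *
      ∏ w ∈ S, ‖bf k w z‖ ^ m w := by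
    rw [← Finset.prod_mul_distrib]
    refine Finset.prod_congr rfl fun w _ => ?_
    rw [← mul_pow, BF_eq, norm_mul, norm_mul]
    congr 2
    rw [← norm_neg (-z - w)]
    congr 2
    ring
  have eP : ∏ w ∈ P, (‖BF k (w - 2 * a) z‖ * ‖BF k (conj (w - 2 * a)) z‖) ^ m w =
      (∏ w ∈ P, (‖2 * a + z - w‖ * ‖2 * a - z - w‖ * (‖2 * a + conj z - w‖ * ‖2 * a - conj z - w‖)) ^ m w) *
      ∏ w ∈ P, (‖bf k (w - 2 * a) z‖ * ‖bf k (conj (w - 2 * a)) z‖) ^ m w := by
    rw [← Finset.prod_mul_distrib]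
    refine Finset.prod_congr rfl fun w _ => ?_
    rw [← mul_pow, BF_eq, BF_eq, norm_mul, norm_mul, norm_mul, norm_mul]
    have e1 : ‖z - (w - 2 * a)‖ = ‖2 * a + z - w‖ := by congr 1; ring
    have e2 : ‖z + (w - 2 * a)‖ = ‖2 * a - z - w‖ := by
      rw [← norm_neg]; congr 1; ring
    have e3 : ‖z - conj (w - 2 * a)‖ = ‖2 * a + conj z - w‖ := by
      rw [← Complex.norm_conj]
      congr 1
      rw [map_sub, Complex.conj_conj]; ring
    have e4 : ‖z + conj (w - 2 * a)‖ = ‖2 * a - conj z - w‖ := by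
      rw [← Complex.norm_conj, ← norm_neg]
      congr 1
      rw [map_add, Complex.conj_conj]; ring
    rw [e1, e2, e3, e4]
    ring
  have ef : ‖f z‖ * ‖f (-z)‖ = (∏ w ∈ S, (‖z - w‖ * ‖-z - w‖) ^ m w) * (‖h z‖ * ‖h (-z)‖) := by
    rw [H.fh z, H.fh (-z), norm_mul, norm_mul, prod_conj_pow, prod_conj_pow]
    have : ∏ w ∈ S, (‖z - w‖ * ‖-z - w‖) ^ m w =
        (∏ w ∈ S, ‖z - w‖ ^ m w) * ∏ w ∈ S, ‖-z - w‖ ^ m w := by
      rw [← Finset.prod_mul_distrib]
      exact Finset.prod_congr rfl fun w _ => mul_pow _ _ _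
    rw [this]
    ring
  have eD : ‖D1 a f z‖ = (∏ w ∈ P, (‖2 * a + z - w‖ * ‖2 * a - z - w‖ *
      (‖2 * a + conj z - w‖ * ‖2 * a - conj z - w‖)) ^ m w) * ‖D1 a g z‖ := by
    rw [norm_D1, norm_D1, H.fg (2 * a + z), H.fg (2 * a - z), H.fg (2 * a + conj z),
      H.fg (2 * a - conj z), norm_mul, norm_mul, norm_mul, norm_mul, prod_conj_pow, prod_conj_pow,
      prod_conj_pow, prod_conj_pow]
    have : ∏ w ∈ P, (‖2 * a + z - w‖ * ‖2 * a - z - w‖ *
        (‖2 * a + conj z - w‖ * ‖2 * a - conj z - w‖)) ^ m w =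
        (∏ w ∈ P, ‖2 * a + z - w‖ ^ m w) * (∏ w ∈ P, ‖2 * a - z - w‖ ^ m w) *
        ((∏ w ∈ P, ‖2 * a + conj z - w‖ ^ m w) * ∏ w ∈ P, ‖2 * a - conj z - w‖ ^ m w) := by
      rw [← Finset.prod_mul_distrib, ← Finset.prod_mul_distrib, ← Finset.prod_mul_distrib]
      exact Finset.prod_congr rfl fun w _ => by rw [mul_pow, mul_pow, mul_pow]
    rw [this]
    ring
  rw [eU, eS, eP, ef, eD]
  have hD' : ‖D1 a g z‖ ≠ 0 := norm_ne_zero_iff.2 hD
  field_simp

/-- **The basic inequality.** -/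
theorem SD.main (H : SD k a R f P S m g h) (ha : a ≤ 1) (hR : 0 < R) {V W lam : ℝ}
    (hV : 0 ≤ V) (hlam : 0 ≤ lam)
    (hv : ∀ z : ℂ, |z.re| = a → |z.im| ≤ R → D1 a f z ≠ 0 ∧ ‖f z‖ * ‖f (-z)‖ ≤ V * ‖D1 a f z‖)
    (hw : ∀ z : ℂ, |z.re| ≤ a → |z.im| = R → D1 a f z ≠ 0 ∧ (∀ w ∈ S, BF k w z ≠ 0) ∧
      ‖f z‖ * ‖f (-z)‖ ≤ W * (‖D1 a f z‖ * ∏ w ∈ S, ‖BF k w z‖ ^ m w))
    (hl : W ≤ V * Real.exp (lam * (Real.cos a * Real.cosh R))) :
    ‖f 0‖ ^ 2 * ∏ w ∈ P, (‖BF k (w - 2 * a) 0‖ ^ 2) ^ m w ≤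
      V * Real.exp lam * ‖f (2 * a)‖ ^ 4 * ∏ w ∈ S, ‖BF k w 0‖ ^ m w := by
  have ha0 := H.a0
  have hcosa : 0 ≤ Real.cos a := Real.cos_nonneg_of_mem_Icc
    ⟨by linarith [Real.pi_pos], by linarith [Real.pi_gt_three]⟩
  set F : ℂ → ℂ := fun z => UU k a P S m g h z * Complex.exp (-(lam * Complex.cos z)) with hF
  have hcl : closure (Ioo (-a) a ×ℂ Ioo (-R) R) = Icc (-a) a ×ℂ Icc (-R) R := by
    rw [closure_reProdIm, closure_Ioo (by linarith), closure_Ioo (by linarith)]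
  have hfr : ∀ z ∈ frontier (Ioo (-a) a ×ℂ Ioo (-R) R), |z.re| ≤ a ∧ |z.im| ≤ R ∧
      (|z.re| = a ∨ |z.im| = R) := by
    intro z hz
    rw [frontier_reProdIm, closure_Ioo (by linarith), closure_Ioo (by linarith),
      frontier_Ioo (by linarith), frontier_Ioo (by linarith)] at hz
    rcases hz with hz | hz
    · rw [mem_reProdIm] at hz
      refine ⟨abs_le.2 hz.1, ?_, Or.inr ?_⟩
      · rcases hz.2 with h | h
        · rw [h, abs_neg, abs_of_pos hR]
        · rw [mem_singleton_iff] at h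
          rw [h, abs_of_pos hR]
      · rcases hz.2 with h | h
        · rw [h, abs_neg, abs_of_pos hR]
        · rw [mem_singleton_iff] at h
          rw [h, abs_of_pos hR]
    · rw [mem_reProdIm] at hz
      refine ⟨?_, abs_le.2 hz.2, Or.inl ?_⟩
      · rcases hz.1 with h | h
        · rw [h, abs_neg, abs_of_pos ha0]
        · rw [mem_singleton_iff] at h
          rw [h, abs_of_pos ha0]
      · rcases hz.1 with h | h
        · rw [h, abs_neg, abs_of_pos ha0]
        · rw [mem_singleton_iff] at h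
          rw [h, abs_of_pos ha0]
  have hnexp : ∀ z : ℂ, ‖Complex.exp (-(lam * Complex.cos z))‖ =
      Real.exp (-(lam * (Real.cos z.re * Real.cosh z.im))) := by
    intro z
    rw [Complex.norm_exp, neg_re, re_ofReal_mul, re_cos]
  have hcosz : ∀ z : ℂ, |z.re| ≤ a → Real.cos a ≤ Real.cos z.re := by
    intro z hz
    rw [← Real.cos_abs z.re]
    exact Real.cos_le_cos_of_nonneg_of_le_pi (abs_nonneg _) (by linarith [Real.pi_gt_three]) hz
  -- products of Blaschke factors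
  have hPle : ∀ z : ℂ, |z.re| ≤ a →
      ∏ w ∈ P, (‖BF k (w - 2 * a) z‖ * ‖BF k (conj (w - 2 * a)) z‖) ^ m w ≤ 1 := by
    intro z hz
    have hC := C_re_nonneg H.hk H.hka hz
    refine Finset.prod_le_one (fun w _ => by positivity) fun w hw => ?_
    refine pow_le_one₀ (by positivity) ?_
    have h1 := BF_le hC (C_re_pos H.hk H.hka (H.re_sub hw))
    have h2 := BF_le hC (C_re_pos H.hk H.hka (H.re_conj hw))
    exact mul_le_one₀ h1 (norm_nonneg _) h2
  have hmax : ‖F 0‖ ≤ V := by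
    refine Complex.norm_le_of_forall_mem_frontier_norm_le (U := Ioo (-a) a ×ℂ Ioo (-R) R)
      ((Metric.isBounded_Ioo _ _).reProdIm (Metric.isBounded_Ioo _ _)) ?_ ?_ ?_
    · apply DifferentiableOn.diffContOnCl
      intro z hz
      rw [hcl, mem_reProdIm] at hz
      refine DifferentiableAt.differentiableWithinAt ?_
      refine DifferentiableAt.mul (H.diff (abs_le.2 hz.1) (abs_le.2 hz.2)) ?_
      fun_prop
    · intro z hz
      obtain ⟨h1, h2, h3⟩ := hfr z hz
      have hkey := H.key h1 h2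
      simp only [hF]
      rw [norm_mul, hnexp]
      have hU0 := norm_nonneg (UU k a P S m g h z)
      have hP1 := hPle z h1
      have hP0 : 0 ≤ ∏ w ∈ P, (‖BF k (w - 2 * a) z‖ * ‖BF k (conj (w - 2 * a)) z‖) ^ m w :=
        Finset.prod_nonneg fun w _ => by positivity
      rcases h3 with h3 | h3
      · -- vertical sides
        obtain ⟨hD, hb⟩ := hv z h3 h2
        have hD0 : 0 < ‖D1 a f z‖ := norm_pos_iff.2 hD
        have hS1 : ∏ w ∈ S, ‖BF k w z‖ ^ m w = 1 := by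
          refine Finset.prod_eq_one fun w hw => ?_
          rw [BF_one (C_re_zero H.hka h3) (C_re_pos H.hk H.hka (H.S0 w hw)), one_pow]
        rw [hS1, mul_one] at hkey
        have hU : ‖UU k a P S m g h z‖ ≤ V := by
          refine le_of_mul_le_mul_right ?_ hD0
          rw [hkey]
          calc ‖f z‖ * ‖f (-z)‖ * _ ≤ ‖f z‖ * ‖f (-z)‖ * 1 :=
                mul_le_mul_of_nonneg_left hP1 (by positivity)
            _ ≤ _ := by rw [mul_one]; exact hb
        have he : Real.exp (-(lam * (Real.cos z.re * Real.cosh z.im))) ≤ 1 := by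
          rw [Real.exp_le_one_iff]
          have := hcosz z h1
          have h5 := Real.cosh_pos z.im
          have : 0 ≤ lam * (Real.cos z.re * Real.cosh z.im) :=
            mul_nonneg hlam (mul_nonneg (hcosa.trans this) h5.le)
          linarith
        calc ‖UU k a P S m g h z‖ * _ ≤ V * 1 := mul_le_mul hU he (Real.exp_pos _).le hV
          _ = V := mul_one _
      · -- horizontal sides
        obtain ⟨hD, hB, hb⟩ := hw z h1 h3
        have hD0 : 0 < ‖D1 a f z‖ := norm_pos_iff.2 hD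
        have hS0 : 0 < ∏ w ∈ S, ‖BF k w z‖ ^ m w :=
          Finset.prod_pos fun w hw => pow_pos (norm_pos_iff.2 (hB w hw)) _
        have hU : ‖UU k a P S m g h z‖ ≤ W := by
          refine le_of_mul_le_mul_right ?_ (mul_pos hD0 hS0)
          rw [← mul_assoc, hkey]
          calc ‖f z‖ * ‖f (-z)‖ * _ ≤ ‖f z‖ * ‖f (-z)‖ * 1 :=
                mul_le_mul_of_nonneg_left hP1 (by positivity)
            _ ≤ _ := by rw [mul_one]; exact hb
        have hch : Real.cosh z.im = Real.cosh R := by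
          rw [← Real.cosh_abs, h3]
        rw [hch]
        have h6 : Real.cos a * Real.cosh R ≤ Real.cos z.re * Real.cosh R :=
          mul_le_mul_of_nonneg_right (hcosz z h1) (Real.cosh_pos _).le
        have he : Real.exp (-(lam * (Real.cos z.re * Real.cosh R))) ≤
            Real.exp (-(lam * (Real.cos a * Real.cosh R))) := by
          apply Real.exp_le_exp.2
          have := mul_le_mul_of_nonneg_left h6 hlam
          linarith
        calc ‖UU k a P S m g h z‖ * Real.exp (-(lam * (Real.cos z.re * Real.cosh R))) ≤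
              ‖UU k a P S m g h z‖ * Real.exp (-(lam * (Real.cos a * Real.cosh R))) :=
              mul_le_mul_of_nonneg_left he hU0
          _ ≤ W * Real.exp (-(lam * (Real.cos a * Real.cosh R))) :=
              mul_le_mul_of_nonneg_right hU (Real.exp_pos _).le
          _ ≤ V * Real.exp (lam * (Real.cos a * Real.cosh R)) *
              Real.exp (-(lam * (Real.cos a * Real.cosh R))) :=
              mul_le_mul_of_nonneg_right hl (Real.exp_pos _).le
          _ = V := by rw [mul_assoc, ← Real.exp_add]; simp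
    · rw [hcl, mem_reProdIm]
      simp only [zero_re, zero_im, mem_Icc]
      refine ⟨⟨by linarith, by linarith⟩, by linarith, by linarith⟩
  have hU0 : ‖UU k a P S m g h 0‖ ≤ V * Real.exp lam := by
    simp only [hF] at hmax
    rw [norm_mul, hnexp] at hmax
    simp only [zero_re, zero_im, Real.cos_zero, Real.cosh_zero, mul_one] at hmax
    calc ‖UU k a P S m g h 0‖ = ‖UU k a P S m g h 0‖ * Real.exp (-lam) * Real.exp lam := by
          rw [mul_assoc, ← Real.exp_add]; simp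
      _ ≤ V * Real.exp lam := mul_le_mul_of_nonneg_right hmax (Real.exp_pos _).le
  have hkey := H.key (z := 0) (by simpa using ha0.le) (by simpa using hR.le)
  rw [neg_zero] at hkey
  have e1 : ‖D1 a f 0‖ = ‖f (2 * a)‖ ^ 4 := by
    rw [norm_D1]
    simp only [map_zero, add_zero, sub_zero]
    ring
  have e2 : ∏ w ∈ P, (‖BF k (w - 2 * a) 0‖ * ‖BF k (conj (w - 2 * a)) 0‖) ^ m w =
      ∏ w ∈ P, (‖BF k (w - 2 * a) 0‖ ^ 2) ^ m w := by
    refine Finset.prod_congr rfl fun w _ => ?_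
    rw [BF_conj, sq]
  rw [e1, e2] at hkey
  have e3 : ‖f 0‖ * ‖f 0‖ = ‖f 0‖ ^ 2 := (sq _).symm
  rw [e3] at hkey
  rw [← hkey]
  have hS0 : 0 ≤ ∏ w ∈ S, ‖BF k w 0‖ ^ m w := Finset.prod_nonneg fun w _ => by positivity
  refine mul_le_mul_of_nonneg_right ?_ hS0
  exact mul_le_mul_of_nonneg_right hU0 (by positivity)

end Pool.Agent.X102.SZ
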