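import Mathlib
import Pool.Agent.H370R2.Local

/-!
Good heights: a lower bound for an analytic function on horizontal segments.
-/

set_option autoImplicit false
open Set Filter Topology Metric
open scoped ComplexConjugate

namespace Pool.Agent.X102.SZ

open Polynomial in
/-- Chebyshev: a product of distances to real points is not small everywhere on an interval -/
theorem cheb (s : Multiset ℝ) (Y : ℝ) : ∃ R ∈ Icc Y (Y + 1),
    ((1 : ℝ) / 4) ^ (Multiset.card s) ≤ (s.map fun x => |R - x|).prod := by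
  by_contra hcon
  push Not at hcon
  set n := Multiset.card s with hn
  rcases Nat.eq_zero_or_pos n with h0 | h0
  · have hs : s = 0 := Multiset.card_eq_zero.1 (hn ▸ h0)
    have := hcon Y ⟨le_rfl, by linarith⟩
    rw [h0, hs] at this
    simp at this
  set q : ℝ → ℝ[X] := fun x => Polynomial.C (1 / 2 : ℝ) * X + Polynomial.C (Y + 1 / 2 - x) with hq
  set p : ℝ[X] := (s.map q).prod with hp
  have hqd : ∀ x, (q x).natDegree = 1 := fun x =>
    Polynomial.natDegree_linear (by norm_num)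
  have hql : ∀ x, (q x).leadingCoeff = 1 / 2 := fun x =>
    Polynomial.leadingCoeff_linear (by norm_num)
  have hpl : p.leadingCoeff = (1 / 2) ^ n := by
    rw [hp, Polynomial.leadingCoeff_multiset_prod, Multiset.map_map]
    have : ((fun f : ℝ[X] => f.leadingCoeff) ∘ q) = fun _ => (1 / 2 : ℝ) := by
      funext x; exact hql x
    rw [this, Multiset.map_const', Multiset.prod_replicate]
  have hpd : p.natDegree ≤ n := by
    refine (Polynomial.natDegree_multiset_prod_le _).trans ?_
    rw [Multiset.map_map]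
    have : (Polynomial.natDegree ∘ q) = fun _ => 1 := by
      funext x; exact hqd x
    rw [this, Multiset.map_const', Multiset.sum_replicate, smul_eq_mul, mul_one]
  have hev : ∀ u : ℝ, |p.eval u| = (s.map fun x => |(Y + 1 / 2 + u / 2) - x|).prod := by
    intro u
    rw [hp, Polynomial.eval_multiset_prod, Multiset.map_map]
    have h1 : |(s.map ((Polynomial.eval u) ∘ q)).prod| =
        (s.map fun x => |((Polynomial.eval u) ∘ q) x|).prod := by
      have := map_multiset_prod (absHom : ℝ →*₀ ℝ) (s.map ((Polynomial.eval u) ∘ q))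
      rw [Multiset.map_map] at this
      exact this
    rw [h1]
    congr 1
    refine Multiset.map_congr rfl fun x _ => ?_
    simp only [Function.comp, hq, Polynomial.eval_add, Polynomial.eval_mul, Polynomial.eval_C,
      Polynomial.eval_X]
    congr 1
    ring
  set P : ℝ[X] := Polynomial.C ((4 : ℝ) ^ n) * p with hP
  have hb : ∀ x ∈ Icc (-1 : ℝ) 1, |P.eval x| ≤ 1 := by
    intro u hu
    rw [hP, Polynomial.eval_mul, Polynomial.eval_C, abs_mul, hev, abs_of_pos (by positivity)]
    have h2 := hcon (Y + 1 / 2 + u / 2) ⟨by linarith [hu.1], by linarith [hu.2]⟩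
    calc (4 : ℝ) ^ n * _ ≤ (4 : ℝ) ^ n * (1 / 4) ^ n :=
          mul_le_mul_of_nonneg_left h2.le (by positivity)
      _ = 1 := by rw [← mul_pow]; norm_num
  have hPd : P.degree ≤ n := by
    refine Polynomial.degree_le_of_natDegree_le ?_
    rw [hP]
    exact (Polynomial.natDegree_C_mul_le _ _).trans hpd
  have h3 := Polynomial.Chebyshev.leadingCoeff_le_of_forall_abs_le_one hPd hb
  rw [hP, Polynomial.leadingCoeff_mul, Polynomial.leadingCoeff_C, hpl, ← mul_pow] at h3
  have h4 : (4 * (1 / 2) : ℝ) ^ n = 2 * 2 ^ (n - 1) := by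
    rw [← pow_succ', Nat.sub_add_cancel h0]; norm_num
  rw [h4] at h3
  have : (0 : ℝ) < 2 ^ (n - 1) := by positivity
  linarith

/-- lower bound in a zero-free disc (Borel-Caratheodory) -/
theorem lower_zero_free {g : ℂ → ℂ} {c : ℂ} {r r2 B : ℝ} (hr : 0 < r) (hr2 : 0 ≤ r2)
    (h2r : r2 < r) (hB : 0 < B)
    (hg : AnalyticOnNhd ℂ g (ball c r)) (hg0 : ∀ z ∈ ball c r, g z ≠ 0)
    (hb : ∀ z ∈ ball c r, ‖g z‖ ≤ Real.exp B * ‖g c‖) {z : ℂ} (hz : z ∈ closedBall c r2) :
    ‖g c‖ * Real.exp (-(2 * B * r2 / (r - r2))) ≤ ‖g z‖ := by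
  have hcr : c ∈ ball c r := mem_ball_self hr
  have hqd : DifferentiableOn ℂ (fun z => deriv g z / g z) (ball c r) := by
    intro w hw
    exact ((hg w hw).deriv.div (hg w hw) (hg0 w hw)).differentiableAt.differentiableWithinAt
  obtain ⟨h, hc0, hh⟩ := hqd.isExactOn_ball.with_val_at c 0
  have hexp : ∀ z ∈ ball c r, g z = g c * Complex.exp (h z) := by
    have hconst : ∀ z ∈ ball c r, g z * Complex.exp (-h z) = g c * Complex.exp (-h c) := by
      intro z hz
      have hd : ∀ w ∈ ball c r, HasDerivAt (fun w => g w * Complex.exp (-h w)) 0 w := by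
        intro w hw
        have h1 : HasDerivAt (fun w => g w * Complex.exp (-h w))
            (deriv g w * Complex.exp (-h w) + g w * (Complex.exp (-h w) * -(deriv g w / g w))) w :=
          (hg w hw).differentiableAt.hasDerivAt.mul (hh w hw).neg.cexp
        have hGw := hg0 w hw
        have h2 : deriv g w * Complex.exp (-h w) + g w * (Complex.exp (-h w) * -(deriv g w / g w)) = 0 := by
          field_simp
          ring
        rw [h2] at h1
        exact h1
      exact isOpen_ball.is_const_of_deriv_eq_zero (isConnected_ball hr).isPreconnected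
        (fun w hw => (hd w hw).differentiableAt.differentiableWithinAt)
        (fun w hw => (hd w hw).deriv) hz (mem_ball_self hr)
    intro z hz
    have h1 := hconst z hz
    rw [hc0, neg_zero, Complex.exp_zero, mul_one] at h1
    rw [← h1, mul_assoc, ← Complex.exp_add]
    simp
  have hgc : 0 < ‖g c‖ := norm_pos_iff.2 (hg0 c hcr)
  have hre : ∀ z ∈ ball c r, (h z).re ≤ B := by
    intro z hz
    have h1 := hb z hz
    rw [hexp z hz, norm_mul, Complex.norm_exp, mul_comm] at h1
    exact Real.exp_le_exp.1 (le_of_mul_le_mul_right h1 hgc)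
  rw [mem_closedBall, dist_eq_norm] at hz
  have h1 : DifferentiableOn ℂ (fun w => h (c + w)) (ball 0 r) := by
    intro w hw
    have hcw : c + w ∈ ball c r := by
      rw [mem_ball, dist_eq_norm, add_sub_cancel_left]
      simpa using hw
    have := (hh (c + w) hcw).differentiableAt
    exact (this.comp w (by fun_prop : DifferentiableAt ℂ (fun w => c + w) w)).differentiableWithinAt
  have h2 : MapsTo (fun w => h (c + w)) (ball 0 r) {z | z.re ≤ B} := by
    intro w hw
    have hcw : c + w ∈ ball c r := by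
      rw [mem_ball, dist_eq_norm, add_sub_cancel_left]
      simpa using hw
    exact hre _ hcw
  have h3 : z - c ∈ ball (0:ℂ) r := by
    rw [mem_ball, dist_zero_right]
    linarith
  have h4 := Complex.borelCaratheodory_zero hB h1 h2 hr h3 (by simp [hc0])
  simp only [add_sub_cancel] at h4
  have h5 : 0 < r - ‖z - c‖ := by linarith
  have h6 : 0 < r - r2 := by linarith
  have h7 : ‖h z‖ ≤ 2 * B * r2 / (r - r2) := by
    refine h4.trans ?_
    gcongr
  have hzb : z ∈ ball c r := by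
    rw [mem_ball, dist_eq_norm]; linarith
  rw [hexp z hzb, norm_mul, Complex.norm_exp]
  have h8 : -(2 * B * r2 / (r - r2)) ≤ (h z).re := by
    have h9 := Complex.abs_re_le_norm (h z)
    have := (abs_le.1 (h9.trans h7)).1
    linarith
  gcongr

/-- product over a multiset is at least the product of the distances of the imaginary parts -/
lemma Pf_im_le (s : Multiset ℂ) (z : ℂ) :
    (s.map fun ρ => |z.im - ρ.im|).prod ≤ ‖H370.Loc.Pf s z‖ := by
  induction s using Multiset.induction_on with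
  | empty => simp [H370.Loc.Pf]
  | cons ρ s ih =>
    rw [H370.Loc.Pf_cons, Multiset.map_cons, Multiset.prod_cons, norm_mul]
    refine mul_le_mul ?_ ih (Multiset.prod_nonneg ?_) (norm_nonneg _)
    · have := Complex.abs_im_le_norm (z - ρ)
      rwa [Complex.sub_im] at this
    · intro a ha
      obtain ⟨b, _, rfl⟩ := Multiset.mem_map.1 ha
      exact abs_nonneg _

/-- **local lower bound** -/
theorem loc_lower : ∃ K : ℝ, 0 < K ∧ ∀ (f : ℂ → ℂ) (c : ℂ) (M : ℝ), 1 ≤ M →
    AnalyticOnNhd ℂ f (closedBall c 2) → f c ≠ 0 → ‖f c‖ ≤ M → (∀ z ∈ closedBall c 2, ‖f z‖ ≤ M) →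
    ∃ s : Multiset ℂ, (∀ ρ ∈ s, ρ ∈ closedBall c (3 / 2)) ∧
      (Multiset.card s : ℝ) ≤ K * Real.log (M / ‖f c‖) ∧
      ∀ z ∈ closedBall c (7 / 5),
        ‖f c‖ * Real.exp (-(K * (Real.log (M / ‖f c‖) + 1))) * (s.map fun ρ => |z.im - ρ.im|).prod ≤ ‖f z‖ := by
  have hl43 : 0 < Real.log (2 / (3 / 2)) := Real.log_pos (by norm_num)
  have hl3 : 0 < Real.log 3 := Real.log_pos (by norm_num)
  have hl32 : 0 < Real.log (3 / 2) := Real.log_pos (by norm_num)
  set k0 : ℝ := (Real.log (2 / (3 / 2)))⁻¹ with hk0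
  have hk0p : 0 < k0 := inv_pos.2 hl43
  refine ⟨k0 + k0 * Real.log (3 / 2) + 28 * (1 + k0 * Real.log 3) + 28, by positivity,
    fun f c M hM hf hc hcM hb => ?_⟩
  obtain ⟨s, g, hs, hg, hfg, hg0, hcard⟩ := H370.Loc.extract (r := 3 / 2) (R := 2) (by norm_num)
    (by norm_num) hM hf hc hb
  have hfc : 0 < ‖f c‖ := norm_pos_iff.2 hc
  set Λ : ℝ := Real.log (M / ‖f c‖) with hΛ
  have hΛ0 : 0 ≤ Λ := Real.log_nonneg (by rw [le_div_iff₀ hfc]; linarith)
  set n := Multiset.card s with hn
  have hn1 : (n : ℝ) ≤ k0 * Λ := by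
    rw [hk0, inv_mul_eq_div]; exact hcard
  refine ⟨s, fun ρ hρ => (hs ρ hρ).1, hn1.trans ?_, fun z hz => ?_⟩
  · have : k0 * Λ ≤ (k0 + k0 * Real.log (3 / 2) + 28 * (1 + k0 * Real.log 3) + 28) * Λ :=
      mul_le_mul_of_nonneg_right (by
        have : 0 ≤ k0 * Real.log (3 / 2) + 28 * (1 + k0 * Real.log 3) + 28 := by positivity
        linarith) hΛ0
    exact this
  -- bounds for g
  have hgsphere : ∀ w ∈ sphere c 2, ‖g w‖ ≤ M * 2 ^ n := by
    intro w hw
    have hwR := sphere_subset_closedBall hw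
    have h1 : ((1 : ℝ) / 2) ^ n ≤ ‖H370.Loc.Pf s w‖ :=
      H370.Loc.Pf_norm_ge (by norm_num) fun ρ hρ => by
        have h2 := (hs ρ hρ).1
        rw [mem_closedBall, dist_eq_norm] at h2
        rw [mem_sphere, dist_eq_norm] at hw
        have h3 : ‖w - c‖ ≤ ‖w - ρ‖ + ‖ρ - c‖ := by
          calc ‖w - c‖ = ‖(w - ρ) + (ρ - c)‖ := by congr 1; ring
            _ ≤ _ := norm_add_le _ _
        linarith
    have h4 : ‖g w‖ * (1 / 2) ^ n ≤ M := by
      calc ‖g w‖ * (1 / 2) ^ n ≤ ‖g w‖ * ‖H370.Loc.Pf s w‖ :=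
            mul_le_mul_of_nonneg_left h1 (norm_nonneg _)
        _ = ‖f w‖ := by rw [hfg w, norm_mul, mul_comm]
        _ ≤ M := hb w hwR
    calc ‖g w‖ = ‖g w‖ * (1 / 2) ^ n * 2 ^ n := by
          rw [mul_assoc, ← mul_pow]; norm_num
      _ ≤ M * 2 ^ n := mul_le_mul_of_nonneg_right h4 (by positivity)
  have hgball : ∀ w ∈ closedBall c 2, ‖g w‖ ≤ M * 2 ^ n := by
    intro w hw
    refine Complex.norm_le_of_forall_mem_frontier_norm_le (U := ball c 2) isBounded_ball ?_ ?_ ?_
    · apply DifferentiableOn.diffContOnCl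
      rw [closure_ball c (by norm_num : (2:ℝ) ≠ 0)]
      exact fun x hx => (hg x hx).differentiableAt.differentiableWithinAt
    · intro x hx
      rw [frontier_ball c (by norm_num : (2:ℝ) ≠ 0)] at hx
      exact hgsphere x hx
    · rwa [closure_ball c (by norm_num : (2:ℝ) ≠ 0)]
  have hgc : ‖f c‖ * (2 / 3) ^ n ≤ ‖g c‖ := by
    have h1 : ‖H370.Loc.Pf s c‖ ≤ (3 / 2) ^ n := H370.Loc.Pf_norm_le fun ρ hρ => by
      have h2 := (hs ρ hρ).1
      rw [mem_closedBall, dist_eq_norm, ← norm_neg] at h2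
      rwa [neg_sub] at h2
    calc ‖f c‖ * (2 / 3) ^ n = ‖H370.Loc.Pf s c‖ * ‖g c‖ * (2 / 3) ^ n := by
          rw [hfg c, norm_mul]
      _ ≤ (3 / 2) ^ n * ‖g c‖ * (2 / 3) ^ n := by gcongr
      _ = ‖g c‖ * ((3 / 2) * (2 / 3)) ^ n := by rw [mul_pow]; ring
      _ = ‖g c‖ := by norm_num
  have hgc0 : 0 < ‖g c‖ := lt_of_lt_of_le (by positivity) hgc
  set B : ℝ := Λ + n * Real.log 3 + 1 with hB
  have hB0 : 0 < B := by positivity
  have hratio : ∀ w ∈ ball c (3 / 2), ‖g w‖ ≤ Real.exp B * ‖g c‖ := by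
    intro w hw
    have h1 := hgball w (ball_subset_closedBall.trans (closedBall_subset_closedBall (by norm_num)) hw)
    have h2 : Real.exp B = M / ‖f c‖ * 3 ^ n * Real.exp 1 := by
      rw [hB, Real.exp_add, Real.exp_add, hΛ, Real.exp_log (by positivity)]
      congr 2
      rw [mul_comm, Real.exp_mul, Real.exp_log (by norm_num), Real.rpow_natCast]
    have h3 : (1 : ℝ) ≤ Real.exp 1 := Real.one_le_exp (by norm_num)
    calc ‖g w‖ ≤ M * 2 ^ n := h1
      _ = M / ‖f c‖ * 3 ^ n * (‖f c‖ * (2 / 3) ^ n) := by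
          rw [show (2:ℝ) ^ n = 3 ^ n * (2 / 3) ^ n by rw [← mul_pow]; norm_num]
          field_simp
      _ ≤ M / ‖f c‖ * 3 ^ n * ‖g c‖ := by gcongr
      _ ≤ M / ‖f c‖ * 3 ^ n * Real.exp 1 * ‖g c‖ := by
          have : M / ‖f c‖ * 3 ^ n * 1 ≤ M / ‖f c‖ * 3 ^ n * Real.exp 1 := by gcongr
          rw [mul_one] at this
          exact mul_le_mul_of_nonneg_right this (norm_nonneg _)
      _ = _ := by rw [h2]
  have hlow := lower_zero_free (g := g) (c := c) (r := 3 / 2) (r2 := 7 / 5) (B := B) (by norm_num)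
    (by norm_num) (by norm_num) hB0
    (hg.mono (ball_subset_closedBall.trans (closedBall_subset_closedBall (by norm_num))))
    (fun w hw => hg0 w (ball_subset_closedBall hw)) hratio hz
  have e28 : 2 * B * (7 / 5) / (3 / 2 - 7 / 5) = 28 * B := by ring
  rw [e28] at hlow
  have hprod0 : 0 ≤ (s.map fun ρ => |z.im - ρ.im|).prod := by
    refine Multiset.prod_nonneg ?_
    intro a ha
    obtain ⟨b, _, rfl⟩ := Multiset.mem_map.1 ha
    exact abs_nonneg _
  have hfin : ‖f c‖ * Real.exp (-((k0 + k0 * Real.log (3 / 2) + 28 * (1 + k0 * Real.log 3) + 28) *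
      (Λ + 1))) ≤ ‖g z‖ := by
    refine le_trans ?_ hlow
    have h5 : (2 / 3 : ℝ) ^ n = Real.exp (-(n * Real.log (3 / 2))) := by
      rw [← mul_neg, ← Real.log_inv, mul_comm, Real.exp_mul, Real.exp_log (by norm_num),
        Real.rpow_natCast]
      norm_num
    have h6 : ‖f c‖ * Real.exp (-(n * Real.log (3 / 2))) * Real.exp (-(28 * B)) ≤
        ‖g c‖ * Real.exp (-(28 * B)) := by
      rw [← h5]
      exact mul_le_mul_of_nonneg_right hgc (Real.exp_pos _).le
    refine le_trans ?_ h6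
    rw [mul_assoc, ← Real.exp_add]
    refine mul_le_mul_of_nonneg_left (Real.exp_le_exp.2 ?_) hfc.le
    rw [hB]
    have h7 : (n : ℝ) * Real.log (3 / 2) ≤ k0 * Λ * Real.log (3 / 2) :=
      mul_le_mul_of_nonneg_right hn1 hl32.le
    have h8 : (n : ℝ) * Real.log 3 ≤ k0 * Λ * Real.log 3 := mul_le_mul_of_nonneg_right hn1 hl3.le
    have h9 : 0 ≤ k0 * Real.log (3 / 2) := by positivity
    have h10 : 0 ≤ k0 * Real.log 3 := by positivity
    nlinarith
  calc _ ≤ ‖g z‖ * (s.map fun ρ => |z.im - ρ.im|).prod := mul_le_mul_of_nonneg_right hfin hprod0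
    _ ≤ ‖g z‖ * ‖H370.Loc.Pf s z‖ := mul_le_mul_of_nonneg_left (Pf_im_le s z) (norm_nonneg _)
    _ = ‖f z‖ := by rw [hfg z, norm_mul, mul_comm]

end Pool.Agent.X102.SZ
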