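import Mathlib
import Pool.Agent.X102.SZ3
import Pool.Agent.W587.PL.F

/-!
Families: good heights and the number of zeros.
-/

set_option autoImplicit false
open Set Filter Topology Metric
open scoped ComplexConjugate

namespace Pool.Agent.X102.SZ

/-- families with growth, reflection and two-sided bounds to the right of `Re s = 1` -/
structure FamL {ι : Type*} (L : ι → ℂ → ℂ) (X Q : ι → ℝ → ℝ) : Prop where
  f2 : W587.PL.Fam2 L X Q
  low : ∀ δ : ℝ, 0 < δ → ∃ b : ℝ, 0 < b ∧ ∀ i (s : ℂ), 1 + δ ≤ s.re →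
    b * X i s.im ^ (-δ) ≤ ‖L i s‖

variable {ι : Type*} {L : ι → ℂ → ℂ} {X Q : ι → ℝ → ℝ}

lemma FamL.lX0 (H : FamL L X Q) (i : ι) (t : ℝ) : 0 ≤ Real.log (X i t) := Real.log_nonneg (H.f2.X1 i t)

lemma FamL.Xlog (H : FamL L X Q) : ∃ m : ℝ, 0 ≤ m ∧ ∀ i t u,
    Real.log (X i (t + u)) ≤ Real.log (X i t) + m * Real.log (1 + |u|) := by
  obtain ⟨m, hm, h⟩ := H.f2.Xs
  refine ⟨m, hm, fun i t u => ?_⟩
  have h1 := h i t u
  have h2 := H.f2.X1 i t
  have h3 := H.f2.X1 i (t + u)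
  have h4 := Real.log_le_log (by linarith) h1
  rw [Real.log_mul (by positivity) (by linarith), Real.log_rpow (by positivity)] at h4
  linarith

lemma FamL.up (H : FamL L X Q) : ∃ A : ℝ, 0 ≤ A ∧ ∀ (i : ι) (s : ℂ), -1 / 4 ≤ s.re →
    ‖L i s‖ ≤ Real.exp (A * (1 + Real.log (X i s.im))) := by
  obtain ⟨C, B, hC, hB, h⟩ := H.f2.crude
  refine ⟨max B (Real.log (max C 1)), hB.trans (le_max_left _ _), fun i s hs => ?_⟩
  have hX := H.f2.X1 i s.im
  have hl := H.lX0 i s.im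
  refine (h i s hs).trans ?_
  have h1 : C ≤ Real.exp (Real.log (max C 1)) := by
    rw [Real.exp_log (lt_of_lt_of_le one_pos (le_max_right _ _))]
    exact le_max_left _ _
  have h2 : X i s.im ^ B = Real.exp (B * Real.log (X i s.im)) := by
    rw [Real.rpow_def_of_pos (by linarith), mul_comm]
  rw [h2]
  calc C * Real.exp (B * Real.log (X i s.im)) ≤
        Real.exp (Real.log (max C 1)) * Real.exp (B * Real.log (X i s.im)) :=
        mul_le_mul_of_nonneg_right h1 (Real.exp_pos _).le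
    _ = Real.exp (Real.log (max C 1) + B * Real.log (X i s.im)) := (Real.exp_add _ _).symm
    _ ≤ _ := Real.exp_le_exp.2 (by
        have h3 : Real.log (max C 1) ≤ max B (Real.log (max C 1)) := le_max_right _ _
        have h4 : B * Real.log (X i s.im) ≤ max B (Real.log (max C 1)) * Real.log (X i s.im) :=
          mul_le_mul_of_nonneg_right (le_max_left _ _) hl
        linarith)

lemma FamL.an (H : FamL L X Q) (i : ι) (K : Set ℂ) : AnalyticOnNhd ℂ (L i) K :=
  fun z _ => (H.f2.diff i).analyticAt z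

/-- nonvanishing to the right of `Re s = 1` -/
lemma FamL.ne (H : FamL L X Q) (i : ι) {s : ℂ} (hs : 1 < s.re) : L i s ≠ 0 := by
  obtain ⟨b, hb, h⟩ := H.low (s.re - 1) (by linarith)
  have h1 := h i s (by linarith)
  have hX := H.f2.X1 i s.im
  intro h0
  rw [h0, norm_zero] at h1
  have : 0 < b * X i s.im ^ (-(s.re - 1)) := by positivity
  linarith

/-- bounds in a disc of radius `9/4` about `2 + i τ` -/
lemma FamL.disc (H : FamL L X Q) : ∃ A : ℝ, 0 ≤ A ∧ ∀ (i : ι) (τ : ℝ), ∃ M : ℝ, 1 ≤ M ∧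
    (∀ z ∈ closedBall (⟨2, τ⟩ : ℂ) (9 / 4), ‖L i z‖ ≤ M) ∧
    Real.exp (-(A * (1 + Real.log (X i τ)))) ≤ ‖L i ⟨2, τ⟩‖ ∧
    Real.log (M / ‖L i ⟨2, τ⟩‖) ≤ A * (1 + Real.log (X i τ)) := by
  obtain ⟨A, hA, hup⟩ := H.up
  obtain ⟨m, hm, hX⟩ := H.Xlog
  obtain ⟨b, hb, hlow⟩ := H.low 1 one_pos
  have hl4 : 0 ≤ Real.log 4 := Real.log_nonneg (by norm_num)
  refine ⟨A * (1 + m * Real.log 4) + |Real.log b| + 1, by positivity, fun i τ => ?_⟩
  have hlX := H.lX0 i τ
  have hXp := H.f2.X1 i τ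
  have hlo : Real.exp (-(|Real.log b| + Real.log (X i τ))) ≤ ‖L i ⟨2, τ⟩‖ := by
    have h1 := hlow i ⟨2, τ⟩ (by norm_num)
    refine le_trans ?_ h1
    have h2 : X i τ ^ (-1 : ℝ) = Real.exp (-Real.log (X i τ)) := by
      rw [Real.rpow_neg_one, Real.exp_neg, Real.exp_log (by linarith)]
    have h3 : Real.exp (-|Real.log b|) ≤ b := by
      calc Real.exp (-|Real.log b|) ≤ Real.exp (Real.log b) := Real.exp_le_exp.2 (neg_abs_le _)
        _ = b := Real.exp_log hb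
    simp only
    rw [h2, neg_add, Real.exp_add]
    exact mul_le_mul_of_nonneg_right h3 (Real.exp_pos _).le
  set M : ℝ := Real.exp (A * (1 + m * Real.log 4) * (1 + Real.log (X i τ))) with hM
  refine ⟨M, Real.one_le_exp (by positivity), ?_, ?_, ?_⟩
  · intro z hz
    rw [mem_closedBall, dist_eq_norm] at hz
    have h1 := (Complex.abs_re_le_norm (z - ⟨2, τ⟩)).trans hz
    have h2 := (Complex.abs_im_le_norm (z - ⟨2, τ⟩)).trans hz
    simp only [Complex.sub_re, Complex.sub_im] at h1 h2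
    have h3 := (abs_le.1 h1).1
    refine (hup i z (by linarith)).trans (Real.exp_le_exp.2 ?_)
    have h4 := hX i τ (z.im - τ)
    rw [add_sub_cancel] at h4
    have h5 : Real.log (1 + |z.im - τ|) ≤ Real.log 4 :=
      Real.log_le_log (by positivity) (by linarith)
    have h6 : Real.log (X i z.im) ≤ Real.log (X i τ) + m * Real.log 4 :=
      h4.trans (by linarith [mul_le_mul_of_nonneg_left h5 hm])
    have h7 : 1 + Real.log (X i z.im) ≤ (1 + m * Real.log 4) * (1 + Real.log (X i τ)) := by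
      have : 0 ≤ m * Real.log 4 * Real.log (X i τ) := by positivity
      nlinarith
    calc A * (1 + Real.log (X i z.im)) ≤ A * ((1 + m * Real.log 4) * (1 + Real.log (X i τ))) :=
          mul_le_mul_of_nonneg_left h7 hA
      _ = _ := by ring
  · refine le_trans (Real.exp_le_exp.2 ?_) hlo
    have h8 : 0 ≤ A * (1 + m * Real.log 4) * (1 + Real.log (X i τ)) := by positivity
    have h9 : 0 ≤ |Real.log b| * Real.log (X i τ) := by positivity
    nlinarith
  · have hLp : 0 < ‖L i ⟨2, τ⟩‖ := lt_of_lt_of_le (Real.exp_pos _) hlo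
    rw [Real.log_div (Real.exp_pos _).ne' hLp.ne', Real.log_exp]
    have h8 := Real.log_le_log (Real.exp_pos _) hlo
    rw [Real.log_exp] at h8
    have h9 : 0 ≤ |Real.log b| * Real.log (X i τ) := by positivity
    nlinarith

/-- zeros near a height and a lower bound -/
lemma FamL.segm (H : FamL L X Q) : ∃ A : ℝ, 0 ≤ A ∧ ∀ (i : ι) (τ : ℝ), ∃ s : Multiset ℂ,
    (∀ ρ ∈ s, |ρ.im - τ| ≤ 3 / 2) ∧ (Multiset.card s : ℝ) ≤ A * (1 + Real.log (X i τ)) ∧
    ∀ z ∈ closedBall (⟨2, τ⟩ : ℂ) (7 / 5),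
      Real.exp (-(A * (1 + Real.log (X i τ)))) * (s.map fun ρ => |z.im - ρ.im|).prod ≤ ‖L i z‖ := by
  obtain ⟨A, hA, hd⟩ := H.disc
  obtain ⟨K, hK, hloc⟩ := loc_lower
  refine ⟨K * A + A + K * (A + 1), by positivity, fun i τ => ?_⟩
  obtain ⟨M, hM, hb, hlo, hlog⟩ := hd i τ
  have hlX := H.lX0 i τ
  have hsub : closedBall (⟨2, τ⟩ : ℂ) 2 ⊆ closedBall ⟨2, τ⟩ (9 / 4) :=
    closedBall_subset_closedBall (by norm_num)
  have hc : L i ⟨2, τ⟩ ≠ 0 := H.ne i (by norm_num)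
  obtain ⟨s, hs, hcard, hlow⟩ := hloc (L i) ⟨2, τ⟩ M hM (H.an i _) hc
    (hb _ (mem_closedBall_self (by norm_num))) fun z hz => hb z (hsub hz)
  refine ⟨s, fun ρ hρ => ?_, hcard.trans ?_, fun z hz => ?_⟩
  · have h1 := hs ρ hρ
    rw [mem_closedBall, dist_eq_norm] at h1
    have h2 := (Complex.abs_im_le_norm (ρ - ⟨2, τ⟩)).trans h1
    simpa using h2
  · have h1 := mul_le_mul_of_nonneg_left hlog hK.le
    have h2 : 0 ≤ (A + K * (A + 1)) * (1 + Real.log (X i τ)) := by positivity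
    calc K * Real.log (M / ‖L i ⟨2, τ⟩‖) ≤ K * (A * (1 + Real.log (X i τ))) := h1
      _ ≤ _ := by nlinarith
  · refine le_trans ?_ (hlow z hz)
    have hprod0 : 0 ≤ (s.map fun ρ => |z.im - ρ.im|).prod := by
      refine Multiset.prod_nonneg ?_
      intro a ha
      obtain ⟨b, _, rfl⟩ := Multiset.mem_map.1 ha
      exact abs_nonneg _
    refine mul_le_mul_of_nonneg_right ?_ hprod0
    calc Real.exp (-((K * A + A + K * (A + 1)) * (1 + Real.log (X i τ)))) ≤
          Real.exp (-(A * (1 + Real.log (X i τ))) + -(K * (Real.log (M / ‖L i ⟨2, τ⟩‖) + 1))) := by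
          refine Real.exp_le_exp.2 ?_
          have h1 := mul_le_mul_of_nonneg_left hlog hK.le
          have h2 : 0 ≤ K * Real.log (X i τ) := by positivity
          have h3 : 0 ≤ K * A * (1 + Real.log (X i τ)) := by positivity
          nlinarith
      _ = Real.exp (-(A * (1 + Real.log (X i τ)))) *
            Real.exp (-(K * (Real.log (M / ‖L i ⟨2, τ⟩‖) + 1))) := Real.exp_add _ _
      _ ≤ _ := mul_le_mul_of_nonneg_right hlo (Real.exp_pos _).le

lemma prod_le_pow {s : Multiset ℂ} {F : ℂ → ℝ} {b : ℝ} (hb : 0 ≤ b) (h0 : ∀ x ∈ s, 0 ≤ F x)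
    (h : ∀ x ∈ s, F x ≤ b) : (s.map F).prod ≤ b ^ Multiset.card s := by
  induction s using Multiset.induction_on with
  | empty => simp
  | cons a s ih =>
    rw [Multiset.map_cons, Multiset.prod_cons, Multiset.card_cons, pow_succ, mul_comm]
    refine mul_le_mul (ih (fun x hx => h0 x (Multiset.mem_cons_of_mem hx))
      fun x hx => h x (Multiset.mem_cons_of_mem hx)) (h a (Multiset.mem_cons_self a s))
      (h0 a (Multiset.mem_cons_self a s)) (by positivity)

/-- **good heights** -/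
theorem FamL.height (H : FamL L X Q) : ∃ A : ℝ, 0 ≤ A ∧ ∀ (i : ι) (t Y : ℝ), 0 ≤ Y →
    ∃ R ∈ Icc Y (Y + 1), ∀ σ : ℝ, 3 / 4 ≤ σ → σ ≤ 2 →
      Real.exp (-(A * (1 + Real.log (X i t) + Real.log (2 + Y)))) ≤ ‖L i ⟨σ, t + R⟩‖ ∧
      Real.exp (-(A * (1 + Real.log (X i t) + Real.log (2 + Y)))) ≤ ‖L i ⟨σ, t - R⟩‖ := by
  obtain ⟨A, hA, hs⟩ := H.segm
  obtain ⟨m, hm, hX⟩ := H.Xlog
  have hl12 : 0 < Real.log 12 := Real.log_pos (by norm_num)
  refine ⟨A * (1 + m) + 2 * (A * (1 + m)) * Real.log 12, by positivity, fun i t Y hY => ?_⟩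
  obtain ⟨s1, a1, b1, c1⟩ := hs i (t + (Y + 1 / 2))
  obtain ⟨s2, a2, b2, c2⟩ := hs i (t + -(Y + 1 / 2))
  have hlX := H.lX0 i t
  have hlY : 0 ≤ Real.log (2 + Y) := Real.log_nonneg (by linarith)
  set Ξ : ℝ := 1 + Real.log (X i t) + Real.log (2 + Y) with hΞ
  have hΞ0 : 0 ≤ Ξ := by positivity
  have hX1 : 1 + Real.log (X i (t + (Y + 1 / 2))) ≤ (1 + m) * Ξ := by
    have h1 := hX i t (Y + 1 / 2)
    rw [abs_of_nonneg (by linarith : (0:ℝ) ≤ Y + 1 / 2)] at h1
    have h2 : Real.log (1 + (Y + 1 / 2)) ≤ Real.log (2 + Y) := Real.log_le_log (by linarith) (by linarith)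
    have h3 := mul_le_mul_of_nonneg_left h2 hm
    have h4 : 0 ≤ m * (1 + Real.log (X i t)) := by positivity
    rw [hΞ]; nlinarith
  have hX2 : 1 + Real.log (X i (t + -(Y + 1 / 2))) ≤ (1 + m) * Ξ := by
    have h1 := hX i t (-(Y + 1 / 2))
    rw [abs_neg, abs_of_nonneg (by linarith : (0:ℝ) ≤ Y + 1 / 2)] at h1
    have h2 : Real.log (1 + (Y + 1 / 2)) ≤ Real.log (2 + Y) := Real.log_le_log (by linarith) (by linarith)
    have h3 := mul_le_mul_of_nonneg_left h2 hm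
    have h4 : 0 ≤ m * (1 + Real.log (X i t)) := by positivity
    rw [hΞ]; nlinarith
  have hn1 : (Multiset.card s1 : ℝ) ≤ A * (1 + m) * Ξ := b1.trans (by
    have := mul_le_mul_of_nonneg_left hX1 hA; linarith)
  have hn2 : (Multiset.card s2 : ℝ) ≤ A * (1 + m) * Ξ := b2.trans (by
    have := mul_le_mul_of_nonneg_left hX2 hA; linarith)
  obtain ⟨R, hR, hch⟩ := cheb (s1.map (fun ρ => ρ.im - t) + s2.map (fun ρ => t - ρ.im)) Y
  rw [Multiset.map_add, Multiset.prod_add, Multiset.map_map, Multiset.map_map, Multiset.card_add,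
    Multiset.card_map, Multiset.card_map] at hch
  set n1 := Multiset.card s1 with hn1d
  set n2 := Multiset.card s2 with hn2d
  set p1 := (s1.map ((fun x => |R - x|) ∘ fun ρ : ℂ => ρ.im - t)).prod with hp1
  set p2 := (s2.map ((fun x => |R - x|) ∘ fun ρ : ℂ => t - ρ.im)).prod with hp2
  have hR1 := hR.1
  have hR2 := hR.2
  have hp1u : p1 ≤ 3 ^ n1 := by
    refine prod_le_pow (by norm_num) (fun x _ => abs_nonneg _) fun ρ hρ => ?_
    have h1 := abs_le.1 (a1 ρ hρ)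
    simp only [Function.comp]
    rw [abs_le]
    constructor <;> linarith [h1.1, h1.2]
  have hp2u : p2 ≤ 3 ^ n2 := by
    refine prod_le_pow (by norm_num) (fun x _ => abs_nonneg _) fun ρ hρ => ?_
    have h1 := abs_le.1 (a2 ρ hρ)
    simp only [Function.comp]
    rw [abs_le]
    constructor <;> linarith [h1.1, h1.2]
  have hp10 : 0 ≤ p1 := by
    refine Multiset.prod_nonneg ?_
    intro a ha
    obtain ⟨b, _, rfl⟩ := Multiset.mem_map.1 ha
    exact abs_nonneg _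
  have hp20 : 0 ≤ p2 := by
    refine Multiset.prod_nonneg ?_
    intro a ha
    obtain ⟨b, _, rfl⟩ := Multiset.mem_map.1 ha
    exact abs_nonneg _
  have h12 : ((1 : ℝ) / 12) ^ (n1 + n2) * 3 ^ (n1 + n2) = (1 / 4) ^ (n1 + n2) := by
    rw [← mul_pow]; norm_num
  have hp1l : ((1 : ℝ) / 12) ^ (n1 + n2) ≤ p1 := by
    have h1 : ((1 : ℝ) / 12) ^ (n1 + n2) * 3 ^ (n1 + n2) ≤ p1 * 3 ^ n2 := by
      rw [h12]; exact hch.trans (mul_le_mul_of_nonneg_left hp2u hp10)
    have h2 : ((1 : ℝ) / 12) ^ (n1 + n2) * 3 ^ n2 ≤ ((1 : ℝ) / 12) ^ (n1 + n2) * 3 ^ (n1 + n2) :=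
      mul_le_mul_of_nonneg_left (pow_le_pow_right₀ (by norm_num) (by omega)) (by positivity)
    exact le_of_mul_le_mul_right (h2.trans h1) (by positivity)
  have hp2l : ((1 : ℝ) / 12) ^ (n1 + n2) ≤ p2 := by
    have h1 : ((1 : ℝ) / 12) ^ (n1 + n2) * 3 ^ (n1 + n2) ≤ p2 * 3 ^ n1 := by
      rw [h12, mul_comm p2]; exact hch.trans (mul_le_mul_of_nonneg_right hp1u hp20)
    have h2 : ((1 : ℝ) / 12) ^ (n1 + n2) * 3 ^ n1 ≤ ((1 : ℝ) / 12) ^ (n1 + n2) * 3 ^ (n1 + n2) :=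
      mul_le_mul_of_nonneg_left (pow_le_pow_right₀ (by norm_num) (by omega)) (by positivity)
    exact le_of_mul_le_mul_right (h2.trans h1) (by positivity)
  have h12e : Real.exp (-(2 * (A * (1 + m)) * Real.log 12 * Ξ)) ≤ ((1 : ℝ) / 12) ^ (n1 + n2) := by
    have h3 : ((1 : ℝ) / 12) ^ (n1 + n2) = Real.exp (-((n1 + n2 : ℕ) * Real.log 12)) := by
      rw [← mul_neg, ← Real.log_inv, mul_comm, Real.exp_mul, Real.exp_log (by norm_num),
        Real.rpow_natCast]
      norm_num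
    rw [h3]
    refine Real.exp_le_exp.2 ?_
    push_cast
    have h4 : ((n1 : ℝ) + n2) * Real.log 12 ≤ 2 * (A * (1 + m)) * Ξ * Real.log 12 :=
      mul_le_mul_of_nonneg_right (by linarith) hl12.le
    linarith
  refine ⟨R, hR, fun σ hσ1 hσ2 => ⟨?_, ?_⟩⟩
  · have hz : (⟨σ, t + R⟩ : ℂ) ∈ closedBall (⟨2, t + (Y + 1 / 2)⟩ : ℂ) (7 / 5) := by
      rw [mem_closedBall, dist_eq_norm]
      rw [Complex.norm_def]
      refine Real.sqrt_le_iff.2 ⟨by norm_num, ?_⟩
      rw [Complex.normSq_apply]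
      simp only [Complex.sub_re, Complex.sub_im]
      nlinarith
    refine le_trans ?_ (c1 _ hz)
    have e1 : (s1.map fun ρ => |(⟨σ, t + R⟩ : ℂ).im - ρ.im|).prod = p1 := by
      rw [hp1]
      congr 1
      refine Multiset.map_congr rfl fun ρ _ => ?_
      simp only [Function.comp]
      congr 1
      ring
    rw [e1]
    calc Real.exp (-((A * (1 + m) + 2 * (A * (1 + m)) * Real.log 12) * Ξ)) =
          Real.exp (-(A * ((1 + m) * Ξ))) * Real.exp (-(2 * (A * (1 + m)) * Real.log 12 * Ξ)) := by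
          rw [← Real.exp_add]; congr 1; ring
      _ ≤ Real.exp (-(A * (1 + Real.log (X i (t + (Y + 1 / 2)))))) * p1 := by
          refine mul_le_mul (Real.exp_le_exp.2 (neg_le_neg (mul_le_mul_of_nonneg_left hX1 hA)))
            (h12e.trans hp1l) (Real.exp_pos _).le (Real.exp_pos _).le
  · have hz : (⟨σ, t - R⟩ : ℂ) ∈ closedBall (⟨2, t + -(Y + 1 / 2)⟩ : ℂ) (7 / 5) := by
      rw [mem_closedBall, dist_eq_norm]
      rw [Complex.norm_def]
      refine Real.sqrt_le_iff.2 ⟨by norm_num, ?_⟩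
      rw [Complex.normSq_apply]
      simp only [Complex.sub_re, Complex.sub_im]
      nlinarith
    refine le_trans ?_ (c2 _ hz)
    have e1 : (s2.map fun ρ => |(⟨σ, t - R⟩ : ℂ).im - ρ.im|).prod = p2 := by
      rw [hp2]
      congr 1
      refine Multiset.map_congr rfl fun ρ _ => ?_
      simp only [Function.comp]
      rw [← abs_neg]
      congr 1
      ring
    rw [e1]
    calc Real.exp (-((A * (1 + m) + 2 * (A * (1 + m)) * Real.log 12) * Ξ)) =
          Real.exp (-(A * ((1 + m) * Ξ))) * Real.exp (-(2 * (A * (1 + m)) * Real.log 12 * Ξ)) := by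
          rw [← Real.exp_add]; congr 1; ring
      _ ≤ Real.exp (-(A * (1 + Real.log (X i (t + -(Y + 1 / 2)))))) * p2 := by
          refine mul_le_mul (Real.exp_le_exp.2 (neg_le_neg (mul_le_mul_of_nonneg_left hX2 hA)))
            (h12e.trans hp2l) (Real.exp_pos _).le (Real.exp_pos _).le

/-- **the number of zeros in a box** -/
theorem FamL.count (H : FamL L X Q) : ∃ A : ℝ, 0 ≤ A ∧ ∀ (i : ι) (t h : ℝ), 0 ≤ h →
    ∀ S : Finset ℂ, (∀ s ∈ S, 0 ≤ s.re ∧ |s.im - t| ≤ h) →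
      ∑ s ∈ S, (analyticOrderNatAt (L i) s : ℝ) ≤
        A * (1 + h) * (1 + Real.log (X i t) + Real.log (2 + h)) := by
  classical
  obtain ⟨A, hA, hd⟩ := H.disc
  obtain ⟨m, hm, hX⟩ := H.Xlog
  have hlq : 0 < Real.log (9 / 4 / (21 / 10)) := Real.log_pos (by norm_num)
  set q : ℝ := (Real.log (9 / 4 / (21 / 10)))⁻¹ with hq
  have hq0 : 0 < q := inv_pos.2 hlq
  refine ⟨2 * (q * (A * (1 + m))), by positivity, fun i t h hh S hS => ?_⟩
  have hlX := H.lX0 i t
  have hlh : 0 ≤ Real.log (2 + h) := Real.log_nonneg (by linarith)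
  set Ξ : ℝ := 1 + Real.log (X i t) + Real.log (2 + h) with hΞ
  have hΞ0 : 0 ≤ Ξ := by positivity
  -- one box
  have hbox : ∀ j : ℤ, j ∈ Finset.Icc ⌊-h⌋ ⌊h⌋ →
      ∑ s ∈ S.filter (fun s => ⌊s.im - t⌋ = j), (analyticOrderNatAt (L i) s : ℝ) ≤
        q * (A * (1 + m)) * Ξ := by
    intro j hj
    set τ : ℝ := t + (j + 1 / 2) with hτ
    obtain ⟨M, hM, hb, hlo, hlog⟩ := hd i τ
    have hj1 : -h - 1 < (j : ℝ) := by
      have h1 := (Finset.mem_Icc.1 hj).1
      have h2 := Int.sub_one_lt_floor (-h)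
      have h3 : ((⌊-h⌋ : ℤ) : ℝ) ≤ j := by exact_mod_cast h1
      linarith
    have hj2 : (j : ℝ) ≤ h := by
      have h1 := (Finset.mem_Icc.1 hj).2
      have h2 := Int.floor_le h
      have h3 : (j : ℝ) ≤ ((⌊h⌋ : ℤ) : ℝ) := by exact_mod_cast h1
      linarith
    have hX1 : 1 + Real.log (X i τ) ≤ (1 + m) * Ξ := by
      have h1 := hX i t (j + 1 / 2)
      have h0 : |(j : ℝ) + 1 / 2| ≤ 1 + h := by rw [abs_le]; constructor <;> linarith
      have h2 : Real.log (1 + |(j : ℝ) + 1 / 2|) ≤ Real.log (2 + h) :=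
        Real.log_le_log (by positivity) (by linarith)
      have h3 := mul_le_mul_of_nonneg_left h2 hm
      have h4 : 0 ≤ m * (1 + Real.log (X i t)) := by positivity
      rw [hΞ, hτ]; nlinarith
    set S' := (S.filter (fun s => ⌊s.im - t⌋ = j)).filter (fun s => L i s = 0) with hS'
    have hsum : ∑ s ∈ S.filter (fun s => ⌊s.im - t⌋ = j), (analyticOrderNatAt (L i) s : ℝ) =
        ∑ s ∈ S', (analyticOrderNatAt (L i) s : ℝ) := by
      symm
      rw [hS', Finset.sum_filter]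
      refine Finset.sum_congr rfl fun s _ => ?_
      split_ifs with h0
      · rfl
      · have : analyticOrderAt (L i) s = 0 :=
          ((H.f2.diff i).analyticAt s).analyticOrderAt_eq_zero.2 h0
        unfold analyticOrderNatAt
        rw [this]
        simp
    rw [hsum]
    have hc : L i ⟨2, τ⟩ ≠ 0 := H.ne i (by norm_num)
    have hj := H370.Loc.jensen_mult (r := 21 / 10) (R := 9 / 4) (by norm_num) (by norm_num) hM
      (H.an i _) hc hb S' (by
        intro s hs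
        rw [hS', Finset.mem_filter, Finset.mem_filter] at hs
        obtain ⟨⟨h1, h2⟩, h3⟩ := hs
        have h4 := (hS s h1).1
        have h5 : s.re ≤ 1 := by
          by_contra hc
          push Not at hc
          exact H.ne i hc h3
        have h6 := Int.floor_le (s.im - t)
        have h7 := Int.lt_floor_add_one (s.im - t)
        rw [h2] at h6 h7
        rw [mem_closedBall, dist_eq_norm, Complex.norm_def]
        refine Real.sqrt_le_iff.2 ⟨by norm_num, ?_⟩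
        rw [Complex.normSq_apply]
        simp only [Complex.sub_re, Complex.sub_im]
        have h8 : |s.im - τ| ≤ 1 / 2 := by rw [abs_le, hτ]; constructor <;> linarith
        have h9 := sq_le_sq' (abs_le.1 h8).1 (abs_le.1 h8).2
        nlinarith)
    have hj' : ∑ s ∈ S', (analyticOrderNatAt (L i) s : ℝ) ≤
        Real.log (M / ‖L i ⟨2, τ⟩‖) / Real.log (9 / 4 / (21 / 10)) := hj
    refine hj'.trans ?_
    rw [div_eq_inv_mul, ← hq]
    calc q * Real.log (M / ‖L i ⟨2, τ⟩‖) ≤ q * (A * (1 + Real.log (X i τ))) :=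
          mul_le_mul_of_nonneg_left hlog hq0.le
      _ ≤ q * (A * ((1 + m) * Ξ)) := by gcongr
      _ = _ := by ring
  have hmaps : ∀ s ∈ S, ⌊s.im - t⌋ ∈ Finset.Icc ⌊-h⌋ ⌊h⌋ := by
    intro s hs
    have h1 := abs_le.1 (hS s hs).2
    exact Finset.mem_Icc.2 ⟨Int.floor_le_floor h1.1, Int.floor_le_floor h1.2⟩
  rw [← Finset.sum_fiberwise_of_maps_to (s := S) (t := Finset.Icc ⌊-h⌋ ⌊h⌋)
    (g := fun s => ⌊s.im - t⌋) hmaps]
  refine (Finset.sum_le_sum hbox).trans ?_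
  rw [Finset.sum_const, nsmul_eq_mul, Int.card_Icc]
  have hcard : (((⌊h⌋ + 1 - ⌊-h⌋).toNat : ℕ) : ℝ) ≤ 2 * (1 + h) := by
    have h1 := Int.floor_le h
    have h2 := Int.sub_one_lt_floor (-h)
    have h3 : 0 ≤ ⌊h⌋ + 1 - ⌊-h⌋ := by
      have : ⌊-h⌋ ≤ ⌊h⌋ := Int.floor_le_floor (by linarith)
      omega
    have h4 : (((⌊h⌋ + 1 - ⌊-h⌋).toNat : ℕ) : ℝ) = ((⌊h⌋ + 1 - ⌊-h⌋ : ℤ) : ℝ) := by
      exact_mod_cast congrArg (fun x : ℤ => (x : ℝ)) (Int.toNat_of_nonneg h3)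
    rw [h4]
    push_cast
    linarith
  calc (((⌊h⌋ + 1 - ⌊-h⌋).toNat : ℕ) : ℝ) * (q * (A * (1 + m)) * Ξ) ≤
        2 * (1 + h) * (q * (A * (1 + m)) * Ξ) := mul_le_mul_of_nonneg_right hcard (by positivity)
    _ = _ := by ring

end Pool.Agent.X102.SZ
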