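import Mathlib
import Pool.Agent.X102.SZ2
import Pool.Agent.X102.SZ4

/-!
Factorizations, and the inequality for one strip.
-/

set_option autoImplicit false
open Set Filter Topology Metric
open scoped ComplexConjugate

namespace Pool.Agent.X102.SZ

lemma order_ne_top {f : ℂ → ℂ} (hf : Differentiable ℂ f) (h0 : ∃ z, f z ≠ 0) (x : ℂ) :
    analyticOrderAt f x ≠ ⊤ := by
  obtain ⟨c, hc⟩ := h0
  have han : AnalyticOnNhd ℂ f univ := fun z _ => hf.analyticAt z
  refine han.analyticOrderAt_ne_top_of_isPreconnected isPreconnected_univ (mem_univ c) (mem_univ x) ?_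
  rw [(hf.analyticAt c).analyticOrderAt_eq_zero.mpr hc]
  exact ENat.zero_ne_top

lemma finZ {f : ℂ → ℂ} (hf : Differentiable ℂ f) (h0 : ∃ z, f z ≠ 0) {K : Set ℂ} (hK : IsCompact K) :
    {z : ℂ | z ∈ K ∧ f z = 0}.Finite := by
  by_contra hinf
  have hinf' : {z : ℂ | z ∈ K ∧ f z = 0}.Infinite := hinf
  obtain ⟨x, hx, hacc⟩ := hinf'.exists_accPt_of_subset_isCompact hK (fun z hz => hz.1)
  have h1 : ∃ᶠ z in 𝓝[≠] x, f z = 0 := by
    refine (accPt_iff_frequently_nhdsNE.1 hacc).mono fun z hz => hz.2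
  have han : AnalyticAt ℂ f x := hf.analyticAt x
  have h2 := han.eventually_eq_zero_or_eventually_ne_zero
  rcases h2 with h2 | h2
  · exact order_ne_top hf h0 x (analyticOrderAt_eq_top.2 h2)
  · exact h1 h2

lemma fac {f : ℂ → ℂ} (hf : Differentiable ℂ f) (h0 : ∃ z, f z ≠ 0) (Z : Finset ℂ) :
    ∃ g : ℂ → ℂ, Differentiable ℂ g ∧
      (∀ z, f z = (∏ w ∈ Z, (z - w) ^ analyticOrderNatAt f w) * g z) ∧
      ∀ z, (f z = 0 → z ∈ Z) → g z ≠ 0 := by
  classical
  obtain ⟨g, hg, hfg⟩ := Pool.Agent.W469.RT.Jen.factor hf Z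
  refine ⟨g, hg, hfg, fun z hz hgz => ?_⟩
  by_cases hzZ : z ∈ Z
  · -- order argument
    have hgz' : ∀ u, g u = (u - z) * dslope g z u := by
      intro u
      have := sub_smul_dslope g z u
      rw [hgz, sub_zero, smul_eq_mul] at this
      exact this.symm
    have hd : AnalyticAt ℂ (dslope g z) z := by
      have : AnalyticOnNhd ℂ (dslope g z) univ :=
        H370.Loc.analytic_dslope (fun x _ => hg.analyticAt x) (hg.analyticAt z)
      exact this z (mem_univ z)
    have hle : ((analyticOrderNatAt f z + 1 : ℕ) : ℕ∞) ≤ analyticOrderAt f z := by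
      rw [natCast_le_analyticOrderAt (hf.analyticAt z)]
      refine ⟨fun u => (∏ w ∈ Z.erase z, (u - w) ^ analyticOrderNatAt f w) * dslope g z u, ?_, ?_⟩
      · refine AnalyticAt.mul ?_ hd
        have : Differentiable ℂ fun u : ℂ => ∏ w ∈ Z.erase z, (u - w) ^ analyticOrderNatAt f w := by
          fun_prop
        exact this.analyticAt z
      · filter_upwards with u
        rw [hfg u, ← Finset.mul_prod_erase _ _ hzZ, hgz' u, smul_eq_mul, pow_succ]
        ring
    rw [← Nat.cast_analyticOrderNatAt (order_ne_top hf h0 z)] at hle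
    have : analyticOrderNatAt f z + 1 ≤ analyticOrderNatAt f z := by exact_mod_cast hle
    omega
  · apply hzZ
    apply hz
    rw [hfg z, hgz, mul_zero]

/-- `sinh` and `cosh` -/
lemma sinh_ge {x y : ℝ} (hx : 0 ≤ x) (hy : 2 ≤ y) : 2 * Real.cosh x ≤ Real.sinh (x + y) := by
  rw [Real.sinh_add]
  have h1 : y ≤ Real.sinh y := Real.self_le_sinh_iff.2 (by linarith)
  have h2 := Real.cosh_pos x
  have h3 : 0 ≤ Real.sinh x := Real.sinh_nonneg_iff.2 hx
  have h4 := Real.cosh_pos y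
  nlinarith [mul_nonneg h3 h4.le]

lemma norm_cos_sq (z : ℂ) : ‖Complex.cos z‖ ^ 2 = Real.cos z.re ^ 2 + Real.sinh z.im ^ 2 := by
  have h := Pool.Agent.TH809.MZ.norm_sin_sq (z + Real.pi / 2)
  have e1 : Complex.sin (z + Real.pi / 2) = Complex.cos z := Complex.sin_add_pi_div_two z
  have e2 : (z + (Real.pi : ℂ) / 2).re = z.re + Real.pi / 2 := by simp
  have e3 : (z + (Real.pi : ℂ) / 2).im = z.im := by simp
  rw [e1, e2, e3, Real.sin_add_pi_div_two] at h
  exact h

/-- lower bound of Blaschke factors far up -/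
lemma BF_far {k a R h : ℝ} (hk : 1 ≤ k) (hka : 4 * k * a = Real.pi) (hh : 0 ≤ h) (hR : h + 1 ≤ R)
    {w z : ℂ} (hz : |z.im| = R) (hz2 : |z.re| ≤ a) (hw2 : |w.re| < a) (hw : |w.im| ≤ h) :
    1 / 3 ≤ ‖BF k w z‖ := by
  have hk0 : 0 < k := by linarith
  have hC := C_re_nonneg hk0 hka hz2
  have hC2 := C_re_pos hk0 hka hw2
  have hD := Dn_ne hC hC2
  have h1 : Real.sinh (2 * k * R) ≤ ‖C k z‖ := by
    refine le_of_sq_le_sq ?_ (norm_nonneg _)
    unfold C
    rw [norm_cos_sq, Complex.re_ofReal_mul, Complex.im_ofReal_mul]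
    have : Real.sinh (2 * k * z.im) ^ 2 = Real.sinh (2 * k * R) ^ 2 := by
      rw [← sq_abs (Real.sinh (2 * k * z.im)), Real.abs_sinh, abs_mul, hz, abs_of_pos (by positivity)]
    rw [this]
    nlinarith [sq_nonneg (Real.cos (2 * k * z.re))]
  have h2 : ‖C k w‖ ≤ Real.cosh (2 * k * h) := by
    refine le_of_sq_le_sq ?_ (Real.cosh_pos _).le
    unfold C
    rw [norm_cos_sq, Complex.re_ofReal_mul, Complex.im_ofReal_mul]
    have e1 : Real.sinh (2 * k * w.im) ^ 2 = Real.cosh (2 * k * w.im) ^ 2 - 1 := Real.sinh_sq _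
    have e2 := Real.cos_sq_le_one (2 * k * w.re)
    have e3 : Real.cosh (2 * k * w.im) ≤ Real.cosh (2 * k * h) := by
      rw [Real.cosh_le_cosh, abs_mul, abs_of_pos (by positivity : 0 < 2 * k),
        abs_of_nonneg (by positivity : 0 ≤ 2 * k * h)]
      exact mul_le_mul_of_nonneg_left hw (by positivity)
    have e4 := Real.cosh_pos (2 * k * w.im)
    nlinarith
  have h3 : 2 * Real.cosh (2 * k * h) ≤ Real.sinh (2 * k * R) := by
    refine (sinh_ge (y := 2 * k) (by positivity) (by linarith)).trans ?_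
    apply Real.sinh_le_sinh.2
    nlinarith
  have h4 : 2 * ‖C k w‖ ≤ ‖C k z‖ := by linarith
  unfold BF
  rw [norm_div, div_le_div_iff₀ (by norm_num) (norm_pos_iff.2 hD)]
  have h5 : ‖C k z‖ - ‖C k w‖ ≤ ‖C k z - C k w‖ := norm_sub_norm_le _ _
  have h6 : ‖Dn k w z‖ ≤ ‖C k z‖ + ‖C k w‖ := by
    unfold Dn
    refine (norm_add_le _ _).trans ?_
    rw [Complex.norm_conj]
  have h7 := norm_nonneg (C k w)
  linarith

/-- trigonometric functions do not vanish for `0 < Re z < π/2` -/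
lemma sin_ne {z : ℂ} (h0 : 0 < z.re) (h1 : z.re < Real.pi) : Complex.sin z ≠ 0 := by
  intro h
  have := Pool.Agent.TH809.MZ.norm_sin_sq z
  rw [h, norm_zero] at this
  have h2 := Real.sin_pos_of_pos_of_lt_pi h0 h1
  nlinarith [sq_nonneg (Real.sinh z.im)]

lemma cos_ne {z : ℂ} (h0 : |z.re| < Real.pi / 2) : Complex.cos z ≠ 0 := by
  intro h
  have := norm_cos_sq z
  rw [h, norm_zero] at this
  have h2 := Real.cos_pos_of_mem_Ioo ⟨(abs_lt.1 h0).1, (abs_lt.1 h0).2⟩
  nlinarith [sq_nonneg (Real.sinh z.im)]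

end Pool.Agent.X102.SZ
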