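import Mathlib
import Pool.Agent.X102.SZ5
import Pool.Agent.W169.HF.DefsB

/-!
Log-free version: the basic inequality with a Gaussian factor; good heights for `UD` data.
-/

set_option autoImplicit false
open Set Filter Topology Metric
open scoped ComplexConjugate

namespace Pool.Agent.X102.SZ

open Complex in
/-- **The basic inequality, with a Gaussian factor.** -/
theorem SD.main2 {k a R : ℝ} {f : ℂ → ℂ} {P S : Finset ℂ} {m : ℂ → ℕ} {g h : ℂ → ℂ}
    (H : SD k a R f P S m g h) (ha : a ≤ 1) (hR : 0 < R) {V W lam κ : ℝ}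
    (hV : 0 ≤ V) (hlam : 0 ≤ lam)
    (hv : ∀ z : ℂ, |z.re| = a → |z.im| ≤ R → D1 a f z ≠ 0 ∧
      ‖f z‖ * ‖f (-z)‖ * Real.exp (κ * (z.re ^ 2 - z.im ^ 2)) ≤ V * ‖D1 a f z‖)
    (hw : ∀ z : ℂ, |z.re| ≤ a → |z.im| = R → D1 a f z ≠ 0 ∧ (∀ w ∈ S, BF k w z ≠ 0) ∧
      ‖f z‖ * ‖f (-z)‖ * Real.exp (κ * (z.re ^ 2 - z.im ^ 2)) ≤
        W * (‖D1 a f z‖ * ∏ w ∈ S, ‖BF k w z‖ ^ m w))
    (hl : W ≤ V * Real.exp (lam * (Real.cos a * Real.cosh R))) :
    ‖f 0‖ ^ 2 * ∏ w ∈ P, (‖BF k (w - 2 * a) 0‖ ^ 2) ^ m w ≤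
      V * Real.exp lam * ‖f (2 * a)‖ ^ 4 * ∏ w ∈ S, ‖BF k w 0‖ ^ m w := by
  have ha0 := H.a0
  have hcosa : 0 ≤ Real.cos a := Real.cos_nonneg_of_mem_Icc
    ⟨by linarith [Real.pi_pos], by linarith [Real.pi_gt_three]⟩
  set F : ℂ → ℂ := fun z => UU k a P S m g h z * Complex.exp (-(lam * Complex.cos z)) *
    Complex.exp (κ * z ^ 2) with hF
  have hcl : closure (Ioo (-a) a ×ℂ Ioo (-R) R) = Icc (-a) a ×ℂ Icc (-R) R := by
    rw [closure_reProdIm, closure_Ioo (by linarith), closure_Ioo (by linarith)]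
  have hfr : ∀ z ∈ frontier (Ioo (-a) a ×ℂ Ioo (-R) R), |z.re| ≤ a ∧ |z.im| ≤ R ∧
      (|z.re| = a ∨ |z.im| = R) := by
    intro z hz
    rw [frontier_reProdIm, closure_Ioo (by linarith), closure_Ioo (by linarith),
      frontier_Ioo (by linarith), frontier_Ioo (by linarith)] at hz
    rcases hz with hz | hz
    · rw [mem_reProdIm] at hz
      refine ⟨abs_le.2 hz.1, ?_, Or.inr ?_⟩
      · rcases hz.2 with h | h
        · rw [h, abs_neg, abs_of_pos hR]
        · rw [mem_singleton_iff] at h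
          rw [h, abs_of_pos hR]
      · rcases hz.2 with h | h
        · rw [h, abs_neg, abs_of_pos hR]
        · rw [mem_singleton_iff] at h
          rw [h, abs_of_pos hR]
    · rw [mem_reProdIm] at hz
      refine ⟨?_, abs_le.2 hz.2, Or.inl ?_⟩
      · rcases hz.1 with h | h
        · rw [h, abs_neg, abs_of_pos ha0]
        · rw [mem_singleton_iff] at h
          rw [h, abs_of_pos ha0]
      · rcases hz.1 with h | h
        · rw [h, abs_neg, abs_of_pos ha0]
        · rw [mem_singleton_iff] at h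
          rw [h, abs_of_pos ha0]
  have hnexp : ∀ z : ℂ, ‖Complex.exp (-(lam * Complex.cos z))‖ =
      Real.exp (-(lam * (Real.cos z.re * Real.cosh z.im))) := by
    intro z
    rw [Complex.norm_exp, neg_re, re_ofReal_mul, Pool.Agent.TH809.MZ.re_cos]
  have hgexp : ∀ z : ℂ, ‖Complex.exp (κ * z ^ 2)‖ = Real.exp (κ * (z.re ^ 2 - z.im ^ 2)) := by
    intro z
    rw [Complex.norm_exp, re_ofReal_mul, sq, mul_re]
    congr 2
    ring
  have hcosz : ∀ z : ℂ, |z.re| ≤ a → Real.cos a ≤ Real.cos z.re := by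
    intro z hz
    rw [← Real.cos_abs z.re]
    exact Real.cos_le_cos_of_nonneg_of_le_pi (abs_nonneg _) (by linarith [Real.pi_gt_three]) hz
  -- products of Blaschke factors
  have hPle : ∀ z : ℂ, |z.re| ≤ a →
      ∏ w ∈ P, (‖BF k (w - 2 * a) z‖ * ‖BF k (conj (w - 2 * a)) z‖) ^ m w ≤ 1 := by
    intro z hz
    have hC := C_re_nonneg H.hk H.hka hz
    refine Finset.prod_le_one (fun w _ => by positivity) fun w hw => ?_
    refine pow_le_one₀ (by positivity) ?_
    have h1 := BF_le hC (C_re_pos H.hk H.hka (H.re_sub hw))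
    have h2 := BF_le hC (C_re_pos H.hk H.hka (H.re_conj hw))
    exact mul_le_one₀ h1 (norm_nonneg _) h2
  have hmax : ‖F 0‖ ≤ V := by
    refine Complex.norm_le_of_forall_mem_frontier_norm_le (U := Ioo (-a) a ×ℂ Ioo (-R) R)
      ((Metric.isBounded_Ioo _ _).reProdIm (Metric.isBounded_Ioo _ _)) ?_ ?_ ?_
    · apply DifferentiableOn.diffContOnCl
      intro z hz
      rw [hcl, mem_reProdIm] at hz
      refine DifferentiableAt.differentiableWithinAt ?_
      refine DifferentiableAt.mul (DifferentiableAt.mul (H.diff (abs_le.2 hz.1) (abs_le.2 hz.2)) ?_) ?_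
      · fun_prop
      · fun_prop
    · intro z hz
      obtain ⟨h1, h2, h3⟩ := hfr z hz
      have hkey := H.key h1 h2
      simp only [hF]
      rw [norm_mul, norm_mul, hnexp, hgexp]
      set g1 : ℝ := Real.exp (κ * (z.re ^ 2 - z.im ^ 2)) with hg1
      have hg10 : 0 < g1 := Real.exp_pos _
      have hU0 := norm_nonneg (UU k a P S m g h z)
      have hP1 := hPle z h1
      have hP0 : 0 ≤ ∏ w ∈ P, (‖BF k (w - 2 * a) z‖ * ‖BF k (conj (w - 2 * a)) z‖) ^ m w :=
        Finset.prod_nonneg fun w _ => by positivity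
      rcases h3 with h3 | h3
      · -- vertical sides
        obtain ⟨hD, hb⟩ := hv z h3 h2
        have hD0 : 0 < ‖D1 a f z‖ := norm_pos_iff.2 hD
        have hS1 : ∏ w ∈ S, ‖BF k w z‖ ^ m w = 1 := by
          refine Finset.prod_eq_one fun w hw => ?_
          rw [BF_one (C_re_zero H.hka h3) (C_re_pos H.hk H.hka (H.S0 w hw)), one_pow]
        rw [hS1, mul_one] at hkey
        have hU : ‖UU k a P S m g h z‖ * g1 ≤ V := by
          refine le_of_mul_le_mul_right ?_ hD0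
          calc ‖UU k a P S m g h z‖ * g1 * ‖D1 a f z‖ = ‖UU k a P S m g h z‖ * ‖D1 a f z‖ * g1 := by ring
            _ = ‖f z‖ * ‖f (-z)‖ * _ * g1 := by rw [hkey]
            _ ≤ ‖f z‖ * ‖f (-z)‖ * 1 * g1 :=
                mul_le_mul_of_nonneg_right (mul_le_mul_of_nonneg_left hP1 (by positivity)) hg10.le
            _ ≤ _ := by rw [mul_one]; exact hb
        have he : Real.exp (-(lam * (Real.cos z.re * Real.cosh z.im))) ≤ 1 := by
          rw [Real.exp_le_one_iff]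
          have := hcosz z h1
          have h5 := Real.cosh_pos z.im
          have : 0 ≤ lam * (Real.cos z.re * Real.cosh z.im) :=
            mul_nonneg hlam (mul_nonneg (hcosa.trans this) h5.le)
          linarith
        calc ‖UU k a P S m g h z‖ * Real.exp (-(lam * (Real.cos z.re * Real.cosh z.im))) * g1 =
              ‖UU k a P S m g h z‖ * g1 * Real.exp (-(lam * (Real.cos z.re * Real.cosh z.im))) := by ring
          _ ≤ V * 1 := mul_le_mul hU he (Real.exp_pos _).le hV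
          _ = V := mul_one _
      · -- horizontal sides
        obtain ⟨hD, hB, hb⟩ := hw z h1 h3
        have hD0 : 0 < ‖D1 a f z‖ := norm_pos_iff.2 hD
        have hS0 : 0 < ∏ w ∈ S, ‖BF k w z‖ ^ m w :=
          Finset.prod_pos fun w hw => pow_pos (norm_pos_iff.2 (hB w hw)) _
        have hU : ‖UU k a P S m g h z‖ * g1 ≤ W := by
          refine le_of_mul_le_mul_right ?_ (mul_pos hD0 hS0)
          calc ‖UU k a P S m g h z‖ * g1 * (‖D1 a f z‖ * ∏ w ∈ S, ‖BF k w z‖ ^ m w) =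
                ‖UU k a P S m g h z‖ * ‖D1 a f z‖ * (∏ w ∈ S, ‖BF k w z‖ ^ m w) * g1 := by ring
            _ = ‖f z‖ * ‖f (-z)‖ * _ * g1 := by rw [hkey]
            _ ≤ ‖f z‖ * ‖f (-z)‖ * 1 * g1 :=
                mul_le_mul_of_nonneg_right (mul_le_mul_of_nonneg_left hP1 (by positivity)) hg10.le
            _ ≤ _ := by rw [mul_one]; exact hb
        have hch : Real.cosh z.im = Real.cosh R := by
          rw [← Real.cosh_abs, h3]
        rw [hch]
        have h6 : Real.cos a * Real.cosh R ≤ Real.cos z.re * Real.cosh R :=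
          mul_le_mul_of_nonneg_right (hcosz z h1) (Real.cosh_pos _).le
        have he : Real.exp (-(lam * (Real.cos z.re * Real.cosh R))) ≤
            Real.exp (-(lam * (Real.cos a * Real.cosh R))) := by
          apply Real.exp_le_exp.2
          have := mul_le_mul_of_nonneg_left h6 hlam
          linarith
        calc ‖UU k a P S m g h z‖ * Real.exp (-(lam * (Real.cos z.re * Real.cosh R))) * g1 =
              ‖UU k a P S m g h z‖ * g1 * Real.exp (-(lam * (Real.cos z.re * Real.cosh R))) := by ring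
          _ ≤ ‖UU k a P S m g h z‖ * g1 * Real.exp (-(lam * (Real.cos a * Real.cosh R))) :=
              mul_le_mul_of_nonneg_left he (mul_nonneg hU0 hg10.le)
          _ ≤ W * Real.exp (-(lam * (Real.cos a * Real.cosh R))) :=
              mul_le_mul_of_nonneg_right hU (Real.exp_pos _).le
          _ ≤ V * Real.exp (lam * (Real.cos a * Real.cosh R)) *
              Real.exp (-(lam * (Real.cos a * Real.cosh R))) :=
              mul_le_mul_of_nonneg_right hl (Real.exp_pos _).le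
          _ = V := by rw [mul_assoc, ← Real.exp_add]; simp
    · rw [hcl, mem_reProdIm]
      simp only [zero_re, zero_im, mem_Icc]
      refine ⟨⟨by linarith, by linarith⟩, by linarith, by linarith⟩
  have hU0 : ‖UU k a P S m g h 0‖ ≤ V * Real.exp lam := by
    simp only [hF] at hmax
    rw [norm_mul, norm_mul, hnexp, hgexp] at hmax
    simp only [zero_re, zero_im, Real.cos_zero, Real.cosh_zero, mul_one, ne_eq, OfNat.ofNat_ne_zero,
      not_false_eq_true, zero_pow, sub_zero, mul_zero, Real.exp_zero] at hmax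
    calc ‖UU k a P S m g h 0‖ = ‖UU k a P S m g h 0‖ * Real.exp (-lam) * Real.exp lam := by
          rw [mul_assoc, ← Real.exp_add]; simp
      _ ≤ V * Real.exp lam := mul_le_mul_of_nonneg_right hmax (Real.exp_pos _).le
  have hkey := H.key (z := 0) (by simpa using ha0.le) (by simpa using hR.le)
  rw [neg_zero] at hkey
  have e1 : ‖D1 a f 0‖ = ‖f (2 * a)‖ ^ 4 := by
    rw [norm_D1]
    simp only [map_zero, add_zero, sub_zero]
    ring
  have e2 : ∏ w ∈ P, (‖BF k (w - 2 * a) 0‖ * ‖BF k (conj (w - 2 * a)) 0‖) ^ m w =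
      ∏ w ∈ P, (‖BF k (w - 2 * a) 0‖ ^ 2) ^ m w := by
    refine Finset.prod_congr rfl fun w _ => ?_
    rw [BF_conj, sq]
  rw [e1, e2] at hkey
  have e3 : ‖f 0‖ * ‖f 0‖ = ‖f 0‖ ^ 2 := (sq _).symm
  rw [e3] at hkey
  rw [← hkey]
  have hS0 : 0 ≤ ∏ w ∈ S, ‖BF k w 0‖ ^ m w := Finset.prod_nonneg fun w _ => by positivity
  refine mul_le_mul_of_nonneg_right ?_ hS0
  exact mul_le_mul_of_nonneg_right hU0 (by positivity)

open Pool.Agent.W169.HF (UD)

variable {K ϑ ℓ : ℝ} {f : ℂ → ℂ}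

lemma UD.diff (H : UD K ϑ ℓ 1 f) : Differentiable ℂ f := H.slow.1

/-- bounds in a disc of radius `9/4` about `3/2 + i τ` -/
lemma UD.disc (hK : 0 ≤ K) (h0 : 0 ≤ ϑ) (h1 : ϑ ≤ 3 / 2) (H : UD K ϑ ℓ 1 f) (τ : ℝ) :
    ∃ M : ℝ, 1 ≤ M ∧ (∀ z ∈ closedBall (⟨3 / 2, τ⟩ : ℂ) (9 / 4), ‖f z‖ ≤ M) ∧
      Real.exp (-(6 * (|ℓ| + K * (|τ| + 4) ^ 2))) ≤ ‖f ⟨3 / 2, τ⟩‖ ∧
      Real.log (M / ‖f ⟨3 / 2, τ⟩‖) ≤ 6 * (|ℓ| + K * (|τ| + 4) ^ 2) := by
  have hτ := abs_nonneg τ
  have hℓ := abs_nonneg ℓ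
  have hlo : Real.exp (-(3 / 2 * |ℓ| + K * (|τ| + 4) ^ 2)) ≤ ‖f ⟨3 / 2, τ⟩‖ := by
    have h2 := H.lo ⟨3 / 2, τ⟩ h1
    rw [one_mul] at h2
    refine le_trans (Real.exp_le_exp.2 ?_) h2
    have h3 : ‖(⟨3 / 2, τ⟩ : ℂ)‖ ^ 2 = 9 / 4 + τ ^ 2 := by
      rw [← Complex.normSq_eq_norm_sq, Complex.normSq_apply]; ring
    have h4 : 1 + ‖(⟨3 / 2, τ⟩ : ℂ)‖ ^ 2 ≤ (|τ| + 4) ^ 2 := by
      rw [h3, ← sq_abs τ]; nlinarith
    have h5 := mul_le_mul_of_nonneg_left h4 hK
    have h6 := neg_abs_le ℓ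
    simp only
    nlinarith
  refine ⟨Real.exp (15 / 4 * |ℓ| + K * (|τ| + 7) ^ 2), Real.one_le_exp (by positivity), ?_, ?_, ?_⟩
  · intro z hz
    rw [mem_closedBall, dist_eq_norm] at hz
    have h2 := (Complex.abs_re_le_norm (z - ⟨3 / 2, τ⟩)).trans hz
    have h3 := (Complex.abs_im_le_norm (z - ⟨3 / 2, τ⟩)).trans hz
    simp only [Complex.sub_re, Complex.sub_im] at h2 h3
    have h4 := H.up z
    rw [one_mul] at h4
    refine h4.trans (Real.exp_le_exp.2 ?_)
    have h5 := abs_le.1 h2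
    have h6 : |z.re| ≤ 15 / 4 := by rw [abs_le]; constructor <;> linarith [h5.1, h5.2]
    have h7 : |z.im| ≤ |τ| + 9 / 4 := by
      have := abs_sub_abs_le_abs_sub z.im τ
      linarith
    have h8 : ‖z‖ ^ 2 ≤ (15 / 4) ^ 2 + (|τ| + 9 / 4) ^ 2 := by
      rw [← Complex.normSq_eq_norm_sq, Complex.normSq_apply, ← sq, ← sq]
      have h9 := sq_le_sq' (by linarith [abs_nonneg z.re]) h6
      have h10 : z.im ^ 2 ≤ (|τ| + 9 / 4) ^ 2 := by
        rw [← sq_abs z.im]
        exact pow_le_pow_left₀ (abs_nonneg _) h7 2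
      rw [sq_abs] at h9
      linarith
    have h9 : 1 + ‖z‖ ^ 2 ≤ (|τ| + 7) ^ 2 := by nlinarith
    have h10 := mul_le_mul_of_nonneg_left h9 hK
    have h11 : ℓ * max |z.re| ϑ ≤ 15 / 4 * |ℓ| := by
      have h12 : max |z.re| ϑ ≤ 15 / 4 := max_le h6 (by linarith)
      have h13 : 0 ≤ max |z.re| ϑ := le_max_of_le_left (abs_nonneg _)
      calc ℓ * max |z.re| ϑ ≤ |ℓ| * max |z.re| ϑ := mul_le_mul_of_nonneg_right (le_abs_self ℓ) h13
        _ ≤ |ℓ| * (15 / 4) := mul_le_mul_of_nonneg_left h12 hℓ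
        _ = _ := by ring
    linarith
  · refine le_trans (Real.exp_le_exp.2 ?_) hlo
    have : 0 ≤ K * (|τ| + 4) ^ 2 := by positivity
    nlinarith
  · have hLp : 0 < ‖f ⟨3 / 2, τ⟩‖ := lt_of_lt_of_le (Real.exp_pos _) hlo
    rw [Real.log_div (Real.exp_pos _).ne' hLp.ne', Real.log_exp]
    have h8 := Real.log_le_log (Real.exp_pos _) hlo
    rw [Real.log_exp] at h8
    have h9 : (|τ| + 7) ^ 2 ≤ 4 * (|τ| + 4) ^ 2 := by nlinarith
    have h10 := mul_le_mul_of_nonneg_left h9 hK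
    have h11 : 0 ≤ K * (|τ| + 4) ^ 2 := by positivity
    nlinarith

end Pool.Agent.X102.SZ
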