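import Mathlib
import Pool.Agent.X102.SZ5

/-!
Bounds on the sides of the rectangle.
-/

set_option autoImplicit false
open Set Filter Topology Metric
open scoped ComplexConjugate

namespace Pool.Agent.X102.SZ

variable {ι : Type*} {L : ι → ℂ → ℂ} {X Q : ι → ℝ → ℝ}

/-- the function centred at `1/2 + i t` -/
noncomputable def sh (L : ι → ℂ → ℂ) (i : ι) (t : ℝ) (z : ℂ) : ℂ := L i (⟨1 / 2, t⟩ + z)

lemma sh_mk (L : ι → ℂ → ℂ) (i : ι) (t : ℝ) (z : ℂ) : sh L i t z = L i ⟨1 / 2 + z.re, t + z.im⟩ := by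
  unfold sh
  congr 1

lemma sh_diff (H : FamL L X Q) (i : ι) (t : ℝ) : Differentiable ℂ (sh L i t) := by
  unfold sh
  exact (H.f2.diff i).comp (by fun_prop)

/-- good heights, all `σ ≥ 3/4` -/
theorem FamL.height2 (H : FamL L X Q) : ∃ A : ℝ, 0 ≤ A ∧ ∀ (i : ι) (t Y : ℝ), 0 ≤ Y →
    ∃ R ∈ Icc Y (Y + 1), ∀ σ : ℝ, 3 / 4 ≤ σ →
      Real.exp (-(A * (1 + Real.log (X i t) + Real.log (2 + Y)))) ≤ ‖L i ⟨σ, t + R⟩‖ ∧
      Real.exp (-(A * (1 + Real.log (X i t) + Real.log (2 + Y)))) ≤ ‖L i ⟨σ, t - R⟩‖ := by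
  obtain ⟨A, hA, h⟩ := H.height
  obtain ⟨m, hm, hX⟩ := H.Xlog
  obtain ⟨b, hb, hlow⟩ := H.low 1 one_pos
  refine ⟨A + |Real.log b| + 1 + m, by positivity, fun i t Y hY => ?_⟩
  obtain ⟨R, hR, hR2⟩ := h i t Y hY
  have hlX := H.lX0 i t
  have hlY : 0 ≤ Real.log (2 + Y) := Real.log_nonneg (by linarith)
  have hΞ0 : 0 ≤ 1 + Real.log (X i t) + Real.log (2 + Y) := by positivity
  have hR0 : 0 ≤ R := hY.trans hR.1
  refine ⟨R, hR, fun σ hσ => ?_⟩
  rcases le_or_gt σ 2 with h2 | h2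
  · obtain ⟨c1, c2⟩ := hR2 σ hσ h2
    have hle : Real.exp (-((A + |Real.log b| + 1 + m) * (1 + Real.log (X i t) + Real.log (2 + Y)))) ≤
        Real.exp (-(A * (1 + Real.log (X i t) + Real.log (2 + Y)))) := by
      refine Real.exp_le_exp.2 (neg_le_neg ?_)
      refine mul_le_mul_of_nonneg_right ?_ hΞ0
      have := abs_nonneg (Real.log b)
      linarith
    exact ⟨hle.trans c1, hle.trans c2⟩
  · have key : ∀ u : ℝ, |u| = R →
        Real.exp (-((A + |Real.log b| + 1 + m) * (1 + Real.log (X i t) + Real.log (2 + Y)))) ≤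
          ‖L i ⟨σ, t + u⟩‖ := by
      intro u hu
      have h1 := hlow i ⟨σ, t + u⟩ (by simp only; linarith)
      refine le_trans ?_ h1
      have hXu := H.f2.X1 i (t + u)
      have e1 : X i (t + u) ^ (-1 : ℝ) = Real.exp (-Real.log (X i (t + u))) := by
        rw [Real.rpow_neg_one, Real.exp_neg, Real.exp_log (by linarith)]
      simp only
      rw [e1]
      have h3 : Real.exp (-|Real.log b|) ≤ b := by
        calc Real.exp (-|Real.log b|) ≤ Real.exp (Real.log b) := Real.exp_le_exp.2 (neg_abs_le _)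
          _ = b := Real.exp_log hb
      have h4 := hX i t u
      rw [hu] at h4
      have h5 : Real.log (1 + R) ≤ Real.log (2 + Y) :=
        Real.log_le_log (by linarith) (by linarith [hR.2])
      have h6 := mul_le_mul_of_nonneg_left h5 hm
      calc Real.exp (-((A + |Real.log b| + 1 + m) * (1 + Real.log (X i t) + Real.log (2 + Y)))) ≤
            Real.exp (-|Real.log b| + -Real.log (X i (t + u))) := by
            refine Real.exp_le_exp.2 ?_
            have h7 : 0 ≤ |Real.log b| * (Real.log (X i t) + Real.log (2 + Y)) := by positivity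
            have h8 : 0 ≤ A * (1 + Real.log (X i t) + Real.log (2 + Y)) := by positivity
            have h9 : 0 ≤ m * (1 + Real.log (X i t)) := by positivity
            nlinarith
        _ = Real.exp (-|Real.log b|) * Real.exp (-Real.log (X i (t + u))) := Real.exp_add _ _
        _ ≤ _ := mul_le_mul_of_nonneg_right h3 (Real.exp_pos _).le
    refine ⟨key R (abs_of_nonneg hR0), ?_⟩
    have := key (-R) (by rw [abs_neg, abs_of_nonneg hR0])
    rwa [← sub_eq_add_neg] at this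

/-- **the horizontal sides** -/
theorem FamL.hor (H : FamL L X Q) : ∃ A : ℝ, 0 ≤ A ∧ ∀ (i : ι) (t Y : ℝ), 0 ≤ Y →
    ∃ R ∈ Icc Y (Y + 1),
      (∀ w : ℂ, 1 / 4 ≤ w.re → |w.im| = R → sh L i t w ≠ 0) ∧
      ∀ a : ℝ, 1 / 4 ≤ a → a ≤ 3 / 4 → ∀ z : ℂ, |z.re| ≤ a → |z.im| = R →
      Real.exp (-(A * (1 + Real.log (X i t) + Real.log (2 + Y)))) ≤ ‖D1 a (sh L i t) z‖ ∧
      ‖sh L i t z‖ * ‖sh L i t (-z)‖ ≤
        Real.exp (A * (1 + Real.log (X i t) + Real.log (2 + Y))) := by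
  obtain ⟨A, hA, h⟩ := H.height2
  obtain ⟨m, hm, hX⟩ := H.Xlog
  obtain ⟨A2, hA2, hup⟩ := H.up
  refine ⟨4 * A + 2 * (A2 * (1 + m)), by positivity, fun i t Y hY => ?_⟩
  obtain ⟨R, hR, hR2⟩ := h i t Y hY
  have hlX := H.lX0 i t
  have hlY : 0 ≤ Real.log (2 + Y) := Real.log_nonneg (by linarith)
  set Ξ : ℝ := 1 + Real.log (X i t) + Real.log (2 + Y) with hΞ
  have hΞ0 : 0 ≤ Ξ := by positivity
  have hR0 : 0 ≤ R := hY.trans hR.1
  have key : ∀ w : ℂ, 1 / 4 ≤ w.re → |w.im| = R → Real.exp (-(A * Ξ)) ≤ ‖sh L i t w‖ := by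
    intro w hw1 hw2
    rw [sh_mk]
    obtain ⟨c1, c2⟩ := hR2 (1 / 2 + w.re) (by linarith)
    rcases eq_or_eq_neg_of_abs_eq hw2 with h | h
    · rw [h]; exact c1
    · rw [h, ← sub_eq_add_neg]; exact c2
  refine ⟨R, hR, fun w hw1 hw2 => norm_pos_iff.1 (lt_of_lt_of_le (Real.exp_pos _) (key w hw1 hw2)),
    fun a ha1 ha2 z hz1 hz2 => ⟨?_, ?_⟩⟩
  · have hz := abs_le.1 hz1
    rw [norm_D1]
    have k1 := key (2 * a + z) (by simp; linarith) (by simpa using hz2)
    have k2 := key (2 * a - z) (by simp; linarith) (by simpa using hz2)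
    have k3 := key (2 * a + conj z) (by simp; linarith) (by simpa using hz2)
    have k4 := key (2 * a - conj z) (by simp; linarith) (by simpa using hz2)
    have he := Real.exp_pos (-(A * Ξ))
    calc Real.exp (-((4 * A + 2 * (A2 * (1 + m))) * Ξ)) ≤ Real.exp (-(4 * (A * Ξ))) := by
          refine Real.exp_le_exp.2 ?_
          have : 0 ≤ 2 * (A2 * (1 + m)) * Ξ := by positivity
          nlinarith
      _ = Real.exp (-(A * Ξ)) * Real.exp (-(A * Ξ)) * (Real.exp (-(A * Ξ)) * Real.exp (-(A * Ξ))) := by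
          rw [← Real.exp_add, ← Real.exp_add]; congr 1; ring
      _ ≤ _ := by gcongr
  · have hz := abs_le.1 hz1
    have kup : ∀ w : ℂ, -3 / 4 ≤ w.re → |w.im| = R → ‖sh L i t w‖ ≤ Real.exp (A2 * (1 + m) * Ξ) := by
      intro w hw1 hw2
      rw [sh_mk]
      refine (hup i _ (by simp only; linarith)).trans (Real.exp_le_exp.2 ?_)
      simp only
      have h4 := hX i t w.im
      rw [hw2] at h4
      have h5 : Real.log (1 + R) ≤ Real.log (2 + Y) :=
        Real.log_le_log (by linarith) (by linarith [hR.2])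
      have h6 := mul_le_mul_of_nonneg_left h5 hm
      have h7 : 1 + Real.log (X i (t + w.im)) ≤ (1 + m) * Ξ := by
        have h8 : 0 ≤ m * (1 + Real.log (X i t)) := by positivity
        rw [hΞ]; nlinarith
      calc A2 * (1 + Real.log (X i (t + w.im))) ≤ A2 * ((1 + m) * Ξ) :=
            mul_le_mul_of_nonneg_left h7 hA2
        _ = _ := by ring
    have k1 := kup z (by linarith) hz2
    have k2 := kup (-z) (by simp; linarith) (by simpa using hz2)
    calc ‖sh L i t z‖ * ‖sh L i t (-z)‖ ≤ Real.exp (A2 * (1 + m) * Ξ) * Real.exp (A2 * (1 + m) * Ξ) := by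
          gcongr
      _ = Real.exp (2 * (A2 * (1 + m)) * Ξ) := by rw [← Real.exp_add]; congr 1; ring
      _ ≤ _ := Real.exp_le_exp.2 (by
          have : 0 ≤ 4 * A * Ξ := by positivity
          nlinarith)

/-- **the vertical sides** -/
theorem FamL.vert (H : FamL L X Q) {δ Y : ℝ} (hδ : 0 < δ) (hδ1 : δ ≤ 1 / 4) (hY : 0 ≤ Y) :
    ∃ V : ℝ, 1 ≤ V ∧ ∀ (i : ι) (t a : ℝ), 1 / 4 ≤ a → a ≤ 3 / 4 → ∀ z : ℂ, |z.re| = a → |z.im| ≤ Y →
      ‖sh L i t z‖ * ‖sh L i t (-z)‖ ≤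
        V * (Q i t ^ a * X i t ^ (2 * δ)) * ‖D1 a (sh L i t) z‖ := by
  obtain ⟨mX, hmX, hXs⟩ := H.f2.Xs
  obtain ⟨mQ, hmQ, hQs⟩ := H.f2.Qs
  obtain ⟨C, hC, hrefl⟩ := H.f2.refl
  obtain ⟨b, hb, hlow⟩ := H.low δ hδ
  set G : ℝ := (1 + Y) ^ mQ with hG
  set K : ℝ := (1 + Y) ^ mX with hK
  have hG1 : 1 ≤ G := Real.one_le_rpow (by linarith) hmQ
  have hK1 : 1 ≤ K := Real.one_le_rpow (by linarith) hmX
  refine ⟨max 1 (C * G * (b⁻¹ * K) ^ 2), le_max_left _ _, fun i t a ha1 ha2 z hz1 hz2 => ?_⟩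
  have hX1 := H.f2.X1 i t
  have hQ1 := H.f2.Q1 i t
  -- reflection
  have href : ∀ y : ℝ, |y| ≤ Y → ‖L i ⟨1 / 2 - a, t + y⟩‖ ≤
      C * (G * Q i t ^ a) * ‖L i ⟨1 / 2 + a, t + y⟩‖ := by
    intro y hy
    refine (hrefl i a (t + y) (by linarith) ha2).trans ?_
    refine mul_le_mul_of_nonneg_right (mul_le_mul_of_nonneg_left ?_ hC) (norm_nonneg _)
    have h1 := hQs i t y
    have h0 := H.f2.Q1 i (t + y)
    calc Q i (t + y) ^ a ≤ ((1 + |y|) ^ mQ * Q i t) ^ a :=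
          Real.rpow_le_rpow (by linarith) h1 (by linarith)
      _ ≤ (G * Q i t) ^ a := by
          refine Real.rpow_le_rpow (by positivity) ?_ (by linarith)
          refine mul_le_mul_of_nonneg_right ?_ (by linarith)
          exact Real.rpow_le_rpow (by positivity) (by linarith) hmQ
      _ = G ^ a * Q i t ^ a := Real.mul_rpow (by linarith) (by linarith)
      _ ≤ G * Q i t ^ a := by
          refine mul_le_mul_of_nonneg_right ?_ (by positivity)
          calc G ^ a ≤ G ^ (1:ℝ) := Real.rpow_le_rpow_of_exponent_le hG1 (by linarith)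
            _ = G := Real.rpow_one _
  -- lower bound
  have hlo : ∀ y : ℝ, |y| ≤ Y → 1 ≤ b⁻¹ * K * X i t ^ δ * ‖L i ⟨1 / 2 + 3 * a, t + y⟩‖ := by
    intro y hy
    have h1 := hlow i ⟨1 / 2 + 3 * a, t + y⟩ (by simp only; linarith)
    simp only at h1
    have h0 := H.f2.X1 i (t + y)
    have h2 : X i (t + y) ^ δ ≤ K * X i t ^ δ := by
      calc X i (t + y) ^ δ ≤ ((1 + |y|) ^ mX * X i t) ^ δ :=
            Real.rpow_le_rpow (by linarith) (hXs i t y) hδ.le
        _ ≤ (K * X i t) ^ δ := by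
            refine Real.rpow_le_rpow (by positivity) ?_ hδ.le
            refine mul_le_mul_of_nonneg_right ?_ (by linarith)
            exact Real.rpow_le_rpow (by positivity) (by linarith) hmX
        _ = K ^ δ * X i t ^ δ := Real.mul_rpow (by linarith) (by linarith)
        _ ≤ K * X i t ^ δ := by
            refine mul_le_mul_of_nonneg_right ?_ (by positivity)
            calc K ^ δ ≤ K ^ (1:ℝ) := Real.rpow_le_rpow_of_exponent_le hK1 (by linarith)
              _ = K := Real.rpow_one _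
    have hp : 0 < X i (t + y) ^ δ := by positivity
    have h3 : 1 ≤ b⁻¹ * X i (t + y) ^ δ * ‖L i ⟨1 / 2 + 3 * a, t + y⟩‖ := by
      calc 1 = b⁻¹ * X i (t + y) ^ δ * (b * X i (t + y) ^ (-δ)) := by
            rw [Real.rpow_neg (by linarith)]
            field_simp
        _ ≤ _ := mul_le_mul_of_nonneg_left h1 (by positivity)
    refine h3.trans ?_
    refine mul_le_mul_of_nonneg_right ?_ (norm_nonneg _)
    calc b⁻¹ * X i (t + y) ^ δ ≤ b⁻¹ * (K * X i t ^ δ) := mul_le_mul_of_nonneg_left h2 (by positivity)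
      _ = _ := by ring
  -- the general computation
  have hgen : ∀ y : ℝ, |y| ≤ Y →
      ‖L i ⟨1 / 2 + a, t - y⟩‖ * ‖L i ⟨1 / 2 - a, t + y⟩‖ ≤
      max 1 (C * G * (b⁻¹ * K) ^ 2) * (Q i t ^ a * X i t ^ (2 * δ)) *
        (‖L i ⟨1 / 2 + a, t - y⟩‖ * ‖L i ⟨1 / 2 + a, t + y⟩‖ *
          (‖L i ⟨1 / 2 + 3 * a, t - y⟩‖ * ‖L i ⟨1 / 2 + 3 * a, t + y⟩‖)) := by
    intro y hy
    have r1 := href y hy
    have l1 := hlo y hy
    have l2 := hlo (-y) (by rwa [abs_neg])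
    rw [← sub_eq_add_neg] at l2
    have hXδ : X i t ^ (2 * δ) = X i t ^ δ * X i t ^ δ := by
      rw [← Real.rpow_add (by linarith)]; congr 1; ring
    have hprod : 1 ≤ (b⁻¹ * K * X i t ^ δ * ‖L i ⟨1 / 2 + 3 * a, t + y⟩‖) *
        (b⁻¹ * K * X i t ^ δ * ‖L i ⟨1 / 2 + 3 * a, t - y⟩‖) := one_le_mul_of_one_le_of_one_le l1 l2
    have hnn : 0 ≤ ‖L i ⟨1 / 2 + a, t - y⟩‖ * (C * (G * Q i t ^ a) * ‖L i ⟨1 / 2 + a, t + y⟩‖) := by
      positivity
    calc ‖L i ⟨1 / 2 + a, t - y⟩‖ * ‖L i ⟨1 / 2 - a, t + y⟩‖ ≤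
          ‖L i ⟨1 / 2 + a, t - y⟩‖ * (C * (G * Q i t ^ a) * ‖L i ⟨1 / 2 + a, t + y⟩‖) :=
          mul_le_mul_of_nonneg_left r1 (norm_nonneg _)
      _ ≤ ‖L i ⟨1 / 2 + a, t - y⟩‖ * (C * (G * Q i t ^ a) * ‖L i ⟨1 / 2 + a, t + y⟩‖) *
          ((b⁻¹ * K * X i t ^ δ * ‖L i ⟨1 / 2 + 3 * a, t + y⟩‖) *
          (b⁻¹ * K * X i t ^ δ * ‖L i ⟨1 / 2 + 3 * a, t - y⟩‖)) := le_mul_of_one_le_right hnn hprod
      _ = (C * G * (b⁻¹ * K) ^ 2) * (Q i t ^ a * X i t ^ (2 * δ)) *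
        (‖L i ⟨1 / 2 + a, t - y⟩‖ * ‖L i ⟨1 / 2 + a, t + y⟩‖ *
          (‖L i ⟨1 / 2 + 3 * a, t - y⟩‖ * ‖L i ⟨1 / 2 + 3 * a, t + y⟩‖)) := by
          rw [hXδ]; ring
      _ ≤ _ := by
          refine mul_le_mul_of_nonneg_right ?_ (by positivity)
          refine mul_le_mul_of_nonneg_right (le_max_right _ _) (by positivity)
  have ha0 : 0 ≤ a := by linarith
  rw [norm_D1]
  simp only [sh_mk]
  rcases eq_or_eq_neg_of_abs_eq hz1 with h | h
  · have e1 : ((2 : ℂ) * a + z).re = 3 * a := by simp [h]; ring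
    have e2 : ((2 : ℂ) * a - z).re = a := by simp [h]; ring
    have e3 : ((2 : ℂ) * a + conj z).re = 3 * a := by simp [h]; ring
    have e4 : ((2 : ℂ) * a - conj z).re = a := by simp [h]; ring
    have i1 : ((2 : ℂ) * a + z).im = z.im := by simp
    have i2 : ((2 : ℂ) * a - z).im = -z.im := by simp
    have i3 : ((2 : ℂ) * a + conj z).im = -z.im := by simp
    have i4 : ((2 : ℂ) * a - conj z).im = z.im := by simp
    rw [e1, e2, e3, e4, i1, i2, i3, i4, Complex.neg_re, Complex.neg_im, h]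
    have := hgen (-z.im) (by rwa [abs_neg])
    rw [sub_neg_eq_add] at this
    have e5 : (1 : ℝ) / 2 + -a = 1 / 2 - a := by ring
    rw [e5]
    refine this.trans (le_of_eq ?_)
    ring
  · have e1 : ((2 : ℂ) * a + z).re = a := by simp [h]; ring
    have e2 : ((2 : ℂ) * a - z).re = 3 * a := by simp [h]; ring
    have e3 : ((2 : ℂ) * a + conj z).re = a := by simp [h]; ring
    have e4 : ((2 : ℂ) * a - conj z).re = 3 * a := by simp [h]; ring
    have i1 : ((2 : ℂ) * a + z).im = z.im := by simp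
    have i2 : ((2 : ℂ) * a - z).im = -z.im := by simp
    have i3 : ((2 : ℂ) * a + conj z).im = -z.im := by simp
    have i4 : ((2 : ℂ) * a - conj z).im = z.im := by simp
    rw [e1, e2, e3, e4, i1, i2, i3, i4, Complex.neg_re, Complex.neg_im, h, neg_neg]
    have := hgen z.im hz2
    have e5 : (1 : ℝ) / 2 + -a = 1 / 2 - a := by ring
    rw [e5]
    refine le_trans (le_of_eq ?_) (this.trans (le_of_eq ?_))
    · rw [sub_eq_add_neg t]; ring
    · rw [sub_eq_add_neg t]; ring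

end Pool.Agent.X102.SZ
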