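import Mathlib
import Pool.Agent.X102.SZ6
import Pool.Agent.X102.SY1

/-!
Log-free version: good heights, the number of zeros, the sides of the rectangle, for `UD` data.
-/

set_option autoImplicit false
open Set Filter Topology Metric
open scoped ComplexConjugate

namespace Pool.Agent.X102.SZ

open Pool.Agent.W169.HF (UD)

/-- size parameter -/
noncomputable def Om (K ℓ Y : ℝ) : ℝ := 1 + |ℓ| + K * (Y + 6) ^ 2

lemma Om_pos {K ℓ Y : ℝ} (hK : 0 ≤ K) : 0 < Om K ℓ Y := by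
  unfold Om
  have := abs_nonneg ℓ
  positivity

lemma Om_ge {K ℓ Y τ : ℝ} (hK : 0 ≤ K) (hτ : |τ| ≤ Y + 2) :
    1 + |ℓ| + K * (|τ| + 4) ^ 2 ≤ Om K ℓ Y := by
  unfold Om
  have h1 := abs_nonneg τ
  have : (|τ| + 4) ^ 2 ≤ (Y + 6) ^ 2 := pow_le_pow_left₀ (by linarith) (by linarith) 2
  have := mul_le_mul_of_nonneg_left this hK
  linarith

lemma UD.segm : ∃ A : ℝ, 0 ≤ A ∧ ∀ (K ϑ ℓ : ℝ) (f : ℂ → ℂ), 0 ≤ K → 0 ≤ ϑ → ϑ ≤ 3 / 2 →
    UD K ϑ ℓ 1 f → ∀ τ : ℝ, ∃ s : Multiset ℂ, (∀ ρ ∈ s, |ρ.im - τ| ≤ 3 / 2) ∧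
      (Multiset.card s : ℝ) ≤ A * (1 + |ℓ| + K * (|τ| + 4) ^ 2) ∧
      ∀ z ∈ closedBall (⟨3 / 2, τ⟩ : ℂ) (7 / 5),
        Real.exp (-(A * (1 + |ℓ| + K * (|τ| + 4) ^ 2))) *
          (s.map fun ρ => |z.im - ρ.im|).prod ≤ ‖f z‖ := by
  obtain ⟨K0, hK0, hloc⟩ := loc_lower
  refine ⟨6 + 7 * K0, by positivity, fun K ϑ ℓ f hK h0 h1 H τ => ?_⟩
  obtain ⟨M, hM, hb, hlo, hlog⟩ := UD.disc hK h0 h1 H τ
  set Ξ : ℝ := |ℓ| + K * (|τ| + 4) ^ 2 with hΞ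
  have hΞ0 : 0 ≤ Ξ := by
    have := abs_nonneg ℓ
    positivity
  have e0 : 1 + |ℓ| + K * (|τ| + 4) ^ 2 = 1 + Ξ := by rw [hΞ]; ring
  rw [e0]
  have hfd := UD.diff H
  have hc0 : 0 < ‖f ⟨3 / 2, τ⟩‖ := lt_of_lt_of_le (Real.exp_pos _) hlo
  have hc : f ⟨3 / 2, τ⟩ ≠ 0 := norm_pos_iff.1 hc0
  have hsub : closedBall (⟨3 / 2, τ⟩ : ℂ) 2 ⊆ closedBall ⟨3 / 2, τ⟩ (9 / 4) :=
    closedBall_subset_closedBall (by norm_num)
  obtain ⟨s, hs, hcard, hlow⟩ := hloc f ⟨3 / 2, τ⟩ M hM (fun z _ => hfd.analyticAt z) hc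
    (hb _ (mem_closedBall_self (by norm_num))) fun z hz => hb z (hsub hz)
  refine ⟨s, fun ρ hρ => ?_, hcard.trans ?_, fun z hz => ?_⟩
  · have h1 := hs ρ hρ
    rw [mem_closedBall, dist_eq_norm] at h1
    have h2 := (Complex.abs_im_le_norm (ρ - ⟨3 / 2, τ⟩)).trans h1
    simpa using h2
  · have h1 := mul_le_mul_of_nonneg_left hlog hK0.le
    nlinarith
  · refine le_trans ?_ (hlow z hz)
    have hprod0 : 0 ≤ (s.map fun ρ => |z.im - ρ.im|).prod := by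
      refine Multiset.prod_nonneg ?_
      intro a ha
      obtain ⟨b, _, rfl⟩ := Multiset.mem_map.1 ha
      exact abs_nonneg _
    refine mul_le_mul_of_nonneg_right ?_ hprod0
    calc Real.exp (-((6 + 7 * K0) * (1 + Ξ))) ≤
          Real.exp (-(6 * Ξ) + -(K0 * (Real.log (M / ‖f ⟨3 / 2, τ⟩‖) + 1))) := by
          refine Real.exp_le_exp.2 ?_
          have h1 := mul_le_mul_of_nonneg_left hlog hK0.le
          nlinarith
      _ = Real.exp (-(6 * Ξ)) * Real.exp (-(K0 * (Real.log (M / ‖f ⟨3 / 2, τ⟩‖) + 1))) :=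
          Real.exp_add _ _
      _ ≤ _ := mul_le_mul_of_nonneg_right hlo (Real.exp_pos _).le

/-- **good heights** -/
theorem UD.height : ∃ A : ℝ, 0 ≤ A ∧ ∀ (K ϑ ℓ : ℝ) (f : ℂ → ℂ), 0 ≤ K → 0 ≤ ϑ → ϑ ≤ 3 / 2 →
    UD K ϑ ℓ 1 f → ∀ Y : ℝ, 0 ≤ Y → ∃ R ∈ Icc Y (Y + 1), ∀ w : ℂ, 1 / 4 ≤ w.re → w.re ≤ 9 / 4 →
      |w.im| = R → Real.exp (-(A * Om K ℓ Y)) ≤ ‖f w‖ := by
  obtain ⟨A, hA, hs⟩ := UD.segm
  have hl12 : 0 < Real.log 12 := Real.log_pos (by norm_num)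
  refine ⟨A + 2 * A * Real.log 12, by positivity, fun K ϑ ℓ f hK h0 h1 H Y hY => ?_⟩
  obtain ⟨s1, a1, b1, c1⟩ := hs K ϑ ℓ f hK h0 h1 H (Y + 1 / 2)
  obtain ⟨s2, a2, b2, c2⟩ := hs K ϑ ℓ f hK h0 h1 H (-(Y + 1 / 2))
  have hΞ0 := (Om_pos (ℓ := ℓ) (Y := Y) hK).le
  set Ξ : ℝ := Om K ℓ Y with hΞ
  have hab : |Y + 1 / 2| = Y + 1 / 2 := abs_of_nonneg (by linarith)
  have hX1 : 1 + |ℓ| + K * (|Y + 1 / 2| + 4) ^ 2 ≤ Ξ := Om_ge hK (by rw [hab]; linarith)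
  have hX2 : 1 + |ℓ| + K * (|-(Y + 1 / 2)| + 4) ^ 2 ≤ Ξ := Om_ge hK (by rw [abs_neg, hab]; linarith)
  have hn1 : (Multiset.card s1 : ℝ) ≤ A * Ξ := b1.trans (mul_le_mul_of_nonneg_left hX1 hA)
  have hn2 : (Multiset.card s2 : ℝ) ≤ A * Ξ := b2.trans (mul_le_mul_of_nonneg_left hX2 hA)
  obtain ⟨R, hR, hch⟩ := cheb (s1.map (fun ρ => ρ.im) + s2.map (fun ρ => -ρ.im)) Y
  rw [Multiset.map_add, Multiset.prod_add, Multiset.map_map, Multiset.map_map, Multiset.card_add,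
    Multiset.card_map, Multiset.card_map] at hch
  set n1 := Multiset.card s1 with hn1d
  set n2 := Multiset.card s2 with hn2d
  set p1 := (s1.map ((fun x => |R - x|) ∘ fun ρ : ℂ => ρ.im)).prod with hp1
  set p2 := (s2.map ((fun x => |R - x|) ∘ fun ρ : ℂ => -ρ.im)).prod with hp2
  have hR1 := hR.1
  have hR2 := hR.2
  have hp1u : p1 ≤ 3 ^ n1 := by
    refine prod_le_pow (by norm_num) (fun x _ => abs_nonneg _) fun ρ hρ => ?_
    have h1 := abs_le.1 (a1 ρ hρ)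
    simp only [Function.comp]
    rw [abs_le]
    constructor <;> linarith [h1.1, h1.2]
  have hp2u : p2 ≤ 3 ^ n2 := by
    refine prod_le_pow (by norm_num) (fun x _ => abs_nonneg _) fun ρ hρ => ?_
    have h1 := abs_le.1 (a2 ρ hρ)
    simp only [Function.comp]
    rw [abs_le]
    constructor <;> linarith [h1.1, h1.2]
  have hp10 : 0 ≤ p1 := by
    refine Multiset.prod_nonneg ?_
    intro a ha
    obtain ⟨b, _, rfl⟩ := Multiset.mem_map.1 ha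
    exact abs_nonneg _
  have hp20 : 0 ≤ p2 := by
    refine Multiset.prod_nonneg ?_
    intro a ha
    obtain ⟨b, _, rfl⟩ := Multiset.mem_map.1 ha
    exact abs_nonneg _
  have h12 : ((1 : ℝ) / 12) ^ (n1 + n2) * 3 ^ (n1 + n2) = (1 / 4) ^ (n1 + n2) := by
    rw [← mul_pow]; norm_num
  have hp1l : ((1 : ℝ) / 12) ^ (n1 + n2) ≤ p1 := by
    have h1 : ((1 : ℝ) / 12) ^ (n1 + n2) * 3 ^ (n1 + n2) ≤ p1 * 3 ^ n2 := by
      rw [h12]; exact hch.trans (mul_le_mul_of_nonneg_left hp2u hp10)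
    have h2 : ((1 : ℝ) / 12) ^ (n1 + n2) * 3 ^ n2 ≤ ((1 : ℝ) / 12) ^ (n1 + n2) * 3 ^ (n1 + n2) :=
      mul_le_mul_of_nonneg_left (pow_le_pow_right₀ (by norm_num) (by omega)) (by positivity)
    exact le_of_mul_le_mul_right (h2.trans h1) (by positivity)
  have hp2l : ((1 : ℝ) / 12) ^ (n1 + n2) ≤ p2 := by
    have h1 : ((1 : ℝ) / 12) ^ (n1 + n2) * 3 ^ (n1 + n2) ≤ p2 * 3 ^ n1 := by
      rw [h12, mul_comm p2]; exact hch.trans (mul_le_mul_of_nonneg_right hp1u hp20)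
    have h2 : ((1 : ℝ) / 12) ^ (n1 + n2) * 3 ^ n1 ≤ ((1 : ℝ) / 12) ^ (n1 + n2) * 3 ^ (n1 + n2) :=
      mul_le_mul_of_nonneg_left (pow_le_pow_right₀ (by norm_num) (by omega)) (by positivity)
    exact le_of_mul_le_mul_right (h2.trans h1) (by positivity)
  have h12e : Real.exp (-(2 * A * Real.log 12 * Ξ)) ≤ ((1 : ℝ) / 12) ^ (n1 + n2) := by
    have h3 : ((1 : ℝ) / 12) ^ (n1 + n2) = Real.exp (-((n1 + n2 : ℕ) * Real.log 12)) := by
      rw [← mul_neg, ← Real.log_inv, mul_comm, Real.exp_mul, Real.exp_log (by norm_num),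
        Real.rpow_natCast]
      norm_num
    rw [h3]
    refine Real.exp_le_exp.2 ?_
    push_cast
    have h4 : ((n1 : ℝ) + n2) * Real.log 12 ≤ 2 * A * Ξ * Real.log 12 :=
      mul_le_mul_of_nonneg_right (by linarith) hl12.le
    linarith
  refine ⟨R, hR, fun w hw1 hw2 hw3 => ?_⟩
  rcases eq_or_eq_neg_of_abs_eq hw3 with hw | hw
  · have hz : w ∈ closedBall (⟨3 / 2, Y + 1 / 2⟩ : ℂ) (7 / 5) := by
      rw [mem_closedBall, dist_eq_norm]
      rw [Complex.norm_def]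
      refine Real.sqrt_le_iff.2 ⟨by norm_num, ?_⟩
      rw [Complex.normSq_apply]
      simp only [Complex.sub_re, Complex.sub_im, hw]
      nlinarith
    refine le_trans ?_ (c1 _ hz)
    have e1 : (s1.map fun ρ => |w.im - ρ.im|).prod = p1 := by
      rw [hp1]
      congr 1
      refine Multiset.map_congr rfl fun ρ _ => ?_
      simp only [Function.comp, hw]
    rw [e1]
    calc Real.exp (-((A + 2 * A * Real.log 12) * Ξ)) =
          Real.exp (-(A * Ξ)) * Real.exp (-(2 * A * Real.log 12 * Ξ)) := by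
          rw [← Real.exp_add]; congr 1; ring
      _ ≤ _ := mul_le_mul (Real.exp_le_exp.2 (neg_le_neg (mul_le_mul_of_nonneg_left hX1 hA)))
            (h12e.trans hp1l) (Real.exp_pos _).le (Real.exp_pos _).le
  · have hz : w ∈ closedBall (⟨3 / 2, -(Y + 1 / 2)⟩ : ℂ) (7 / 5) := by
      rw [mem_closedBall, dist_eq_norm]
      rw [Complex.norm_def]
      refine Real.sqrt_le_iff.2 ⟨by norm_num, ?_⟩
      rw [Complex.normSq_apply]
      simp only [Complex.sub_re, Complex.sub_im, hw]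
      nlinarith
    refine le_trans ?_ (c2 _ hz)
    have e1 : (s2.map fun ρ => |w.im - ρ.im|).prod = p2 := by
      rw [hp2]
      congr 1
      refine Multiset.map_congr rfl fun ρ _ => ?_
      simp only [Function.comp, hw]
      rw [← abs_neg]
      congr 1
      ring
    rw [e1]
    calc Real.exp (-((A + 2 * A * Real.log 12) * Ξ)) =
          Real.exp (-(A * Ξ)) * Real.exp (-(2 * A * Real.log 12 * Ξ)) := by
          rw [← Real.exp_add]; congr 1; ring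
      _ ≤ _ := mul_le_mul (Real.exp_le_exp.2 (neg_le_neg (mul_le_mul_of_nonneg_left hX2 hA)))
            (h12e.trans hp2l) (Real.exp_pos _).le (Real.exp_pos _).le

/-- **the number of zeros in a box** -/
theorem UD.count : ∃ A : ℝ, 0 ≤ A ∧ ∀ (K ϑ ℓ : ℝ) (f : ℂ → ℂ), 0 ≤ K → 0 ≤ ϑ → ϑ ≤ 3 / 2 →
    UD K ϑ ℓ 1 f → (∀ w : ℂ, 1 / 2 < w.re → f w ≠ 0) → ∀ h : ℝ, 0 ≤ h →
    ∀ S : Finset ℂ, (∀ s ∈ S, -1 / 2 ≤ s.re ∧ |s.im| ≤ h) →
      ∑ s ∈ S, (analyticOrderNatAt f s : ℝ) ≤ A * (1 + h) * Om K ℓ h := by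
  classical
  have hlq : 0 < Real.log (9 / 4 / (21 / 10)) := Real.log_pos (by norm_num)
  set q : ℝ := (Real.log (9 / 4 / (21 / 10)))⁻¹ with hq
  have hq0 : 0 < q := inv_pos.2 hlq
  refine ⟨2 * (q * 6), by positivity, fun K ϑ ℓ f hK h0 h1 H hne h hh S hS => ?_⟩
  have hfd := UD.diff H
  have hΞ0 := (Om_pos (ℓ := ℓ) (Y := h) hK).le
  set Ξ : ℝ := Om K ℓ h with hΞ
  -- one box
  have hbox : ∀ j : ℤ, j ∈ Finset.Icc ⌊-h⌋ ⌊h⌋ →
      ∑ s ∈ S.filter (fun s => ⌊s.im⌋ = j), (analyticOrderNatAt f s : ℝ) ≤ q * 6 * Ξ := by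
    intro j hj
    set τ : ℝ := j + 1 / 2 with hτ
    obtain ⟨M, hM, hb, hlo, hlog⟩ := UD.disc hK h0 h1 H τ
    have hj1 : -h - 1 < (j : ℝ) := by
      have h1 := (Finset.mem_Icc.1 hj).1
      have h2 := Int.sub_one_lt_floor (-h)
      have h3 : ((⌊-h⌋ : ℤ) : ℝ) ≤ j := by exact_mod_cast h1
      linarith
    have hj2 : (j : ℝ) ≤ h := by
      have h1 := (Finset.mem_Icc.1 hj).2
      have h2 := Int.floor_le h
      have h3 : (j : ℝ) ≤ ((⌊h⌋ : ℤ) : ℝ) := by exact_mod_cast h1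
      linarith
    have hX1 : 1 + |ℓ| + K * (|τ| + 4) ^ 2 ≤ Ξ :=
      Om_ge hK (by rw [hτ, abs_le]; constructor <;> linarith)
    set S' := (S.filter (fun s => ⌊s.im⌋ = j)).filter (fun s => f s = 0) with hS'
    have hsum : ∑ s ∈ S.filter (fun s => ⌊s.im⌋ = j), (analyticOrderNatAt f s : ℝ) =
        ∑ s ∈ S', (analyticOrderNatAt f s : ℝ) := by
      symm
      rw [hS', Finset.sum_filter]
      refine Finset.sum_congr rfl fun s _ => ?_
      split_ifs with h0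
      · rfl
      · have : analyticOrderAt f s = 0 := (hfd.analyticAt s).analyticOrderAt_eq_zero.2 h0
        unfold analyticOrderNatAt
        rw [this]
        simp
    rw [hsum]
    have hc : f ⟨3 / 2, τ⟩ ≠ 0 := norm_pos_iff.1 (lt_of_lt_of_le (Real.exp_pos _) hlo)
    have hj := H370.Loc.jensen_mult (r := 21 / 10) (R := 9 / 4) (by norm_num) (by norm_num) hM
      (fun z _ => hfd.analyticAt z) hc hb S' (by
        intro s hs
        rw [hS', Finset.mem_filter, Finset.mem_filter] at hs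
        obtain ⟨⟨h1, h2⟩, h3⟩ := hs
        have h4 := (hS s h1).1
        have h5 : s.re ≤ 1 / 2 := by
          by_contra hc
          push Not at hc
          exact hne s hc h3
        have h6 := Int.floor_le (s.im)
        have h7 := Int.lt_floor_add_one (s.im)
        rw [h2] at h6 h7
        rw [mem_closedBall, dist_eq_norm, Complex.norm_def]
        refine Real.sqrt_le_iff.2 ⟨by norm_num, ?_⟩
        rw [Complex.normSq_apply]
        simp only [Complex.sub_re, Complex.sub_im]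
        have h8 : |s.im - τ| ≤ 1 / 2 := by rw [abs_le, hτ]; constructor <;> linarith
        have h9 := sq_le_sq' (abs_le.1 h8).1 (abs_le.1 h8).2
        nlinarith)
    have hj' : ∑ s ∈ S', (analyticOrderNatAt f s : ℝ) ≤
        Real.log (M / ‖f ⟨3 / 2, τ⟩‖) / Real.log (9 / 4 / (21 / 10)) := hj
    refine hj'.trans ?_
    rw [div_eq_inv_mul, ← hq]
    calc q * Real.log (M / ‖f ⟨3 / 2, τ⟩‖) ≤ q * (6 * (|ℓ| + K * (|τ| + 4) ^ 2)) :=
          mul_le_mul_of_nonneg_left hlog hq0.le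
      _ ≤ q * (6 * Ξ) := by
          refine mul_le_mul_of_nonneg_left ?_ hq0.le
          linarith
      _ = _ := by ring
  have hmaps : ∀ s ∈ S, ⌊s.im⌋ ∈ Finset.Icc ⌊-h⌋ ⌊h⌋ := by
    intro s hs
    have h1 := abs_le.1 (hS s hs).2
    exact Finset.mem_Icc.2 ⟨Int.floor_le_floor h1.1, Int.floor_le_floor h1.2⟩
  rw [← Finset.sum_fiberwise_of_maps_to (s := S) (t := Finset.Icc ⌊-h⌋ ⌊h⌋)
    (g := fun s => ⌊s.im⌋) hmaps]
  refine (Finset.sum_le_sum hbox).trans ?_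
  rw [Finset.sum_const, nsmul_eq_mul, Int.card_Icc]
  have hcard : (((⌊h⌋ + 1 - ⌊-h⌋).toNat : ℕ) : ℝ) ≤ 2 * (1 + h) := by
    have h1 := Int.floor_le h
    have h2 := Int.sub_one_lt_floor (-h)
    have h3 : 0 ≤ ⌊h⌋ + 1 - ⌊-h⌋ := by
      have : ⌊-h⌋ ≤ ⌊h⌋ := Int.floor_le_floor (by linarith)
      omega
    have h4 : (((⌊h⌋ + 1 - ⌊-h⌋).toNat : ℕ) : ℝ) = ((⌊h⌋ + 1 - ⌊-h⌋ : ℤ) : ℝ) := by
      exact_mod_cast congrArg (fun x : ℤ => (x : ℝ)) (Int.toNat_of_nonneg h3)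
    rw [h4]
    push_cast
    linarith
  calc (((⌊h⌋ + 1 - ⌊-h⌋).toNat : ℕ) : ℝ) * (q * 6 * Ξ) ≤
        2 * (1 + h) * (q * 6 * Ξ) := mul_le_mul_of_nonneg_right hcard (by positivity)
    _ = _ := by ring

/-- **the horizontal sides** -/
theorem UD.hor : ∃ A : ℝ, 0 ≤ A ∧ ∀ (K ϑ ℓ : ℝ) (f : ℂ → ℂ), 0 ≤ K → 0 ≤ ϑ → ϑ ≤ 3 / 2 →
    UD K ϑ ℓ 1 f → ∀ Y : ℝ, 0 ≤ Y → ∃ R ∈ Icc Y (Y + 1),
      ∀ b : ℝ, 1 / 4 ≤ b → b ≤ 3 / 4 → ∀ z : ℂ, |z.re| ≤ b → |z.im| = R →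
      Real.exp (-(A * Om K ℓ Y)) ≤ ‖D1 b f z‖ ∧
      ‖f z‖ * ‖f (-z)‖ * Real.exp (2 * K * (z.re ^ 2 - z.im ^ 2)) ≤ Real.exp (A * Om K ℓ Y) := by
  obtain ⟨A, hA, h⟩ := UD.height
  refine ⟨4 * A + 8, by positivity, fun K ϑ ℓ f hK h0 h1 H Y hY => ?_⟩
  obtain ⟨R, hR, hR2⟩ := h K ϑ ℓ f hK h0 h1 H Y hY
  have hΞ0 := (Om_pos (ℓ := ℓ) (Y := Y) hK).le
  have hΞd : Om K ℓ Y = 1 + |ℓ| + K * (Y + 6) ^ 2 := rfl
  set Ξ : ℝ := Om K ℓ Y with hΞ
  have hR0 : 0 ≤ R := hY.trans hR.1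
  have hℓ := abs_nonneg ℓ
  refine ⟨R, hR, fun a ha1 ha2 z hz1 hz2 => ⟨?_, ?_⟩⟩
  · have hz := abs_le.1 hz1
    rw [norm_D1]
    have k1 := hR2 (2 * a + z) (by simp; linarith) (by simp; linarith) (by simpa using hz2)
    have k2 := hR2 (2 * a - z) (by simp; linarith) (by simp; linarith) (by simpa using hz2)
    have k3 := hR2 (2 * a + conj z) (by simp; linarith) (by simp; linarith) (by simpa using hz2)
    have k4 := hR2 (2 * a - conj z) (by simp; linarith) (by simp; linarith) (by simpa using hz2)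
    have he := Real.exp_pos (-(A * Ξ))
    calc Real.exp (-((4 * A + 8) * Ξ)) ≤ Real.exp (-(4 * (A * Ξ))) := by
          refine Real.exp_le_exp.2 ?_
          nlinarith
      _ = Real.exp (-(A * Ξ)) * Real.exp (-(A * Ξ)) * (Real.exp (-(A * Ξ)) * Real.exp (-(A * Ξ))) := by
          rw [← Real.exp_add, ← Real.exp_add]; congr 1; ring
      _ ≤ _ := by gcongr
  · have kup : ∀ w : ℂ, |w.re| ≤ 3 / 4 → |w.im| = R → ‖f w‖ ≤ Real.exp (2 * Ξ) := by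
      intro w hw1 hw2
      have h2 := H.up w
      rw [one_mul] at h2
      refine h2.trans (Real.exp_le_exp.2 ?_)
      have h3 : ℓ * max |w.re| ϑ ≤ 2 * |ℓ| := by
        have h4 : max |w.re| ϑ ≤ 2 := max_le (by linarith) (by linarith)
        have h5 : 0 ≤ max |w.re| ϑ := le_max_of_le_left (abs_nonneg _)
        calc ℓ * max |w.re| ϑ ≤ |ℓ| * max |w.re| ϑ := mul_le_mul_of_nonneg_right (le_abs_self ℓ) h5
          _ ≤ |ℓ| * 2 := mul_le_mul_of_nonneg_left h4 hℓ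
          _ = _ := by ring
      have h6 : 1 + ‖w‖ ^ 2 ≤ (Y + 6) ^ 2 := by
        rw [← Complex.normSq_eq_norm_sq, Complex.normSq_apply, ← sq, ← sq, ← sq_abs w.re,
          ← sq_abs w.im, hw2]
        have h7 := pow_le_pow_left₀ (abs_nonneg w.re) hw1 2
        have h8 := pow_le_pow_left₀ hR0 hR.2 2
        nlinarith
      have h9 := mul_le_mul_of_nonneg_left h6 hK
      have h10 : 0 ≤ K * (Y + 6) ^ 2 := by positivity
      rw [hΞd]
      nlinarith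
    have k1 := kup z (by linarith) hz2
    have k2 := kup (-z) (by simpa using (by linarith : |z.re| ≤ 3 / 4)) (by simpa using hz2)
    have k3 : Real.exp (2 * K * (z.re ^ 2 - z.im ^ 2)) ≤ Real.exp (2 * Ξ) := by
      refine Real.exp_le_exp.2 ?_
      have h7 := pow_le_pow_left₀ (abs_nonneg z.re) (hz1.trans ha2) 2
      rw [sq_abs] at h7
      have h8 : z.re ^ 2 - z.im ^ 2 ≤ 1 := by nlinarith [sq_nonneg z.im]
      have h9 := mul_le_mul_of_nonneg_left h8 (by linarith : 0 ≤ 2 * K)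
      have h10 : K * 1 ≤ K * (Y + 6) ^ 2 := mul_le_mul_of_nonneg_left (by nlinarith) hK
      rw [hΞd]
      nlinarith
    calc ‖f z‖ * ‖f (-z)‖ * Real.exp (2 * K * (z.re ^ 2 - z.im ^ 2)) ≤
          Real.exp (2 * Ξ) * Real.exp (2 * Ξ) * Real.exp (2 * Ξ) := by gcongr
      _ = Real.exp (6 * Ξ) := by rw [← Real.exp_add, ← Real.exp_add]; congr 1; ring
      _ ≤ _ := Real.exp_le_exp.2 (by nlinarith)

/-- **the vertical sides** -/
theorem UD.vert {K ϑ ℓ : ℝ} {f : ℂ → ℂ} (hK : 0 ≤ K) (H : UD K ϑ ℓ 1 f) {b : ℝ} (hb : ϑ ≤ 3 * b)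
    (hb2 : b ≤ 3 / 4) (hb0 : 0 ≤ b) {z : ℂ} (hz : |z.re| = b) :
    ‖f z‖ * ‖f (-z)‖ * Real.exp (2 * K * (z.re ^ 2 - z.im ^ 2)) ≤
      Real.exp (-(6 * b * ℓ) + 14 * K) * ‖D1 b f z‖ := by
  obtain ⟨ε, hε, hfe⟩ := H.fe
  have hsym : ∀ u : ℂ, ‖f u‖ = ‖f (-conj u)‖ := by
    intro u
    rw [hfe u, norm_mul, hε, one_mul, Complex.norm_conj]
  -- the general computation
  have hgen : ∀ y : ℝ, ‖f ⟨b, y⟩‖ * ‖f ⟨b, -y⟩‖ * Real.exp (2 * K * (b ^ 2 - y ^ 2)) ≤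
      Real.exp (-(6 * b * ℓ) + 14 * K) *
        (‖f ⟨3 * b, y⟩‖ * ‖f ⟨b, -y⟩‖ * (‖f ⟨3 * b, -y⟩‖ * ‖f ⟨b, y⟩‖)) := by
    intro y
    have l1 := H.lo ⟨3 * b, y⟩ hb
    have l2 := H.lo ⟨3 * b, -y⟩ hb
    rw [one_mul] at l1 l2
    have n1 : ‖(⟨3 * b, y⟩ : ℂ)‖ ^ 2 = 9 * b ^ 2 + y ^ 2 := by
      rw [← Complex.normSq_eq_norm_sq, Complex.normSq_apply]; ring
    have n2 : ‖(⟨3 * b, -y⟩ : ℂ)‖ ^ 2 = 9 * b ^ 2 + y ^ 2 := by
      rw [← Complex.normSq_eq_norm_sq, Complex.normSq_apply]; ring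
    rw [n1] at l1
    rw [n2] at l2
    simp only at l1 l2
    have key : Real.exp (2 * K * (b ^ 2 - y ^ 2)) ≤ Real.exp (-(6 * b * ℓ) + 14 * K) *
        (‖f ⟨3 * b, y⟩‖ * ‖f ⟨3 * b, -y⟩‖) := by
      calc Real.exp (2 * K * (b ^ 2 - y ^ 2)) ≤ Real.exp (-(6 * b * ℓ) + 14 * K) *
          (Real.exp (ℓ * (3 * b) - K * (1 + (9 * b ^ 2 + y ^ 2))) *
            Real.exp (ℓ * (3 * b) - K * (1 + (9 * b ^ 2 + y ^ 2)))) := by
            rw [← Real.exp_add, ← Real.exp_add]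
            refine Real.exp_le_exp.2 ?_
            have h1 : b ^ 2 ≤ 9 / 16 := by nlinarith
            have h2 := mul_le_mul_of_nonneg_left h1 hK
            nlinarith
        _ ≤ _ := by gcongr
    calc ‖f ⟨b, y⟩‖ * ‖f ⟨b, -y⟩‖ * Real.exp (2 * K * (b ^ 2 - y ^ 2)) ≤
          ‖f ⟨b, y⟩‖ * ‖f ⟨b, -y⟩‖ * (Real.exp (-(6 * b * ℓ) + 14 * K) *
            (‖f ⟨3 * b, y⟩‖ * ‖f ⟨3 * b, -y⟩‖)) := mul_le_mul_of_nonneg_left key (by positivity)
      _ = _ := by ring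
  rw [norm_D1]
  have hzz : z = ⟨z.re, z.im⟩ := (Complex.eta z).symm
  rcases eq_or_eq_neg_of_abs_eq hz with h | h
  · have e1 : (2 : ℂ) * b + z = ⟨3 * b, z.im⟩ := by
      apply Complex.ext
      · simp [h]; ring
      · simp
    have e2 : (2 : ℂ) * b - z = ⟨b, -z.im⟩ := by
      apply Complex.ext
      · simp [h]; ring
      · simp
    have e3 : (2 : ℂ) * b + conj z = ⟨3 * b, -z.im⟩ := by
      apply Complex.ext
      · simp [h]; ring
      · simp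
    have e4 : (2 : ℂ) * b - conj z = ⟨b, z.im⟩ := by
      apply Complex.ext
      · simp [h]; ring
      · simp
    have e5 : z = ⟨b, z.im⟩ := by rw [← h]
    have e6 : -conj (-z) = ⟨b, -z.im⟩ := by
      apply Complex.ext
      · simp [h]
      · simp
    rw [e1, e2, e3, e4, hsym (-z), e6, h]
    have := hgen z.im
    rw [← e5] at this
    rw [← e5]
    exact this
  · have e1 : (2 : ℂ) * b + z = ⟨b, z.im⟩ := by
      apply Complex.ext
      · simp [h]; ring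
      · simp
    have e2 : (2 : ℂ) * b - z = ⟨3 * b, -z.im⟩ := by
      apply Complex.ext
      · simp [h]; ring
      · simp
    have e3 : (2 : ℂ) * b + conj z = ⟨b, -z.im⟩ := by
      apply Complex.ext
      · simp [h]; ring
      · simp
    have e4 : (2 : ℂ) * b - conj z = ⟨3 * b, z.im⟩ := by
      apply Complex.ext
      · simp [h]; ring
      · simp
    have e5 : -z = ⟨b, -z.im⟩ := by
      apply Complex.ext
      · simp [h]
      · simp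
    have e6 : -conj z = ⟨b, z.im⟩ := by
      apply Complex.ext
      · simp [h]
      · simp
    rw [e1, e2, e3, e4, hsym z, e6, e5, h]
    have := hgen z.im
    have e7 : (-b) ^ 2 = b ^ 2 := by ring
    rw [e7]
    refine this.trans (le_of_eq ?_)
    ring

end Pool.Agent.X102.SZ
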