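import Mathlib
import Pool.Agent.X102.SY2

/-!
Log-free version: the master inequality for `UD` data.
-/

set_option autoImplicit false
open Set Filter Topology Metric
open scoped ComplexConjugate

namespace Pool.Agent.X102.SZ

open Pool.Agent.W169.HF (UD)

/-- the choice of the height -/
lemma height_choice {c K h ℓ Y : ℝ} (hc : 5 ≤ c) (hK : 0 ≤ K) (hh : 0 ≤ h)
    (hY : Y = 2 * Real.log (144 * c * (1 + K)) + 2 * h + 2 * Real.log (1 + |ℓ|)) :
    h + 1 ≤ Y ∧ 2 * (c * (1 + h)) * Om K ℓ Y ≤ Real.cosh Y := by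
  have hℓ := abs_nonneg ℓ
  have h1 : 1 ≤ Real.log (144 * c * (1 + K)) := by
    rw [Real.le_log_iff_exp_le (by positivity)]
    have := Real.exp_one_lt_d9
    nlinarith
  have h2 : 0 ≤ Real.log (1 + |ℓ|) := Real.log_nonneg (by linarith)
  have hY0 : 0 ≤ Y := by rw [hY]; linarith
  refine ⟨by rw [hY]; linarith, ?_⟩
  have e1 : Real.exp (Y / 2) = 144 * c * (1 + K) * Real.exp h * (1 + |ℓ|) := by
    have : Y / 2 = Real.log (144 * c * (1 + K)) + h + Real.log (1 + |ℓ|) := by rw [hY]; ring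
    rw [this, Real.exp_add, Real.exp_add, Real.exp_log (by positivity), Real.exp_log (by positivity)]
  have e2 : 144 * c * (1 + K) * (1 + h) * (1 + |ℓ|) ≤ Real.exp (Y / 2) := by
    rw [e1]
    have := Real.add_one_le_exp h
    gcongr
    linarith
  have e3 : (Y + 6) ^ 2 ≤ 36 * Real.exp (Y / 2) := by
    have := Real.quadratic_le_exp_of_nonneg (by linarith : 0 ≤ Y / 2)
    nlinarith
  have e4 : Real.exp (Y / 2) * Real.exp (Y / 2) = Real.exp Y := by
    rw [← Real.exp_add]; congr 1; ring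
  have e5 : Real.exp Y / 2 ≤ Real.cosh Y := by
    rw [Real.cosh_eq]
    have := Real.exp_pos (-Y)
    linarith
  have e6 : Om K ℓ Y ≤ (1 + K) * (1 + |ℓ|) * (Y + 6) ^ 2 := by
    unfold Om
    have h3 : 1 ≤ (Y + 6) ^ 2 := by nlinarith
    have h4 : 0 ≤ K * |ℓ| * (Y + 6) ^ 2 := by positivity
    have h5 : 0 ≤ |ℓ| * ((Y + 6) ^ 2 - 1) := mul_nonneg hℓ (by linarith)
    nlinarith
  have e7 : 144 * c * (1 + K) * (1 + h) * (1 + |ℓ|) * (Y + 6) ^ 2 ≤
      Real.exp (Y / 2) * (36 * Real.exp (Y / 2)) := by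
    gcongr
  calc 2 * (c * (1 + h)) * Om K ℓ Y ≤ 2 * (c * (1 + h)) * ((1 + K) * (1 + |ℓ|) * (Y + 6) ^ 2) := by
        gcongr
    _ = (144 * c * (1 + K) * (1 + h) * (1 + |ℓ|) * (Y + 6) ^ 2) / 72 := by ring
    _ ≤ (Real.exp (Y / 2) * (36 * Real.exp (Y / 2))) / 72 := by gcongr
    _ = Real.exp Y / 2 := by rw [← e4]; ring
    _ ≤ _ := e5

/-- **The master inequality for normalised data.** -/
theorem UD.one : ∃ A : ℝ, 0 ≤ A ∧ ∀ (K ϑ ℓ : ℝ) (f : ℂ → ℂ), 0 ≤ K → 0 ≤ ϑ → ϑ ≤ 3 / 2 →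
    UD K ϑ ℓ 1 f → (∀ w : ℂ, 1 / 2 < w.re → f w ≠ 0) → ∀ h : ℝ, 0 ≤ h →
    ∀ a : ℝ, 1 / 4 < a → a ≤ 1 / 2 → ϑ ≤ 3 * a →
      ∃ P : Finset ℂ, (∀ w ∈ P, f w = 0 ∧ a < w.re ∧
        |w.im| ≤ A + 2 * Real.log (1 + K) + 2 * h + 2 * Real.log (1 + |ℓ|)) ∧
      ∀ S : Finset ℂ, (∀ w ∈ S, |w.re| < a ∧ |w.im| ≤ h) →
      ‖f 0‖ ^ 2 ≤ Real.exp (-(6 * a * ℓ) + 14 * K) * Real.exp 1 * ‖f (2 * a)‖ ^ 4 *
        (∏ w ∈ P, (‖Complex.tan ((Real.pi / (4 * a) : ℝ) * w)‖ ^ 4) ^ analyticOrderNatAt f w) *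
        ∏ w ∈ S, (‖Complex.tan ((Real.pi / (4 * a) : ℝ) * w)‖ ^ 2) ^ analyticOrderNatAt f w := by
  classical
  have hpi := Real.pi_pos
  have hpi3 := Real.pi_gt_three
  obtain ⟨A1, hA1, hhor⟩ := UD.hor
  obtain ⟨A2, hA2, hcount⟩ := UD.count
  have hl3 : 0 < Real.log 3 := Real.log_pos (by norm_num)
  set c : ℝ := 2 * A1 + Real.log 3 * A2 + 5 with hc
  have hc5 : 5 ≤ c := by
    rw [hc]
    have : 0 ≤ 2 * A1 + Real.log 3 * A2 := by positivity
    linarith
  have hA0 : 1 ≤ Real.log (144 * c) := by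
    rw [Real.le_log_iff_exp_le (by positivity)]
    have := Real.exp_one_lt_d9
    nlinarith
  refine ⟨2 * Real.log (144 * c) + 1, by linarith,
    fun K ϑ ℓ f hK hϑ0 hϑ1 H hne h hh a ha1 ha2 hϑa => ?_⟩
  set Y : ℝ := 2 * Real.log (144 * c * (1 + K)) + 2 * h + 2 * Real.log (1 + |ℓ|) with hY
  obtain ⟨hhY, hcosh⟩ := height_choice (ℓ := ℓ) hc5 hK hh hY
  have hY0 : 0 ≤ Y := by linarith
  have hchY : 0 < Real.cosh Y := Real.cosh_pos Y
  have hYeq : Y + 1 = 2 * Real.log (144 * c) + 1 + 2 * Real.log (1 + K) + 2 * h +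
      2 * Real.log (1 + |ℓ|) := by
    rw [hY, Real.log_mul (by positivity) (by positivity)]
    ring
  obtain ⟨R, hR, hRR⟩ := hhor K ϑ ℓ f hK hϑ0 hϑ1 H Y hY0
  have hRY : Y ≤ R := hR.1
  have hRY1 : R ≤ Y + 1 := hR.2
  have hR0 : 0 < R := by linarith
  have hℓ := abs_nonneg ℓ
  have hfd : Differentiable ℂ f := UD.diff H
  have hf0 : ∃ z, f z ≠ 0 := ⟨1, hne 1 (by norm_num)⟩
  set A3 : ℝ := 2 * A1 + Real.log 3 * (A2 * (1 + h)) with hA3
  have hA30 : 0 ≤ A3 := by positivity
  have hA35 : A3 + 5 ≤ c * (1 + h) := by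
    rw [hA3, hc]
    have : 0 ≤ 2 * A1 * h := by positivity
    nlinarith
  -- zeros
  have hcomp : IsCompact (Icc a 1 ×ℂ Icc (-R) R) := isCompact_Icc.reProdIm isCompact_Icc
  set Z0 : Finset ℂ := (finZ hfd hf0 hcomp).toFinset with hZ0
  set P : Finset ℂ := Z0.filter (fun w => a < w.re) with hP
  have hPm : ∀ w, w ∈ P ↔ (a < w.re ∧ |w.im| ≤ R ∧ f w = 0) := by
    intro w
    rw [hP, Finset.mem_filter, hZ0, Set.Finite.mem_toFinset]
    constructor
    · rintro ⟨⟨h1, h2⟩, h3⟩
      exact ⟨h3, abs_le.2 h1.2, h2⟩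
    · rintro ⟨h1, h2, h3⟩
      refine ⟨⟨⟨⟨h1.le, ?_⟩, abs_le.1 h2⟩, h3⟩, h1⟩
      by_contra hc
      push Not at hc
      exact hne w (by linarith) h3
  have hPre : ∀ w ∈ P, w.re ≤ 1 / 2 := by
    intro w hw
    by_contra hc
    push Not at hc
    exact hne w hc ((hPm w).1 hw).2.2
  refine ⟨P, fun w hw => ⟨((hPm w).1 hw).2.2, ((hPm w).1 hw).1,
    (((hPm w).1 hw).2.1.trans hRY1).trans hYeq.le⟩, fun S hS => ?_⟩
  set m : ℂ → ℕ := fun w => analyticOrderNatAt f w with hm
  have hΞ0 := (Om_pos (ℓ := ℓ) (Y := Y) hK).le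
  have hΞd : Om K ℓ Y = 1 + |ℓ| + K * (Y + 6) ^ 2 := rfl
  set Ξ : ℝ := Om K ℓ Y with hΞ
  set lam : ℝ := 2 * (A3 + 5) * Ξ / Real.cosh Y with hlam
  have hlam0 : 0 ≤ lam := by positivity
  have hlam1 : lam ≤ 1 := by
    rw [hlam, div_le_one hchY]
    refine le_trans ?_ hcosh
    refine mul_le_mul_of_nonneg_right ?_ hΞ0
    linarith
  -- number of zeros in S
  have hN : ∑ w ∈ S, (m w : ℝ) ≤ A2 * (1 + h) * Ξ := by
    have h1 := hcount K ϑ ℓ f hK hϑ0 hϑ1 H hne h hh S (by
      intro s hs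
      obtain ⟨h3, h4⟩ := hS s hs
      have h5 := abs_lt.1 h3
      exact ⟨by linarith, h4⟩)
    refine h1.trans (mul_le_mul_of_nonneg_left ?_ (by positivity))
    rw [hΞd]
    unfold Om
    have h2 : (h + 6) ^ 2 ≤ (Y + 6) ^ 2 := pow_le_pow_left₀ (by linarith) (by linarith) 2
    have := mul_le_mul_of_nonneg_left h2 hK
    linarith
  -- factorizations
  obtain ⟨g, hg, hfg, hg0⟩ := fac hfd hf0 P
  obtain ⟨h', hh', hfh, _⟩ := fac hfd hf0 S
  -- the inequality for one `b > a`
  set FF : ℝ → ℝ := fun b => Real.exp (-(6 * b * ℓ) + 14 * K) * Real.exp 1 * ‖f (2 * b)‖ ^ 4 *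
    (∏ w ∈ P, (‖Complex.tan ((Real.pi / (4 * b) : ℝ) * w)‖ ^ 4) ^ m w) *
    ∏ w ∈ S, (‖Complex.tan ((Real.pi / (4 * b) : ℝ) * w)‖ ^ 2) ^ m w with hFF
  have hone : ∀ b : ℝ, a < b → b < 3 / 4 → (∀ w ∈ P, b < w.re) → ‖f 0‖ ^ 2 ≤ FF b := by
    intro b hb1 hb2 hb3
    have hb0 : 0 < b := by linarith
    set k : ℝ := Real.pi / (4 * b) with hk
    have hk0 : 0 < k := by positivity
    have hk1 : 1 ≤ k := by
      rw [hk, le_div_iff₀ (by positivity)]
      linarith
    have hkb : 4 * k * b = Real.pi := by rw [hk]; field_simp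
    have hline : ∀ z : ℂ, z.re = b → |z.im| ≤ R → f z ≠ 0 := by
      intro z hz1 hz2 hz3
      have := hb3 z ((hPm z).2 ⟨by linarith, hz2, hz3⟩)
      linarith
    have hSD : SD k b R f P S m g h' :=
      { hk := hk0
        hka := hkb
        hg := hg
        hh := hh'
        fg := hfg
        fh := hfh
        g0 := fun z hz1 _ hz3 => hg0 z fun h0 => (hPm z).2 ⟨by linarith, hz3, h0⟩
        P0 := fun w hw => by
          have h1 := hb3 w hw
          have h2 := hPre w hw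
          rw [abs_lt]; constructor <;> linarith
        S0 := fun w hw => (hS w hw).1.trans hb1 }
    set V : ℝ := Real.exp (-(6 * b * ℓ) + 14 * K) with hV
    have hV0 : 0 < V := Real.exp_pos _
    have hmain := hSD.main2 (V := V) (W := Real.exp (A3 * Ξ)) (lam := lam) (κ := 2 * K)
      (by linarith) hR0 hV0.le hlam0 ?_ ?_ ?_
    · -- conclusion
      set T : ℝ := ∏ w ∈ P, (‖Complex.tan (k * w)‖ ^ 4) ^ m w with hT
      have hT0 : 0 ≤ T := Finset.prod_nonneg fun w _ => by positivity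
      have hPT : (∏ w ∈ P, (‖BF k (w - 2 * b) 0‖ ^ 2) ^ m w) * T = 1 := by
        rw [hT, ← Finset.prod_mul_distrib]
        refine Finset.prod_eq_one fun w hw => ?_
        rw [← mul_pow]
        have h1 := hb3 w hw
        have h2 := hPre w hw
        have e1 : ((k : ℂ) * w).re = k * w.re := Complex.re_ofReal_mul _ _
        have h3 : 0 < k * w.re := mul_pos hk0 (by linarith)
        have h4 : k * w.re < Real.pi / 2 := by
          have h5 : k * w.re ≤ k * (1 / 2) := mul_le_mul_of_nonneg_left h2 hk0.le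
          have h6 : k * (1 / 2) < k * (2 * b) := mul_lt_mul_of_pos_left (by linarith) hk0
          linarith
        have hs := BF_shift hkb w (sin_ne (by rw [e1]; exact h3) (by rw [e1]; linarith))
          (cos_ne (by rw [e1, abs_of_pos h3]; exact h4))
        have : ‖BF k (w - 2 * b) 0‖ ^ 2 * ‖Complex.tan (k * w)‖ ^ 4 =
            (‖BF k (w - 2 * b) 0‖ * ‖Complex.tan (k * w)‖ ^ 2) ^ 2 := by ring
        rw [this, hs, one_pow, one_pow]
      have hSprod : ∏ w ∈ S, ‖BF k w 0‖ ^ m w = ∏ w ∈ S, (‖Complex.tan (k * w)‖ ^ 2) ^ m w :=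
        Finset.prod_congr rfl fun w _ => by rw [BF_zero]
      rw [hSprod] at hmain
      have hS0 : 0 ≤ ∏ w ∈ S, (‖Complex.tan (k * w)‖ ^ 2) ^ m w :=
        Finset.prod_nonneg fun w _ => by positivity
      have h7 := mul_le_mul_of_nonneg_right hmain hT0
      rw [mul_assoc, hPT, mul_one] at h7
      refine h7.trans ?_
      simp only [hFF]
      rw [← hk, ← hT, ← hV]
      have h8 : Real.exp lam ≤ Real.exp 1 := Real.exp_le_exp.2 hlam1
      calc V * Real.exp lam * ‖f (2 * b)‖ ^ 4 * (∏ w ∈ S, (‖Complex.tan (k * w)‖ ^ 2) ^ m w) * T ≤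
            V * Real.exp 1 * ‖f (2 * b)‖ ^ 4 *
              (∏ w ∈ S, (‖Complex.tan (k * w)‖ ^ 2) ^ m w) * T := by
            refine mul_le_mul_of_nonneg_right (mul_le_mul_of_nonneg_right
              (mul_le_mul_of_nonneg_right (mul_le_mul_of_nonneg_left h8 hV0.le)
              (by positivity)) hS0) hT0
        _ = _ := by ring
    · -- vertical sides
      intro z hz1 hz2
      constructor
      · have key : ∀ w : ℂ, (w.re = b ∨ w.re = 3 * b) → |w.im| ≤ R → f w ≠ 0 := by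
          intro w hw1 hw2
          rcases hw1 with hw1 | hw1
          · exact hline w hw1 hw2
          · exact hne w (by rw [hw1]; linarith)
        have hre : (z.re = b ∨ z.re = -b) := eq_or_eq_neg_of_abs_eq hz1
        have k1 : f (2 * b + z) ≠ 0 := key _ (by
          rcases hre with h | h
          · right; simp [h]; ring
          · left; simp [h]; ring) (by simpa using hz2)
        have k2 : f (2 * b - z) ≠ 0 := key _ (by
          rcases hre with h | h
          · left; simp [h]; ring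
          · right; simp [h]; ring) (by simpa using hz2)
        have k3 : f (2 * b + conj z) ≠ 0 := key _ (by
          rcases hre with h | h
          · right; simp [h]; ring
          · left; simp [h]; ring) (by simpa using hz2)
        have k4 : f (2 * b - conj z) ≠ 0 := key _ (by
          rcases hre with h | h
          · left; simp [h]; ring
          · right; simp [h]; ring) (by simpa using hz2)
        rw [← norm_ne_zero_iff, norm_D1]
        have n1 := norm_ne_zero_iff.2 k1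
        have n2 := norm_ne_zero_iff.2 k2
        have n3 := norm_ne_zero_iff.2 k3
        have n4 := norm_ne_zero_iff.2 k4
        exact mul_ne_zero (mul_ne_zero n1 n2) (mul_ne_zero n3 n4)
      · exact UD.vert hK H (by linarith) hb2.le hb0.le hz1
    · -- horizontal sides
      intro z hz1 hz2
      obtain ⟨hD, hE⟩ := hRR b (by linarith) hb2.le z hz1 hz2
      have hDp : 0 < ‖D1 b f z‖ := lt_of_lt_of_le (Real.exp_pos _) hD
      have hBF : ∀ w ∈ S, 1 / 3 ≤ ‖BF k w z‖ := fun w hw =>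
        BF_far hk1 hkb hh (by linarith) hz2 hz1 ((hS w hw).1.trans hb1) (hS w hw).2
      refine ⟨norm_pos_iff.1 hDp, fun w hw => norm_pos_iff.1 (by linarith [hBF w hw]), ?_⟩
      have hprod : Real.exp (-(Real.log 3 * (A2 * (1 + h)) * Ξ)) ≤ ∏ w ∈ S, ‖BF k w z‖ ^ m w := by
        calc Real.exp (-(Real.log 3 * (A2 * (1 + h)) * Ξ)) ≤
              Real.exp (-(Real.log 3 * ∑ w ∈ S, (m w : ℝ))) := by
              refine Real.exp_le_exp.2 (neg_le_neg ?_)
              have := mul_le_mul_of_nonneg_left hN hl3.le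
              linarith
          _ = ∏ w ∈ S, ((1 : ℝ) / 3) ^ m w := by
              rw [Finset.prod_pow_eq_pow_sum, ← Real.rpow_natCast, Real.rpow_def_of_pos (by norm_num)]
              congr 1
              push_cast
              rw [one_div, Real.log_inv]
              ring
          _ ≤ _ := Finset.prod_le_prod (fun w _ => by positivity) fun w hw =>
              pow_le_pow_left₀ (by norm_num) (hBF w hw) _
      calc ‖f z‖ * ‖f (-z)‖ * Real.exp (2 * K * (z.re ^ 2 - z.im ^ 2)) ≤ Real.exp (A1 * Ξ) := hE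
        _ = Real.exp (A3 * Ξ) * (Real.exp (-(A1 * Ξ)) * Real.exp (-(Real.log 3 * (A2 * (1 + h)) * Ξ))) := by
            rw [← Real.exp_add, ← Real.exp_add]
            congr 1
            rw [hA3]; ring
        _ ≤ _ := by gcongr
    · -- comparison
      have hcosb : 1 / 2 ≤ Real.cos b := by
        have h1 : Real.cos (3 / 4) ≤ Real.cos b :=
          Real.cos_le_cos_of_nonneg_of_le_pi hb0.le (by linarith) hb2.le
        have h2 := Real.one_sub_sq_div_two_le_cos (x := 3 / 4)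
        linarith
      have hch : Real.cosh Y ≤ Real.cosh R := by
        rw [Real.cosh_le_cosh, abs_of_nonneg hY0, abs_of_pos hR0]; exact hRY
      have h3 : 1 / 2 * Real.cosh Y ≤ Real.cos b * Real.cosh R :=
        mul_le_mul hcosb hch (Real.cosh_pos _).le (by linarith)
      have h4 : (A3 + 5) * Ξ ≤ lam * (Real.cos b * Real.cosh R) := by
        calc (A3 + 5) * Ξ = lam * (1 / 2 * Real.cosh Y) := by rw [hlam]; field_simp
          _ ≤ _ := mul_le_mul_of_nonneg_left h3 hlam0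
      have h5 : 6 * b * ℓ ≤ 5 * Ξ := by
        have h6 : 6 * b * ℓ ≤ 6 * b * |ℓ| := mul_le_mul_of_nonneg_left (le_abs_self ℓ) (by positivity)
        have h7 : 6 * b * |ℓ| ≤ 5 * |ℓ| := mul_le_mul_of_nonneg_right (by linarith) hℓ
        have h8 : 0 ≤ K * (Y + 6) ^ 2 := by positivity
        rw [hΞd]
        linarith
      rw [hV, ← Real.exp_add]
      refine Real.exp_le_exp.2 ?_
      linarith
  -- the limit
  have hev : ∀ᶠ b : ℝ in 𝓝[>] a, ‖f 0‖ ^ 2 ≤ FF b := by
    have h1 : ∀ᶠ b : ℝ in 𝓝[>] a, ∀ w ∈ P, b < w.re := by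
      rw [eventually_all_finset]
      intro w hw
      exact nhdsWithin_le_nhds (eventually_lt_nhds ((hPm w).1 hw).1)
    have h2 : ∀ᶠ b : ℝ in 𝓝[>] a, b < 3 / 4 :=
      nhdsWithin_le_nhds (eventually_lt_nhds (by linarith))
    filter_upwards [h1, h2, self_mem_nhdsWithin] with b k1 k2 k3
    exact hone b k3 k2 k1
  have ha0 : 0 < a := by linarith
  have hcont : ContinuousAt FF a := by
    have htan : ∀ w : ℂ, |w.re| < 2 * a → ContinuousAt
        (fun b : ℝ => ‖Complex.tan ((Real.pi / (4 * b) : ℝ) * w)‖) a := by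
      intro w hw
      have hcos : Complex.cos ((Real.pi / (4 * a) : ℝ) * w) ≠ 0 := by
        apply cos_ne
        rw [Complex.re_ofReal_mul, abs_mul, abs_of_pos (by positivity)]
        calc Real.pi / (4 * a) * |w.re| < Real.pi / (4 * a) * (2 * a) :=
              mul_lt_mul_of_pos_left hw (by positivity)
          _ = Real.pi / 2 := by field_simp; ring
      have h1 : ContinuousAt (fun b : ℝ => ((Real.pi / (4 * b) : ℝ) : ℂ) * w) a := by
        refine ContinuousAt.mul ?_ continuousAt_const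
        refine Complex.continuous_ofReal.continuousAt.comp ?_
        exact ContinuousAt.div continuousAt_const (by fun_prop) (by positivity)
      exact (ContinuousAt.comp (f := fun b : ℝ => ((Real.pi / (4 * b) : ℝ) : ℂ) * w)
        (g := Complex.tan) (Complex.continuousAt_tan.2 hcos) h1).norm
    have hPc : ContinuousAt (fun b : ℝ => ∏ w ∈ P,
        (‖Complex.tan ((Real.pi / (4 * b) : ℝ) * w)‖ ^ 4) ^ m w) a := by
      refine tendsto_finset_prod _ fun w hw => ?_
      have h1 := htan w (by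
        have h2 := hPre w hw
        have h3 := ((hPm w).1 hw).1
        rw [abs_of_pos (by linarith)]; linarith)
      exact (h1.pow 4).pow (m w)
    have hSc : ContinuousAt (fun b : ℝ => ∏ w ∈ S,
        (‖Complex.tan ((Real.pi / (4 * b) : ℝ) * w)‖ ^ 2) ^ m w) a := by
      refine tendsto_finset_prod _ fun w hw => ?_
      have h1 := htan w (by
        have h2 := (hS w hw).1
        linarith)
      exact (h1.pow 2).pow (m w)
    have hfc : Continuous fun b : ℝ => ‖f (2 * b)‖ ^ 4 := by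
      have := hfd.continuous
      fun_prop
    have hec : Continuous fun b : ℝ => Real.exp (-(6 * b * ℓ) + 14 * K) := by fun_prop
    simp only [hFF]
    exact (((hec.continuousAt.mul continuousAt_const).mul hfc.continuousAt).mul hPc).mul hSc
  exact ge_of_tendsto (hcont.tendsto.mono_left nhdsWithin_le_nhds) hev

end Pool.Agent.X102.SZ
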