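import Mathlib
import Pool.Agent.X102.SY3
import Pool.Agent.W169.HF.Gam

/-!
Log-free version: the instance for automorphic data.
-/

set_option autoImplicit false
open Set Filter Topology Metric
open scoped ComplexConjugate

namespace Pool.Agent.X102.SZ

open Pool.Agent.W169.HF
open H353.E H353.F

/-- scaling -/
lemma UD.scale {K ϑ ℓ G : ℝ} {f : ℂ → ℂ} (H : UD K ϑ ℓ G f) :
    UD K ϑ ℓ 1 (fun u => ((G⁻¹ : ℝ) : ℂ) * f u) := by
  have hG := H.hG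
  have hGi : 0 < G⁻¹ := inv_pos.2 hG
  have hn : ∀ u, ‖((G⁻¹ : ℝ) : ℂ) * f u‖ = G⁻¹ * ‖f u‖ := fun u => by
    rw [norm_mul, Complex.norm_real, Real.norm_eq_abs, abs_of_pos hGi]
  obtain ⟨ε, hε, hfe⟩ := H.fe
  refine
    { slow := ⟨H.slow.1.const_mul _, fun δ hδ => ?_⟩
      fe := ⟨ε, hε, fun u => ?_⟩
      hG := one_pos
      up := fun u => ?_
      lo := fun u hu => ?_ }
  · obtain ⟨K', hK', h⟩ := H.slow.2 δ hδ
    refine ⟨G⁻¹ * K', by positivity, fun z => ?_⟩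
    rw [hn, mul_assoc]
    exact mul_le_mul_of_nonneg_left (h z) hGi.le
  · rw [hfe u, map_mul, Complex.conj_ofReal]
    ring
  · rw [hn, one_mul]
    calc G⁻¹ * ‖f u‖ ≤ G⁻¹ * (G * Real.exp (ℓ * max |u.re| ϑ + K * (1 + ‖u‖ ^ 2))) :=
          mul_le_mul_of_nonneg_left (H.up u) hGi.le
      _ = _ := by field_simp
  · rw [hn, one_mul]
    calc Real.exp (ℓ * u.re - K * (1 + ‖u‖ ^ 2)) =
          G⁻¹ * (G * Real.exp (ℓ * u.re - K * (1 + ‖u‖ ^ 2))) := by field_simp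
      _ ≤ _ := mul_le_mul_of_nonneg_left (H.lo u hu) hGi.le

lemma order_scale {f : ℂ → ℂ} (hf : Differentiable ℂ f) {g : ℂ → ℂ} (hg : Differentiable ℂ g) {w : ℂ}
    (hw : g w ≠ 0) : analyticOrderNatAt (fun u => g u * f u) w = analyticOrderNatAt f w := by
  have h1 : analyticOrderAt (fun u => g u * f u) w = analyticOrderAt g w + analyticOrderAt f w :=
    analyticOrderAt_mul (hg.analyticAt w) (hf.analyticAt w)
  have h2 : analyticOrderAt g w = 0 := (hg.analyticAt w).analyticOrderAt_eq_zero.2 hw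
  unfold analyticOrderNatAt
  rw [h1, h2, zero_add]

lemma order_shift (f : ℂ → ℂ) (c w : ℂ) :
    analyticOrderNatAt (fun u => f (c + u)) w = analyticOrderNatAt f (c + w) := by
  have h3 : analyticOrderAt (f ∘ fun z => c + z) w = analyticOrderAt f (c + w) := by
    apply analyticOrderAt_comp_of_deriv_ne_zero (g := fun z : ℂ => c + z)
    · have : Differentiable ℂ fun z : ℂ => c + z := by fun_prop
      exact this.analyticAt w
    · rw [deriv_const_add, deriv_id'']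
      exact one_ne_zero
  unfold analyticOrderNatAt
  exact congrArg ENat.toNat h3

/-- **The master inequality for automorphic data.** -/
theorem datum_ineq (m : ℕ) (hm : 1 ≤ m) {θ α₁ : ℝ} (hθ0 : 0 ≤ θ) (hθ1 : θ ≤ 1 / 2)
    (h14 : α₁ < 1 / 4) (h3 : α₁ < (1 - θ) / 3) :
    ∃ B : ℝ, 0 < B ∧ ∀ (N : ℝ) (μ : Fin m → ℂ) (α : Fin m → ℕ → ℂ) (ε : ℂ) (Λ : ℂ → ℂ),
    DatumT θ N μ α ε Λ → (∀ s : ℂ, 1 < s.re → Λ s ≠ 0) → ∀ (t h a : ℝ), 0 ≤ h →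
      1 / 2 - α₁ ≤ a → a ≤ 1 / 2 →
      ∃ P : Finset ℂ, (∀ ρ ∈ P, Λ ρ = 0 ∧ 1 / 2 + a < ρ.re ∧
        |ρ.im - t| ≤ B + 2 * h + 2 * Real.log (1 + Real.log (cnd N μ t))) ∧
      ∀ S : Finset ℂ, (∀ ρ ∈ S, |ρ.re - 1 / 2| < a ∧ |ρ.im - t| ≤ h) →
      ‖LL μ Λ (1 / 2 + (t : ℂ) * Complex.I)‖ ≤ B * cnd N μ t ^ (a / 2) *
        ‖LL μ Λ (1 / 2 + 2 * a + (t : ℂ) * Complex.I)‖ ^ 2 *
        (∏ ρ ∈ P, (‖Complex.tan ((Real.pi / (4 * a) : ℝ) * (ρ - (1 / 2 + (t : ℂ) * Complex.I)))‖ ^ 2) ^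
          analyticOrderNatAt Λ ρ) *
        ∏ ρ ∈ S, ‖Complex.tan ((Real.pi / (4 * a) : ℝ) * (ρ - (1 / 2 + (t : ℂ) * Complex.I)))‖ ^
          analyticOrderNatAt Λ ρ := by
  classical
  have hm' : (1 : ℝ) ≤ m := by exact_mod_cast hm
  obtain ⟨A, hA, hone⟩ := UD.one
  set η : ℝ := min 1 (1 - θ - 3 * α₁) with hη
  have hη0 : 0 < η := lt_min one_pos (by linarith)
  have hη1 : η ≤ 1 := min_le_left _ _
  have hη2 : η ≤ 1 - θ - 3 * α₁ := min_le_right _ _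
  obtain ⟨B, hB, HS⟩ := sharpX m hm hθ0 hθ1 hη0 hη1
  set K : ℝ := Real.log B + 20 * (6 * m) with hK
  have hlogB : 0 ≤ Real.log B := Real.log_nonneg hB
  have hK0 : 0 ≤ K := by rw [hK]; positivity
  -- the cap on `ϑ`
  set C1 : ℝ := (1 + 14 * K + 5 * m + 2670 * m) / 2 with hC1
  set C2 : ℝ := A + 2 * Real.log (1 + K) + 2 * Real.log (1 + 7 * m) with hC2
  have hC20 : 0 ≤ C2 := by
    have := Real.log_nonneg (by linarith : (1:ℝ) ≤ 1 + K)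
    have := Real.log_nonneg (by linarith : (1:ℝ) ≤ 1 + 7 * m)
    positivity
  refine ⟨Real.exp C1 + C2, by positivity, fun N μ α ε Λ d hΛ t h a hh ha1 ha2 => ?_⟩
  obtain ⟨S, hslow, -, -, -⟩ := HS N μ α ε Λ d
  have hN := d.one_le
  have hN0 : 0 < N := by linarith
  have hud := ud_of_sharp S hslow (by linarith) t
  have e0 : (1 + θ + η) - 1 / 2 = 1 / 2 + θ + η := by ring
  rw [e0] at hud
  obtain ⟨ℓ, hℓ⟩ : ∃ ℓ : ℝ, ℓ = (gaD N μ (3 / 2 + t * Complex.I)).re := ⟨_, rfl⟩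
  obtain ⟨G, hG⟩ : ∃ G : ℝ, G = ‖gaf N μ (3 / 2 + t * Complex.I)‖ * Real.exp (-ℓ) := ⟨_, rfl⟩
  rw [← hℓ, ← hG, ← hK] at hud
  have hG0 : 0 < G := hud.hG
  have hud1 := UD.scale hud
  have hXd : Differentiable ℂ (XX N Λ) := hslow.1
  -- nonvanishing
  have hNcne : ∀ s : ℂ, (N : ℂ) ^ (s / 2) ≠ 0 := fun s => by
    rw [Ne, Complex.cpow_eq_zero_iff]
    rintro ⟨h, -⟩
    exact hN0.ne' (by exact_mod_cast h)
  have hXne : ∀ s : ℂ, XX N Λ s = 0 ↔ Λ s = 0 := fun s => by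
    unfold XX
    rw [mul_eq_zero]
    simp [hNcne s]
  have hGi : ((G⁻¹ : ℝ) : ℂ) ≠ 0 := by exact_mod_cast (inv_pos.2 hG0).ne'
  have hcre : ∀ w : ℂ, (1 / 2 + (t : ℂ) * Complex.I + w).re = 1 / 2 + w.re := fun w => by simp
  have hcim : ∀ w : ℂ, (1 / 2 + (t : ℂ) * Complex.I + w).im = t + w.im := fun w => by simp
  have hzero : ∀ w : ℂ, ((G⁻¹ : ℝ) : ℂ) * XX N Λ (1 / 2 + (t : ℂ) * Complex.I + w) = 0 ↔
      Λ (1 / 2 + (t : ℂ) * Complex.I + w) = 0 := fun w => by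
    rw [mul_eq_zero, hXne]
    exact ⟨fun h => h.resolve_left hGi, Or.inr⟩
  have hord : ∀ w : ℂ, analyticOrderNatAt
      (fun u : ℂ => ((G⁻¹ : ℝ) : ℂ) * XX N Λ (1 / 2 + (t : ℂ) * Complex.I + u)) w =
      analyticOrderNatAt Λ (1 / 2 + (t : ℂ) * Complex.I + w) := fun w => by
    have h1 := order_scale (f := fun u : ℂ => XX N Λ (1 / 2 + (t : ℂ) * Complex.I + u))
      (g := fun _ => ((G⁻¹ : ℝ) : ℂ)) (w := w) (hXd.comp (by fun_prop)) (differentiable_const _) hGi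
    rw [h1, order_shift (XX N Λ) (1 / 2 + (t : ℂ) * Complex.I) w]
    unfold XX
    refine order_scale d.entire ?_ (hNcne _)
    intro z
    exact (((hasDerivAt_id z).div_const 2).const_cpow (c := (N : ℂ))
      (Or.inl (by exact_mod_cast hN0.ne'))).differentiableAt
  obtain ⟨P, hP, hmain⟩ := hone K (1 / 2 + θ + η) ℓ _ hK0 (by linarith) (by linarith) hud1
    (fun w hw h0 => hΛ _ (by rw [hcre]; linarith) ((hzero w).1 h0)) h hh a (by linarith) ha2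
    (by linarith)
  -- sizes
  have hcnd1 : 1 ≤ cnd N μ t := hN.trans (le_cnd hN μ t)
  have hlc : 0 ≤ Real.log (cnd N μ t) := Real.log_nonneg hcnd1
  have hlo := gaD_re_ge hN d.re_le t
  change 1 / 2 * Real.log (cnd N μ t) - 7 * m ≤ _ at hlo
  have hup := gaD_re_le hN d.re_le t
  change _ ≤ 1 / 2 * Real.log (cnd N μ t) + 5 * m at hup
  rw [← hℓ] at hlo hup
  have hℓabs : |ℓ| ≤ Real.log (cnd N μ t) + 7 * m := by
    rw [abs_le]; constructor <;> linarith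
  have hloglog : Real.log (1 + |ℓ|) ≤ Real.log (1 + 7 * m) + Real.log (1 + Real.log (cnd N μ t)) := by
    rw [← Real.log_mul (by positivity) (by positivity)]
    refine Real.log_le_log (by positivity) ?_
    nlinarith
  refine ⟨P.image fun w => 1 / 2 + (t : ℂ) * Complex.I + w, ?_, fun S' hS' => ?_⟩
  · intro ρ hρ
    obtain ⟨w, hw, rfl⟩ := Finset.mem_image.1 hρ
    obtain ⟨k1, k2, k3⟩ := hP w hw
    refine ⟨(hzero w).1 k1, by rw [hcre]; linarith, ?_⟩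
    rw [hcim, add_sub_cancel_left]
    have := Real.exp_pos C1
    linarith
  -- the inequality
  set S0 : Finset ℂ := S'.image fun ρ => ρ - (1 / 2 + (t : ℂ) * Complex.I) with hS0
  have hS0m : ∀ w ∈ S0, |w.re| < a ∧ |w.im| ≤ h := by
    intro w hw
    obtain ⟨ρ, hρ, rfl⟩ := Finset.mem_image.1 hw
    obtain ⟨k1, k2⟩ := hS' ρ hρ
    constructor
    · simpa using k1
    · simpa using k2
  have hin := hmain S0 hS0m
  simp only [hord] at hin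
  rw [Finset.prod_image (fun x _ y _ hxy => add_left_cancel hxy)]
  have e1 : ∀ w : ℂ, 1 / 2 + (t : ℂ) * Complex.I + w - (1 / 2 + (t : ℂ) * Complex.I) = w := fun w => by
    ring
  simp only [e1]
  rw [hS0, Finset.prod_image (fun x _ y _ hxy => sub_left_injective hxy)] at hin
  have e2 : ∀ ρ : ℂ, 1 / 2 + (t : ℂ) * Complex.I + (ρ - (1 / 2 + (t : ℂ) * Complex.I)) = ρ := fun ρ => by
    ring
  simp only [e2] at hin
  obtain ⟨TP, hTP⟩ : ∃ TP : ℝ, TP = ∏ w ∈ P, (‖Complex.tan ((Real.pi / (4 * a) : ℝ) * w)‖ ^ 2) ^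
      analyticOrderNatAt Λ (1 / 2 + (t : ℂ) * Complex.I + w) := ⟨_, rfl⟩
  obtain ⟨TS, hTS⟩ : ∃ TS : ℝ, TS = ∏ ρ ∈ S', ‖Complex.tan ((Real.pi / (4 * a) : ℝ) *
      (ρ - (1 / 2 + (t : ℂ) * Complex.I)))‖ ^ analyticOrderNatAt Λ ρ := ⟨_, rfl⟩
  have hTP0 : 0 ≤ TP := by rw [hTP]; exact Finset.prod_nonneg fun w _ => by positivity
  have hTS0 : 0 ≤ TS := by rw [hTS]; exact Finset.prod_nonneg fun w _ => by positivity
  have hTP2 : ∏ w ∈ P, (‖Complex.tan ((Real.pi / (4 * a) : ℝ) * w)‖ ^ 4) ^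
      analyticOrderNatAt Λ (1 / 2 + (t : ℂ) * Complex.I + w) = TP ^ 2 := by
    rw [hTP, ← Finset.prod_pow]
    refine Finset.prod_congr rfl fun w _ => ?_
    ring
  have hTS2 : ∏ ρ ∈ S', (‖Complex.tan ((Real.pi / (4 * a) : ℝ) *
      (ρ - (1 / 2 + (t : ℂ) * Complex.I)))‖ ^ 2) ^ analyticOrderNatAt Λ ρ = TS ^ 2 := by
    rw [hTS, ← Finset.prod_pow]
    refine Finset.prod_congr rfl fun w _ => ?_
    ring
  rw [hTP2, hTS2] at hin
  rw [← hTP, ← hTS]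
  have ha0 : 0 < a := by linarith
  -- the value at the centre
  have hc1 : ‖LL μ Λ (1 / 2 + (t : ℂ) * Complex.I)‖ ≤
      Real.exp (231 * m) * ‖((G⁻¹ : ℝ) : ℂ) * XX N Λ (1 / 2 + (t : ℂ) * Complex.I + 0)‖ := by
    have h1 := gam_inv hm hN d.re_le t (u := 0) (by simp)
    rw [← hℓ, ← hG] at h1
    simp only [Complex.zero_re, mul_zero, neg_zero, zero_add, norm_zero, ne_eq, OfNat.ofNat_ne_zero,
      not_false_eq_true, zero_pow, add_zero, mul_one] at h1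
    rw [add_zero, LL_eq hN0, norm_mul, norm_mul, Complex.norm_real, Real.norm_eq_abs,
      abs_of_pos (inv_pos.2 hG0)]
    calc ‖XX N Λ (1 / 2 + (t : ℂ) * Complex.I)‖ * ‖(gaf N μ (1 / 2 + (t : ℂ) * Complex.I))⁻¹‖ ≤
          ‖XX N Λ (1 / 2 + (t : ℂ) * Complex.I)‖ * (G⁻¹ * Real.exp (231 * m)) :=
          mul_le_mul_of_nonneg_left h1 (norm_nonneg _)
      _ = _ := by ring
  -- the value at the right
  have hc2 : ‖((G⁻¹ : ℝ) : ℂ) * XX N Λ (1 / 2 + (t : ℂ) * Complex.I + 2 * a)‖ ≤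
      Real.exp (2 * a * ℓ + 552 * m) * ‖LL μ Λ (1 / 2 + 2 * a + (t : ℂ) * Complex.I)‖ := by
    have hre : ((2 : ℂ) * a).re = 2 * a := by simp
    obtain ⟨h0, h1⟩ := gam_up hm hN d.re_le t (ρ := 1 / 2) (by norm_num) (by norm_num)
      (u := 2 * (a : ℂ)) (by rw [hre]; linarith)
    rw [← hℓ, ← hG, hre] at h1
    have e3 : (1 / 2 + (t : ℂ) * Complex.I + 2 * a : ℂ) = 1 / 2 + 2 * a + (t : ℂ) * Complex.I := by ring
    rw [e3] at h0 h1 ⊢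
    have h2 : XX N Λ (1 / 2 + 2 * a + (t : ℂ) * Complex.I) =
        LL μ Λ (1 / 2 + 2 * a + (t : ℂ) * Complex.I) * gaf N μ (1 / 2 + 2 * a + (t : ℂ) * Complex.I) := by
      rw [LL_eq hN0, mul_assoc, inv_mul_cancel₀ h0, mul_one]
    rw [h2, norm_mul, norm_mul, Complex.norm_real, Real.norm_eq_abs, abs_of_pos (inv_pos.2 hG0)]
    have h4 : ‖(2 : ℂ) * a‖ = 2 * a := by
      rw [norm_mul, Complex.norm_real, Real.norm_eq_abs, abs_of_pos ha0]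
      simp
    rw [h4] at h1
    have h5 : Real.exp (ℓ * (2 * a) + (226 * m + 25 * m / (1 / 2)) * (1 + (2 * a) ^ 2)) ≤
        Real.exp (2 * a * ℓ + 552 * m) := by
      refine Real.exp_le_exp.2 ?_
      have h6 : (2 * a) ^ 2 ≤ 1 := by nlinarith
      nlinarith
    calc G⁻¹ * (‖LL μ Λ (1 / 2 + 2 * a + (t : ℂ) * Complex.I)‖ *
          ‖gaf N μ (1 / 2 + 2 * a + (t : ℂ) * Complex.I)‖) ≤
          G⁻¹ * (‖LL μ Λ (1 / 2 + 2 * a + (t : ℂ) * Complex.I)‖ * (G * Real.exp (2 * a * ℓ + 552 * m))) := by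
          gcongr
          exact h1.trans (mul_le_mul_of_nonneg_left h5 hG0.le)
      _ = _ := by field_simp
  obtain ⟨x, hx⟩ : ∃ x : ℝ, x = ‖((G⁻¹ : ℝ) : ℂ) * XX N Λ (1 / 2 + (t : ℂ) * Complex.I + 0)‖ := ⟨_, rfl⟩
  obtain ⟨y, hy⟩ : ∃ y : ℝ, y = ‖((G⁻¹ : ℝ) : ℂ) * XX N Λ (1 / 2 + (t : ℂ) * Complex.I + 2 * a)‖ := ⟨_, rfl⟩
  obtain ⟨X0, hX0⟩ : ∃ X0 : ℝ, X0 = ‖LL μ Λ (1 / 2 + (t : ℂ) * Complex.I)‖ := ⟨_, rfl⟩
  obtain ⟨Y0, hY0⟩ : ∃ Y0 : ℝ, Y0 = ‖LL μ Λ (1 / 2 + 2 * a + (t : ℂ) * Complex.I)‖ := ⟨_, rfl⟩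
  rw [← hX0, ← hx] at hc1
  rw [← hY0, ← hy] at hc2
  rw [← hx, ← hy] at hin
  rw [← hX0, ← hY0]
  have hx0 : 0 ≤ x := by rw [hx]; exact norm_nonneg _
  have hy0 : 0 ≤ y := by rw [hy]; exact norm_nonneg _
  have hX00 : 0 ≤ X0 := by rw [hX0]; exact norm_nonneg _
  have hY00 : 0 ≤ Y0 := by rw [hY0]; exact norm_nonneg _
  have hQp : 0 < cnd N μ t := by linarith
  have hQ : cnd N μ t ^ (a / 2) = Real.exp (a / 2 * Real.log (cnd N μ t)) := by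
    rw [Real.rpow_def_of_pos hQp, mul_comm]
  have hsq : X0 ^ 2 ≤ (Real.exp C1 * cnd N μ t ^ (a / 2) * Y0 ^ 2 * TP * TS) ^ 2 := by
    calc X0 ^ 2 ≤ (Real.exp (231 * m) * x) ^ 2 := pow_le_pow_left₀ hX00 hc1 2
      _ = Real.exp (231 * m) ^ 2 * x ^ 2 := by ring
      _ ≤ Real.exp (231 * m) ^ 2 * (Real.exp (-(6 * a * ℓ) + 14 * K) * Real.exp 1 * y ^ 4 * TP ^ 2 * TS ^ 2) :=
          mul_le_mul_of_nonneg_left hin (by positivity)
      _ ≤ Real.exp (231 * m) ^ 2 * (Real.exp (-(6 * a * ℓ) + 14 * K) * Real.exp 1 *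
            (Real.exp (2 * a * ℓ + 552 * m) * Y0) ^ 4 * TP ^ 2 * TS ^ 2) := by gcongr
      _ = (Real.exp (231 * m) ^ 2 * Real.exp (-(6 * a * ℓ) + 14 * K) * Real.exp 1 *
            Real.exp (2 * a * ℓ + 552 * m) ^ 4) * (Y0 ^ 4 * TP ^ 2 * TS ^ 2) := by ring
      _ ≤ (Real.exp C1 * Real.exp (a / 2 * Real.log (cnd N μ t))) ^ 2 * (Y0 ^ 4 * TP ^ 2 * TS ^ 2) := by
          refine mul_le_mul_of_nonneg_right ?_ (by positivity)
          rw [← Real.exp_add C1, ← Real.exp_nat_mul, ← Real.exp_nat_mul, ← Real.exp_nat_mul,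
            ← Real.exp_add, ← Real.exp_add, ← Real.exp_add]
          refine Real.exp_le_exp.2 ?_
          push_cast
          rw [hC1]
          have h1 : a * ℓ ≤ a * (1 / 2 * Real.log (cnd N μ t) + 5 * m) :=
            mul_le_mul_of_nonneg_left hup ha0.le
          have h2 : a * (5 * m) ≤ 1 / 2 * (5 * m) := mul_le_mul_of_nonneg_right ha2 (by positivity)
          nlinarith
      _ = _ := by rw [hQ]; ring
  have hfin : X0 ≤ Real.exp C1 * cnd N μ t ^ (a / 2) * Y0 ^ 2 * TP * TS := by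
    refine le_of_sq_le_sq hsq (by positivity)
  refine hfin.trans ?_
  have : 0 ≤ C2 * (cnd N μ t ^ (a / 2) * Y0 ^ 2 * TP * TS) := by positivity
  linarith [this, add_mul (Real.exp C1) C2 (cnd N μ t ^ (a / 2) * Y0 ^ 2 * TP * TS),
    mul_assoc (Real.exp C1) (cnd N μ t ^ (a / 2) * Y0 ^ 2 * TP) TS,
    (by ring : (Real.exp C1 + C2) * cnd N μ t ^ (a / 2) * Y0 ^ 2 * TP * TS =
      Real.exp C1 * cnd N μ t ^ (a / 2) * Y0 ^ 2 * TP * TS + C2 * (cnd N μ t ^ (a / 2) * Y0 ^ 2 * TP * TS))]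

end Pool.Agent.X102.SZ
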