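import Mathlib
import Pool.Agent.X102.SY4

/-!
Log-free version: corollaries.
-/

set_option autoImplicit false
open Set Filter Topology Metric
open scoped ComplexConjugate

namespace Pool.Agent.X102.SZ

open Pool.Agent.W169.HF
open H353.E H353.F

/-- the weight of a zero near the line `Re s = 1` -/
lemma weight {a : ℝ} (ha1 : 3 / 8 ≤ a) (ha2 : a ≤ 1 / 2) {w : ℂ} (hw1 : a < w.re) (hw2 : w.re ≤ 1 / 2) :
    ‖Complex.tan ((Real.pi / (4 * a) : ℝ) * w)‖ ^ 2 ≤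
      Real.exp (34 * (1 / 2 - a) * Real.exp (-(3 * |w.im|))) := by
  have hpi := Real.pi_pos
  have hpi3 := Real.pi_gt_three
  have hpi4 : Real.pi < 3.15 := Real.pi_lt_d2
  have hpi5 : Real.pi < 3.1416 := Real.pi_lt_d4
  have ha0 : 0 < a := by linarith
  set k : ℝ := Real.pi / (4 * a) with hk
  have hk0 : 0 < k := by positivity
  have hka : k * (4 * a) = Real.pi := by rw [hk]; field_simp
  have hk2 : 3 / 2 ≤ k := by
    rw [hk, le_div_iff₀ (by positivity)]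
    nlinarith
  set z : ℂ := (k : ℂ) * w with hz
  have ere : z.re = k * w.re := Complex.re_ofReal_mul _ _
  have eim : z.im = k * w.im := Complex.im_ofReal_mul _ _
  set x : ℝ := k * w.re with hx
  set y : ℝ := k * w.im with hy
  -- `x - π/4`
  have hxi0 : Real.pi / 4 < x := by
    have : k * a < k * w.re := mul_lt_mul_of_pos_left hw1 hk0
    rw [hx]; nlinarith
  have hxi : x - Real.pi / 4 ≤ 2 * Real.pi / 3 * (1 / 2 - a) := by
    have h1 : x ≤ k * (1 / 2) := by rw [hx]; exact mul_le_mul_of_nonneg_left hw2 hk0.le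
    have h2 : k * (1 / 2) - Real.pi / 4 = k * (1 / 2 - a) := by rw [← hka]; ring
    have h3 : k ≤ 2 * Real.pi / 3 := by
      rw [hk, div_le_iff₀ (by positivity)]
      nlinarith
    have h4 : k * (1 / 2 - a) ≤ 2 * Real.pi / 3 * (1 / 2 - a) :=
      mul_le_mul_of_nonneg_right h3 (by linarith)
    linarith
  have hx3 : x ≤ Real.pi / 3 := by
    have : 2 * Real.pi / 3 * (1 / 2 - a) ≤ 2 * Real.pi / 3 * (1 / 8) :=
      mul_le_mul_of_nonneg_left (by linarith) (by positivity)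
    linarith
  have hcosx : 1 / 2 ≤ Real.cos x := by
    rw [← Real.cos_pi_div_three]
    exact Real.cos_le_cos_of_nonneg_of_le_pi (by linarith) (by linarith) hx3
  have hcos2 : 1 / 4 ≤ Real.cos x ^ 2 := by nlinarith
  -- the difference
  have hdiff : Real.sin x ^ 2 - Real.cos x ^ 2 ≤ 4.1888 * (1 / 2 - a) := by
    have h1 : Real.sin x ^ 2 - Real.cos x ^ 2 = Real.sin (2 * (x - Real.pi / 4)) := by
      have h2 : 2 * (x - Real.pi / 4) = 2 * x - Real.pi / 2 := by ring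
      rw [h2, Real.sin_sub_pi_div_two, Real.cos_two_mul']
      ring
    rw [h1]
    have h3 : Real.sin (2 * (x - Real.pi / 4)) ≤ 2 * (x - Real.pi / 4) :=
      Real.sin_le (by linarith)
    have h4 : 2 * Real.pi / 3 * (1 / 2 - a) ≤ 2 * 3.1416 / 3 * (1 / 2 - a) :=
      mul_le_mul_of_nonneg_right (by linarith) (by linarith)
    norm_num at h4 ⊢
    linarith
  -- the denominator
  have hden : Real.exp (3 * |w.im|) / 8 ≤ 1 / 4 + Real.sinh y ^ 2 := by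
    have h1 : Real.exp (3 * |w.im|) ≤ Real.exp (2 * |y|) := by
      refine Real.exp_le_exp.2 ?_
      rw [hy, abs_mul, abs_of_pos hk0]
      have := mul_le_mul_of_nonneg_right hk2 (abs_nonneg w.im)
      linarith
    have h2 : Real.sinh y ^ 2 = Real.sinh |y| ^ 2 := by
      rw [← sq_abs, Real.abs_sinh]
    have h3 : Real.exp (2 * |y|) = Real.exp |y| ^ 2 := by
      rw [← Real.exp_nat_mul]; norm_num
    rw [h2, Real.sinh_eq, Real.exp_neg]
    rw [h3] at h1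
    set u : ℝ := Real.exp |y| with hu
    have hu0 : 0 < u := Real.exp_pos _
    have h5 : u⁻¹ * u = 1 := inv_mul_cancel₀ hu0.ne'
    nlinarith [sq_nonneg (u - 2 * u⁻¹), sq_nonneg (u⁻¹)]
  have hsin := Pool.Agent.TH809.MZ.norm_sin_sq z
  have hcos := norm_cos_sq z
  rw [ere, eim] at hsin hcos
  have hcpos : 0 < ‖Complex.cos z‖ ^ 2 := by
    rw [hcos]
    have := sq_nonneg (Real.sinh y)
    linarith
  rw [Complex.tan, norm_div, div_pow, div_le_iff₀ hcpos, hsin, hcos]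
  have hw := Real.exp_pos (-(3 * |w.im|))
  have hE : 1 + 34 * (1 / 2 - a) * Real.exp (-(3 * |w.im|)) ≤
      Real.exp (34 * (1 / 2 - a) * Real.exp (-(3 * |w.im|))) := by
    have := Real.add_one_le_exp (34 * (1 / 2 - a) * Real.exp (-(3 * |w.im|)))
    linarith
  have hden2 : Real.exp (3 * |w.im|) / 8 ≤ Real.cos x ^ 2 + Real.sinh y ^ 2 := by linarith
  have he : Real.exp (-(3 * |w.im|)) * Real.exp (3 * |w.im|) = 1 := by
    rw [← Real.exp_add]; simp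
  have hkey : 34 * (1 / 2 - a) * Real.exp (-(3 * |w.im|)) * (Real.exp (3 * |w.im|) / 8) ≤
      34 * (1 / 2 - a) * Real.exp (-(3 * |w.im|)) * (Real.cos x ^ 2 + Real.sinh y ^ 2) :=
    mul_le_mul_of_nonneg_left hden2 (mul_nonneg (by linarith) hw.le)
  have hkey2 : 34 * (1 / 2 - a) * Real.exp (-(3 * |w.im|)) * (Real.exp (3 * |w.im|) / 8) =
      4.25 * (1 / 2 - a) := by
    calc 34 * (1 / 2 - a) * Real.exp (-(3 * |w.im|)) * (Real.exp (3 * |w.im|) / 8) =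
          34 / 8 * (1 / 2 - a) * (Real.exp (-(3 * |w.im|)) * Real.exp (3 * |w.im|)) := by ring
      _ = _ := by rw [he]; norm_num
  have hpos : 0 ≤ Real.cos x ^ 2 + Real.sinh y ^ 2 := by positivity
  calc Real.sin x ^ 2 + Real.sinh y ^ 2 =
        (Real.cos x ^ 2 + Real.sinh y ^ 2) + (Real.sin x ^ 2 - Real.cos x ^ 2) := by ring
    _ ≤ (Real.cos x ^ 2 + Real.sinh y ^ 2) +
        34 * (1 / 2 - a) * Real.exp (-(3 * |w.im|)) * (Real.cos x ^ 2 + Real.sinh y ^ 2) := by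
        have : 0 ≤ 1 / 2 - a := by linarith
        nlinarith
    _ = (1 + 34 * (1 / 2 - a) * Real.exp (-(3 * |w.im|))) * (Real.cos x ^ 2 + Real.sinh y ^ 2) := by ring
    _ ≤ _ := mul_le_mul_of_nonneg_right hE hpos

/-- the number of zeros for automorphic data -/
theorem datum_count (m : ℕ) (hm : 1 ≤ m) {θ : ℝ} (hθ0 : 0 ≤ θ) (hθ1 : θ ≤ 1 / 2) :
    ∃ A : ℝ, 0 < A ∧ ∀ (N : ℝ) (μ : Fin m → ℂ) (α : Fin m → ℕ → ℂ) (ε : ℂ) (Λ : ℂ → ℂ),
    DatumT θ N μ α ε Λ → (∀ s : ℂ, 1 < s.re → Λ s ≠ 0) → ∀ (t h : ℝ), 0 ≤ h →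
      ∀ S : Finset ℂ, (∀ ρ ∈ S, 0 ≤ ρ.re ∧ |ρ.im - t| ≤ h) →
      ∑ ρ ∈ S, (analyticOrderNatAt Λ ρ : ℝ) ≤ A * (h + 6) ^ 3 * (1 + Real.log (cnd N μ t)) := by
  classical
  have hm' : (1 : ℝ) ≤ m := by exact_mod_cast hm
  obtain ⟨A, hA, hone⟩ := UD.count
  obtain ⟨B, hB, HS⟩ := sharpX m hm hθ0 hθ1 (show (0:ℝ) < 1 / 2 by norm_num) (by norm_num)
  set K : ℝ := Real.log B + 20 * (6 * m) with hK
  have hlogB : 0 ≤ Real.log B := Real.log_nonneg hB
  have hK0 : 0 ≤ K := by rw [hK]; positivity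
  refine ⟨A * (1 + 7 * m + K) + 1, by positivity, fun N μ α ε Λ d hΛ t h hh S' hS' => ?_⟩
  obtain ⟨S, hslow, -, -, -⟩ := HS N μ α ε Λ d
  have hN := d.one_le
  have hN0 : 0 < N := by linarith
  have hud := ud_of_sharp S hslow (by linarith) t
  have e0 : (1 + θ + 1 / 2) - 1 / 2 = 1 / 2 + θ + 1 / 2 := by ring
  rw [e0] at hud
  obtain ⟨ℓ, hℓ⟩ : ∃ ℓ : ℝ, ℓ = (gaD N μ (3 / 2 + t * Complex.I)).re := ⟨_, rfl⟩
  obtain ⟨G, hG⟩ : ∃ G : ℝ, G = ‖gaf N μ (3 / 2 + t * Complex.I)‖ * Real.exp (-ℓ) := ⟨_, rfl⟩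
  rw [← hℓ, ← hG, ← hK] at hud
  have hG0 : 0 < G := hud.hG
  have hud1 := UD.scale hud
  have hXd : Differentiable ℂ (XX N Λ) := hslow.1
  have hNcne : ∀ s : ℂ, (N : ℂ) ^ (s / 2) ≠ 0 := fun s => by
    rw [Ne, Complex.cpow_eq_zero_iff]
    rintro ⟨h, -⟩
    exact hN0.ne' (by exact_mod_cast h)
  have hXne : ∀ s : ℂ, XX N Λ s = 0 ↔ Λ s = 0 := fun s => by
    unfold XX
    rw [mul_eq_zero]
    simp [hNcne s]
  have hGi : ((G⁻¹ : ℝ) : ℂ) ≠ 0 := by exact_mod_cast (inv_pos.2 hG0).ne'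
  have hcre : ∀ w : ℂ, (1 / 2 + (t : ℂ) * Complex.I + w).re = 1 / 2 + w.re := fun w => by simp
  have hzero : ∀ w : ℂ, ((G⁻¹ : ℝ) : ℂ) * XX N Λ (1 / 2 + (t : ℂ) * Complex.I + w) = 0 ↔
      Λ (1 / 2 + (t : ℂ) * Complex.I + w) = 0 := fun w => by
    rw [mul_eq_zero, hXne]
    exact ⟨fun h => h.resolve_left hGi, Or.inr⟩
  have hord : ∀ w : ℂ, analyticOrderNatAt
      (fun u : ℂ => ((G⁻¹ : ℝ) : ℂ) * XX N Λ (1 / 2 + (t : ℂ) * Complex.I + u)) w =
      analyticOrderNatAt Λ (1 / 2 + (t : ℂ) * Complex.I + w) := fun w => by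
    have h1 := order_scale (f := fun u : ℂ => XX N Λ (1 / 2 + (t : ℂ) * Complex.I + u))
      (g := fun _ => ((G⁻¹ : ℝ) : ℂ)) (w := w) (hXd.comp (by fun_prop)) (differentiable_const _) hGi
    rw [h1, order_shift (XX N Λ) (1 / 2 + (t : ℂ) * Complex.I) w]
    unfold XX
    refine order_scale d.entire ?_ (hNcne _)
    intro z
    exact (((hasDerivAt_id z).div_const 2).const_cpow (c := (N : ℂ))
      (Or.inl (by exact_mod_cast hN0.ne'))).differentiableAt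
  have hmain := hone K (1 / 2 + θ + 1 / 2) ℓ _ hK0 (by linarith) (by linarith) hud1
    (fun w hw h0 => hΛ _ (by rw [hcre]; linarith) ((hzero w).1 h0)) h hh
    (S'.image fun ρ => ρ - (1 / 2 + (t : ℂ) * Complex.I)) (by
      intro w hw
      obtain ⟨ρ, hρ, rfl⟩ := Finset.mem_image.1 hw
      obtain ⟨k1, k2⟩ := hS' ρ hρ
      constructor
      · simp; linarith
      · simpa using k2)
  simp only [hord] at hmain
  rw [Finset.sum_image (fun x _ y _ hxy => sub_left_injective hxy)] at hmain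
  have e2 : ∀ ρ : ℂ, 1 / 2 + (t : ℂ) * Complex.I + (ρ - (1 / 2 + (t : ℂ) * Complex.I)) = ρ := fun ρ => by
    ring
  simp only [e2] at hmain
  refine hmain.trans ?_
  have hcnd1 : 1 ≤ cnd N μ t := hN.trans (le_cnd hN μ t)
  have hlc : 0 ≤ Real.log (cnd N μ t) := Real.log_nonneg hcnd1
  have hlo := gaD_re_ge hN d.re_le t
  change 1 / 2 * Real.log (cnd N μ t) - 7 * m ≤ _ at hlo
  have hup := gaD_re_le hN d.re_le t
  change _ ≤ 1 / 2 * Real.log (cnd N μ t) + 5 * m at hup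
  rw [← hℓ] at hlo hup
  have hℓabs : |ℓ| ≤ Real.log (cnd N μ t) + 7 * m := by
    rw [abs_le]; constructor <;> linarith
  have h1 : Om K ℓ h ≤ (1 + 7 * m + K) * ((h + 6) ^ 2 * (1 + Real.log (cnd N μ t))) := by
    unfold Om
    have h2 : 1 ≤ (h + 6) ^ 2 := by nlinarith
    have h3 : 1 ≤ 1 + Real.log (cnd N μ t) := by linarith
    have h4 : (h + 6) ^ 2 * 1 ≤ (h + 6) ^ 2 * (1 + Real.log (cnd N μ t)) :=
      mul_le_mul_of_nonneg_left h3 (by positivity)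
    have h5 : 1 * (1 + Real.log (cnd N μ t)) ≤ (h + 6) ^ 2 * (1 + Real.log (cnd N μ t)) :=
      mul_le_mul_of_nonneg_right h2 (by positivity)
    have h6 := mul_le_mul_of_nonneg_left h4 hK0
    have h7 : 7 * (m : ℝ) * 1 ≤ 7 * m * ((h + 6) ^ 2 * (1 + Real.log (cnd N μ t))) :=
      mul_le_mul_of_nonneg_left (by linarith) (by positivity)
    linarith
  calc A * (1 + h) * Om K ℓ h ≤
        A * (h + 6) * ((1 + 7 * m + K) * ((h + 6) ^ 2 * (1 + Real.log (cnd N μ t)))) :=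
        mul_le_mul (mul_le_mul_of_nonneg_left (by linarith) hA) h1 (Om_pos hK0).le (by positivity)
    _ = A * (1 + 7 * m + K) * (h + 6) ^ 3 * (1 + Real.log (cnd N μ t)) := by ring
    _ ≤ _ := by gcongr; linarith

/-- a weighted sum over zeros far away -/
lemma far_sum {P : Finset ℂ} {c : ℂ → ℝ} {A x t J : ℝ} (hc : ∀ ρ ∈ P, 0 ≤ c ρ) (hJ : 0 ≤ J)
    (hA : 0 ≤ A) (hx : 0 ≤ x) (hP : ∀ ρ ∈ P, J ≤ |ρ.im - t|)
    (hcount : ∀ h : ℝ, 0 ≤ h → ∀ S ⊆ P, (∀ ρ ∈ S, |ρ.im - t| ≤ h) →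
      ∑ ρ ∈ S, c ρ ≤ A * (h + 6) ^ 3 * x) :
    ∑ ρ ∈ P, c ρ * Real.exp (-(3 * |ρ.im - t|)) ≤ 12 * Real.exp 7 * A * x * Real.exp (-J) := by
  classical
  obtain ⟨M, hM⟩ : ∃ M : ℕ, ∀ ρ ∈ P, ⌊|ρ.im - t|⌋₊ < M := by
    refine ⟨P.sup (fun ρ => ⌊|ρ.im - t|⌋₊) + 1, fun ρ hρ => Nat.lt_succ_of_le ?_⟩
    exact Finset.le_sup (f := fun ρ : ℂ => ⌊|ρ.im - t|⌋₊) hρ
  have hmaps : ∀ ρ ∈ P, ⌊|ρ.im - t|⌋₊ ∈ Finset.range M := fun ρ hρ => Finset.mem_range.2 (hM ρ hρ)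
  rw [← Finset.sum_fiberwise_of_maps_to hmaps]
  have hbox : ∀ n ∈ Finset.range M, ∑ ρ ∈ P with ⌊|ρ.im - t|⌋₊ = n,
      c ρ * Real.exp (-(3 * |ρ.im - t|)) ≤ 6 * Real.exp 7 * A * x * Real.exp (-J) * (1 / 2) ^ n := by
    intro n _
    have h1 : ∀ ρ ∈ P.filter (fun ρ => ⌊|ρ.im - t|⌋₊ = n),
        c ρ * Real.exp (-(3 * |ρ.im - t|)) ≤ c ρ * (Real.exp (-J) * Real.exp (-(2 * (n : ℝ)))) := by
      intro ρ hρ
      obtain ⟨k1, k2⟩ := Finset.mem_filter.1 hρ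
      refine mul_le_mul_of_nonneg_left ?_ (hc ρ k1)
      rw [← Real.exp_add]
      refine Real.exp_le_exp.2 ?_
      have h2 : (n : ℝ) ≤ |ρ.im - t| := by
        rw [← k2]; exact Nat.floor_le (abs_nonneg _)
      have h3 := hP ρ k1
      linarith
    refine (Finset.sum_le_sum h1).trans ?_
    rw [← Finset.sum_mul]
    have h4 := hcount (n + 1) (by positivity) (P.filter (fun ρ => ⌊|ρ.im - t|⌋₊ = n))
      (Finset.filter_subset _ _) (by
        intro ρ hρ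
        obtain ⟨k1, k2⟩ := Finset.mem_filter.1 hρ
        rw [← k2]
        exact (Nat.lt_floor_add_one _).le)
    have h5 : ((n : ℝ) + 1 + 6) ^ 3 ≤ 6 * Real.exp (n + 7) := by
      have h6 := Real.pow_div_factorial_le_exp (x := (n : ℝ) + 7) (by positivity) 3
      have h7 : ((Nat.factorial 3 : ℕ) : ℝ) = 6 := by norm_num [Nat.factorial]
      rw [h7, div_le_iff₀ (by norm_num)] at h6
      have h8 : (n : ℝ) + 1 + 6 = n + 7 := by ring
      rw [h8]
      linarith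
    have h9 : Real.exp (-(n : ℝ)) ≤ (1 / 2) ^ n := by
      have h10 : Real.exp (-(n : ℝ)) = Real.exp (-1) ^ n := by
        rw [← Real.exp_nat_mul]; congr 1; ring
      rw [h10]
      refine pow_le_pow_left₀ (Real.exp_pos _).le ?_ n
      have := Real.exp_neg_one_lt_d9
      linarith
    calc (∑ ρ ∈ P with ⌊|ρ.im - t|⌋₊ = n, c ρ) * (Real.exp (-J) * Real.exp (-(2 * (n : ℝ)))) ≤
          (A * ((n : ℝ) + 1 + 6) ^ 3 * x) * (Real.exp (-J) * Real.exp (-(2 * (n : ℝ)))) :=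
          mul_le_mul_of_nonneg_right h4 (by positivity)
      _ ≤ (A * (6 * Real.exp (n + 7)) * x) * (Real.exp (-J) * Real.exp (-(2 * (n : ℝ)))) := by
          gcongr
      _ = 6 * A * x * Real.exp (-J) * (Real.exp (n + 7) * Real.exp (-(2 * (n : ℝ)))) := by ring
      _ = 6 * A * x * Real.exp (-J) * (Real.exp 7 * Real.exp (-(n : ℝ))) := by
          rw [← Real.exp_add, ← Real.exp_add]
          congr 2
          ring
      _ ≤ 6 * A * x * Real.exp (-J) * (Real.exp 7 * (1 / 2) ^ n) := by gcongr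
      _ = _ := by ring
  refine (Finset.sum_le_sum hbox).trans ?_
  rw [← Finset.mul_sum]
  have hgeo : ∑ n ∈ Finset.range M, ((1 : ℝ) / 2) ^ n ≤ 2 := by
    have h1 := (summable_geometric_of_lt_one (r := (1 : ℝ) / 2) (by norm_num) (by norm_num)).sum_le_tsum
      (Finset.range M) (fun n _ => by positivity)
    rw [tsum_geometric_of_lt_one (by norm_num) (by norm_num)] at h1
    norm_num at h1 ⊢
    exact h1
  calc 6 * Real.exp 7 * A * x * Real.exp (-J) * ∑ n ∈ Finset.range M, ((1 : ℝ) / 2) ^ n ≤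
        6 * Real.exp 7 * A * x * Real.exp (-J) * 2 := mul_le_mul_of_nonneg_left hgeo (by positivity)
    _ = _ := by ring

end Pool.Agent.X102.SZ
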