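import Mathlib
import Pool.Agent.X102.SY5

/-!
Log-free version: the inequality of Soundararajan and Thorner, and log-free zero density estimates.
-/

set_option autoImplicit false
open Set Filter Topology Metric
open scoped ComplexConjugate

namespace Pool.Agent.X102.SZ

open Pool.Agent.W169.HF
open H353.E H353.F

theorem datum_ST (m : ℕ) (hm : 1 ≤ m) {θ ε : ℝ} (hθ0 : 0 ≤ θ) (hθ1 : θ < 1 / 2) (hε : 0 < ε) :
    ∃ J B : ℝ, 0 < J ∧ 0 < B ∧ ∀ (N : ℝ) (μ : Fin m → ℂ) (α : Fin m → ℕ → ℂ) (e : ℂ) (Λ : ℂ → ℂ),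
    DatumT θ N μ α e Λ → (∀ s : ℂ, 1 < s.re → Λ s ≠ 0) → ∀ (t κ : ℝ), 0 ≤ κ → κ ≤ 1 / 8 →
      κ ≤ (1 / 2 - θ) / 4 →
      ∃ P : Finset ℂ, (∀ ρ ∈ P, Λ ρ = 0 ∧ 1 - κ < ρ.re ∧ |ρ.im - t| ≤ J) ∧
      ‖LL μ Λ (1 / 2 + (t : ℂ) * Complex.I)‖ ≤ B * cnd N μ t ^ (1 / 4 - (1 / 2 - ε) * κ) *
        Real.exp (34 * κ * ∑ ρ ∈ P, (analyticOrderNatAt Λ ρ : ℝ)) := by
  classical
  set α₁ : ℝ := min (1 / 8) ((1 / 2 - θ) / 4) with hα₁
  have ha1 : α₁ ≤ 1 / 8 := min_le_left _ _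
  obtain ⟨B1, hB1, hmain⟩ := datum_ineq m hm (θ := θ) (α₁ := α₁) hθ0 hθ1.le (by linarith) (by linarith)
  obtain ⟨A, hA, hcount⟩ := datum_count m hm (θ := θ) hθ0 hθ1.le
  have hη : 0 < (1 / 2 - θ) / 2 := by linarith
  obtain ⟨B2, hB2, HS⟩ := sharpX m hm hθ0 hθ1.le hη (by linarith)
  have he7 := Real.exp_pos 7
  set J : ℝ := 408 * Real.exp 7 * A / ε with hJ
  have hJ0 : 0 < J := by positivity
  refine ⟨J, B1 * B2 ^ 2 * Real.exp ε, hJ0, by positivity, fun N μ α e Λ d hΛ t κ hκ0 hκ1 hκ2 => ?_⟩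
  obtain ⟨S, -, -, -, -⟩ := HS N μ α e Λ d
  have hN := d.one_le
  have hN0 : 0 < N := by linarith
  have hcnd1 : 1 ≤ cnd N μ t := hN.trans (le_cnd hN μ t)
  have hlc : 0 ≤ Real.log (cnd N μ t) := Real.log_nonneg hcnd1
  have hκα : κ ≤ α₁ := le_min hκ1 hκ2
  set a : ℝ := 1 / 2 - κ with ha
  obtain ⟨P, hP, hin⟩ := hmain N μ α e Λ d hΛ t 0 a le_rfl (by rw [ha]; linarith) (by rw [ha]; linarith)
  have hin0 := hin ∅ (by simp)
  rw [Finset.prod_empty, mul_one] at hin0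
  -- value on the right
  have hright : ‖LL μ Λ (1 / 2 + 2 * a + (t : ℂ) * Complex.I)‖ ≤ B2 := by
    have hre : (1 / 2 + 2 * (a : ℂ) + (t : ℂ) * Complex.I).re = 1 / 2 + 2 * a := by simp
    have h1 := S.hi (1 / 2 + 2 * (a : ℂ) + (t : ℂ) * Complex.I) (by rw [hre, ha]; linarith)
    rw [LL_eq hN0, norm_mul, norm_inv]
    by_cases h0 : ‖gaf N μ (1 / 2 + 2 * (a : ℂ) + (t : ℂ) * Complex.I)‖ = 0
    · rw [h0, inv_zero, mul_zero]; linarith
    · have hpos : 0 < ‖gaf N μ (1 / 2 + 2 * (a : ℂ) + (t : ℂ) * Complex.I)‖ :=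
        lt_of_le_of_ne (norm_nonneg _) (Ne.symm h0)
      rw [← div_eq_mul_inv, div_le_iff₀ hpos]
      exact h1
  -- the product
  set v : ℂ → ℝ := fun ρ => (analyticOrderNatAt Λ ρ : ℝ) with hv
  have hv0 : ∀ ρ, 0 ≤ v ρ := fun ρ => by rw [hv]; positivity
  have hfac : ∀ ρ ∈ P, (‖Complex.tan ((Real.pi / (4 * a) : ℝ) *
      (ρ - (1 / 2 + (t : ℂ) * Complex.I)))‖ ^ 2) ^ analyticOrderNatAt Λ ρ ≤
      Real.exp (34 * κ * (v ρ * Real.exp (-(3 * |ρ.im - t|)))) := by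
    intro ρ hρ
    obtain ⟨k1, k2, k3⟩ := hP ρ hρ
    have hre : (ρ - (1 / 2 + (t : ℂ) * Complex.I)).re = ρ.re - 1 / 2 := by simp
    have him : (ρ - (1 / 2 + (t : ℂ) * Complex.I)).im = ρ.im - t := by simp
    have hρ1 : ρ.re ≤ 1 := by
      by_contra hc
      push Not at hc
      exact hΛ ρ hc k1
    have hw := weight (a := a) (by rw [ha]; linarith) (by rw [ha]; linarith)
      (w := ρ - (1 / 2 + (t : ℂ) * Complex.I)) (by rw [hre]; linarith) (by rw [hre]; linarith)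
    rw [him] at hw
    have e1 : 1 / 2 - a = κ := by rw [ha]; ring
    rw [e1] at hw
    calc _ ≤ Real.exp (34 * κ * Real.exp (-(3 * |ρ.im - t|))) ^ analyticOrderNatAt Λ ρ :=
          pow_le_pow_left₀ (by positivity) hw _
      _ = _ := by
          rw [← Real.exp_nat_mul]
          congr 1
          rw [hv]
          ring
  have hprod : ∏ ρ ∈ P, (‖Complex.tan ((Real.pi / (4 * a) : ℝ) *
      (ρ - (1 / 2 + (t : ℂ) * Complex.I)))‖ ^ 2) ^ analyticOrderNatAt Λ ρ ≤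
      Real.exp (34 * κ * ∑ ρ ∈ P, v ρ * Real.exp (-(3 * |ρ.im - t|))) := by
    refine (Finset.prod_le_prod (fun ρ _ => by positivity) hfac).trans (le_of_eq ?_)
    rw [← Real.exp_sum, Finset.mul_sum]
  -- near and far zeros
  set P1 : Finset ℂ := P.filter (fun ρ => |ρ.im - t| ≤ J) with hP1
  set P2 : Finset ℂ := P.filter (fun ρ => ¬ |ρ.im - t| ≤ J) with hP2
  have hsplit : ∑ ρ ∈ P, v ρ * Real.exp (-(3 * |ρ.im - t|)) =
      ∑ ρ ∈ P1, v ρ * Real.exp (-(3 * |ρ.im - t|)) + ∑ ρ ∈ P2, v ρ * Real.exp (-(3 * |ρ.im - t|)) :=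
    (Finset.sum_filter_add_sum_filter_not P (fun ρ => |ρ.im - t| ≤ J) _).symm
  have hnear : ∑ ρ ∈ P1, v ρ * Real.exp (-(3 * |ρ.im - t|)) ≤ ∑ ρ ∈ P1, v ρ := by
    refine Finset.sum_le_sum fun ρ _ => mul_le_of_le_one_right (hv0 ρ) ?_
    rw [Real.exp_le_one_iff]
    have := abs_nonneg (ρ.im - t)
    linarith
  have hfar : ∑ ρ ∈ P2, v ρ * Real.exp (-(3 * |ρ.im - t|)) ≤ ε / 34 * (1 + Real.log (cnd N μ t)) := by
    have h1 := far_sum (P := P2) (c := v) (A := A) (x := 1 + Real.log (cnd N μ t)) (t := t) (J := J)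
      (fun ρ _ => hv0 ρ) hJ0.le hA.le (by linarith) (by
        intro ρ hρ
        have := (Finset.mem_filter.1 hρ).2
        push Not at this
        exact this.le) (by
        intro h hh S hS hS2
        refine hcount N μ α e Λ d hΛ t h hh S fun ρ hρ => ⟨?_, hS2 ρ hρ⟩
        have h2 := (hP ρ (Finset.mem_of_mem_filter ρ (hS hρ))).2.1
        rw [ha] at h2
        linarith)
    refine h1.trans ?_
    have h2 : Real.exp (-J) ≤ 1 / J := by
      rw [Real.exp_neg, ← one_div]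
      refine one_div_le_one_div_of_le hJ0 ?_
      linarith [Real.add_one_le_exp J]
    calc 12 * Real.exp 7 * A * (1 + Real.log (cnd N μ t)) * Real.exp (-J) ≤
          12 * Real.exp 7 * A * (1 + Real.log (cnd N μ t)) * (1 / J) :=
          mul_le_mul_of_nonneg_left h2 (by positivity)
      _ = _ := by
          rw [hJ]
          field_simp
          ring
  refine ⟨P1, fun ρ hρ => ?_, ?_⟩
  · obtain ⟨k1, k2⟩ := Finset.mem_filter.1 hρ
    obtain ⟨k3, k4, k5⟩ := hP ρ k1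
    refine ⟨k3, ?_, k2⟩
    rw [ha] at k4
    linarith
  refine hin0.trans ?_
  have hQp : 0 < cnd N μ t := by linarith
  have hsum : 34 * κ * ∑ ρ ∈ P, v ρ * Real.exp (-(3 * |ρ.im - t|)) ≤
      34 * κ * ∑ ρ ∈ P1, v ρ + ε * κ * Real.log (cnd N μ t) + ε := by
    rw [hsplit]
    have h1 : 34 * κ * (∑ ρ ∈ P1, v ρ * Real.exp (-(3 * |ρ.im - t|)) +
        ∑ ρ ∈ P2, v ρ * Real.exp (-(3 * |ρ.im - t|))) ≤
        34 * κ * (∑ ρ ∈ P1, v ρ + ε / 34 * (1 + Real.log (cnd N μ t))) :=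
      mul_le_mul_of_nonneg_left (by linarith) (by positivity)
    have h2 : ε * κ ≤ ε * 1 := mul_le_mul_of_nonneg_left (by linarith) hε.le
    linarith
  have e3 : a / 2 = 1 / 4 - 1 / 2 * κ := by rw [ha]; ring
  calc B1 * cnd N μ t ^ (a / 2) * ‖LL μ Λ (1 / 2 + 2 * a + (t : ℂ) * Complex.I)‖ ^ 2 *
        ∏ ρ ∈ P, (‖Complex.tan ((Real.pi / (4 * a) : ℝ) *
          (ρ - (1 / 2 + (t : ℂ) * Complex.I)))‖ ^ 2) ^ analyticOrderNatAt Λ ρ ≤
        B1 * cnd N μ t ^ (a / 2) * B2 ^ 2 *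
          Real.exp (34 * κ * ∑ ρ ∈ P1, v ρ + ε * κ * Real.log (cnd N μ t) + ε) := by
        refine mul_le_mul ?_ (hprod.trans (Real.exp_le_exp.2 hsum))
          (Finset.prod_nonneg fun ρ _ => by positivity) (by positivity)
        exact mul_le_mul_of_nonneg_left (pow_le_pow_left₀ (norm_nonneg _) hright 2) (by positivity)
    _ = B1 * B2 ^ 2 * Real.exp ε * (cnd N μ t ^ (a / 2) * Real.exp (ε * κ * Real.log (cnd N μ t))) *
          Real.exp (34 * κ * ∑ ρ ∈ P1, v ρ) := by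
        rw [Real.exp_add, Real.exp_add]; ring
    _ = _ := by
        rw [Real.rpow_def_of_pos hQp, ← Real.exp_add, Real.rpow_def_of_pos hQp, e3]
        congr 3
        ring

theorem datum_log (m : ℕ) (hm : 1 ≤ m) {θ A δ κ₀ : ℝ} (hθ0 : 0 ≤ θ) (hθ1 : θ < 1 / 2) (hA : 0 < A)
    (hδ0 : 0 ≤ δ) (hδ : δ < 1 / (2 * A)) (hκ₀ : 0 < κ₀) :
    ∃ J : ℝ, 0 < J ∧ ∀ K : ℝ, ∃ B : ℝ, ∀ (N : ℝ) (μ : Fin m → ℂ) (α : Fin m → ℕ → ℂ) (e : ℂ)
      (Λ : ℂ → ℂ), DatumT θ N μ α e Λ → (∀ s : ℂ, 1 < s.re → Λ s ≠ 0) → ∀ t : ℝ,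
      (∀ κ : ℝ, 0 < κ → κ ≤ κ₀ → ∀ S : Finset ℂ,
        (∀ ρ ∈ S, Λ ρ = 0 ∧ 1 - κ < ρ.re ∧ |ρ.im - t| ≤ J) →
        ∑ ρ ∈ S, (analyticOrderNatAt Λ ρ : ℝ) ≤ K * cnd N μ t ^ (A * κ)) →
      ‖LL μ Λ (1 / 2 + (t : ℂ) * Complex.I)‖ ≤
        B * cnd N μ t ^ (1 / 4 : ℝ) * (1 + Real.log (cnd N μ t)) ^ (-δ) := by
  classical
  set q : ℝ := 2 * A * δ with hq
  have hq0 : 0 ≤ q := by positivity
  have hq1 : q < 1 := by
    rw [lt_div_iff₀ (by positivity)] at hδ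
    rw [hq]; linarith
  set s : ℝ := (1 + q) / 2 with hs
  have hs0 : 0 < s := by linarith
  have hs1 : s < 1 := by linarith
  have hsq : q ≤ s ^ 2 := by rw [hs]; nlinarith [sq_nonneg (1 - q)]
  set ε : ℝ := (1 - s) / 2 with hε
  have hε0 : 0 < ε := by linarith
  obtain ⟨J, B, hJ, hB, hmain⟩ := datum_ST m hm hθ0 hθ1 hε0
  set κm : ℝ := min (min (1 / 8) ((1 / 2 - θ) / 4)) κ₀ with hκm
  have hκm0 : 0 < κm := lt_min (lt_min (by norm_num) (by linarith)) hκ₀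
  -- the threshold
  have hev : ∀ᶠ x : ℝ in atTop, s * Real.log x / (A * x) ≤ κm := by
    have h1 : Tendsto (fun x : ℝ => Real.log x / x) atTop (𝓝 0) := by
      have := Real.isLittleO_log_id_atTop.tendsto_div_nhds_zero
      simpa using this
    have h2 : Tendsto (fun x : ℝ => s / A * (Real.log x / x)) atTop (𝓝 (s / A * 0)) := h1.const_mul _
    rw [mul_zero] at h2
    filter_upwards [h2.eventually_lt_const hκm0, eventually_gt_atTop 0] with x hx hx0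
    have e : s * Real.log x / (A * x) = s / A * (Real.log x / x) := by field_simp
    rw [e]
    exact hx.le
  obtain ⟨x1, hx1⟩ := Filter.eventually_atTop.1 hev
  set x0 : ℝ := max x1 2 with hx0
  have hx02 : 2 ≤ x0 := le_max_right _ _
  refine ⟨J, hJ, fun K => ?_⟩
  set D : ℝ := 34 * max K 0 * (s / A / (1 - s)) with hD
  have hD0 : 0 ≤ D := by
    have : 0 < 1 - s := by linarith
    positivity
  refine ⟨B * Real.exp D * 2 ^ δ + B * (1 + x0) ^ δ, fun N μ α e Λ d hΛ t hden => ?_⟩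
  have hN := d.one_le
  have hcnd1 : 1 ≤ cnd N μ t := hN.trans (le_cnd hN μ t)
  have hlc : 0 ≤ Real.log (cnd N μ t) := Real.log_nonneg hcnd1
  have hQp : 0 < cnd N μ t := by linarith
  set x : ℝ := Real.log (cnd N μ t) with hx
  have hQ4 : 0 < cnd N μ t ^ (1 / 4 : ℝ) := Real.rpow_pos_of_pos hQp _
  have h1x : 0 < (1 + x) ^ (-δ) := Real.rpow_pos_of_pos (by linarith) _
  rcases le_or_gt x0 x with hxx | hxx
  · -- large conductor
    have hxpos : 0 < x := by linarith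
    have hlx : 0 < Real.log x := Real.log_pos (by linarith)
    set κ : ℝ := s * Real.log x / (A * x) with hκ
    have hκ0 : 0 < κ := by positivity
    have hκ1 : κ ≤ κm := hx1 x ((le_max_left _ _).trans hxx)
    have hκ8 : κ ≤ 1 / 8 := hκ1.trans ((min_le_left _ _).trans (min_le_left _ _))
    have hκθ : κ ≤ (1 / 2 - θ) / 4 := hκ1.trans ((min_le_left _ _).trans (min_le_right _ _))
    have hκκ : κ ≤ κ₀ := hκ1.trans (min_le_right _ _)
    obtain ⟨P, hP, hin⟩ := hmain N μ α e Λ d hΛ t κ hκ0.le hκ8 hκθ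
    have hcountP := hden κ hκ0 hκκ P hP
    have hAκ : A * κ * x = s * Real.log x := by rw [hκ]; field_simp
    have hpow : cnd N μ t ^ (A * κ) = x ^ s := by
      rw [Real.rpow_def_of_pos hQp, ← hx, Real.rpow_def_of_pos hxpos]
      congr 1
      linarith
    rw [hpow] at hcountP
    have hsum : 34 * κ * ∑ ρ ∈ P, (analyticOrderNatAt Λ ρ : ℝ) ≤ D := by
      have h1 : Real.log x ≤ x ^ (1 - s) / (1 - s) := Real.log_le_rpow_div hxpos.le (by linarith)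
      have h2 : κ * x ^ s ≤ s / A / (1 - s) := by
        have h3 : x ^ s * x ^ (1 - s) = x := by
          rw [← Real.rpow_add hxpos]; simp
        have h4 : 0 < x ^ s := Real.rpow_pos_of_pos hxpos _
        have h5 : 0 < 1 - s := by linarith
        calc κ * x ^ s = s / A * (Real.log x * x ^ s / x) := by rw [hκ]; field_simp
          _ ≤ s / A * (x ^ (1 - s) / (1 - s) * x ^ s / x) := by gcongr
          _ = s / A * (x ^ s * x ^ (1 - s) / x / (1 - s)) := by ring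
          _ = s / A / (1 - s) := by rw [h3, div_self hxpos.ne']; ring
      have h6 : ∑ ρ ∈ P, (analyticOrderNatAt Λ ρ : ℝ) ≤ max K 0 * x ^ s :=
        hcountP.trans (mul_le_mul_of_nonneg_right (le_max_left _ _) (Real.rpow_nonneg hxpos.le _))
      calc 34 * κ * ∑ ρ ∈ P, (analyticOrderNatAt Λ ρ : ℝ) ≤ 34 * κ * (max K 0 * x ^ s) :=
            mul_le_mul_of_nonneg_left h6 (by positivity)
        _ = 34 * max K 0 * (κ * x ^ s) := by ring
        _ ≤ D := by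
            rw [hD]
            exact mul_le_mul_of_nonneg_left h2 (by positivity)
    have hgain : cnd N μ t ^ (1 / 4 - (1 / 2 - ε) * κ) ≤ cnd N μ t ^ (1 / 4 : ℝ) * (2 ^ δ * (1 + x) ^ (-δ)) := by
      have h1 : cnd N μ t ^ (1 / 4 - (1 / 2 - ε) * κ) = cnd N μ t ^ (1 / 4 : ℝ) * x ^ (-(s ^ 2 / (2 * A))) := by
        rw [Real.rpow_sub hQp, Real.rpow_neg hxpos.le, ← div_eq_mul_inv]
        congr 1
        rw [Real.rpow_def_of_pos hQp, Real.rpow_def_of_pos hxpos, ← hx]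
        congr 1
        have e1 : 1 / 2 - ε = s / 2 := by rw [hε]; ring
        rw [e1, hκ]
        field_simp
      have h2 : x ^ (-(s ^ 2 / (2 * A))) ≤ x ^ (-δ) := by
        refine Real.rpow_le_rpow_of_exponent_le (by linarith) (neg_le_neg ?_)
        rw [le_div_iff₀ (by positivity)]
        rw [hq] at hsq
        linarith
      have h3 : x ^ (-δ) ≤ 2 ^ δ * (1 + x) ^ (-δ) := by
        have h4 : (1 + x) / 2 ≤ x := by linarith
        have h5 : x ^ (-δ) ≤ ((1 + x) / 2) ^ (-δ) :=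
          Real.rpow_le_rpow_of_nonpos (by linarith) h4 (by linarith)
        rw [Real.div_rpow (by linarith) (by norm_num), Real.rpow_neg (by norm_num : (0:ℝ) ≤ 2),
          div_inv_eq_mul] at h5
        linarith
      rw [h1]
      exact mul_le_mul_of_nonneg_left (h2.trans h3) hQ4.le
    calc ‖LL μ Λ (1 / 2 + (t : ℂ) * Complex.I)‖ ≤ B * cnd N μ t ^ (1 / 4 - (1 / 2 - ε) * κ) *
          Real.exp (34 * κ * ∑ ρ ∈ P, (analyticOrderNatAt Λ ρ : ℝ)) := hin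
      _ ≤ B * (cnd N μ t ^ (1 / 4 : ℝ) * (2 ^ δ * (1 + x) ^ (-δ))) * Real.exp D := by
          refine mul_le_mul (mul_le_mul_of_nonneg_left hgain hB.le) (Real.exp_le_exp.2 hsum)
            (Real.exp_pos _).le (by positivity)
      _ = B * Real.exp D * 2 ^ δ * cnd N μ t ^ (1 / 4 : ℝ) * (1 + x) ^ (-δ) := by ring
      _ ≤ _ := by
          have h9 : 0 ≤ B * (1 + x0) ^ δ := by positivity
          have h10 := mul_nonneg (mul_nonneg h9 hQ4.le) h1x.le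
          linarith [h10, (by ring : (B * Real.exp D * 2 ^ δ + B * (1 + x0) ^ δ) *
            cnd N μ t ^ (1 / 4 : ℝ) * (1 + x) ^ (-δ) =
            B * Real.exp D * 2 ^ δ * cnd N μ t ^ (1 / 4 : ℝ) * (1 + x) ^ (-δ) +
            B * (1 + x0) ^ δ * cnd N μ t ^ (1 / 4 : ℝ) * (1 + x) ^ (-δ))]
  · -- small conductor
    obtain ⟨P, hP, hin⟩ := hmain N μ α e Λ d hΛ t 0 le_rfl (by norm_num) (by linarith)
    have h0 : (1 : ℝ) / 4 - (1 / 2 - ε) * 0 = 1 / 4 := by ring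
    have h00 : 34 * (0 : ℝ) * ∑ ρ ∈ P, (analyticOrderNatAt Λ ρ : ℝ) = 0 := by ring
    rw [h0, h00, Real.exp_zero, mul_one] at hin
    refine hin.trans ?_
    have h1 : 1 ≤ (1 + x0) ^ δ * (1 + x) ^ (-δ) := by
      rw [Real.rpow_neg (by linarith), ← div_eq_mul_inv, one_le_div (Real.rpow_pos_of_pos (by linarith) _)]
      exact Real.rpow_le_rpow (by linarith) (by linarith) hδ0
    have h2 : 0 ≤ B * Real.exp D * 2 ^ δ * cnd N μ t ^ (1 / 4 : ℝ) * (1 + x) ^ (-δ) := by positivity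
    calc B * cnd N μ t ^ (1 / 4 : ℝ) ≤ B * cnd N μ t ^ (1 / 4 : ℝ) * ((1 + x0) ^ δ * (1 + x) ^ (-δ)) :=
          le_mul_of_one_le_right (by positivity) h1
      _ ≤ _ := by
          linarith [h2, (by ring : (B * Real.exp D * 2 ^ δ + B * (1 + x0) ^ δ) *
            cnd N μ t ^ (1 / 4 : ℝ) * (1 + x) ^ (-δ) =
            B * Real.exp D * 2 ^ δ * cnd N μ t ^ (1 / 4 : ℝ) * (1 + x) ^ (-δ) +
            B * (1 + x0) ^ δ * cnd N μ t ^ (1 / 4 : ℝ) * (1 + x) ^ (-δ))]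

end Pool.Agent.X102.SZ
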