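import Mathlib
import Pool.Agent.X102.SY6

/-!
Log-free version: the inequality of Soundararajan and Thorner with asymptotically sharp constants.
-/

set_option autoImplicit false
open Set Filter Topology Metric
open scoped ComplexConjugate

namespace Pool.Agent.X102.SZ

open Pool.Agent.W169.HF
open H353.E H353.F

/-- the weight of a zero near the line `Re s = 1`, sharp constant -/
lemma weight2 {ε : ℝ} (hε : 0 < ε) : ∃ κ₂ : ℝ, 0 < κ₂ ∧ κ₂ ≤ 1 / 8 ∧ ∀ (a : ℝ), 1 / 2 - κ₂ ≤ a →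
    a ≤ 1 / 2 → ∀ w : ℂ, a < w.re → w.re ≤ 1 / 2 →
    ‖Complex.tan ((Real.pi / (4 * a) : ℝ) * w)‖ ^ 2 ≤ Real.exp ((2 * Real.pi + ε) * (1 / 2 - a)) := by
  have hpi := Real.pi_pos
  have hpi3 := Real.pi_gt_three
  have hpi4 : Real.pi < 3.15 := Real.pi_lt_d2
  set ε' : ℝ := ε / (2 * Real.pi) with hε'
  have hε'0 : 0 < ε' := by positivity
  refine ⟨min (1 / 8) (ε' / (7 * (1 + ε'))), by positivity, min_le_left _ _,
    fun a ha1 ha2 w hw1 hw2 => ?_⟩
  set κ : ℝ := 1 / 2 - a with hκ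
  have hκ0 : 0 ≤ κ := by linarith
  have hκ8 : κ ≤ 1 / 8 := by
    have := min_le_left (1 / 8) (ε' / (7 * (1 + ε')))
    linarith
  have hκε : κ ≤ ε' / (7 * (1 + ε')) := by
    have := min_le_right (1 / 8) (ε' / (7 * (1 + ε')))
    linarith
  have ha : a = 1 / 2 - κ := by rw [hκ]; ring
  have ha0 : 0 < a := by linarith
  set k : ℝ := Real.pi / (4 * a) with hk
  have hk0 : 0 < k := by positivity
  have hka : k * (4 * a) = Real.pi := by rw [hk]; field_simp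
  have hk2 : k ≤ 2.1 := by
    rw [hk, div_le_iff₀ (by positivity)]
    nlinarith
  set z : ℂ := (k : ℂ) * w with hz
  have ere : z.re = k * w.re := Complex.re_ofReal_mul _ _
  have eim : z.im = k * w.im := Complex.im_ofReal_mul _ _
  set x : ℝ := k * w.re with hx
  set y : ℝ := k * w.im with hy
  set ξ : ℝ := x - Real.pi / 4 with hξ
  have hxi0 : 0 < ξ := by
    have : k * a < k * w.re := mul_lt_mul_of_pos_left hw1 hk0
    rw [hξ, hx]; nlinarith
  have hxi : ξ ≤ k * κ := by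
    have h1 : x ≤ k * (1 / 2) := by rw [hx]; exact mul_le_mul_of_nonneg_left hw2 hk0.le
    have h2 : k * (1 / 2) - Real.pi / 4 = k * κ := by rw [← hka, ha]; ring
    rw [hξ]; linarith
  have hkκ : k * κ ≤ 2.1 * (1 / 8) := by
    calc k * κ ≤ 2.1 * κ := mul_le_mul_of_nonneg_right hk2 hκ0
      _ ≤ _ := mul_le_mul_of_nonneg_left hκ8 (by norm_num)
  have hsin2 : Real.sin (2 * ξ) ≤ 2 * ξ := Real.sin_le (by linarith)
  have e1 : Real.sin x ^ 2 - Real.cos x ^ 2 = Real.sin (2 * ξ) := by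
    have h2 : 2 * ξ = 2 * x - Real.pi / 2 := by rw [hξ]; ring
    rw [h2, Real.sin_sub_pi_div_two, Real.cos_two_mul']
    ring
  have e2 := Real.sin_sq_add_cos_sq x
  have hc : (1 - 2 * ξ) / 2 ≤ Real.cos x ^ 2 := by linarith
  have h1ξ : 0 < 1 - 2 * ξ := by norm_num at hkκ; linarith
  have hsin := Pool.Agent.TH809.MZ.norm_sin_sq z
  have hcos := norm_cos_sq z
  rw [ere, eim] at hsin hcos
  have hcpos : 0 < ‖Complex.cos z‖ ^ 2 := by
    rw [hcos]
    have := sq_nonneg (Real.sinh y)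
    linarith
  rw [Complex.tan, norm_div, div_pow, div_le_iff₀ hcpos, hsin, hcos]
  -- the exponent
  have hexp : 4 * ξ ≤ (2 * Real.pi + ε) * κ * (1 - 2 * ξ) := by
    have h1 : 2 * Real.pi * (1 + ε') = 2 * Real.pi + ε := by rw [hε']; field_simp
    rw [← h1]
    have h3 : (1 - 7 * κ) * (1 + ε') ≥ 1 := by
      rw [le_div_iff₀ (by positivity)] at hκε
      nlinarith
    have h4 : k * (1 - 2 * κ) = Real.pi / 2 := by
      rw [← hka, ha]; ring
    have h5 : (1 - 2 * κ) * (1 - 2 * ξ) ≥ 1 - 7 * κ := by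
      have : ξ ≤ 2.1 * κ := hxi.trans (mul_le_mul_of_nonneg_right hk2 hκ0)
      nlinarith [mul_nonneg hκ0 hxi0.le]
    have h6 : 1 ≤ (1 - 2 * κ) * (1 - 2 * ξ) * (1 + ε') := by
      have := mul_le_mul_of_nonneg_right h5 (by positivity : 0 ≤ 1 + ε')
      linarith
    have h7 : 0 < 1 - 2 * κ := by linarith
    have h8 : 4 * ξ * (1 - 2 * κ) ≤ 2 * Real.pi * κ := by
      have : 4 * ξ * (1 - 2 * κ) ≤ 4 * (k * κ) * (1 - 2 * κ) :=
        mul_le_mul_of_nonneg_right (by linarith) h7.le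
      nlinarith
    have h9 : 2 * Real.pi * κ * 1 ≤ 2 * Real.pi * κ * ((1 - 2 * κ) * (1 - 2 * ξ) * (1 + ε')) :=
      mul_le_mul_of_nonneg_left h6 (by positivity)
    have h10 : 4 * ξ * (1 - 2 * κ) ≤ 2 * Real.pi * (1 + ε') * κ * (1 - 2 * ξ) * (1 - 2 * κ) := by
      linarith [h8, h9, (by ring : 2 * Real.pi * κ * ((1 - 2 * κ) * (1 - 2 * ξ) * (1 + ε')) =
        2 * Real.pi * (1 + ε') * κ * (1 - 2 * ξ) * (1 - 2 * κ))]
    exact le_of_mul_le_mul_right h10 h7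
  have hE : 1 + (2 * Real.pi + ε) * κ ≤ Real.exp ((2 * Real.pi + ε) * κ) := by
    have := Real.add_one_le_exp ((2 * Real.pi + ε) * κ)
    linarith
  have hsh := sq_nonneg (Real.sinh y)
  have hpos : 0 ≤ Real.cos x ^ 2 + Real.sinh y ^ 2 := by positivity
  have hkey : (2 * Real.pi + ε) * κ * ((1 - 2 * ξ) / 2) ≤
      (2 * Real.pi + ε) * κ * (Real.cos x ^ 2 + Real.sinh y ^ 2) :=
    mul_le_mul_of_nonneg_left (by linarith) (by positivity)
  calc Real.sin x ^ 2 + Real.sinh y ^ 2 =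
        (Real.cos x ^ 2 + Real.sinh y ^ 2) + (Real.sin x ^ 2 - Real.cos x ^ 2) := by ring
    _ ≤ (Real.cos x ^ 2 + Real.sinh y ^ 2) +
        (2 * Real.pi + ε) * κ * (Real.cos x ^ 2 + Real.sinh y ^ 2) := by linarith
    _ = (1 + (2 * Real.pi + ε) * κ) * (Real.cos x ^ 2 + Real.sinh y ^ 2) := by ring
    _ ≤ _ := mul_le_mul_of_nonneg_right hE hpos

/-- the inequality of Soundararajan and Thorner with asymptotically sharp constants -/
theorem datum_ST2 (m : ℕ) (hm : 1 ≤ m) {θ ε : ℝ} (hθ0 : 0 ≤ θ) (hθ1 : θ < 1 / 2) (hε : 0 < ε) :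
    ∃ κ₂ J B : ℝ, 0 < κ₂ ∧ 0 < J ∧ 0 < B ∧
    ∀ (N : ℝ) (μ : Fin m → ℂ) (α : Fin m → ℕ → ℂ) (e : ℂ) (Λ : ℂ → ℂ),
    DatumT θ N μ α e Λ → (∀ s : ℂ, 1 < s.re → Λ s ≠ 0) → ∀ (t κ : ℝ), 0 ≤ κ → κ ≤ κ₂ →
      ∃ P : Finset ℂ, (∀ ρ ∈ P, Λ ρ = 0 ∧ 1 - κ < ρ.re ∧ |ρ.im - t| ≤ J) ∧
      ‖LL μ Λ (1 / 2 + (t : ℂ) * Complex.I)‖ ≤ B * cnd N μ t ^ (1 / 4 - (1 / 2 - ε) * κ) *
        Real.exp ((2 * Real.pi + ε) * κ * ∑ ρ ∈ P, (analyticOrderNatAt Λ ρ : ℝ)) := by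
  classical
  obtain ⟨κw, hκw0, hκw8, hweight⟩ := weight2 hε
  set α₁ : ℝ := min (1 / 8) ((1 / 2 - θ) / 4) with hα₁
  have ha1 : α₁ ≤ 1 / 8 := min_le_left _ _
  obtain ⟨B1, hB1, hmain⟩ := datum_ineq m hm (θ := θ) (α₁ := α₁) hθ0 hθ1.le (by linarith) (by linarith)
  obtain ⟨A, hA, hcount⟩ := datum_count m hm (θ := θ) hθ0 hθ1.le
  have hη : 0 < (1 / 2 - θ) / 2 := by linarith
  obtain ⟨B2, hB2, HS⟩ := sharpX m hm hθ0 hθ1.le hη (by linarith)
  have he7 := Real.exp_pos 7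
  set J : ℝ := 408 * Real.exp 7 * A / ε with hJ
  have hJ0 : 0 < J := by positivity
  refine ⟨min κw ((1 / 2 - θ) / 4), J, B1 * B2 ^ 2 * Real.exp ε, lt_min hκw0 (by linarith), hJ0,
    by positivity, fun N μ α e Λ d hΛ t κ hκ0 hκκ => ?_⟩
  have hκw : κ ≤ κw := hκκ.trans (min_le_left _ _)
  have hκ1 : κ ≤ 1 / 8 := hκw.trans hκw8
  have hκ2 : κ ≤ (1 / 2 - θ) / 4 := hκκ.trans (min_le_right _ _)
  obtain ⟨S, -, -, -, -⟩ := HS N μ α e Λ d
  have hN := d.one_le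
  have hN0 : 0 < N := by linarith
  have hcnd1 : 1 ≤ cnd N μ t := hN.trans (le_cnd hN μ t)
  have hlc : 0 ≤ Real.log (cnd N μ t) := Real.log_nonneg hcnd1
  have hκα : κ ≤ α₁ := le_min hκ1 hκ2
  set a : ℝ := 1 / 2 - κ with ha
  obtain ⟨P, hP, hin⟩ := hmain N μ α e Λ d hΛ t 0 a le_rfl (by rw [ha]; linarith) (by rw [ha]; linarith)
  have hin0 := hin ∅ (by simp)
  rw [Finset.prod_empty, mul_one] at hin0
  -- value on the right
  have hright : ‖LL μ Λ (1 / 2 + 2 * a + (t : ℂ) * Complex.I)‖ ≤ B2 := by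
    have hre : (1 / 2 + 2 * (a : ℂ) + (t : ℂ) * Complex.I).re = 1 / 2 + 2 * a := by simp
    have h1 := S.hi (1 / 2 + 2 * (a : ℂ) + (t : ℂ) * Complex.I) (by rw [hre, ha]; linarith)
    rw [LL_eq hN0, norm_mul, norm_inv]
    by_cases h0 : ‖gaf N μ (1 / 2 + 2 * (a : ℂ) + (t : ℂ) * Complex.I)‖ = 0
    · rw [h0, inv_zero, mul_zero]; linarith
    · have hpos : 0 < ‖gaf N μ (1 / 2 + 2 * (a : ℂ) + (t : ℂ) * Complex.I)‖ :=
        lt_of_le_of_ne (norm_nonneg _) (Ne.symm h0)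
      rw [← div_eq_mul_inv, div_le_iff₀ hpos]
      exact h1
  -- the product
  set v : ℂ → ℝ := fun ρ => (analyticOrderNatAt Λ ρ : ℝ) with hv
  have hv0 : ∀ ρ, 0 ≤ v ρ := fun ρ => by rw [hv]; positivity
  have e1 : 1 / 2 - a = κ := by rw [ha]; ring
  have hρr : ∀ ρ ∈ P, a < (ρ - (1 / 2 + (t : ℂ) * Complex.I)).re ∧
      (ρ - (1 / 2 + (t : ℂ) * Complex.I)).re ≤ 1 / 2 ∧
      (ρ - (1 / 2 + (t : ℂ) * Complex.I)).im = ρ.im - t := by
    intro ρ hρ
    obtain ⟨k1, k2, k3⟩ := hP ρ hρ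
    have hre : (ρ - (1 / 2 + (t : ℂ) * Complex.I)).re = ρ.re - 1 / 2 := by simp
    have hρ1 : ρ.re ≤ 1 := by
      by_contra hc
      push Not at hc
      exact hΛ ρ hc k1
    exact ⟨by rw [hre]; linarith, by rw [hre]; linarith, by simp⟩
  have hfac : ∀ ρ ∈ P, (‖Complex.tan ((Real.pi / (4 * a) : ℝ) *
      (ρ - (1 / 2 + (t : ℂ) * Complex.I)))‖ ^ 2) ^ analyticOrderNatAt Λ ρ ≤
      Real.exp (34 * κ * (v ρ * Real.exp (-(3 * |ρ.im - t|)))) := by
    intro ρ hρ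
    obtain ⟨k1, k2, k3⟩ := hρr ρ hρ
    have hw := weight (a := a) (by rw [ha]; linarith) (by rw [ha]; linarith)
      (w := ρ - (1 / 2 + (t : ℂ) * Complex.I)) k1 k2
    rw [k3, e1] at hw
    calc _ ≤ Real.exp (34 * κ * Real.exp (-(3 * |ρ.im - t|))) ^ analyticOrderNatAt Λ ρ :=
          pow_le_pow_left₀ (by positivity) hw _
      _ = _ := by
          rw [← Real.exp_nat_mul]
          congr 1
          rw [hv]
          ring
  have hfac2 : ∀ ρ ∈ P, (‖Complex.tan ((Real.pi / (4 * a) : ℝ) *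
      (ρ - (1 / 2 + (t : ℂ) * Complex.I)))‖ ^ 2) ^ analyticOrderNatAt Λ ρ ≤
      Real.exp ((2 * Real.pi + ε) * κ * v ρ) := by
    intro ρ hρ
    obtain ⟨k1, k2, k3⟩ := hρr ρ hρ
    have hw := hweight a (by rw [ha]; linarith) (by rw [ha]; linarith)
      (ρ - (1 / 2 + (t : ℂ) * Complex.I)) k1 k2
    rw [e1] at hw
    calc _ ≤ Real.exp ((2 * Real.pi + ε) * κ) ^ analyticOrderNatAt Λ ρ :=
          pow_le_pow_left₀ (by positivity) hw _
      _ = _ := by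
          rw [← Real.exp_nat_mul]
          congr 1
          rw [hv]
          ring
  -- near and far zeros
  set P1 : Finset ℂ := P.filter (fun ρ => |ρ.im - t| ≤ J) with hP1
  set P2 : Finset ℂ := P.filter (fun ρ => ¬ |ρ.im - t| ≤ J) with hP2
  have hfar : ∑ ρ ∈ P2, v ρ * Real.exp (-(3 * |ρ.im - t|)) ≤ ε / 34 * (1 + Real.log (cnd N μ t)) := by
    have h1 := far_sum (P := P2) (c := v) (A := A) (x := 1 + Real.log (cnd N μ t)) (t := t) (J := J)
      (fun ρ _ => hv0 ρ) hJ0.le hA.le (by linarith) (by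
        intro ρ hρ
        have := (Finset.mem_filter.1 hρ).2
        push Not at this
        exact this.le) (by
        intro h hh S hS hS2
        refine hcount N μ α e Λ d hΛ t h hh S fun ρ hρ => ⟨?_, hS2 ρ hρ⟩
        have h2 := (hP ρ (Finset.mem_of_mem_filter ρ (hS hρ))).2.1
        rw [ha] at h2
        linarith)
    refine h1.trans ?_
    have h2 : Real.exp (-J) ≤ 1 / J := by
      rw [Real.exp_neg, ← one_div]
      refine one_div_le_one_div_of_le hJ0 ?_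
      linarith [Real.add_one_le_exp J]
    calc 12 * Real.exp 7 * A * (1 + Real.log (cnd N μ t)) * Real.exp (-J) ≤
          12 * Real.exp 7 * A * (1 + Real.log (cnd N μ t)) * (1 / J) :=
          mul_le_mul_of_nonneg_left h2 (by positivity)
      _ = _ := by
          rw [hJ]
          field_simp
          ring
  have hprod : ∏ ρ ∈ P, (‖Complex.tan ((Real.pi / (4 * a) : ℝ) *
      (ρ - (1 / 2 + (t : ℂ) * Complex.I)))‖ ^ 2) ^ analyticOrderNatAt Λ ρ ≤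
      Real.exp ((2 * Real.pi + ε) * κ * ∑ ρ ∈ P1, v ρ) *
        Real.exp (ε * κ * Real.log (cnd N μ t) + ε) := by
    rw [← Finset.prod_filter_mul_prod_filter_not P (fun ρ => |ρ.im - t| ≤ J)]
    refine mul_le_mul ?_ ?_ (Finset.prod_nonneg fun ρ _ => by positivity) (Real.exp_pos _).le
    · refine (Finset.prod_le_prod (fun ρ _ => by positivity)
        (fun ρ hρ => hfac2 ρ (Finset.mem_of_mem_filter ρ hρ))).trans (le_of_eq ?_)
      rw [← Real.exp_sum, Finset.mul_sum]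
    · refine (Finset.prod_le_prod (fun ρ _ => by positivity)
        (fun ρ hρ => hfac ρ (Finset.mem_of_mem_filter ρ hρ))).trans ?_
      rw [← Real.exp_sum, ← Finset.mul_sum]
      refine Real.exp_le_exp.2 ?_
      have h1 : 34 * κ * ∑ ρ ∈ P2, v ρ * Real.exp (-(3 * |ρ.im - t|)) ≤
          34 * κ * (ε / 34 * (1 + Real.log (cnd N μ t))) :=
        mul_le_mul_of_nonneg_left hfar (by positivity)
      have h2 : ε * κ ≤ ε * 1 := mul_le_mul_of_nonneg_left (by linarith) hε.le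
      linarith
  refine ⟨P1, fun ρ hρ => ?_, ?_⟩
  · obtain ⟨k1, k2⟩ := Finset.mem_filter.1 hρ
    obtain ⟨k3, k4, k5⟩ := hP ρ k1
    refine ⟨k3, ?_, k2⟩
    rw [ha] at k4
    linarith
  refine hin0.trans ?_
  have hQp : 0 < cnd N μ t := by linarith
  have e3 : a / 2 = 1 / 4 - 1 / 2 * κ := by rw [ha]; ring
  calc B1 * cnd N μ t ^ (a / 2) * ‖LL μ Λ (1 / 2 + 2 * a + (t : ℂ) * Complex.I)‖ ^ 2 *
        ∏ ρ ∈ P, (‖Complex.tan ((Real.pi / (4 * a) : ℝ) *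
          (ρ - (1 / 2 + (t : ℂ) * Complex.I)))‖ ^ 2) ^ analyticOrderNatAt Λ ρ ≤
        B1 * cnd N μ t ^ (a / 2) * B2 ^ 2 *
          (Real.exp ((2 * Real.pi + ε) * κ * ∑ ρ ∈ P1, v ρ) *
            Real.exp (ε * κ * Real.log (cnd N μ t) + ε)) := by
        refine mul_le_mul ?_ hprod
          (Finset.prod_nonneg fun ρ _ => by positivity) (by positivity)
        exact mul_le_mul_of_nonneg_left (pow_le_pow_left₀ (norm_nonneg _) hright 2) (by positivity)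
    _ = B1 * B2 ^ 2 * Real.exp ε * (cnd N μ t ^ (a / 2) * Real.exp (ε * κ * Real.log (cnd N μ t))) *
          Real.exp ((2 * Real.pi + ε) * κ * ∑ ρ ∈ P1, v ρ) := by
        rw [Real.exp_add (ε * κ * Real.log (cnd N μ t))]; ring
    _ = _ := by
        rw [Real.rpow_def_of_pos hQp, ← Real.exp_add, Real.rpow_def_of_pos hQp, e3]
        congr 3
        ring

end Pool.Agent.X102.SZ
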