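import Mathlib
import Pool.Agent.X102.SZ6

/-!
The inequality for families.
-/

set_option autoImplicit false
open Set Filter Topology Metric
open scoped ComplexConjugate

namespace Pool.Agent.X102.SZ

variable {ι : Type*} {L : ι → ℂ → ℂ} {X Q : ι → ℝ → ℝ}

lemma ord_sh (L : ι → ℂ → ℂ) (i : ι) (t : ℝ) (w : ℂ) :
    analyticOrderNatAt (sh L i t) w = analyticOrderNatAt (L i) (⟨1 / 2, t⟩ + w) := by
  have h3 : analyticOrderAt (L i ∘ fun z => (⟨1 / 2, t⟩ : ℂ) + z) w =
      analyticOrderAt (L i) (⟨1 / 2, t⟩ + w) := by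
    apply analyticOrderAt_comp_of_deriv_ne_zero (g := fun z : ℂ => (⟨1 / 2, t⟩ : ℂ) + z)
    · have : Differentiable ℂ fun z : ℂ => (⟨1 / 2, t⟩ : ℂ) + z := by fun_prop
      exact this.analyticAt w
    · rw [deriv_const_add, deriv_id'']
      exact one_ne_zero
  unfold analyticOrderNatAt
  exact congrArg ENat.toNat h3

lemma sh_ne (H : FamL L X Q) (i : ι) (t : ℝ) {w : ℂ} (hw : 1 / 2 < w.re) : sh L i t w ≠ 0 := by
  rw [sh_mk]
  exact H.ne i (by simp only; linarith)

/-- growth of `cosh` -/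
lemma cosh_big {c Y : ℝ} (hc : 0 ≤ c) (hY : 4 * c + 4 ≤ Y) : c * (2 + Y) ≤ Real.cosh Y := by
  have hY0 : 0 ≤ Y := by linarith
  have h1 := Real.quadratic_le_exp_of_nonneg hY0
  have h2 : Real.exp Y / 2 ≤ Real.cosh Y := by
    rw [Real.cosh_eq]
    have := Real.exp_pos (-Y)
    linarith
  nlinarith

/-- **The master inequality, one strip.** -/
theorem FamL.one (H : FamL L X Q) {a ε h : ℝ} (ha1 : 1 / 4 < a) (ha2 : a ≤ 1 / 2) (hε : 0 < ε)
    (hh : 0 ≤ h) : ∃ Y B : ℝ, h ≤ Y ∧ 0 < B ∧ ∀ (i : ι) (t : ℝ),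
      ∃ P : Finset ℂ, (∀ w ∈ P, sh L i t w = 0 ∧ a < w.re ∧ |w.im| ≤ Y) ∧
      ∀ S : Finset ℂ, (∀ w ∈ S, |w.re| < a ∧ |w.im| ≤ h) →
      ‖sh L i t 0‖ ^ 2 ≤ B * Q i t ^ a * X i t ^ (2 * ε) *
        (∏ w ∈ P, (‖Complex.tan ((Real.pi / (4 * a) : ℝ) * w)‖ ^ 4) ^ analyticOrderNatAt (sh L i t) w) *
        ∏ w ∈ S, (‖Complex.tan ((Real.pi / (4 * a) : ℝ) * w)‖ ^ 2) ^ analyticOrderNatAt (sh L i t) w := by
  classical
  have hpi := Real.pi_pos
  have hpi3 := Real.pi_gt_three
  obtain ⟨A, hA, hhor⟩ := H.hor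
  obtain ⟨A2, hA2, hcount⟩ := H.count
  set δ : ℝ := min (1 / 4) (min (2 * a - 1 / 2) (ε / 6)) with hδ
  have hδ0 : 0 < δ := by
    rw [hδ]
    refine lt_min (by norm_num) (lt_min (by linarith) (by linarith))
  have hδ1 : δ ≤ 1 / 4 := min_le_left _ _
  have hδ2 : δ ≤ 2 * a - 1 / 2 := (min_le_right _ _).trans (min_le_left _ _)
  have hδ3 : δ ≤ ε / 6 := (min_le_right _ _).trans (min_le_right _ _)
  set A3 : ℝ := 2 * A + Real.log 3 * (A2 * (1 + h)) with hA3
  have hl3 : 0 < Real.log 3 := Real.log_pos (by norm_num)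
  have hA30 : 0 ≤ A3 := by positivity
  set Y : ℝ := 4 * (2 * A3 / ε) + 4 + h + 1 with hY
  have hc0 : 0 ≤ 2 * A3 / ε := by positivity
  have hhY : h + 1 ≤ Y := by rw [hY]; linarith
  have hY0 : 0 ≤ Y := by linarith
  have hcosh := cosh_big (c := 2 * A3 / ε) (Y := Y) hc0 (by rw [hY]; linarith)
  have hchY : 0 < Real.cosh Y := Real.cosh_pos Y
  obtain ⟨V0, hV0, hvert⟩ := H.vert (δ := δ) (Y := Y + 1) hδ0 hδ1 (by linarith)
  obtain ⟨B0, hB0⟩ := H.f2.right δ hδ0
  set B1 : ℝ := max 1 B0 with hB1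
  have hB11 : 1 ≤ B1 := le_max_left _ _
  refine ⟨Y + 1, V0 * Real.exp ε * B1 ^ 4, by linarith, by positivity, fun i t => ?_⟩
  obtain ⟨R, hR, hgood, hRR⟩ := hhor i t Y hY0
  have hRY : Y ≤ R := hR.1
  have hRY1 : R ≤ Y + 1 := hR.2
  have hR0 : 0 < R := by linarith
  have hlX := H.lX0 i t
  have hX1 := H.f2.X1 i t
  have hQ1 := H.f2.Q1 i t
  set f : ℂ → ℂ := sh L i t with hf
  have hfd : Differentiable ℂ f := sh_diff H i t
  have hf0 : ∃ z, f z ≠ 0 := ⟨1, sh_ne H i t (by norm_num)⟩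
  -- zeros
  have hcomp : IsCompact (Icc a 1 ×ℂ Icc (-R) R) := isCompact_Icc.reProdIm isCompact_Icc
  set Z0 : Finset ℂ := (finZ hfd hf0 hcomp).toFinset with hZ0
  set P : Finset ℂ := Z0.filter (fun w => a < w.re) with hP
  have hPm : ∀ w, w ∈ P ↔ (a < w.re ∧ |w.im| ≤ R ∧ f w = 0) := by
    intro w
    rw [hP, Finset.mem_filter, hZ0, Set.Finite.mem_toFinset]
    constructor
    · rintro ⟨⟨h1, h2⟩, h3⟩
      exact ⟨h3, abs_le.2 h1.2, h2⟩
    · rintro ⟨h1, h2, h3⟩
      refine ⟨⟨⟨⟨h1.le, ?_⟩, abs_le.1 h2⟩, h3⟩, h1⟩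
      by_contra hc
      push Not at hc
      exact sh_ne H i t (by linarith) h3
  have hPre : ∀ w ∈ P, w.re ≤ 1 / 2 := by
    intro w hw
    by_contra hc
    push Not at hc
    exact sh_ne H i t hc ((hPm w).1 hw).2.2
  refine ⟨P, fun w hw => ⟨((hPm w).1 hw).2.2, ((hPm w).1 hw).1, ((hPm w).1 hw).2.1.trans hRY1⟩,
    fun S hS => ?_⟩
  set m : ℂ → ℕ := fun w => analyticOrderNatAt f w with hm
  set Ξ : ℝ := 1 + Real.log (X i t) + Real.log (2 + Y) with hΞ
  have hlY : 0 ≤ Real.log (2 + Y) := Real.log_nonneg (by linarith)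
  have hΞ0 : 0 ≤ Ξ := by positivity
  set lam : ℝ := 2 * A3 * Ξ / Real.cosh Y with hlam
  have hlam0 : 0 ≤ lam := by positivity
  have hlam1 : lam ≤ ε * (1 + Real.log (X i t)) := by
    rw [hlam, div_le_iff₀ hchY]
    have h1 : Real.log (2 + Y) ≤ 1 + Y := by
      have := Real.log_le_sub_one_of_pos (by linarith : 0 < 2 + Y)
      linarith
    have h2 : Ξ ≤ (2 + Y) * (1 + Real.log (X i t)) := by
      rw [hΞ]; nlinarith
    calc 2 * A3 * Ξ ≤ 2 * A3 * ((2 + Y) * (1 + Real.log (X i t))) :=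
          mul_le_mul_of_nonneg_left h2 (by positivity)
      _ = ε * (1 + Real.log (X i t)) * (2 * A3 / ε * (2 + Y)) := by field_simp
      _ ≤ ε * (1 + Real.log (X i t)) * Real.cosh Y :=
          mul_le_mul_of_nonneg_left hcosh (by positivity)
  -- number of zeros in S
  have hSre : ∀ w ∈ S, |w.re| < a ∧ |w.im| ≤ h := hS
  have hN : ∑ w ∈ S, (m w : ℝ) ≤ A2 * (1 + h) * Ξ := by
    have h1 := hcount i t h hh (S.image fun w => (⟨1 / 2, t⟩ : ℂ) + w) (by
      intro s hs
      obtain ⟨w, hw, rfl⟩ := Finset.mem_image.1 hs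
      obtain ⟨h3, h4⟩ := hS w hw
      have h5 := abs_lt.1 h3
      constructor
      · rw [Complex.add_re]; linarith
      · rw [Complex.add_im]; simpa using h4)
    rw [Finset.sum_image (fun x _ y _ hxy => add_left_cancel hxy)] at h1
    have h2 : Real.log (2 + h) ≤ Real.log (2 + Y) := Real.log_le_log (by linarith) (by linarith)
    calc ∑ w ∈ S, (m w : ℝ) = ∑ w ∈ S, (analyticOrderNatAt (L i) (⟨1 / 2, t⟩ + w) : ℝ) := by
          refine Finset.sum_congr rfl fun w _ => ?_
          rw [hm, hf]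
          simp only
          rw [ord_sh]
      _ ≤ A2 * (1 + h) * (1 + Real.log (X i t) + Real.log (2 + h)) := h1
      _ ≤ A2 * (1 + h) * Ξ := mul_le_mul_of_nonneg_left (by rw [hΞ]; linarith) (by positivity)
  -- factorizations
  obtain ⟨g, hg, hfg, hg0⟩ := fac hfd hf0 P
  obtain ⟨h', hh', hfh, _⟩ := fac hfd hf0 S
  -- the inequality for one `b > a`
  set FF : ℝ → ℝ := fun b => V0 * (Q i t ^ b * X i t ^ (2 * δ)) * Real.exp lam * (B1 * X i t ^ δ) ^ 4 *
    (∏ w ∈ P, (‖Complex.tan ((Real.pi / (4 * b) : ℝ) * w)‖ ^ 4) ^ m w) *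
    ∏ w ∈ S, (‖Complex.tan ((Real.pi / (4 * b) : ℝ) * w)‖ ^ 2) ^ m w with hFF
  have hone : ∀ b : ℝ, a < b → b < 3 / 4 → (∀ w ∈ P, b < w.re) → ‖f 0‖ ^ 2 ≤ FF b := by
    intro b hb1 hb2 hb3
    have hb0 : 0 < b := by linarith
    set k : ℝ := Real.pi / (4 * b) with hk
    have hk0 : 0 < k := by positivity
    have hk1 : 1 ≤ k := by
      rw [hk, le_div_iff₀ (by positivity)]
      linarith
    have hkb : 4 * k * b = Real.pi := by rw [hk]; field_simp
    have hline : ∀ z : ℂ, z.re = b → |z.im| ≤ R → f z ≠ 0 := by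
      intro z hz1 hz2 hz3
      have := hb3 z ((hPm z).2 ⟨by linarith, hz2, hz3⟩)
      linarith
    have hSD : SD k b R f P S m g h' :=
      { hk := hk0
        hka := hkb
        hg := hg
        hh := hh'
        fg := hfg
        fh := hfh
        g0 := fun z hz1 _ hz3 => hg0 z fun h0 => (hPm z).2 ⟨by linarith, hz3, h0⟩
        P0 := fun w hw => by
          have h1 := hb3 w hw
          have h2 := hPre w hw
          rw [abs_lt]; constructor <;> linarith
        S0 := fun w hw => (hS w hw).1.trans hb1 }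
    set V : ℝ := V0 * (Q i t ^ b * X i t ^ (2 * δ)) with hV
    have hQb : 1 ≤ Q i t ^ b := Real.one_le_rpow hQ1 hb0.le
    have hXb : 1 ≤ X i t ^ (2 * δ) := Real.one_le_rpow hX1 (by linarith)
    have hV1 : 1 ≤ V := by
      rw [hV]
      exact one_le_mul_of_one_le_of_one_le hV0 (one_le_mul_of_one_le_of_one_le hQb hXb)
    have hmain := hSD.main (V := V) (W := Real.exp (A3 * Ξ)) (lam := lam) (by linarith) hR0
      (by linarith) hlam0 ?_ ?_ ?_
    · -- conclusion
      set T : ℝ := ∏ w ∈ P, (‖Complex.tan (k * w)‖ ^ 4) ^ m w with hT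
      have hT0 : 0 ≤ T := Finset.prod_nonneg fun w _ => by positivity
      have hPT : (∏ w ∈ P, (‖BF k (w - 2 * b) 0‖ ^ 2) ^ m w) * T = 1 := by
        rw [hT, ← Finset.prod_mul_distrib]
        refine Finset.prod_eq_one fun w hw => ?_
        rw [← mul_pow]
        have h1 := hb3 w hw
        have h2 := hPre w hw
        have e1 : ((k : ℂ) * w).re = k * w.re := Complex.re_ofReal_mul _ _
        have h3 : 0 < k * w.re := mul_pos hk0 (by linarith)
        have h4 : k * w.re < Real.pi / 2 := by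
          have h5 : k * w.re ≤ k * (1 / 2) := mul_le_mul_of_nonneg_left h2 hk0.le
          have h6 : k * (1 / 2) < k * (2 * b) := mul_lt_mul_of_pos_left (by linarith) hk0
          linarith
        have hs := BF_shift hkb w (sin_ne (by rw [e1]; exact h3) (by rw [e1]; linarith))
          (cos_ne (by rw [e1, abs_of_pos h3]; exact h4))
        have : ‖BF k (w - 2 * b) 0‖ ^ 2 * ‖Complex.tan (k * w)‖ ^ 4 =
            (‖BF k (w - 2 * b) 0‖ * ‖Complex.tan (k * w)‖ ^ 2) ^ 2 := by ring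
        rw [this, hs, one_pow, one_pow]
      have hf2 : ‖f (2 * b)‖ ≤ B1 * X i t ^ δ := by
        have e1 : ((2 : ℂ) * b).re = 2 * b := by simp
        have e2 : ((2 : ℂ) * b).im = 0 := by simp
        rw [hf, sh_mk, e1, e2, add_zero]
        refine (hB0 i _ (by simp only; linarith)).trans ?_
        exact mul_le_mul_of_nonneg_right (le_max_right _ _) (by positivity)
      have hSprod : ∏ w ∈ S, ‖BF k w 0‖ ^ m w = ∏ w ∈ S, (‖Complex.tan (k * w)‖ ^ 2) ^ m w :=
        Finset.prod_congr rfl fun w _ => by rw [BF_zero]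
      rw [hSprod] at hmain
      have hS0 : 0 ≤ ∏ w ∈ S, (‖Complex.tan (k * w)‖ ^ 2) ^ m w :=
        Finset.prod_nonneg fun w _ => by positivity
      have h7 := mul_le_mul_of_nonneg_right hmain hT0
      rw [mul_assoc, hPT, mul_one] at h7
      refine h7.trans ?_
      simp only [hFF]
      rw [← hk, ← hT, ← hV]
      have h8 : ‖f (2 * b)‖ ^ 4 ≤ (B1 * X i t ^ δ) ^ 4 :=
        pow_le_pow_left₀ (norm_nonneg _) hf2 4
      calc V * Real.exp lam * ‖f (2 * b)‖ ^ 4 * (∏ w ∈ S, (‖Complex.tan (k * w)‖ ^ 2) ^ m w) * T ≤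
            V * Real.exp lam * (B1 * X i t ^ δ) ^ 4 *
              (∏ w ∈ S, (‖Complex.tan (k * w)‖ ^ 2) ^ m w) * T := by
            refine mul_le_mul_of_nonneg_right (mul_le_mul_of_nonneg_right
              (mul_le_mul_of_nonneg_left h8 (by positivity)) hS0) hT0
        _ = _ := by ring
    · -- vertical sides
      intro z hz1 hz2
      constructor
      · have key : ∀ w : ℂ, (w.re = b ∨ w.re = 3 * b) → |w.im| ≤ R → f w ≠ 0 := by
          intro w hw1 hw2
          rcases hw1 with hw1 | hw1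
          · exact hline w hw1 hw2
          · exact sh_ne H i t (by rw [hw1]; linarith)
        have hre : (z.re = b ∨ z.re = -b) := eq_or_eq_neg_of_abs_eq hz1
        have k1 : f (2 * b + z) ≠ 0 := key _ (by
          rcases hre with h | h
          · right; simp [h]; ring
          · left; simp [h]; ring) (by simpa using hz2)
        have k2 : f (2 * b - z) ≠ 0 := key _ (by
          rcases hre with h | h
          · left; simp [h]; ring
          · right; simp [h]; ring) (by simpa using hz2)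
        have k3 : f (2 * b + conj z) ≠ 0 := key _ (by
          rcases hre with h | h
          · right; simp [h]; ring
          · left; simp [h]; ring) (by simpa using hz2)
        have k4 : f (2 * b - conj z) ≠ 0 := key _ (by
          rcases hre with h | h
          · left; simp [h]; ring
          · right; simp [h]; ring) (by simpa using hz2)
        rw [← norm_ne_zero_iff, norm_D1]
        have n1 := norm_ne_zero_iff.2 k1
        have n2 := norm_ne_zero_iff.2 k2
        have n3 := norm_ne_zero_iff.2 k3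
        have n4 := norm_ne_zero_iff.2 k4
        exact mul_ne_zero (mul_ne_zero n1 n2) (mul_ne_zero n3 n4)
      · exact hvert i t b (by linarith) hb2.le z hz1 (hz2.trans hRY1)
    · -- horizontal sides
      intro z hz1 hz2
      obtain ⟨hD, hE⟩ := hRR b (by linarith) hb2.le z hz1 hz2
      have hDp : 0 < ‖D1 b f z‖ := lt_of_lt_of_le (Real.exp_pos _) hD
      have hBF : ∀ w ∈ S, 1 / 3 ≤ ‖BF k w z‖ := fun w hw =>
        BF_far hk1 hkb hh (by linarith) hz2 hz1 ((hS w hw).1.trans hb1) (hS w hw).2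
      refine ⟨norm_pos_iff.1 hDp, fun w hw => norm_pos_iff.1 (by linarith [hBF w hw]), ?_⟩
      have hprod : Real.exp (-(Real.log 3 * (A2 * (1 + h)) * Ξ)) ≤ ∏ w ∈ S, ‖BF k w z‖ ^ m w := by
        calc Real.exp (-(Real.log 3 * (A2 * (1 + h)) * Ξ)) ≤
              Real.exp (-(Real.log 3 * ∑ w ∈ S, (m w : ℝ))) := by
              refine Real.exp_le_exp.2 (neg_le_neg ?_)
              have := mul_le_mul_of_nonneg_left hN hl3.le
              linarith
          _ = ∏ w ∈ S, ((1 : ℝ) / 3) ^ m w := by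
              rw [Finset.prod_pow_eq_pow_sum, ← Real.rpow_natCast, Real.rpow_def_of_pos (by norm_num)]
              congr 1
              push_cast
              rw [one_div, Real.log_inv]
              ring
          _ ≤ _ := Finset.prod_le_prod (fun w _ => by positivity) fun w hw =>
              pow_le_pow_left₀ (by norm_num) (hBF w hw) _
      calc ‖f z‖ * ‖f (-z)‖ ≤ Real.exp (A * Ξ) := hE
        _ = Real.exp (A3 * Ξ) * (Real.exp (-(A * Ξ)) * Real.exp (-(Real.log 3 * (A2 * (1 + h)) * Ξ))) := by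
            rw [← Real.exp_add, ← Real.exp_add]
            congr 1
            rw [hA3]; ring
        _ ≤ _ := by gcongr
    · -- comparison
      have hcosb : 1 / 2 ≤ Real.cos b := by
        have h1 : Real.cos (3 / 4) ≤ Real.cos b :=
          Real.cos_le_cos_of_nonneg_of_le_pi hb0.le (by linarith) hb2.le
        have h2 := Real.one_sub_sq_div_two_le_cos (x := 3 / 4)
        linarith
      have hch : Real.cosh Y ≤ Real.cosh R := by
        rw [Real.cosh_le_cosh, abs_of_nonneg hY0, abs_of_pos hR0]; exact hRY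
      calc Real.exp (A3 * Ξ) = 1 * Real.exp (A3 * Ξ) := (one_mul _).symm
        _ ≤ V * Real.exp (lam * (Real.cos b * Real.cosh R)) := by
            refine mul_le_mul hV1 (Real.exp_le_exp.2 ?_) (Real.exp_pos _).le (by linarith)
            have h3 : 1 / 2 * Real.cosh Y ≤ Real.cos b * Real.cosh R :=
              mul_le_mul hcosb hch (Real.cosh_pos _).le (by linarith)
            calc A3 * Ξ = lam * (1 / 2 * Real.cosh Y) := by rw [hlam]; field_simp
              _ ≤ _ := mul_le_mul_of_nonneg_left h3 hlam0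
  -- the limit
  have hev : ∀ᶠ b : ℝ in 𝓝[>] a, ‖f 0‖ ^ 2 ≤ FF b := by
    have h1 : ∀ᶠ b : ℝ in 𝓝[>] a, ∀ w ∈ P, b < w.re := by
      rw [eventually_all_finset]
      intro w hw
      exact nhdsWithin_le_nhds (eventually_lt_nhds ((hPm w).1 hw).1)
    have h2 : ∀ᶠ b : ℝ in 𝓝[>] a, b < 3 / 4 :=
      nhdsWithin_le_nhds (eventually_lt_nhds (by linarith))
    filter_upwards [h1, h2, self_mem_nhdsWithin] with b k1 k2 k3
    exact hone b k3 k2 k1
  have ha0 : 0 < a := by linarith
  have hcont : ContinuousAt FF a := by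
    have htan : ∀ w : ℂ, |w.re| < 2 * a → ContinuousAt
        (fun b : ℝ => ‖Complex.tan ((Real.pi / (4 * b) : ℝ) * w)‖) a := by
      intro w hw
      have hcos : Complex.cos ((Real.pi / (4 * a) : ℝ) * w) ≠ 0 := by
        apply cos_ne
        rw [Complex.re_ofReal_mul, abs_mul, abs_of_pos (by positivity)]
        calc Real.pi / (4 * a) * |w.re| < Real.pi / (4 * a) * (2 * a) :=
              mul_lt_mul_of_pos_left hw (by positivity)
          _ = Real.pi / 2 := by field_simp; ring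
      have h1 : ContinuousAt (fun b : ℝ => ((Real.pi / (4 * b) : ℝ) : ℂ) * w) a := by
        refine ContinuousAt.mul ?_ continuousAt_const
        refine Complex.continuous_ofReal.continuousAt.comp ?_
        exact ContinuousAt.div continuousAt_const (by fun_prop) (by positivity)
      exact (ContinuousAt.comp (f := fun b : ℝ => ((Real.pi / (4 * b) : ℝ) : ℂ) * w)
        (g := Complex.tan) (Complex.continuousAt_tan.2 hcos) h1).norm
    have hPc : ContinuousAt (fun b : ℝ => ∏ w ∈ P,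
        (‖Complex.tan ((Real.pi / (4 * b) : ℝ) * w)‖ ^ 4) ^ m w) a := by
      refine tendsto_finset_prod _ fun w hw => ?_
      have h1 := htan w (by
        have h2 := hPre w hw
        have h3 := ((hPm w).1 hw).1
        rw [abs_of_pos (by linarith)]; linarith)
      exact (h1.pow 4).pow (m w)
    have hSc : ContinuousAt (fun b : ℝ => ∏ w ∈ S,
        (‖Complex.tan ((Real.pi / (4 * b) : ℝ) * w)‖ ^ 2) ^ m w) a := by
      refine tendsto_finset_prod _ fun w hw => ?_
      have h1 := htan w (by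
        have h2 := (hS w hw).1
        linarith)
      exact (h1.pow 2).pow (m w)
    have hQc : ContinuousAt (fun b : ℝ => Q i t ^ b) a :=
      Real.continuousAt_const_rpow (by linarith)
    simp only [hFF]
    exact (((((hQc.mul continuousAt_const).const_mul V0).mul continuousAt_const).mul
      continuousAt_const).mul hPc).mul hSc
  have hlim : ‖f 0‖ ^ 2 ≤ FF a :=
    ge_of_tendsto (hcont.tendsto.mono_left nhdsWithin_le_nhds) hev
  refine hlim.trans ?_
  simp only [hFF]
  have hP0 : 0 ≤ ∏ w ∈ P, (‖Complex.tan ((Real.pi / (4 * a) : ℝ) * w)‖ ^ 4) ^ m w :=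
    Finset.prod_nonneg fun w _ => by positivity
  have hS0 : 0 ≤ ∏ w ∈ S, (‖Complex.tan ((Real.pi / (4 * a) : ℝ) * w)‖ ^ 2) ^ m w :=
    Finset.prod_nonneg fun w _ => by positivity
  refine mul_le_mul_of_nonneg_right (mul_le_mul_of_nonneg_right ?_ hP0) hS0
  have hXp : 0 < X i t := by linarith
  have e1 : Real.exp lam ≤ Real.exp ε * X i t ^ ε := by
    calc Real.exp lam ≤ Real.exp (ε * (1 + Real.log (X i t))) := Real.exp_le_exp.2 hlam1
      _ = Real.exp ε * X i t ^ ε := by
          rw [Real.rpow_def_of_pos hXp, ← Real.exp_add]; congr 1; ring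
  have e2 : X i t ^ (2 * δ) * X i t ^ ε * (X i t ^ δ) ^ 4 ≤ X i t ^ (2 * ε) := by
    rw [← Real.rpow_natCast, ← Real.rpow_mul hXp.le, ← Real.rpow_add hXp, ← Real.rpow_add hXp]
    refine Real.rpow_le_rpow_of_exponent_le hX1 ?_
    push_cast
    linarith
  calc V0 * (Q i t ^ a * X i t ^ (2 * δ)) * Real.exp lam * (B1 * X i t ^ δ) ^ 4 ≤
        V0 * (Q i t ^ a * X i t ^ (2 * δ)) * (Real.exp ε * X i t ^ ε) * (B1 * X i t ^ δ) ^ 4 := by
        gcongr
    _ = V0 * Real.exp ε * B1 ^ 4 * Q i t ^ a * (X i t ^ (2 * δ) * X i t ^ ε * (X i t ^ δ) ^ 4) := by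
        ring
    _ ≤ _ := mul_le_mul_of_nonneg_left e2 (by positivity)

end Pool.Agent.X102.SZ
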