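import Mathlib

/-! Order-pattern seminorms on bounded sequences. -/

namespace Pool.Agent.X102.UPS

open Set

/-- The indices after `j` (`b = true`) or before `j` (`b = false`). -/
def side (b : Bool) (j : ℕ) : Set ℕ := {k | if b = true then j < k else k < j}

open Classical in
/-- The order-pattern seminorm: pick `j ∈ S`, pay `|x j|`, continue with factor `c` on the
part of `S` on the side `b` of `j`; at the end take the larger of the supremum and `r`. -/
noncomputable def P (c : ℝ) : List Bool → Set ℕ → ℝ → (ℕ → ℝ) → ℝ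
  | [], S, r, x => ⨆ i : ℕ, if i ∈ S then max |x i| r else r
  | b :: σ, S, r, x => ⨆ j : ℕ, if j ∈ S then |x j| + c * P c σ (S ∩ side b j) r x else 0

theorem P_nonneg {c r : ℝ} (hc : 0 ≤ c) (hr : 0 ≤ r) (x : ℕ → ℝ) (σ : List Bool) :
    ∀ S : Set ℕ, 0 ≤ P c σ S r x := by
  induction σ with
  | nil =>
    intro S
    apply Real.iSup_nonneg
    intro i
    split_ifs
    · exact le_max_of_le_right hr
    · exact hr
  | cons b σ ih =>
    intro S
    apply Real.iSup_nonneg
    intro j
    split_ifs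
    · have := ih (S ∩ side b j)
      positivity
    · exact le_rfl

theorem P_le {c r B : ℝ} (hc : 0 ≤ c) (hc1 : c ≤ 1) (hr : 0 ≤ r) {x : ℕ → ℝ}
    (hB : ∀ n, |x n| ≤ B) (σ : List Bool) :
    ∀ S : Set ℕ, P c σ S r x ≤ (σ.length + 1) * B + r := by
  have hB0 : 0 ≤ B := le_trans (abs_nonneg _) (hB 0)
  induction σ with
  | nil =>
    intro S
    apply ciSup_le
    intro i
    simp only [List.length_nil, Nat.cast_zero, zero_add, one_mul]
    split_ifs
    · apply max_le
      · linarith [hB i]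
      · linarith
    · linarith
  | cons b σ ih =>
    intro S
    apply ciSup_le
    intro j
    simp only [List.length_cons, Nat.cast_add, Nat.cast_one]
    split_ifs
    · have h1 := ih (S ∩ side b j)
      have h0 := P_nonneg hc hr x σ (S ∩ side b j)
      have h2 : c * P c σ (S ∩ side b j) r x ≤ P c σ (S ∩ side b j) r x :=
        mul_le_of_le_one_left h0 hc1
      have := hB j
      linarith
    · positivity

theorem bdd_nil {r B : ℝ} {x : ℕ → ℝ} (hB : ∀ n, |x n| ≤ B) (S : Set ℕ) [DecidablePred (· ∈ S)] :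
    BddAbove (range fun i : ℕ => if i ∈ S then max |x i| r else r) := by
  refine ⟨max B r, ?_⟩
  rintro _ ⟨i, rfl⟩
  dsimp only
  split_ifs
  · exact max_le_max (hB i) le_rfl
  · exact le_max_right _ _

theorem bdd_cons {c r B : ℝ} (hc : 0 ≤ c) (hc1 : c ≤ 1) (hr : 0 ≤ r) {x : ℕ → ℝ}
    (hB : ∀ n, |x n| ≤ B) (b : Bool) (σ : List Bool) (S : Set ℕ) [DecidablePred (· ∈ S)] :
    BddAbove (range fun j : ℕ => if j ∈ S then |x j| + c * P c σ (S ∩ side b j) r x else 0) := by
  have hB0 : 0 ≤ B := le_trans (abs_nonneg _) (hB 0)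
  refine ⟨B + ((σ.length + 1) * B + r), ?_⟩
  rintro _ ⟨j, rfl⟩
  dsimp only
  split_ifs
  · have h1 := P_le hc hc1 hr hB σ (S ∩ side b j)
    have h0 := P_nonneg hc hr x σ (S ∩ side b j)
    have h2 : c * P c σ (S ∩ side b j) r x ≤ P c σ (S ∩ side b j) r x :=
      mul_le_of_le_one_left h0 hc1
    have := hB j
    linarith
  · positivity

theorem P_add {c r₁ r₂ r₃ B₁ B₂ : ℝ} (hc : 0 ≤ c) (hc1 : c ≤ 1) (hr₁ : 0 ≤ r₁) (hr₂ : 0 ≤ r₂)
    (h3 : r₃ ≤ r₁ + r₂) {x y : ℕ → ℝ} (hB₁ : ∀ n, |x n| ≤ B₁) (hB₂ : ∀ n, |y n| ≤ B₂)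
    (σ : List Bool) :
    ∀ S : Set ℕ, P c σ S r₃ (fun n => x n + y n) ≤ P c σ S r₁ x + P c σ S r₂ y := by
  classical
  induction σ with
  | nil =>
    intro S
    apply ciSup_le
    intro i
    have e1 := le_ciSup (bdd_nil (r := r₁) hB₁ S) i
    have e2 := le_ciSup (bdd_nil (r := r₂) hB₂ S) i
    have e1' : (if i ∈ S then max |x i| r₁ else r₁) ≤ P c [] S r₁ x := by
      simpa [P] using e1
    have e2' : (if i ∈ S then max |y i| r₂ else r₂) ≤ P c [] S r₂ y := by
      simpa [P] using e2
    refine le_trans ?_ (add_le_add e1' e2')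
    split_ifs
    · apply max_le
      · refine le_trans (abs_add_le _ _) (add_le_add (le_max_left _ _) (le_max_left _ _))
      · exact le_trans h3 (add_le_add (le_max_right _ _) (le_max_right _ _))
    · exact h3
  | cons b σ ih =>
    intro S
    apply ciSup_le
    intro j
    have e1 := le_ciSup (bdd_cons hc hc1 hr₁ hB₁ b σ S) j
    have e2 := le_ciSup (bdd_cons hc hc1 hr₂ hB₂ b σ S) j
    have e1' : (if j ∈ S then |x j| + c * P c σ (S ∩ side b j) r₁ x else 0)
        ≤ P c (b :: σ) S r₁ x := by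
      simpa only [P] using e1
    have e2' : (if j ∈ S then |y j| + c * P c σ (S ∩ side b j) r₂ y else 0)
        ≤ P c (b :: σ) S r₂ y := by
      simpa only [P] using e2
    refine le_trans ?_ (add_le_add e1' e2')
    split_ifs
    · have h := ih (S ∩ side b j)
      have h' := mul_le_mul_of_nonneg_left h hc
      have h'' := abs_add_le (x j) (y j)
      linarith
    · simp

theorem P_smul {c r : ℝ} (s : ℝ) (x : ℕ → ℝ) (σ : List Bool) :
    ∀ S : Set ℕ, P c σ S (|s| * r) (fun n => s * x n) = |s| * P c σ S r x := by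
  classical
  induction σ with
  | nil =>
    intro S
    simp only [P]
    rw [Real.mul_iSup_of_nonneg (abs_nonneg s)]
    congr 1
    funext i
    split_ifs
    · rw [abs_mul, mul_max_of_nonneg _ _ (abs_nonneg s)]
    · rfl
  | cons b σ ih =>
    intro S
    simp only [P]
    rw [Real.mul_iSup_of_nonneg (abs_nonneg s)]
    congr 1
    funext j
    split_ifs
    · rw [ih, abs_mul]; ring
    · simp

/-- The value of a chain `ch` with last term `t`. -/
noncomputable def val (c : ℝ) : List (Bool × ℕ) → ℝ → (ℕ → ℝ) → ℝ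
  | [], t, _ => t
  | p :: ch, t, x => |x p.2| + c * val c ch t x

/-- `ch` dominates in `S`, with last index `i`, margin `g`. -/
def Dom (g : ℝ) (w : ℕ → ℝ) : List (Bool × ℕ) → Set ℕ → ℕ → Prop
  | [], S, i => i ∈ S ∧ ∀ k ∈ S, |w k| ≤ |w i|
  | p :: ch, S, i => p.2 ∈ S ∧ (∀ k ∈ S, k ≠ p.2 → |w k| + g ≤ |w p.2|) ∧
      Dom g w ch (S ∩ side p.1 p.2) i

theorem val_nonneg {c t : ℝ} (hc : 0 ≤ c) (ht : 0 ≤ t) (x : ℕ → ℝ) (ch : List (Bool × ℕ)) :
    0 ≤ val c ch t x := by
  induction ch with
  | nil => exact ht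
  | cons p ch ih =>
    simp only [val]
    positivity

theorem val_mono {c t t' : ℝ} (hc : 0 ≤ c) (ht : t ≤ t') (x : ℕ → ℝ) (ch : List (Bool × ℕ)) :
    val c ch t x ≤ val c ch t' x := by
  induction ch with
  | nil => exact ht
  | cons p ch ih =>
    simp only [val]
    have := mul_le_mul_of_nonneg_left ih hc
    linarith

theorem val_le_P {c r B g : ℝ} (hc : 0 ≤ c) (hc1 : c ≤ 1) (hr : 0 ≤ r) {w x : ℕ → ℝ}
    (hB : ∀ n, |x n| ≤ B) {i : ℕ} (ch : List (Bool × ℕ)) :
    ∀ S : Set ℕ, Dom g w ch S i →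
      val c ch (max |x i| r) x ≤ P c (ch.map Prod.fst) S r x := by
  classical
  induction ch with
  | nil =>
    intro S hD
    have e1 := le_ciSup (bdd_nil (r := r) hB S) i
    have : (if i ∈ S then max |x i| r else r) ≤ P c [] S r x := by
      simpa [P] using e1
    rw [if_pos hD.1] at this
    simpa [val] using this
  | cons p ch ih =>
    intro S hD
    obtain ⟨h1, h2, h3⟩ := hD
    have e1 := le_ciSup (bdd_cons hc hc1 hr hB p.1 (ch.map Prod.fst) S) p.2
    rw [if_pos h1] at e1
    have e2 : |x p.2| + c * P c (ch.map Prod.fst) (S ∩ side p.1 p.2) r x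
        ≤ P c (p.1 :: ch.map Prod.fst) S r x := by
      simpa only [P] using e1
    have e3 := mul_le_mul_of_nonneg_left (ih _ h3) hc
    simp only [val, List.map_cons]
    linarith

theorem P_le_val {c r B g : ℝ} (hc : 0 ≤ c) (hc1 : c ≤ 1) (hr : 0 ≤ r) {w : ℕ → ℝ}
    (hB : ∀ n, |w n| ≤ B) {i : ℕ} (ch : List (Bool × ℕ)) :
    c * ((ch.length + 1) * B + r) ≤ g → ∀ S : Set ℕ, Dom g w ch S i →
      P c (ch.map Prod.fst) S r w ≤ val c ch (max |w i| r) w := by
  classical
  have hB0 : 0 ≤ B := le_trans (abs_nonneg _) (hB 0)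
  induction ch with
  | nil =>
    intro _ S hD
    apply ciSup_le
    intro k
    simp only [val]
    split_ifs with hk
    · exact max_le_max (hD.2 k hk) le_rfl
    · exact le_max_right _ _
  | cons p ch ih =>
    intro hg S hD
    obtain ⟨h1, h2, h3⟩ := hD
    have hlen : ((p :: ch).length : ℝ) = ch.length + 1 := by simp
    rw [hlen] at hg
    have hg' : c * ((ch.length + 1) * B + r) ≤ g := by
      refine le_trans ?_ hg
      apply mul_le_mul_of_nonneg_left _ hc
      nlinarith
    have hv0 : 0 ≤ val c ch (max |w i| r) w := val_nonneg hc (le_max_of_le_right hr) _ _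
    apply ciSup_le
    intro k
    simp only [val]
    split_ifs with hk
    · by_cases hkp : k = p.2
      · subst hkp
        have := mul_le_mul_of_nonneg_left (ih hg' _ h3) hc
        simpa using this
      · have e1 := h2 k hk hkp
        have e2 := P_le hc hc1 hr hB (ch.map Prod.fst) (S ∩ side p.1 k)
        rw [List.length_map] at e2
        have e3 := mul_le_mul_of_nonneg_left e2 hc
        have e4 : 0 ≤ c * val c ch (max |w i| r) w := by positivity
        linarith
    · positivity

theorem val_second {c t t₁ t₂ : ℝ} (hc : 0 ≤ c) (w h : ℕ → ℝ) (ch : List (Bool × ℕ)) :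
    2 * val c ch t w + c ^ ch.length * (t₁ + t₂ - 2 * t)
      ≤ val c ch t₁ (fun n => w n + h n) + val c ch t₂ (fun n => w n - h n) := by
  induction ch with
  | nil => simp only [val, List.length_nil, pow_zero, one_mul]; linarith
  | cons p ch ih =>
    simp only [val, List.length_cons, pow_succ]
    have h1 : 2 * |w p.2| ≤ |w p.2 + h p.2| + |w p.2 - h p.2| := by
      have := abs_add_le (w p.2 + h p.2) (w p.2 - h p.2)
      have e : w p.2 + h p.2 + (w p.2 - h p.2) = 2 * w p.2 := by ring
      rw [e, abs_mul] at this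
      simpa using this
    have h2 := mul_le_mul_of_nonneg_left ih hc
    nlinarith

end Pool.Agent.X102.UPS
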