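import Pool.Agent.X102.UP1

/-! Focusing on one coordinate by a small perturbation. -/

namespace Pool.Agent.X102.UPS

open Set

/-- The sign, with `sg 0 = 1`. -/
noncomputable def sg (t : ℝ) : ℝ := if 0 ≤ t then 1 else -1

theorem sg_mul_self (t : ℝ) : sg t * t = |t| := by
  unfold sg
  split_ifs with h
  · rw [abs_of_nonneg h]; ring
  · rw [abs_of_neg (not_le.mp h)]; ring

theorem sg_sq (t : ℝ) : sg t * sg t = 1 := by
  unfold sg
  split_ifs <;> norm_num

theorem abs_sg (t : ℝ) : |sg t| = 1 := by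
  unfold sg
  split_ifs <;> norm_num

theorem abs_sg_mul (t : ℝ) {s : ℝ} (hs : 0 ≤ s) : |sg t * s| = s := by
  rw [abs_mul, abs_sg, one_mul, abs_of_nonneg hs]

theorem abs_sg_mul_sub (t : ℝ) {s : ℝ} (hs : |t| ≤ s) : |sg t * s - t| = s - |t| := by
  have h : sg t * s - t = sg t * (s - |t|) := by
    have := sg_mul_self t
    have h2 := sg_sq t
    rw [← this]
    linear_combination t * h2
  rw [h, abs_sg_mul t (by linarith)]

theorem Dom.congr {g : ℝ} {w w' : ℕ → ℝ} {i : ℕ} (ch : List (Bool × ℕ)) :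
    ∀ S : Set ℕ, (∀ k ∈ S, w k = w' k) → Dom g w ch S i → Dom g w' ch S i := by
  induction ch with
  | nil =>
    intro S h hD
    refine ⟨hD.1, fun k hk => ?_⟩
    rw [← h k hk, ← h i hD.1]
    exact hD.2 k hk
  | cons p ch ih =>
    intro S h hD
    refine ⟨hD.1, fun k hk hkp => ?_, ih _ (fun k hk => h k hk.1) hD.2.2⟩
    rw [← h k hk, ← h p.2 hD.1]
    exact hD.2.1 k hk hkp

/-- A perturbation `w` of `y` for which the chain `ch` dominates in `S`. -/
structure Focus (y : ℕ → ℝ) (g κ τ : ℝ) (i : ℕ) (S : Set ℕ) (ch : List (Bool × ℕ))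
    (w : ℕ → ℝ) (M : ℝ) : Prop where
  fin : {k | w k ≠ y k}.Finite
  close : ∀ k, |w k - y k| ≤ κ
  off : ∀ k, k ∉ S → w k = y k
  wi : w i = sg (y i) * τ
  bd : ∀ k ∈ S, |w k| ≤ M
  dom : Dom g w ch S i

theorem Focus.mono {y : ℕ → ℝ} {g κ τ : ℝ} {i : ℕ} {S : Set ℕ} {ch : List (Bool × ℕ)}
    {w : ℕ → ℝ} {M M' : ℝ} (h : Focus y g κ τ i S ch w M) (hM : M ≤ M') :
    Focus y g κ τ i S ch w M' :=
  ⟨h.fin, h.close, h.off, h.wi, fun k hk => (h.bd k hk).trans hM, h.dom⟩

theorem ne_of_mem_side {b : Bool} {i j : ℕ} (h : i ∈ side b j) : i ≠ j := by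
  unfold side at h
  rw [mem_ofPred_eq] at h
  split_ifs at h <;> omega

theorem Focus.step {y : ℕ → ℝ} {g κ τ : ℝ} {i : ℕ} {S : Set ℕ} {ch : List (Bool × ℕ)}
    {w : ℕ → ℝ} {M : ℝ} {b : Bool} {j : ℕ}
    (hF : Focus y g κ τ i (S ∩ side b j) ch w M) (hj : j ∈ S) (hi : i ∈ side b j) (hg : 0 ≤ g)
    (hM : ∀ k ∈ S, |y k| ≤ M) (hκ : M + g - |y j| ≤ κ) :
    Focus y g κ τ i S ((b, j) :: ch) (Function.update w j (sg (y j) * (M + g))) (M + g) := by
  have hMj := hM j hj
  have hM0 : 0 ≤ M := le_trans (abs_nonneg _) hMj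
  have hij : i ≠ j := ne_of_mem_side hi
  have hself : Function.update w j (sg (y j) * (M + g)) j = sg (y j) * (M + g) :=
    Function.update_self _ _ _
  have hne : ∀ k, k ≠ j → Function.update w j (sg (y j) * (M + g)) k = w k :=
    fun k hk => Function.update_of_ne hk _ _
  have hwk : ∀ k ∈ S, k ≠ j → |w k| ≤ M := by
    intro k hk hkj
    by_cases hks : k ∈ side b j
    · exact hF.bd k ⟨hk, hks⟩
    · rw [hF.off k (fun h => hks h.2)]
      exact hM k hk
  refine ⟨?_, ?_, ?_, ?_, ?_, ?_⟩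
  · refine (hF.fin.insert j).subset ?_
    intro k hk
    by_cases hkj : k = j
    · exact Or.inl hkj
    · right
      rw [mem_ofPred_eq, hne k hkj] at hk
      exact hk
  · intro k
    by_cases hkj : k = j
    · subst hkj
      rw [hself, abs_sg_mul_sub _ (by linarith)]
      exact hκ
    · rw [hne k hkj]
      exact hF.close k
  · intro k hk
    have hkj : k ≠ j := fun h => hk (h ▸ hj)
    rw [hne k hkj]
    exact hF.off k (fun h => hk h.1)
  · rw [hne i hij]
    exact hF.wi
  · intro k hk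
    by_cases hkj : k = j
    · subst hkj
      rw [hself, abs_sg_mul _ (by linarith)]
    · rw [hne k hkj]
      linarith [hwk k hk hkj]
  · refine ⟨hj, ?_, ?_⟩
    · intro k hk hkj
      rw [hne k hkj]
      show |w k| + g ≤ |Function.update w j (sg (y j) * (M + g)) j|
      rw [hself, abs_sg_mul _ (by linarith)]
      linarith [hwk k hk hkj]
    · refine Dom.congr ch _ ?_ hF.dom
      intro k hk
      exact (hne k (ne_of_mem_side hk.2)).symm

theorem focus_right {y : ℕ → ℝ} {i : ℕ} {α κ τ : ℝ} (hα : 0 < α) (hκ : 2 * α ≤ κ) (n : ℕ)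
    (ih : ∀ S : Set ℕ, i ∈ S → (∀ k ∈ S, |y k| ≤ |y i| + n * α) →
      ∃ ch w, ch.length ≤ 2 * n ∧ Focus y (α / 2) κ τ i S ch w (|y i| + n * α + α))
    (S : Set ℕ) (hi : i ∈ S) (hS : ∀ k ∈ S, |y k| ≤ |y i| + n * α + α)
    (hl : ∀ k ∈ S, k < i → |y k| ≤ |y i| + n * α) :
    ∃ ch w, ch.length ≤ 2 * n + 1 ∧
      Focus y (α / 2) κ τ i S ch w (|y i| + n * α + α + α / 2) := by
  classical
  by_cases hR : ∃ k, k ∈ S ∧ i < k ∧ |y i| + n * α < |y k|
  · obtain ⟨hj1, hj2, hj3⟩ := Nat.find_spec hR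
    have hmin : ∀ k, k < Nat.find hR → ¬ (k ∈ S ∧ i < k ∧ |y i| + n * α < |y k|) :=
      fun k hk => Nat.find_min hR hk
    generalize Nat.find hR = j at hj1 hj2 hj3 hmin
    have his : i ∈ side false j := by
      simp [side, hj2]
    obtain ⟨ch, w, hlen, hF⟩ := ih (S ∩ side false j) ⟨hi, his⟩ (by
      rintro k ⟨hk, hks⟩
      have hkj : k < j := by simpa [side] using hks
      rcases lt_trichotomy k i with h | h | h
      · exact hl k hk h
      · subst h
        have : (0:ℝ) ≤ n * α := by positivity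
        linarith
      · by_contra hcon
        exact hmin k hkj ⟨hk, h, not_le.mp hcon⟩)
    refine ⟨(false, j) :: ch, _, ?_, hF.step hj1 his (by positivity) hS ?_⟩
    · simp only [List.length_cons]
      omega
    · linarith
  · push Not at hR
    obtain ⟨ch, w, hlen, hF⟩ := ih S hi (by
      intro k hk
      rcases lt_trichotomy k i with h | h | h
      · exact hl k hk h
      · subst h
        have : (0:ℝ) ≤ n * α := by positivity
        linarith
      · exact hR k hk h)
    exact ⟨ch, w, by omega, hF.mono (by linarith)⟩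

theorem focus_exists {y : ℕ → ℝ} {i : ℕ} {α κ τ : ℝ} (hα : 0 < α) (hκ : 2 * α ≤ κ)
    (hτ1 : |y i| ≤ τ) (hτ2 : τ ≤ |y i| + α) (n : ℕ) :
    ∀ S : Set ℕ, i ∈ S → (∀ k ∈ S, |y k| ≤ |y i| + n * α) →
      ∃ ch w, ch.length ≤ 2 * n ∧ Focus y (α / 2) κ τ i S ch w (|y i| + n * α + α) := by
  classical
  induction n with
  | zero =>
    intro S hi hS
    have hτ0 : 0 ≤ τ := le_trans (abs_nonneg _) hτ1
    refine ⟨[], Function.update y i (sg (y i) * τ), by simp, ?_, ?_, ?_, ?_, ?_, ?_⟩
    · refine (finite_singleton i).subset ?_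
      intro k hk
      by_contra hki
      apply hk
      exact Function.update_of_ne hki _ _
    · intro k
      by_cases hki : k = i
      · subst hki
        rw [Function.update_self, abs_sg_mul_sub _ hτ1]
        linarith
      · rw [Function.update_of_ne hki, sub_self, abs_zero]
        linarith
    · intro k hk
      have hki : k ≠ i := fun h => hk (h ▸ hi)
      exact Function.update_of_ne hki _ _
    · exact Function.update_self _ _ _
    · intro k hk
      by_cases hki : k = i
      · subst hki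
        rw [Function.update_self, abs_sg_mul _ hτ0]
        simpa using hτ2
      · rw [Function.update_of_ne hki]
        have := hS k hk
        linarith
    · refine ⟨hi, ?_⟩
      intro k hk
      rw [Function.update_self, abs_sg_mul _ hτ0]
      by_cases hki : k = i
      · subst hki
        rw [Function.update_self, abs_sg_mul _ hτ0]
      · rw [Function.update_of_ne hki]
        have := hS k hk
        simp only [Nat.cast_zero, zero_mul, add_zero] at this
        linarith
  | succ n ih =>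
    intro S hi hS
    have hcast : |y i| + ((n + 1 : ℕ) : ℝ) * α = |y i| + n * α + α := by push_cast; ring
    rw [hcast] at hS ⊢
    by_cases hL : ∃ k, k ∈ S ∧ k < i ∧ |y i| + n * α < |y k|
    · have hne : ((Finset.range i).filter
          (fun k => k ∈ S ∧ |y i| + n * α < |y k|)).Nonempty := by
        obtain ⟨k, h1, h2, h3⟩ := hL
        exact ⟨k, by simp [h1, h2, h3]⟩
      obtain ⟨j, hj, hmax⟩ := Finset.exists_max_image _ (fun k : ℕ => k) hne
      rw [Finset.mem_filter, Finset.mem_range] at hj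
      obtain ⟨hj2, hj1, hj3⟩ := hj
      have his : i ∈ side true j := by
        simp [side, hj2]
      obtain ⟨ch, w, hlen, hF⟩ := focus_right hα hκ n ih (S ∩ side true j) ⟨hi, his⟩
        (fun k hk => hS k hk.1) (by
          rintro k ⟨hk, hks⟩ hki
          have hjk : j < k := by simpa [side] using hks
          by_contra hcon
          have := hmax k (by
            rw [Finset.mem_filter, Finset.mem_range]
            exact ⟨hki, hk, not_le.mp hcon⟩)
          omega)
      refine ⟨(true, j) :: ch, _, ?_, (hF.step hj1 his (by positivity)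
        (fun k hk => by linarith [hS k hk]) ?_).mono (by linarith)⟩
      · simp only [List.length_cons]
        omega
      · linarith
    · push Not at hL
      obtain ⟨ch, w, hlen, hF⟩ := focus_right hα hκ n ih S hi hS hL
      exact ⟨ch, w, by omega, hF.mono (by linarith)⟩

theorem exists_chain {y : ℕ → ℝ} {Y α τ : ℝ} {i j n₀ : ℕ} (hα : 0 < α) (hY : ∀ k, |y k| ≤ Y)
    (hj : Y - α ≤ |y j|) (hij : i ≠ j) (hτ1 : |y i| ≤ τ) (hτ2 : τ ≤ |y i| + α)
    (hn : Y ≤ n₀ * α) :
    ∃ ch w b, ch.length ≤ 2 * n₀ ∧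
      Focus y (α / 2) (4 * α) τ i univ ((b, j) :: ch) w (Y + 2 * α + α / 2) ∧
      w j = sg (y j) * (Y + 2 * α + α / 2) := by
  have hY0 : 0 ≤ Y - |y i| := by linarith [hY i]
  set n : ℕ := ⌈(Y - |y i|) / α⌉₊ with hndef
  have h1 : (Y - |y i|) / α ≤ n := Nat.le_ceil _
  have h2 : (n : ℝ) < (Y - |y i|) / α + 1 := Nat.ceil_lt_add_one (by positivity)
  have h1' : Y - |y i| ≤ n * α := by rwa [div_le_iff₀ hα] at h1
  have h2' : (n : ℝ) * α < Y - |y i| + α := by
    have := mul_lt_mul_of_pos_right h2 hα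
    rwa [add_mul, div_mul_cancel₀ _ hα.ne', one_mul] at this
  have hnn : n ≤ n₀ := by
    apply Nat.ceil_le.mpr
    rw [div_le_iff₀ hα]
    linarith [abs_nonneg (y i)]
  obtain ⟨b, hb⟩ : ∃ b, i ∈ side b j := by
    rcases lt_or_gt_of_ne hij with h | h
    · exact ⟨false, by simp [side, h]⟩
    · exact ⟨true, by simp [side, h]⟩
  obtain ⟨ch, w, hlen, hF⟩ := focus_exists (κ := 4 * α) hα (by linarith) hτ1 hτ2 n
    (univ ∩ side b j) ⟨mem_univ _, hb⟩ (fun k _ => by linarith [hY k])
  have hF' := (hF.mono (M' := Y + 2 * α) (by linarith)).step (mem_univ j) hb (by positivity)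
    (fun k _ => by linarith [hY k]) (by linarith)
  exact ⟨ch, _, b, by omega, hF', Function.update_self _ _ _⟩

end Pool.Agent.X102.UPS
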