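import Pool.Agent.X102.UP2

/-! The norm on `c₀`. -/

namespace Pool.Agent.X102.UPS

open Set
open scoped ZeroAtInfty

/-- parameters: pattern, the number `q` (factor `1/(q+1)`), and `k`, `m` (ratio `k/(m+1)`). -/
abbrev Idx := List Bool × ℕ × ℕ × ℕ

noncomputable def cc (p : Idx) : ℝ := 1 / ((p.2.1 : ℝ) + 1)

noncomputable def lam (p : Idx) : ℝ := (p.2.2.1 : ℝ) / ((p.2.2.2 : ℝ) + 1)

theorem cc_pos (p : Idx) : 0 < cc p := by unfold cc; positivity

theorem cc_le (p : Idx) : cc p ≤ 1 := by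
  unfold cc
  rw [div_le_one (by positivity)]
  linarith [Nat.cast_nonneg (α := ℝ) p.2.1]

theorem lam_nonneg (p : Idx) : 0 ≤ lam p := by unfold lam; positivity

theorem abs_le_norm (x : C₀(ℕ, ℝ)) (n : ℕ) : |x n| ≤ ‖x‖ := by
  have := x.toBCF.norm_coe_le_norm n
  rw [ZeroAtInftyContinuousMap.norm_toBCF_eq_norm] at this
  exact this

theorem norm_le_of {x : C₀(ℕ, ℝ)} {B : ℝ} (hB : 0 ≤ B) (h : ∀ n, |x n| ≤ B) : ‖x‖ ≤ B := by
  rw [← ZeroAtInftyContinuousMap.norm_toBCF_eq_norm]
  exact (BoundedContinuousFunction.norm_le hB).mpr h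

theorem exists_near {x : C₀(ℕ, ℝ)} {α : ℝ} (hα : 0 < α) : ∃ j, ‖x‖ - α ≤ |x j| := by
  by_contra hcon
  push Not at hcon
  by_cases h : 0 ≤ ‖x‖ - α
  · have := norm_le_of h (fun n => (hcon n).le)
    linarith
  · have := hcon 0
    have := abs_nonneg (x 0)
    linarith

noncomputable def Q (p : Idx) (x : C₀(ℕ, ℝ)) : ℝ := P (cc p) p.1 univ (lam p * ‖x‖) x

theorem Q_nonneg (p : Idx) (x : C₀(ℕ, ℝ)) : 0 ≤ Q p x :=
  P_nonneg (cc_pos p).le (mul_nonneg (lam_nonneg p) (norm_nonneg x)) _ _ _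

theorem Q_le (p : Idx) (x : C₀(ℕ, ℝ)) : Q p x ≤ ((p.1.length + 1) + lam p) * ‖x‖ := by
  have := P_le (cc_pos p).le (cc_le p) (mul_nonneg (lam_nonneg p) (norm_nonneg x))
    (abs_le_norm x) p.1 univ
  unfold Q
  linarith

theorem Q_add (p : Idx) (x y : C₀(ℕ, ℝ)) : Q p (x + y) ≤ Q p x + Q p y := by
  have := P_add (cc_pos p).le (cc_le p) (mul_nonneg (lam_nonneg p) (norm_nonneg x))
    (mul_nonneg (lam_nonneg p) (norm_nonneg y)) (r₃ := lam p * ‖x + y‖)
    (by rw [← mul_add]; exact mul_le_mul_of_nonneg_left (norm_add_le x y) (lam_nonneg p))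
    (abs_le_norm x) (abs_le_norm y) p.1 univ
  exact this

theorem Q_smul (p : Idx) (s : ℝ) (x : C₀(ℕ, ℝ)) : Q p (s • x) = |s| * Q p x := by
  have := P_smul (c := cc p) (r := lam p * ‖x‖) s x p.1 univ
  unfold Q
  rw [← this, norm_smul, Real.norm_eq_abs]
  congr 1
  ring

noncomputable def wt (p : Idx) : ℝ :=
  (1 / 2 : ℝ) ^ (Encodable.encode p) / ((p.1.length + 1) + lam p)

theorem den_pos (p : Idx) : 0 < ((p.1.length : ℝ) + 1) + lam p := by
  have := lam_nonneg p
  positivity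

theorem wt_pos (p : Idx) : 0 < wt p := div_pos (by positivity) (den_pos p)

theorem wtQ_le (p : Idx) (x : C₀(ℕ, ℝ)) :
    wt p * Q p x ≤ (1 / 2 : ℝ) ^ (Encodable.encode p) * ‖x‖ := by
  have h := mul_le_mul_of_nonneg_left (Q_le p x) (wt_pos p).le
  refine h.trans (le_of_eq ?_)
  unfold wt
  have := (den_pos p).ne'
  field_simp

theorem summable_wtQ (x : C₀(ℕ, ℝ)) : Summable fun p : Idx => wt p * Q p x :=
  Summable.of_nonneg_of_le (fun p => mul_nonneg (wt_pos p).le (Q_nonneg p x))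
    (fun p => wtQ_le p x) (summable_geometric_two_encode.mul_right _)

/-- The norm. -/
noncomputable def NN (x : C₀(ℕ, ℝ)) : ℝ := ‖x‖ + ∑' p : Idx, wt p * Q p x

/-- The upper constant. -/
noncomputable def CN : ℝ := 1 + ∑' p : Idx, (1 / 2 : ℝ) ^ (Encodable.encode p)

theorem CN_ge : 1 ≤ CN := by
  unfold CN
  have : 0 ≤ ∑' p : Idx, (1 / 2 : ℝ) ^ (Encodable.encode p) := tsum_nonneg fun p => by positivity
  linarith

theorem le_NN (x : C₀(ℕ, ℝ)) : ‖x‖ ≤ NN x := by
  unfold NN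
  have : 0 ≤ ∑' p : Idx, wt p * Q p x :=
    tsum_nonneg fun p => mul_nonneg (wt_pos p).le (Q_nonneg p x)
  linarith

theorem NN_nonneg (x : C₀(ℕ, ℝ)) : 0 ≤ NN x := (norm_nonneg x).trans (le_NN x)

theorem NN_le (x : C₀(ℕ, ℝ)) : NN x ≤ CN * ‖x‖ := by
  unfold NN CN
  have h := (summable_wtQ x).tsum_le_tsum (fun p => wtQ_le p x)
    (summable_geometric_two_encode.mul_right _)
  rw [tsum_mul_right] at h
  linarith

theorem NN_add (x y : C₀(ℕ, ℝ)) : NN (x + y) ≤ NN x + NN y := by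
  unfold NN
  have h := (summable_wtQ (x + y)).tsum_le_tsum
    (fun p => by
      have := mul_le_mul_of_nonneg_left (Q_add p x y) (wt_pos p).le
      rw [mul_add] at this
      exact this) ((summable_wtQ x).add (summable_wtQ y))
  rw [(summable_wtQ x).tsum_add (summable_wtQ y)] at h
  have := norm_add_le x y
  linarith

theorem NN_smul (s : ℝ) (x : C₀(ℕ, ℝ)) : NN (s • x) = |s| * NN x := by
  unfold NN
  rw [mul_add, ← tsum_mul_left, norm_smul, Real.norm_eq_abs]
  congr 1
  apply tsum_congr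
  intro p
  rw [Q_smul]
  ring

theorem add_add_sub_eq (w h : C₀(ℕ, ℝ)) : w + h + (w - h) = (2 : ℝ) • w := by
  ext n
  show w n + h n + (w n - h n) = 2 * w n
  ring

theorem second_diff (p : Idx) (w h : C₀(ℕ, ℝ)) :
    wt p * (Q p (w + h) + Q p (w - h) - 2 * Q p w) ≤ NN (w + h) + NN (w - h) - 2 * NN w := by
  have hsum := ((summable_wtQ (w + h)).add (summable_wtQ (w - h))).sub
    ((summable_wtQ w).mul_left 2)
  have hnn : ∀ q : Idx, 0 ≤ wt q * Q q (w + h) + wt q * Q q (w - h) - 2 * (wt q * Q q w) := by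
    intro q
    have h1 := Q_add q (w + h) (w - h)
    have e := add_add_sub_eq w h
    rw [e, Q_smul, abs_of_pos (by norm_num : (0:ℝ) < 2)] at h1
    have h2 := wt_pos q
    nlinarith
  have hle := hsum.le_tsum p (fun q _ => hnn q)
  rw [((summable_wtQ (w + h)).add (summable_wtQ (w - h))).tsum_sub ((summable_wtQ w).mul_left 2),
    (summable_wtQ (w + h)).tsum_add (summable_wtQ (w - h)), tsum_mul_left] at hle
  have hn : 2 * ‖w‖ ≤ ‖w + h‖ + ‖w - h‖ := by
    have h1 := norm_add_le (w + h) (w - h)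
    have e := add_add_sub_eq w h
    rw [e, norm_smul, Real.norm_eq_abs, abs_of_pos (by norm_num : (0:ℝ) < 2)] at h1
    exact h1
  unfold NN
  linarith

/-- A finitely supported sequence as an element of `c₀`. -/
noncomputable def ofFin (f : ℕ → ℝ) (hf : {k | f k ≠ 0}.Finite) : C₀(ℕ, ℝ) where
  toFun := f
  continuous_toFun := continuous_of_discreteTopology
  zero_at_infty' := by
    rw [Filter.cocompact_eq_cofinite]
    refine tendsto_const_nhds.congr' ?_
    rw [Filter.EventuallyEq, Filter.eventually_cofinite]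
    refine hf.subset ?_
    intro k hk
    exact fun h => hk h.symm

theorem kink (p : Idx) {w : C₀(ℕ, ℝ)} {ch : List (Bool × ℕ)} {b : Bool} {i j : ℕ} {g R ei ej : ℝ}
    (hp : p.1 = b :: ch.map Prod.fst)
    (hD : Dom g w ((b, j) :: ch) univ i) (hR : ∀ k, |w k| ≤ R) (hwj : ej * w j = R)
    (hej : |ej| = 1) (hei : |ei| = 1) (hwi : ei * w i = lam p * R)
    (hc : cc p * ((p.1.length + 1) * R + lam p * R) ≤ g) (h : C₀(ℕ, ℝ)) :
    cc p ^ p.1.length * (ei * h i - lam p * (ej * h j))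
      ≤ Q p (w + h) + Q p (w - h) - 2 * Q p w := by
  have hR0 : 0 ≤ R := le_trans (abs_nonneg _) (hR 0)
  have hl := lam_nonneg p
  have hc0 := (cc_pos p).le
  have habs : ∀ e s : ℝ, |e| = 1 → e * s ≤ |s| := by
    intro e s he
    calc e * s ≤ |e * s| := le_abs_self _
      _ = |s| := by rw [abs_mul, he, one_mul]
  have hwj' : |w j| = R := le_antisymm (hR j) (by rw [← hwj]; exact habs _ _ hej)
  have hnw : ‖w‖ = R := le_antisymm (norm_le_of hR0 hR) (by rw [← hwj']; exact abs_le_norm w j)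
  have hlen : ((b, j) :: ch).length = p.1.length := by simp [hp]
  have hmap : ((b, j) :: ch).map Prod.fst = p.1 := by simp [hp]
  have hwi' : |w i| = lam p * R := by
    have h1 : |ei * w i| = |w i| := by rw [abs_mul, hei, one_mul]
    rw [← h1, hwi, abs_of_nonneg (by positivity)]
  have hup : Q p w ≤ val (cc p) ((b, j) :: ch) |w i| w := by
    have := P_le_val (r := lam p * ‖w‖) hc0 (cc_le p) (by positivity) hR ((b, j) :: ch)
      (by rw [hlen, hnw]; exact hc) univ hD
    rw [hmap, hnw, hwi', max_self] at this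
    unfold Q
    rw [hnw, hwi']
    exact this
  have hlo1 : val (cc p) ((b, j) :: ch) |w i + h i| (fun n => w n + h n) ≤ Q p (w + h) := by
    have := val_le_P (r := lam p * ‖w + h‖) hc0 (cc_le p) (by positivity) (abs_le_norm (w + h))
      ((b, j) :: ch) univ hD
    rw [hmap] at this
    refine le_trans ?_ this
    refine le_trans (val_mono hc0 (le_max_left |w i + h i| (lam p * ‖w + h‖)) _ _) (le_of_eq ?_)
    rfl
  have hlo2 : val (cc p) ((b, j) :: ch) (lam p * |w j - h j|) (fun n => w n - h n)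
      ≤ Q p (w - h) := by
    have := val_le_P (r := lam p * ‖w - h‖) hc0 (cc_le p) (by positivity) (abs_le_norm (w - h))
      ((b, j) :: ch) univ hD
    rw [hmap] at this
    refine le_trans ?_ this
    have h1 : lam p * |w j - h j| ≤ lam p * ‖w - h‖ :=
      mul_le_mul_of_nonneg_left (abs_le_norm (w - h) j) hl
    refine le_trans (val_mono hc0 (h1.trans (le_max_right |w i - h i| _)) _ _) (le_of_eq ?_)
    rfl
  have hsec := val_second (c := cc p) (t := |w i|) (t₁ := |w i + h i|)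
    (t₂ := lam p * |w j - h j|) hc0 w h ((b, j) :: ch)
  rw [hlen] at hsec
  have h1 : ei * (w i + h i) ≤ |w i + h i| := habs _ _ hei
  have h2 : ej * (w j - h j) ≤ |w j - h j| := habs _ _ hej
  have h3 : lam p * (ej * (w j - h j)) ≤ lam p * |w j - h j| := mul_le_mul_of_nonneg_left h2 hl
  have h4 : ei * h i - lam p * (ej * h j)
      ≤ |w i + h i| + lam p * |w j - h j| - 2 * |w i| := by
    have e1 : ei * (w i + h i) = lam p * R + ei * h i := by rw [mul_add, hwi]
    have e2 : lam p * (ej * (w j - h j)) = lam p * R - lam p * (ej * h j) := by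
      rw [mul_sub, hwj]; ring
    rw [hwi']
    linarith
  have h5 := mul_le_mul_of_nonneg_left h4 (pow_nonneg hc0 p.1.length)
  linarith

end Pool.Agent.X102.UPS
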