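import Pool.Agent.X102.UP3

/-! The separation theorem for the norm `NN`. -/

namespace Pool.Agent.X102.UPS

open Set
open scoped ZeroAtInfty

theorem NN_neg (x : C₀(ℕ, ℝ)) : NN (-x) = NN x := by
  have h := NN_smul (-1) x
  have e : (-1 : ℝ) • x = -x := by
    ext n
    show (-1 : ℝ) * x n = -x n
    ring
  rw [e] at h
  simpa using h

theorem relation {x y : C₀(ℕ, ℝ)} {α a t u κ : ℝ} {i j n₀ m₀ q₀ k : ℕ}
    (ha : 0 < a) (ha1 : a ≤ 1) (hα : α = a / (16 * CN)) (ht : t = a / 4)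
    (hx1 : NN x = 1) (hy1 : NN y = 1) (hn : 1 ≤ n₀ * α)
    (hj : ‖y‖ - α ≤ |y j|) (hij : i ≠ j)
    (hτ1 : |y i| ≤ (k : ℝ) / ((m₀ : ℝ) + 1) * (‖y‖ + 2 * α + α / 2))
    (hτ2 : (k : ℝ) / ((m₀ : ℝ) + 1) * (‖y‖ + 2 * α + α / 2) ≤ |y i| + α)
    (hq : 1 / ((q₀ : ℝ) + 1) * ((2 * n₀ + 2) * 2 + 2) ≤ α / 2)
    (hκ0 : 0 < κ)
    (hκ : ∀ p : Idx, p.1.length ≤ 2 * n₀ + 1 → p.2 = (q₀, k, m₀) →
      κ ≤ wt p * cc p ^ p.1.length)
    (hcon : ∀ z : C₀(ℕ, ℝ), NN z ≤ a → |NN (x + z) - NN (y + z)| < u) :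
    |sg (y i) * (x i - y i) - (k : ℝ) / ((m₀ : ℝ) + 1) * (sg (y j) * (x j - y j))|
      ≤ 4 * u / (κ * t) := by
  have hCN := CN_ge
  have hα0 : 0 < α := by rw [hα]; positivity
  have hα1 : CN * (4 * α) = a / 4 := by rw [hα]; field_simp; ring
  have hα2 : α ≤ 1 / 16 := by
    rw [hα, div_le_div_iff₀ (by positivity) (by norm_num)]
    nlinarith
  have hY1 : ‖y‖ ≤ 1 := by rw [← hy1]; exact le_NN y
  have ht0 : 0 < t := by rw [ht]; positivity
  set R : ℝ := ‖y‖ + 2 * α + α / 2 with hR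
  have hR0 : 0 < R := by have := norm_nonneg y; positivity
  have hR2 : R ≤ 2 := by linarith
  obtain ⟨ch, w, b, hlen, hF, hwj⟩ := exists_chain hα0 (abs_le_norm y) hj hij hτ1 hτ2
    (hY1.trans hn)
  rw [← hR] at hwj
  have hfin : {n | (fun n => w n - y n) n ≠ 0}.Finite := by
    refine hF.fin.subset ?_
    intro n hn
    intro h
    apply hn
    show w n - y n = 0
    rw [h, sub_self]
  set z : C₀(ℕ, ℝ) := ofFin (fun n => w n - y n) hfin with hz
  have hzn : ∀ n, z n = w n - y n := fun n => rfl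
  have hz4 : ‖z‖ ≤ 4 * α := norm_le_of (by positivity) hF.close
  have hNz : NN z ≤ a / 4 := by
    refine (NN_le z).trans ?_
    rw [← hα1]
    exact mul_le_mul_of_nonneg_left hz4 (by linarith)
  have hyz : ∀ n, (y + z) n = w n := by
    intro n
    show y n + z n = w n
    rw [hzn]; ring
  have hyz' : ⇑(y + z) = w := funext hyz
  set p : Idx := (b :: ch.map Prod.fst, q₀, k, m₀) with hp
  have hp1 : p.1 = b :: ch.map Prod.fst := rfl
  have hplen : p.1.length = ch.length + 1 := by simp [hp]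
  have hlam : lam p = (k : ℝ) / ((m₀ : ℝ) + 1) := rfl
  have hcc : cc p = 1 / ((q₀ : ℝ) + 1) := rfl
  have hτR : lam p * R ≤ 2 := by
    rw [hlam]
    have := abs_le_norm y i
    linarith
  have hwR : ∀ n, |(y + z) n| ≤ R := by
    intro n
    rw [hyz]
    have := hF.bd n (mem_univ n)
    exact this
  have hei := abs_sg (y i)
  have hej := abs_sg (y j)
  have hwi' : sg (y i) * (y + z) i = lam p * R := by
    rw [hyz, hF.wi, ← mul_assoc, sg_sq, one_mul, hlam]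
  have hwj' : sg (y j) * (y + z) j = R := by
    rw [hyz, hwj, ← mul_assoc, sg_sq, one_mul]
  have hD : Dom (α / 2) (⇑(y + z)) ((b, j) :: ch) univ i := by
    rw [hyz']; exact hF.dom
  have hc : cc p * ((p.1.length + 1) * R + lam p * R) ≤ α / 2 := by
    refine le_trans ?_ hq
    rw [hcc]
    apply mul_le_mul_of_nonneg_left _ (by positivity)
    have h1 : ((p.1.length : ℝ) + 1) * R ≤ (2 * n₀ + 2) * 2 := by
      rw [hplen]
      have : ((ch.length + 1 : ℕ) : ℝ) + 1 ≤ 2 * n₀ + 2 := by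
        have h2 : (ch.length : ℝ) ≤ 2 * n₀ := by exact_mod_cast hlen
        push_cast
        linarith
      exact mul_le_mul this hR2 hR0.le (by positivity)
    linarith
  set h : C₀(ℕ, ℝ) := t • (x + z) with hh
  have hk1 := kink p hp1 hD hwR hwj' hej hei hwi' hc h
  have hk2 := kink p hp1 hD hwR hwj' hej hei hwi' hc (-h)
  have e1 : y + z + -h = y + z - h := by abel
  have e2 : y + z - -h = y + z + h := by abel
  rw [e1, e2] at hk2
  set D : ℝ := sg (y i) * (x i - y i) - (k : ℝ) / ((m₀ : ℝ) + 1) * (sg (y j) * (x j - y j))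
    with hDdef
  have hhn : ∀ n, h n = t * (x n - y n + (y + z) n) := by
    intro n
    show t * (x n + z n) = t * (x n - y n + (y n + z n))
    ring
  have hhD : sg (y i) * h i - lam p * (sg (y j) * h j) = t * D := by
    rw [hhn, hhn, hDdef]
    have a1 : sg (y i) * (t * (x i - y i + (y + z) i))
        = t * (sg (y i) * (x i - y i)) + t * (sg (y i) * (y + z) i) := by ring
    have a2 : sg (y j) * (t * (x j - y j + (y + z) j))
        = t * (sg (y j) * (x j - y j)) + t * (sg (y j) * (y + z) j) := by ring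
    rw [a1, a2, hwi', hwj', ← hlam]
    ring
  have hhD2 : sg (y i) * (-h) i - lam p * (sg (y j) * (-h) j) = -(t * D) := by
    rw [← hhD]
    show sg (y i) * (-(h i)) - lam p * (sg (y j) * (-(h j))) = _
    ring
  rw [hhD] at hk1
  rw [hhD2] at hk2
  have hcp : 0 < cc p ^ p.1.length := pow_pos (cc_pos p) _
  have hkabs : cc p ^ p.1.length * (t * |D|)
      ≤ Q p (y + z + h) + Q p (y + z - h) - 2 * Q p (y + z) := by
    rcases le_total 0 D with hD0 | hD0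
    · rw [abs_of_nonneg hD0]; exact hk1
    · rw [abs_of_nonpos hD0]
      have : cc p ^ p.1.length * (t * -D) = cc p ^ p.1.length * -(t * D) := by ring
      rw [this]
      linarith
  have hsd := second_diff p (y + z) h
  have hwt := wt_pos p
  have hκp := hκ p (by rw [hplen]; omega) rfl
  have hmain : κ * (t * |D|) ≤ NN (y + z + h) + NN (y + z - h) - 2 * NN (y + z) := by
    have h1 : κ * (t * |D|) ≤ wt p * cc p ^ p.1.length * (t * |D|) :=
      mul_le_mul_of_nonneg_right hκp (by positivity)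
    have h2 := mul_le_mul_of_nonneg_left hkabs hwt.le
    calc κ * (t * |D|) ≤ wt p * cc p ^ p.1.length * (t * |D|) := h1
      _ = wt p * (cc p ^ p.1.length * (t * |D|)) := by ring
      _ ≤ _ := h2.trans hsd
  -- the sizes
  have hNxz : NN (x + z) ≤ 1 + a / 4 := by
    have := NN_add x z
    linarith
  have hNh : NN h ≤ a / 2 := by
    rw [hh, NN_smul, abs_of_pos ht0, ht]
    have := NN_nonneg (x + z)
    nlinarith
  have hNzh : NN (z + h) ≤ a := by
    have := NN_add z h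
    linarith
  have hNzh' : NN (z - h) ≤ a := by
    have := NN_add z (-h)
    rw [NN_neg, ← sub_eq_add_neg] at this
    linarith
  have A1 := hcon z (by linarith)
  have A2 := hcon (z + h) hNzh
  have A3 := hcon (z - h) hNzh'
  have b1 : x + (z + h) = (1 + t) • (x + z) := by
    ext n
    show x n + (z n + t * (x n + z n)) = (1 + t) * (x n + z n)
    ring
  have b2 : x + (z - h) = (1 - t) • (x + z) := by
    ext n
    show x n + (z n - t * (x n + z n)) = (1 - t) * (x n + z n)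
    ring
  have b3 : y + (z + h) = y + z + h := by abel
  have b4 : y + (z - h) = y + z - h := by abel
  rw [b1, b3, NN_smul, abs_of_pos (show (0 : ℝ) < 1 + t by linarith)] at A2
  rw [b2, b4, NN_smul, abs_of_pos (show (0 : ℝ) < 1 - t by linarith)] at A3
  have A1' := (abs_lt.mp A1)
  have A2' := (abs_lt.mp A2)
  have A3' := (abs_lt.mp A3)
  rw [le_div_iff₀ (by positivity)]
  have fin1 : |D| * (κ * t) = κ * (t * |D|) := by ring
  rw [fin1]
  have g1 := A1'.1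
  have g2 := A1'.2
  have g3 := A2'.1
  have g4 := A3'.1
  have s1 : (1 + t) * NN (x + z) + (1 - t) * NN (x + z) = 2 * NN (x + z) := by ring
  linarith

theorem exists_params (α : ℝ) (hα : 0 < α) : ∃ n₀ m₀ q₀ : ℕ, 1 ≤ n₀ * α ∧
    2 / ((m₀ : ℝ) + 1) ≤ α / 2 ∧ 1 / ((q₀ : ℝ) + 1) * ((2 * n₀ + 2) * 2 + 2) ≤ α / 2 := by
  obtain ⟨n₀, hn₀⟩ := exists_nat_ge (1 / α)
  obtain ⟨m₀, hm₀⟩ := exists_nat_ge (4 / α)
  obtain ⟨q₀, hq₀⟩ := exists_nat_ge (2 * ((2 * n₀ + 2) * 2 + 2) / α)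
  refine ⟨n₀, m₀, q₀, ?_, ?_, ?_⟩
  · rwa [div_le_iff₀ hα] at hn₀
  · rw [div_le_iff₀ hα] at hm₀
    rw [div_le_div_iff₀ (by positivity) (by norm_num)]
    nlinarith
  · rw [div_le_iff₀ hα] at hq₀
    rw [one_div, inv_mul_le_iff₀ (by positivity)]
    nlinarith

theorem exists_kappa (n₀ m₀ q₀ : ℕ) : ∃ κ : ℝ, 0 < κ ∧ ∀ k : ℕ, k ≤ m₀ + 1 →
    ∀ p : Idx, p.1.length ≤ 2 * n₀ + 1 → p.2 = (q₀, k, m₀) →
      κ ≤ wt p * cc p ^ p.1.length := by
  have hT : (({σ : List Bool | σ.length ≤ 2 * n₀ + 1} ×ˢ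
      ((fun k : ℕ => ((q₀, k, m₀) : ℕ × ℕ × ℕ)) '' {k : ℕ | k ≤ m₀ + 1})) : Set Idx).Finite :=
    (List.finite_length_le Bool (2 * n₀ + 1)).prod ((Set.finite_le_nat _).image _)
  have hne : (({σ : List Bool | σ.length ≤ 2 * n₀ + 1} ×ˢ
      ((fun k : ℕ => ((q₀, k, m₀) : ℕ × ℕ × ℕ)) '' {k : ℕ | k ≤ m₀ + 1})) : Set Idx).Nonempty :=
    ⟨([], q₀, 0, m₀), by simp, ⟨0, by simp, rfl⟩⟩
  obtain ⟨p₀, _, hmin⟩ := Set.exists_min_image _ (fun p : Idx => wt p * cc p ^ p.1.length) hT hne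
  refine ⟨wt p₀ * cc p₀ ^ p₀.1.length, mul_pos (wt_pos _) (pow_pos (cc_pos _) _), ?_⟩
  intro k hk p hp1 hp2
  refine hmin p ⟨hp1, ⟨k, hk, hp2.symm⟩⟩

theorem main {d a : ℝ} (hd : 0 < d) (ha : 0 < a) : ∃ u : ℝ, 0 < u ∧ ∀ x y : C₀(ℕ, ℝ),
    NN x = 1 → NN y = 1 → d ≤ NN (x - y) →
      ∃ z : C₀(ℕ, ℝ), NN z ≤ a ∧ u ≤ |NN (x + z) - NN (y + z)| := by
  wlog ha1 : a ≤ 1 generalizing a
  · obtain ⟨u, hu, h⟩ := this one_pos le_rfl
    refine ⟨u, hu, fun x y hx hy hxy => ?_⟩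
    obtain ⟨z, hz, hz'⟩ := h x y hx hy hxy
    exact ⟨z, hz.trans (not_le.mp ha1).le, hz'⟩
  have hCN := CN_ge
  obtain ⟨α, hα⟩ : ∃ α : ℝ, α = a / (16 * CN) := ⟨_, rfl⟩
  obtain ⟨t, ht⟩ : ∃ t : ℝ, t = a / 4 := ⟨_, rfl⟩
  have hα0 : 0 < α := by rw [hα]; positivity
  have ht0 : 0 < t := by rw [ht]; positivity
  obtain ⟨n₀, m₀, q₀, hn, hm, hq⟩ := exists_params α hα0
  obtain ⟨κ, hκ0, hκ⟩ := exists_kappa n₀ m₀ q₀
  have hden : 0 < 8 * CN * (2 * (m₀ : ℝ) + 3) := by positivity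
  refine ⟨κ * t * d / (8 * CN * (2 * (m₀ : ℝ) + 3)), by positivity, ?_⟩
  set u : ℝ := κ * t * d / (8 * CN * (2 * (m₀ : ℝ) + 3)) with hu
  have hu0 : 0 < u := by positivity
  intro x y hx hy hxy
  by_contra hcon
  push Not at hcon
  obtain ⟨j, hj⟩ := exists_near (x := y) hα0
  have hY1 : ‖y‖ ≤ 1 := by rw [← hy]; exact le_NN y
  have hα2 : α ≤ 1 / 16 := by
    rw [hα, div_le_div_iff₀ (by positivity) (by norm_num)]
    nlinarith
  obtain ⟨R, hR⟩ : ∃ R : ℝ, R = ‖y‖ + 2 * α + α / 2 := ⟨_, rfl⟩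
  have hR0 : 0 < R := by rw [hR]; have := norm_nonneg y; positivity
  have hR2 : R ≤ 2 := by rw [hR]; linarith
  have hm1 : (0 : ℝ) < (m₀ : ℝ) + 1 := by positivity
  obtain ⟨ρ, hρ⟩ : ∃ ρ : ℝ, ρ = 4 * u / (κ * t) := ⟨_, rfl⟩
  have hρ0 : 0 < ρ := by rw [hρ]; positivity
  -- both coordinates are close
  have key : ∀ i, i ≠ j → |x j - y j| ≤ ρ * (2 * m₀ + 3) ∧ |x i - y i| ≤ ρ * (2 * m₀ + 3) := by
    intro i hij
    set k : ℕ := ⌈((m₀ : ℝ) + 1) * |y i| / R⌉₊ with hk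
    have hk1 : ((m₀ : ℝ) + 1) * |y i| / R ≤ k := Nat.le_ceil _
    have hk2 : (k : ℝ) < ((m₀ : ℝ) + 1) * |y i| / R + 1 :=
      Nat.ceil_lt_add_one (by positivity)
    have hk1' : |y i| ≤ (k : ℝ) / ((m₀ : ℝ) + 1) * R := by
      rw [div_le_iff₀ hR0] at hk1
      rw [div_mul_eq_mul_div, le_div_iff₀ hm1]
      linarith
    have hRm : R / ((m₀ : ℝ) + 1) ≤ α / 2 := by
      refine le_trans ?_ hm
      gcongr
    have hk2' : (k : ℝ) / ((m₀ : ℝ) + 1) * R ≤ |y i| + α / 2 := by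
      have h1 : (k : ℝ) * R ≤ ((m₀ : ℝ) + 1) * |y i| + R := by
        have h2 := mul_le_mul_of_nonneg_right hk2.le hR0.le
        rwa [add_mul, div_mul_cancel₀ _ hR0.ne', one_mul] at h2
      have h3 : (k : ℝ) / ((m₀ : ℝ) + 1) * R ≤ |y i| + R / ((m₀ : ℝ) + 1) := by
        rw [div_mul_eq_mul_div, div_le_iff₀ hm1, add_mul, div_mul_cancel₀ _ hm1.ne']
        linarith
      linarith
    have hk3 : ((k + 1 : ℕ) : ℝ) / ((m₀ : ℝ) + 1) * R
        = (k : ℝ) / ((m₀ : ℝ) + 1) * R + R / ((m₀ : ℝ) + 1) := by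
      push_cast; ring
    have hkle : k + 1 ≤ m₀ + 1 := by
      have h1 : ((k + 1 : ℕ) : ℝ) / ((m₀ : ℝ) + 1) * R < 1 * R := by
        rw [hk3, one_mul]
        have := abs_le_norm y i
        have : |y i| + α < R := by rw [hR]; linarith
        linarith
      have h2 := lt_of_mul_lt_mul_right h1 hR0.le
      rw [div_lt_one hm1] at h2
      have h3 : ((k + 1 : ℕ) : ℝ) < ((m₀ + 1 : ℕ) : ℝ) := by push_cast at h2 ⊢; exact h2
      exact (Nat.cast_lt.mp h3).le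
    have r1 := relation (k := k) ha ha1 hα ht hx hy hn hj hij (by rw [← hR]; exact hk1')
      (by rw [← hR]; linarith) hq hκ0 (hκ k (by omega)) hcon
    have r2 := relation (k := k + 1) ha ha1 hα ht hx hy hn hj hij
      (by rw [← hR, hk3]; have : 0 ≤ R / ((m₀ : ℝ) + 1) := by positivity
          linarith)
      (by rw [← hR, hk3]; linarith) hq hκ0 (hκ (k + 1) hkle) hcon
    rw [← hρ] at r1 r2
    have ei := abs_sg (y i)
    have ej := abs_sg (y j)
    have hdi : |sg (y i) * (x i - y i)| = |x i - y i| := by rw [abs_mul, ei, one_mul]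
    have hdj : |sg (y j) * (x j - y j)| = |x j - y j| := by rw [abs_mul, ej, one_mul]
    rw [← hdi, ← hdj]
    generalize sg (y i) * (x i - y i) = A at *
    generalize sg (y j) * (x j - y j) = B at *
    have e1 : ((k + 1 : ℕ) : ℝ) / ((m₀ : ℝ) + 1) * B
        = (k : ℝ) / ((m₀ : ℝ) + 1) * B + B / ((m₀ : ℝ) + 1) := by
      push_cast; ring
    rw [e1] at r2
    have hB : |B| / ((m₀ : ℝ) + 1) ≤ 2 * ρ := by
      have e2 : B / ((m₀ : ℝ) + 1) = (A - (k : ℝ) / ((m₀ : ℝ) + 1) * B)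
          - (A - ((k : ℝ) / ((m₀ : ℝ) + 1) * B + B / ((m₀ : ℝ) + 1))) := by ring
      have e3 : |B| / ((m₀ : ℝ) + 1) = |B / ((m₀ : ℝ) + 1)| := by
        rw [abs_div, abs_of_pos hm1]
      rw [e3, e2]
      refine (abs_sub _ _).trans ?_
      linarith
    rw [div_le_iff₀ hm1] at hB
    have hB' : |B| ≤ ρ * (2 * m₀ + 2) := by linarith
    refine ⟨by linarith, ?_⟩
    have hk4 : (k : ℝ) / ((m₀ : ℝ) + 1) ≤ 1 := by
      rw [div_le_one hm1]
      have : ((k : ℕ) : ℝ) ≤ ((m₀ + 1 : ℕ) : ℝ) := Nat.cast_le.mpr (by omega)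
      push_cast at this
      exact this
    have hk5 : (0 : ℝ) ≤ (k : ℝ) / ((m₀ : ℝ) + 1) := by positivity
    have e4 : A = (A - (k : ℝ) / ((m₀ : ℝ) + 1) * B) + (k : ℝ) / ((m₀ : ℝ) + 1) * B := by ring
    rw [e4]
    refine (abs_add_le _ _).trans ?_
    rw [abs_mul, abs_of_nonneg hk5]
    have := mul_le_of_le_one_left (abs_nonneg B) hk4
    linarith
  have hall : ∀ i, |(x - y) i| ≤ ρ * (2 * m₀ + 3) := by
    intro i
    show |x i - y i| ≤ _
    by_cases hij : i = j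
    · subst hij
      exact (key (i + 1) (by omega)).1
    · exact (key i hij).2
  have hnorm : ‖x - y‖ ≤ ρ * (2 * m₀ + 3) := norm_le_of (by positivity) hall
  have hfin : NN (x - y) ≤ CN * (ρ * (2 * m₀ + 3)) :=
    (NN_le _).trans (mul_le_mul_of_nonneg_left hnorm (by linarith))
  have hval : CN * (ρ * (2 * m₀ + 3)) = d / 2 := by
    rw [hρ, hu]
    have h1 : (2 * (m₀ : ℝ) + 3) ≠ 0 := by positivity
    field_simp
    ring
  linarith

end Pool.Agent.X102.UPS
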